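import Pool.Agent.MP_bea40e_an.Defs
import Pool.Agent.Lib.SCV.Osgood
import Pool.Agent.MP_c0606f_ag.Mg.Klt_Horm

attribute [-instance] RKHS.instFunLike RightPreLieAlgebra.toModule LeftPreLieAlgebra.toModule
  TotallySeparatedSpace.t2Space IsTopologicalTorsor.toContinuousSMul ProperSMul.toContinuousSMul
  AddQuantale.instAddLeftMono NonarchimedeanAddGroup.toIsTopologicalAddGroup
  CoalgHomClass.toSemilinearMapClass Valued.toUniformSpace IdemSemiring.toCanonicallyOrderedAdd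
  RingHomClass.toLinearMapClassNNRat NonarchimedeanRing.toIsTopologicalRing LieAlgebra.toModule
  NumberField.to_charZero instCoeHTCTOfCoeTailOfCoeHTC LieRinehartAlgebra.toIsScalarTower
  Group.IsPerfect.subsingleton_of_isMulCommutative
  NonUnitalNormedCommRing.toNonUnitalSeminormedCommRing MonTypeEquivalenceMon.monMonoid
  SemilinearIsometryClass.toSemilinearMapClass NonUnitalNonAssocSemiring.toAddCommMonoid
  Semiring.toAddCommMonoid NonUnitalNonAssocRing.toAddCommGroup DenselyNormedField.toNormedField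
  LieAdmissibleAlgebra.toSMulCommClass RingHomClass.toLinearMapClassRat
  Valued.isTopologicalDivisionRing LieAdmissibleAlgebra.toIsScalarTower instCoeHTCOfCoeHeadOfCoeOTC
  RightPreLieAlgebra.toSMulCommClass LeftPreLieAlgebra.toSMulCommClass
  CStarAlgebra.toNonUnitalCStarAlgebra AddQuantale.instAddRightMono LeftPreLieAlgebra.toIsScalarTower
  RightPreLieAlgebra.toIsScalarTower IsValuativeTopology.instIsTopologicalAddGroup
  IdemSemiring.toMulLeftMono instCoeTOfCoeDep NormedDivisionRing.toNormedRing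
  IsTopologicalSemiring.toContinuousAdd IsOrderedMonoid.toMulLeftMono
  instDiscreteTopologyOfAlexandrovDiscreteOfT1Space Algebra.toModule instIsModuleTopology
  NonUnitalSeminormedRing.toPseudoMetricSpace instCoeTCOfCoe

section

/-! Generic vocabulary: Levi form, discs, tame families, tube data. -/

open Filter Topology Set Metric Complex
open scoped ContDiff ComplexConjugate

namespace Pool.Agent.MP_bea40e_an.Iv

section Levi

variable {ι : Type} [Fintype ι]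

/-- real Hessian -/
noncomputable def Hs (f : (ι → ℂ) → ℝ) (x v w : ι → ℂ) : ℝ := fderiv ℝ (fderiv ℝ f) x v w

/-- real part of the Levi bilinear form -/
noncomputable def Lb (f : (ι → ℂ) → ℝ) (x v w : ι → ℂ) : ℝ :=
  (Hs f x v w + Hs f x (I • v) (I • w)) / 4

/-- Levi form (equal to `‖v j‖ ^ 2` for `f x = ‖x j‖ ^ 2`) -/
noncomputable def Lv (f : (ι → ℂ) → ℝ) (x v : ι → ℂ) : ℝ := Lb f x v v

/-- smooth and plurisubharmonic at a point -/
def PshAt (f : (ι → ℂ) → ℝ) (x : ι → ℂ) : Prop := ContDiffAt ℝ ∞ f x ∧ ∀ v, 0 ≤ Lv f x v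

/-- holomorphic near `y` on a space spread over `ι → ℂ` -/
def HolAt {Y : Type} [TopologicalSpace Y] (π : Y → ι → ℂ) (g : Y → ℂ) (y : Y) : Prop :=
  ∃ G : (ι → ℂ) → ℂ, AnalyticAt ℂ G (π y) ∧ g =ᶠ[𝓝 y] fun t => G (π t)

end Levi

/-- smooth step from `0` (left of `a`) to `1` (right of `b`) -/
noncomputable def st (a b t : ℝ) : ℝ := Real.smoothTransition ((t - a) / (b - a))

/-- convex, zero on the negative axis, slope one right of `1 / 16` -/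
noncomputable def kap (t : ℝ) : ℝ := ∫ u in (0 : ℝ)..t, Real.smoothTransition (16 * u)

section Disc

variable {E : Type} [NormedAddCommGroup E] [NormedSpace ℂ E]

/-- closed analytic discs -/
def Disc (W : ℂ → E) : Prop := DiffContOnCl ℂ W (ball 0 1)

/-- all holomorphic functions on `D` extend along `W` and all nearby discs -/
def Reach (D : Set E) (W : ℂ → E) : Prop :=
  Disc W ∧ (∀ ζ ∈ sphere (0 : ℂ) 1, W ζ ∈ D) ∧ ∃ ε > 0, ∀ V : ℂ → E, Disc V →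
    (∀ ζ ∈ closedBall (0 : ℂ) 1, ‖V ζ‖ < ε) → ∀ f : E → ℂ, DifferentiableOn ℂ f D →
      ∀ s : ℂ, 1 < ‖s‖ → (∮ ζ in C(0, 1), (ζ - s)⁻¹ • f (W ζ + V ζ)) = 0

/-- Cauchy integral of `f` over the boundary of `W` -/
noncomputable def cauchy (f : E → ℂ) (W : ℂ → E) (s : ℂ) : ℂ :=
  (2 * Real.pi * I)⁻¹ • ∮ ζ in C(0, 1), (ζ - s)⁻¹ • f (W ζ)

end Disc

/-- families of smooth maps all of whose derivatives grow polynomially in the size -/
def Tame {ix E F : Type} [NormedAddCommGroup E] [NormedSpace ℝ E] [NormedAddCommGroup F]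
    [NormedSpace ℝ F] (sz : ix → ℕ) (U : ix → Set E) (f : ix → E → F) : Prop :=
  ∃ M : ℕ, (∀ i, M ≤ sz i → ∀ x ∈ U i, ContDiffAt ℝ ∞ (f i) x) ∧
    ∀ k : ℕ, ∃ N : ℕ, ∀ i, M ≤ sz i → ∀ x ∈ U i, ‖iteratedFDeriv ℝ k (f i) x‖ ≤ (sz i : ℝ) ^ N

/-- what the construction delivers: a smooth domain with families of separated discs of
arbitrarily large total volume -/
def Core {ι : Type} [Fintype ι] (i0 : ι) (D : Set (ι → ℂ)) : Prop :=
  IsOpen D ∧ IsConnected D ∧ Bornology.IsBounded D ∧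
    (∃ ρ : (ι → ℂ) → ℝ, ContDiff ℝ ∞ ρ ∧ ∀ p ∈ frontier D, fderiv ℝ ρ p ≠ 0 ∧
      ∀ᶠ x in 𝓝 p, (x ∈ D ↔ ρ x < 0)) ∧
    ∀ C : ℕ, ∃ (A : Type) (_ : Fintype A) (T : A → Set (ι → ℂ)) (W : A → (ι → ℂ) → ℂ → ι → ℂ),
      (∀ a, MeasurableSet (T a)) ∧ (C : ENNReal) ≤ ∑ a, MeasureTheory.volume (T a) ∧
      (∀ a, ∀ x ∈ T a, Reach D (W a x) ∧ (∀ ζ, W a x ζ i0 = ζ) ∧ ‖x i0‖ < 1 ∧
        W a x (x i0) = x) ∧
      ∀ a b, a ≠ b → ∀ x ∈ T a, x ∈ T b → ∃ f : (ι → ℂ) → ℂ, DifferentiableOn ℂ f D ∧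
        cauchy f (W a x) (x i0) ≠ cauchy f (W b x) (x i0)

/-! The conditions of the tube system as functions of numbers. -/

noncomputable def cP (u Z : ℂ) : ℝ := ((Z + Z ^ 2 / (8 * u ^ 8)) / u ^ 13).re - 1 / 2

noncomputable def cT (μ : ℝ) (u z Z : ℂ) : ℝ :=
  (‖z / (2 * u ^ 13 - Z)‖ ^ 2 - 1 - (5 * u ^ 4).re) / μ ^ 4

noncomputable def cS (μ : ℝ) (u : ℂ) (q : ℝ) : ℝ := (q - 1 - (5 * u ^ 4).re) / μ ^ 4

noncomputable def cF (μ : ℝ) (u : ℂ) (Φ : ℝ) : ℝ := (Φ - (10 * u ^ 8).re) / μ ^ 8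

noncomputable def cX (μ a : ℝ) (u : ℂ) (y q : ℝ) : ℝ :=
  ((y + 10 * (q - 1)) * √a - (5 * u ^ 4).re) / μ ^ 4

noncomputable def cA (μ c : ℝ) (u Z : ℂ) (r : ℝ) : ℝ :=
  (r - (2 * c * u ^ 17 / (2 * u ^ 13 - Z)).re + (30 * c * (u * Z + Z ^ 2 / (8 * u ^ 7))).re -
    (c * u ^ 9).re) / (c * μ ^ 9)

/-- the numerical frame of the tube inequalities: `m` local scale, `u` its holomorphic
version at a point with imaginary part `y` -/
structure Fr (μ m c a : ℝ) (u : ℂ) (y : ℝ) : Prop where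
  mu_pos : 0 < μ
  mu_le : μ ≤ m
  one_le : 1 ≤ c
  small : c * m ≤ 1 / 10 ^ 8
  a_pos : 0 < a
  a_le : a ≤ 1 / 40000
  u_near : ‖u - m‖ ≤ 4 * |y|
  y_le : |y| ≤ 10 * m ^ 4

/-- tube data -/
structure TD (ι A ix : Type) where
  is : ι
  iz : ι
  il : ι
  r : (ι → ℂ) → ℝ
  m : ℝ → ℝ
  u : ℂ → ℂ
  μ : ℝ
  a : ℝ
  c : ℝ
  L : ℝ
  Cz : ℝ
  ε : ℝ
  V : A → Set (ι → ℂ)
  Kc : A → Set (ι → ℂ)
  z : A → (ι → ℂ) → ℂ
  Φ : A → (ι → ℂ) → ℝ
  Y : A → ix → (ι → ℂ) → ℂ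
  g : A → (ι → ℂ) → ℝ
  wt : A → (ι → ℂ) → ℝ
  tilt : A → (ι → ℂ) → ℝ
  pre : A → A → (ι → ℂ) → Prop

namespace TD

variable {ι A ix : Type} (T : TD ι A ix)

def lam (x : ι → ℂ) : ℝ := (x T.il).re

def mm (x : ι → ℂ) : ℝ := T.m (T.lam x)

noncomputable def q (x : ι → ℂ) : ℝ := ‖x T.is‖ ^ 2

def uu (x : ι → ℂ) : ℂ := T.u (x T.il)

def Z (a : A) (x : ι → ℂ) : ℂ := x T.is * T.z a x

/-- the energy unit -/
def En (x : ι → ℂ) : ℝ := T.c * T.mm x ^ 9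

/-- the level function of a chart -/
noncomputable def n (a : A) (x : ι → ℂ) : ℝ :=
  max (max (‖T.z a x‖ / T.mm x ^ 8) ((T.q x - 1) / (10 * T.mm x ^ 4)))
    (max (T.Φ a x / (20 * T.mm x ^ 8)) (T.g a x))

def Cop (a : A) (θ : ℝ) : Set (ι → ℂ) := {x | x ∈ T.V a ∧ T.n a x < θ}

def Ccl (a : A) (θ : ℝ) : Set (ι → ℂ) := {x | x ∈ T.V a ∧ T.n a x ≤ θ}

def Bop (θ : ℝ) : Set (ι → ℂ) := {x | T.r x < θ * T.En x ∧ |T.lam x| < 7 / 4 * T.L}

def Bcl (θ : ℝ) : Set (ι → ℂ) := {x | T.r x ≤ θ * T.En x ∧ |T.lam x| ≤ 7 / 4 * T.L}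

/-- the charts of the etale space -/
def O : Option A → Set (ι → ℂ)
  | none => T.Bop 220
  | some a => T.Cop a 5

def rel : Option A → Option A → (ι → ℂ) → Prop
  | some a, some b => T.pre a b
  | _, _ => fun _ => True

def U0 : Set (ι → ℂ) := T.Bop 210 \ ⋃ a, T.Ccl a 1

def F0 : Set (ι → ℂ) := T.Bcl 210 \ ⋃ a, T.Cop a 1

def Q : Option A → Set (ι → ℂ)
  | none => T.Bcl 200 \ ⋃ a, T.Cop a 2
  | some a => T.Ccl a 3

def Qo : Option A → Set (ι → ℂ)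
  | none => T.Bop 200 \ ⋃ a, T.Ccl a 2
  | some a => T.Cop a 3

/-- the conditions of a chart -/
noncomputable def cond (a : A) : Fin 5 ⊕ Bool × ix → (ι → ℂ) → ℝ
  | .inl 0 => fun x => cP (T.uu x) (T.Z a x)
  | .inl 1 => fun x => cT T.μ (T.uu x) (T.z a x) (T.Z a x)
  | .inl 2 => fun x => cS T.μ (T.uu x) (T.q x)
  | .inl 3 => fun x => cF T.μ (T.uu x) (T.Φ a x)
  | .inl 4 => fun x => cA T.μ T.c (T.uu x) (T.Z a x) (T.r x)
  | .inr (true, i) => fun x => cX T.μ T.a (T.uu x) (T.Y a i x).im (T.q x)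
  | .inr (false, i) => fun x => cX T.μ T.a (T.uu x) (-(T.Y a i x).im) (T.q x)

/-- open domains of the conditions -/
def sU (a : A) : Fin 5 ⊕ Bool × ix → Set (ι → ℂ)
  | .inl 1 => {x | x ∈ T.Cop a 4 ∧ T.mm x ^ 13 / 2 < ‖2 * T.uu x ^ 13 - T.Z a x‖}
  | .inl 4 => {x | x ∈ T.Cop a 4 ∧ T.mm x ^ 13 / 2 < ‖2 * T.uu x ^ 13 - T.Z a x‖ ∧
      1 - 12 * T.mm x ^ 4 < T.q x ∧ -T.L / 4 < T.lam x}
  | .inl _ => T.Cop a 4
  | .inr _ => {x | x ∈ T.Cop a 4 ∧ 1 / 4 < T.q x}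

/-- closed domains of the conditions -/
def sF (a : A) : Fin 5 ⊕ Bool × ix → Set (ι → ℂ)
  | .inl 1 => {x | x ∈ T.Ccl a 4 ∧ T.mm x ^ 13 / 2 ≤ ‖2 * T.uu x ^ 13 - T.Z a x‖}
  | .inl 4 => {x | x ∈ T.Ccl a 4 ∧ T.mm x ^ 13 / 2 ≤ ‖2 * T.uu x ^ 13 - T.Z a x‖ ∧
      1 - 12 * T.mm x ^ 4 ≤ T.q x ∧ -T.L / 4 ≤ T.lam x}
  | .inl _ => T.Ccl a 4
  | .inr _ => {x | x ∈ T.Ccl a 4 ∧ 1 / 4 ≤ T.q x}

noncomputable def c0 (x : ι → ℂ) : ℝ := (T.r x - 45 * T.En x) / (T.c * T.μ ^ 9)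

noncomputable def cG (x : ι → ℂ) : ℝ := ‖x T.iz‖ ^ 2 / T.Cz ^ 2 - 4

/-- the point `x` of the chart `b` satisfies all conditions up to `δ` -/
def Sat (δ : ℝ) (b : Option A) (x : ι → ℂ) : Prop :=
  (∀ a k, x ∈ T.sU a k → T.rel (some a) b x → T.cond a k x ≤ T.tilt a x + δ) ∧
    (x ∈ T.U0 → T.c0 x ≤ δ) ∧ T.cG x ≤ δ

/-- points deep inside a tube -/
def Deep (a : A) (x : ι → ℂ) : Prop :=
  x ∈ T.V a ∧ ‖T.z a x‖ ≤ T.mm x ^ 13 / 50 ∧ T.q x ≤ 1 ∧ T.Φ a x ≤ T.mm x ^ 8 ∧ T.g a x < 1 ∧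
    ‖x T.iz‖ ≤ T.Cz ∧ -T.L / 4 < T.lam x ∧ (1 / 4 ≤ T.q x → ∀ i, |(T.Y a i x).im| ≤ 10 * (1 - T.q x))

/-- the data of the charts `a`, `b` agree at `x` up to `δ` -/
def Near (δ : ℝ) (a b : A) (x : ι → ℂ) : Prop :=
  ‖T.z a x - T.z b x‖ ≤ δ ∧ |T.Φ a x - T.Φ b x| ≤ δ ∧
    (1 / 4 ≤ T.q x → ∀ i, ‖T.Y a i x - T.Y b i x‖ ≤ δ)

variable [Fintype ι] [Fintype ix]

/-- the hypotheses of the tube theorem -/
structure Ok : Prop where
  cont_r : Continuous T.r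
  cont_m : Continuous T.m
  mu_pos : 0 < T.μ
  mu_le : ∀ t, T.μ ≤ T.m t
  one_le : 1 ≤ T.c
  a_pos : 0 < T.a
  a_le : T.a ≤ 1 / 40000
  L_pos : 0 < T.L
  Cz_pos : 0 < T.Cz
  ε_pos : 0 < T.ε
  ε_le : T.ε ≤ 1 / 200
  small : ∀ x, |T.lam x| ≤ 2 * T.L → T.c * T.mm x ≤ 1 / 10 ^ 8
  V_open : ∀ a, IsOpen (T.V a)
  V_lam : ∀ a, ∀ x ∈ T.V a, |T.lam x| ≤ 2 * T.L
  Kc_cpt : ∀ a, IsCompact (T.Kc a)
  Kc_sub : ∀ a, T.Kc a ⊆ T.V a
  O_sub : ∀ a, T.Cop a 5 ⊆ T.Kc a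
  O_lam : ∀ a, ∀ x ∈ T.Cop a 5, |T.lam x| ≤ 3 / 2 * T.L
  an_z : ∀ a, ∀ x ∈ T.V a, AnalyticAt ℂ (T.z a) x
  psh_Φ : ∀ a, ∀ x ∈ T.V a, PshAt (T.Φ a) x
  Φ_ge : ∀ a, ∀ x ∈ T.V a, (x T.il).im ^ 2 ≤ T.Φ a x
  cont_g : ∀ a, Continuous (T.g a)
  an_Y : ∀ a i, ∀ x ∈ T.V a, x T.is ≠ 0 → AnalyticAt ℂ (T.Y a i) x
  an_u : ∀ l : ℂ, |l.im| ≤ T.m l.re / 16 → AnalyticAt ℂ T.u l ∧ ‖T.u l - T.m l.re‖ ≤ 4 * |l.im|
  psh_tilt : ∀ a x, PshAt (fun t => -T.tilt a t) x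
  tilt_le : ∀ a, ∀ x ∈ T.Cop a 5, |T.tilt a x| ≤ 1 / 200
  psh_r : ∀ a, ∀ x ∈ T.Cop a 5, -T.L / 4 ≤ T.lam x → 1 - 12 * T.mm x ^ 4 ≤ T.q x → PshAt T.r x
  psh_0 : ∀ x ∈ T.Bcl 220, -T.L / 4 ≤ T.lam x → PshAt (fun t => T.r t - 45 * T.En t) x
  box : ∀ x ∈ T.Bcl 220, |T.lam x| ≤ 3 / 2 * T.L ∧ ‖x‖ ≤ 2
  box0 : ∀ x, T.r x < 0 → |T.lam x| ≤ 3 / 2 * T.L ∧ ‖x T.iz‖ ≤ 3 / 2 * T.Cz
  low : ∀ a, ∀ x ∈ T.Cop a 5, -T.L / 4 ≤ T.lam x → T.r x ≤ T.mm x ^ 8 →
    (T.Z a x).re + (T.q x - 1) ^ 2 / 2 + T.Φ a x / 2 + T.wt a x * ∑ i, (T.Y a i x).im ^ 2 ≤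
      T.r x + T.mm x ^ 13 / 10
  wt_nonneg : ∀ a x, 0 ≤ T.wt a x
  wt_ge : ∀ a, ∀ x ∈ T.Cop a 5, T.a ≤ T.wt a x ∨ 20 * √T.a ≤ T.mm x ^ 4
  Y_le : ∀ a i, ∀ x ∈ T.Cop a 5, 1 / 4 ≤ T.q x → |(T.Y a i x).im| ≤ 6
  up : ∀ a, ∀ x ∈ T.Cop a 5, -T.L / 4 ≤ T.lam x → 1 - 12 * T.mm x ^ 4 ≤ T.q x →
    ‖x T.iz‖ ^ 2 ≤ 5 * T.Cz ^ 2 → (∀ i, |(T.Y a i x).im| * √T.a ≤ 6 * T.mm x ^ 4) →
      T.r x ≤ T.c * T.mm x ^ 8
  open1 : ∀ a, ∀ x ∈ T.Cop a 5, T.lam x ≤ -T.L / 4 → ‖x T.iz‖ ^ 2 ≤ 5 * T.Cz ^ 2 →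
    ‖T.z a x‖ ≤ T.mm x ^ 13 / 50
  open2 : ∀ x ∈ T.Bcl 220, T.lam x ≤ -T.L / 4 → ∃ a, x ∈ T.Cop a 1
  open3 : ∀ a, ∀ x ∈ T.Cop a 5, T.lam x ≤ -T.L / 4 → T.r x < 0 →
    T.q x - 1 ≤ T.mm x ^ 4 ∧ T.Φ a x ≤ T.mm x ^ 8 ∧ 20 * √T.a ≤ T.mm x ^ 4
  pre_refl : ∀ a x, T.pre a a x
  pre_symm : ∀ a b x, T.pre a b x → T.pre b a x
  pre_trans : ∀ a b c x, T.pre a b x → T.pre b c x → T.pre a c x
  pre_open : ∀ a b, IsOpen {x | x ∈ T.Cop a 5 ∧ x ∈ T.Cop b 5 ∧ T.pre a b x}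
  pre_closed : ∀ a b, IsOpen {x | x ∈ T.Cop a 5 ∧ x ∈ T.Cop b 5 ∧ ¬T.pre a b x}
  sep : ∀ a b, ∀ x ∈ T.Cop a 5, x ∈ T.Cop b 5 → x ∈ T.Bcl 220 → T.pre a b x
  close : ∀ a b, a ≠ b → ∀ x ∈ T.Cop a 5, x ∈ T.V b → T.g b x < 5 → T.pre a b x →
    T.mm x ≤ 3 * T.μ ∧ T.Near (T.ε * T.μ ^ 30) a b x
  dom : ∀ a, ∀ x ∈ T.Cop a 5, 1 ≤ T.g a x → ∃ b, x ∈ T.V b ∧ T.pre a b x ∧ T.g b x < 1 ∧
    T.tilt b x + 3 * T.ε ≤ T.tilt a x

end TD

end Pool.Agent.MP_bea40e_an.Iv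

end

section

open Filter Topology Set Metric Complex
open scoped ContDiff ComplexConjugate

namespace Pool.Agent.MP_bea40e_an.Iv

/-! Calculus of the Levi form, part 1. -/

variable {ι : Type} [Fintype ι] {f g : (ι → ℂ) → ℝ} {x : ι → ℂ}

theorem l1_two : (2 : WithTop ℕ∞) ≤ ∞ := WithTop.coe_le_coe.2 (le_top (a := (2 : ℕ∞)))

theorem l1_ev (hf : ContDiffAt ℝ ∞ f x) : ∀ᶠ t in 𝓝 x, DifferentiableAt ℝ f t :=
  ((hf.of_le (m := 1) (by exact_mod_cast le_top)).eventually (by simp)).mono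
    fun _ h => h.differentiableAt (by simp)

theorem l1_d2 (hf : ContDiffAt ℝ ∞ f x) : DifferentiableAt ℝ (fderiv ℝ f) x :=
  (hf.fderiv_right (m := 1) (by rw [one_add_one_eq_two]; exact l1_two)).differentiableAt (by simp)

theorem l1_has (hf : ContDiffAt ℝ ∞ f x) (w : ι → ℂ) :
    HasFDerivAt (fun t => fderiv ℝ f t w)
      ((ContinuousLinearMap.apply ℝ ℝ w).comp (fderiv ℝ (fderiv ℝ f) x)) x :=
  (ContinuousLinearMap.apply ℝ ℝ w).hasFDerivAt.comp x (l1_d2 hf).hasFDerivAt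

theorem l1_Hs (hf : ContDiffAt ℝ ∞ f x) (v w : ι → ℂ) :
    Hs f x v w = fderiv ℝ (fun t => fderiv ℝ f t w) x v := by
  rw [(l1_has hf w).fderiv]; rfl

theorem l1_symm (hf : ContDiffAt ℝ ∞ f x) (v w : ι → ℂ) : Hs f x v w = Hs f x w v :=
  (hf.isSymmSndFDerivAt (by simpa using l1_two)).eq v w

theorem l1_add (hf : ContDiffAt ℝ ∞ f x) (hg : ContDiffAt ℝ ∞ g x) (v w : ι → ℂ) :
    Hs (fun t => f t + g t) x v w = Hs f x v w + Hs g x v w := by
  have h : (fun t => fderiv ℝ (fun t => f t + g t) t w) =ᶠ[𝓝 x]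
      fun t => fderiv ℝ f t w + fderiv ℝ g t w := by
    filter_upwards [l1_ev hf, l1_ev hg] with t h1 h2
    rw [(h1.hasFDerivAt.fun_add h2.hasFDerivAt).fderiv]; rfl
  rw [l1_Hs (hf.add hg), h.fderiv_eq, ((l1_has hf w).fun_add (l1_has hg w)).fderiv]
  rfl

theorem l1_mul (hf : ContDiffAt ℝ ∞ f x) (hg : ContDiffAt ℝ ∞ g x) (v w : ι → ℂ) :
    Hs (fun t => f t * g t) x v w = f x * Hs g x v w + g x * Hs f x v w +
      (fderiv ℝ f x v * fderiv ℝ g x w + fderiv ℝ f x w * fderiv ℝ g x v) := by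
  have h : (fun t => fderiv ℝ (fun t => f t * g t) t w) =ᶠ[𝓝 x]
      fun t => f t * fderiv ℝ g t w + g t * fderiv ℝ f t w := by
    filter_upwards [l1_ev hf, l1_ev hg] with t h1 h2
    rw [(h1.hasFDerivAt.fun_mul h2.hasFDerivAt).fderiv]; simp
  have h1 := (l1_ev hf).self_of_nhds.hasFDerivAt
  have h2 := (l1_ev hg).self_of_nhds.hasFDerivAt
  rw [l1_Hs (hf.mul hg), h.fderiv_eq,
    ((h1.fun_mul (l1_has hg w)).fun_add (h2.fun_mul (l1_has hf w))).fderiv]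
  simp only [add_apply, smul_apply, ContinuousLinearMap.comp_apply, ContinuousLinearMap.apply_apply, smul_eq_mul, Hs]; ring

theorem l1_comp (hf : ContDiffAt ℝ ∞ f x) {γ : ℝ → ℝ} (hγ : ContDiffAt ℝ ∞ γ (f x))
    (v w : ι → ℂ) : Hs (fun t => γ (f t)) x v w = deriv γ (f x) * Hs f x v w +
      deriv (deriv γ) (f x) * (fderiv ℝ f x v * fderiv ℝ f x w) := by
  have hγ1 : ∀ᶠ s in 𝓝 (f x), DifferentiableAt ℝ γ s :=
    ((hγ.of_le (m := 1) (by exact_mod_cast le_top)).eventually (by simp)).mono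
      fun _ h => h.differentiableAt (by simp)
  have hγ2 : DifferentiableAt ℝ (deriv γ) (f x) := by
    have h3 : DifferentiableAt ℝ (fderiv ℝ γ) (f x) :=
      (hγ.fderiv_right (m := 1) (by rw [one_add_one_eq_two]; exact l1_two)).differentiableAt (by simp)
    exact h3.clm_apply (differentiableAt_const (1 : ℝ))
  have h : (fun t => fderiv ℝ (fun t => γ (f t)) t w) =ᶠ[𝓝 x]
      fun t => deriv γ (f t) * fderiv ℝ f t w := by
    filter_upwards [l1_ev hf, hf.continuousAt.eventually hγ1] with t h1 h2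
    have h4 : HasFDerivAt (fun t => γ (f t)) (deriv γ (f t) • fderiv ℝ f t) t :=
      h2.hasDerivAt.comp_hasFDerivAt t h1.hasFDerivAt
    rw [h4.fderiv]; simp
  have h1 := (l1_ev hf).self_of_nhds.hasFDerivAt
  have h2 : HasFDerivAt (fun t => deriv γ (f t)) (deriv (deriv γ) (f x) • fderiv ℝ f x) x :=
    hγ2.hasDerivAt.comp_hasFDerivAt x h1
  have h5 : ContDiffAt ℝ ∞ (fun t => γ (f t)) x := hγ.comp x hf
  rw [l1_Hs h5, h.fderiv_eq, (h2.fun_mul (l1_has hf w)).fderiv]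
  simp only [add_apply, smul_apply, ContinuousLinearMap.comp_apply, ContinuousLinearMap.apply_apply, smul_eq_mul, Hs, add_right_inj]; ring

theorem Lb_congr (h : f =ᶠ[𝓝 x] g) (v w : ι → ℂ) : Lb f x v w = Lb g x v w := by
  simp only [Lb, Hs, h.fderiv.fderiv_eq]

/-- `ContDiffAt.isSymmSndFDerivAt` -/
theorem Lb_symm (hf : ContDiffAt ℝ ∞ f x) (v w : ι → ℂ) : Lb f x v w = Lb f x w v := by
  rw [Lb, Lb, l1_symm hf v w, l1_symm hf (I • v)]

theorem Lv_add_vec (hf : ContDiffAt ℝ ∞ f x) (v w : ι → ℂ) :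
    Lv f x (v + w) = Lv f x v + 2 * Lb f x v w + Lv f x w := by
  have h := Lb_symm hf v w
  simp only [Lv, Lb, Hs, smul_add, map_add, add_apply] at h ⊢
  linarith

theorem Lb_add_left (v v' w : ι → ℂ) : Lb f x (v + v') w = Lb f x v w + Lb f x v' w := by
  simp only [Lb, Hs, smul_add, map_add, add_apply]
  ring

/-- `iteratedFDeriv_two_apply`, `ContinuousMultilinearMap.le_opNorm` -/
theorem abs_Hs_le (v w : ι → ℂ) : |Hs f x v w| ≤ ‖iteratedFDeriv ℝ 2 f x‖ * ‖v‖ * ‖w‖ := by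
  have h := (iteratedFDeriv ℝ 2 f x).le_opNorm ![v, w]
  rw [iteratedFDeriv_two_apply] at h
  simpa only [Hs, mul_assoc, ge_iff_le, Fin.isValue, Matrix.cons_val_zero, Matrix.cons_val_one, Matrix.cons_val_fin_one, Real.norm_eq_abs, Fin.prod_univ_two] using h

theorem abs_Lb_le (v w : ι → ℂ) : |Lb f x v w| ≤ ‖iteratedFDeriv ℝ 2 f x‖ * ‖v‖ * ‖w‖ := by
  have h1 := abs_Hs_le (f := f) (x := x) v w
  have h2 := abs_Hs_le (f := f) (x := x) (I • v) (I • w)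
  simp only [norm_smul, norm_I, one_mul] at h2
  have h3 : 0 ≤ ‖iteratedFDeriv ℝ 2 f x‖ * ‖v‖ * ‖w‖ := by positivity
  rw [abs_le] at h1 h2 ⊢
  unfold Lb
  constructor <;> linarith only [h1.1, h1.2, h2.1, h2.2]

theorem abs_fderiv_le (v : ι → ℂ) : |fderiv ℝ f x v| ≤ ‖iteratedFDeriv ℝ 1 f x‖ * ‖v‖ := by
  have h := (iteratedFDeriv ℝ 1 f x).le_opNorm ![v]
  rw [iteratedFDeriv_one_apply] at h
  simpa only [norm_iteratedFDeriv_one, ge_iff_le, Fin.isValue, Matrix.cons_val_fin_one, Real.norm_eq_abs, Finset.univ_unique, Fin.default_eq_zero, Finset.prod_const, Finset.card_singleton, pow_one] using h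

theorem Lb_const (c : ℝ) (v w : ι → ℂ) : Lb (fun _ => c) x v w = 0 := by
  simp only [Lb, Hs, fderiv_fun_const, fderiv_zero, Pi.zero_apply, zero_apply, add_zero, zero_div]

theorem Lb_add (hf : ContDiffAt ℝ ∞ f x) (hg : ContDiffAt ℝ ∞ g x) (v w : ι → ℂ) :
    Lb (fun t => f t + g t) x v w = Lb f x v w + Lb g x v w := by
  simp only [Lb, l1_add hf hg]
  ring

theorem Lb_const_mul (hf : ContDiffAt ℝ ∞ f x) (c : ℝ) (v w : ι → ℂ) :
    Lb (fun t => c * f t) x v w = c * Lb f x v w := by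
  have h := l1_mul (f := fun _ => c) (g := f) contDiffAt_const hf
  simp only [Lb, h]
  simp only [Hs, fderiv_fun_const, fderiv_zero, Pi.zero_apply, zero_apply, mul_zero, add_zero, zero_mul]
  ring

theorem Lb_sub (hf : ContDiffAt ℝ ∞ f x) (hg : ContDiffAt ℝ ∞ g x) (v w : ι → ℂ) :
    Lb (fun t => f t - g t) x v w = Lb f x v w - Lb g x v w := by
  have h := Lb_add hf (contDiffAt_const (c := (-1 : ℝ)).mul hg) v w
  rw [Lb_const_mul hg] at h
  simp only [neg_mul, one_mul, ← sub_eq_add_neg] at h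
  exact h

theorem Lb_sum {β : Type} (S : Finset β) {F : β → (ι → ℂ) → ℝ}
    (hF : ∀ i ∈ S, ContDiffAt ℝ ∞ (F i) x) (v w : ι → ℂ) :
    Lb (fun t => ∑ i ∈ S, F i t) x v w = ∑ i ∈ S, Lb (F i) x v w := by
  classical
  induction S using Finset.induction_on with
  | empty => simp [Lb_const]
  | insert a S ha ih =>
    have h1 := hF a (Finset.mem_insert_self a S)
    have h2 : ∀ i ∈ S, ContDiffAt ℝ ∞ (F i) x := fun i hi => hF i (Finset.mem_insert_of_mem hi)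
    simp only [Finset.sum_insert ha]
    rw [Lb_add h1 (ContDiffAt.sum h2), ih h2]

theorem Lb_mul (hf : ContDiffAt ℝ ∞ f x) (hg : ContDiffAt ℝ ∞ g x) (v w : ι → ℂ) :
    Lb (fun t => f t * g t) x v w = f x * Lb g x v w + g x * Lb f x v w +
      (fderiv ℝ f x v * fderiv ℝ g x w + fderiv ℝ f x w * fderiv ℝ g x v +
        fderiv ℝ f x (I • v) * fderiv ℝ g x (I • w) +
        fderiv ℝ f x (I • w) * fderiv ℝ g x (I • v)) / 4 := by
  simp only [Lb, l1_mul hf hg]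
  ring

theorem Lb_comp (hf : ContDiffAt ℝ ∞ f x) {γ : ℝ → ℝ} (hγ : ContDiffAt ℝ ∞ γ (f x))
    (v w : ι → ℂ) : Lb (fun t => γ (f t)) x v w = deriv γ (f x) * Lb f x v w +
      deriv (deriv γ) (f x) * (fderiv ℝ f x v * fderiv ℝ f x w +
        fderiv ℝ f x (I • v) * fderiv ℝ f x (I • w)) / 4 := by
  simp only [Lb, l1_comp hf hγ]
  ring

/-- the Hessian in the direction `v` only depends on the restriction to the real line -/
theorem Hs_line (hf : ContDiffAt ℝ ∞ f x) (v : ι → ℂ) :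
    Hs f x v v = deriv (deriv fun t : ℝ => f (x + t • v)) 0 := by
  have hl : ∀ t : ℝ, HasDerivAt (fun t : ℝ => x + t • v) v t := fun t => by
    simpa using ((hasDerivAt_id t).smul_const v).const_add x
  have hc : Tendsto (fun t : ℝ => x + t • v) (𝓝 0) (𝓝 x) := by
    simpa only [zero_smul, add_zero] using (hl 0).continuousAt.tendsto
  have h : (deriv fun t : ℝ => f (x + t • v)) =ᶠ[𝓝 0] fun t => fderiv ℝ f (x + t • v) v := by
    filter_upwards [hc.eventually (l1_ev hf)] with t ht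
    exact (ht.hasFDerivAt.comp_hasDerivAt t (hl t)).deriv
  have h1 := l1_has hf v
  have h2 : HasDerivAt (fun t : ℝ => fderiv ℝ f (x + t • v) v) (Hs f x v v) 0 :=
    HasFDerivAt.comp_hasDerivAt_of_eq (0 : ℝ) h1 (hl 0) (by simp)
  rw [h.deriv_eq, h2.deriv]

/-- the Levi form in the direction `v` only depends on the restriction to the complex line -/
theorem Lv_line (hf : ContDiffAt ℝ ∞ f x) (hg : ContDiffAt ℝ ∞ g x) (v : ι → ℂ)
    (h : ∀ᶠ t : ℂ in 𝓝 0, f (x + t • v) = g (x + t • v)) : Lv f x v = Lv g x v := by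
  have h1 : (fun t : ℝ => f (x + t • v)) =ᶠ[𝓝 0] fun t : ℝ => g (x + t • v) := by
    have hc : Tendsto (fun t : ℝ => (t : ℂ)) (𝓝 0) (𝓝 0) := by
      simpa using continuous_ofReal.tendsto 0
    filter_upwards [hc.eventually h] with t ht
    simpa using ht
  have h2 : (fun t : ℝ => f (x + t • I • v)) =ᶠ[𝓝 0] fun t : ℝ => g (x + t • I • v) := by
    have hc : Tendsto (fun t : ℝ => (t : ℂ) * I) (𝓝 0) (𝓝 0) := by
      have h0 : Continuous fun t : ℝ => (t : ℂ) * I := by fun_prop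
      simpa using h0.tendsto 0
    filter_upwards [hc.eventually h] with t ht
    simpa [mul_smul] using ht
  simp only [Lv, Lb, Hs_line hf, Hs_line hg, h1.deriv.deriv_eq, h2.deriv.deriv_eq]

/-- the Levi form of a smooth function is continuous in the point -/
theorem continuous_Lv (hf : ContDiff ℝ ∞ f) (v : ι → ℂ) : Continuous fun t => Lv f t v := by
  have h1 : ContDiff ℝ ∞ (fderiv ℝ f) := hf.fderiv_right (m := ∞) (by simp)
  have h2 : Continuous (fderiv ℝ (fderiv ℝ f)) := h1.continuous_fderiv (by simp)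
  unfold Lv Lb Hs
  fun_prop

end Pool.Agent.MP_bea40e_an.Iv

end

section

open Filter Topology Set Metric Complex
open scoped ContDiff ComplexConjugate

namespace Pool.Agent.MP_bea40e_an.Iv

/-! Calculus of the Levi form, part 2: holomorphic functions and closure properties. -/

variable {ι : Type} [Fintype ι] {f g : (ι → ℂ) → ℝ} {F : (ι → ℂ) → ℂ} {x : ι → ℂ}

theorem contDiffAt_of_analyticAt (hF : AnalyticAt ℂ F x) : ContDiffAt ℝ ∞ F x := by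
  exact (hF.contDiffAt (n := ∞)).restrict_scalars ℝ

theorem l2_smooth (hF : AnalyticAt ℂ F x) (φ : ℂ →L[ℝ] ℝ) :
    ContDiffAt ℝ ∞ (fun t => φ (F t)) x :=
  φ.contDiff.contDiffAt.comp x (contDiffAt_of_analyticAt hF)

theorem l2_has (hF : AnalyticAt ℂ F x) (φ : ℂ →L[ℝ] ℝ) :
    fderiv ℝ (fun t => φ (F t)) x = φ.comp ((fderiv ℂ F x).restrictScalars ℝ) :=
  (φ.hasFDerivAt.comp x (hF.differentiableAt.hasFDerivAt.restrictScalars ℝ)).fderiv

theorem l2_fderiv (hF : AnalyticAt ℂ F x) (φ : ℂ →L[ℝ] ℝ) (v : ι → ℂ) :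
    fderiv ℝ (fun t => φ (F t)) x v = φ (fderiv ℂ F x v) := by
  rw [l2_has hF]
  rfl

theorem l2_Hs (hF : AnalyticAt ℂ F x) (φ : ℂ →L[ℝ] ℝ) (v w : ι → ℂ) :
    Hs (fun t => φ (F t)) x v w = φ (fderiv ℂ (fderiv ℂ F) x v w) := by
  let Φ : ((ι → ℂ) →L[ℂ] ℂ) →L[ℝ] ((ι → ℂ) →L[ℝ] ℝ) :=
    (ContinuousLinearMap.compL ℝ (ι → ℂ) ℂ ℝ φ).comp
      (ContinuousLinearMap.restrictScalarsL ℂ (ι → ℂ) ℂ ℝ ℝ)
  have h : fderiv ℝ (fun t => φ (F t)) =ᶠ[𝓝 x] fun t => Φ (fderiv ℂ F t) :=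
    hF.eventually_analyticAt.mono fun t ht => l2_has ht φ
  have h2 : HasFDerivAt (fun t => Φ (fderiv ℂ F t))
      (Φ.comp ((fderiv ℂ (fderiv ℂ F) x).restrictScalars ℝ)) x :=
    Φ.hasFDerivAt.comp x (hF.fderiv.differentiableAt.hasFDerivAt.restrictScalars ℝ)
  rw [Hs, h.fderiv_eq, h2.fderiv]
  rfl

theorem l2_Lb (hF : AnalyticAt ℂ F x) (φ : ℂ →L[ℝ] ℝ) (v w : ι → ℂ) :
    Lb (fun t => φ (F t)) x v w = 0 := by
  rw [Lb, l2_Hs hF, l2_Hs hF, ← map_add]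
  simp only [map_smul, smul_apply, smul_eq_mul, ← mul_assoc, I_mul_I]
  simp

theorem fderiv_re (hF : AnalyticAt ℂ F x) (v : ι → ℂ) :
    fderiv ℝ (fun t => (F t).re) x v = (fderiv ℂ F x v).re := by
  exact l2_fderiv hF reCLM v

theorem fderiv_im (hF : AnalyticAt ℂ F x) (v : ι → ℂ) :
    fderiv ℝ (fun t => (F t).im) x v = (fderiv ℂ F x v).im := by
  exact l2_fderiv hF imCLM v

/-- the real second derivative of `F` is complex bilinear -/
theorem Lb_re (hF : AnalyticAt ℂ F x) (v w : ι → ℂ) : Lb (fun t => (F t).re) x v w = 0 := by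
  exact l2_Lb hF reCLM v w

theorem Lb_im (hF : AnalyticAt ℂ F x) (v w : ι → ℂ) : Lb (fun t => (F t).im) x v w = 0 := by
  exact l2_Lb hF imCLM v w

theorem Lv_normSq (hF : AnalyticAt ℂ F x) (v : ι → ℂ) :
    Lv (fun t => ‖F t‖ ^ 2) x v = ‖fderiv ℂ F x v‖ ^ 2 := by
  have h : (fun t => ‖F t‖ ^ 2) = fun t => (F t).re * (F t).re + (F t).im * (F t).im := by
    funext t
    rw [← normSq_eq_norm_sq, normSq_apply]
  have h1 := l2_smooth hF reCLM
  have h2 := l2_smooth hF imCLM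
  simp only [reCLM_apply, imCLM_apply] at h1 h2
  rw [h, Lv, Lb_add (h1.mul h1) (h2.mul h2), Lb_mul h1 h1, Lb_mul h2 h2, Lb_re hF, Lb_im hF]
  simp only [fderiv_re hF, fderiv_im hF, map_smul, smul_eq_mul, mul_re, mul_im, I_re, I_im]
  rw [← normSq_eq_norm_sq, normSq_apply]
  ring

theorem Lv_comp_re (hF : AnalyticAt ℂ F x) {γ : ℝ → ℝ} (hγ : ContDiffAt ℝ ∞ γ (F x).re)
    (v : ι → ℂ) : Lv (fun t => γ (F t).re) x v =
      deriv (deriv γ) (F x).re * ‖fderiv ℂ F x v‖ ^ 2 / 4 := by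
  have h1 := l2_smooth hF reCLM
  simp only [reCLM_apply] at h1
  rw [Lv, Lb_comp h1 hγ, Lb_re hF]
  simp only [fderiv_re hF, map_smul, smul_eq_mul, mul_re, I_re, I_im]
  rw [← normSq_eq_norm_sq, normSq_apply]
  ring

theorem Lv_imSq (hF : AnalyticAt ℂ F x) (v : ι → ℂ) :
    Lv (fun t => (F t).im ^ 2) x v = ‖fderiv ℂ F x v‖ ^ 2 / 2 := by
  have h2 := l2_smooth hF imCLM
  simp only [imCLM_apply] at h2
  simp only [sq (F _).im]
  rw [Lv, Lb_mul h2 h2, Lb_im hF]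
  simp only [fderiv_im hF, map_smul, smul_eq_mul, mul_im, I_re, I_im]
  rw [← normSq_eq_norm_sq, normSq_apply]
  ring

theorem Lv_reSq (hF : AnalyticAt ℂ F x) (v : ι → ℂ) :
    Lv (fun t => (F t).re ^ 2) x v = ‖fderiv ℂ F x v‖ ^ 2 / 2 := by
  have h2 := l2_smooth hF reCLM
  simp only [reCLM_apply] at h2
  simp only [sq (F _).re]
  rw [Lv, Lb_mul h2 h2, Lb_re hF]
  simp only [fderiv_re hF, map_smul, smul_eq_mul, mul_re, I_re, I_im]
  rw [← normSq_eq_norm_sq, normSq_apply]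
  ring

theorem PshAt.congr (hf : PshAt f x) (h : g =ᶠ[𝓝 x] f) : PshAt g x := by
  refine ⟨hf.1.congr_of_eventuallyEq h, fun v => ?_⟩
  rw [Lv, Lb_congr h]
  exact hf.2 v

theorem pshAt_const (c : ℝ) : PshAt (fun _ => c) x := by
  refine ⟨contDiffAt_const, fun v => ?_⟩
  rw [Lv, Lb_const]

theorem PshAt.add (hf : PshAt f x) (hg : PshAt g x) : PshAt (fun t => f t + g t) x := by
  refine ⟨hf.1.add hg.1, fun v => ?_⟩
  rw [Lv, Lb_add hf.1 hg.1]
  exact add_nonneg (hf.2 v) (hg.2 v)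

theorem PshAt.const_mul (hf : PshAt f x) {c : ℝ} (hc : 0 ≤ c) : PshAt (fun t => c * f t) x := by
  refine ⟨contDiffAt_const.mul hf.1, fun v => ?_⟩
  rw [Lv, Lb_const_mul hf.1]
  exact mul_nonneg hc (hf.2 v)

theorem PshAt.div_const (hf : PshAt f x) {c : ℝ} (hc : 0 ≤ c) : PshAt (fun t => f t / c) x := by
  simp only [div_eq_inv_mul]
  exact hf.const_mul (inv_nonneg.2 hc)

theorem pshAt_sum {β : Type} (S : Finset β) {G : β → (ι → ℂ) → ℝ}
    (hG : ∀ i ∈ S, PshAt (G i) x) : PshAt (fun t => ∑ i ∈ S, G i t) x := by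
  refine ⟨ContDiffAt.sum fun i hi => (hG i hi).1, fun v => ?_⟩
  rw [Lv, Lb_sum S fun i hi => (hG i hi).1]
  exact Finset.sum_nonneg fun i hi => (hG i hi).2 v

theorem pshAt_re (hF : AnalyticAt ℂ F x) : PshAt (fun t => (F t).re) x := by
  exact ⟨l2_smooth hF reCLM, fun v => (Lb_re hF v v).ge⟩

theorem pshAt_im (hF : AnalyticAt ℂ F x) : PshAt (fun t => (F t).im) x := by
  exact ⟨l2_smooth hF imCLM, fun v => (Lb_im hF v v).ge⟩

theorem PshAt.sub_re (hf : PshAt f x) (hF : AnalyticAt ℂ F x) :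
    PshAt (fun t => f t - (F t).re) x := by
  refine ⟨hf.1.sub (pshAt_re hF).1, fun v => ?_⟩
  rw [Lv, Lb_sub hf.1 (pshAt_re hF).1, Lb_re hF, sub_zero]
  exact hf.2 v

theorem pshAt_neg_im (hF : AnalyticAt ℂ F x) : PshAt (fun t => -(F t).im) x := by
  exact ⟨l2_smooth hF (-imCLM), fun v => (l2_Lb hF (-imCLM) v v).ge⟩

theorem pshAt_normSq (hF : AnalyticAt ℂ F x) : PshAt (fun t => ‖F t‖ ^ 2) x := by
  refine ⟨(contDiffAt_of_analyticAt hF).norm_sq ℝ, fun v => ?_⟩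
  rw [Lv_normSq hF]
  positivity

theorem PshAt.comp (hf : PshAt f x) {γ : ℝ → ℝ} (hγ : ContDiffAt ℝ ∞ γ (f x))
    (h1 : 0 ≤ deriv γ (f x)) (h2 : 0 ≤ deriv (deriv γ) (f x)) : PshAt (fun t => γ (f t)) x := by
  refine ⟨hγ.comp x hf.1, fun v => ?_⟩
  rw [Lv, Lb_comp hf.1 hγ]
  exact add_nonneg (mul_nonneg h1 (hf.2 v)) (div_nonneg (mul_nonneg h2
    (add_nonneg (mul_self_nonneg _) (mul_self_nonneg _))) (by norm_num))

end Pool.Agent.MP_bea40e_an.Iv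

end

section

open Filter Topology Set Metric Complex
open scoped ContDiff ComplexConjugate

namespace Pool.Agent.MP_bea40e_an.Iv

variable {ι : Type} [Fintype ι] {f : (ι → ℂ) → ℝ}

theorem l3_ofReal {q : ι → ℂ} (hf : ContDiffAt ℝ ∞ f q) :
    ContDiffAt ℝ ∞ (fun t => ((f t : ℝ) : ℂ)) q :=
  ofRealCLM.contDiff.contDiffAt.comp q hf

theorem l3_second {q : ι → ℂ} (hf : ContDiffAt ℝ ∞ f q) (v w : ι → ℂ) :
    fderiv ℝ (fderiv ℝ fun t => ((f t : ℝ) : ℂ)) q v w = ((Hs f q v w : ℝ) : ℂ) := by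
  have h1 := MP_c0606f_ag.Klt.calc_has_second (l3_ofReal hf) w
  have h2 : DifferentiableAt ℝ (fderiv ℝ f) q :=
    (hf.fderiv_right (m := ∞) (by simp)).differentiableAt (by simp)
  have h3 : HasFDerivAt (fun x => fderiv ℝ f x w) ((fderiv ℝ (fderiv ℝ f) q).flip w) q := by
    simpa using h2.hasFDerivAt.clm_apply (hasFDerivAt_const w q)
  have h4 := ofRealCLM.hasFDerivAt.comp q h3
  have h5 : (fun x => fderiv ℝ (fun t => ((f t : ℝ) : ℂ)) x w) =ᶠ[𝓝 q]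
      ofRealCLM ∘ fun x => fderiv ℝ f x w := by
    have h6 : ContDiffAt ℝ 1 f q := hf.of_le (by simp)
    filter_upwards [h6.eventually (by simp)] with x hx
    have h7 := (ofRealCLM.hasFDerivAt.comp x (hx.differentiableAt (by simp)).hasFDerivAt).fderiv
    erw [h7]
    simp
  have h8 := h1.unique (h4.congr_of_eventuallyEq h5)
  have h9 := congrArg (fun L : (ι → ℂ) →L[ℝ] ℂ => L v) h8
  simpa [Hs] using h9

theorem l3_expand [DecidableEq ι] (v : ι → ℂ) :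
    v = ∑ j, ((v j).re • (Pi.single j 1 : ι → ℂ) + (v j).im • (Pi.single j I : ι → ℂ)) := by
  funext i
  rw [Finset.sum_apply, Finset.sum_eq_single i]
  · simp
  · intro j _ hj
    simp [Pi.single_eq_of_ne hj.symm]
  · simp only [Finset.mem_univ, not_true_eq_false, Pi.add_apply, Pi.smul_apply, Pi.single_eq_same, real_smul, mul_one, re_add_im, IsEmpty.forall_iff]

theorem l3_Hs [DecidableEq ι] (q v : ι → ℂ) : Hs f q v v = ∑ j, ∑ k,
    ((v j).re * (v k).re * Hs f q (Pi.single j 1) (Pi.single k 1) +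
      (v j).re * (v k).im * Hs f q (Pi.single j 1) (Pi.single k I) +
      (v j).im * (v k).re * Hs f q (Pi.single j I) (Pi.single k 1) +
      (v j).im * (v k).im * Hs f q (Pi.single j I) (Pi.single k I)) := by
  have e : ∀ (L : (ι → ℂ) →L[ℝ] ℝ), L v = ∑ k,
      ((v k).re * L (Pi.single k 1) + (v k).im * L (Pi.single k I)) := fun L => by
    conv_lhs => rw [l3_expand v]
    simp only [map_sum, map_add, map_smul, smul_eq_mul]
  unfold Hs
  have e1 := e ((fderiv ℝ (fderiv ℝ f) q).flip v)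
  simp only [ContinuousLinearMap.flip_apply] at e1
  rw [e1]
  refine Finset.sum_congr rfl fun j _ => ?_
  rw [e (fderiv ℝ (fderiv ℝ f) q (Pi.single j 1)), e (fderiv ℝ (fderiv ℝ f) q (Pi.single j I)),
    Finset.mul_sum, Finset.mul_sum, ← Finset.sum_add_distrib]
  refine Finset.sum_congr rfl fun k _ => ?_
  ring

/-- transfer to the vocabulary of `Klt_Psh` (`calc_fderiv_fdb`, `calc_has_second`,
`fdz_congr`, `calc_π_sec`, `tendsto_sec`; expand `v = ∑ j, Pi.single j (v j)`) -/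
theorem levi_eq [DecidableEq ι] {X : Type} [TopologicalSpace X] (R : MP_c0606f_ag.Klt.RD ι X)
    {φ : X → ℝ} {p : X} (hf : ContDiffAt ℝ ∞ f (R.π p)) (h : φ =ᶠ[𝓝 p] fun t => f (R.π t))
    (v : ι → ℂ) : ContDiffAt ℝ ∞ (fun t => ((φ (R.sec p t) : ℝ) : ℂ)) (R.π p) ∧
      R.levi φ p v = Lv f (R.π p) v := by
  have hF := l3_ofReal hf
  have e1 : (fun t => ((φ (R.sec p t) : ℝ) : ℂ)) =ᶠ[𝓝 (R.π p)] fun t => ((f t : ℝ) : ℂ) := by
    filter_upwards [(R.tendsto_sec p).eventually h,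
      R.calc_π_sec (fun t => ((f t : ℝ) : ℂ)) p] with q k1 k2
    rw [k1]
    exact k2
  refine ⟨hF.congr_of_eventuallyEq e1, ?_⟩
  have key : ∀ j k, R.dz j (R.db k fun x => (φ x : ℂ)) p =
      MP_c0606f_ag.Klt.fdz j (MP_c0606f_ag.Klt.fdb k fun t => ((f t : ℝ) : ℂ)) (R.π p) := by
    intro j k
    refine MP_c0606f_ag.Klt.fdz_congr j
      ((MP_c0606f_ag.Klt.RD.calc_db_sec k (fun x => (φ x : ℂ)) p).trans ?_)
    filter_upwards [e1.eventually_nhds] with q hq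
    exact MP_c0606f_ag.Klt.fdb_congr k hq
  simp only [MP_c0606f_ag.Klt.RD.levi, key, MP_c0606f_ag.Klt.fdz,
    MP_c0606f_ag.Klt.calc_fderiv_fdb hF, l3_second hf, Lv, Lb, re_sum]
  rw [l3_Hs (R.π p) v, l3_Hs (R.π p) (I • v), ← Finset.sum_add_distrib, Finset.sum_div]
  refine Finset.sum_congr rfl fun j _ => ?_
  rw [← Finset.sum_add_distrib, Finset.sum_div]
  refine Finset.sum_congr rfl fun k _ => ?_
  simp only [mul_re, div_ofNat_re, sub_re, add_re, ofReal_re, I_re, zero_mul, I_im, ofReal_im, mul_zero, sub_self, add_zero, div_ofNat_im, add_im, mul_im, one_mul, zero_add, zero_sub, sub_neg_eq_add, sub_im, conj_re, conj_im, mul_neg, Pi.smul_apply, smul_eq_mul, neg_mul, neg_neg]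
  ring

end Pool.Agent.MP_bea40e_an.Iv

end

section

open Filter Topology Set Metric Complex
open scoped ContDiff ComplexConjugate

namespace Pool.Agent.MP_bea40e_an.Iv

/-! The elementary functions `st` and `kap`. -/

theorem st_contDiff (a b : ℝ) : ContDiff ℝ ∞ (st a b) := by
  unfold st
  exact Real.smoothTransition.contDiff.comp ((contDiff_id.sub contDiff_const).div_const _)

theorem st_nonneg (a b t : ℝ) : 0 ≤ st a b t := by
  exact Real.smoothTransition.nonneg _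

theorem st_le_one (a b t : ℝ) : st a b t ≤ 1 := by
  exact Real.smoothTransition.le_one _

theorem st_zero {a b t : ℝ} (h : a < b) (ht : t ≤ a) : st a b t = 0 := by
  exact Real.smoothTransition.zero_of_nonpos
    (div_nonpos_of_nonpos_of_nonneg (by linarith) (by linarith))

theorem st_one {a b t : ℝ} (h : a < b) (ht : b ≤ t) : st a b t = 1 := by
  exact Real.smoothTransition.one_of_one_le ((one_le_div (by linarith)).2 (by linarith))

theorem st_mono {a b : ℝ} (h : a < b) : Monotone (st a b) := by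
  intro s t hst
  exact Real.smoothTransition.monotone
    (div_le_div_of_nonneg_right (by linarith) (by linarith))

theorem st_deriv_nonneg {a b : ℝ} (h : a < b) (t : ℝ) : 0 ≤ deriv (st a b) t := by
  exact (st_mono h).deriv_nonneg

theorem el_cd : ContDiff ℝ ∞ fun t : ℝ => Real.smoothTransition (16 * t) :=
  Real.smoothTransition.contDiff.comp (contDiff_const.mul contDiff_id)

theorem el_hasDerivAt (t : ℝ) : HasDerivAt kap (Real.smoothTransition (16 * t)) t :=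
  (el_cd.continuous.integral_hasStrictDerivAt 0 t).hasDerivAt

theorem el_deriv : deriv kap = fun t : ℝ => Real.smoothTransition (16 * t) :=
  funext fun t => (el_hasDerivAt t).deriv

theorem el_mono : Monotone fun t : ℝ => Real.smoothTransition (16 * t) := fun s t h =>
  Real.smoothTransition.monotone (by linarith)

theorem kap_contDiff : ContDiff ℝ ∞ kap := by
  rw [contDiff_infty_iff_deriv]
  refine ⟨fun t => (el_hasDerivAt t).differentiableAt, ?_⟩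
  rw [el_deriv]
  exact el_cd

theorem kap_hasDerivAt (t : ℝ) : HasDerivAt kap (Real.smoothTransition (16 * t)) t := by
  exact el_hasDerivAt t

theorem kap_deriv (t : ℝ) : deriv kap t = Real.smoothTransition (16 * t) := by
  exact (el_hasDerivAt t).deriv

theorem kap_deriv2_nonneg (t : ℝ) : 0 ≤ deriv (deriv kap) t := by
  rw [el_deriv]
  exact el_mono.deriv_nonneg

theorem kap_zero {t : ℝ} (ht : t ≤ 0) : kap t = 0 := by
  unfold kap
  rw [intervalIntegral.integral_congr (g := fun _ => (0 : ℝ))]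
  · simp
  · intro u hu
    rw [uIcc_of_ge ht] at hu
    exact Real.smoothTransition.zero_of_nonpos (by linarith [hu.2])

theorem kap_nonneg (t : ℝ) : 0 ≤ kap t := by
  rcases le_total t 0 with h | h
  · exact (kap_zero h).ge
  · exact intervalIntegral.integral_nonneg h fun u _ => Real.smoothTransition.nonneg _

theorem kap_mono : Monotone kap := by
  refine monotone_of_deriv_nonneg (fun t => (el_hasDerivAt t).differentiableAt) fun t => ?_
  rw [kap_deriv]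
  exact Real.smoothTransition.nonneg _

theorem kap_ge (t : ℝ) : t - 1 / 16 ≤ kap t := by
  rcases le_total t (1 / 16) with h | h
  · linarith [kap_nonneg t]
  · have hi : ∀ a b : ℝ, IntervalIntegrable (fun u : ℝ => Real.smoothTransition (16 * u))
        MeasureTheory.volume a b := fun a b => el_cd.continuous.intervalIntegrable a b
    have h1 := intervalIntegral.integral_add_adjacent_intervals (hi 0 (1 / 16)) (hi (1 / 16) t)
    have h2 : (∫ u in (1 / 16 : ℝ)..t, Real.smoothTransition (16 * u)) = t - 1 / 16 := by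
      rw [intervalIntegral.integral_congr (g := fun _ => (1 : ℝ))]
      · simp
      · intro u hu
        rw [uIcc_of_le h] at hu
        exact Real.smoothTransition.one_of_one_le (by linarith only [hu.1])
    have h3 := kap_nonneg (1 / 16)
    unfold kap at h3 ⊢
    linarith

theorem el_le_mul {t : ℝ} (h : 0 ≤ t) : kap t ≤ t * Real.smoothTransition (16 * t) := by
  have h1 := intervalIntegral.integral_mono_on (μ := MeasureTheory.volume)
    (f := fun u : ℝ => Real.smoothTransition (16 * u))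
    (g := fun _ => Real.smoothTransition (16 * t)) h
    (el_cd.continuous.intervalIntegrable 0 t) (continuous_const.intervalIntegrable 0 t)
    fun u hu => el_mono hu.2
  simpa only [kap, ne_eq, OfNat.ofNat_ne_zero, not_false_eq_true, intervalIntegral.integral_comp_mul_left, mul_zero, smul_eq_mul, ge_iff_le, intervalIntegral.integral_const, sub_zero] using h1

theorem kap_le (t : ℝ) : kap t ≤ max t 0 := by
  rcases le_total t 0 with h | h
  · rw [kap_zero h]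
    exact le_max_right _ _
  · refine le_trans ?_ (le_max_left _ _)
    have := el_le_mul h
    nlinarith only [Real.smoothTransition.le_one (16 * t), h, this]

theorem kap_le_mul (t : ℝ) : kap t ≤ t * Real.smoothTransition (16 * t) := by
  rcases le_total t 0 with h | h
  · rw [kap_zero h, Real.smoothTransition.zero_of_nonpos (by linarith)]
    simp
  · exact el_le_mul h

theorem el_bdd {f : ℝ → ℝ} (hf : ContDiff ℝ ∞ f) (h1 : ∀ t, |f t| ≤ 1)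
    (hl : ∀ t, t ≤ 0 → f t = 0) (hr : ∀ t, 1 ≤ t → f t = 1) (k : ℕ) :
    ∃ C : ℝ, ∀ t, ‖iteratedFDeriv ℝ k f t‖ ≤ C := by
  cases k with
  | zero => exact ⟨1, fun t => by simpa using h1 t⟩
  | succ k =>
    have hs : HasCompactSupport (deriv f) := by
      refine HasCompactSupport.intro (isCompact_Icc (a := (0 : ℝ)) (b := 1)) fun t ht => ?_
      rcases lt_or_ge t 0 with h | h
      · have : f =ᶠ[𝓝 t] fun _ => 0 := by
          filter_upwards [Iio_mem_nhds h] with u hu using hl u (le_of_lt hu)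
        rw [this.deriv_eq]
        simp
      · have h' : 1 < t := by
          by_contra hc
          exact ht ⟨h, not_lt.1 hc⟩
        have : f =ᶠ[𝓝 t] fun _ => 1 := by
          filter_upwards [Ioi_mem_nhds h'] with u hu using hr u (le_of_lt hu)
        rw [this.deriv_eq]
        simp
    have hd : ContDiff ℝ ∞ (deriv f) := (contDiff_infty_iff_deriv.1 hf).2
    obtain ⟨C, hC⟩ := (hs.iteratedFDeriv (𝕜 := ℝ) k).exists_bound_of_continuous
      (hd.continuous_iteratedFDeriv (by exact_mod_cast le_top))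
    refine ⟨C, fun t => ?_⟩
    rw [norm_iteratedFDeriv_eq_norm_iteratedDeriv, iteratedDeriv_succ',
      ← norm_iteratedFDeriv_eq_norm_iteratedDeriv]
    exact hC t

/-- all derivatives of the smooth step are bounded (compact support of the derivative) -/
theorem step_bdd (k : ℕ) : ∃ C : ℝ, ∀ t, ‖iteratedFDeriv ℝ k Real.smoothTransition t‖ ≤ C := by
  refine el_bdd Real.smoothTransition.contDiff (fun t => ?_) (fun t ht => ?_) (fun t ht => ?_) k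
  · rw [abs_of_nonneg (Real.smoothTransition.nonneg _)]
    exact Real.smoothTransition.le_one _
  · exact Real.smoothTransition.zero_of_nonpos ht
  · exact Real.smoothTransition.one_of_one_le ht

theorem kap_bdd (k : ℕ) : ∃ C : ℝ, ∀ t, ‖iteratedFDeriv ℝ k kap t‖ ≤ C * (1 + |t|) := by
  cases k with
  | zero =>
    refine ⟨1, fun t => ?_⟩
    have h1 := kap_le t
    have h2 : max t 0 ≤ |t| := max_le (le_abs_self t) (abs_nonneg t)
    simp only [norm_iteratedFDeriv_zero, Real.norm_eq_abs, abs_of_nonneg (kap_nonneg t)]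
    linarith
  | succ k =>
    obtain ⟨C, hC⟩ := el_bdd el_cd (fun t => by
        rw [abs_of_nonneg (Real.smoothTransition.nonneg _)]
        exact Real.smoothTransition.le_one _)
      (fun t ht => Real.smoothTransition.zero_of_nonpos (by linarith))
      (fun t ht => Real.smoothTransition.one_of_one_le (by linarith)) k
    refine ⟨C, fun t => ?_⟩
    rw [norm_iteratedFDeriv_eq_norm_iteratedDeriv, iteratedDeriv_succ', el_deriv,
      ← norm_iteratedFDeriv_eq_norm_iteratedDeriv]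
    have h0 : 0 ≤ C := le_trans (norm_nonneg _) (hC t)
    nlinarith only [hC t, abs_nonneg t, h0]

end Pool.Agent.MP_bea40e_an.Iv

end

section

open Filter Topology Set Metric Complex
open scoped ContDiff ComplexConjugate

namespace Pool.Agent.MP_bea40e_an.Iv

/-! Closure properties of tame families. Constants are absorbed by `2 ≤ sz i` (enlarge `M`).
For products and compositions pass from `ContDiffAt` to `ContDiffOn` of finite order on an open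
neighbourhood (`ContDiffAt.contDiffOn`, `iteratedFDerivWithin_of_isOpen`) and use
`norm_iteratedFDerivWithin_comp_le`, `ContinuousLinearMap.norm_iteratedFDerivWithin_le_of_bilinear`. -/

variable {ix E F G H : Type} [NormedAddCommGroup E] [NormedSpace ℝ E] [NormedAddCommGroup F]
  [NormedSpace ℝ F] [NormedAddCommGroup G] [NormedSpace ℝ G] [NormedAddCommGroup H]
  [NormedSpace ℝ H] {sz : ix → ℕ} {U : ix → Set E}

theorem tame_le_top (k : ℕ) : (k : WithTop ℕ∞) ≤ ∞ := by exact_mod_cast le_top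

/-- constants are absorbed -/
theorem tame_of {f : ix → E → F} (M : ℕ) (h1 : ∀ i, M ≤ sz i → ∀ x ∈ U i, ContDiffAt ℝ ∞ (f i) x)
    (h2 : ∀ k : ℕ, ∃ (C : ℝ) (N : ℕ), ∀ i, M ≤ sz i → ∀ x ∈ U i,
      ‖iteratedFDeriv ℝ k (f i) x‖ ≤ C * (sz i : ℝ) ^ N) : Tame sz U f := by
  refine ⟨max M 2, fun i hi => h1 i (le_of_max_le_left hi), fun k => ?_⟩
  obtain ⟨C, N, h⟩ := h2 k
  obtain ⟨c, hc⟩ := pow_unbounded_of_one_lt C (one_lt_two (α := ℝ))
  refine ⟨c + N, fun i hi x hx => (h i (le_of_max_le_left hi) x hx).trans ?_⟩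
  have h3 : (2 : ℝ) ≤ sz i := by exact_mod_cast le_of_max_le_right hi
  rw [pow_add]
  gcongr
  exact hc.le.trans (pow_le_pow_left₀ zero_le_two h3 c)

/-- one exponent for all orders up to `k` -/
theorem tame_unif {f : ix → E → F} (hf : Tame sz U f) :
    ∃ M : ℕ, 1 ≤ M ∧ (∀ i, M ≤ sz i → ∀ x ∈ U i, ContDiffAt ℝ ∞ (f i) x) ∧
      ∀ k : ℕ, ∃ N : ℕ, ∀ i, M ≤ sz i → ∀ x ∈ U i, ∀ j ≤ k,
        ‖iteratedFDeriv ℝ j (f i) x‖ ≤ (sz i : ℝ) ^ N := by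
  obtain ⟨M, h1, h2⟩ := hf
  choose N hN using h2
  refine ⟨max M 1, le_max_right _ _, fun i hi => h1 i (le_of_max_le_left hi), fun k =>
    ⟨(Finset.range (k + 1)).sup N, fun i hi x hx j hj =>
      (hN j i (le_of_max_le_left hi) x hx).trans ?_⟩⟩
  have h3 : (1 : ℝ) ≤ sz i := by exact_mod_cast le_of_max_le_right hi
  exact pow_le_pow_right₀ h3 (Finset.le_sup (f := N) (Finset.mem_range.2 (Nat.lt_succ_of_le hj)))

theorem tame_nhds {f : E → F} {x : E} (hf : ContDiffAt ℝ ∞ f x) (k : ℕ) :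
    ∃ s, IsOpen s ∧ x ∈ s ∧ ContDiffOn ℝ k f s := by
  obtain ⟨u, hu, h⟩ := hf.contDiffOn (tame_le_top k) (by simp)
  exact ⟨interior u, isOpen_interior, mem_interior_iff_mem_nhds.2 hu, h.mono interior_subset⟩

theorem tame_bilin_le (B : F →L[ℝ] G →L[ℝ] H) {f : E → F} {g : E → G} {x : E}
    (hf : ContDiffAt ℝ ∞ f x) (hg : ContDiffAt ℝ ∞ g x) (k : ℕ) {a b : ℝ}
    (ha : ∀ j ≤ k, ‖iteratedFDeriv ℝ j f x‖ ≤ a) (hb : ∀ j ≤ k, ‖iteratedFDeriv ℝ j g x‖ ≤ b) :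
    ‖iteratedFDeriv ℝ k (fun y => B (f y) (g y)) x‖ ≤ ‖B‖ * 2 ^ k * (a * b) := by
  obtain ⟨s, hs, hxs, hfs⟩ := tame_nhds hf k
  obtain ⟨t, ht, hxt, hgt⟩ := tame_nhds hg k
  have ho := hs.inter ht
  have hx : x ∈ s ∩ t := ⟨hxs, hxt⟩
  have h := B.norm_iteratedFDerivWithin_le_of_bilinear (hfs.mono inter_subset_left)
    (hgt.mono inter_subset_right) ho.uniqueDiffOn hx (le_refl (k : WithTop ℕ∞))
  simp only [iteratedFDerivWithin_of_isOpen _ ho hx] at h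
  have ha0 : 0 ≤ a := (norm_nonneg _).trans (ha 0 (Nat.zero_le k))
  refine h.trans ?_
  rw [mul_assoc]
  gcongr
  calc _ ≤ ∑ j ∈ Finset.range (k + 1), (k.choose j : ℝ) * (a * b) := by
        refine Finset.sum_le_sum fun j hj => ?_
        rw [mul_assoc]
        gcongr
        · exact ha j (Nat.lt_succ_iff.1 (Finset.mem_range.1 hj))
        · exact hb _ (Nat.sub_le k j)
    _ = 2 ^ k * (a * b) := by
        rw [← Finset.sum_mul, ← Nat.cast_sum, Nat.sum_range_choose]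
        push_cast
        rfl

theorem tame_comp_le {g : F → G} {f : E → F} {x : E} (hg : ContDiffAt ℝ ∞ g (f x))
    (hf : ContDiffAt ℝ ∞ f x) (k : ℕ) {C D : ℝ} (hD : 1 ≤ D)
    (h1 : ∀ j ≤ k, ‖iteratedFDeriv ℝ j g (f x)‖ ≤ C) (h2 : ∀ j ≤ k, ‖iteratedFDeriv ℝ j f x‖ ≤ D) :
    ‖iteratedFDeriv ℝ k (fun y => g (f y)) x‖ ≤ k.factorial * C * D ^ k := by
  obtain ⟨t, ht, hxt, hgt⟩ := tame_nhds hg k
  obtain ⟨s, hs, hxs, hfs⟩ := tame_nhds hf k
  have ho : IsOpen (s ∩ f ⁻¹' t) := hfs.continuousOn.isOpen_inter_preimage hs ht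
  have hx : x ∈ s ∩ f ⁻¹' t := ⟨hxs, hxt⟩
  have h := norm_iteratedFDerivWithin_comp_le (C := C) (D := D) hgt (hfs.mono inter_subset_left)
    (le_refl (k : WithTop ℕ∞)) ht.uniqueDiffOn ho.uniqueDiffOn (fun y hy => hy.2) hx
    (fun j hj => by
      rw [iteratedFDerivWithin_of_isOpen _ ht hxt]
      exact h1 j hj)
    (fun j hj hj' => by
      rw [iteratedFDerivWithin_of_isOpen _ ho hx]
      exact (h2 j hj').trans (le_self_pow₀ hD (by omega)))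
  rwa [iteratedFDerivWithin_of_isOpen _ ho hx] at h

theorem Tame.mono {f : ix → E → F} (hf : Tame sz U f) {U' : ix → Set E} {M : ℕ}
    (h : ∀ i, M ≤ sz i → U' i ⊆ U i) : Tame sz U' f := by
  obtain ⟨M', h1, h2⟩ := hf
  refine ⟨max M M', fun i hi x hx =>
    h1 i (le_of_max_le_right hi) x (h i (le_of_max_le_left hi) hx), fun k => ?_⟩
  obtain ⟨N, hN⟩ := h2 k
  exact ⟨N, fun i hi x hx => hN i (le_of_max_le_right hi) x (h i (le_of_max_le_left hi) hx)⟩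

theorem Tame.congr {f g : ix → E → F} (hf : Tame sz U f) {M : ℕ}
    (h : ∀ i, M ≤ sz i → ∀ x ∈ U i, g i =ᶠ[𝓝 x] f i) : Tame sz U g := by
  obtain ⟨M', h1, h2⟩ := hf
  refine ⟨max M M', fun i hi x hx => (h1 i (le_of_max_le_right hi) x hx).congr_of_eventuallyEq
    (h i (le_of_max_le_left hi) x hx), fun k => ?_⟩
  obtain ⟨N, hN⟩ := h2 k
  refine ⟨N, fun i hi x hx => ?_⟩
  rw [((h i (le_of_max_le_left hi) x hx).iteratedFDeriv ℝ k).eq_of_nhds]
  exact hN i (le_of_max_le_right hi) x hx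

theorem Tame.reindex {f : ix → E → F} (hf : Tame sz U f) {ix' : Type} (φ : ix' → ix) :
    Tame (fun i => sz (φ i)) (fun i => U (φ i)) fun i => f (φ i) := by
  obtain ⟨M, h1, h2⟩ := hf
  refine ⟨M, fun i => h1 (φ i), fun k => ?_⟩
  obtain ⟨N, hN⟩ := h2 k
  exact ⟨N, fun i => hN (φ i)⟩

theorem tame_const {c : ix → F} {M N : ℕ} (h : ∀ i, M ≤ sz i → ‖c i‖ ≤ (sz i : ℝ) ^ N) :
    Tame sz U fun i _ => c i := by
  refine ⟨M, fun i _ x _ => contDiffAt_const, fun k => ⟨N, fun i hi x _ => ?_⟩⟩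
  rcases k with _ | k
  · rw [norm_iteratedFDeriv_zero]
    exact h i hi
  · rw [iteratedFDeriv_succ_const, Pi.zero_apply, norm_zero]
    positivity

/-- linear maps on bounded sets -/
theorem tame_clm (L : ix → E →L[ℝ] F) {M N : ℕ} (h : ∀ i, M ≤ sz i → ‖L i‖ ≤ (sz i : ℝ) ^ N)
    (hU : ∀ i, M ≤ sz i → ∀ x ∈ U i, ‖x‖ ≤ (sz i : ℝ) ^ N) : Tame sz U fun i x => L i x := by
  refine ⟨M, fun i _ x _ => (L i).contDiff.contDiffAt, fun k => ?_⟩
  rcases k with _ | k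
  · refine ⟨N + N, fun i hi x hx => ?_⟩
    rw [norm_iteratedFDeriv_zero, pow_add]
    exact ((L i).le_opNorm x).trans
      (mul_le_mul (h i hi) (hU i hi x hx) (norm_nonneg _) (by positivity))
  · refine ⟨N, fun i hi x _ => ?_⟩
    have h1 : fderiv ℝ (fun x => L i x) = fun _ => L i := funext fun y => (L i).fderiv
    rw [← norm_iteratedFDeriv_fderiv, h1]
    rcases k with _ | k
    · rw [norm_iteratedFDeriv_zero]
      exact h i hi
    · rw [iteratedFDeriv_succ_const, Pi.zero_apply, norm_zero]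
      positivity

theorem Tame.add {f g : ix → E → F} (hf : Tame sz U f) (hg : Tame sz U g) :
    Tame sz U fun i x => f i x + g i x := by
  obtain ⟨M, hM, f1, f2⟩ := tame_unif hf
  obtain ⟨M', g1, g2⟩ := hg
  refine tame_of (max M M') (fun i hi x hx =>
    (f1 i (le_of_max_le_left hi) x hx).add (g1 i (le_of_max_le_right hi) x hx)) fun k => ?_
  obtain ⟨N, hN⟩ := f2 k
  obtain ⟨N', hN'⟩ := g2 k
  refine ⟨2, N + N', fun i hi x hx => ?_⟩
  have h1 : (1 : ℝ) ≤ sz i := by exact_mod_cast hM.trans (le_of_max_le_left hi)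
  have h2 := iteratedFDeriv_add_apply ((f1 i (le_of_max_le_left hi) x hx).of_le (tame_le_top k))
    ((g1 i (le_of_max_le_right hi) x hx).of_le (tame_le_top k))
  have h3 := hN i (le_of_max_le_left hi) x hx k le_rfl
  have h4 := hN' i (le_of_max_le_right hi) x hx
  have h5 := pow_le_pow_right₀ h1 (Nat.le_add_right N N')
  have h6 := pow_le_pow_right₀ h1 (Nat.le_add_left N' N)
  refine (congrArg norm h2).le.trans ((norm_add_le _ _).trans ?_)
  linarith only [h3, h4, h5, h6]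

theorem Tame.neg {f : ix → E → F} (hf : Tame sz U f) : Tame sz U fun i x => -f i x := by
  obtain ⟨M, h1, h2⟩ := hf
  refine ⟨M, fun i hi x hx => (h1 i hi x hx).neg, fun k => ?_⟩
  obtain ⟨N, hN⟩ := h2 k
  refine ⟨N, fun i hi x hx => ?_⟩
  have h3 := iteratedFDeriv_neg_apply (𝕜 := ℝ) (i := k) (f := f i) (x := x)
  exact (congrArg norm h3).le.trans ((norm_neg _).le.trans (hN i hi x hx))

theorem Tame.sub {f g : ix → E → F} (hf : Tame sz U f) (hg : Tame sz U g) :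
    Tame sz U fun i x => f i x - g i x := by
  simpa only [sub_eq_add_neg] using hf.add hg.neg

theorem Tame.bilin (B : F →L[ℝ] G →L[ℝ] H) {f : ix → E → F} {g : ix → E → G} (hf : Tame sz U f)
    (hg : Tame sz U g) : Tame sz U fun i x => B (f i x) (g i x) := by
  obtain ⟨M, -, f1, f2⟩ := tame_unif hf
  obtain ⟨M', -, g1, g2⟩ := tame_unif hg
  refine tame_of (max M M') (fun i hi x hx => ?_) fun k => ?_
  · exact (B.contDiff.contDiffAt.comp x (f1 i (le_of_max_le_left hi) x hx)).clm_apply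
      (g1 i (le_of_max_le_right hi) x hx)
  obtain ⟨N, hN⟩ := f2 k
  obtain ⟨N', hN'⟩ := g2 k
  refine ⟨‖B‖ * 2 ^ k, N + N', fun i hi x hx => ?_⟩
  rw [pow_add]
  exact tame_bilin_le B (f1 i (le_of_max_le_left hi) x hx) (g1 i (le_of_max_le_right hi) x hx) k
    (hN i (le_of_max_le_left hi) x hx) (hN' i (le_of_max_le_right hi) x hx)

theorem Tame.mul {f g : ix → E → ℝ} (hf : Tame sz U f) (hg : Tame sz U g) :
    Tame sz U fun i x => f i x * g i x := by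
  exact hf.bilin (ContinuousLinearMap.mul ℝ ℝ) hg

theorem Tame.cmul {f g : ix → E → ℂ} (hf : Tame sz U f) (hg : Tame sz U g) :
    Tame sz U fun i x => f i x * g i x := by
  exact hf.bilin (ContinuousLinearMap.mul ℝ ℂ) hg

theorem Tame.pow {f : ix → E → ℝ} (hf : Tame sz U f) (p : ℕ) :
    Tame sz U fun i x => f i x ^ p := by
  induction p with
  | zero => exact tame_const (c := fun _ => (1 : ℝ)) (M := 0) (N := 0) fun i _ => by simp
  | succ p ih => simpa only [pow_succ] using ih.mul hf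

theorem Tame.clm_comp (L : F →L[ℝ] G) {f : ix → E → F} (hf : Tame sz U f) :
    Tame sz U fun i x => L (f i x) := by
  obtain ⟨M, h1, h2⟩ := hf
  refine tame_of M (fun i hi x hx => L.contDiff.contDiffAt.comp x (h1 i hi x hx)) fun k => ?_
  obtain ⟨N, hN⟩ := h2 k
  refine ⟨‖L‖, N, fun i hi x hx => ?_⟩
  exact (L.norm_iteratedFDeriv_comp_left (h1 i hi x hx) (tame_le_top k)).trans
    (mul_le_mul_of_nonneg_left (hN i hi x hx) (norm_nonneg _))

theorem Tame.re {f : ix → E → ℂ} (hf : Tame sz U f) : Tame sz U fun i x => (f i x).re := by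
  exact hf.clm_comp Complex.reCLM

theorem Tame.im {f : ix → E → ℂ} (hf : Tame sz U f) : Tame sz U fun i x => (f i x).im := by
  exact hf.clm_comp Complex.imCLM

theorem Tame.conj {f : ix → E → ℂ} (hf : Tame sz U f) : Tame sz U fun i x => conj (f i x) := by
  exact hf.clm_comp (Complex.conjCLE : ℂ →L[ℝ] ℂ)

theorem Tame.normSq {f : ix → E → ℂ} (hf : Tame sz U f) : Tame sz U fun i x => ‖f i x‖ ^ 2 := by
  simpa only [Complex.sq_norm, Complex.normSq_apply] using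
    (hf.re.mul hf.re).add (hf.im.mul hf.im)

theorem Tame.comp {U' : ix → Set F} {g : ix → F → G} {f : ix → E → F} (hg : Tame sz U' g)
    (hf : Tame sz U f) {M : ℕ} (h : ∀ i, M ≤ sz i → ∀ x ∈ U i, f i x ∈ U' i) :
    Tame sz U fun i x => g i (f i x) := by
  obtain ⟨M1, -, g1, g2⟩ := tame_unif hg
  obtain ⟨M2, hM, f1, f2⟩ := tame_unif hf
  have e : ∀ i, max M (max M1 M2) ≤ sz i → M ≤ sz i ∧ M1 ≤ sz i ∧ M2 ≤ sz i := fun i hi => by
    simpa only [sup_le_iff] using hi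
  refine tame_of (max M (max M1 M2)) (fun i hi x hx => ?_) fun k => ?_
  · obtain ⟨e1, e2, e3⟩ := e i hi
    exact (g1 i e2 _ (h i e1 x hx)).comp x (f1 i e3 x hx)
  obtain ⟨N, hN⟩ := g2 k
  obtain ⟨N', hN'⟩ := f2 k
  refine ⟨k.factorial, N + N' * k, fun i hi x hx => ?_⟩
  obtain ⟨e1, e2, e3⟩ := e i hi
  have h1 : (1 : ℝ) ≤ sz i := by exact_mod_cast hM.trans e3
  rw [pow_add, pow_mul, ← mul_assoc]
  exact tame_comp_le (g1 i e2 _ (h i e1 x hx)) (f1 i e3 x hx) k (one_le_pow₀ h1)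
    (hN i e2 _ (h i e1 x hx)) (hN' i e3 x hx)

end Pool.Agent.MP_bea40e_an.Iv

end

section

open Filter Topology Set Metric Complex
open scoped ContDiff ComplexConjugate

namespace Pool.Agent.MP_bea40e_an.Iv

variable {ix E F G H : Type} [NormedAddCommGroup E] [NormedSpace ℝ E] [NormedAddCommGroup F]
  [NormedSpace ℝ F] [NormedAddCommGroup G] [NormedSpace ℝ G] [NormedAddCommGroup H]
  [NormedSpace ℝ H] {sz : ix → ℕ} {U : ix → Set E}

theorem tame2_pow {m : ℕ} (hm : 2 ≤ m) (C : ℝ) : C ≤ (m : ℝ) ^ ⌈C⌉₊ := by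
  have h1 : ((⌈C⌉₊ : ℕ) : ℝ) ≤ (2 : ℝ) ^ ⌈C⌉₊ := by exact_mod_cast Nat.lt_two_pow_self.le
  exact (Nat.le_ceil C).trans (h1.trans (pow_le_pow_left₀ two_pos.le (by exact_mod_cast hm) _))

/-- composition with a fixed function whose derivatives grow at most linearly -/
theorem tame2_comp {g : ℝ → ℝ} (hg : ContDiff ℝ ∞ g)
    (hb : ∀ k, ∃ C : ℝ, ∀ t, ‖iteratedFDeriv ℝ k g t‖ ≤ C * (1 + |t|)) {f : ix → E → ℝ}
    (hf : Tame sz U f) : Tame sz U fun i x => g (f i x) := by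
  obtain ⟨M, -, h⟩ := id hf
  obtain ⟨N, h⟩ := h 0
  refine Tame.comp (U' := fun i => {t | |t| ≤ (sz i : ℝ) ^ N}) (g := fun _ => g)
    ⟨2, fun _ _ _ _ => hg.contDiffAt, fun k => ?_⟩ hf (M := M) fun i hi x hx => by
      simpa using h i hi x hx
  obtain ⟨C, hC⟩ := hb k
  refine ⟨⌈C⌉₊ + (N + 1), fun i hi t ht => (hC t).trans ?_⟩
  have h2 : (2 : ℝ) ≤ sz i := by exact_mod_cast hi
  have h3 : (1 : ℝ) ≤ (sz i : ℝ) ^ N := one_le_pow₀ (by linarith only [h2])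
  have h4 : |t| ≤ (sz i : ℝ) ^ N := ht
  rw [pow_add]
  exact mul_le_mul (tame2_pow hi C) (by rw [pow_succ]; nlinarith only [h2, h3, h4]) (by positivity) (by positivity)

/-- sums with polynomially many terms -/
theorem Tame.sum {κ : ix → Type} [∀ i, Fintype (κ i)] {f : (i : ix) → κ i → E → F}
    (hf : Tame (fun p : Σ i, κ i => sz p.1) (fun p => U p.1) fun p => f p.1 p.2) {M N : ℕ}
    (hc : ∀ i, M ≤ sz i → (Fintype.card (κ i) : ℝ) ≤ (sz i : ℝ) ^ N) :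
    Tame sz U fun i x => ∑ k, f i k x := by
  obtain ⟨M', h1, h2⟩ := hf
  refine ⟨max M M', fun i hi x hx => ContDiffAt.sum fun k _ => h1 ⟨i, k⟩ (le_of_max_le_right hi) x hx,
    fun j => ?_⟩
  obtain ⟨N', h2⟩ := h2 j
  refine ⟨N + N', fun i hi x hx => ?_⟩
  rw [iteratedFDeriv_fun_sum_apply fun k _ =>
    (h1 ⟨i, k⟩ (le_of_max_le_right hi) x hx).of_le (by exact_mod_cast le_top), pow_add]
  refine (norm_sum_le _ _).trans ((Finset.sum_le_card_nsmul _ _ ((sz i : ℝ) ^ N') fun k _ =>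
    h2 ⟨i, k⟩ (le_of_max_le_right hi) x hx).trans ?_)
  rw [nsmul_eq_mul]
  exact mul_le_mul_of_nonneg_right (hc i (le_of_max_le_left hi)) (by positivity)

/-- a fixed finite product -/
theorem Tame.prod {κ : Type} (S : Finset κ) {f : κ → ix → E → ℝ} (hf : ∀ k ∈ S, Tame sz U (f k)) :
    Tame sz U fun i x => ∏ k ∈ S, f k i x := by
  classical
  induction S using Finset.induction_on with
  | empty => exact tame_const (c := fun _ => (1 : ℝ)) (M := 0) (N := 0) fun _ _ => by simp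
  | insert a S ha ih =>
    simp only [Finset.prod_insert ha]
    exact (hf a (by simp)).mul (ih fun k hk => hf k (by simp [hk]))

theorem Tame.finsum {κ : Type} (S : Finset κ) {f : κ → ix → E → F}
    (hf : ∀ k ∈ S, Tame sz U (f k)) : Tame sz U fun i x => ∑ k ∈ S, f k i x := by
  classical
  induction S using Finset.induction_on with
  | empty => exact tame_const (c := fun _ => (0 : F)) (M := 0) (N := 0) fun _ _ => by simp
  | insert a S ha ih =>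
    simp only [Finset.sum_insert ha]
    exact (hf a (by simp)).add (ih fun k hk => hf k (by simp [hk]))

/-- a cut-off function extends a family given near its support -/
theorem Tame.cut {c f : ix → E → ℝ} {S : ix → Set E} (hc : Tame sz U c)
    (hf : Tame sz (fun i => U i ∩ S i) f) {M : ℕ}
    (h : ∀ i, M ≤ sz i → ∀ x ∈ U i, x ∉ S i → c i =ᶠ[𝓝 x] fun _ => 0) :
    Tame sz U fun i x => c i x * f i x := by
  obtain ⟨M', h1, h2⟩ := (hc.mono (M := 0) fun _ _ => inter_subset_left).mul hf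
  have key : ∀ i, M ≤ sz i → ∀ x ∈ U i, x ∉ S i → (fun y => c i y * f i y) =ᶠ[𝓝 x] fun _ => 0 :=
    fun i hi x hx hS => (h i hi x hx hS).mono fun y hy => by simp [hy]
  refine ⟨max M M', fun i hi x hx => ?_, fun k => (h2 k).imp fun N hN i hi x hx => ?_⟩
  · by_cases hS : x ∈ S i
    · exact h1 i (le_of_max_le_right hi) x ⟨hx, hS⟩
    · exact contDiffAt_const.congr_of_eventuallyEq (key i (le_of_max_le_left hi) x hx hS)
  · by_cases hS : x ∈ S i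
    · exact hN i (le_of_max_le_right hi) x ⟨hx, hS⟩
    · rw [((key i (le_of_max_le_left hi) x hx hS).iteratedFDeriv ℝ k).eq_of_nhds,
        iteratedFDeriv_fun_zero]
      simp only [Pi.zero_apply, norm_zero, Nat.cast_nonneg, pow_nonneg]

theorem Tame.step {f : ix → E → ℝ} (hf : Tame sz U f) :
    Tame sz U fun i x => Real.smoothTransition (f i x) := by
  refine tame2_comp Real.smoothTransition.contDiff (fun k => (step_bdd k).imp fun C hC t => ?_) hf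
  exact (hC t).trans (le_mul_of_one_le_right ((norm_nonneg _).trans (hC t)) (by simp))

theorem Tame.kap {f : ix → E → ℝ} (hf : Tame sz U f) : Tame sz U fun i x => kap (f i x) := by
  exact tame2_comp kap_contDiff kap_bdd hf

/-- steps with polynomially controlled end points -/
theorem Tame.st {f : ix → E → ℝ} (hf : Tame sz U f) {a b : ix → ℝ} {M N : ℕ}
    (h : ∀ i, M ≤ sz i → |a i| ≤ (sz i : ℝ) ^ N ∧ |(b i - a i)⁻¹| ≤ (sz i : ℝ) ^ N) :
    Tame sz U fun i x => st (a i) (b i) (f i x) := by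
  exact ((hf.sub (tame_const fun i hi => (h i hi).1)).mul
    (tame_const fun i hi => (h i hi).2)).step

/-- Cauchy estimates (`norm_iteratedFDeriv_le_of_bound` in Lib/SCV/Osgood with
`δ = ρ / (k + 1)`, `ContDiffAt.restrictScalars_iteratedFDeriv` or similar) -/
theorem tame_hol {W : ix → Set ℂ} {f : ix → ℂ → ℂ} {M N : ℕ}
    (h : ∀ i, M ≤ sz i → ∀ x ∈ W i, DifferentiableOn ℂ (f i) (ball x ((sz i : ℝ) ^ N)⁻¹) ∧
      ∀ t ∈ ball x ((sz i : ℝ) ^ N)⁻¹, ‖f i t‖ ≤ (sz i : ℝ) ^ N) : Tame sz W f := by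
  have an : ∀ i, max M 2 ≤ sz i → ∀ x ∈ W i, ContDiffAt ℂ ∞ (f i) x := fun i hi x hx => by
    have h2 : (0 : ℝ) < sz i := Nat.cast_pos.2 (two_pos.trans_le (le_of_max_le_right hi))
    exact ((h i (le_of_max_le_left hi) x hx).1.analyticAt
      (ball_mem_nhds x (by positivity))).contDiffAt
  refine ⟨max M 2, fun i hi x hx => (an i hi x hx).restrict_scalars ℝ, fun k =>
    ⟨N + (⌈(2 * (k + 1) : ℝ)⌉₊ + N) * k, fun i hi x hx => ?_⟩⟩
  have h2 : (0 : ℝ) < sz i := Nat.cast_pos.2 (two_pos.trans_le (le_of_max_le_right hi))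
  have hk : (k + 1 : ℝ) ≠ 0 := by positivity
  obtain ⟨h3, h4⟩ := h i (le_of_max_le_left hi) x hx
  have h5 := Pool.Agent.Lib.SCV.norm_iteratedFDeriv_le_of_bound
    (δ := ((sz i : ℝ) ^ N)⁻¹ / (k + 1)) (by positivity) x k
    (f := f i) (by rwa [mul_div_cancel₀ _ hk]) (by rwa [mul_div_cancel₀ _ hk])
  rw [← ((an i hi x hx).of_le (by exact_mod_cast le_top)).restrictScalars_iteratedFDeriv (𝕜 := ℝ),
    Function.comp_apply, ContinuousMultilinearMap.norm_restrictScalars, pow_add, pow_mul, pow_add]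
  refine h5.trans (mul_le_mul_of_nonneg_left (pow_le_pow_left₀ (by positivity) ?_ _) (by positivity))
  rw [show 2 / (((sz i : ℝ) ^ N)⁻¹ / (k + 1)) = 2 * (k + 1) * (sz i : ℝ) ^ N by field_simp]
  exact mul_le_mul_of_nonneg_right (tame2_pow (le_of_max_le_right hi) _) (by positivity)

/-- the form in which tameness is used -/
theorem Tame.bound {f : ℕ → E → F} {U : ℕ → Set E} (hf : Tame id U f) (k : ℕ) :
    ∃ N : ℕ, ∀ᶠ m : ℕ in atTop, ∀ x ∈ U m, ContDiffAt ℝ ∞ (f m) x ∧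
      ∀ j ≤ k, ‖iteratedFDeriv ℝ j (f m) x‖ ≤ (m : ℝ) ^ N := by
  obtain ⟨M, h1, h2⟩ := hf
  choose N hN using h2
  refine ⟨∑ j ∈ Finset.range (k + 1), N j, (eventually_ge_atTop (max M 1)).mono
    fun m hm x hx => ⟨h1 m (le_of_max_le_left hm) x hx, fun j hj => ?_⟩⟩
  exact (hN j m (le_of_max_le_left hm) x hx).trans (pow_le_pow_right₀
    (Nat.one_le_cast.2 (le_of_max_le_right hm))
    (Finset.single_le_sum (fun _ _ => Nat.zero_le _) (Finset.mem_range.2 (Nat.lt_succ_of_le hj))))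

theorem Tame.bound' {κ : ℕ → Type} {f : (Σ m, κ m) → E → F} {U : (Σ m, κ m) → Set E}
    (hf : Tame (fun p => p.1) U f) (k : ℕ) : ∃ N : ℕ, ∀ᶠ m : ℕ in atTop, ∀ ν : κ m,
      ∀ x ∈ U ⟨m, ν⟩, ContDiffAt ℝ ∞ (f ⟨m, ν⟩) x ∧
        ∀ j ≤ k, ‖iteratedFDeriv ℝ j (f ⟨m, ν⟩) x‖ ≤ (m : ℝ) ^ N := by
  obtain ⟨M, h1, h2⟩ := hf
  choose N hN using h2
  refine ⟨∑ j ∈ Finset.range (k + 1), N j, (eventually_ge_atTop (max M 1)).mono
    fun m hm ν x hx => ⟨h1 ⟨m, ν⟩ (le_of_max_le_left hm) x hx, fun j hj => ?_⟩⟩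
  exact (hN j ⟨m, ν⟩ (le_of_max_le_left hm) x hx).trans (pow_le_pow_right₀
    (Nat.one_le_cast.2 (le_of_max_le_right hm))
    (Finset.single_le_sum (fun _ _ => Nat.zero_le _) (Finset.mem_range.2 (Nat.lt_succ_of_le hj))))

end Pool.Agent.MP_bea40e_an.Iv

end

section

open Filter Topology Set Metric Complex
open scoped ContDiff ComplexConjugate

namespace Pool.Agent.MP_bea40e_an.Iv

/-! The domain. Coordinates `s, z, w, l, o` and `v j`. -/

def dd : ℕ := 700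

abbrev AX := Bool × Fin dd

abbrev J := Fin 5 ⊕ AX

abbrev EE := J → ℂ

abbrev js : J := Sum.inl 0

abbrev jz : J := Sum.inl 1

abbrev jw : J := Sum.inl 2

abbrev jl : J := Sum.inl 3

abbrev jo : J := Sum.inl 4

abbrev jv (j : AX) : J := Sum.inr j

/-- a point from its coordinates -/
def pt (s z w l o : ℂ) (v : AX → ℂ) : EE := Sum.elim ![s, z, w, l, o] v

noncomputable section

def LL : ℝ := 1 / 10 ^ 60

def Cz : ℝ := LL ^ 20

/-- the slack -/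
def sl (t : ℝ) : ℝ := expNegInvGlue (-t) / 1000

def qq (x : EE) : ℝ := ‖x js‖ ^ 2

def HH (q t : ℝ) : ℝ := (q - 1) ^ 2 * (st (-LL / 2) (-2 * LL / 5) t +
  (1 - st (-LL / 2) (-2 * LL / 5) t) * Real.smoothTransition ((q - 1) / LL ^ 10))

def Xi (x : EE) : ℝ := kap (‖x jw‖ ^ 2 - 1) + ∑ j, kap (‖x (jv j)‖ ^ 2 - 1) +
  kap (((x jl).re ^ 2 - LL ^ 2) / LL ^ 3) + kap (((x jo).re ^ 2 - LL ^ 2) / LL ^ 3)

def ysq (x : EE) : ℝ := (x jl).im ^ 2 + (x jo).im ^ 2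

def base (x : EE) : ℝ :=
  (x js * x jz).re + ‖x jz‖ ^ 2 / Cz + HH (qq x) (x jl).re + ysq x + Xi x - sl (x jl).re

def mu (m : ℕ) : ℝ := Real.exp (-9 * m)

def aa (m : ℕ) : ℝ := mu m ^ 7

/-- the exponentially small tails -/
def tl (m : ℕ) : ℝ := Real.exp (-(m : ℝ) ^ 2 / 3)

def lc (m : ℕ) : ℝ := -1 / (117 * m)

def kk (m : ℕ) : ℕ := dd * m

def Tend (m : ℕ) : ℝ := 10 * kk m + 2

def Xr (m : ℕ) (t : ℝ) : ℝ := (t - lc m) * m ^ 3

def Tr (m : ℕ) (t : ℝ) : ℝ := t * m ^ 3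

def XX (m : ℕ) (x : EE) : ℝ := Xr m (x jl).re

def TT (m : ℕ) (x : EE) : ℝ := Tr m (x jo).re

def Xc (m : ℕ) (l : ℂ) : ℂ := (l - lc m) * m ^ 3

def Tc (m : ℕ) (o : ℂ) : ℂ := o * m ^ 3

/-- nodes -/
abbrev Nd (m : ℕ) := Fin (kk m) × Bool

/-- words -/
abbrev Wd (m : ℕ) := Fin (kk m) → Bool

def sn (b : Bool) : ℝ := if b then 1 else -1

def ze (m : ℕ) (ν : Nd m) : ℂ := sn ν.2 * cexp ((((ν.1 : ℕ) : ℝ) / (10 * kk m) : ℝ) * I)

def grp (m : ℕ) (ν : Nd m) : AX := (ν.2, ⟨ν.1 % dd, Nat.mod_lt _ (by decide)⟩)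

def dig (m : ℕ) (ν : Nd m) : ℕ := ν.1 / dd

/-- start of the stage `l` -/
def t0 {n : ℕ} (l : Fin n) : ℝ := 10 * (l : ℕ)

def ep (m : ℕ) : ℝ := 1 / m ^ 5

def e2 (m : ℕ) : ℝ := 1 / m ^ 13

def Pk (m : ℕ) (s : ℂ) : ℂ := ep m / (1 - (1 - ep m) * s)

def Ek (m : ℕ) (s : ℂ) : ℂ := (1 - ep m) / (1 - (1 - ep m) * s) * ∑ j ∈ Finset.range (m ^ 2), Pk m s ^ j

def Bk (m : ℕ) (s : ℂ) : ℂ := s * Ek m s ^ 2

def G1 (m : ℕ) (ν : Nd m) (s : ℂ) : ℂ := 1 / m ^ 16 * I * Ek m (s / ze m ν) ^ 2 / ze m ν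

def Gk (m : ℕ) (ν : Nd m) (s : ℂ) : ℂ := s * G1 m ν s

def A2 (m : ℕ) (ν : Nd m) (s : ℂ) : ℂ :=
  1 / m ^ 30 * (1 / 16 ^ dig m ν) * I * Ek m (s / ze m ν) ^ 4 / ze m ν ^ 2

def Ak (m : ℕ) (ν : Nd m) (s : ℂ) : ℂ := s ^ 2 * A2 m ν s

def Sk (m : ℕ) (ν : Nd m) (s : ℂ) : ℂ := (1 + s / ze m ν) * Ek m (s / ze m ν)

def S0 (m : ℕ) : ℝ := 1 - ep m ^ m ^ 2

def S1 (m : ℕ) (ν : Nd m) : ℂ → ℂ := dslope (Sk m ν) 0

def cut (m : ℕ) (ν : Nd m) (s : ℂ) : ℝ := st (-e2 m) (-e2 m / 2) (‖s‖ ^ 2 - 1) *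
  (1 - st (e2 m / 2) (e2 m) (‖s‖ ^ 2 - 1)) * (1 - st (9 * ep m ^ 2) (16 * ep m ^ 2) (‖s - ze m ν‖ ^ 2))

/-- a closed set containing the support of `cut` -/
def Sn (m : ℕ) (ν : Nd m) : Set ℂ := {s | |‖s‖ ^ 2 - 1| ≤ e2 m ∧ ‖s - ze m ν‖ ≤ 4 * ep m}

/-- reading of a bit -/
def rd (ξ : ℂ) : ℝ := Real.smoothTransition (-2 * ξ.re - 1 / 2)

def Pen (ξ : ℂ) : ℝ := kap (1 / 8 + 2 * ξ.im ^ 2 - (ξ.re + 1 / 2) ^ 2)

def lg (t : ℝ) : ℝ := 1 / (1 + Real.exp (-t))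

def Lg (w : ℂ) : ℂ := 1 / (1 + cexp (-w))

def sg (X : ℝ) : ℝ := st (-1) 1 X

def xi (m : ℕ) (ν : Nd m) (x : EE) : ℂ := x jw / Gk m ν (x js)

def Cf (m : ℕ) (ν : Nd m) (x : EE) : ℝ :=
  (1 - st (t0 ν.1 + 5) (t0 ν.1 + 11 / 2) (TT m x)) * sg (XX m x) *
    lg (m ^ 2 * (TT m x - t0 ν.1 - 3)) * st (t0 ν.1 + 8 / 5) (t0 ν.1 + 19 / 10) (TT m x) +
  st (t0 ν.1 + 5) (t0 ν.1 + 11 / 2) (TT m x) * rd (xi m ν x)

/-- the blocking term -/
def bl (m : ℕ) (ν : Nd m) (x : EE) : ℝ := st (t0 ν.1 + 28 / 5) (t0 ν.1 + 59 / 10) (TT m x) *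
  lg (-(m ^ 2 * (TT m x - t0 ν.1 - 8))) * (1 - st (t0 ν.1 + 17 / 2) (t0 ν.1 + 89 / 10) (TT m x)) *
  (sg (XX m x) * (1 - rd (xi m ν x)) + (1 - sg (XX m x)) * rd (xi m ν x))

def NN (m : ℕ) (ν : Nd m) (x : EE) : ℝ :=
  4 * Cf m ν x * (Gk m ν (x js)).re * (x jw).re + 2 * Cf m ν x ^ 2 * (Gk m ν (x js)).re ^ 2 +
    4 * Cf m ν x * (Ak m ν (x js)).re * (x (jv (grp m ν)) * conj (x js)).re +
    2 * Cf m ν x ^ 2 * (Ak m ν (x js)).re ^ 2 +
    (if ν.2 then bl m ν x * (Sk m ν (x js)).re else 0)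

def Pn (m : ℕ) (ν : Nd m) (x : EE) : ℝ := st (t0 ν.1 + 4) (t0 ν.1 + 9 / 2) (TT m x) * Pen (xi m ν x)

def th (m : ℕ) (X T : ℝ) : ℝ := (1 - st 25 49 (X ^ 2)) * (1 - st (Tend m + 3 / 2) (Tend m + 7 / 2) T)

def chi (X : ℝ) : ℝ := 1 - st 121 144 (X ^ 2)

def Qf (x : EE) : ℝ := ‖x jw‖ ^ 2 + 2 * ∑ j, (x (jv j) * conj (x js)).im ^ 2

def Wall (m : ℕ) (X T : ℝ) : ℝ :=
  (1 - st 64 81 (X ^ 2)) * (1 - st (Tend m + 9 / 2) (Tend m + 5) T) *
    (st 9 16 (X ^ 2) * st (-3) (-5 / 2) T + st (Tend m) (Tend m + 1 / 2) T) +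
  ∑ l : Fin (kk m), (1 - st 1 4 (X ^ 2)) * st (t0 l + 1 / 2) (t0 l + 1) T *
    (1 - st (t0 l + 9) (t0 l + 19 / 2) T)

/-- the weight of the node `ν` -/
def cw (m : ℕ) (ν : Nd m) (x : EE) : ℝ := cut m ν (x js) * th m (XX m x) (TT m x)

def Psi0 (m : ℕ) (x : EE) : ℝ :=
  chi (XX m x) ^ 2 * Qf x + Wall m (XX m x) (TT m x) + ∑ ν, cw m ν x * NN m ν x

def Psi1 (m : ℕ) (x : EE) : ℝ := ∑ ν, cw m ν x * Pn m ν x

def Psi (m : ℕ) (x : EE) : ℝ := Psi0 m x + Real.exp m * Psi1 m x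

def box (x : EE) : ℝ := ∏ j, (1 - st 9 16 (‖x j‖ ^ 2))

def fine (m : ℕ) (x : EE) : ℝ := aa m * (box x * Psi m x)

def FS (m0 : ℕ) (x : EE) : ℝ := ∑' m, if m0 ≤ m then fine m x else 0

/-- the defining function -/
def rr (m0 : ℕ) (x : EE) : ℝ := base x + FS m0 x

def seed : EE := pt 0 0 0 (-3 / 4 * LL : ℝ) (-LL / 2 : ℝ) 0

/-- the domain -/
def DD (m0 : ℕ) : Set EE := connectedComponentIn {x | rr m0 x < 0} seed

/-! Holomorphic data of a word. -/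

def Gam (m : ℕ) (k : Wd m) (l : Fin (kk m)) (o : ℂ) : ℂ :=
  if k l then Lg (m ^ 2 * (Tc m o - t0 l - 3)) else 0

def GG1 (m : ℕ) (k : Wd m) (s o : ℂ) : ℂ := ∑ ν : Nd m, Gam m k ν.1 o * G1 m ν s

def AA2 (m : ℕ) (k : Wd m) (j : AX) (s o : ℂ) : ℂ :=
  ∑ ν : Nd m, if grp m ν = j then Gam m k ν.1 o * A2 m ν s else 0

def eta (m : ℕ) (k : Wd m) (l : Fin (kk m)) (lam o : ℂ) : ℂ :=
  Lg (m ^ 2 * (Tc m o - t0 l - 63 / 10)) * Lg (-(m ^ 2 * (Tc m o - t0 l - 8))) *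
    Lg (-(sn (k l) * m ^ 2 * Xc m lam))

def etaR (m : ℕ) (k : Wd m) (l : Fin (kk m)) (X T : ℝ) : ℝ :=
  lg (m ^ 2 * (T - t0 l - 63 / 10)) * lg (-(m ^ 2 * (T - t0 l - 8))) * lg (-(sn (k l) * m ^ 2 * X))

/-- the holomorphic completion divided by `s` -/
def cmp (m : ℕ) (k : Wd m) (s w lam o : ℂ) (v : AX → ℂ) : ℂ :=
  aa m * (GG1 m k s o * (2 * w + s * GG1 m k s o) +
    ∑ j, (4 * AA2 m k j s o * v j + 2 * s ^ 3 * AA2 m k j s o ^ 2) +
    ∑ l, eta m k l lam o * S1 m (l, true) s)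

def zw (m : ℕ) (k : Wd m) (x : EE) : ℂ :=
  x jz + cmp m k (x js) (x jw) (x jl) (x jo) fun j => x (jv j)

def ww (m : ℕ) (k : Wd m) (x : EE) : ℂ := x jw + x js * GG1 m k (x js) (x jo)

def Phw (m : ℕ) (k : Wd m) (x : EE) : ℝ := ysq x + Xi x + aa m * (Wall m (XX m x) (TT m x) +
  S0 m * ∑ l, etaR m k l (XX m x) (TT m x) + ‖ww m k x‖ ^ 2)

def Yw (m : ℕ) (k : Wd m) (j : AX) (x : EE) : ℂ :=
  x (jv j) / x js + x js ^ 2 * AA2 m k j (x js) (x jo)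

def gw (m : ℕ) (k : Wd m) (X T : ℝ) : ℝ := max (max (10 * (-1 - T)) (10 * (|X| - 5)))
  (max (10 * (T - Tend m - 1))
    (⨆ l, min (min (50 * (T - t0 l - 2)) (50 * (t0 l + 7 - T))) (-10 * sn (k l) * X)))

def gout (m : ℕ) (X T : ℝ) : ℝ := min (min (10 * (6 - |X|)) (10 * (T - 1))) (10 * (Tend m + 5 / 2 - T))

def Pho (m : ℕ) (x : EE) : ℝ :=
  ysq x + Xi x + aa m * (Wall m (XX m x) (TT m x) + chi (XX m x) ^ 2 * ‖x jw‖ ^ 2)

def tw (m : ℕ) (k : Wd m) (x : EE) : ℝ :=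
  -TT m x / (10 ^ 7 * m) - (∑ l, sn (k l)) * XX m x / (10 ^ 11 * m ^ 2)

def Vw (m : ℕ) : Set EE := {x | ‖x js‖ < 1 + e2 m ∧ |(x jl).im| < 1 / m ^ 6 ∧
  |(x jo).im| < 1 / m ^ 6 ∧ ‖x‖ < 3 ∧ |XX m x| < 6 ∧ -2 < TT m x ∧ TT m x < Tend m + 2}

def Kw (m : ℕ) : Set EE := {x | ‖x js‖ ≤ 1 + e2 m / 2 ∧ |(x jl).im| ≤ 1 / (2 * m ^ 6) ∧
  |(x jo).im| ≤ 1 / (2 * m ^ 6) ∧ ‖x‖ ≤ 5 / 2 ∧ |XX m x| ≤ 11 / 2 ∧ -3 / 2 ≤ TT m x ∧
  TT m x ≤ Tend m + 3 / 2}

def Vo : Set EE := {x | ‖x‖ < 3 ∧ |(x jl).re| < 2 * LL}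

def Ko : Set EE := {x | ‖x‖ ≤ 5 / 2 ∧ |(x jl).re| ≤ 3 / 2 * LL}

/-- what is used about a point of the chart of a word -/
def Chw (m : ℕ) (k : Wd m) (x : EE) : Prop :=
  x ∈ Vw m ∧ gw m k (XX m x) (TT m x) < 5 ∧ Phw m k x ≤ 25600 * mu m ^ 8

/-- the error unit -/
def Er (m : ℕ) (x : EE) : ℝ := |qq x - 1| + |(x jl).im| + |(x jo).im| + tl m

/-! The local scale. -/

def pp (μ t : ℝ) : ℝ := (√(t ^ 2 + μ ^ 2) - t) / 2

def ms (m : ℕ) (t : ℝ) : ℝ :=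
  mu m + pp (mu m) (t - lc m + 10 / m ^ 3) + pp (mu m) (lc m + 10 / m ^ 3 - t)

def pc (μ : ℝ) (w : ℂ) : ℂ := ((w ^ 2 + μ ^ 2) ^ (1 / 2 : ℂ) - w) / 2

def us (m : ℕ) (l : ℂ) : ℂ :=
  mu m + pc (mu m) (l - lc m + 10 / m ^ 3) + pc (mu m) (lc m + 10 / m ^ 3 - l)

def prew (m : ℕ) : Option (Wd m) → Option (Wd m) → EE → Prop
  | some k, some k' => fun x => ∀ l, k l ≠ k' l → TT m x < t0 l + 3
  | none, none => fun _ => True
  | _, _ => fun x => TT m x < 3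

/-- the tube data at scale `m`; the chart `none` is the outer chart -/
def tdm (m0 m : ℕ) : TD J (Option (Wd m)) AX where
  is := js
  iz := jz
  il := jl
  r := rr m0
  m := ms m
  u := us m
  μ := mu m
  a := aa m
  c := 10 ^ 6
  L := LL
  Cz := Cz
  ε := 1 / (10 ^ 12 * m ^ 2)
  V := fun a => a.elim Vo fun _ => Vw m
  Kc := fun a => a.elim Ko fun _ => Kw m
  z := fun a => a.elim (fun x => x jz) (zw m)
  Φ := fun a => a.elim (Pho m) (Phw m)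
  Y := fun a => a.elim (fun j x => x (jv j) / x js) (Yw m)
  g := fun a x => a.elim (gout m (XX m x) (TT m x)) fun k => gw m k (XX m x) (TT m x)
  wt := fun a x => a.elim (aa m * chi (XX m x) ^ 2) fun _ => aa m
  tilt := fun a => a.elim (fun _ => 0) (tw m)
  pre := prew m

/-- for all large starting scales and all later scales -/
def Big (P : ℕ → ℕ → Prop) : Prop := ∃ M, ∀ m0, M ≤ m0 → ∀ m, m0 ≤ m → P m0 m

/-! Discs. -/

/-- the disc of a word -/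
def dw (m : ℕ) (k : Wd m) (l o ew z0 : ℂ) (b : AX → ℂ) (ζ : ℂ) : EE :=
  pt ζ (z0 - cmp m k ζ (ew - ζ * GG1 m k ζ o) l o
      fun j => conj (b j) + b j * ζ ^ 2 - ζ ^ 3 * AA2 m k j ζ o)
    (ew - ζ * GG1 m k ζ o) l o fun j => conj (b j) + b j * ζ ^ 2 - ζ ^ 3 * AA2 m k j ζ o

def Good (m : ℕ) (k : Wd m) (X T : ℝ) : Prop := |X| ≤ 3 ∧ 0 ≤ T ∧ T ≤ Tend m ∧
  ∀ l, t0 l + 1 / 2 < T → T < t0 l + 19 / 2 → 2 ≤ sn (k l) * X

def Adm (m : ℕ) (l o ew z0 : ℂ) (b : AX → ℂ) : Prop := |l.im| ≤ mu m ^ 7 ∧ |o.im| ≤ mu m ^ 7 ∧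
  ‖ew‖ ≤ mu m ^ 4 ∧ ‖z0‖ ≤ mu m ^ 14 ∧ ∀ j, ‖b j‖ ≤ 1 / 5

/-- the tube of a word -/
def Tset (m : ℕ) (k : Wd m) : Set EE := {x | ‖x js‖ < 1 / 2 ∧ 0 < XX m x ∧ XX m x < 1 ∧
  10 * kk m < TT m x ∧ TT m x < 10 * kk m + 1 ∧ |(x jl).im| < mu m ^ 7 ∧ |(x jo).im| < mu m ^ 7 ∧
  ‖ww m k x‖ < mu m ^ 4 ∧ (∀ j, ‖x (jv j) + x js ^ 3 * AA2 m k j (x js) (x jo)‖ < 1 / 10) ∧
  ‖zw m k x‖ < mu m ^ 14}

/-- stiff and soft parts of a vector -/
def vst (v : EE) : EE := pt (v js) (v jz) 0 (v jl) (v jo) 0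

def vso (v : EE) : EE := pt 0 0 (v jw) 0 0 fun j => v (jv j)

end

end Pool.Agent.MP_bea40e_an.Iv

end
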