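import Pool.Agent.MP_bea40e_an.Mg.InfA

attribute [-instance]
  TopologicalSpace.instSecondCountableTopologyOfLindelofSpaceOfPseudoMetrizableSpace
  AddQuantale.instAddLeftMono ProperSMul.toContinuousSMul IsTopologicalTorsor.toContinuousSMul
  Valued.toUniformSpace NonarchimedeanAddGroup.toIsTopologicalAddGroup RKHS.instFunLike
  IdemSemiring.toCanonicallyOrderedAdd RightPreLieAlgebra.toModule LeftPreLieAlgebra.toModule
  NonarchimedeanRing.toIsTopologicalRing NonUnitalNonAssocRing.toAddCommGroup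
  continuousSub_of_discreteTopology Group.IsPerfect.subsingleton_of_isMulCommutative
  Nontrivial.to_nonempty CategoryTheory.CountableCategory.countableObj
  LinearOrderedCommMonoidWithZero.toPosMulStrictMono NumberField.to_charZero
  NonUnitalNonAssocSemiring.toAddCommMonoid AddQuantale.instAddRightMono
  Valued.isTopologicalDivisionRing CommRing.toRing
  instSecondCountableTopologyContinuousLinearMapIdOfFiniteDimensional
  CStarAlgebra.instOrderClosedTopology MulSemiringAction.toDistribMulAction Semiring.toAddCommMonoid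
  IsometryClass.instCoeOutIsometryEquiv DenselyNormedField.toNormedField
  NonUnitalSeminormedRing.toPseudoMetricSpace Zero.instNonempty Quantale.instMulRightMono
  bot_nonempty Ring.toAddCommGroup CompactSpace.sigmaCompact LieRing.toAddCommGroup
  MonTypeEquivalenceMon.monMonoid GrpTypeEquivalenceGrp.grpGroup LieRinehartAlgebra.toIsScalarTower
  NormedRing.toSeminormedRing AlexandrovDiscrete.locallyPathConnectedSpace instZeroLEOneClass
  CoalgHomClass.toSemilinearMapClass TotallySeparatedSpace.t2Space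
  continuousSub_of_indiscreteTopology TopologicalSpace.Countable.to_separableSpace
  NormedRing.toNonUnitalNormedRing NonUnitalAlgSemiHomClass.toDistribMulActionSemiHomClass
  NumberField.instFiniteDimensional AddCommGroupWithOne.toAddGroupWithOne instCoeHTCOfCoeHeadOfCoeOTC
  TopologicalSpace.UpgradedIsCompletelyPseudoMetrizableSpace.toPseudoMetricSpace
  NonUnitalRing.toNonUnitalNonAssocRing NonAssocSemiring.toAddCommMonoidWithOne AddTorsor.nonempty
  littleWedderburn instIsModuleTopology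

section

open Filter Topology Set Metric Complex
open scoped ContDiff ComplexConjugate

namespace Pool.Agent.MP_bea40e_an.Iv

/-- Gluing open sets along clopen identifications. `Y` is the quotient of `Σ a, O a`. -/
theorem glue {E A : Type} [TopologicalSpace E] [T2Space E] (O : A → Set E)
    (rel : A → A → E → Prop) (hO : ∀ a, IsOpen (O a)) (hne : ∃ a, (O a).Nonempty)
    (refl : ∀ a, ∀ x ∈ O a, rel a a x)
    (symm : ∀ a b, ∀ x ∈ O a, x ∈ O b → rel a b x → rel b a x)
    (trans : ∀ a b c, ∀ x ∈ O a, x ∈ O b → x ∈ O c → rel a b x → rel b c x → rel a c x)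
    (op : ∀ a b, IsOpen {x | x ∈ O a ∧ x ∈ O b ∧ rel a b x})
    (cl : ∀ a b, IsOpen {x | x ∈ O a ∧ x ∈ O b ∧ ¬rel a b x}) :
    ∃ (Y : Type) (_ : TopologicalSpace Y) (π : Y → E) (e : A → E → Y), T2Space Y ∧
      IsLocalHomeomorph π ∧ (∀ a, ContinuousOn (e a) (O a)) ∧ (∀ a, ∀ x ∈ O a, π (e a x) = x) ∧
      (∀ a U, IsOpen U → U ⊆ O a → IsOpen (e a '' U)) ∧
      (∀ a b, ∀ x ∈ O a, x ∈ O b → (e a x = e b x ↔ rel a b x)) ∧
      ∀ y, ∃ a, ∃ x ∈ O a, e a x = y := by
  classical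
  let r : Setoid (Σ a : A, O a) :=
    { r := fun p q => p.2.1 = q.2.1 ∧ rel p.1 q.1 p.2.1
      iseqv :=
        { refl := fun p => ⟨rfl, refl _ _ p.2.2⟩
          symm := by
            rintro ⟨a, x, hx⟩ ⟨b, y, hy⟩ ⟨h1, h2⟩
            dsimp only at h1 h2
            subst h1
            exact ⟨rfl, symm a b x hx hy h2⟩
          trans := by
            rintro ⟨a, x, hx⟩ ⟨b, y, hy⟩ ⟨c, z, hz⟩ ⟨h1, h2⟩ ⟨h3, h4⟩
            dsimp only at h1 h2 h3 h4
            subst h1
            subst h3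
            exact ⟨rfl, trans a b c x hx hy hz h2 h4⟩ } }
  obtain ⟨a0, x0, hx0⟩ := hne
  let π : Quotient r → E := Quotient.lift (fun p : (Σ a : A, O a) => p.2.1) (fun _ _ h => h.1)
  let e : A → E → Quotient r := fun a x =>
    if h : x ∈ O a then Quotient.mk r ⟨a, ⟨x, h⟩⟩ else Quotient.mk r ⟨a0, ⟨x0, hx0⟩⟩
  have he : ∀ a x (h : x ∈ O a), e a x = Quotient.mk r ⟨a, ⟨x, h⟩⟩ := fun a x h => dif_pos h
  have hπe : ∀ a, ∀ x ∈ O a, π (e a x) = x := by
    intro a x hx
    rw [he a x hx]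
    rfl
  have hπc : Continuous π :=
    Continuous.quotient_lift (continuous_sigma fun a => continuous_subtype_val) _
  have hec : ∀ a, ContinuousOn (e a) (O a) := by
    intro a
    rw [continuousOn_iff_continuous_domRestrict]
    have h1 : (O a).domRestrict (e a) = fun x : O a => Quotient.mk r ⟨a, x⟩ := by
      funext x
      exact he a x.1 x.2
    rw [h1]
    exact continuous_quotient_mk'.comp continuous_sigmaMk
  have hrel : ∀ a b, ∀ x ∈ O a, x ∈ O b → (e a x = e b x ↔ rel a b x) := by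
    intro a b x hxa hxb
    rw [he a x hxa, he b x hxb, Quotient.eq]
    exact ⟨fun h => h.2, fun h => ⟨rfl, h⟩⟩
  have hop : ∀ a U, IsOpen U → U ⊆ O a → IsOpen (e a '' U) := by
    intro a U hU hUa
    have hq : IsQuotientMap (Quotient.mk r) := isQuotientMap_quot_mk
    rw [← hq.isOpen_preimage, isOpen_sigma_iff]
    intro b
    have h1 : Sigma.mk b ⁻¹' (Quotient.mk r ⁻¹' (e a '' U)) =
        Subtype.val ⁻¹' (U ∩ {x | x ∈ O a ∧ x ∈ O b ∧ rel a b x}) := by
      ext ⟨y, hy⟩
      simp only [mem_preimage, mem_image, mem_inter_iff, mem_ofPred_eq]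
      constructor
      · rintro ⟨x, hxU, hx⟩
        rw [← he b y hy] at hx
        have hxy : x = y := by
          have := congrArg π hx
          rwa [hπe a x (hUa hxU), hπe b y hy] at this
        subst hxy
        exact ⟨hxU, hUa hxU, hy, (hrel a b x (hUa hxU) hy).1 hx⟩
      · rintro ⟨hyU, hya, -, hr⟩
        refine ⟨y, hyU, ?_⟩
        rw [← he b y hy]
        exact (hrel a b y hya hy).2 hr
    rw [h1]
    exact (hU.inter (op a b)).preimage continuous_subtype_val
  have hsurj : ∀ y, ∃ a, ∃ x ∈ O a, e a x = y := by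
    intro y
    obtain ⟨⟨a, x, hx⟩, rfl⟩ := Quotient.exists_rep y
    exact ⟨a, x, hx, he a x hx⟩
  refine ⟨Quotient r, inferInstance, π, e, ⟨?_⟩, ?_, hec, hπe, hop, hrel, hsurj⟩
  · intro y1 y2 hne
    obtain ⟨a, x1, h1, rfl⟩ := hsurj y1
    obtain ⟨b, x2, h2, rfl⟩ := hsurj y2
    by_cases hx : x1 = x2
    · subst hx
      have hnr : ¬rel a b x1 := fun h => hne ((hrel a b x1 h1 h2).2 h)
      refine ⟨e a '' {x | x ∈ O a ∧ x ∈ O b ∧ ¬rel a b x},
        e b '' {x | x ∈ O a ∧ x ∈ O b ∧ ¬rel a b x}, hop a _ (cl a b) fun x hx => hx.1,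
        hop b _ (cl a b) fun x hx => hx.2.1, ⟨x1, ⟨h1, h2, hnr⟩, rfl⟩, ⟨x1, ⟨h1, h2, hnr⟩, rfl⟩, ?_⟩
      rw [Set.disjoint_left]
      rintro _ ⟨x, hx, rfl⟩ ⟨z, hz, hxz⟩
      have hzx : z = x := by
        have := congrArg π hxz
        rwa [hπe b z hz.2.1, hπe a x hx.1] at this
      subst hzx
      exact hz.2.2 ((hrel a b z hz.1 hz.2.1).1 hxz.symm)
    · obtain ⟨U, V, hU, hV, hxU, hxV, hUV⟩ := t2_separation hx
      refine ⟨π ⁻¹' U, π ⁻¹' V, hU.preimage hπc, hV.preimage hπc, ?_, ?_, hUV.preimage π⟩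
      · simpa [mem_preimage, hπe a x1 h1] using hxU
      · simpa [mem_preimage, hπe b x2 h2] using hxV
  · intro y
    obtain ⟨a, x, hx, rfl⟩ := hsurj y
    refine ⟨{ toFun := π
              invFun := e a
              source := e a '' O a
              target := O a
              map_source' := ?_
              map_target' := fun z hz => ⟨z, hz, rfl⟩
              left_inv' := ?_
              right_inv' := fun z hz => hπe a z hz
              open_source := hop a _ (hO a) subset_rfl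
              open_target := hO a
              continuousOn_toFun := hπc.continuousOn
              continuousOn_invFun := hec a }, ⟨x, hx, rfl⟩, rfl⟩
    · rintro _ ⟨z, hz, rfl⟩
      rw [hπe a z hz]
      exact hz
    · rintro _ ⟨z, hz, rfl⟩
      rw [hπe a z hz]

end Pool.Agent.MP_bea40e_an.Iv

end

section

open Filter Topology Set Metric Complex
open scoped ContDiff ComplexConjugate

namespace Pool.Agent.MP_bea40e_an.Iv

/-! The continuity principle for discs. -/

variable {E : Type} [NormedAddCommGroup E] [NormedSpace ℂ E]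

theorem reach_cont {W : ℂ → E} (hW : Disc W) : ContinuousOn W (closedBall 0 1) :=
  closure_ball (0 : ℂ) one_ne_zero ▸ hW.continuousOn

/-- integrals of holomorphic families are holomorphic -/
theorem reach_diff {G : ℂ → ℝ → ℂ} {U : Set ℂ} (hU : IsOpen U) (a b : ℝ)
    (hc : ContinuousOn (fun p : ℂ × ℝ => G p.1 p.2) (U ×ˢ univ))
    (hd : ∀ θ, DifferentiableOn ℂ (fun t => G t θ) U) :
    DifferentiableOn ℂ (fun t => ∫ θ in a..b, G t θ) U := by
  intro t0 ht0
  obtain ⟨ε, hε, hεU⟩ := nhds_basis_closedBall.mem_iff.1 (hU.mem_nhds ht0)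
  obtain ⟨M, hM⟩ := ((isCompact_closedBall t0 ε).prod (isCompact_uIcc (a := a) (b := b))
    ).exists_bound_of_continuousOn (hc.mono (prod_mono hεU (subset_univ _)))
  have h1 : ∀ t ∈ U, Continuous (G t) := fun t ht =>
    hc.comp_continuous (f := fun θ => (t, θ)) (by fun_prop) fun θ => ⟨ht, mem_univ _⟩
  have h2 : ∀ t ∈ ball t0 (ε / 2), ball t (ε / 2) ⊆ closedBall t0 ε := fun t ht =>
    (ball_subset_ball' (by rw [mem_ball] at ht; linarith)).trans ball_subset_closedBall
  have h3 : ∀ θ, ∀ t ∈ U, HasDerivAt (fun t => G t θ) (deriv (fun t => G t θ) t) t :=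
    fun θ t ht => ((hd θ).differentiableAt (hU.mem_nhds ht)).hasDerivAt
  refine (intervalIntegral.hasDerivAt_integral_of_dominated_loc_of_deriv_le
    (F' := fun t θ => deriv (fun t => G t θ) t) (bound := fun _ => 2 * M / (ε / 2))
    (ball_mem_nhds t0 (half_pos hε))
    (mem_of_superset (hU.mem_nhds ht0) fun t ht => (h1 t ht).aestronglyMeasurable)
    ((h1 t0 ht0).intervalIntegrable _ _) ?_ (Eventually.of_forall fun θ hθ t ht => ?_)
    intervalIntegrable_const (Eventually.of_forall fun θ _ t ht =>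
      h3 θ t (hεU (h2 t ht (mem_ball_self (half_pos hε)))))).2.differentiableAt.differentiableWithinAt
  · classical
    refine aestronglyMeasurable_of_tendsto_ae (𝓝[≠] t0)
      (f := fun t θ => if t ∈ U then slope (fun t => G t θ) t0 t else 0) (fun t => ?_)
      (Eventually.of_forall fun θ => (hasDerivAt_iff_tendsto_slope.1 (h3 θ t0 ht0)).congr' ?_)
    · split_ifs with ht
      · exact (((h1 t ht).sub (h1 t0 ht0)).const_smul (t - t0)⁻¹).aestronglyMeasurable
      · exact MeasureTheory.aestronglyMeasurable_const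
    · filter_upwards [nhdsWithin_le_nhds (hU.mem_nhds ht0)] with t ht
      rw [if_pos ht]
  · rw [norm_deriv_eq_norm_fderiv]
    exact Pool.Agent.Lib.SCV.norm_fderiv_le_of_bound (half_pos hε)
      ((hd θ).mono ((h2 t ht).trans hεU)) fun y hy =>
        hM (y, θ) ⟨h2 t ht hy, uIoc_subset_uIcc hθ⟩

/-- a closed disc inside `D` (compactness, `DiffContOnCl.circleIntegral_eq_zero`) -/
theorem reach_of_subset {D : Set E} (hD : IsOpen D) {W : ℂ → E} (hW : Disc W)
    (h : ∀ ζ ∈ closedBall (0 : ℂ) 1, W ζ ∈ D) : Reach D W := by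
  obtain ⟨δ, hδ, hs⟩ := ((isCompact_closedBall (0 : ℂ) 1).image_of_continuousOn
    (reach_cont hW)).exists_thickening_subset_open hD (image_subset_iff.2 h)
  refine ⟨hW, fun ζ hζ => h ζ (sphere_subset_closedBall hζ), δ, hδ, fun V hV hn f hf s hs1 => ?_⟩
  have hm : ∀ ζ ∈ closedBall (0 : ℂ) 1, W ζ + V ζ ∈ D := fun ζ hζ =>
    hs (mem_thickening_iff.2 ⟨W ζ, mem_image_of_mem _ hζ, by simpa [dist_eq_norm] using hn ζ hζ⟩)
  have h1 : DiffContOnCl ℂ (fun ζ => f (W ζ + V ζ)) (ball 0 1) :=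
    ⟨hf.comp (hW.add hV).differentiableOn fun ζ hζ => hm ζ (ball_subset_closedBall hζ),
      hf.continuousOn.comp (hW.add hV).continuousOn fun ζ hζ =>
        hm ζ (closure_ball_subset_closedBall hζ)⟩
  refine DiffContOnCl.circleIntegral_eq_zero zero_le_one (DiffContOnCl.smul ?_ h1)
  refine DifferentiableOn.diffContOnCl ((differentiableOn_id.sub_const s).inv fun ζ hζ e => ?_)
  have := mem_closedBall_zero_iff.1 (closure_ball_subset_closedBall hζ)
  rw [show ζ = s from sub_eq_zero.1 e] at this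
  exact absurd hs1 (not_lt.2 this)

/-- If the `δ`-neighbourhood of the boundary of `W` lies in `D`, the property holds with `ε = δ`:
for `‖V‖ < δ` on the closed disc the integral along `W + t • V` is holomorphic in `t` on a disc of
radius larger than one and vanishes for small `t`. -/
theorem Reach.enlarge {D : Set E} (hD : IsOpen D) {W : ℂ → E} (hW : Reach D W) {δ : ℝ}
    (hδ : ∀ ζ ∈ sphere (0 : ℂ) 1, ball (W ζ) δ ⊆ D) (V : ℂ → E) (hV : Disc V)
    (h : ∀ ζ ∈ closedBall (0 : ℂ) 1, ‖V ζ‖ < δ) (f : E → ℂ) (hf : DifferentiableOn ℂ f D)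
    (s : ℂ) (hs : 1 < ‖s‖) : (∮ ζ in C(0, 1), (ζ - s)⁻¹ • f (W ζ + V ζ)) = 0 := by
  obtain ⟨hWd, -, ε, hε, hR⟩ := hW
  obtain ⟨ζ0, hζ0, hM⟩ := (isCompact_closedBall (0 : ℂ) 1).exists_isMaxOn
    ⟨0, mem_closedBall_self zero_le_one⟩ (reach_cont hV).norm
  have hM1 := h ζ0 hζ0
  have hM0 := norm_nonneg (V ζ0)
  have hM2 : ∀ (t : ℂ), ∀ ζ ∈ closedBall (0 : ℂ) 1, ‖t • V ζ‖ ≤ ‖t‖ * ‖V ζ0‖ := fun t ζ hζ => by
    rw [norm_smul]
    exact mul_le_mul_of_nonneg_left (hM hζ) (norm_nonneg t)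
  generalize ‖V ζ0‖ = M at hM1 hM0 hM2
  obtain ⟨R, hR1, hR2⟩ : ∃ R : ℝ, 1 < R ∧ R * M < δ :=
    ⟨2 * δ / (M + δ), (one_lt_div (by linarith)).2 (by linarith), by
      rw [div_mul_eq_mul_div, div_lt_iff₀ (by linarith)]
      nlinarith only [hM1, hM0]⟩
  have hc : ∀ θ, circleMap 0 1 θ ∈ sphere (0 : ℂ) 1 := circleMap_mem_sphere 0 zero_le_one
  have hm : ∀ t ∈ ball (0 : ℂ) R, ∀ θ, W (circleMap 0 1 θ) + t • V (circleMap 0 1 θ) ∈ D :=
    fun t ht θ => hδ _ (hc θ) (by
      rw [mem_ball, dist_self_add_left]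
      exact (hM2 t _ (sphere_subset_closedBall (hc θ))).trans_lt
        ((mul_le_mul_of_nonneg_right (mem_ball_zero_iff.1 ht).le hM0).trans_lt hR2))
  have hne : ∀ θ, circleMap 0 1 θ - s ≠ 0 := fun θ e => by
    have := mem_sphere_zero_iff_norm.1 (hc θ)
    rw [sub_eq_zero.1 e] at this
    exact hs.ne' this
  have hcc : ∀ {X : ℂ → E}, Disc X → Continuous fun θ => X (circleMap 0 1 θ) := fun hX =>
    (reach_cont hX).comp_continuous (continuous_circleMap 0 1) fun θ =>
      sphere_subset_closedBall (hc θ)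
  have hF : DifferentiableOn ℂ (fun t : ℂ => ∮ ζ in C(0, 1), (ζ - s)⁻¹ • f (W ζ + t • V ζ))
      (ball 0 R) := by
    refine reach_diff (G := fun t θ => deriv (circleMap 0 1) θ • (circleMap 0 1 θ - s)⁻¹ •
      f (W (circleMap 0 1 θ) + t • V (circleMap 0 1 θ))) isOpen_ball _ _ ?_ fun θ => ?_
    · simp only [deriv_circleMap]
      have c1 : Continuous fun p : ℂ × ℝ => W (circleMap 0 1 p.2) + p.1 • V (circleMap 0 1 p.2) :=
        ((hcc hWd).comp continuous_snd).add (continuous_fst.smul ((hcc hV).comp continuous_snd))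
      have c2 : ContinuousOn (fun p : ℂ × ℝ =>
          f (W (circleMap 0 1 p.2) + p.1 • V (circleMap 0 1 p.2))) (ball 0 R ×ˢ univ) :=
        hf.continuousOn.comp c1.continuousOn fun p hp => hm p.1 hp.1 p.2
      have c3 : Continuous fun p : ℂ × ℝ => (circleMap 0 1 p.2 - s)⁻¹ :=
        Continuous.inv₀ (by fun_prop) fun p => hne p.2
      have c4 : Continuous fun p : ℂ × ℝ => circleMap 0 1 p.2 * I := by fun_prop
      exact c4.continuousOn.smul (c3.continuousOn.smul c2)
    · have d1 : DifferentiableOn ℂ (fun t : ℂ =>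
          f (W (circleMap 0 1 θ) + t • V (circleMap 0 1 θ))) (ball 0 R) :=
        hf.comp (by fun_prop) fun t ht => hm t ht θ
      exact (d1.fun_const_smul _).fun_const_smul _
  have h0 := (hF.analyticOnNhd isOpen_ball).eqOn_zero_of_preconnected_of_eventuallyEq_zero
    (convex_ball 0 R).isPreconnected (mem_ball_self (by linarith)) (by
      have : ∀ᶠ t : ℂ in 𝓝 0, ‖t‖ * M < ε :=
        (continuous_norm.mul continuous_const).continuousAt.eventually_lt continuousAt_const
          (by simpa using hε)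
      filter_upwards [this] with t ht
      exact hR (fun ζ => t • V ζ) (hV.const_smul t) (fun ζ hζ => (hM2 t ζ hζ).trans_lt ht) f hf
        s hs) (show (1 : ℂ) ∈ ball 0 R by simpa using hR1)
  simpa only [one_smul, Pi.zero_apply] using h0

theorem reach_move {Ω : Set E} (hΩ : IsOpen Ω) (p0 : E) {W W' : ℂ → E} {δ : ℝ} (hδ : 0 < δ)
    (hW' : Disc W') (h : ∀ ζ ∈ closedBall (0 : ℂ) 1, ‖W' ζ - W ζ‖ < δ)
    (hb : ∀ ζ ∈ sphere (0 : ℂ) 1, ball (W ζ) (2 * δ) ⊆ Ω)
    (hW : Reach (connectedComponentIn Ω p0) W) : Reach (connectedComponentIn Ω p0) W' := by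
  have h1 : ∀ ζ ∈ sphere (0 : ℂ) 1, ball (W ζ) (2 * δ) ⊆ connectedComponentIn Ω p0 := fun ζ hζ =>
    ((convex_ball _ _).isPreconnected.subset_connectedComponentIn
      (mem_ball_self (by linarith)) (hb ζ hζ)).trans_eq (connectedComponentIn_eq (hW.2.1 ζ hζ)).symm
  refine ⟨hW', fun ζ hζ => h1 ζ hζ (mem_ball_iff_norm.2 ((h ζ (sphere_subset_closedBall hζ)).trans
    (by linarith))), δ, hδ, fun V hV hn f hf s hs => ?_⟩
  have := hW.enlarge hΩ.connectedComponentIn h1 (fun ζ => W' ζ - W ζ + V ζ)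
    ((DiffContOnCl.sub hW' hW.1).add hV) (fun ζ hζ => (norm_add_le _ _).trans_lt
      (by linarith [h ζ hζ, hn ζ hζ])) f hf s hs
  simpa only [← add_assoc, add_sub_cancel] using this

/-- `Reach` is locally constant along continuous families with boundary in `Ω`; balls inside `Ω`
which meet the component lie in the component. -/
theorem reach_family {Ω : Set E} (hΩ : IsOpen Ω) (p0 : E) {Θ : Type} [TopologicalSpace Θ]
    {S : Set Θ} (hS : IsPreconnected S) (W : Θ → ℂ → E)
    (hc : ContinuousOn (fun t : Θ × ℂ => W t.1 t.2) (S ×ˢ closedBall 0 1))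
    (hd : ∀ θ ∈ S, Disc (W θ)) (hb : ∀ θ ∈ S, ∀ ζ ∈ sphere (0 : ℂ) 1, W θ ζ ∈ Ω) {θ0 : Θ}
    (h0 : θ0 ∈ S) (hR : Reach (connectedComponentIn Ω p0) (W θ0)) :
    ∀ θ ∈ S, Reach (connectedComponentIn Ω p0) (W θ) := by
  refine fun θ hθ => hS.induction₂' (fun a b => Reach (connectedComponentIn Ω p0) (W a) →
    Reach (connectedComponentIn Ω p0) (W b)) (fun a ha => ?_) (fun _ _ _ _ _ _ h h' x => h' (h x))
      h0 hθ hR
  obtain ⟨δ, hδ, hs⟩ := ((isCompact_sphere (0 : ℂ) 1).image_of_continuousOn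
    ((reach_cont (hd a ha)).mono sphere_subset_closedBall)).exists_thickening_subset_open hΩ
      (image_subset_iff.2 (hb a ha))
  have h3 : 0 < δ / 3 := by positivity
  have h1 : ∀ ζ ∈ sphere (0 : ℂ) 1, ball (W a ζ) δ ⊆ Ω := fun ζ hζ =>
    (ball_subset_thickening (mem_image_of_mem _ hζ) δ).trans hs
  have h2 : ∀ᶠ b in 𝓝 a, ∀ ζ ∈ closedBall (0 : ℂ) 1,
      (b, ζ) ∈ S ×ˢ closedBall (0 : ℂ) 1 → ‖W b ζ - W a ζ‖ < δ / 3 := by
    refine (isCompact_closedBall (0 : ℂ) 1).eventually_forall_of_forall_eventually fun ζ hζ => ?_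
    have : ContinuousWithinAt (fun t : Θ × ℂ => ‖W t.1 t.2 - W a t.2‖)
        (S ×ˢ closedBall 0 1) (a, ζ) :=
      ((hc.sub ((reach_cont (hd a ha)).comp continuous_snd.continuousOn fun t ht => ht.2)).norm
        (a, ζ) ⟨ha, hζ⟩)
    exact eventually_nhdsWithin_iff.1 (this.eventually (gt_mem_nhds (by simpa using h3)))
  filter_upwards [nhdsWithin_le_nhds h2, self_mem_nhdsWithin] with b h4 hbS
  have h5 := fun ζ hζ => h4 ζ hζ ⟨hbS, hζ⟩
  refine ⟨reach_move hΩ p0 h3 (hd b hbS) h5 fun ζ hζ =>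
    (ball_subset_ball (by linarith)).trans (h1 ζ hζ),
    reach_move hΩ p0 h3 (hd a ha) (fun ζ hζ => (norm_sub_rev _ _).trans_lt (h5 ζ hζ)) fun ζ hζ =>
      (ball_subset_ball' ?_).trans (h1 ζ hζ)⟩
  have := h5 ζ (sphere_subset_closedBall hζ)
  rw [dist_eq_norm]
  linarith only [this]

theorem Reach.map {E' : Type} [NormedAddCommGroup E'] [NormedSpace ℂ E'] (L : E ≃L[ℂ] E')
    {D : Set E} {W : ℂ → E} (hW : Reach D W) : Reach (L '' D) fun ζ => L (W ζ) := by
  obtain ⟨hd, hb, ε, hε, hR⟩ := hW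
  have hN := norm_nonneg (L.symm : E' →L[ℂ] E)
  refine ⟨L.differentiable.comp_diffContOnCl hd, fun ζ hζ => mem_image_of_mem _ (hb ζ hζ),
    ε / (‖(L.symm : E' →L[ℂ] E)‖ + 1), by positivity, fun V hV hn f hf s hs => ?_⟩
  have := hR (fun ζ => L.symm (V ζ)) (L.symm.differentiable.comp_diffContOnCl hV)
    (fun ζ hζ => ((L.symm : E' →L[ℂ] E).le_opNorm (V ζ)).trans_lt (by
      have := (lt_div_iff₀ (by positivity)).1 (hn ζ hζ)
      linarith only [norm_nonneg (V ζ), this])) (fun x => f (L x))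
    (hf.comp L.differentiable.differentiableOn (mapsTo_image _ _)) s hs
  simpa only [map_add, ContinuousLinearEquiv.apply_symm_apply] using this

end Pool.Agent.MP_bea40e_an.Iv

end

section

open Filter Topology Set Metric Complex
open scoped ContDiff ComplexConjugate

namespace Pool.Agent.MP_bea40e_an.Iv

theorem chart_int {P : Type} [NormedAddCommGroup P] [NormedSpace ℂ P] [ProperSpace P]
    {K : P → ℝ → ℂ} {a b : ℝ} {U : Set P} (hU : IsOpen U)
    (hK : ∀ θ, DifferentiableOn ℂ (fun x => K x θ) U)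
    (hc : ContinuousOn (fun p : ℝ × P => K p.2 p.1) (univ ×ˢ U)) :
    DifferentiableOn ℂ (fun x => ∫ θ in a..b, K x θ) U := by
  intro c hcU
  obtain ⟨R2, hR2, hRU⟩ := Metric.nhds_basis_closedBall.mem_iff.1 (hU.mem_nhds hcU)
  obtain ⟨R, hR, rfl⟩ : ∃ R : ℝ, 0 < R ∧ R2 = 2 * R := ⟨R2 / 2, by positivity, by ring⟩
  obtain ⟨M, hM⟩ := ((isCompact_uIcc (a := a) (b := b)).prod
    (isCompact_closedBall c (2 * R))).exists_bound_of_continuousOn
      (hc.mono (prod_mono (subset_univ _) hRU))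
  have hsub : ∀ x ∈ ball c R, ball x R ⊆ closedBall c (2 * R) := fun x hx =>
    (ball_subset_ball' (by rw [mem_ball] at hx; linarith)).trans ball_subset_closedBall
  have hc1 : ∀ x ∈ U, Continuous (K x) := fun x hx =>
    hc.comp_continuous (by fun_prop : Continuous fun θ : ℝ => (θ, x)) fun θ => ⟨trivial, hx⟩
  have hda : ∀ θ, ∀ x ∈ U, DifferentiableAt ℂ (fun x => K x θ) x := fun θ x hx =>
    (hK θ).differentiableAt (hU.mem_nhds hx)
  have hcR := mem_ball_self (x := c) hR
  have hD : Continuous fun θ => fderiv ℂ (fun x => K x θ) c := by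
    refine continuous_iff_continuousAt.2 fun θ0 => Metric.tendsto_nhds.2 fun e he => ?_
    obtain ⟨v, hv, h⟩ := (isCompact_closedBall c (2 * R)).mem_uniformity_of_prod
      (f := fun θ x => K x θ) (s := univ) (q := θ0) (hc.mono (prod_mono subset_rfl hRU)) trivial
      (Metric.dist_mem_uniformity (by positivity : 0 < e * R / 4))
    rw [nhdsWithin_univ] at hv
    filter_upwards [hv] with θ hθ
    rw [dist_eq_norm, ← fderiv_fun_sub (hda θ c hcU) (hda θ0 c hcU)]
    have h1 := Pool.Agent.Lib.SCV.norm_fderiv_le_of_bound (f := fun x => K x θ - K x θ0) (c := c)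
      (M := e * R / 4) hR (((hK θ).sub (hK θ0)).mono ((hsub c hcR).trans hRU)) fun y hy => by
        have := h θ hθ y (hsub c hcR hy)
        rw [mem_ofPred_eq, dist_eq_norm] at this
        exact this.le
    refine h1.trans_lt ?_
    rw [div_lt_iff₀ hR]
    linarith only [mul_pos he hR]
  refine (intervalIntegral.hasFDerivAt_integral_of_dominated_of_fderiv_le (μ := MeasureTheory.volume)
    (F' := fun x θ => fderiv ℂ (fun x => K x θ) x) (bound := fun _ => 2 * M / R)
    (ball_mem_nhds c hR) ?_ ((hc1 c hcU).intervalIntegrable _ _) hD.aestronglyMeasurable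
    (Eventually.of_forall fun θ hθ x hx => ?_) intervalIntegrable_const
    (Eventually.of_forall fun θ _ x hx => ?_)).differentiableAt.differentiableWithinAt
  · filter_upwards [hU.mem_nhds hcU] with x hx
    exact (hc1 x hx).aestronglyMeasurable
  · exact Pool.Agent.Lib.SCV.norm_fderiv_le_of_bound hR ((hK θ).mono ((hsub x hx).trans hRU))
      fun y hy => hM (θ, y) ⟨uIoc_subset_uIcc hθ, hsub x hx hy⟩
  · exact (hda θ x (hRU (hsub x hx (mem_ball_self hR)))).hasFDerivAt

theorem chart_circ {P : Type} [NormedAddCommGroup P] [NormedSpace ℂ P] [ProperSpace P]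
    {K : P → ℂ → ℂ} {r : ℝ} (hr : 0 ≤ r) {U : Set P} (hU : IsOpen U)
    (hK : ∀ ζ ∈ sphere (0 : ℂ) r, DifferentiableOn ℂ (fun x => K x ζ) U)
    (hc : ContinuousOn (fun p : ℂ × P => K p.2 p.1) (sphere 0 r ×ˢ U)) :
    DifferentiableOn ℂ (fun x => ∮ ζ in C(0, r), K x ζ) U := by
  unfold circleIntegral
  simp only [deriv_circleMap]
  refine chart_int hU (fun θ =>
    (hK _ (circleMap_mem_sphere _ hr θ)).fun_const_smul (circleMap 0 r θ * I)) ?_
  refine ContinuousOn.fun_smul (f := fun p : ℝ × P => circleMap 0 r p.1 * I) (by fun_prop) ?_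
  exact hc.comp (f := fun p : ℝ × P => (circleMap 0 r p.1, p.2)) (by fun_prop)
    fun p hp => ⟨circleMap_mem_sphere _ hr _, hp.2⟩

/-- the Cauchy formula on an annulus when the exterior Cauchy integrals vanish -/
theorem chart_annulus {h : ℂ → ℂ} {ρ : ℝ} (h0 : 0 < ρ) (h1 : ρ < 1)
    (hc : ContinuousOn h (closedBall 0 1 \ ball 0 ρ))
    (hd : ∀ z ∈ ball (0 : ℂ) 1 \ closedBall 0 ρ, DifferentiableAt ℂ h z)
    (hz : ∀ s : ℂ, 1 < ‖s‖ → (∮ ζ in C(0, 1), (ζ - s)⁻¹ • h ζ) = 0)
    {s : ℂ} (hs0 : ρ < ‖s‖) (hs1 : ‖s‖ < 1) :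
    (∮ ζ in C(0, 1), (ζ - s)⁻¹ • h ζ) = (2 * Real.pi * I) • h s := by
  have hs : 0 < ‖s‖ := h0.trans hs0
  have hρ : sphere (0 : ℂ) ρ ⊆ closedBall 0 1 \ ball 0 ρ := fun ζ hζ => by
    rw [mem_sphere_zero_iff_norm] at hζ
    simp [hζ, h1.le]
  have hone : sphere (0 : ℂ) 1 ⊆ closedBall 0 1 \ ball 0 ρ := fun ζ hζ => by
    rw [mem_sphere_zero_iff_norm] at hζ
    simp [hζ, h1.le]
  have hout : ∀ t : ℂ, 1 < ‖t‖ → (∮ ζ in C(0, ρ), (ζ - t)⁻¹ • h ζ) = 0 := fun t ht => by
    have hne : ∀ ζ ∈ closedBall (0 : ℂ) 1, ζ - t ≠ 0 := fun ζ hζ e => by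
      rw [mem_closedBall_zero_iff, sub_eq_zero.1 e] at hζ
      linarith
    refine (circleIntegral_eq_of_differentiable_on_annulus_off_countable
      (f := fun ζ => (ζ - t)⁻¹ • h ζ) h0 h1.le countable_empty
      (ContinuousOn.smul (ContinuousOn.inv₀ (by fun_prop) fun ζ hζ => hne ζ hζ.1) hc)
      fun ζ hζ => ?_).symm.trans (hz t ht)
    exact (DifferentiableAt.inv (h := fun ζ : ℂ => ζ - t) (by fun_prop)
      (hne ζ (ball_subset_closedBall hζ.1.1))).smul (hd ζ hζ.1)
  have hin : (∮ ζ in C(0, ρ), (ζ - s)⁻¹ • h ζ) = 0 := by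
    have hH : IsOpen {t : ℂ | ρ / ‖s‖ < t.re} := isOpen_lt continuous_const continuous_re
    have hne : ∀ ζ ∈ sphere (0 : ℂ) ρ, ∀ t ∈ {t : ℂ | ρ / ‖s‖ < t.re}, ζ - t * s ≠ 0 :=
      fun ζ hζ t ht e => by
        rw [mem_sphere_zero_iff_norm, sub_eq_zero.1 e, norm_mul] at hζ
        rw [mem_ofPred_eq, div_lt_iff₀ hs] at ht
        nlinarith only [re_le_norm t, h0, hs0, hζ, ht]
    have hJ : DifferentiableOn ℂ (fun t : ℂ => ∮ ζ in C(0, ρ), (ζ - t * s)⁻¹ • h ζ)
        {t : ℂ | ρ / ‖s‖ < t.re} := by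
      refine chart_circ h0.le hH (fun ζ hζ => ?_) ?_
      · exact (DifferentiableOn.inv (by fun_prop) (hne ζ hζ)).smul_const _
      · exact ContinuousOn.smul (ContinuousOn.inv₀ (by fun_prop) fun p hp => hne _ hp.1 _ hp.2)
          ((hc.mono hρ).comp continuousOn_fst fun p hp => hp.1)
    have hm : ((2 / ‖s‖ : ℝ) : ℂ) ∈ {t : ℂ | ρ / ‖s‖ < t.re} := by
      rw [mem_ofPred_eq, ofReal_re]
      exact div_lt_div_of_pos_right (by linarith) hs
    have hev : (fun t : ℂ => ∮ ζ in C(0, ρ), (ζ - t * s)⁻¹ • h ζ) =ᶠ[𝓝 ((2 / ‖s‖ : ℝ) : ℂ)] 0 := by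
      have : IsOpen {t : ℂ | 1 < ‖t * s‖} := isOpen_lt continuous_const (by fun_prop)
      filter_upwards [this.mem_nhds (show 1 < ‖((2 / ‖s‖ : ℝ) : ℂ) * s‖ by
        rw [norm_mul, Complex.norm_real, Real.norm_of_nonneg (by positivity),
          div_mul_cancel₀ _ hs.ne']; norm_num)] with t ht
      exact hout _ ht
    have := (hJ.analyticOnNhd hH).eqOn_zero_of_preconnected_of_eventuallyEq_zero
      (convex_halfSpace_re_gt _).isPreconnected hm hev
      (show (1 : ℂ) ∈ {t : ℂ | ρ / ‖s‖ < t.re} by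
        rw [mem_ofPred_eq, one_re, div_lt_one hs]; exact hs0)
    simpa only [smul_eq_mul, one_mul, Pi.zero_apply] using this
  have hsA : s ∈ ball (0 : ℂ) 1 \ closedBall 0 ρ := by simp [hs0, hs1]
  have hnh : closedBall (0 : ℂ) 1 \ ball 0 ρ ∈ 𝓝 s :=
    mem_of_superset ((isOpen_ball.sdiff isClosed_closedBall).mem_nhds hsA)
      (sdiff_subset_sdiff ball_subset_closedBall ball_subset_closedBall)
  have key := circleIntegral_eq_of_differentiable_on_annulus_off_countable h0 h1.le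
    (countable_singleton s) ((continuousOn_dslope hnh).2 ⟨hc, hd s hsA⟩)
    fun ζ hζ => (differentiableAt_dslope_of_ne hζ.2).2 (hd ζ hζ.1)
  have split : ∀ r : ℝ, 0 ≤ r → r ≠ ‖s‖ → ContinuousOn h (sphere 0 r) →
      (∮ ζ in C(0, r), dslope h s ζ) =
        (∮ ζ in C(0, r), (ζ - s)⁻¹ • h ζ) - (∮ ζ in C(0, r), (ζ - s)⁻¹) • h s := by
    intro r hr hrs hcr
    have hne : ∀ ζ ∈ sphere (0 : ℂ) r, ζ - s ≠ 0 := fun ζ hζ e => by
      rw [mem_sphere_zero_iff_norm, sub_eq_zero.1 e] at hζ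
      exact hrs hζ.symm
    have hi : ContinuousOn (fun ζ : ℂ => (ζ - s)⁻¹) (sphere 0 r) :=
      ContinuousOn.inv₀ (by fun_prop) hne
    rw [← circleIntegral.integral_smul_const, ← circleIntegral.integral_sub
      (f := fun ζ => (ζ - s)⁻¹ • h ζ) (g := fun ζ => (ζ - s)⁻¹ • h s)
      ((hi.smul hcr).circleIntegrable hr) ((hi.smul continuousOn_const).circleIntegrable hr)]
    refine circleIntegral.integral_congr hr fun ζ hζ => ?_
    rw [dslope_of_ne _ (sub_ne_zero.1 (hne ζ hζ)), slope_def_module, smul_sub]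
  have hzero : (∮ ζ in C(0, ρ), (ζ - s)⁻¹) = 0 := by
    have hne : ∀ ζ ∈ closedBall (0 : ℂ) ρ, ζ - s ≠ 0 := fun ζ hζ e => by
      rw [mem_closedBall_zero_iff, sub_eq_zero.1 e] at hζ
      linarith only [hs0, hζ]
    exact circleIntegral_eq_zero_of_differentiable_on_off_countable h0.le countable_empty
      (ContinuousOn.inv₀ (by fun_prop) hne)
      fun ζ hζ => DifferentiableAt.inv (by fun_prop) (hne ζ (ball_subset_closedBall hζ.1))
  rw [split 1 zero_le_one hs1.ne' (hc.mono hone), split ρ h0.le hs0.ne (hc.mono hρ), hin, hzero,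
    circleIntegral.integral_sub_inv_of_mem_ball (mem_ball_zero_iff.2 hs1), zero_smul,
    sub_zero, sub_eq_zero] at key
  exact key

/-- a collar of the boundary circle stays inside `D` -/
theorem chart_collar {E : Type} [NormedAddCommGroup E] {D : Set E} (hD : IsOpen D) {W : ℂ → E}
    (hc : ContinuousOn W (closedBall 0 1)) (hb : ∀ ζ ∈ sphere (0 : ℂ) 1, W ζ ∈ D) :
    ∃ η > 0, ∃ ρ > 0, ρ < 1 ∧ ∀ ζ ∈ closedBall (0 : ℂ) 1 \ ball 0 ρ, ∀ c : E, ‖c‖ < η →
      W ζ + c ∈ D := by
  have hK : IsCompact (W '' sphere 0 1) :=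
    (isCompact_sphere 0 1).image_of_continuousOn (hc.mono sphere_subset_closedBall)
  obtain ⟨η, hη, hD'⟩ := hK.exists_thickening_subset_open hD (image_subset_iff.2 hb)
  have hB : IsCompact (closedBall (0 : ℂ) 1 ∩ W ⁻¹' (thickening (η / 2) (W '' sphere 0 1))ᶜ) :=
    (isCompact_closedBall 0 1).of_isClosed_subset
      (hc.preimage_isClosed_of_isClosed isClosed_closedBall isOpen_thickening.isClosed_compl)
      inter_subset_left
  have hsub : closedBall (0 : ℂ) 1 ∩ W ⁻¹' (thickening (η / 2) (W '' sphere 0 1))ᶜ ⊆ ball 0 1 := by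
    rintro ζ ⟨h1, h2⟩
    rw [mem_closedBall_zero_iff] at h1
    rw [mem_ball_zero_iff]
    refine lt_of_le_of_ne h1 fun e => h2 ?_
    exact self_subset_thickening (half_pos hη) _ ⟨ζ, mem_sphere_zero_iff_norm.2 e, rfl⟩
  obtain ⟨ρ, hρ, hρB⟩ := exists_lt_subset_ball hB.isClosed hsub
  refine ⟨η / 2, half_pos hη, max ρ (1 / 2), by positivity, max_lt hρ (by norm_num),
    fun ζ hζ c hcη => hD' ?_⟩
  have h3 : W ζ ∈ thickening (η / 2) (W '' sphere 0 1) := by
    by_contra h
    exact hζ.2 (ball_subset_ball (le_max_left _ _) (hρB ⟨hζ.1, h⟩))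
  obtain ⟨y, hy, hy'⟩ := mem_thickening_iff.1 h3
  refine mem_thickening_iff.2 ⟨y, hy, ?_⟩
  have := dist_triangle (W ζ + c) (W ζ) y
  rw [dist_self_add_left] at this
  linarith only [hcη, hy', this]

/-- The chart attached to a reachable graph. On `U = {x | ‖x i0‖ < 1, ‖x - W (x i0)‖ < ε}` the
Cauchy integral along the translated disc is holomorphic (differentiate under the integral), and
it equals `f` when `x i0` is close to the circle: for `h ζ = f (W ζ + c)`, holomorphic on an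
annulus `ρ < ‖ζ‖ < 1` and continuous up to the boundary, use
`circleIntegral_eq_of_differentiable_on_annulus_off_countable` for `dslope h s`; the integral of
`(ζ - s)⁻¹ • h ζ` over the inner circle is analytic in `‖s‖ > ρ` and vanishes for `‖s‖ > 1`. -/
theorem reach_chart {ι : Type} [Fintype ι] (i0 : ι) {D : Set (ι → ℂ)} (hD : IsOpen D)
    {W : ℂ → ι → ℂ} (hW : Reach D W) (hg : ∀ ζ, W ζ i0 = ζ) : ∃ ε > 0, ∃ δ > 0,
      (∀ f, DifferentiableOn ℂ f D →
        DifferentiableOn ℂ (fun x => cauchy f (fun ζ => W ζ + (x - W (x i0))) (x i0))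
          {x | ‖x i0‖ < 1 ∧ ‖x - W (x i0)‖ < ε}) ∧
      ∀ x, 1 - δ < ‖x i0‖ → ‖x i0‖ < 1 → ‖x - W (x i0)‖ < ε → x ∈ D ∧
        ∀ f, DifferentiableOn ℂ f D →
          cauchy f (fun ζ => W ζ + (x - W (x i0))) (x i0) = f x := by
  obtain ⟨hdisc, hb, e, he, hR⟩ := hW
  have hcW : ContinuousOn W (closedBall 0 1) := by
    have := hdisc.continuousOn
    rwa [closure_ball _ one_ne_zero] at this
  obtain ⟨η, hη, ρ, h0, h1, hcol⟩ := chart_collar hD hcW hb
  have hone : sphere (0 : ℂ) 1 ⊆ closedBall 0 1 \ ball 0 ρ := fun ζ hζ => by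
    rw [mem_sphere_zero_iff_norm] at hζ
    simp [hζ, h1.le]
  refine ⟨min η e, lt_min hη he, 1 - ρ, sub_pos.2 h1, fun f hf => ?_, fun x hx0 hx1 hx => ?_⟩
  · have hdW : DifferentiableOn ℂ (fun x : ι → ℂ => x - W (x i0)) {x | ‖x i0‖ < 1} :=
      differentiableOn_id.sub (hdisc.differentiableOn.comp (by fun_prop)
        fun x hx => mem_ball_zero_iff.2 hx)
    have hU : IsOpen {x : ι → ℂ | ‖x i0‖ < 1 ∧ ‖x - W (x i0)‖ < min η e} :=
      hdW.continuousOn.norm.isOpen_inter_preimage (isOpen_lt (by fun_prop) continuous_const)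
        isOpen_Iio
    have hdU : DifferentiableOn ℂ (fun x : ι → ℂ => x - W (x i0))
        {x | ‖x i0‖ < 1 ∧ ‖x - W (x i0)‖ < min η e} := hdW.mono fun x hx => hx.1
    have hne : ∀ ζ ∈ sphere (0 : ℂ) 1,
        ∀ x ∈ {x : ι → ℂ | ‖x i0‖ < 1 ∧ ‖x - W (x i0)‖ < min η e}, ζ - x i0 ≠ 0 :=
      fun ζ hζ x hx e => by
        rw [mem_sphere_zero_iff_norm, sub_eq_zero.1 e] at hζ
        exact hx.1.ne hζ
    unfold cauchy
    refine DifferentiableOn.fun_const_smul (chart_circ zero_le_one hU (fun ζ hζ => ?_) ?_)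
      ((2 * Real.pi * I)⁻¹ : ℂ)
    · exact (DifferentiableOn.inv (by fun_prop) (hne ζ hζ)).smul (hf.comp (hdU.const_add _)
        fun x hx => hcol ζ (hone hζ) _ (hx.2.trans_le (min_le_left _ _)))
    · refine ContinuousOn.smul (ContinuousOn.inv₀ (by fun_prop) fun p hp => hne _ hp.1 _ hp.2)
        (hf.continuousOn.comp (ContinuousOn.add ?_ ?_)
          fun p hp => hcol _ (hone hp.1) _ (hp.2.2.trans_le (min_le_left _ _)))
      · exact hcW.comp continuousOn_fst fun p hp => sphere_subset_closedBall hp.1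
      · exact hdU.continuousOn.comp continuousOn_snd fun p hp => hp.2
  · have hx0' : ρ < ‖x i0‖ := by linarith
    have hin : ∀ ζ ∈ closedBall (0 : ℂ) 1 \ ball 0 ρ, W ζ + (x - W (x i0)) ∈ D :=
      fun ζ hζ => hcol ζ hζ _ (hx.trans_le (min_le_left _ _))
    refine ⟨by simpa using hin (x i0) (by simp [hx0'.le, hx1.le]), fun f hf => ?_⟩
    have key := chart_annulus (h := fun ζ => f (W ζ + (x - W (x i0)))) h0 h1
      (hf.continuousOn.comp ((hcW.mono sdiff_subset).add continuousOn_const) hin)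
      (fun ζ hζ => (hf.differentiableAt (hD.mem_nhds (hin ζ
        (sdiff_subset_sdiff ball_subset_closedBall ball_subset_closedBall hζ)))).comp ζ
          ((hdisc.differentiableOn.differentiableAt (isOpen_ball.mem_nhds hζ.1)).add_const _))
      (hR (fun _ => x - W (x i0)) diffContOnCl_const
        (fun _ _ => hx.trans_le (min_le_right _ _)) f hf) hx0' hx1
    unfold cauchy
    rw [key, smul_smul, inv_mul_cancel₀ two_pi_I_ne_zero, one_smul, add_sub_cancel]

end Pool.Agent.MP_bea40e_an.Iv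

end

section

open Filter Topology Set Metric Complex
open scoped ContDiff ComplexConjugate

namespace Pool.Agent.MP_bea40e_an.Iv

open Pool.Agent.Lib.SCV in
/-- identity theorem on a ball -/
lemma env_ball {n : ℕ} {f g : (Fin n → ℂ) → ℂ} {c x y : Fin n → ℂ} {r : ℝ}
    (hf : DifferentiableOn ℂ f (ball c r)) (hg : DifferentiableOn ℂ g (ball c r))
    (hx : x ∈ ball c r) (hy : y ∈ ball c r) (h : f =ᶠ[𝓝 x] g) : f =ᶠ[𝓝 y] g :=
  eventually_of_mem (isOpen_ball.mem_nhds hy)
    ((osgood isOpen_ball hf).eqOn_of_preconnected_of_eventuallyEq (osgood isOpen_ball hg)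
      (convex_ball c r).isPreconnected hx h)

/-- a holomorphic function read in a local inverse of the projection is analytic -/
lemma env_analytic {n : ℕ} {X : Type} [TopologicalSpace X]
    (e : OpenPartialHomeomorph X (Fin n → ℂ)) {F : X → ℂ} (hF : Hol e F) {z : Fin n → ℂ}
    (hz : z ∈ e.target) : AnalyticAt ℂ (fun w => F (e.symm w)) z := by
  obtain ⟨g, hg, hg'⟩ := hF (e.symm z)
  rw [e.right_inv hz] at hg
  refine hg.congr ?_
  filter_upwards [(e.continuousAt_symm hz).eventually hg', e.open_target.mem_nhds hz] with w h1 h2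
  rw [h1, e.right_inv h2]

/-- identity theorem on a connected space spread over `ℂⁿ` -/
lemma env_ident {n : ℕ} {X : Type} [TopologicalSpace X] [PreconnectedSpace X]
    {π : X → Fin n → ℂ} (hπ : IsLocalHomeomorph π) {F G : X → ℂ} (hF : Hol π F) (hG : Hol π G)
    {x0 : X} (h0 : F =ᶠ[𝓝 x0] G) : F = G := by
  have key : ∀ x : X, ∀ᶠ y in 𝓝 x, (F =ᶠ[𝓝 y] G ↔ F =ᶠ[𝓝 x] G) := fun x => by
    obtain ⟨e, hx, rfl⟩ := hπ x
    obtain ⟨r, hr, hb⟩ := Metric.isOpen_iff.1 e.open_target _ (e.map_source hx)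
    have h1 : ∀ y ∈ e.source, (F =ᶠ[𝓝 y] G ↔
        (fun w => F (e.symm w)) =ᶠ[𝓝 (e y)] fun w => G (e.symm w)) := fun y hy => by
      constructor
      · intro h
        have h2 := e.continuousAt_symm (e.map_source hy)
        rw [ContinuousAt, e.left_inv hy] at h2
        exact h2.eventually h
      · intro h
        filter_upwards [(e.continuousAt hy).eventually h, e.open_source.mem_nhds hy] with w a1 a2
        rwa [e.left_inv a2] at a1
    have dF : DifferentiableOn ℂ (fun w => F (e.symm w)) (ball (e x) r) := fun w hw =>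
      (env_analytic e hF (hb hw)).differentiableAt.differentiableWithinAt
    have dG : DifferentiableOn ℂ (fun w => G (e.symm w)) (ball (e x) r) := fun w hw =>
      (env_analytic e hG (hb hw)).differentiableAt.differentiableWithinAt
    filter_upwards [e.open_source.mem_nhds hx, (e.continuousAt hx).eventually_mem
      (ball_mem_nhds _ hr)] with y a1 a2
    rw [h1 y a1, h1 x hx]
    exact ⟨env_ball dF dG a2 (mem_ball_self hr), env_ball dF dG (mem_ball_self hr) a2⟩
  have hc : IsClopen {x | F =ᶠ[𝓝 x] G} := by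
    refine ⟨⟨isOpen_iff_mem_nhds.2 fun x hx => ?_⟩, isOpen_iff_mem_nhds.2 fun x hx => ?_⟩
    · filter_upwards [key x] with y hy h
      exact hx (hy.1 h)
    · filter_upwards [key x] with y hy
      exact hy.2 hx
  have := hc.eq_univ ⟨x0, h0⟩
  funext x
  exact EventuallyEq.eq_of_nhds (show x ∈ {x | F =ᶠ[𝓝 x] G} from this ▸ mem_univ x)

/-- charts of the space of germs -/
def env_Ch {n : ℕ} (D : Set (Fin n → ℂ)) : Type :=
  {p : Set (Fin n → ℂ) × (((Fin n → ℂ) → ℂ) → (Fin n → ℂ) → ℂ) //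
    IsOpen p.1 ∧ ∀ f, DifferentiableOn ℂ f D → DifferentiableOn ℂ (p.2 f) p.1}

/-- two charts have the same germs at a point -/
def env_rel {n : ℕ} {D : Set (Fin n → ℂ)} (a b : env_Ch D) (x : Fin n → ℂ) : Prop :=
  ∀ f, DifferentiableOn ℂ f D → a.1.2 f =ᶠ[𝓝 x] b.1.2 f

lemma env_rel_loc {n : ℕ} {D : Set (Fin n → ℂ)} (a b : env_Ch D) {x : Fin n → ℂ} (ha : x ∈ a.1.1)
    (hb : x ∈ b.1.1) :
    ∀ᶠ y in 𝓝 x, y ∈ a.1.1 ∧ y ∈ b.1.1 ∧ (env_rel a b y ↔ env_rel a b x) := by
  obtain ⟨r, hr, h⟩ := Metric.isOpen_iff.1 (a.2.1.inter b.2.1) x ⟨ha, hb⟩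
  filter_upwards [ball_mem_nhds x hr] with y hy
  have da := fun f hf => (a.2.2 f hf).mono (h.trans inter_subset_left)
  have db := fun f hf => (b.2.2 f hf).mono (h.trans inter_subset_right)
  exact ⟨(h hy).1, (h hy).2, fun e f hf => env_ball (da f hf) (db f hf) hy (mem_ball_self hr) (e f hf),
    fun e f hf => env_ball (da f hf) (db f hf) (mem_ball_self hr) hy (e f hf)⟩

/-- The space of germs of families. Charts are pairs `(U, Fam)` with `U` open and `Fam f`
holomorphic on `U` for every `f` holomorphic on `D`; two charts are identified at `x` if all germs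
agree (clopen by the identity theorem on a ball, `osgood`); apply `glue` and take the connected
component of the chart `(D, id)` as a subtype (it is open). It is an envelope, and each connected
chart that agrees with `(D, id)` near one point lifts to it. -/
theorem env_exists {n : ℕ} {D : Set (Fin n → ℂ)} (hD : IsOpen D) (hc : IsConnected D) :
    ∃ (X : Type) (_ : TopologicalSpace X) (_ : T2Space X) (_ : ConnectedSpace X)
      (π : X → Fin n → ℂ) (ι : D → X), IsEnvelope D π ι ∧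
      ∀ (U : Set (Fin n → ℂ)) (Fam : ((Fin n → ℂ) → ℂ) → (Fin n → ℂ) → ℂ), IsOpen U →
        (∀ f, DifferentiableOn ℂ f D → DifferentiableOn ℂ (Fam f) U) →
        ∀ S ⊆ U, IsPreconnected S → (∃ x ∈ S, x ∈ D ∧
          ∀ f, DifferentiableOn ℂ f D → Fam f =ᶠ[𝓝 x] f) →
        ∀ x ∈ S, ∃ p, π p = x ∧ ∀ f F, DifferentiableOn ℂ f D → Hol π F →
          (∀ z : D, F (ι z) = f z) → F p = Fam f x := by
  obtain ⟨z0, hz0⟩ := hc.nonempty
  let a0 : env_Ch D := ⟨(D, fun f => f), hD, fun _ hf => hf⟩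
  obtain ⟨Y, tY, p, e, t2, hp, ec, ep, eo, er, es⟩ := glue (fun a : env_Ch D => a.1.1) env_rel
    (fun a => a.2.1) ⟨a0, z0, hz0⟩ (fun _ _ _ _ _ => EventuallyEq.rfl)
    (fun _ _ _ _ _ h f hf => (h f hf).symm)
    (fun _ _ _ _ _ _ _ h h' f hf => (h f hf).trans (h' f hf))
    (fun a b => isOpen_iff_mem_nhds.2 fun x hx => (env_rel_loc a b hx.1 hx.2.1).mono
      fun y hy => ⟨hy.1, hy.2.1, hy.2.2.2 hx.2.2⟩)
    (fun a b => isOpen_iff_mem_nhds.2 fun x hx => (env_rel_loc a b hx.1 hx.2.1).mono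
      fun y hy => ⟨hy.1, hy.2.1, fun h => hx.2.2 (hy.2.2.1 h)⟩)
  let C : Set Y := connectedComponent (e a0 z0)
  have hC : ∀ {T : Set Y}, IsPreconnected T → ∀ {y}, y ∈ T → y ∈ C → T ⊆ C := fun hT y h1 h2 => by
    have := hT.subset_connectedComponent h1
    rwa [← connectedComponent_eq h2] at this
  have Co : IsOpen C := isOpen_iff_mem_nhds.2 fun y hy => by
    obtain ⟨a, x, hx, rfl⟩ := es y
    obtain ⟨r, hr, hb⟩ := Metric.isOpen_iff.1 a.2.1 x hx
    have h1 : e a x ∈ e a '' ball x r := mem_image_of_mem _ (mem_ball_self hr)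
    exact mem_of_superset ((eo a _ isOpen_ball hb).mem_nhds h1)
      (hC ((convex_ball x r).isPreconnected.image _ ((ec a).mono hb)) h1 hy)
  have hι : ∀ z ∈ D, e a0 z ∈ C := fun z hz =>
    hC (hc.isPreconnected.image _ (ec a0)) (mem_image_of_mem _ hz0) mem_connectedComponent
      (mem_image_of_mem _ hz)
  have cC : ConnectedSpace C := isConnected_iff_connectedSpace.1 isConnected_connectedComponent
  have hπ : IsLocalHomeomorph fun y : C => p y :=
    hp.comp Co.isOpenEmbedding_subtypeVal.isLocalHomeomorph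
  let ι : D → C := fun z => ⟨e a0 z, hι z z.2⟩
  choose ch pt hpt hch using es
  let F : ((Fin n → ℂ) → ℂ) → Y → ℂ := fun f y => (ch y).1.2 f (pt y)
  have hF : ∀ f, DifferentiableOn ℂ f D → ∀ a : env_Ch D, ∀ x ∈ a.1.1, F f (e a x) = a.1.2 f x :=
    fun f hf a x hx => by
      have h1 : pt (e a x) = x := by rw [← ep _ _ (hpt (e a x)), hch, ep a x hx]
      have h2 := hpt (e a x)
      have h3 := hch (e a x)
      rw [h1] at h2 h3
      simp only [F, h1]
      exact ((er _ _ x h2 hx).1 h3 f hf).eq_of_nhds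
  have hH : ∀ f, DifferentiableOn ℂ f D → Hol (fun y : C => p y) fun y => F f y := fun f hf y => by
    have h1 : p y = pt y := by rw [← ep _ _ (hpt y.1), hch]
    refine ⟨(ch y).1.2 f, Lib.SCV.osgood (ch y).2.1 ((ch y).2.2 f hf) (p y) (h1 ▸ hpt y.1), ?_⟩
    filter_upwards [continuous_subtype_val.continuousAt.eventually_mem
      ((eo (ch y) _ (ch y).2.1 subset_rfl).mem_nhds ⟨_, hpt _, hch _⟩)] with w ⟨x, hx, hw⟩
    rw [← hw, hF f hf _ x hx, ep _ x hx]
  have hU : ∀ f, DifferentiableOn ℂ f D → ∀ G : C → ℂ, Hol (fun y : C => p y) G →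
      (∀ z : D, G (ι z) = f z) → G = fun y : C => F f y := fun f hf G hG hGf => by
    refine env_ident hπ hG (hH f hf) (x0 := ι ⟨z0, hz0⟩) ?_
    filter_upwards [continuous_subtype_val.continuousAt.eventually_mem
      ((eo a0 _ hD subset_rfl).mem_nhds ⟨z0, hz0, rfl⟩)] with w ⟨x, hx, hw⟩
    have h1 : w = ι ⟨x, hx⟩ := Subtype.ext hw.symm
    rw [h1, hGf]
    exact (hF f hf a0 x hx).symm
  refine ⟨C, inferInstance, inferInstance, cC, fun y => p y, ι, ⟨⟨hπ,
    ((ec a0).domRestrict).subtype_mk _, fun z => ep a0 z z.2, fun f hf => ⟨fun y => F f y,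
      ⟨hH f hf, fun z => hF f hf a0 z z.2⟩, fun G hG => hU f hf G hG.1 hG.2⟩⟩, ?_⟩, ?_⟩
  · intro Z _ _ _ q j ⟨hq, jc, qj, hx⟩
    classical
    choose E hE using fun f : {f : (Fin n → ℂ) → ℂ // DifferentiableOn ℂ f D} => (hx f.1 f.2).exists
    let E' : ((Fin n → ℂ) → ℂ) → Z → ℂ := fun f =>
      if h : DifferentiableOn ℂ f D then E ⟨f, h⟩ else 0
    have hE' : ∀ f, DifferentiableOn ℂ f D → Hol q (E' f) ∧ ∀ z : D, E' f (j z) = f z :=
      fun f hf => by simpa only [E', dif_pos hf] using hE ⟨f, hf⟩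
    choose c hc1 hc2 using hq
    let b : Z → env_Ch D := fun y => ⟨((c y).target, fun f w => E' f ((c y).symm w)),
      (c y).open_target, fun f hf w hw =>
        (env_analytic (c y) (hc2 y ▸ (hE' f hf).1) hw).differentiableAt.differentiableWithinAt⟩
    have hb : ∀ y, ∀ w ∈ (c y).source, q w ∈ (b y).1.1 := fun y w hw => by
      rw [hc2 y]; exact (c y).map_source hw
    have hl : ∀ y, ∀ w ∈ (c y).source, (c y).symm (q w) = w := fun y w hw => by
      rw [hc2 y]; exact (c y).left_inv hw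
    have hr : ∀ y, ∀ x ∈ (c y).target, q ((c y).symm x) = x := fun y x hx => by
      rw [hc2 y]; exact (c y).right_inv hx
    have key : ∀ y, ∀ w ∈ (c y).source, e (b w) (q w) = e (b y) (q w) := fun y w hw => by
      refine (er _ _ _ (hb w w (hc1 w)) (hb y w hw)).2 fun f _ => ?_
      have h1 := (c w).continuousAt_symm (hb w w (hc1 w))
      rw [ContinuousAt, hl w w (hc1 w)] at h1
      filter_upwards [h1.eventually_mem ((c y).open_source.mem_nhds hw),
        (c w).open_target.mem_nhds (hb w w (hc1 w))] with x a1 a2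
      have h2 := hl y _ a1
      rw [hr w x a2] at h2
      simp only [b, h2]
    have qc : Continuous q := continuous_iff_continuousAt.2 fun y => by
      rw [hc2 y]; exact (c y).continuousAt (hc1 y)
    have φc : Continuous fun y => e (b y) (q y) := continuous_iff_continuousAt.2 fun y => by
      refine ContinuousAt.congr (f := fun w => e (b y) (q w)) (((ec (b y)).continuousAt
        ((b y).2.1.mem_nhds (hb y y (hc1 y)))).comp qc.continuousAt) ?_
      filter_upwards [(c y).open_source.mem_nhds (hc1 y)] with w hw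
      exact (key y w hw).symm
    have φι : ∀ z : D, e (b (j z)) (q (j z)) = e a0 z := fun z => by
      have h0 := hb _ _ (hc1 (j z))
      rw [qj] at h0 ⊢
      refine (er _ a0 _ h0 z.2).2 fun f hf => ?_
      rw [← hD.isOpenEmbedding_subtypeVal.map_nhds_eq, EventuallyEq, eventually_map]
      filter_upwards [jc.continuousAt.eventually_mem ((c (j z)).open_source.mem_nhds (hc1 _))]
        with w hw
      have h2 := hl _ _ hw
      rw [qj] at h2
      simp only [b, a0, h2]
      exact (hE' f hf).2 w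
    have hm : ∀ y, e (b y) (q y) ∈ C := fun y =>
      hC (isPreconnected_range φc) (mem_range_self (j ⟨z0, hz0⟩))
        (by rw [φι]; exact mem_connectedComponent) (mem_range_self y)
    exact ⟨fun y => ⟨_, hm y⟩, φc.subtype_mk _, fun y => ep _ _ (hb y y (hc1 y)),
      fun z => Subtype.ext (φι z)⟩
  · intro U Fam hUo hFam S hSU hS ⟨x0, hx0, hx0D, h0⟩ x hx
    let a : env_Ch D := ⟨(U, Fam), hUo, hFam⟩
    have h1 : e a x0 = e a0 x0 := (er a a0 x0 (hSU hx0) hx0D).2 h0
    have h2 : e a x ∈ C := hC (hS.image _ ((ec a).mono hSU)) (mem_image_of_mem _ hx0)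
      (h1 ▸ hι x0 hx0D) (mem_image_of_mem _ hx)
    refine ⟨⟨_, h2⟩, ep a x (hSU hx), fun f G hf hG hGf => ?_⟩
    rw [hU f hf G hG hGf]
    exact hF f hf a x (hSU hx)

end Pool.Agent.MP_bea40e_an.Iv

end

section

open Filter Topology Set Metric Complex
open scoped ContDiff ComplexConjugate

namespace Pool.Agent.MP_bea40e_an.Iv

open MeasureTheory

theorem vtop_point {n : ℕ} {i0 : Fin n} {D : Set (Fin n → ℂ)} (hD : IsOpen D)
    (hc : IsConnected D) (X : Type) [TopologicalSpace X] (π : X → Fin n → ℂ) (ι : D → X)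
    (H : IsEnvelope D π ι) {W : ℂ → Fin n → ℂ} (hW : Reach D W) (hg : ∀ ζ, W ζ i0 = ζ)
    {x : Fin n → ℂ} (hx : ‖x i0‖ < 1) (hWx : W (x i0) = x) :
    ∃ p : X, π p = x ∧ ∀ f F, DifferentiableOn ℂ f D → Hol π F → (∀ z : D, F (ι z) = f z) →
      F p = cauchy f W (x i0) := by
  obtain ⟨X0, _, _, _, π0, ι0, H0, hl⟩ := env_exists hD hc
  obtain ⟨φ, hφc, hφπ, hφι⟩ := H.2 X0 π0 ι0 H0.1
  obtain ⟨ε, hε, δ, hδ, h1, h2⟩ := reach_chart i0 hD hW hg
  have hWd : DifferentiableOn ℂ W (ball 0 1) := hW.1.differentiableOn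
  have hU : IsOpen {x : Fin n → ℂ | ‖x i0‖ < 1 ∧ ‖x - W (x i0)‖ < ε} := by
    refine isOpen_iff_mem_nhds.2 fun y hy => ?_
    have ha : ContinuousAt W (y i0) :=
      (hWd.differentiableAt (isOpen_ball.mem_nhds (mem_ball_zero_iff.2 hy.1))).continuousAt
    have hb : ContinuousAt (fun t : Fin n → ℂ => t i0) y := (continuous_apply i0).continuousAt
    have hc' : ContinuousAt (fun t : Fin n → ℂ => ‖t - W (t i0)‖) y :=
      (continuousAt_id.sub (ContinuousAt.comp (f := fun t : Fin n → ℂ => t i0) ha hb)).norm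
    exact (hb.norm.eventually_lt continuousAt_const hy.1).and
      (hc'.eventually_lt continuousAt_const hy.2)
  have hSU : W '' ball 0 1 ⊆ {x : Fin n → ℂ | ‖x i0‖ < 1 ∧ ‖x - W (x i0)‖ < ε} := by
    rintro _ ⟨ζ, hζ, rfl⟩
    refine ⟨by rw [hg]; exact mem_ball_zero_iff.1 hζ, ?_⟩
    rw [hg, sub_self, norm_zero]
    exact hε
  have hS : IsPreconnected (W '' ball 0 1) :=
    (convex_ball (0 : ℂ) 1).isPreconnected.image W hWd.continuousOn
  obtain ⟨r, hr0, hr1, hr2⟩ : ∃ r : ℝ, 0 ≤ r ∧ 1 - δ < r ∧ r < 1 :=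
    ⟨max (1 - δ / 2) (1 / 2), le_max_of_le_right (by norm_num),
      lt_max_of_lt_left (by linarith), max_lt (by linarith only [hδ]) (by norm_num)⟩
  have hrn : ‖(r : ℂ)‖ = r := by rw [Complex.norm_real, Real.norm_of_nonneg hr0]
  have hrS : W r ∈ W '' ball 0 1 := ⟨r, mem_ball_zero_iff.2 (by rw [hrn]; exact hr2), rfl⟩
  have hrδ : 1 - δ < ‖W r i0‖ := by rw [hg, hrn]; exact hr1
  have hev : ∀ᶠ t : Fin n → ℂ in 𝓝 (W r), 1 - δ < ‖t i0‖ :=
    continuousAt_const.eventually_lt (continuous_apply i0).continuousAt.norm hrδ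
  obtain ⟨p0, hp0, hp⟩ := hl _ (fun f x => cauchy f (fun ζ => W ζ + (x - W (x i0))) (x i0)) hU h1
    _ hSU hS ⟨W r, hrS, (h2 _ hrδ (hSU hrS).1 (hSU hrS).2).1, fun f hf => by
      filter_upwards [hev, hU.mem_nhds (hSU hrS)] with t ht1 ht2
      exact (h2 t ht1 ht2.1 ht2.2).2 f hf⟩ x ⟨x i0, mem_ball_zero_iff.2 hx, hWx⟩
  refine ⟨φ p0, by rw [hφπ, hp0], fun f F hf hF hFf => ?_⟩
  have hF0 : Hol π0 fun y => F (φ y) := by
    intro y
    obtain ⟨g, hg1, hg2⟩ := hF (φ y)
    refine ⟨g, by rwa [hφπ] at hg1, ?_⟩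
    filter_upwards [hφc.continuousAt.eventually hg2] with t ht
    rw [ht, hφπ]
  have := hp f (fun y => F (φ y)) hf hF0 fun z => by rw [hφι, hFf]
  simpa only [hWx, sub_self, add_zero] using this

/-- Every envelope `X` receives the envelope of `env_exists` by maximality; pull extensions back
(uniqueness in `IsExt`). With `reach_chart` and `S = W '' ball 0 1`, a reachable disc through `x`
gives a point of `X` over `x` at which the extension of `f` is the Cauchy integral. Hence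
`∑ a, (T a).indicator 1 ≤ encard` of the fibre. -/
theorem vol_top {n : ℕ} {i0 : Fin n} {D : Set (Fin n → ℂ)} (h : Core i0 D) (X : Type)
    [TopologicalSpace X] (π : X → Fin n → ℂ) (ι : D → X) (H : IsEnvelope D π ι) :
    ∫⁻ z, ((π ⁻¹' {z}).encard : ENNReal) = ⊤ := by
  classical
  obtain ⟨hD, hc, -, -, hC⟩ := h
  rw [eq_top_iff, ← ENNReal.iSup_natCast]
  refine iSup_le fun C => ?_
  obtain ⟨A, _, T, W, hT, hv, hR, hs⟩ := hC C
  refine hv.trans ?_
  have e1 : ∑ a, volume (T a) = ∫⁻ z, ∑ a, (T a).indicator (1 : (Fin n → ℂ) → ENNReal) z := by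
    rw [lintegral_finsetSum _ fun a _ => measurable_one.indicator (hT a)]
    exact Finset.sum_congr rfl fun a _ => (lintegral_indicator_one (hT a)).symm
  rw [e1]
  refine lintegral_mono fun x => ?_
  have hp : ∀ a : {a | x ∈ T a}, ∃ p : X, π p = x ∧ ∀ f F, DifferentiableOn ℂ f D → Hol π F →
      (∀ z : D, F (ι z) = f z) → F p = cauchy f (W a x) (x i0) := fun a =>
    vtop_point hD hc X π ι H (hR a x a.2).1 (hR a x a.2).2.1 (hR a x a.2).2.2.1
      (hR a x a.2).2.2.2
  choose p hp1 hp2 using hp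
  have hinj : Function.Injective fun a : {a | x ∈ T a} => (⟨p a, hp1 a⟩ : π ⁻¹' {x}) := by
    intro a b hab
    by_contra hne
    obtain ⟨f, hf, hfne⟩ := hs a b (fun e => hne (Subtype.ext e)) x a.2 b.2
    obtain ⟨F, ⟨hF1, hF2⟩, -⟩ := H.1.2.2.2 f hf
    apply hfne
    have hab' : p a = p b := congrArg Subtype.val hab
    rw [← hp2 a f F hf hF1 hF2, ← hp2 b f F hf hF1 hF2, hab']
  have hle : ({a | x ∈ T a} : Set A).encard ≤ (π ⁻¹' {x}).encard :=
    Function.Embedding.encard_le ⟨_, hinj⟩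
  refine le_trans (le_of_eq ?_) (ENat.toENNReal_le.2 hle)
  rw [Set.encard_eq_coe_toFinset_card]
  simp only [Set.indicator_apply, Pi.one_apply, Finset.sum_boole, Set.toFinset_ofPred,
    ENat.toENNReal_coe]

/-- reindexing of coordinates (`ContinuousLinearEquiv.piCongrLeft`, `Reach.map`,
`volume_measurePreserving_piCongrLeft`) -/
theorem Core.reindex {ι : Type} [Fintype ι] {i0 : ι} {D : Set (ι → ℂ)} (h : Core i0 D) :
    ∃ (n : ℕ) (j0 : Fin n) (D' : Set (Fin n → ℂ)), Core j0 D' := by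
  obtain ⟨hD, hc, hb, ⟨ρ, hρ, hρ'⟩, hC⟩ := h
  let e := Fintype.equivFin ι
  let L : (ι → ℂ) ≃L[ℂ] (Fin (Fintype.card ι) → ℂ) :=
    ContinuousLinearEquiv.piCongrLeft ℂ (fun _ => ℂ) e
  have hL : ∀ x i, L x (e i) = x i := fun x i =>
    Equiv.piCongrLeft_apply_apply (fun _ => ℂ) e x i
  have hL' : ∀ y i, L.symm y i = y (e i) := fun y i => by
    rw [← hL (L.symm y) i, ContinuousLinearEquiv.apply_symm_apply]
  have hm : ∀ s : Set (ι → ℂ), L '' s = L.symm ⁻¹' s := fun s => L.image_eq_preimage_symm s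
  have hmp : MeasurePreserving (L.symm : (Fin (Fintype.card ι) → ℂ) → ι → ℂ) volume volume :=
    (volume_measurePreserving_piCongrLeft (fun _ => ℂ) e).symm
  refine ⟨Fintype.card ι, e i0, L '' D, L.toHomeomorph.isOpenMap D hD,
    hc.image _ L.continuous.continuousOn, L.lipschitz.isBounded_image hb,
    ⟨fun y => ρ (L.symm y), hρ.comp (L.symm.contDiff.restrict_scalars ℝ), fun p hp => ?_⟩,
    fun C => ?_⟩
  · have hp' : L.symm p ∈ frontier D := by
      rw [hm] at hp
      exact L.symm.continuous.frontier_preimage_subset D hp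
    obtain ⟨h1, h2⟩ := hρ' _ hp'
    refine ⟨fun h0 => h1 ?_, ?_⟩
    · have h3 : DifferentiableAt ℝ (fun y => ρ (L.symm y)) (L (L.symm p)) :=
        ((hρ.comp (L.symm.contDiff.restrict_scalars ℝ)).differentiable (by simp)).differentiableAt
      have h4 := h3.hasFDerivAt.comp (L.symm p) (L.hasFDerivAt.restrictScalars ℝ)
      have h5 : (fun y => ρ (L.symm y)) ∘ L = ρ := by
        funext t
        simp only [Function.comp_apply, L.symm_apply_apply]
      rw [h5, L.apply_symm_apply, h0] at h4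
      rw [h4.fderiv, ContinuousLinearMap.zero_comp]
    · rw [hm]
      exact L.symm.continuous.continuousAt.eventually h2
  · obtain ⟨A, hA, T, W, hT, hv, hR, hs⟩ := hC C
    refine ⟨A, hA, fun a => L.symm ⁻¹' T a, fun a y ζ => L (W a (L.symm y) ζ),
      fun a => L.symm.continuous.measurable (hT a), ?_, fun a y hy => ?_, fun a b hab y ha hb => ?_⟩
    · refine hv.trans (le_of_eq (Finset.sum_congr rfl fun a _ => ?_))
      exact (hmp.measure_preimage (hT a).nullMeasurableSet).symm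
    · obtain ⟨h1, h2, h3, h4⟩ := hR a _ hy
      rw [hL'] at h3 h4
      exact ⟨h1.map L, fun ζ => (hL _ _).trans (h2 ζ), h3,
        (congrArg L h4).trans (L.apply_symm_apply y)⟩
    · obtain ⟨f, hf, hne⟩ := hs a b hab _ ha hb
      refine ⟨fun y => f (L.symm y), ?_, ?_⟩
      · rw [hm]
        exact hf.comp L.symm.differentiableOn fun y hy => hy
      · rw [hL'] at hne
        simpa only [cauchy, L.symm_apply_apply] using hne

end Pool.Agent.MP_bea40e_an.Iv

end

section

open Filter Topology Set Metric Complex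
open scoped ContDiff ComplexConjugate

namespace Pool.Agent.MP_bea40e_an.Iv

/-- `{ρ < 0}` is locally connected at a regular zero: with `fderiv ρ p v > 0` use a cylinder
around `p` in which `ρ` increases along `v` and whose bottom lies in `{ρ < 0}`. Hence the
component `D` of `{ρ < 0}` has smooth boundary. -/
theorem comp_frontier {E : Type} [NormedAddCommGroup E] [NormedSpace ℝ E] [FiniteDimensional ℝ E]
    {ρ : E → ℝ} (hρ : ContDiff ℝ ∞ ρ) (hreg : ∀ p, ρ p = 0 → fderiv ℝ ρ p ≠ 0) (p0 : E) :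
    ∀ p ∈ frontier (connectedComponentIn {x | ρ x < 0} p0), fderiv ℝ ρ p ≠ 0 ∧
      ∀ᶠ x in 𝓝 p, (x ∈ connectedComponentIn {x | ρ x < 0} p0 ↔ ρ x < 0) := by
  intro p hp
  have hc : Continuous ρ := hρ.continuous
  have hd : Differentiable ℝ ρ := hρ.differentiable (by simp)
  have hS : IsOpen {x | ρ x < 0} := isOpen_lt hc continuous_const
  have hD : IsOpen (connectedComponentIn {x | ρ x < 0} p0) := hS.connectedComponentIn
  have hsub : ∀ x ∈ connectedComponentIn {x | ρ x < 0} p0, ρ x < 0 :=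
    fun x hx => connectedComponentIn_subset {x | ρ x < 0} p0 hx
  rw [hD.frontier_eq] at hp
  have h0 : ρ p = 0 := by
    refine le_antisymm ?_ (not_lt.1 fun h => hp.2 ?_)
    · exact closure_minimal (t := {x | ρ x ≤ 0}) (fun x hx => (hsub x hx).le)
        (isClosed_le hc continuous_const) hp.1
    · obtain ⟨y, hy, hy'⟩ := mem_closure_iff.1 hp.1 _ hS.connectedComponentIn
        (mem_connectedComponentIn (F := {x | ρ x < 0}) (x := p) h)
      rw [connectedComponentIn_eq hy', ← connectedComponentIn_eq hy]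
      exact mem_connectedComponentIn h
  refine ⟨hreg p h0, ?_⟩
  obtain ⟨v, hv⟩ : ∃ v, 0 < fderiv ℝ ρ p v := by
    by_contra hn
    push Not at hn
    refine hreg p h0 (ContinuousLinearMap.ext fun v => le_antisymm (hn v) ?_)
    have := hn (-v)
    rw [map_neg] at this
    simpa only [zero_apply, ge_iff_le, Left.neg_nonpos_iff] using this
  have hcd : Continuous fun x => fderiv ℝ ρ x v :=
    (hρ.continuous_fderiv (by simp)).clm_apply continuous_const
  obtain ⟨δ, hδ, hb⟩ := Metric.isOpen_iff.1 (isOpen_lt continuous_const hcd) p hv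
  obtain ⟨t0, ht0, ht⟩ : ∃ t0 : ℝ, 0 < t0 ∧ t0 * ‖v‖ ≤ δ / 2 :=
    ⟨δ / 2 / (‖v‖ + 1), by positivity, by
      rw [div_mul_eq_mul_div, div_le_iff₀ (by positivity)]
      linarith only [hδ]⟩
  have anti : ∀ x ∈ ball p (δ / 2), StrictAntiOn (fun t : ℝ => ρ (x - t • v)) (Icc 0 t0) := by
    intro x hx
    refine strictAntiOn_of_deriv_neg (convex_Icc _ _) (by fun_prop) fun t ht' => ?_
    rw [interior_Icc] at ht'
    have h1 : HasDerivAt (fun t : ℝ => x - t • v) (-v) t := by
      simpa using ((hasDerivAt_id t).smul_const v).const_sub x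
    have h2 := (hd (x - t • v)).hasFDerivAt.comp_hasDerivAt t h1
    rw [show deriv (fun t : ℝ => ρ (x - t • v)) t = _ from h2.deriv, map_neg, neg_lt_zero]
    refine hb ?_
    rw [mem_ball, dist_eq_norm] at hx ⊢
    calc ‖x - t • v - p‖ = ‖(x - p) - t • v‖ := by congr 1; abel
      _ ≤ ‖x - p‖ + ‖t • v‖ := norm_sub_le _ _
      _ < δ := by
        rw [norm_smul, Real.norm_of_nonneg ht'.1.le]
        nlinarith only [norm_nonneg v, ht'.2, ht, hx]
  have hq : ρ (p - t0 • v) < 0 := by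
    simpa only [zero_smul, sub_zero, h0] using anti p (mem_ball_self (by linarith only [hδ])) (left_mem_Icc.2 ht0.le)
      (right_mem_Icc.2 ht0.le) ht0
  obtain ⟨ε, hε, hε'⟩ := Metric.isOpen_iff.1 hS _ hq
  have key : ∀ x ∈ ball p (min ε (δ / 2)), ρ x < 0 →
      x ∈ connectedComponentIn {x | ρ x < 0} (p - t0 • v) := by
    intro x hx hx'
    have h1 : IsPreconnected ((fun t : ℝ => x - t • v) '' Icc 0 t0) :=
      isPreconnected_Icc.image _ (by fun_prop)
    have h2 : x - t0 • v ∈ ball (p - t0 • v) ε := by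
      rw [mem_ball, dist_sub_right]
      exact ball_subset_ball (min_le_left _ _) hx
    refine (h1.union _ (mem_image_of_mem _ (right_mem_Icc.2 ht0.le)) h2
      (convex_ball _ _).isPreconnected).subset_connectedComponentIn
      (Or.inr (mem_ball_self hε)) (union_subset ?_ hε') (Or.inl ⟨0, left_mem_Icc.2 ht0.le, by simp⟩)
    rintro _ ⟨t, ht', rfl⟩
    have := (anti x (ball_subset_ball (min_le_right _ _) hx)).antitoneOn (left_mem_Icc.2 ht0.le)
      ht' ht'.1
    simp only [zero_smul, sub_zero] at this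
    exact this.trans_lt hx'
  have hm : 0 < min ε (δ / 2) := lt_min hε (by linarith only [hδ])
  obtain ⟨y, hy, hy'⟩ := mem_closure_iff.1 hp.1 _ isOpen_ball (mem_ball_self hm)
  filter_upwards [ball_mem_nhds p hm] with x hx
  refine ⟨hsub x, fun h => ?_⟩
  rw [connectedComponentIn_eq hy',
    ← connectedComponentIn_eq (key y hy (hsub y hy'))]
  exact key x hx h

end Pool.Agent.MP_bea40e_an.Iv

end

section

open Filter Topology Set Metric Complex
open scoped ContDiff ComplexConjugate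

namespace Pool.Agent.MP_bea40e_an.Iv

open MeasureTheory MP_c0606f_ag.Klt

section Aux

open Pool.Agent.Lib.SCV
open scoped ENNReal

variable {ι : Type} [Fintype ι] [DecidableEq ι]

omit [DecidableEq ι] in
theorem sepa_le {f : (ι → ℂ) → ℂ} {x : ι → ℂ} {r A : ℝ} (hr : 0 < r) (hA : 0 ≤ A)
    (hf : DifferentiableOn ℂ f (ball x r)) (h : eLpNorm f 2 volume ≤ ENNReal.ofReal A) :
    ‖f x‖ ≤ A / √((Real.pi * r ^ 2) ^ Fintype.card ι) := by
  have hV : 0 < (Real.pi * r ^ 2) ^ Fintype.card ι := by positivity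
  have h1 := (submean hf).trans (setLIntegral_le_lintegral _ _)
  rw [moll_eLpNorm] at h
  have h2 := ENNReal.rpow_le_rpow h zero_le_two
  rw [← ENNReal.rpow_mul, one_div, inv_mul_cancel₀ two_ne_zero, ENNReal.rpow_one,
    ENNReal.rpow_ofNat, ← ENNReal.ofReal_pow hA] at h2
  have h3 := h1.trans h2
  rw [volume_ball_eq x hr, ← ENNReal.ofReal_mul (sq_nonneg _),
    ENNReal.ofReal_le_ofReal_iff (sq_nonneg _)] at h3
  rw [le_div_iff₀ (Real.sqrt_pos.2 hV)]
  refine (abs_le_of_sq_le_sq' ?_ hA).2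
  rw [mul_pow, Real.sq_sqrt hV.le]
  exact h3

/-- Weyl's lemma on a polydisc -/
theorem sepa_weyl_flat {b : (ι → ℂ) → ℂ} (hb : MemLp b 2 volume) {c : ι → ℂ} {r : ℝ} (hr : 0 < r)
    (hw : ∀ g, FTest g → tsupport g ⊆ closedBall c (5 * r) → ∀ j, ∫ q, b q * fdb j g q = 0) :
    ∃ f : (ι → ℂ) → ℂ, DifferentiableOn ℂ f (ball c r) ∧ ∀ᵐ q, f q = b q := by
  have hl : LocallyIntegrable b := hb.locallyIntegrable one_le_two
  obtain ⟨N, hN⟩ := exists_nat_one_div_lt hr
  have hd : ∀ k, DifferentiableOn ℂ (moll (k + N) b) (ball c (4 * r)) := by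
    intro k x hx
    refine (differentiableAt_of_fdb ((contDiff_moll hl _).differentiable (by simp) x)
      fun j => ?_).differentiableWithinAt
    rw [fdb_moll hl, hw _ (fTest_ker _ x) ?_, neg_zero]
    refine (tsupport_ker _ x).trans (closedBall_subset_closedBall' ?_)
    have h1 : 1 / (((k + N : ℕ) : ℝ) + 1) ≤ 1 / ((N : ℝ) + 1) := by
      gcongr
      exact Nat.le_add_left N k
    have h2 := mem_ball.1 hx
    linarith
  have ht := (tendsto_moll hb).comp (tendsto_add_atTop_nat N)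
  obtain ⟨M, hM⟩ := eventually_atTop.1 (ht.eventually (gt_mem_nhds ENNReal.zero_lt_top))
  set e : ℕ → ℝ := fun k => (eLpNorm (fun x => moll (k + M + N) b x - b x) 2 volume).toReal
  have he : Tendsto e atTop (𝓝 0) := by
    exact (ENNReal.tendsto_toReal ENNReal.zero_ne_top).comp (ht.comp (tendsto_add_atTop_nat M))
  have he0 : ∀ k, 0 ≤ e k := fun _ => ENNReal.toReal_nonneg
  set V := √((Real.pi * r ^ 2) ^ Fintype.card ι)
  have key : ∀ k l, ∀ x ∈ ball c (3 * r),
      ‖moll (k + M + N) b x - moll (l + M + N) b x‖ ≤ (e k + e l) / V := by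
    intro k l x hx
    have hs : ball x r ⊆ ball c (4 * r) := ball_subset_ball' (by rw [mem_ball] at hx; linarith only [hx])
    refine sepa_le (f := fun x => moll (k + M + N) b x - moll (l + M + N) b x) hr
      (add_nonneg (he0 k) (he0 l)) (((hd _).mono hs).sub ((hd _).mono hs)) ?_
    have hm : ∀ k, AEStronglyMeasurable fun x => moll k b x - b x := fun k =>
      (contDiff_moll hl k).continuous.aestronglyMeasurable.sub hb.1
    have h1 := eLpNorm_sub_le (hm (k + M + N)) (hm (l + M + N)) one_le_two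
    have h2 : ∀ k, ENNReal.ofReal (e k) = eLpNorm (fun x => moll (k + M + N) b x - b x) 2 volume :=
      fun k => ENNReal.ofReal_toReal (hM _ (Nat.le_add_left M k)).ne
    rw [ENNReal.ofReal_add (he0 k) (he0 l), h2, h2]
    refine le_of_eq_of_le (congrArg (fun f => eLpNorm f 2 volume) (funext fun x => ?_)) h1
    simp
  set f : (ι → ℂ) → ℂ := fun x => limUnder atTop fun k => moll (k + M + N) b x
  have hf : ∀ x ∈ ball c (3 * r), Tendsto (fun k => moll (k + M + N) b x) atTop (𝓝 (f x)) := by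
    intro x hx
    refine CauchySeq.tendsto_limUnder (cauchySeq_iff_tendsto_dist_atTop_0.2 ?_)
    have h1 := ((he.comp (tendsto_fst (g := atTop))).add (he.comp tendsto_snd)).div_const V
    rw [add_zero, zero_div, prod_atTop_atTop_eq] at h1
    exact squeeze_zero (fun _ => dist_nonneg)
      (fun k => (dist_eq_norm _ _).trans_le (key k.1 k.2 x hx)) h1
  refine ⟨f, fun x hx => ?_, ?_⟩
  · refine (differentiableAt_of_unif_limit (g := fun k => moll (k + M + N) b) (δ := r)
      (ε := fun k => e k / V) hr (fun k => (hd _).mono (ball_subset_ball' ?_))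
      (by simpa using he.div_const V) fun k y hy => ?_).differentiableWithinAt
    · rw [mem_ball] at hx; linarith only [hr, hx]
    · have hy' : y ∈ ball c (3 * r) := ball_subset_ball' (by rw [mem_ball] at hx; linarith) hy
      have h1 := ((tendsto_const_nhds (x := moll (k + M + N) b y)).sub (hf y hy')).norm
      have h2 := ((tendsto_const_nhds (x := e k)).add he).div_const V
      rw [add_zero] at h2
      exact le_of_tendsto_of_tendsto' h1 h2 fun l => key k l y hy'
  · filter_upwards [ae_tendsto_moll hl] with x hx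
    exact ((hx.comp (tendsto_add_atTop_nat N)).comp (tendsto_add_atTop_nat M)).limUnder_eq

variable {X : Type} [TopologicalSpace X] [T2Space X] {R : RD ι X}

omit [DecidableEq ι] [T2Space X] in
/-- a test function equal to one near `p` -/
theorem sepa_bump (R : RD ι X) (p : X) : ∃ r > 0, closedBall (R.π p) (2 * r) ⊆ (R.ch p).target ∧
    ∃ g, FTest g ∧ tsupport g ⊆ (R.ch p).target ∧ ∀ q ∈ closedBall (R.π p) r, g q = 1 := by
  obtain ⟨s, hs, hb⟩ := nhds_basis_closedBall.mem_iff.1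
    ((R.ch p).open_target.mem_nhds (R.π_mem_target p (R.mem_source p)))
  let β : ContDiffBump (R.π p) := ⟨s / 2, s, by positivity, by linarith⟩
  have hc : HasCompactSupport fun q => (β q : ℂ) :=
    β.hasCompactSupport.comp_left (g := fun t : ℝ => (t : ℂ)) ofReal_zero
  refine ⟨s / 2, by positivity, by rwa [mul_div_cancel₀ s two_ne_zero], fun q => (β q : ℂ),
    ⟨ofRealCLM.contDiff.comp β.contDiff, hc⟩, ?_, fun q hq => ?_⟩
  · refine (closure_minimal (fun q hq => ?_) isClosed_closedBall).trans hb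
    by_contra h
    exact hq (by simp only [β.zero_of_le_dist (not_le.1 h).le, ofReal_zero])
  · simp only [β.one_of_mem_closedBall hq, ofReal_one]

omit [DecidableEq ι] [T2Space X] in
theorem sepa_second {ρ : X → ℝ} [DecidableEq ι] (hρ : R.Exh ρ) : SecondCountableTopology X := by
  have h1 : SigmaCompactSpace X := ⟨⟨fun n => {x | ρ x ≤ n}, fun n => hρ.cpt n,
    eq_univ_of_forall fun x => mem_iUnion.2 (exists_nat_ge (ρ x))⟩⟩
  obtain ⟨s, hs, hc⟩ := countable_cover_nhds_of_sigmaCompact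
    (f := fun p => (R.ch p).source) fun p => (R.ch p).open_source.mem_nhds (R.mem_source p)
  have := hs.to_subtype
  have : ∀ p : s, SecondCountableTopology (R.ch p).source := fun p =>
    (R.ch p).secondCountableTopology_source
  refine TopologicalSpace.secondCountableTopology_of_countable_cover
    (U := fun p : s => (R.ch p).source) (fun p => (R.ch p).open_source) ?_
  rwa [iUnion_coe_set]

variable [SecondCountableTopology X] [MeasurableSpace X] [BorelSpace X]

/-- Weyl's lemma on a Riemann domain -/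
theorem sepa_weyl {H : X → ℂ} (hm : ∀ χ, R.Test χ → MemLp (fun x => H x * χ x) 2 R.mu)
    (hw : R.WHol H) : ∃ g : X → ℂ, (∀ p, ∃ G, AnalyticAt ℂ G (R.π p) ∧
      ∀ᶠ y in 𝓝 p, g y = G (R.π y)) ∧ ∀ᵐ x ∂(R.mu), g x = H x := by
  have loc : ∀ p, ∃ (U : Set X) (f : (ι → ℂ) → ℂ), IsOpen U ∧ p ∈ U ∧
      (∀ x ∈ U, AnalyticAt ℂ f (R.π x)) ∧ ∀ᵐ x ∂(R.mu), x ∈ U → f (R.π x) = H x := by
    intro p
    obtain ⟨r, hr, hb, β, hβ, hs, h1⟩ := sepa_bump R p
    have hr5 : 5 * (r / 5) = r := by ring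
    obtain ⟨f, hf, hfb⟩ := sepa_weyl_flat (RD.fried_pushL p (hm _ (RD.test_pull p hβ hs).1))
      (c := R.π p) (r := r / 5) (by positivity) fun g hg hgs j => by
        rw [hr5] at hgs
        have hgt := (hgs.trans (closedBall_subset_closedBall (by linarith only [hr]))).trans hb
        rw [RD.fried_transfer, ← RD.db_pull p hg hgt, ← hw _ (RD.test_pull p hg hgt).1 j]
        refine integral_congr_ae (Eventually.of_forall fun x => ?_)
        by_cases hx : x ∈ tsupport (R.pull p g)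
        · obtain ⟨q, hq, rfl⟩ := (RD.test_pull p hg hgt).2 hx
          have a : R.sec p q ∈ (R.ch p).source := (R.ch p).map_target (hgt hq)
          simp only [RD.pull, indicator_of_mem a, R.π_sec p (hgt hq), h1 q (hgs hq), mul_one]
        · simp only [RD.db_eq_zero j hx, mul_zero]
    refine ⟨(R.ch p).source ∩ R.π ⁻¹' ball (R.π p) (r / 5), f,
      (R.ch p).open_source.inter (isOpen_ball.preimage R.continuous_π),
      ⟨R.mem_source p, mem_ball_self (by positivity)⟩,
      fun x hx => osgood isOpen_ball hf _ hx.2, ?_⟩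
    filter_upwards [R.ae_of_ae_base hfb] with x hx hU
    rw [hx, RD.push, indicator_of_mem (R.π_mem_target p hU.1), R.sec_π p hU.1, RD.pull,
      indicator_of_mem hU.1,
      h1 _ (ball_subset_closedBall (ball_subset_ball (by linarith only [hr]) hU.2)), mul_one]
  choose U f hU hp hf hH using loc
  have := R.isOpenPosMeasure
  have key : ∀ p, ∀ x ∈ U p, f x (R.π x) = f p (R.π x) := by
    intro p x hx
    have hc : ∀ y, ContinuousOn (fun z => f y (R.π z)) (U y) := fun y z hz =>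
      ((hf y z hz).continuousAt.comp R.continuous_π.continuousAt).continuousWithinAt
    refine Measure.eqOn_open_of_ae_eq (μ := R.mu) (f := fun z => f x (R.π z))
      (g := fun z => f p (R.π z)) ?_ ((hU x).inter (hU p)) ((hc x).mono inter_subset_left)
      ((hc p).mono inter_subset_right) ⟨hp x, hx⟩
    rw [EventuallyEq, ae_restrict_iff' ((hU x).inter (hU p)).measurableSet]
    filter_upwards [hH x, hH p] with z h1 h2 hz
    rw [h1 hz.1, h2 hz.2]
  refine ⟨fun x => f x (R.π x), fun p => ⟨f p, hf p p (hp p), ?_⟩, ?_⟩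
  · filter_upwards [(hU p).mem_nhds (hp p)] with x hx using key p x hx
  · refine measure_null_of_locally_null _ fun p _ =>
      ⟨_, inter_mem_nhdsWithin _ ((hU p).mem_nhds (hp p)), measure_mono_null ?_ (hH p)⟩
    intro x hx h
    exact hx.1 ((key p x hx.2).trans (h hx.2))

omit [DecidableEq ι] in
/-- mean value inequality in the chart at `p` -/
theorem sepa_small {g u : X → ℂ} (hg : ∀ p, ∃ G, AnalyticAt ℂ G (R.π p) ∧
      ∀ᶠ y in 𝓝 p, g y = G (R.π y)) (p : X) {t c J : ℝ} (ht : 0 < t) (hc : 0 ≤ c) (hJ : 0 ≤ J)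
    (hb : ball (R.π p) t ⊆ (R.ch p).target) {w : X → ℝ} (a : ℂ)
    (hu : ∀ᵐ x ∂(R.mu), x ∈ (R.ch p).source → R.π x ∈ ball (R.π p) t → u x = a - g x)
    (hw : ∀ x, R.π x ∈ ball (R.π p) t → c ≤ w x)
    (h : ∫⁻ x, ENNReal.ofReal (‖u x‖ ^ 2 * w x) ∂(R.mu) ≤ ENNReal.ofReal J) :
    c * (‖a - g p‖ ^ 2 * (Real.pi * t ^ 2) ^ Fintype.card ι) ≤ J := by
  have hd : DifferentiableOn ℂ (fun q => a - g (R.sec p q)) (ball (R.π p) t) := by
    intro q hq
    obtain ⟨G, hG, hGe⟩ := hg (R.sec p q)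
    rw [R.π_sec p (hb hq)] at hG
    refine ((hG.differentiableAt.congr_of_eventuallyEq ?_).const_sub a).differentiableWithinAt
    filter_upwards [((R.ch p).continuousAt_symm (hb hq)).eventually hGe,
      isOpen_ball.mem_nhds hq] with y h1 h2
    exact h1.trans (congrArg G (R.π_sec p (hb h2)))
  have h1 := submean hd
  rw [R.sec_π p (R.mem_source p), volume_ball_eq _ ht, ← ENNReal.ofReal_mul (sq_nonneg _)] at h1
  rw [← ENNReal.ofReal_le_ofReal_iff hJ, ENNReal.ofReal_mul hc]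
  refine (mul_le_mul_right h1 _).trans 
    (le_trans ?_ ((setLIntegral_le_lintegral (R.ch p).source _).trans h))
  rw [R.lintegral_chart p, ← lintegral_const_mul' _ _ ENNReal.ofReal_ne_top]
  refine le_trans (lintegral_mono_ae ?_) (lintegral_mono_set hb)
  rw [ae_restrict_iff' measurableSet_ball]
  filter_upwards [R.ae_fibre hu] with q hq hqb
  have e := R.π_sec p (hb hqb)
  rw [hq _ e ((R.ch p).map_target (hb hqb)) (by rwa [e]), ← ENNReal.ofReal_mul hc, mul_comm]
  exact ENNReal.ofReal_le_ofReal (mul_le_mul_of_nonneg_left (hw _ (by rwa [e])) (sq_nonneg _))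

omit [SecondCountableTopology X] [MeasurableSpace X] [BorelSpace X] in
/-- holomorphic functions separate the points of a fibre -/
theorem sepa_gen {ρ : X → ℝ} (hρ : R.Exh ρ) {p q : X} (hpq : p ≠ q) (h : R.π p = R.π q) :
    ∃ g : X → ℂ, (∀ x, ∃ G, AnalyticAt ℂ G (R.π x) ∧ ∀ᶠ y in 𝓝 x, g y = G (R.π y)) ∧
      g p ≠ g q := by
  have := sepa_second hρ
  borelize X
  obtain ⟨r, hr, hb, β, hβ, hs, h1⟩ := sepa_bump R p
  obtain ⟨hv, hvs⟩ := RD.test_pull p hβ hs
  have hq : q ∉ tsupport (R.pull p β) := fun hq => hpq (by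
    rw [← R.sec_π p (RD.ibp_sec_sub p hs (hvs hq)), ← h, R.sec_π p (R.mem_source p)])
  obtain ⟨r', hr', hb'⟩ : ∃ r' > 0, ∀ y ∈ ball (R.π q) r',
      y ∈ (R.ch q).target ∧ R.pull p β (R.sec q y) = 0 :=
    Metric.eventually_nhds_iff_ball.1 (Eventually.and
      ((R.ch q).open_target.mem_nhds (R.π_mem_target q (R.mem_source q)))
      ((R.tendsto_sec q).eventually (notMem_tsupport_iff_eventuallyEq.1 hq)))
  set n := Fintype.card ι
  set κ : X → ℝ := fun x => ∑ j, ‖R.db j (R.pull p β) x‖ ^ 2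
  have hκ0 : ∀ x, 0 ≤ κ x := fun x => Finset.sum_nonneg fun _ _ => sq_nonneg _
  have hκc : Continuous κ :=
    continuous_finsetSum _ fun j _ => (hv.db j).1.continuous.norm.pow 2
  have hκi : Integrable κ R.mu := integrable_finsetSum _ fun j _ => (hv.db j).memLp.norm.integrable_sq
  set I := (∫ x, κ x ∂(R.mu)) * ((r ^ 2)⁻¹) ^ (n + 1)
  have hI : 0 ≤ I := mul_nonneg (integral_nonneg hκ0) (by positivity)
  set C := Real.exp n * ((n : ℝ) + 1) ^ (n + 1) * (2 * I) / Real.pi ^ n
  have hC : 0 ≤ C := by positivity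
  obtain ⟨t, ht, ht1, htr, htr', htC⟩ : ∃ t > 0, t ≤ 1 ∧ t ≤ r ∧ t ≤ r' ∧ C * t < 1 / 4 := by
    have e : ∀ᶠ t in 𝓝 (0 : ℝ), t ≤ 1 ∧ t ≤ r ∧ t ≤ r' ∧ C * t < 1 / 4 :=
      (eventually_le_nhds one_pos).and ((eventually_le_nhds hr).and ((eventually_le_nhds hr').and
        ((continuous_const.mul continuous_id).continuousAt.eventually_lt continuousAt_const
          (by norm_num))))
    obtain ⟨t, h1, h2⟩ := ((e.filter_mono (nhdsWithin_le_nhds (s := Ioi 0))).and
      self_mem_nhdsWithin).exists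
    exact ⟨t, h2, h1⟩
  have hF : ∀ i, R.Hol fun x => R.π x i - R.π p i := fun i => (RD.Hol.coord i).sub (RD.Hol.const _)
  set S : X → ℝ := fun x => ∑ i, ‖R.π x i - R.π p i‖ ^ 2
  have hS0 : ∀ x, 0 ≤ S x := fun x => Finset.sum_nonneg fun _ _ => sq_nonneg _
  have h0 : ∀ x, 0 < S x + t ^ 2 := fun x => add_pos_of_nonneg_of_pos (hS0 x) (by positivity)
  have s1 : R.SmR S := RD.smR_sumSq fun i => (hF i).1
  have s2 := RD.smR_log hF h0
  have s3 := (RD.SmR.const ((n : ℝ) + 1)).mul s2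
  have hφ := s1.add s3
  have hl : ∀ x ξ, ∑ j, ‖ξ j‖ ^ 2 ≤
      R.levi (fun x => S x + ((n : ℝ) + 1) * Real.log (S x + t ^ 2)) x ξ := by
    intro x ξ
    rw [RD.levi_add s1 s3, RD.levi_const_mul s2, RD.levi_sumSq hF]
    simp only [RD.dd_sub_const (RD.Hol.coord _).1, RD.dd_coord]
    exact le_add_of_nonneg_right
      (mul_nonneg (by positivity) (RD.levi_log_nonneg hF (sq_nonneg t) h0 x ξ))
  have hexp : ∀ x, Real.exp (-(S x + ((n : ℝ) + 1) * Real.log (S x + t ^ 2))) =
      (Real.exp (S x))⁻¹ * ((S x + t ^ 2)⁻¹) ^ (n + 1) := fun x => by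
    rw [Real.exp_neg, Real.exp_add, ← Nat.cast_succ, Real.exp_nat_mul, Real.exp_log (h0 x),
      mul_inv, inv_pow]
  obtain ⟨u, hum, hu2, huw⟩ := RD.hormander hρ hφ
    (fun x ξ => (Finset.sum_nonneg fun _ _ => sq_nonneg _).trans (hl x ξ)) hv.1 hκc.measurable hκ0
    (fun x ξ => by
      refine le_trans ?_ (mul_le_mul_of_nonneg_left (hl x ξ) (hκ0 x))
      refine le_trans ?_ (Finset.sum_mul_sq_le_sq_mul_sq _ _ _)
      refine pow_le_pow_left₀ (norm_nonneg _) ((norm_sum_le _ _).trans (le_of_eq ?_)) 2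
      simp only [norm_mul, RCLike.norm_conj]) hI (by
      rw [show I = _ from (integral_mul_const _ _).symm, ofReal_integral_eq_lintegral_ofReal (hκi.mul_const _)
        (Eventually.of_forall fun x => mul_nonneg (hκ0 x) (by positivity))]
      refine lintegral_mono fun x => ENNReal.ofReal_le_ofReal ?_
      by_cases hx : r ^ 2 ≤ S x
      · refine mul_le_mul_of_nonneg_left ?_ (hκ0 x)
        rw [hexp]
        refine (mul_le_of_le_one_left (pow_nonneg (inv_nonneg.2 (h0 x).le) _)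
          (inv_le_one_of_one_le₀ (Real.one_le_exp (hS0 x)))).trans ?_
        exact pow_le_pow_left₀ (inv_nonneg.2 (h0 x).le)
          (inv_anti₀ (by positivity) (hx.trans (le_add_of_nonneg_right (sq_nonneg t)))) _
      · have hz : κ x = 0 := Finset.sum_eq_zero fun j _ => by
          have hx' : R.π x ∈ ball (R.π p) r := by
            rw [mem_ball, dist_pi_lt_iff hr]
            intro i
            rw [dist_eq_norm]
            exact lt_of_pow_lt_pow_left₀ 2 hr.le ((Finset.single_le_sum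
              (f := fun i => ‖R.π x i - R.π p i‖ ^ 2) (fun _ _ => sq_nonneg _)
              (Finset.mem_univ i)).trans_lt (not_le.1 hx))
          have e : fdb j β (R.π x) = 0 := by
            rw [fdb_congr j (g := fun _ => 1), calc_fdb_const]
            filter_upwards [isOpen_ball.mem_nhds hx'] with y hy using h1 y (ball_subset_closedBall hy)
          rw [RD.db_pull p hβ hs, RD.pull, indicator, e, ite_self, norm_zero, sq, mul_zero]
        rw [hz, zero_mul, zero_mul])
  obtain ⟨g, hg, hgu⟩ := sepa_weyl (H := fun x => R.pull p β x - u x) (fun χ hχ => by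
    have a := (hχ.mul_left hv.1).memLp.sub (hχ.memLp_mul hum (RD.apriori_cont hφ)
      (fun _ => Real.exp_pos _) (hu2.trans_lt ENNReal.ofReal_lt_top))
    simp only [sub_mul]
    exact a) huw
  have hw : ∀ x, R.π x ∈ ball (R.π p) t → (Real.exp n)⁻¹ * (((n + 1) * t ^ 2)⁻¹) ^ (n + 1) ≤
      Real.exp (-(S x + ((n : ℝ) + 1) * Real.log (S x + t ^ 2))) := by
    intro x hx
    have a : S x ≤ n * t ^ 2 := by
      rw [← nsmul_eq_mul]
      refine Finset.sum_le_card_nsmul _ _ _ fun i _ => pow_le_pow_left₀ (norm_nonneg _) ?_ 2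
      rw [← dist_eq_norm]
      exact (dist_le_pi_dist _ _ i).trans (mem_ball.1 hx).le
    have b : t ^ 2 ≤ 1 := pow_le_one₀ ht.le ht1
    have c := h0 x
    rw [hexp]
    gcongr
    · exact a.trans (mul_le_of_le_one_right (Nat.cast_nonneg n) b)
    · linarith only [a]
  have fin : ∀ z : ℂ, (Real.exp n)⁻¹ * (((n + 1) * t ^ 2)⁻¹) ^ (n + 1) *
      (‖z‖ ^ 2 * (Real.pi * t ^ 2) ^ n) ≤ 2 * I → ‖z‖ < 1 / 2 := by
    intro z hz
    have a : ‖z‖ ^ 2 ≤ C * t ^ 2 := by
      have e : (Real.exp n)⁻¹ * (((n + 1) * t ^ 2)⁻¹) ^ (n + 1) * (‖z‖ ^ 2 * (Real.pi * t ^ 2) ^ n) =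
          ‖z‖ ^ 2 / (Real.exp n * ((n : ℝ) + 1) ^ (n + 1) / Real.pi ^ n * t ^ 2) := by
        simp only [mul_pow, inv_pow, pow_succ (t ^ 2) n]
        field_simp
      rw [e, div_le_iff₀ (by positivity)] at hz
      refine hz.trans (le_of_eq ?_)
      simp only [C]
      ring
    refine lt_of_pow_lt_pow_left₀ 2 (by norm_num) (a.trans_lt ?_)
    nlinarith only [ht, ht1, htC]
  have hc0 : 0 ≤ (Real.exp n)⁻¹ * ((((n : ℝ) + 1) * t ^ 2)⁻¹) ^ (n + 1) := by positivity
  have k1 := fin _ (sepa_small hg p ht hc0 (by positivity)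
    ((ball_subset_closedBall.trans (closedBall_subset_closedBall (by linarith only [hr, htr]))).trans hb) 1
    (hgu.mono fun x hx hs hx' => by
      rw [hx, RD.pull, indicator_of_mem hs,
        h1 _ (ball_subset_closedBall (ball_subset_ball htr hx')), sub_sub_cancel]) hw hu2)
  have k2 := fin _ (sepa_small hg q ht hc0 (by positivity)
    (fun y hy => (hb' y (ball_subset_ball htr' hy)).1) 0
    (hgu.mono fun x hx hs hx' => by
      have a := (hb' _ (ball_subset_ball htr' hx')).2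
      rw [R.sec_π q hs] at a
      rw [hx, a, sub_sub_cancel]) (h ▸ hw) hu2)
  refine ⟨g, hg, fun e => ?_⟩
  have a := norm_sub_le (1 - g p) (0 - g q)
  rw [e, sub_sub_sub_cancel_right, sub_zero, norm_one, ← e] at a
  rw [← e] at k2
  linarith only [k1, k2, a]

end Aux

variable {ι X : Type} [Fintype ι] [DecidableEq ι] [TopologicalSpace X] [T2Space X]
  [SecondCountableTopology X]

omit [SecondCountableTopology X] in
/-- Holomorphic functions separate the points of a fibre. -/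
theorem sepa (R : RD ι X) {ρ : X → ℝ} (h : R.Exh ρ) {p p' : X} (hne : p ≠ p')
    (hπ : R.π p = R.π p') : ∃ g : X → ℂ, (∀ y, HolAt R.π g y) ∧ g p ≠ g p' :=
  sepa_gen h hne hπ

end Pool.Agent.MP_bea40e_an.Iv

end

section

open Filter Topology Set Metric Complex
open scoped ContDiff ComplexConjugate

namespace Pool.Agent.MP_bea40e_an.Iv

open MP_c0606f_ag.Klt

theorem exh_inv {ι : Type} [Fintype ι] {f : (ι → ℂ) → ℝ} {x : ι → ℂ} (hf : PshAt f x)
    (h1 : f x < 1) : PshAt (fun t => (1 - f t)⁻¹) x := by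
  have hd : ∀ t : ℝ, t < 1 → HasDerivAt (fun u : ℝ => (1 - u)⁻¹) (((1 - t) ^ 2)⁻¹) t := by
    intro t ht
    have h0 : (1 - t) ≠ 0 := by linarith
    have h2 := ((hasDerivAt_id' t).const_sub 1).inv h0
    rw [neg_neg, one_div] at h2
    exact h2
  have h0 : (1 - f x) ≠ 0 := by linarith
  have hpos : 0 < 1 - f x := by linarith
  have hev : deriv (fun u : ℝ => (1 - u)⁻¹) =ᶠ[𝓝 (f x)] fun t => ((1 - t) ^ 2)⁻¹ := by
    filter_upwards [Iio_mem_nhds h1] with t ht using (hd t ht).deriv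
  refine PshAt.comp (γ := fun u : ℝ => (1 - u)⁻¹) hf ?_ ?_ ?_
  · exact (contDiffAt_const.sub contDiffAt_id).inv h0
  · rw [(hd _ h1).deriv]
    positivity
  · rw [hev.deriv_eq]
    have h2 := (((hasDerivAt_id (f x)).const_sub 1).pow 2).inv (pow_ne_zero 2 h0)
    have h3 : deriv (fun t : ℝ => ((1 - t) ^ 2)⁻¹) (f x) = _ := h2.deriv
    rw [h3]
    simp only [id, Pi.pow_apply]
    apply div_nonneg _ (by positivity)
    norm_num only [pow_one, mul_neg, mul_one, neg_neg, mul_nonneg_iff_of_pos_left, sub_nonneg]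
    linarith only [h1]

theorem exh_sumSq {ι : Type} [Fintype ι] (x : ι → ℂ) :
    ContDiffAt ℝ ∞ (fun t : ι → ℂ => ∑ j, ‖t j‖ ^ 2) x ∧
      ∀ v, Lv (fun t : ι → ℂ => ∑ j, ‖t j‖ ^ 2) x v = ∑ j, ‖v j‖ ^ 2 := by
  have han : ∀ j, AnalyticAt ℂ (fun t : ι → ℂ => t j) x := fun j =>
    (ContinuousLinearMap.proj (R := ℂ) (φ := fun _ : ι => ℂ) j).analyticAt x
  refine ⟨(pshAt_sum Finset.univ fun j _ => pshAt_normSq (han j)).1, fun v => ?_⟩
  unfold Lv
  rw [Lb_sum Finset.univ fun j _ => (pshAt_normSq (han j)).1]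
  refine Finset.sum_congr rfl fun j _ => ?_
  have h1 := Lv_normSq (han j) v
  have h2 : fderiv ℂ (fun t : ι → ℂ => t j) x =
      ContinuousLinearMap.proj (R := ℂ) (φ := fun _ : ι => ℂ) j :=
    (ContinuousLinearMap.proj (R := ℂ) (φ := fun _ : ι => ℂ) j).fderiv
  rw [h2] at h1
  exact h1

theorem exh_sc {ι X : Type} [Fintype ι] [TopologicalSpace X] {π : X → ι → ℂ}
    (hπ : IsLocalHomeomorph π) {ρ : X → ℝ} (h : ∀ s, IsCompact {x | ρ x ≤ s}) :
    SecondCountableTopology X := by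
  choose e he using hπ
  let _ : ChartedSpace (ι → ℂ) X :=
    { atlas := range e
      chartAt := e
      mem_chart_source := fun x => (he x).1
      chart_mem_atlas := fun x => mem_range_self x }
  have : SigmaCompactSpace X := by
    rw [SigmaCompactSpace_iff_exists_compact_covering]
    refine ⟨fun n => {x | ρ x ≤ n}, fun n => h n, ?_⟩
    refine eq_univ_of_forall fun x => ?_
    obtain ⟨n, hn⟩ := exists_nat_ge (ρ x)
    exact mem_iUnion.2 ⟨n, hn⟩
  exact ChartedSpace.secondCountable_of_sigmaCompact (ι → ℂ) X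

/-- separation from a function that is locally plurisubharmonic on a compact set -/
theorem exh_core {ι Y : Type} [Fintype ι] [DecidableEq ι] [TopologicalSpace Y]
    [T2Space Y] {π : Y → ι → ℂ} (hπ : IsLocalHomeomorph π) (ψ : Y → ℝ) (K Qo : Set Y)
    (hK : IsCompact K) (hQo : IsOpen Qo) (hKQ : K ⊆ Qo) (hX : ∀ y ∈ Qo, ψ y < 1 → y ∈ K)
    (hloc : ∀ y ∈ K, ∃ f, PshAt f (π y) ∧ ψ =ᶠ[𝓝 y] fun t => f (π t))
    {p p' : Y} (hne : p ≠ p') (hpp : π p = π p') (hp : p ∈ Qo ∧ ψ p < 1)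
    (hp' : p' ∈ Qo ∧ ψ p' < 1) :
    ∃ g : Y → ℂ, (∀ y ∈ Qo, ψ y < 1 → HolAt π g y) ∧ g p ≠ g p' := by
  classical
  have hc : ∀ y ∈ K, ContinuousAt ψ y := by
    intro y hy
    obtain ⟨f, hf, he⟩ := hloc y hy
    exact (hf.1.continuousAt.comp hπ.continuous.continuousAt).congr he.symm
  set X : Set Y := {y | y ∈ Qo ∧ ψ y < 1} with hXdef
  have hXo : IsOpen X := by
    rw [isOpen_iff_mem_nhds]
    intro y hy
    filter_upwards [hQo.mem_nhds hy.1, (hc y (hX y hy.1 hy.2)).eventually (Iio_mem_nhds hy.2)]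
      with t h1 h2 using ⟨h1, h2⟩
  have hemb := hXo.isOpenEmbedding_subtypeVal
  let R : RD ι X := ⟨fun x => π x.1, hπ.comp hemb.isLocalHomeomorph⟩
  let ρ : X → ℝ := fun x => (1 - ψ x.1)⁻¹ + ∑ j, ‖π x.1 j‖ ^ 2
  have hS : Continuous fun y : Y => ∑ j, ‖π y j‖ ^ 2 :=
    continuous_finsetSum _ fun j _ => (((continuous_apply j).comp hπ.continuous).norm).pow 2
  have hcpt : ∀ s, IsCompact {x | ρ x ≤ s} := by
    intro s
    rw [Subtype.isCompact_iff]
    set S : Set Y := (Subtype.val : X → Y) '' {x | ρ x ≤ s} with hSdef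
    have hSK : S ⊆ K := by
      rintro _ ⟨x, -, rfl⟩
      exact hX _ x.2.1 x.2.2
    refine hK.of_isClosed_subset (isClosed_of_closure_subset fun y hy => ?_) hSK
    have hyK : y ∈ K := closure_minimal hSK hK.isClosed hy
    have hcy := hc y hyK
    have h1 : ψ y ≤ 1 := by
      refine ContinuousWithinAt.closure_le hy hcy.continuousWithinAt continuousWithinAt_const ?_
      rintro _ ⟨x, -, rfl⟩
      exact x.2.2.le
    have h2 : (1 : ℝ) ≤ s * (1 - ψ y) := by
      refine ContinuousWithinAt.closure_le (f := fun _ => (1 : ℝ)) (g := fun t => s * (1 - ψ t))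
        hy continuousWithinAt_const
        (continuousAt_const.mul (continuousAt_const.sub hcy)).continuousWithinAt ?_
      rintro _ ⟨x, hx, rfl⟩
      have hpos : 0 < 1 - ψ x.1 := sub_pos.2 x.2.2
      have h3 : (1 - ψ x.1)⁻¹ ≤ s := by
        have h4 : 0 ≤ ∑ j, ‖π x.1 j‖ ^ 2 := by positivity
        have h5 : (1 - ψ x.1)⁻¹ + ∑ j, ‖π x.1 j‖ ^ 2 ≤ s := hx
        linarith
      calc (1 : ℝ) = (1 - ψ x.1)⁻¹ * (1 - ψ x.1) := (inv_mul_cancel₀ hpos.ne').symm
        _ ≤ s * (1 - ψ x.1) := mul_le_mul_of_nonneg_right h3 hpos.le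
    have h3 : ψ y < 1 := by
      refine lt_of_le_of_ne h1 fun h => ?_
      rw [h] at h2
      norm_num at h2
    refine ⟨⟨y, hKQ hyK, h3⟩, ?_, rfl⟩
    refine ContinuousWithinAt.closure_le (f := fun t => (1 - ψ t)⁻¹ + ∑ j, ‖π t j‖ ^ 2)
      (g := fun _ => s) hy ?_ continuousWithinAt_const ?_
    · exact (((continuousAt_const.sub hcy).inv₀ (sub_pos.2 h3).ne').add
        hS.continuousAt).continuousWithinAt
    · rintro _ ⟨x, hx, rfl⟩
      exact hx
  have hkey : ∀ x : X, ∃ f : (ι → ℂ) → ℝ, ContDiffAt ℝ ∞ f (R.π x) ∧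
      (ρ =ᶠ[𝓝 x] fun t => f (R.π t)) ∧ ∀ v, ∑ j, ‖v j‖ ^ 2 ≤ Lv f (R.π x) v := by
    intro x
    obtain ⟨f, hf, he⟩ := hloc x.1 (hX _ x.2.1 x.2.2)
    have hf1 : f (π x.1) < 1 := by
      rw [← he.eq_of_nhds]
      exact x.2.2
    have hi := exh_inv hf hf1
    have hs := exh_sumSq (π x.1)
    refine ⟨fun t => (1 - f t)⁻¹ + ∑ j, ‖t j‖ ^ 2, hi.1.add hs.1, ?_, fun v => ?_⟩
    · filter_upwards [continuous_subtype_val.continuousAt.eventually he] with t ht
      have ht' : ψ t.1 = f (π t.1) := ht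
      simp only [ρ, R, ht']
    · have h1 := Lb_add hi.1 hs.1 v v
      have h2 := hi.2 v
      have h3 := hs.2 v
      unfold Lv at h2 h3 ⊢
      change _ ≤ Lb (fun t => (1 - f t)⁻¹ + ∑ j, ‖t j‖ ^ 2) (π x.1) v v
      linarith only [h1, h2, h3]
  have hE : R.Exh ρ := by
    refine ⟨fun x => ?_, hcpt, fun x v => ?_⟩
    · obtain ⟨f, h1, h2, -⟩ := hkey x
      exact (levi_eq R h1 h2 0).1
    · obtain ⟨f, h1, h2, h3⟩ := hkey x
      rw [(levi_eq R h1 h2 v).2]
      exact h3 v
  have : SecondCountableTopology X := exh_sc R.loc hcpt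
  obtain ⟨g, hg, hgp⟩ := sepa R hE (p := ⟨p, hp⟩) (p' := ⟨p', hp'⟩)
    (fun h => hne (congrArg Subtype.val h)) hpp
  refine ⟨fun y => if h : y ∈ X then g ⟨y, h⟩ else 0, fun y h1 h2 => ?_, ?_⟩
  · obtain ⟨G, hG, he⟩ := hg ⟨y, h1, h2⟩
    refine ⟨G, hG, ?_⟩
    have hm : map Subtype.val (𝓝 (⟨y, h1, h2⟩ : X)) = 𝓝 y := hemb.map_nhds_eq _
    rw [← hm]
    refine eventually_map.2 ?_
    filter_upwards [he] with t ht
    simp only [t.2, dif_pos]
    exact ht
  · have h1 : p ∈ X := hp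
    have h2 : p' ∈ X := hp'
    simp only [h1, h2, dif_pos]
    exact hgp

/-- From patched conditions to separation. Put `ψ y = ∑ i, (U i).indicator (2 * kap (ρ i (π y)))`,
`K = {y ∈ Q | ∀ i, y ∈ U i → ρ i (π y) ≤ 1}` (compact). Near each point of `K` the function `ψ` is
`ψ' ∘ π` with `PshAt ψ'` (each summand vanishes near the point or the point lies in `U i`).
`X = {y ∈ Qo | ψ y < 1} ⊆ K` is open, second countable (finitely many charts cover `Q`), and
`1 / (1 - ψ) + ∑ j, ‖π y j‖ ^ 2` is an `Exh` on the subtype (`levi_eq`). Apply `sepa`, extend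
`g` by zero. -/
theorem exh_sep {ι Y κ : Type} [Fintype ι] [DecidableEq ι] [Fintype κ] [TopologicalSpace Y]
    [T2Space Y] {π : Y → ι → ℂ} (hπ : IsLocalHomeomorph π) (U F : κ → Set Y)
    (ρ : κ → (ι → ℂ) → ℝ) (Q Qo : Set Y) (hU : ∀ i, IsOpen (U i)) (hF : ∀ i, IsClosed (F i))
    (hUF : ∀ i, U i ⊆ F i) (hQ : IsCompact Q) (hQo : IsOpen Qo) (hQQ : Qo ⊆ Q)
    (hpsh : ∀ i, ∀ y ∈ F i, PshAt (ρ i) (π y))
    (hH : ∀ y ∈ Q, (∀ i, y ∈ U i → ρ i (π y) ≤ 1) →
      y ∈ Qo ∧ ∀ i, y ∈ F i → y ∉ U i → ρ i (π y) < 0)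
    {p p' : Y} (hne : p ≠ p') (hpp : π p = π p')
    (hp : p ∈ Q ∧ ∀ i, p ∈ U i → ρ i (π p) ≤ 0) (hp' : p' ∈ Q ∧ ∀ i, p' ∈ U i → ρ i (π p') ≤ 0) :
    ∃ g : Y → ℂ, (∀ y ∈ Q, (∀ i, y ∈ U i → ρ i (π y) ≤ 0) → HolAt π g y) ∧ g p ≠ g p' := by
  classical
  have hcont : ∀ i, ∀ y ∈ F i, ContinuousAt (fun t => ρ i (π t)) y := fun i y hy =>
    (hpsh i y hy).1.continuousAt.comp hπ.continuous.continuousAt
  let ψ : Y → ℝ := fun y => ∑ i, (U i).indicator (fun t => 2 * kap (ρ i (π t))) y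
  let K : Set Y := {y | y ∈ Q ∧ ∀ i, y ∈ U i → ρ i (π y) ≤ 1}
  have hK : IsCompact K := by
    refine hQ.inter_right (t := {y | ∀ i, y ∈ U i → ρ i (π y) ≤ 1}) ?_
    rw [← isOpen_compl_iff, isOpen_iff_mem_nhds]
    intro y hy
    simp only [mem_compl_iff, mem_ofPred_eq, not_forall, not_le] at hy
    obtain ⟨i, h1, h2⟩ := hy
    filter_upwards [(hU i).mem_nhds h1, (hcont i y (hUF i h1)).eventually (Ioi_mem_nhds h2)]
      with t h3 h4 h5
    exact absurd (h5 i h3) (not_le.2 h4)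
  have hnn : ∀ i y, 0 ≤ (U i).indicator (fun t => 2 * kap (ρ i (π t))) y := fun i y =>
    indicator_nonneg (fun t _ => mul_nonneg zero_le_two (kap_nonneg _)) y
  have hX : ∀ y ∈ Qo, ψ y < 1 → y ∈ K := by
    intro y hy h1
    refine ⟨hQQ hy, fun i hi => ?_⟩
    have h2 : (U i).indicator (fun t => 2 * kap (ρ i (π t))) y ≤ ψ y :=
      Finset.single_le_sum (f := fun i => (U i).indicator (fun t => 2 * kap (ρ i (π t))) y)
        (fun j _ => hnn j y) (Finset.mem_univ i)
    rw [indicator_of_mem hi] at h2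
    have h3 := kap_ge (ρ i (π y))
    linarith
  have hloc : ∀ y ∈ K, ∃ f, PshAt f (π y) ∧ ψ =ᶠ[𝓝 y] fun t => f (π t) := by
    intro y hy
    have h1 : ∀ i, ∃ f, PshAt f (π y) ∧
        ∀ᶠ t in 𝓝 y, (U i).indicator (fun t => 2 * kap (ρ i (π t))) t = f (π t) := by
      intro i
      by_cases hi : y ∈ U i
      · refine ⟨fun x => 2 * kap (ρ i x), ?_, ?_⟩
        · refine PshAt.const_mul (PshAt.comp (hpsh i y (hUF i hi)) kap_contDiff.contDiffAt ?_
            (kap_deriv2_nonneg _)) zero_le_two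
          rw [kap_deriv]
          exact Real.smoothTransition.nonneg _
        · filter_upwards [(hU i).mem_nhds hi] with t ht
          exact indicator_of_mem ht _
      · refine ⟨fun _ => 0, pshAt_const 0, ?_⟩
        by_cases hj : y ∈ F i
        · filter_upwards [(hcont i y hj).eventually (Iio_mem_nhds ((hH y hy.1 hy.2).2 i hj hi))]
            with t ht
          by_cases h2 : t ∈ U i
          · rw [indicator_of_mem h2, kap_zero (le_of_lt ht), mul_zero]
          · exact indicator_of_notMem h2 _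
        · filter_upwards [(hF i).isOpen_compl.mem_nhds hj] with t ht
          exact indicator_of_notMem (fun h2 => ht (hUF i h2)) _
    choose f hf he using h1
    refine ⟨fun x => ∑ i, f i x, pshAt_sum Finset.univ fun i _ => hf i, ?_⟩
    filter_upwards [eventually_all.2 he] with t ht
    exact Finset.sum_congr rfl fun i _ => ht i
  have h0 : ∀ y ∈ Q, (∀ i, y ∈ U i → ρ i (π y) ≤ 0) → y ∈ Qo ∧ ψ y < 1 := by
    intro y hy h1
    refine ⟨(hH y hy fun i hi => (h1 i hi).trans zero_le_one).1, ?_⟩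
    have h2 : ψ y = 0 := by
      refine Finset.sum_eq_zero fun i _ => ?_
      by_cases h2 : y ∈ U i
      · rw [indicator_of_mem h2, kap_zero (h1 i h2), mul_zero]
      · exact indicator_of_notMem h2 _
    rw [h2]
    exact zero_lt_one
  obtain ⟨g, hg, hgp⟩ := exh_core hπ ψ K Qo hK hQo (fun y hy => (hH y hy.1 hy.2).1) hX hloc hne
    hpp (h0 p hp.1 hp.2) (h0 p' hp'.1 hp'.2)
  exact ⟨g, fun y hy h1 => hg y (h0 y hy h1).1 (h0 y hy h1).2, hgp⟩

end Pool.Agent.MP_bea40e_an.Iv

end
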