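import Pool.Agent.MP_bea40e_an.Mg.InfB

attribute [-instance] IdemSemiring.toCanonicallyOrderedAdd AddQuantale.instAddLeftMono
  IdemSemiring.toMulLeftMono IsOrderedMonoid.toMulLeftMono NumberField.to_charZero
  Quantale.instMulLeftMono LinearOrderedCommMonoidWithZero.toPosMulStrictMono Unique.instSubsingleton
  AddQuantale.instAddRightMono MonTypeEquivalenceMon.monMonoid instCoeOTCOfCoeOut
  instCoeHTCTOfCoeTailOfCoeHTC CanonicallyOrderedAdd.toMulLeftMono Quantale.instMulRightMono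
  covariant_swap_mul_of_covariant_mul Group.IsPerfect.subsingleton_of_isMulCommutative
  instCoeHTCOfCoeHeadOfCoeOTC CanonicallyOrderedMul.toMulLeftMono Valued.toUniformSpace
  continuousSub_of_discreteTopology Pi.discreteTopology CStarAlgebra.instOrderClosedTopology
  instCoeTCOfCoe

section

open Filter Topology Set Metric Complex
open scoped ContDiff ComplexConjugate

namespace Pool.Agent.MP_bea40e_an.Iv

/-! Numerical inequalities of the tube system, part 1. Write `R = m ^ 8`, `η = m ^ 4`,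
`τ = m ^ 13`. The relative error between `u ^ p` and `m ^ p` is at most `100 |y| / m ≤ 1000 m ^ 3`,
and `m ≤ 10 ^ (-8)`. -/

variable {μ m c a y : ℝ} {u : ℂ} (h : Fr μ m c a u y)
include h

theorem Fr.m_pos : 0 < m := by
  exact h.mu_pos.trans_le h.mu_le

theorem Fr.m_le : m ≤ 1 / 10 ^ 8 := by
  exact (le_mul_of_one_le_left h.m_pos.le h.one_le).trans h.small

theorem ti1_pow (p q : ℕ) : m ^ (p + q + 1) ≤ m ^ p / 10 ^ 8 := by
  have h1 := h.m_pos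
  have h2 := h.m_le
  have h3 : m ^ q ≤ 1 := pow_le_one₀ h1.le (h2.trans (by norm_num))
  calc m ^ (p + q + 1) = m ^ p * (m ^ q * m) := by ring
    _ ≤ m ^ p * (1 * (1 / 10 ^ 8)) := by gcongr
    _ = _ := by ring

theorem ti1_near : ‖u - m‖ ≤ m / 10 ^ 6 := by
  have h1 := h.u_near
  have h2 := h.y_le
  have h3 : m ^ 4 ≤ m ^ 1 / 10 ^ 8 := ti1_pow h 1 2
  have h4 := h.m_pos
  rw [pow_one] at h3
  linarith

theorem ti1_rel_le : 100 * |y| / m ≤ 1000 * m ^ 3 := by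
  rw [div_le_iff₀ h.m_pos]
  have := h.y_le
  linarith [show m ^ 3 * m = m ^ 4 by ring]

theorem ti1_rel : 100 * |y| / m ≤ 1 / 1000 := by
  have h1 := ti1_rel_le h
  have h2 : m ^ 3 ≤ 1 / 10 ^ 8 := by simpa using ti1_pow h 0 2
  linarith

theorem ti1_pow_near {p : ℕ} (hp : p ≤ 21) :
    ‖u ^ p - (m : ℂ) ^ p‖ ≤ 90 * |y| / m * m ^ p := by
  have hm := h.m_pos
  rcases p with _ | p
  · simp only [pow_zero, sub_self, norm_zero]
    positivity
  have e : ‖(m : ℂ)‖ = m := Complex.norm_of_nonneg hm.le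
  have h1 : ‖u‖ ≤ 1001 / 1000 * m := by
    have := norm_sub_norm_le u m
    have := ti1_near h
    linarith
  have h2 : ‖∑ i ∈ Finset.range (p + 1), u ^ i * (m : ℂ) ^ (p + 1 - 1 - i)‖ ≤
      21 * (1001 / 1000) ^ 20 * m ^ p := by
    refine (norm_sum_le _ _).trans ((Finset.sum_le_card_nsmul _ _
      ((1001 / 1000) ^ 20 * m ^ p) fun i hi => ?_).trans ?_)
    · have hi' := Finset.mem_range.1 hi
      rw [norm_mul, norm_pow, norm_pow, e]
      calc _ ≤ (1001 / 1000 * m) ^ i * m ^ (p + 1 - 1 - i) := by gcongr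
        _ = (1001 / 1000) ^ i * m ^ p := by
          rw [mul_pow, mul_assoc, ← pow_add, show i + (p + 1 - 1 - i) = p by omega]
        _ ≤ _ := mul_le_mul_of_nonneg_right (pow_le_pow_right₀ (by norm_num) (by omega))
          (by positivity)
    · rw [Finset.card_range, nsmul_eq_mul, mul_assoc]
      exact mul_le_mul_of_nonneg_right (by exact_mod_cast hp) (by positivity)
  rw [← (Commute.all u (m : ℂ)).geom_sum₂_mul, norm_mul]
  calc _ ≤ 21 * (1001 / 1000) ^ 20 * m ^ p * (4 * |y|) := by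
        gcongr
        exact h.u_near
    _ = 84 * (1001 / 1000) ^ 20 * (|y| * m ^ p) := by ring
    _ ≤ 90 * (|y| * m ^ p) := mul_le_mul_of_nonneg_right (by norm_num) (by positivity)
    _ = _ := by
        field_simp
        ring

theorem Fr.u_ne : u ≠ 0 := by
  intro e
  have h1 := ti1_near h
  have h2 := h.m_pos
  rw [e, zero_sub, norm_neg, Complex.norm_of_nonneg h2.le] at h1
  linarith

theorem Fr.sqrt_le : √a ≤ 1 / 200 := by
  exact Real.sqrt_le_iff.2 ⟨by norm_num, h.a_le.trans (by norm_num)⟩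

theorem Fr.pow_near {p : ℕ} (hp : p ≤ 21) : ‖u ^ p - (m : ℂ) ^ p‖ ≤ 100 * |y| / m * m ^ p := by
  exact (ti1_pow_near h hp).trans (mul_le_mul_of_nonneg_right (div_le_div_of_nonneg_right
    (by linarith only [abs_nonneg y]) h.m_pos.le) (pow_pos h.m_pos p).le)

theorem Fr.inv_pow_near {p : ℕ} (hp : p ≤ 21) :
    ‖(u ^ p)⁻¹ - ((m : ℂ) ^ p)⁻¹‖ ≤ 100 * |y| / m * (m ^ p)⁻¹ := by
  have hm := h.m_pos
  have hp0 := pow_pos hm p
  have h1 := ti1_pow_near h hp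
  have h2 := ti1_rel h
  have h3 := norm_sub_norm_le ((m : ℂ) ^ p) (u ^ p)
  have e : ‖(m : ℂ) ^ p‖ = m ^ p := by rw [norm_pow, Complex.norm_of_nonneg hm.le]
  rw [norm_sub_rev, e] at h3
  have h4 := mul_le_mul_of_nonneg_right h2 hp0.le
  have h5 : 9 / 10 * m ^ p ≤ ‖u ^ p‖ := by
    have : 90 * |y| / m * m ^ p = 9 / 10 * (100 * |y| / m * m ^ p) := by ring
    linarith
  have m0 : (m : ℂ) ^ p ≠ 0 := pow_ne_zero _ (ofReal_ne_zero.2 hm.ne')
  rw [inv_sub_inv (pow_ne_zero _ h.u_ne) m0, norm_div, norm_mul, e, norm_sub_rev]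
  calc _ ≤ 90 * |y| / m * m ^ p / (9 / 10 * m ^ p * m ^ p) := by gcongr
    _ = _ := by
      field_simp
      ring

theorem Fr.rel_le : 100 * |y| / m ≤ 1000 * m ^ 3 := by
  exact ti1_rel_le h

theorem ti1_close {p : ℕ} (hp : p ≤ 21) : ‖u ^ p - (m : ℂ) ^ p‖ ≤ 1 / 1000 * m ^ p :=
  (h.pow_near hp).trans (mul_le_mul_of_nonneg_right (ti1_rel h) (pow_pos h.m_pos p).le)

theorem Fr.norm_pow_le {p : ℕ} (hp : p ≤ 21) : ‖u ^ p‖ ≤ 1001 / 1000 * m ^ p := by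
  have h1 := ti1_close h hp
  have h3 := norm_sub_norm_le (u ^ p) ((m : ℂ) ^ p)
  rw [norm_pow (m : ℂ), Complex.norm_of_nonneg h.m_pos.le] at h3
  linarith only [h1, h3]

theorem Fr.le_re_pow {p : ℕ} (hp : p ≤ 21) : 999 / 1000 * m ^ p ≤ (u ^ p).re := by
  have h1 := (abs_le.1 ((abs_re_le_norm _).trans (ti1_close h hp))).1
  rw [sub_re, ← ofReal_pow, ofReal_re] at h1
  linarith

theorem ti1_le {t : ℝ} {p : ℕ} (hc : t / μ ^ p ≤ 1 / 100) : t ≤ 1 / 100 * m ^ p := by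
  rw [div_le_iff₀ (pow_pos h.mu_pos p)] at hc
  have := pow_le_pow_left₀ h.mu_pos.le h.mu_le p
  linarith

theorem ti1_neg {t : ℝ} {p : ℕ} (hc : t ≤ -1 / 100 * m ^ p) : t / μ ^ p ≤ -1 / 100 := by
  rw [div_le_iff₀ (pow_pos h.mu_pos p)]
  have := pow_le_pow_left₀ h.mu_pos.le h.mu_le p
  linarith

omit h in
theorem ti1_ten : (10 * u ^ 8).re = 10 * (u ^ 8).re := by simp

omit h in
theorem ti1_five : (5 * u ^ 4).re = 5 * (u ^ 4).re := by simp

theorem ti1_sq {Z : ℂ} (hZ : ‖Z‖ ≤ 4 * m ^ 13) : |(Z ^ 2 / (8 * u ^ 21)).re| ≤ 1 / 100 := by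
  have hm := pow_pos h.m_pos 21
  have h1 := (h.le_re_pow (p := 21) (by norm_num)).trans (re_le_norm _)
  have h2 : m ^ 26 ≤ m ^ 21 / 10 ^ 8 := ti1_pow h 21 4
  have h3 : ‖Z‖ ^ 2 ≤ (4 * m ^ 13) ^ 2 := by gcongr
  refine (abs_re_le_norm _).trans ?_
  rw [norm_div, norm_mul, norm_pow, Complex.norm_ofNat, div_le_iff₀ (by linarith only [hm, h1])]
  rw [show (4 * m ^ 13) ^ 2 = 16 * m ^ 26 by ring] at h3
  linarith

theorem ti1_cT {z Z : ℂ} (h0 : 2 * u ^ 13 - Z ≠ 0) (hc : cT μ u z Z ≤ 1 / 100) :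
    ‖z‖ ≤ (1 + 26 / 10 * m ^ 4) * ‖2 * u ^ 13 - Z‖ := by
  have h1 := (re_le_norm _).trans (h.norm_pow_le (p := 4) (by norm_num))
  have h2 := ti1_le h hc
  have h3 := pow_pos h.m_pos 4
  rw [ti1_five] at h2
  rw [← div_le_iff₀ (norm_pos_iff.2 h0), ← norm_div]
  exact (abs_le_of_sq_le_sq' (by nlinarith) (by positivity)).2

theorem ti1_low {Z : ℂ} (hZ : ‖Z‖ ≤ m ^ 13 / 5) : 17 / 10 * m ^ 13 ≤ ‖2 * u ^ 13 - Z‖ := by
  have hm := pow_pos h.m_pos 13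
  have h1 := (h.le_re_pow (p := 13) (by norm_num)).trans (re_le_norm _)
  have h2 := norm_sub_norm_le (2 * u ^ 13) Z
  rw [norm_mul, Complex.norm_two] at h2
  linarith

theorem Fr.of_cF {Φ : ℝ} (hc : cF μ u Φ ≤ 1 / 100) : Φ ≤ 101 / 10 * m ^ 8 := by
  have h1 := (re_le_norm _).trans (h.norm_pow_le (p := 8) (by norm_num))
  have h2 := ti1_le h hc
  have h3 := pow_pos h.m_pos 8
  rw [ti1_ten] at h2
  linarith

theorem Fr.of_cS {q : ℝ} (hc : cS μ u q ≤ 1 / 100) : q - 1 ≤ 51 / 10 * m ^ 4 := by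
  have h1 := (re_le_norm _).trans (h.norm_pow_le (p := 4) (by norm_num))
  have h2 := ti1_le h hc
  have h3 := pow_pos h.m_pos 4
  rw [ti1_five] at h2
  linarith

theorem Fr.of_cP {Z : ℂ} (hc : cP u Z ≤ 1 / 100) : m ^ 13 < ‖2 * u ^ 13 - Z‖ := by
  by_contra hn
  rw [not_lt] at hn
  have hm := pow_pos h.m_pos 13
  have h1 := h.norm_pow_le (p := 13) (by norm_num)
  have h2 := norm_sub_norm_le Z (2 * u ^ 13)
  rw [norm_sub_rev, norm_mul, Complex.norm_two] at h2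
  have h3 := (abs_le.1 (ti1_sq h (Z := Z) (by linarith only [hn, hm, h1, h2]))).1
  have h4 : ‖(2 * u ^ 13 - Z) / u ^ 13‖ ≤ 1002 / 1000 := by
    have := (h.le_re_pow (p := 13) (by norm_num)).trans (re_le_norm _)
    rw [norm_div, div_le_iff₀ (by linarith only [hm, this])]
    linarith only [hn, hm, this]
  have hu := h.u_ne
  have e : (Z + Z ^ 2 / (8 * u ^ 8)) / u ^ 13 =
      2 - (2 * u ^ 13 - Z) / u ^ 13 + Z ^ 2 / (8 * u ^ 21) := by
    field_simp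
    ring
  have h5 := (re_le_norm _).trans h4
  rw [cP, e, add_re, sub_re, show (2 : ℂ).re = 2 by simp] at hc
  linarith only [hc, h3, h5]

theorem Fr.of_cT {s z : ℂ} (h0 : 2 * u ^ 13 - s * z ≠ 0) (hc : cT μ u z (s * z) ≤ 1 / 100)
    (hz : 9 / 10 * m ^ 8 ≤ ‖z‖) : 1 - 11 * m ^ 4 < ‖s‖ ^ 2 := by
  have hm := h.m_pos
  have h4 := pow_pos hm 4
  have hη : m ^ 4 ≤ 1 / 10 ^ 8 := by simpa using ti1_pow h 0 3
  have h1 := ti1_cT h h0 hc
  have h2 := h.norm_pow_le (p := 13) (by norm_num)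
  have h3 := norm_sub_le (2 * u ^ 13) (s * z)
  rw [norm_mul, norm_mul, Complex.norm_two] at h3
  have h5 : m ^ 13 ≤ m ^ 12 / 10 ^ 8 := ti1_pow h 12 0
  have h6 : m ^ 4 * (9 / 10 * m ^ 8) ≤ m ^ 4 * ‖z‖ := by gcongr
  have z0 : 0 < ‖z‖ := lt_of_lt_of_le (by positivity) hz
  have h7 : ‖2 * u ^ 13 - s * z‖ ≤ (‖s‖ + m ^ 4 / 10) * ‖z‖ := by
    have e : m ^ 4 * (9 / 10 * m ^ 8) = 9 / 10 * m ^ 12 := by ring
    have := pow_pos hm 12
    linarith only [h2, h3, h5, h6, this]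
  have h8 : 1 ≤ (1 + 26 / 10 * m ^ 4) * (‖s‖ + m ^ 4 / 10) := by
    refine le_of_mul_le_mul_right ?_ z0
    calc 1 * ‖z‖ ≤ (1 + 26 / 10 * m ^ 4) * ((‖s‖ + m ^ 4 / 10) * ‖z‖) := by
          rw [one_mul]
          exact h1.trans (by gcongr)
      _ = _ := by ring
  have h9 : 1 - 3 * m ^ 4 ≤ ‖s‖ := by
    by_contra hn
    rw [not_le] at hn
    nlinarith only [h4, h8, hn]
  calc 1 - 11 * m ^ 4 < (1 - 3 * m ^ 4) ^ 2 := by nlinarith only [h4]
    _ ≤ _ := by gcongr; linarith only [h4, hη]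

theorem Fr.of_cT_edge {s z : ℂ} (h0 : 2 * u ^ 13 - s * z ≠ 0) (hc : cT μ u z (s * z) ≤ 1 / 100)
    (hs : ‖s‖ ^ 2 ≤ 1 - 12 * m ^ 4) : ‖s * z‖ ≤ (1 - 3 * m ^ 4) * ‖2 * u ^ 13 - s * z‖ := by
  have h4 := pow_pos h.m_pos 4
  have hη : m ^ 4 ≤ 1 / 10 ^ 8 := by simpa using ti1_pow h 0 3
  have h1 := ti1_cT h h0 hc
  have h2 : ‖s‖ ≤ 1 - 6 * m ^ 4 := (abs_le_of_sq_le_sq' (by nlinarith only [hs, h4]) (by linarith only [h4, hη])).2
  rw [norm_mul]
  calc _ ≤ (1 - 6 * m ^ 4) * ((1 + 26 / 10 * m ^ 4) * ‖2 * u ^ 13 - s * z‖) := by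
        gcongr
        linarith only [h4, hη]
    _ = (1 - 6 * m ^ 4) * (1 + 26 / 10 * m ^ 4) * ‖2 * u ^ 13 - s * z‖ := by ring
    _ ≤ _ := by
        gcongr
        nlinarith only [h4]

theorem Fr.of_small {Z : ℂ} (hZ : ‖Z‖ ≤ m ^ 13 / 5) :
    m ^ 13 < ‖2 * u ^ 13 - Z‖ ∧ ‖Z‖ ≤ (1 - 3 * m ^ 4) * ‖2 * u ^ 13 - Z‖ := by
  have hm := pow_pos h.m_pos 13
  have hη : m ^ 4 ≤ 1 / 10 ^ 8 := by simpa using ti1_pow h 0 3
  have h1 := ti1_low h hZ
  refine ⟨by linarith only [hm, h1], ?_⟩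
  calc ‖Z‖ ≤ 1 / 2 * m ^ 13 := by linarith only [hZ, hm]
    _ ≤ _ := by gcongr <;> linarith only [hη, hm, h1]

theorem Fr.of_cX {Y q : ℝ} (h1 : cX μ a u Y q ≤ 1 / 100) (h2 : cX μ a u (-Y) q ≤ 1 / 100)
    (hq : 1 - 12 * m ^ 4 ≤ q) : |Y| * √a ≤ 6 * m ^ 4 := by
  have h3 := (re_le_norm _).trans (h.norm_pow_le (p := 4) (by norm_num))
  have h4 := pow_pos h.m_pos 4
  have h5 := ti1_le h h1
  have h6 := ti1_le h h2
  rw [ti1_five] at h5 h6
  have h7 := mul_le_mul_of_nonneg_right hq (Real.sqrt_nonneg a)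
  have h8 := mul_le_mul_of_nonneg_left h.sqrt_le h4.le
  rcases abs_cases Y with e | e <;> rw [e.1] <;> linarith only [h3, h4, h5, h7, h8, h6]

theorem Fr.cF_neg {Φ : ℝ} (hΦ : Φ ≤ 9 * m ^ 8) : cF μ u Φ ≤ -1 / 100 := by
  have h1 := h.le_re_pow (p := 8) (by norm_num)
  have h3 := pow_pos h.m_pos 8
  refine ti1_neg h ?_
  rw [ti1_ten]
  linarith

theorem Fr.cS_neg {q : ℝ} (hq : q - 1 ≤ 4 * m ^ 4) : cS μ u q ≤ -1 / 100 := by
  have h1 := h.le_re_pow (p := 4) (by norm_num)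
  have h3 := pow_pos h.m_pos 4
  refine ti1_neg h ?_
  rw [ti1_five]
  linarith

theorem Fr.cX_neg {Y q : ℝ} (hY : (Y + 10 * (q - 1)) * √a ≤ 4 * m ^ 4) :
    cX μ a u Y q ≤ -1 / 100 := by
  have h1 := h.le_re_pow (p := 4) (by norm_num)
  have h3 := pow_pos h.m_pos 4
  refine ti1_neg h ?_
  rw [ti1_five]
  linarith

theorem Fr.cP_small {Z : ℂ} (hZ : ‖Z‖ ≤ m ^ 13 / 5) : cP u Z ≤ -1 / 100 := by
  have hm := pow_pos h.m_pos 13
  have h3 := (abs_le.1 (ti1_sq h (Z := Z) (by linarith))).2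
  have h4 : ‖Z / u ^ 13‖ ≤ 1 / 4 := by
    have := (h.le_re_pow (p := 13) (by norm_num)).trans (re_le_norm _)
    rw [norm_div, div_le_iff₀ (by linarith only [hm, this])]
    linarith
  have hu := h.u_ne
  have e : (Z + Z ^ 2 / (8 * u ^ 8)) / u ^ 13 = Z / u ^ 13 + Z ^ 2 / (8 * u ^ 21) := by
    field_simp
  have h5 := (re_le_norm _).trans h4
  rw [cP, e, add_re]
  linarith only [h3, h5]

theorem Fr.cT_small {s z : ℂ} (hs : ‖s‖ ≤ 2) (hz : ‖z‖ ≤ m ^ 13 / 10) :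
    cT μ u z (s * z) ≤ -1 / 100 := by
  have hm := pow_pos h.m_pos 13
  have h4 := pow_pos h.m_pos 4
  have hη : m ^ 4 ≤ 1 / 10 ^ 8 := by simpa using ti1_pow h 0 3
  have h1 := ti1_low h (Z := s * z) (by
    rw [norm_mul]
    calc _ ≤ 2 * (m ^ 13 / 10) := by gcongr
      _ = _ := by ring)
  have h2 : ‖z / (2 * u ^ 13 - s * z)‖ ≤ 1 / 2 := by
    rw [norm_div, div_le_iff₀ (by linarith only [hm, h1])]
    linarith only [hz, hm, h1]
  have h3 : ‖z / (2 * u ^ 13 - s * z)‖ ^ 2 ≤ (1 / 2) ^ 2 := by gcongr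
  have h5 := h.le_re_pow (p := 4) (by norm_num)
  refine ti1_neg h ?_
  rw [ti1_five]
  linarith only [h4, h3, h5]

end Pool.Agent.MP_bea40e_an.Iv

end

section

open Filter Topology Set Metric Complex
open scoped ContDiff ComplexConjugate

namespace Pool.Agent.MP_bea40e_an.Iv

/-! Numerical inequalities of the tube system, part 2: the condition `cA`. -/

variable {μ m c a y : ℝ} {u : ℂ} (h : Fr μ m c a u y)
include h

omit h in
theorem ti2_form (Z : ℂ) (r : ℝ) : cA μ c u Z r = (r - c * ((2 * u ^ 17 / (2 * u ^ 13 - Z)).re -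
    30 * (u * Z + Z ^ 2 / (8 * u ^ 7)).re + (u ^ 9).re)) / (c * μ ^ 9) := by
  have e1 : 2 * (c : ℂ) * u ^ 17 / (2 * u ^ 13 - Z) = c * (2 * u ^ 17 / (2 * u ^ 13 - Z)) := by ring
  have e2 : 30 * (c : ℂ) = ((30 * c : ℝ) : ℂ) := by push_cast; ring
  rw [cA, e1, e2, re_ofReal_mul, re_ofReal_mul, re_ofReal_mul]
  ring

theorem ti2_pow (p q : ℕ) : m ^ (p + q + 1) ≤ m ^ p / 10 ^ 8 := by
  have h1 := h.m_pos
  have h2 := h.m_le
  have h3 : m ^ q ≤ 1 := pow_le_one₀ h1.le (h2.trans (by norm_num))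
  calc m ^ (p + q + 1) = m ^ p * (m ^ q * m) := by ring
    _ ≤ m ^ p * (1 * (1 / 10 ^ 8)) := by gcongr
    _ = _ := by ring

theorem ti2_rel : 100 * |y| / m ≤ 1 / 10 ^ 5 := by
  have h1 := h.rel_le
  have h2 := ti2_pow h 0 2
  norm_num only [pow_zero, one_div, ge_iff_le] at h2 ⊢
  linarith

theorem ti2_le {t r : ℝ} (hc : (r - c * t) / (c * μ ^ 9) ≤ 1 / 100) {k : ℝ} (ht : t ≤ k * m ^ 9) :
    r ≤ (k + 1 / 100) * (c * m ^ 9) := by
  have h1 := h.mu_pos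
  have h2 : 0 < c := zero_lt_one.trans_le h.one_le
  rw [div_le_iff₀ (by positivity)] at hc
  have h3 : c * μ ^ 9 ≤ c * m ^ 9 := by gcongr; exact h.mu_le
  have h4 := mul_le_mul_of_nonneg_left ht h2.le
  linarith

theorem ti2_neg {t : ℝ} (ht : t ≤ -1 / 100 * (c * m ^ 9)) : t / (c * μ ^ 9) ≤ -1 / 100 := by
  have h1 := h.mu_pos
  have h2 : 0 < c := zero_lt_one.trans_le h.one_le
  rw [div_le_iff₀ (by positivity)]
  have h3 : c * μ ^ 9 ≤ c * m ^ 9 := by gcongr; exact h.mu_le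
  linarith

theorem ti2_t1 {Z : ℂ} (h1 : 88 / 100 * m ^ 8 ≤ ‖Z‖) :
    |(2 * u ^ 17 / (2 * u ^ 13 - Z)).re| ≤ 231 / 100 * m ^ 9 := by
  have hm := h.m_pos
  have h2 := h.norm_pow_le (p := 13) (by norm_num)
  have h3 := h.norm_pow_le (p := 17) (by norm_num)
  have h4 : m ^ 13 ≤ m ^ 8 / 10 ^ 8 := ti2_pow h 8 4
  have h5 := norm_sub_norm_le Z (2 * u ^ 13)
  rw [norm_sub_rev, norm_mul, Complex.norm_two] at h5
  have h8 : 0 < m ^ 8 := by positivity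
  have h6 : 87 / 100 * m ^ 8 ≤ ‖2 * u ^ 13 - Z‖ := by linarith
  refine (abs_re_le_norm _).trans ?_
  rw [norm_div, norm_mul, Complex.norm_two, div_le_iff₀ (lt_of_lt_of_le (by positivity) h6)]
  have h7 : 0 < m ^ 17 := by positivity
  calc _ ≤ 231 / 100 * m ^ 9 * (87 / 100 * m ^ 8) := by
        rw [show 231 / 100 * m ^ 9 * (87 / 100 * m ^ 8) = 20097 / 10000 * m ^ 17 by ring]
        linarith only [h3, h7]
    _ ≤ _ := by gcongr

theorem ti2_t2 {Z : ℂ} {k : ℝ} (h2 : ‖Z‖ ≤ k * m ^ 8) :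
    |(u * Z + Z ^ 2 / (8 * u ^ 7)).re| ≤ (1001 / 1000 * k + k ^ 2 / (79 / 10)) * m ^ 9 := by
  have hm := h.m_pos
  have h3 := h.norm_pow_le (p := 1) (by norm_num)
  have h4 := (h.le_re_pow (p := 7) (by norm_num)).trans (re_le_norm _)
  have h7 : 0 < m ^ 7 := by positivity
  rw [pow_one, pow_one] at h3
  refine (abs_re_le_norm _).trans ((norm_add_le _ _).trans ?_)
  rw [norm_mul, norm_div, norm_pow, norm_mul, Complex.norm_ofNat]
  calc _ ≤ 1001 / 1000 * m * (k * m ^ 8) + (k * m ^ 8) ^ 2 / (79 / 10 * m ^ 7) := by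
        gcongr ?_ + ?_
        · gcongr
        · gcongr ?_ ^ 2 / ?_
          linarith only [h4, h7]
    _ = _ := by field_simp

theorem ti2_cA {Z : ℂ} {r k : ℝ} (hc : cA μ c u Z r ≤ 1 / 100) (h1 : 88 / 100 * m ^ 8 ≤ ‖Z‖)
    (h2 : ‖Z‖ ≤ k * m ^ 8) :
    r ≤ (34 / 10 + 30 * (1001 / 1000 * k + k ^ 2 / (79 / 10)) + 1 / 100) * (c * m ^ 9) := by
  rw [ti2_form] at hc
  refine ti2_le h hc ?_
  have h3 := abs_le.1 (ti2_t1 h h1)
  have h4 := abs_le.1 (ti2_t2 h h2)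
  have h5 := (re_le_norm _).trans (h.norm_pow_le (p := 9) (by norm_num))
  have h6 := pow_pos h.m_pos 9
  linarith only [h3.2, h4.1, h5, h6]

theorem ti2_cm : 0 < c * m ^ 9 := mul_pos (zero_lt_one.trans_le h.one_le) (pow_pos h.m_pos 9)

omit h in
theorem ti2_quad {R x n : ℝ} (hR : 0 < R) (h1 : x ≤ R / 1000) (h2 : x ^ 2 ≤ n)
    (h3 : 15 * R ^ 2 ≤ n) (h4 : n ≤ 17 * R ^ 2) : x + (2 * x ^ 2 - n) / (8 * R) ≤ -(18 / 10 * R) := by
  rw [← le_sub_iff_add_le', div_le_iff₀ (by positivity)]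
  rcases le_total x (-(4 * R)) with h5 | h5
  · have h6 : -(413 / 100 * R) ≤ x := (abs_le_of_sq_le_sq' (by nlinarith only [h2, h4]) (by positivity)).1
    nlinarith only [hR, h2, h4, h5]
  · nlinarith only [h1, h3, h5]

omit h in
theorem ti2_re {A B : ℂ} {a' b' e : ℝ} (Z : ℂ) (hA : ‖A - (a' : ℂ)‖ ≤ e * a')
    (hB : ‖B - (b' : ℂ)‖ ≤ e * b') : (A * Z + Z ^ 2 / 8 * B).re ≤
      a' * Z.re + (2 * Z.re ^ 2 - ‖Z‖ ^ 2) / 8 * b' + e * (a' * ‖Z‖ + ‖Z‖ ^ 2 / 8 * b') := by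
  have e1 : A * Z + Z ^ 2 / 8 * B = (a' : ℂ) * Z + ((b' / 8 : ℝ) : ℂ) * Z ^ 2 +
      ((A - a') * Z + Z ^ 2 / 8 * (B - b')) := by
    push_cast
    ring
  have e2 : (Z ^ 2).re = 2 * Z.re ^ 2 - ‖Z‖ ^ 2 := by
    rw [Complex.sq_norm, normSq_apply, sq Z, mul_re]
    ring
  have h1 := (re_le_norm _).trans (norm_add_le ((A - a') * Z) (Z ^ 2 / 8 * (B - b')))
  rw [norm_mul, norm_mul, norm_div, norm_pow, Complex.norm_ofNat] at h1
  have h2 := mul_le_mul_of_nonneg_right hA (norm_nonneg Z)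
  have h3 := mul_le_mul_of_nonneg_left hB (show 0 ≤ ‖Z‖ ^ 2 / 8 by positivity)
  rw [e1, add_re, add_re, re_ofReal_mul, re_ofReal_mul, e2]
  linarith

theorem ti2_f {A B Z : ℂ} {a' : ℝ} (ha : 0 < a') (hA : ‖A - (a' : ℂ)‖ ≤ 100 * |y| / m * a')
    (hB : ‖B - ((a' / m ^ 8 : ℝ) : ℂ)‖ ≤ 100 * |y| / m * (a' / m ^ 8))
    (h1 : Z.re ≤ m ^ 8 / 1000) (h3 : 15 * (m ^ 8) ^ 2 ≤ ‖Z‖ ^ 2) (h4 : ‖Z‖ ^ 2 ≤ 17 * (m ^ 8) ^ 2) :
    (A * Z + Z ^ 2 / 8 * B).re ≤ -(179 / 100 * (a' * m ^ 8)) := by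
  have hR := pow_pos h.m_pos 8
  have h5 := ti2_quad hR h1 (by rw [← sq_abs]; gcongr; exact abs_re_le_norm Z) h3 h4
  have h6 : ‖Z‖ ≤ 5 * m ^ 8 := (abs_le_of_sq_le_sq' (by nlinarith only [h4]) (by positivity)).2
  have h7 : 100 * |y| / m * (a' * ‖Z‖ + ‖Z‖ ^ 2 / 8 * (a' / m ^ 8)) ≤
      1 / 10 ^ 5 * (a' * (5 * m ^ 8) + 17 * (m ^ 8) ^ 2 / 8 * (a' / m ^ 8)) := by
    gcongr ?_ * (a' * ?_ + ?_ / 8 * (a' / m ^ 8))
    exact ti2_rel h
  have e : 17 * (m ^ 8) ^ 2 / 8 * (a' / m ^ 8) = 17 / 8 * (a' * m ^ 8) := by field_simp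
  have e' : (2 * Z.re ^ 2 - ‖Z‖ ^ 2) / 8 * (a' / m ^ 8) =
      a' * ((2 * Z.re ^ 2 - ‖Z‖ ^ 2) / (8 * m ^ 8)) := by field_simp
  have h8 := ti2_re Z hA hB
  have h9 := mul_le_mul_of_nonneg_left h5 ha.le
  have h10 := mul_pos ha hR
  rw [e] at h7
  rw [e'] at h8
  linarith only [h7, h8, h9, h10]

/-- here `‖2 u ^ 13 - Z‖ ≥ 0.87 R`; bound each term by its norm -/
theorem Fr.of_cA {Z : ℂ} {r : ℝ} (hc : cA μ c u Z r ≤ 1 / 100) (h1 : 88 / 100 * m ^ 8 ≤ ‖Z‖)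
    (h2 : ‖Z‖ ≤ 411 / 100 * m ^ 8) : r ≤ 194 * (c * m ^ 9) := by
  exact (ti2_cA h hc h1 h2).trans (mul_le_mul_of_nonneg_right (by norm_num) (ti2_cm h).le)

theorem Fr.of_cA' {Z : ℂ} {r : ℝ} (hc : cA μ c u Z r ≤ 1 / 100) (h1 : 88 / 100 * m ^ 8 ≤ ‖Z‖)
    (h2 : ‖Z‖ ≤ 102 / 100 * m ^ 8) : r ≤ 39 * (c * m ^ 9) := by
  exact (ti2_cA h hc h1 h2).trans (mul_le_mul_of_nonneg_right (by norm_num) (ti2_cm h).le)

/-- With `M = Z / (2 u ^ 13 - Z)`: `1 + M = 2 u ^ 13 / (2 u ^ 13 - Z)`, `re (1 + M) ≥ 3 η`,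
`‖1 + M‖ ^ 2 ≤ 2 re (1 + M)`, so `‖1 + M‖ ≤ re (1 + M) / m ^ 2` and
`re (c u ^ 4 (1 + M)) ≥ 2.9 c R`. -/
theorem Fr.cA_edge {Z : ℂ} {r : ℝ} (h0 : 2 * u ^ 13 - Z ≠ 0)
    (hM : ‖Z‖ ≤ (1 - 3 * m ^ 4) * ‖2 * u ^ 13 - Z‖) (hZ : ‖Z‖ ≤ 6 * m ^ 8) (hr : r ≤ c * m ^ 8) :
    cA μ c u Z r ≤ -1 / 100 := by
  have hm := h.m_pos
  have h4 := pow_pos hm 4
  have hc : 0 < c := zero_lt_one.trans_le h.one_le
  set M := Z / (2 * u ^ 13 - Z) with hM'
  have h1 : ‖M‖ ≤ 1 - 3 * m ^ 4 := by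
    rw [hM', norm_div, div_le_iff₀ (norm_pos_iff.2 h0)]
    exact hM
  have e : 2 * u ^ 17 / (2 * u ^ 13 - Z) =
      ((m ^ 4 : ℝ) : ℂ) * (1 + M) + (u ^ 4 - (m : ℂ) ^ 4) * (1 + M) := by
    rw [hM']
    push_cast
    field_simp
    ring
  have h2 : 3 * m ^ 4 ≤ (1 + M).re := by
    have := (abs_le.1 (abs_re_le_norm M)).1
    rw [add_re, one_re]
    linarith only [h1, this]
  have h3 : ‖1 + M‖ ^ 2 ≤ 2 * (1 + M).re := by
    have h5 : ‖M‖ ^ 2 ≤ 1 := pow_le_one₀ (norm_nonneg _) (by linarith only [h4, h1])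
    rw [Complex.sq_norm, normSq_apply] at h5 ⊢
    simp only [add_re, one_re, add_im, one_im, zero_add]
    linarith only [h5]
  have h5 : m ^ 2 * ‖1 + M‖ ≤ (1 + M).re := (abs_le_of_sq_le_sq' (by
    calc (m ^ 2 * ‖1 + M‖) ^ 2 = m ^ 4 * ‖1 + M‖ ^ 2 := by ring
      _ ≤ m ^ 4 * (2 * (1 + M).re) := by gcongr
      _ ≤ _ := by nlinarith only [h4, h2]) (by linarith only [h4, h2])).2
  have h6 : ‖(u ^ 4 - (m : ℂ) ^ 4) * (1 + M)‖ ≤ 1 / 10 ^ 5 * (m ^ 4 * (1 + M).re) := by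
    rw [norm_mul]
    calc _ ≤ 1000 * m ^ 3 * m ^ 4 * ‖1 + M‖ := by
          gcongr
          exact (h.pow_near (by norm_num)).trans (mul_le_mul_of_nonneg_right h.rel_le h4.le)
      _ = 1000 * m * (m ^ 4 * (m ^ 2 * ‖1 + M‖)) := by ring
      _ ≤ 1000 * (1 / 10 ^ 8) * (m ^ 4 * (1 + M).re) := by
          gcongr
          exact h.m_le
      _ = _ := by ring
  have h7 : 3 * m ^ 8 ≤ m ^ 4 * (1 + M).re := by
    rw [show 3 * m ^ 8 = m ^ 4 * (3 * m ^ 4) by ring]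
    gcongr
  have h8 := (abs_le.1 ((abs_re_le_norm _).trans h6)).1
  have h9 := (abs_le.1 (ti2_t2 h hZ)).2
  have h10 := h.le_re_pow (p := 9) (by norm_num)
  have h11 : m ^ 9 ≤ m ^ 8 / 10 ^ 8 := ti2_pow h 8 0
  have h12 := pow_pos hm 9
  rw [ti2_form]
  refine ti2_neg h ?_
  rw [e, add_re, re_ofReal_mul]
  have h13 : m ^ 8 + 1 / 100 * m ^ 9 ≤ m ^ 4 * (1 + M).re + ((u ^ 4 - (m : ℂ) ^ 4) * (1 + M)).re -
      30 * (u * Z + Z ^ 2 / (8 * u ^ 7)).re + (u ^ 9).re := by linarith only [h7, h8, h9, h10, h11, h12]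
  have h14 := mul_le_mul_of_nonneg_left h13 hc.le
  linarith only [hr, h14]

/-- Outer edge: `f Z = re (Z + Z ^ 2 / (8 R)) = X + (2 X ^ 2 - ‖Z‖ ^ 2) / (8 R) ≤ -1.8 R` for
`X ≤ R / 1000` (convex in `X`). -/
theorem Fr.outer {s z : ℂ} {r : ℝ} (hs : |‖s‖ ^ 2 - 1| ≤ 3 * m ^ 4) (h1 : 39 / 10 * m ^ 8 ≤ ‖z‖)
    (h2 : ‖z‖ ≤ 41 / 10 * m ^ 8) (hr : r ≤ 46 * (c * m ^ 9))
    (hX : (s * z).re ≤ 47 * (c * m ^ 9)) : cP u (s * z) ≤ -1 / 100 ∧
      cT μ u z (s * z) ≤ -1 / 100 ∧ cA μ c u (s * z) r ≤ -1 / 100 := by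
  have hm := h.m_pos
  have hR := pow_pos hm 8
  have h4 := pow_pos hm 4
  have hc : 0 < c := zero_lt_one.trans_le h.one_le
  have hη : m ^ 4 ≤ 1 / 10 ^ 8 := by simpa using ti2_pow h 0 3
  obtain ⟨s1, s2⟩ := abs_le.1 hs
  have z1 : (39 / 10 * m ^ 8) ^ 2 ≤ ‖z‖ ^ 2 := by gcongr
  have z2 : ‖z‖ ^ 2 ≤ (41 / 10 * m ^ 8) ^ 2 := by gcongr
  have hR2 := pow_pos hR 2
  have n1 : 15 * (m ^ 8) ^ 2 ≤ ‖s * z‖ ^ 2 := by
    rw [norm_mul, mul_pow]
    calc _ ≤ 999 / 1000 * (39 / 10 * m ^ 8) ^ 2 := by linarith only [hR2]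
      _ ≤ _ := by gcongr; linarith only [hη, s1]
  have n2 : ‖s * z‖ ^ 2 ≤ 17 * (m ^ 8) ^ 2 := by
    rw [norm_mul, mul_pow]
    calc _ ≤ 1001 / 1000 * (41 / 10 * m ^ 8) ^ 2 := by gcongr; linarith only [hη, s2]
      _ ≤ _ := by linarith only [hR2]
  have x1 : (s * z).re ≤ m ^ 8 / 1000 := by
    have := mul_le_mul_of_nonneg_right h.small hR.le
    have e : c * m ^ 9 = c * m * m ^ 8 := by ring
    linarith only [hX, hR, this]
  have hu := h.u_ne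
  refine ⟨?_, ?_, ?_⟩
  · have e : (s * z + (s * z) ^ 2 / (8 * u ^ 8)) / u ^ 13 =
        (u ^ 13)⁻¹ * (s * z) + (s * z) ^ 2 / 8 * (u ^ 21)⁻¹ := by field_simp
    have e' : (m ^ 13)⁻¹ / m ^ 8 = (m ^ 21)⁻¹ := by field_simp
    have h5 := ti2_f h (A := (u ^ 13)⁻¹) (B := (u ^ 21)⁻¹) (a' := (m ^ 13)⁻¹) (by positivity)
      (by exact_mod_cast h.inv_pow_near (p := 13) (by norm_num))
      (by rw [e']; exact_mod_cast h.inv_pow_near (p := 21) (by norm_num)) x1 n1 n2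
    have h6 : 0 < (m ^ 13)⁻¹ * m ^ 8 := by positivity
    rw [cP, e]
    linarith only [h5, h6]
  · have t1 : 1 - 16 / 10 * m ^ 4 ≤ ‖s‖ :=
      (abs_le_of_sq_le_sq' (by nlinarith only [h4, hη, s1]) (norm_nonneg _)).2
    have t2 := h.norm_pow_le (p := 13) (by norm_num)
    have t3 := norm_sub_norm_le (s * z) (2 * u ^ 13)
    rw [norm_sub_rev, norm_mul, norm_mul, Complex.norm_two] at t3
    have t4 : m ^ 13 ≤ m ^ 12 / 10 ^ 8 := ti2_pow h 12 0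
    have t5 : m ^ 4 * (39 / 10 * m ^ 8) ≤ m ^ 4 * ‖z‖ := by gcongr
    have t6 := mul_le_mul_of_nonneg_right t1 (norm_nonneg z)
    have t7 := pow_pos hm 12
    have t8 : (1 - 17 / 10 * m ^ 4) * ‖z‖ ≤ ‖2 * u ^ 13 - s * z‖ := by
      have e : m ^ 4 * (39 / 10 * m ^ 8) = 39 / 10 * m ^ 12 := by ring
      linarith only [t2, t3, t4, t5, t6, t7]
    have z0 : 0 < ‖z‖ := by linarith only [h1, hR]
    have t9 : 0 < 1 - 17 / 10 * m ^ 4 := by linarith only [hη]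
    have t10 : ‖z / (2 * u ^ 13 - s * z)‖ ^ 2 ≤ 1 + 4 * m ^ 4 := by
      rw [norm_div, div_pow, div_le_iff₀ (pow_pos ((mul_pos t9 z0).trans_le t8) 2)]
      calc ‖z‖ ^ 2 = 1 * ‖z‖ ^ 2 := (one_mul _).symm
        _ ≤ (1 + 4 * m ^ 4) * (1 - 17 / 10 * m ^ 4) ^ 2 * ‖z‖ ^ 2 := by
          gcongr
          nlinarith only [h4, hη, t7]
        _ = (1 + 4 * m ^ 4) * ((1 - 17 / 10 * m ^ 4) * ‖z‖) ^ 2 := by ring
        _ ≤ _ := by gcongr
    have t11 := h.le_re_pow (p := 4) (by norm_num)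
    have t12 : μ ^ 4 ≤ m ^ 4 := pow_le_pow_left₀ h.mu_pos.le h.mu_le 4
    have e : (5 * u ^ 4).re = 5 * (u ^ 4).re := by simp
    rw [cT, div_le_iff₀ (pow_pos h.mu_pos 4), e]
    linarith only [h4, t10, t11, t12]
  · have e : u * (s * z) + (s * z) ^ 2 / (8 * u ^ 7) =
        u * (s * z) + (s * z) ^ 2 / 8 * (u ^ 7)⁻¹ := by field_simp
    have e' : m / m ^ 8 = (m ^ 7)⁻¹ := by field_simp
    have h5 := ti2_f h (A := u) (B := (u ^ 7)⁻¹) hm
      (by simpa only [pow_one] using h.pow_near (p := 1) (by norm_num))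
      (by rw [e']; exact_mod_cast h.inv_pow_near (p := 7) (by norm_num)) x1 n1 n2
    have h6 := (abs_le.1 (ti2_t1 h (Z := s * z)
      (abs_le_of_sq_le_sq' (by linarith only [hR2, n1]) (norm_nonneg _)).2)).1
    have h7 := h.le_re_pow (p := 9) (by norm_num)
    have h8 := pow_pos hm 9
    rw [ti2_form]
    refine ti2_neg h ?_
    rw [e]
    have h9 : 47 * m ^ 9 ≤ (2 * u ^ 17 / (2 * u ^ 13 - s * z)).re -
        30 * (u * (s * z) + (s * z) ^ 2 / 8 * (u ^ 7)⁻¹).re + (u ^ 9).re := by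
      have : m * m ^ 8 = m ^ 9 := by ring
      linarith only [h5, h6, h7, h8]
    have h10 := mul_le_mul_of_nonneg_left h9 hc.le
    have h11 := ti2_cm h
    linarith only [hr, h10, h11]

end Pool.Agent.MP_bea40e_an.Iv

end

section

open Filter Topology Set Metric Complex
open scoped ContDiff ComplexConjugate

namespace Pool.Agent.MP_bea40e_an.Iv

/-! Numerical inequalities of the tube system, part 3: points of the domain. With `X = re Z`,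
`X ≤ τ / 10 - y ^ 2 / 2`; the errors `100 |y| / m * ‖Z‖ ≤ 420 m ^ 7 |y|` are absorbed by `y ^ 2`
(AM-GM, `m ^ 14 ≪ τ`). So `m ^ p re (Z / u ^ p) ≤ τ / 5` for `p = 13, 17`, which gives
`‖Z‖ ≤ ‖2 u ^ 13 - Z‖` and `re (u ^ 17 / (2 u ^ 13 - Z)) ≥ 0`. For the polynomial term use
`X + X ^ 2 / (8 R) ≤ 0.4 X` when `X ≤ 0`. -/

theorem ti3_re (w v : ℂ) {k e : ℝ} (hv : ‖v - k‖ ≤ e) : (w * v).re ≤ k * w.re + ‖w‖ * e := by
  have h1 : w * v = k * w + w * (v - k) := by ring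
  have h2 : (w * (v - k)).re ≤ ‖w‖ * e :=
    (re_le_norm _).trans (by rw [norm_mul]; exact mul_le_mul_of_nonneg_left hv (norm_nonneg _))
  rw [h1, add_re, re_ofReal_mul]
  linarith

theorem ti3_num {m t n X : ℝ} (h0 : 0 < m) (h1 : m ≤ 1 / 10 ^ 8) (ht : 0 ≤ t) (hn0 : 0 ≤ n)
    (hn : n ≤ 42 / 10 * m ^ 8) (hX : -n ≤ X) (hX' : X + t ^ 2 / 2 ≤ m ^ 13 / 10) :
    X + n * (100 * t / m) + (X ^ 2 + n ^ 2 * (100 * t / m)) / (8 * m ^ 8) ≤ 12 / 100 * m ^ 13 := by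
  have hR : 0 < m ^ 8 := by positivity
  have hτ : 0 < m ^ 13 := by positivity
  have he : 0 ≤ 100 * t / m := by positivity
  have e1 : n * (100 * t / m) ≤ 420 * (m ^ 7 * t) := by
    calc n * (100 * t / m) ≤ 42 / 10 * m ^ 8 * (100 * t / m) := by gcongr
      _ = 420 * (m ^ 7 * t) := by field_simp; ring
  have e0 : 0 ≤ n * (100 * t / m) := by positivity
  have e2 : n ^ 2 * (100 * t / m) ≤ 42 / 10 * m ^ 8 * (n * (100 * t / m)) := by
    calc n ^ 2 * (100 * t / m) = n * (n * (100 * t / m)) := by ring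
      _ ≤ _ := by gcongr
  have e3 : m ^ 13 ≤ m ^ 8 := pow_le_pow_of_le_one h0.le (by linarith only [h0, h1]) (by norm_num)
  have e4 : X ^ 2 ≤ (-6 / 10 * X + 7 / 100 * m ^ 13) * (8 * m ^ 8) := by
    rcases le_total X 0 with hx | hx
    · nlinarith only [mul_nonneg (neg_nonneg.2 hx) (show 0 ≤ X + 42 / 10 * m ^ 8 by linarith only [hn, hX]), mul_pos hτ hR]
    · have hx' : X ≤ m ^ 13 / 10 := by linarith only [sq_nonneg t, hX']
      nlinarith only [mul_nonneg hx (show 0 ≤ m ^ 8 / 10 - X by linarith only [e3, hx']), mul_nonneg (sub_nonneg.2 hx') hR.le]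
  have e5 : (X ^ 2 + n ^ 2 * (100 * t / m)) / (8 * m ^ 8) ≤
      -6 / 10 * X + 7 / 100 * m ^ 13 + 525 / 1000 * (n * (100 * t / m)) := by
    rw [div_le_iff₀ (by positivity)]
    linarith only [e2, e4]
  have e6 : 641 * (m ^ 7 * t) ≤ t ^ 2 / 5 + 520000 * (m ^ 7) ^ 2 := by
    nlinarith [sq_nonneg (t - 16025 / 10 * m ^ 7), sq_nonneg (m ^ 7)]
  have e7 : (m ^ 7) ^ 2 ≤ 1 / 10 ^ 8 * m ^ 13 := by
    calc (m ^ 7) ^ 2 = m * m ^ 13 := by ring
      _ ≤ _ := by gcongr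
  have e8 : 0 ≤ m ^ 7 * t := by positivity
  linarith only [hX', hτ, e1, e0, e5, e6, e7]

theorem ti3_eta {η q : ℝ} (h0 : 0 < η) (h1 : η ≤ 1 / 10 ^ 8) (h : -(3 * η) ≤ q - 1) :
    1 ≤ (1 + 4 * η) * q := by
  linarith only [mul_nonneg h0.le (sub_nonneg.2 h1), mul_nonneg h0.le (sub_nonneg.2 h), h0, h]

theorem ti3_norm {v Z : ℂ} (hv : v ≠ 0) (h : (Z * v⁻¹).re ≤ 1) : ‖Z‖ ^ 2 ≤ ‖2 * v - Z‖ ^ 2 := by
  have e1 : Z = v * (Z * v⁻¹) := by field_simp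
  have e2 : 2 * v - Z = v * (2 - Z * v⁻¹) := by field_simp
  rw [e2]
  nth_rewrite 1 [e1]
  generalize Z * v⁻¹ = w at h
  rw [norm_mul, norm_mul, mul_pow, mul_pow]
  refine mul_le_mul_of_nonneg_left ?_ (sq_nonneg _)
  simp only [Complex.sq_norm, normSq_apply, sub_re, sub_im, re_ofNat, im_ofNat]
  linarith only [h]

variable {μ m c a y : ℝ} {u : ℂ} (h : Fr μ m c a u y)
include h

theorem Fr.ti3_inv {p : ℕ} (hp : p ≤ 21) (w : ℂ) :
    (w * (u ^ p)⁻¹).re ≤ (w.re + ‖w‖ * (100 * |y| / m)) / m ^ p := by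
  have h1 := h.inv_pow_near hp
  have h2 : ((m : ℂ) ^ p)⁻¹ = (((m ^ p)⁻¹ : ℝ) : ℂ) := by push_cast; rfl
  rw [h2] at h1
  refine (ti3_re w _ h1).trans (le_of_eq ?_)
  ring

theorem Fr.inside {s z : ℂ} {r : ℝ} (hs : |‖s‖ ^ 2 - 1| ≤ 3 * m ^ 4) (h2 : ‖z‖ ≤ 41 / 10 * m ^ 8)
    (hr : r < 0) (hX : (s * z).re + y ^ 2 / 2 ≤ m ^ 13 / 10) : cP u (s * z) ≤ -1 / 100 ∧
      cT μ u z (s * z) ≤ -1 / 100 ∧ cA μ c u (s * z) r ≤ -1 / 100 := by
  have m0 := h.m_pos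
  have m1 := h.m_le
  have μ0 := h.mu_pos
  have c0 : 0 < c := by linarith only [h.one_le, m0, m1]
  have u0 := h.u_ne
  have η0 : 0 < m ^ 4 := by positivity
  have η1 : m ^ 4 ≤ 1 / 10 ^ 8 := (pow_le_of_le_one m0.le (by linarith only [m0, m1]) (by norm_num)).trans m1
  obtain ⟨hs1, hs2⟩ := abs_le.1 hs
  have hs3 : ‖s‖ ≤ 101 / 100 := by
    refine (pow_le_pow_iff_left₀ (norm_nonneg s) (by norm_num) two_ne_zero).1 ?_
    linarith only [η1, hs2]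
  have hZ : ‖s * z‖ ≤ 42 / 10 * m ^ 8 := by
    have : 0 < m ^ 8 := by positivity
    rw [norm_mul]
    linarith only [mul_le_mul hs3 h2 (norm_nonneg z) (by norm_num), this]
  have hsz : ‖z‖ ^ 2 * ‖s‖ ^ 2 = ‖s * z‖ ^ 2 := by rw [norm_mul]; ring
  generalize s * z = Z at *
  have G := ti3_num m0 m1 (abs_nonneg y) (norm_nonneg Z) hZ (abs_le.1 (abs_re_le_norm Z)).1
    (by rwa [sq_abs])
  have he : 0 ≤ 100 * |y| / m := by positivity
  have he1 : 100 * |y| / m ≤ 1 / 1000 := by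
    have := (pow_le_of_le_one m0.le (by linarith only [m0, m1]) (show 3 ≠ 0 by norm_num)).trans m1
    linarith only [h.rel_le, this]
  have sq : ∀ p ≤ 21, (Z ^ 2 * (u ^ p)⁻¹).re ≤
      (Z.re ^ 2 + ‖Z‖ ^ 2 * (100 * |y| / m)) / m ^ p := fun p hp => by
    refine (h.ti3_inv hp _).trans (div_le_div_of_nonneg_right ?_ (by positivity))
    have : (Z ^ 2).re ≤ Z.re ^ 2 := by
      rw [pow_two, mul_re]
      linarith only [mul_self_nonneg Z.im]
    rw [norm_pow]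
    linarith only [this]
  have i13 := h.ti3_inv (show 13 ≤ 21 by norm_num) Z
  have i17 := h.ti3_inv (show 17 ≤ 21 by norm_num) Z
  have i4 := h.ti3_inv (show 4 ≤ 21 by norm_num) (-2)
  have s21 := sq 21 le_rfl
  have s7 := sq 7 (by norm_num)
  have p1 := ti3_re Z u (k := m) (e := 100 * |y| / m * m)
    (by simpa only [pow_one] using h.pow_near (show 1 ≤ 21 by norm_num))
  have p4 := h.le_re_pow (show 4 ≤ 21 by norm_num)
  have p9 := h.le_re_pow (show 9 ≤ 21 by norm_num)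
  clear sq
  generalize 100 * |y| / m = e at *
  have B0 : 0 ≤ Z.re ^ 2 + ‖Z‖ ^ 2 * e := by positivity
  generalize Z.re ^ 2 + ‖Z‖ ^ 2 * e = B at *
  have B1 : 0 ≤ B / (8 * m ^ 8) := by positivity
  have τ0 : 0 < m ^ 13 := by positivity
  refine ⟨?_, ?_, ?_⟩
  · have e1 : (Z + Z ^ 2 / (8 * u ^ 8)) / u ^ 13 =
        Z * (u ^ 13)⁻¹ + ((1 / 8 : ℝ) : ℂ) * (Z ^ 2 * (u ^ 21)⁻¹) := by
      push_cast
      field_simp
    have e2 : (Z.re + ‖Z‖ * e) / m ^ 13 + 1 / 8 * (B / m ^ 21) =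
        (Z.re + ‖Z‖ * e + B / (8 * m ^ 8)) / m ^ 13 := by
      field_simp
    have e3 : (Z.re + ‖Z‖ * e + B / (8 * m ^ 8)) / m ^ 13 ≤ 12 / 100 := (div_le_iff₀ τ0).2 G
    unfold cP
    rw [e1, add_re, re_ofReal_mul]
    linarith only [i13, s21, e2, e3]
  · have e1 : (Z.re + ‖Z‖ * e) / m ^ 13 ≤ 1 := (div_le_iff₀ τ0).2 (by linarith only [G, B1, τ0])
    have e2 := ti3_norm (pow_ne_zero 13 u0) (i13.trans e1)
    have e3 : ‖z / (2 * u ^ 13 - Z)‖ ^ 2 ≤ 1 + 4 * m ^ 4 := by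
      rw [norm_div, div_pow]
      refine div_le_of_le_mul₀ (sq_nonneg _) (by positivity) ?_
      have e4 : 1 ≤ (1 + 4 * m ^ 4) * ‖s‖ ^ 2 := ti3_eta η0 η1 hs1
      calc ‖z‖ ^ 2 ≤ ‖z‖ ^ 2 * ((1 + 4 * m ^ 4) * ‖s‖ ^ 2) :=
            le_mul_of_one_le_right (sq_nonneg _) e4
        _ = (1 + 4 * m ^ 4) * ‖Z‖ ^ 2 := by rw [← hsz]; ring
        _ ≤ _ := by gcongr
    have e5 : (5 * u ^ 4).re = 5 * (u ^ 4).re := by simp
    have e6 : μ ^ 4 ≤ m ^ 4 := pow_le_pow_left₀ μ0.le h.mu_le 4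
    unfold cT
    rw [div_le_iff₀ (by positivity), e5]
    linarith only [η0, p4, e3, e6]
  · have e1 : 0 ≤ (2 * c * u ^ 17 / (2 * u ^ 13 - Z)).re := by
      have f1 : 2 * c * u ^ 17 / (2 * u ^ 13 - Z) =
          ((2 * c : ℝ) : ℂ) * (-(-2 * (u ^ 4)⁻¹ + Z * (u ^ 17)⁻¹))⁻¹ := by
        have : -(-2 * (u ^ 4)⁻¹ + Z * (u ^ 17)⁻¹) = (2 * u ^ 13 - Z) / u ^ 17 := by
          field_simp
          ring
        rw [this, inv_div]
        push_cast
        ring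
      have f2 : (Z.re + ‖Z‖ * e) / m ^ 17 ≤ 1 / m ^ 4 := by
        rw [div_le_div_iff₀ (by positivity) η0]
        calc (Z.re + ‖Z‖ * e) * m ^ 4 ≤ m ^ 13 * m ^ 4 := by gcongr; linarith only [G, B1, τ0]
          _ = _ := by ring
      have f3 : ((-2 : ℂ).re + ‖(-2 : ℂ)‖ * e) / m ^ 4 ≤ -1 / m ^ 4 := by
        refine div_le_div_of_nonneg_right ?_ η0.le
        simp only [neg_re, re_ofNat, norm_neg, Complex.norm_ofNat]
        linarith only [m0, m1, he1]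
      rw [f1, re_ofReal_mul, inv_re, neg_re, add_re]
      refine mul_nonneg (by positivity) (div_nonneg ?_ (normSq_nonneg _))
      rw [neg_div] at f3
      linarith only [i17, i4, f2, f3]
    have e2 : (30 * c * (u * Z + Z ^ 2 / (8 * u ^ 7))).re =
        30 * c * ((Z * u).re + 1 / 8 * (Z ^ 2 * (u ^ 7)⁻¹).re) := by
      have : 30 * c * (u * Z + Z ^ 2 / (8 * u ^ 7)) =
          ((30 * c : ℝ) : ℂ) * (Z * u + ((1 / 8 : ℝ) : ℂ) * (Z ^ 2 * (u ^ 7)⁻¹)) := by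
        push_cast
        field_simp
      rw [this, re_ofReal_mul, add_re, re_ofReal_mul]
    have e3 : m * Z.re + ‖Z‖ * (e * m) + 1 / 8 * (B / m ^ 7) =
        m * (Z.re + ‖Z‖ * e + B / (8 * m ^ 8)) := by
      field_simp
    have e4 : m * (Z.re + ‖Z‖ * e + B / (8 * m ^ 8)) ≤ m ^ 9 / 100 := by
      have f1 : m ^ 13 ≤ m ^ 8 * (1 / 100) := by
        calc m ^ 13 = m ^ 8 * m ^ 5 := by ring
          _ ≤ _ := by
            gcongr
            linarith only [pow_le_of_le_one m0.le (by linarith only [m0, m1] : m ≤ 1) (show 5 ≠ 0 by norm_num), m1]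
      calc _ ≤ m * (m ^ 8 * (1 / 100)) := by gcongr; linarith only [G, τ0, f1]
        _ = _ := by ring
    have e5 : (c * u ^ 9).re = c * (u ^ 9).re := re_ofReal_mul _ _
    have e6 : μ ^ 9 ≤ m ^ 9 := pow_le_pow_left₀ μ0.le h.mu_le 9
    have e7 : 30 * ((Z * u).re + 1 / 8 * (Z ^ 2 * (u ^ 7)⁻¹).re) - (u ^ 9).re ≤
        -1 / 100 * μ ^ 9 := by
      have : 0 < μ ^ 9 := by positivity
      linarith only [p9, p1, s7, e3, e4, e6, this]
    have e8 := mul_le_mul_of_nonneg_left e7 c0.le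
    unfold cA
    rw [div_le_iff₀ (by positivity), e2, e5]
    linarith only [hr, e1, e8]

end Pool.Agent.MP_bea40e_an.Iv

end

section

open Filter Topology Set Metric Complex
open scoped ContDiff ComplexConjugate

namespace Pool.Agent.MP_bea40e_an.Iv

/-! Numerical inequalities of the tube system, part 4: Lipschitz bounds. -/

variable {μ m c a y : ℝ} {u : ℂ} (h : Fr μ m c a u y)
include h

theorem ti4_pw (i j : ℕ) (hij : i + j ≤ 29) : μ ^ 30 ≤ μ ^ i * m ^ j / 10 ^ 8 := by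
  have h0 := h.mu_pos
  have h1 := h.mu_le.trans h.m_le
  obtain ⟨k, hk⟩ : ∃ k, 30 = i + j + k + 1 := ⟨29 - (i + j), by omega⟩
  calc μ ^ 30 = μ ^ i * μ ^ j * μ ^ k * μ := by rw [hk]; ring
    _ ≤ μ ^ i * m ^ j * 1 * (1 / 10 ^ 8) := by
      have := h.m_pos
      gcongr
      · exact h.mu_le
      · exact pow_le_one₀ h0.le (h1.trans (by norm_num))
    _ = _ := by ring

theorem ti4_lo {p : ℕ} (hp : p ≤ 21) : m ^ p / 2 ≤ ‖u ^ p‖ := by
  have := (h.le_re_pow hp).trans (re_le_norm _)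
  linarith [pow_pos h.m_pos p]

theorem ti4_quad {Z Z' : ℂ} {δ : ℝ} {p : ℕ} (hp : p ≤ 8) (hZ : ‖Z‖ ≤ 14 * m ^ 8)
    (hZ' : ‖Z'‖ ≤ 14 * m ^ 8) (hd : ‖Z - Z'‖ ≤ δ) :
    ‖Z ^ 2 / (8 * u ^ p) - Z' ^ 2 / (8 * u ^ p)‖ ≤ 7 * δ := by
  have h0 := h.m_pos
  have h1 : m ^ 8 ≤ m ^ p := pow_le_pow_of_le_one h0.le (h.m_le.trans (by norm_num)) hp
  have h2 := ti4_lo h (p := p) (by omega)
  have h3 := (norm_nonneg _).trans hd
  have h4 := pow_pos h0 p
  rw [← sub_div, sq_sub_sq, norm_div, norm_mul, norm_mul, Complex.norm_ofNat,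
    div_le_iff₀ (by linarith only [h2, h4])]
  calc ‖Z + Z'‖ * ‖Z - Z'‖ ≤ (28 * m ^ p) * δ := by
        gcongr
        linarith only [norm_add_le Z Z', hZ, hZ', h1]
    _ = 7 * δ * (8 * (m ^ p / 2)) := by ring
    _ ≤ _ := by gcongr

theorem ti4_inv {w w' : ℂ} {δ : ℝ} (hw : m ^ 13 / 2 ≤ ‖w‖) (hw' : m ^ 13 / 2 ≤ ‖w'‖)
    (hd : ‖w - w'‖ ≤ δ) : ‖w⁻¹ - w'⁻¹‖ ≤ 4 * δ / m ^ 26 := by
  have h0 := pow_pos h.m_pos 13
  have h3 := (norm_nonneg _).trans hd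
  rw [inv_sub_inv (norm_pos_iff.1 (by linarith only [hw, h0])) (norm_pos_iff.1 (by linarith only [hw', h0])), norm_div,
    norm_mul, norm_sub_rev]
  calc ‖w - w'‖ / (‖w‖ * ‖w'‖) ≤ δ / (m ^ 13 / 2 * (m ^ 13 / 2)) := by gcongr
    _ = _ := by field_simp; ring

theorem Fr.near_z {s z z' : ℂ} {ε r : ℝ} (hm : m ≤ 3 * μ) (hε : 0 ≤ ε) (hε1 : ε ≤ 1)
    (hs : ‖s‖ ≤ 2) (hz : ‖z‖ ≤ 6 * m ^ 8) (hd : ‖z - z'‖ ≤ ε * μ ^ 30) :
    |cP u (s * z) - cP u (s * z')| ≤ ε ∧ (m ^ 13 / 2 ≤ ‖2 * u ^ 13 - s * z‖ →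
      m ^ 13 / 2 ≤ ‖2 * u ^ 13 - s * z'‖ → |cT μ u z (s * z) - cT μ u z' (s * z')| ≤ ε ∧
        |cA μ c u (s * z) r - cA μ c u (s * z') r| ≤ ε) := by
  have _ := hm
  have h0 := h.m_pos
  have h1 := h.mu_pos
  have hc : 0 < c := one_pos.trans_le h.one_le
  have hδ : 0 ≤ ε * μ ^ 30 := by positivity
  have hz' : ‖z'‖ ≤ 7 * m ^ 8 := by
    have a1 := ti4_pw h 0 8 (by norm_num)
    have a2 := mul_le_of_le_one_left (pow_pos h1 30).le hε1
    have a3 := norm_le_insert z z'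
    linarith only [hz, hd, hδ, a1, a2, a3]
  have hZ : ∀ t : ℂ, ‖t‖ ≤ 7 * m ^ 8 → ‖s * t‖ ≤ 14 * m ^ 8 := fun t ht => by
    rw [norm_mul]
    exact (mul_le_mul hs ht (norm_nonneg _) (by norm_num)).trans (le_of_eq (by ring))
  have hZ1 := hZ z (by linarith [pow_pos h0 8])
  have hZ2 := hZ z' hz'
  have hD : ‖s * z - s * z'‖ ≤ 2 * (ε * μ ^ 30) := by
    rw [← mul_sub, norm_mul]
    exact mul_le_mul hs hd (norm_nonneg _) (by norm_num)
  have fin : ∀ (K : ℝ) (i j : ℕ), i + j ≤ 29 → 0 ≤ K → K ≤ 10 ^ 8 →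
      K * (ε * μ ^ 30) / m ^ j / μ ^ i ≤ ε := fun K i j hij hK hK' => by
    rw [div_div, div_le_iff₀ (by positivity)]
    calc K * (ε * μ ^ 30) ≤ 10 ^ 8 * (ε * (μ ^ i * m ^ j / 10 ^ 8)) := by
          gcongr
          exact ti4_pw h i j hij
      _ = _ := by ring
  refine ⟨?_, fun hw hw' => ?_⟩
  · have a1 := ti4_quad h le_rfl hZ1 hZ2 hD
    have a2 := ti4_lo h (p := 13) (by norm_num)
    rw [cP, cP, sub_sub_sub_cancel_right, ← sub_re, ← sub_div, add_sub_add_comm]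
    refine (abs_re_le_norm _).trans (le_trans ?_ (fin 32 0 13 (by norm_num) (by norm_num)
      (by norm_num)))
    rw [norm_div]
    calc _ ≤ (2 * (ε * μ ^ 30) + 7 * (2 * (ε * μ ^ 30))) / (m ^ 13 / 2) := by
          gcongr
          exact (norm_add_le _ _).trans (add_le_add hD a1)
      _ = _ := by field_simp; ring
  have a1 := ti4_inv h hw hw' (δ := 2 * (ε * μ ^ 30)) (by
    rwa [sub_sub_sub_cancel_left, norm_sub_rev])
  set w := 2 * u ^ 13 - s * z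
  set w' := 2 * u ^ 13 - s * z'
  have hm1 : m ≤ 1 := h.m_le.trans (by norm_num)
  constructor
  · have a2 : ∀ t v : ℂ, ‖t‖ ≤ 7 * m ^ 8 → m ^ 13 / 2 ≤ ‖v‖ → ‖t / v‖ ≤ 14 / m ^ 5 :=
      fun t v ht hv => by
        rw [norm_div]
        calc _ ≤ 7 * m ^ 8 / (m ^ 13 / 2) := by gcongr
          _ = _ := by field_simp; ring
    have a3 : ‖z / w - z' / w'‖ ≤ 58 * (ε * μ ^ 30) / m ^ 18 := by
      rw [show z / w - z' / w' = (z - z') / w + z' * (w⁻¹ - w'⁻¹) by ring]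
      refine (norm_add_le _ _).trans ?_
      rw [norm_div, norm_mul]
      calc _ ≤ ε * μ ^ 30 / (m ^ 18 / 2) + 7 * m ^ 8 * (4 * (2 * (ε * μ ^ 30)) / m ^ 26) := by
            gcongr
            exact le_trans (by gcongr ?_ / 2; exact pow_le_pow_of_le_one h0.le hm1 (by norm_num)) hw
        _ = _ := by field_simp; ring
    rw [cT, cT, ← sub_div, sub_sub_sub_cancel_right, sub_sub_sub_cancel_right, abs_div,
      abs_of_pos (pow_pos h1 4), sq_sub_sq, abs_mul, abs_of_nonneg (by positivity)]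
    refine le_trans ?_ (fin 1624 4 23 (by norm_num) (by norm_num) (by norm_num))
    calc _ ≤ (14 / m ^ 5 + 14 / m ^ 5) * (58 * (ε * μ ^ 30) / m ^ 18) / μ ^ 4 := by
          gcongr
          exacts [a2 _ _ (by linarith only [pow_pos h0 8, hz]) hw, a2 _ _ hz' hw',
            (abs_norm_sub_norm_le _ _).trans a3]
      _ = _ := by field_simp; ring
  · have a2 := ti4_quad h (p := 7) (by norm_num) hZ1 hZ2 hD
    have a3 : ‖u ^ 17‖ ≤ 2 * m ^ 17 := by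
      linarith only [h.norm_pow_le (p := 17) (by norm_num), pow_pos h0 17]
    have a4 : ‖u‖ ≤ 1 := by
      have := h.norm_pow_le (p := 1) (by norm_num)
      rw [pow_one, pow_one] at this
      linarith only [h.m_le, this]
    have e : cA μ c u (s * z) r - cA μ c u (s * z') r = (30 * (u * (s * z - s * z') +
        ((s * z) ^ 2 / (8 * u ^ 7) - (s * z') ^ 2 / (8 * u ^ 7))) -
          2 * u ^ 17 * (w⁻¹ - w'⁻¹)).re / μ ^ 9 := by
      rw [cA, cA, ← sub_div, ← mul_div_mul_left _ (μ ^ 9) hc.ne', ← re_ofReal_mul]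
      congr 1
      rw [show ∀ a b d a' b' : ℂ, r - a.re + b.re - d.re - (r - a'.re + b'.re - d.re) =
        (b - b' - (a - a')).re from fun a b d a' b' => by simp only [sub_re]; ring]
      congr 1
      ring
    rw [e, abs_div, abs_of_pos (pow_pos h1 9)]
    refine le_trans ?_ (fin 512 9 9 (by norm_num) (by norm_num) (by norm_num))
    gcongr
    refine (abs_re_le_norm _).trans ((norm_sub_le _ _).trans ?_)
    rw [norm_mul, norm_mul, norm_mul, Complex.norm_ofNat, Complex.norm_ofNat]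
    calc _ ≤ 30 * ((1 * (2 * (ε * μ ^ 30)) + 7 * (2 * (ε * μ ^ 30))) / m ^ 9) +
          2 * (2 * m ^ 17) * (4 * (2 * (ε * μ ^ 30)) / m ^ 26) := by
          gcongr
          refine le_trans ((norm_add_le _ _).trans (add_le_add ?_ a2))
            (le_div_self (by positivity) (pow_pos h0 9) (pow_le_one₀ h0.le hm1))
          rw [norm_mul]
          gcongr
      _ = _ := by field_simp; ring

theorem Fr.near_F {Φ Φ' ε : ℝ} (hε : 0 ≤ ε) (hd : |Φ - Φ'| ≤ ε * μ ^ 30) :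
    |cF μ u Φ - cF μ u Φ'| ≤ ε := by
  have h1 := h.mu_pos
  rw [cF, cF, ← sub_div, sub_sub_sub_cancel_right, abs_div, abs_of_pos (pow_pos h1 8),
    div_le_iff₀ (pow_pos h1 8)]
  refine hd.trans (mul_le_mul_of_nonneg_left ?_ hε)
  exact pow_le_pow_of_le_one h1.le ((h.mu_le.trans h.m_le).trans (by norm_num)) (by norm_num)

theorem Fr.near_X {Y Y' q ε : ℝ} (hε : 0 ≤ ε) (hd : |Y - Y'| ≤ ε * μ ^ 30) :
    |cX μ a u Y q - cX μ a u Y' q| ≤ ε := by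
  have h1 := h.mu_pos
  rw [cX, cX, ← sub_div, sub_sub_sub_cancel_right, ← sub_mul, add_sub_add_right_eq_sub, abs_div,
    abs_of_pos (pow_pos h1 4), div_le_iff₀ (pow_pos h1 4), abs_mul, abs_of_nonneg (Real.sqrt_nonneg a)]
  refine (mul_le_of_le_one_right (abs_nonneg _) (h.sqrt_le.trans (by norm_num))).trans
    (hd.trans (mul_le_mul_of_nonneg_left ?_ hε))
  exact pow_le_pow_of_le_one h1.le ((h.mu_le.trans h.m_le).trans (by norm_num)) (by norm_num)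

end Pool.Agent.MP_bea40e_an.Iv

end

section

open Filter Topology Set Metric Complex
open scoped ContDiff ComplexConjugate

namespace Pool.Agent.MP_bea40e_an.Iv

/-! Topology of the tube system and plurisubharmonicity of the conditions. -/

namespace TD

variable {ι A ix : Type} [Fintype ι] [Fintype ix] {T : TD ι A ix} (h : T.Ok)
include h

omit h [Fintype ι] [Fintype ix] in
theorem tt_lam : Continuous T.lam := continuous_re.comp (continuous_apply _)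

omit h [Fintype ι] [Fintype ix] in
theorem tt_q : Continuous T.q := (continuous_apply T.is).norm.pow 2

omit h [Fintype ι] [Fintype ix] in
theorem tt_sub {a : A} {θ θ' : ℝ} (hθ : θ < θ') : T.Ccl a θ ⊆ T.Cop a θ' :=
  fun _ hx => ⟨hx.1, hx.2.trans_lt hθ⟩

omit h [Fintype ι] [Fintype ix] in
theorem tt_sub' {a : A} {θ : ℝ} : T.Cop a θ ⊆ T.Ccl a θ := fun _ hx => ⟨hx.1, hx.2.le⟩

omit h [Fintype ι] [Fintype ix] in
theorem tt_bsub {θ : ℝ} : T.Bop θ ⊆ T.Bcl θ := fun _ hx => ⟨hx.1.le, hx.2.le⟩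

theorem Ok.mm_pos (x : ι → ℂ) : 0 < T.mm x := by
  exact h.mu_pos.trans_le (h.mu_le _)

theorem Ok.cont_mm : Continuous T.mm := by
  exact h.cont_m.comp tt_lam

theorem Ok.contOn_n (a : A) : ContinuousOn (T.n a) (T.V a) := by
  have h1 : ContinuousOn (T.z a) (T.V a) := fun x hx =>
    (h.an_z a x hx).continuousAt.continuousWithinAt
  have h2 : ContinuousOn (T.Φ a) (T.V a) := fun x hx =>
    (h.psh_Φ a x hx).1.continuousAt.continuousWithinAt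
  have h3 := h.cont_mm.continuousOn (s := T.V a)
  have h4 := fun x => (h.mm_pos x).ne'
  exact ((h1.norm.div (h3.pow 8) fun x _ => pow_ne_zero _ (h4 x)).sup
    ((tt_q.continuousOn.sub continuousOn_const).div (continuousOn_const.mul (h3.pow 4))
      fun x _ => mul_ne_zero (by norm_num) (pow_ne_zero _ (h4 x)))).sup
    ((h2.div (continuousOn_const.mul (h3.pow 8))
      fun x _ => mul_ne_zero (by norm_num) (pow_ne_zero _ (h4 x))).sup (h.cont_g a).continuousOn)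

/-- unfolding of the level function -/
theorem Ok.n_lt (a : A) (x : ι → ℂ) (θ : ℝ) : T.n a x < θ ↔ ‖T.z a x‖ < θ * T.mm x ^ 8 ∧
    T.q x - 1 < 10 * θ * T.mm x ^ 4 ∧ T.Φ a x < 20 * θ * T.mm x ^ 8 ∧ T.g a x < θ := by
  have h1 := h.mm_pos x
  rw [n, max_lt_iff, max_lt_iff, max_lt_iff, div_lt_iff₀ (by positivity), div_lt_iff₀ (by positivity),
    div_lt_iff₀ (by positivity), and_assoc, ← mul_assoc, ← mul_assoc, mul_comm θ 10, mul_comm θ 20]

theorem Ok.n_le (a : A) (x : ι → ℂ) (θ : ℝ) : T.n a x ≤ θ ↔ ‖T.z a x‖ ≤ θ * T.mm x ^ 8 ∧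
    T.q x - 1 ≤ 10 * θ * T.mm x ^ 4 ∧ T.Φ a x ≤ 20 * θ * T.mm x ^ 8 ∧ T.g a x ≤ θ := by
  have h1 := h.mm_pos x
  rw [n, max_le_iff, max_le_iff, max_le_iff, div_le_iff₀ (by positivity), div_le_iff₀ (by positivity),
    div_le_iff₀ (by positivity), and_assoc, ← mul_assoc, ← mul_assoc, mul_comm θ 10, mul_comm θ 20]

/-- the numerical frame at a point of a chart -/
theorem Ok.fr {a : A} {x : ι → ℂ} (hx : x ∈ T.Cop a 5) :
    Fr T.μ (T.mm x) T.c T.a (T.uu x) (x T.il).im ∧ AnalyticAt ℂ T.uu x ∧ ‖x T.is‖ ≤ 2 := by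
  obtain ⟨-, h1, h2, -⟩ := (h.n_lt a x 5).1 hx.2
  have h0 := h.mm_pos x
  have h3 := h.small x (h.V_lam a x hx.1)
  have h4 : T.mm x ≤ 1 / 10 ^ 8 := (le_mul_of_one_le_left h0.le h.one_le).trans h3
  have h5 : |(x T.il).im| ≤ 10 * T.mm x ^ 4 :=
    abs_le_of_sq_le_sq (by linarith only [h.Φ_ge a x hx.1, h2]) (by positivity)
  have h6 : T.mm x ^ 3 ≤ (1 / 10 ^ 8) ^ 3 := pow_le_pow_left₀ h0.le h4 3
  have h7 : T.mm x ^ 4 ≤ T.mm x / 160 := by
    rw [pow_succ]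
    nlinarith only [h0, h6]
  obtain ⟨h8, h9⟩ := h.an_u (x T.il) (h5.trans (by change _ ≤ T.mm x / 16; linarith only [h7]))
  refine ⟨⟨h.mu_pos, h.mu_le _, h.one_le, h3, h.a_pos, h.a_le, h9, h5⟩,
    h8.comp (f := fun x : ι → ℂ => x T.il) ((ContinuousLinearMap.proj (R := ℂ) T.il).analyticAt x),
    abs_le_of_sq_le_sq' ?_ (by norm_num) |>.2⟩
  change T.q x ≤ _
  linarith only [h1, h4, h7]

theorem Ok.isOpen_Cop (a : A) (θ : ℝ) : IsOpen (T.Cop a θ) := by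
  exact (h.contOn_n a).isOpen_inter_preimage (h.V_open a) isOpen_Iio

theorem Ok.isCompact_Ccl (a : A) {θ : ℝ} (hθ : θ < 5) : IsCompact (T.Ccl a θ) := by
  have e : T.Ccl a θ = T.Kc a ∩ T.n a ⁻¹' Iic θ := Subset.antisymm
    (fun x hx => ⟨h.O_sub a (tt_sub hθ hx), hx.2⟩) fun x hx => ⟨h.Kc_sub a hx.1, hx.2⟩
  rw [e]
  exact (h.Kc_cpt a).of_isClosed_subset (((h.contOn_n a).mono (h.Kc_sub a)).preimage_isClosed_of_isClosed
    (h.Kc_cpt a).isClosed isClosed_Iic) inter_subset_left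

theorem tt_En : Continuous T.En := continuous_const.mul (h.cont_mm.pow 9)

theorem tt_En_pos (x : ι → ℂ) : 0 < T.En x :=
  mul_pos (one_pos.trans_le h.one_le) (pow_pos (h.mm_pos x) 9)

theorem tt_bmono {θ θ' : ℝ} (hθ : θ ≤ θ') : T.Bcl θ ⊆ T.Bcl θ' := fun x hx =>
  ⟨hx.1.trans (mul_le_mul_of_nonneg_right hθ (tt_En_pos h x).le), hx.2⟩

theorem tt_blt {θ : ℝ} (hθ : θ < 220) : T.Bcl θ ⊆ T.Bop 220 := fun x hx =>
  ⟨hx.1.trans_lt (mul_lt_mul_of_pos_right hθ (tt_En_pos h x)),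
    (h.box x (tt_bmono h hθ.le hx)).1.trans_lt (by linarith [h.L_pos])⟩

theorem Ok.isOpen_Bop (θ : ℝ) : IsOpen (T.Bop θ) := by
  exact (isOpen_lt h.cont_r (continuous_const.mul (tt_En h))).inter
    (isOpen_lt tt_lam.abs continuous_const)

theorem Ok.isCompact_Bcl {θ : ℝ} (hθ : θ ≤ 220) : IsCompact (T.Bcl θ) := by
  exact (isCompact_closedBall 0 2).of_isClosed_subset
    ((isClosed_le h.cont_r (continuous_const.mul (tt_En h))).inter
      (isClosed_le tt_lam.abs continuous_const))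
    fun x hx => mem_closedBall_zero_iff.2 (h.box x (tt_bmono h hθ hx)).2

theorem Ok.isOpen_O (b : Option A) : IsOpen (T.O b) := by
  cases b
  exacts [h.isOpen_Bop _, h.isOpen_Cop _ _]

theorem tt_gap (a : A) :
    ContinuousOn (fun x => ‖2 * T.uu x ^ 13 - T.Z a x‖ - T.mm x ^ 13 / 2) (T.Ccl a 4) := by
  have h1 : ContinuousOn T.uu (T.Ccl a 4) := fun x hx =>
    (h.fr (tt_sub (by norm_num) hx)).2.1.continuousAt.continuousWithinAt
  have h2 : ContinuousOn (T.z a) (T.Ccl a 4) := fun x hx =>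
    (h.an_z a x hx.1).continuousAt.continuousWithinAt
  exact ((continuousOn_const.mul (h1.pow 13)).sub
    ((continuous_apply T.is).continuousOn.mul h2)).norm.sub
    ((h.cont_mm.pow 13).div_const 2).continuousOn

theorem Ok.isOpen_sU (a : A) (k : Fin 5 ⊕ Bool × ix) : IsOpen (T.sU a k) := by
  have h0 := h.isOpen_Cop a 4
  have h1 : IsOpen {x | x ∈ T.Cop a 4 ∧ T.mm x ^ 13 / 2 < ‖2 * T.uu x ^ 13 - T.Z a x‖} := by
    simpa only [inter_def, mem_preimage, mem_Ioi, sub_pos] using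
      ((tt_gap h a).mono tt_sub').isOpen_inter_preimage h0 (isOpen_Ioi (a := 0))
  rcases k with k | k
  · fin_cases k
    · exact h0
    · exact h1
    · exact h0
    · exact h0
    · have h2 := h1.inter ((isOpen_lt (continuous_const.sub (continuous_const.mul
        (h.cont_mm.pow 4))) tt_q).inter (isOpen_lt continuous_const tt_lam) :
        IsOpen {x | 1 - 12 * T.mm x ^ 4 < T.q x ∧ -T.L / 4 < T.lam x})
      convert h2 using 1
      exact Set.ext fun x => and_assoc.symm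
  · exact h0.inter (isOpen_lt continuous_const tt_q)

theorem Ok.isCompact_sF (a : A) (k : Fin 5 ⊕ Bool × ix) : IsCompact (T.sF a k) := by
  have h0 := h.isCompact_Ccl a (θ := 4) (by norm_num)
  have h1 : IsCompact {x | x ∈ T.Ccl a 4 ∧ T.mm x ^ 13 / 2 ≤ ‖2 * T.uu x ^ 13 - T.Z a x‖} := by
    refine h0.of_isClosed_subset ?_ fun x hx => hx.1
    simpa only [inter_def, mem_preimage, mem_Ici, sub_nonneg] using
      (tt_gap h a).preimage_isClosed_of_isClosed h0.isClosed (isClosed_Ici (a := 0))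
  rcases k with k | k
  · fin_cases k
    · exact h0
    · exact h1
    · exact h0
    · exact h0
    · have h2 := h1.inter_right ((isClosed_le (continuous_const.sub (continuous_const.mul
        (h.cont_mm.pow 4))) tt_q).inter (isClosed_le continuous_const tt_lam) :
        IsClosed {x | 1 - 12 * T.mm x ^ 4 ≤ T.q x ∧ -T.L / 4 ≤ T.lam x})
      convert h2 using 1
      exact Set.ext fun x => and_assoc.symm
  · exact h0.inter_right (isClosed_le continuous_const tt_q)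

theorem Ok.sU_sub (a : A) (k : Fin 5 ⊕ Bool × ix) :
    T.sU a k ⊆ T.sF a k ∧ T.sU a k ⊆ T.Cop a 4 ∧ T.sF a k ⊆ T.Ccl a 4 ∧ T.sF a k ⊆ T.Cop a 5 := by
  have _ := h
  have h1 : T.sU a k ⊆ T.sF a k ∧ T.sU a k ⊆ T.Cop a 4 ∧ T.sF a k ⊆ T.Ccl a 4 := by
    rcases k with k | k
    · fin_cases k
      · exact ⟨tt_sub', subset_rfl, subset_rfl⟩
      · exact ⟨fun x hx => ⟨tt_sub' hx.1, hx.2.le⟩, fun x hx => hx.1, fun x hx => hx.1⟩
      · exact ⟨tt_sub', subset_rfl, subset_rfl⟩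
      · exact ⟨tt_sub', subset_rfl, subset_rfl⟩
      · exact ⟨fun x hx => ⟨tt_sub' hx.1, hx.2.1.le, hx.2.2.1.le, hx.2.2.2.le⟩, fun x hx => hx.1,
          fun x hx => hx.1⟩
    · exact ⟨fun x hx => ⟨tt_sub' hx.1, hx.2.le⟩, fun x hx => hx.1, fun x hx => hx.1⟩
  exact ⟨h1.1, h1.2.1, h1.2.2, h1.2.2.trans (tt_sub (by norm_num))⟩

theorem Ok.sets0 [Fintype A] : IsOpen T.U0 ∧ IsCompact T.F0 ∧ T.U0 ⊆ T.F0 ∧ T.F0 ⊆ T.O none ∧
    ∀ b, IsOpen (T.Qo b) ∧ IsCompact (T.Q b) ∧ T.Qo b ⊆ T.Q b ∧ T.Q b ⊆ T.O b := by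
  have h1 : ∀ θ θ' : ℝ, θ' < 5 → IsOpen (T.Bop θ \ ⋃ a, T.Ccl a θ') := fun θ θ' hθ =>
    (h.isOpen_Bop θ).sdiff (isClosed_iUnion_of_finite fun a => (h.isCompact_Ccl a hθ).isClosed)
  have h2 : ∀ θ θ' : ℝ, θ ≤ 220 → IsCompact (T.Bcl θ \ ⋃ a, T.Cop a θ') := fun θ θ' hθ =>
    (h.isCompact_Bcl hθ).diff (isOpen_iUnion fun a => h.isOpen_Cop a θ')
  have h3 : ∀ θ θ' : ℝ, (T.Bop θ \ ⋃ a, T.Ccl a θ') ⊆ T.Bcl θ \ ⋃ a, T.Cop a θ' := fun θ θ' x hx =>
    ⟨tt_bsub hx.1, fun e => hx.2 (iUnion_mono (fun _ => tt_sub') e)⟩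
  refine ⟨h1 _ _ (by norm_num), h2 _ _ (by norm_num), h3 _ _,
    fun x hx => tt_blt h (by norm_num) hx.1, fun b => ?_⟩
  cases b with
  | none => exact ⟨h1 _ _ (by norm_num), h2 _ _ (by norm_num), h3 _ _,
      fun x hx => tt_blt h (by norm_num) hx.1⟩
  | some a => exact ⟨h.isOpen_Cop _ _, h.isCompact_Ccl _ (by norm_num), tt_sub',
      tt_sub (by norm_num)⟩

/-- the hypotheses of `glue` -/
theorem Ok.rel_glue : (∀ a, ∀ x ∈ T.O a, T.rel a a x) ∧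
    (∀ a b, ∀ x ∈ T.O a, x ∈ T.O b → T.rel a b x → T.rel b a x) ∧
    (∀ a b c, ∀ x ∈ T.O a, x ∈ T.O b → x ∈ T.O c → T.rel a b x → T.rel b c x → T.rel a c x) ∧
    (∀ a b, IsOpen {x | x ∈ T.O a ∧ x ∈ T.O b ∧ T.rel a b x}) ∧
    ∀ a b, IsOpen {x | x ∈ T.O a ∧ x ∈ T.O b ∧ ¬T.rel a b x} := by
  have h1 : ∀ a b, IsOpen {x | x ∈ T.O a ∧ x ∈ T.O b ∧ True} := fun a b => by
    simp only [and_true]
    exact (h.isOpen_O a).inter (h.isOpen_O b)
  have h2 : ∀ a b, IsOpen {x | x ∈ T.O a ∧ x ∈ T.O b ∧ ¬True} := fun a b => by simp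
  refine ⟨?_, ?_, ?_, ?_, ?_⟩
  · rintro (_ | a) x _
    exacts [trivial, h.pre_refl a x]
  · rintro (_ | a) (_ | b) x _ _ e
    exacts [trivial, trivial, trivial, h.pre_symm a b x e]
  · rintro (_ | a) (_ | b) (_ | c) x ha hb hc e e'
    exacts [trivial, trivial, trivial, trivial, trivial, h.sep a c x ha hc (tt_bsub hb), trivial,
      h.pre_trans a b c x e e']
  · rintro (_ | a) (_ | b)
    exacts [h1 _ _, h1 _ _, h1 _ _, h.pre_open a b]
  · rintro (_ | a) (_ | b)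
    exacts [h2 _ _, h2 _ _, h2 _ _, h.pre_closed a b]

end TD

end Pool.Agent.MP_bea40e_an.Iv

end

section

open Filter Topology Set Metric Complex
open scoped ContDiff ComplexConjugate

namespace Pool.Agent.MP_bea40e_an.Iv

theorem tp_proj {ι : Type} [Fintype ι] (i : ι) (x : ι → ℂ) :
    AnalyticAt ℂ (fun t : ι → ℂ => t i) x :=
  (ContinuousLinearMap.proj (R := ℂ) (φ := fun _ : ι => ℂ) i).analyticAt x

theorem tp_sub {ι : Type} [Fintype ι] {f : (ι → ℂ) → ℝ} {x : ι → ℂ} (hf : PshAt f x) (c : ℝ) :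
    PshAt (fun t => f t - c) x := by
  simpa only [sub_eq_add_neg] using hf.add (pshAt_const (-c))

theorem tp_X {ι : Type} [Fintype ι] {f q : (ι → ℂ) → ℝ} {u : (ι → ℂ) → ℂ} {x : ι → ℂ} (μ a : ℝ)
    (hf : PshAt f x) (hq : PshAt q x) (hu : AnalyticAt ℂ u x) :
    PshAt (fun t => cX μ a (u t) (f t) (q t)) x := by
  have h1 := (hf.add ((tp_sub hq 1).const_mul (by norm_num : (0 : ℝ) ≤ 10))).const_mul
    (Real.sqrt_nonneg a)
  have h2 := (h1.sub_re (F := fun t => 5 * u t ^ 4) (analyticAt_const.mul (hu.pow 4))).div_const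
    (by positivity : 0 ≤ μ ^ 4)
  simpa only [cX, mul_comm (√a)] using h2

namespace TD

variable {ι A ix : Type} [Fintype ι] [Fintype ix] {T : TD ι A ix} (h : T.Ok)
include h

theorem Ok.tp_cond (a : A) (k : Fin 5 ⊕ Bool × ix) {x : ι → ℂ} (hx : x ∈ T.sF a k) :
    PshAt (T.cond a k) x := by
  have hx5 : x ∈ T.Cop a 5 := (h.sU_sub a k).2.2.2 hx
  obtain ⟨hf, hu, -⟩ := h.fr hx5
  have u0 : T.uu x ≠ 0 := hf.u_ne
  have hz := h.an_z a x hx5.1
  have hZ : AnalyticAt ℂ (T.Z a) x := (tp_proj T.is x).mul hz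
  have hq : PshAt T.q x := pshAt_normSq (tp_proj T.is x)
  have hm := h.mm_pos x
  have hμ := h.mu_pos
  have hc : 0 < T.c := one_pos.trans_le h.one_le
  have hD : AnalyticAt ℂ (fun t => 2 * T.uu t ^ 13 - T.Z a t) x :=
    (analyticAt_const.mul (hu.pow 13)).sub hZ
  have hD0 (hd : T.mm x ^ 13 / 2 ≤ ‖2 * T.uu x ^ 13 - T.Z a x‖) : 2 * T.uu x ^ 13 - T.Z a x ≠ 0 :=
    norm_pos_iff.1 (lt_of_lt_of_le (by positivity) hd)
  have hP (c : ℂ) (p : ℕ) : AnalyticAt ℂ (fun t => c * T.uu t ^ p) x :=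
    analyticAt_const.mul (hu.pow p)
  have hP0 (p : ℕ) : 8 * T.uu x ^ p ≠ 0 := mul_ne_zero (by norm_num) (pow_ne_zero _ u0)
  have hs (h4 : 1 / 4 ≤ T.q x) : x T.is ≠ 0 := fun h0 => by
    rw [q, h0] at h4
    norm_num at h4
  match k, hx with
  | .inl 0, _ =>
    exact tp_sub (pshAt_re (F := fun t => (T.Z a t + T.Z a t ^ 2 / (8 * T.uu t ^ 8)) / T.uu t ^ 13)
      ((hZ.add ((hZ.pow 2).div (hP 8 8) (hP0 8))).div (hu.pow 13) (pow_ne_zero _ u0))) _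
  | .inl 1, hx =>
    exact ((tp_sub (pshAt_normSq (F := fun t => T.z a t / (2 * T.uu t ^ 13 - T.Z a t))
      (hz.div hD (hD0 hx.2))) 1).sub_re (hP 5 4)).div_const (by positivity)
  | .inl 2, _ => exact ((tp_sub hq 1).sub_re (hP 5 4)).div_const (by positivity)
  | .inl 3, _ => exact ((h.psh_Φ a x hx5.1).sub_re (hP 10 8)).div_const (by positivity)
  | .inl 4, hx =>
    exact (((((h.psh_r a x hx5 hx.2.2.2 hx.2.2.1).sub_re
      (F := fun t => 2 * T.c * T.uu t ^ 17 / (2 * T.uu t ^ 13 - T.Z a t))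
      ((hP _ 17).div hD (hD0 hx.2.1))).add (pshAt_re
      (F := fun t => 30 * T.c * (T.uu t * T.Z a t + T.Z a t ^ 2 / (8 * T.uu t ^ 7)))
      (analyticAt_const.mul ((hu.mul hZ).add ((hZ.pow 2).div (hP 8 7) (hP0 7)))))).sub_re
      (hP T.c 9)).div_const (by positivity))
  | .inr (true, i), hx => exact tp_X _ _ (pshAt_im (h.an_Y a i x hx5.1 (hs hx.2))) hq hu
  | .inr (false, i), hx => exact tp_X _ _ (pshAt_neg_im (h.an_Y a i x hx5.1 (hs hx.2))) hq hu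

theorem Ok.psh_cond (a : A) (k : Fin 5 ⊕ Bool × ix) {x : ι → ℂ} (hx : x ∈ T.sF a k) :
    PshAt (fun t => (T.cond a k t - T.tilt a t) / T.ε) x := by
  simpa only [sub_eq_add_neg] using
    ((h.tp_cond a k hx).add (h.psh_tilt a x)).div_const h.ε_pos.le

/-- `open2` shows `-L / 4 < lam x` on `F0` -/
theorem Ok.psh_c0 {x : ι → ℂ} (hx : x ∈ T.F0) : PshAt (fun t => T.c0 t / T.ε) x := by
  have hm := h.mm_pos x
  have hμ := h.mu_pos
  have hc : 0 < T.c := one_pos.trans_le h.one_le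
  have hE : 0 < T.En x := by unfold En; positivity
  have hB : x ∈ T.Bcl 220 := ⟨hx.1.1.trans (by linarith), hx.1.2⟩
  have hl : -T.L / 4 ≤ T.lam x := by
    by_contra hl
    exact hx.2 (mem_iUnion.2 (h.open2 x hB (not_le.1 hl).le))
  exact ((h.psh_0 x hB hl).div_const (by positivity)).div_const h.ε_pos.le

theorem Ok.psh_cG (x : ι → ℂ) : PshAt (fun t => T.cG t / T.ε) x :=
  (tp_sub ((pshAt_normSq (tp_proj T.iz x)).div_const (sq_nonneg _)) 4).div_const h.ε_pos.le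

end TD

end Pool.Agent.MP_bea40e_an.Iv

end

section

open Filter Topology Set Metric Complex
open scoped ContDiff ComplexConjugate

namespace Pool.Agent.MP_bea40e_an.Iv

/-! Consequences of the conditions inside one chart. -/

namespace TD

variable {ι A ix : Type} [Fintype ι] [Fintype ix] {T : TD ι A ix} (h : T.Ok)
include h

theorem Ok.tk1_five {a : A} {x : ι → ℂ} (hx : x ∈ T.Cop a 4) : x ∈ T.Cop a 5 :=
  ⟨hx.1, hx.2.trans (by norm_num)⟩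

theorem Ok.tk1_pow {a : A} {x : ι → ℂ} (hx : x ∈ T.Cop a 5) :
    T.mm x ^ 4 ≤ 1 / 10 ^ 8 ∧ T.mm x ^ 13 ≤ T.mm x ^ 8 / 10 ^ 8 := by
  have f := (h.fr hx).1
  have h0 := f.m_pos
  have h1 := f.m_le
  have h2 : ∀ n : ℕ, T.mm x ^ (n + 1) ≤ 1 / 10 ^ 8 := fun n => by
    rw [pow_succ]
    exact (mul_le_of_le_one_left h0.le (pow_le_one₀ h0.le (by linarith))).trans h1
  refine ⟨h2 3, ?_⟩
  have := mul_le_mul_of_nonneg_left (h2 4) (pow_pos h0 8).le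
  calc T.mm x ^ 13 = T.mm x ^ 8 * T.mm x ^ (4 + 1) := by ring
    _ ≤ _ := this.trans_eq (by ring)

theorem Ok.tk1_s {a : A} {x : ι → ℂ} (hx : x ∈ T.Cop a 5) : ‖x T.is‖ ≤ 1001 / 1000 := by
  have h1 := ((h.n_lt a x 5).1 hx.2).2.1
  have h2 := (h.tk1_pow hx).1
  unfold q at h1
  exact abs_le_of_sq_le_sq' (by linarith) (by norm_num) |>.2

theorem Ok.tk1_G {x : ι → ℂ} (hG : T.cG x ≤ 1 / 100) : ‖x T.iz‖ ^ 2 ≤ 5 * T.Cz ^ 2 := by
  unfold cG at hG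
  have := h.Cz_pos
  rw [← div_le_iff₀ (by positivity)]
  linarith

/-- consequences of `low` -/
theorem Ok.basic_r {a : A} {x : ι → ℂ} (hx : x ∈ T.Cop a 5) (hl : -T.L / 4 ≤ T.lam x) {θ : ℝ}
    (hz : ‖T.z a x‖ ≤ θ * T.mm x ^ 8) (hθ : 0 ≤ θ) (hθ5 : θ ≤ 5) (hr : T.r x ≤ 220 * T.En x) :
    T.Φ a x ≤ (2 * θ + 1 / 10) * T.mm x ^ 8 ∧ (T.q x - 1) ^ 2 ≤ (2 * θ + 1 / 10) * T.mm x ^ 8 ∧
      (∀ i, T.wt a x * (T.Y a i x).im ^ 2 ≤ (θ + 1 / 10) * T.mm x ^ 8) ∧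
      (T.Z a x).re + (x T.il).im ^ 2 / 2 ≤ T.r x + T.mm x ^ 13 / 10 := by
  have f := (h.fr hx).1
  have h8 := pow_pos f.m_pos 8
  obtain ⟨h4, h13⟩ := h.tk1_pow hx
  have hE : T.En x ≤ T.mm x ^ 8 / 10 ^ 8 := by
    have := mul_le_mul_of_nonneg_left f.small h8.le
    unfold En
    calc T.c * T.mm x ^ 9 = T.mm x ^ 8 * (T.c * T.mm x) := by ring
      _ ≤ _ := this.trans_eq (by ring)
  have hlow := h.low a x hx hl (by linarith only [hr, h8, hE])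
  have hZ : -(θ * T.mm x ^ 8 + T.mm x ^ 8 / 200) ≤ (T.Z a x).re := by
    have h1 : ‖T.Z a x‖ ≤ 1001 / 1000 * (θ * T.mm x ^ 8) := by
      unfold Z
      rw [norm_mul]
      exact mul_le_mul (h.tk1_s hx) hz (norm_nonneg _) (by norm_num)
    have h2 := (abs_le.1 ((abs_re_le_norm _).trans h1)).1
    linarith only [mul_le_mul_of_nonneg_right hθ5 h8.le, h2]
  have hΦ := h.Φ_ge a x hx.1
  have hy := sq_nonneg (x T.il).im
  have hq := sq_nonneg (T.q x - 1)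
  have hS : 0 ≤ T.wt a x * ∑ i, (T.Y a i x).im ^ 2 :=
    mul_nonneg (h.wt_nonneg a x) (Finset.sum_nonneg fun i _ => sq_nonneg _)
  refine ⟨by linarith, by linarith, fun i => ?_, by linarith only [hlow, hΦ, hq, hS]⟩
  have := mul_le_mul_of_nonneg_left (Finset.single_le_sum
    (f := fun i => (T.Y a i x).im ^ 2) (fun i _ => sq_nonneg _) (Finset.mem_univ i))
    (h.wt_nonneg a x)
  linarith

/-- fact (a): all conditions of the chart `a` hold up to `1 / 100` on their open domains -/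
theorem Ok.fact_a {a : A} {x : ι → ℂ} (hx : x ∈ T.Cop a 4)
    (hc : ∀ k, x ∈ T.sU a k → T.cond a k x ≤ 1 / 100) (hG : T.cG x ≤ 1 / 100) :
    T.Φ a x ≤ 101 / 10 * T.mm x ^ 8 ∧ T.q x - 1 ≤ 51 / 10 * T.mm x ^ 4 ∧
      T.mm x ^ 13 < ‖2 * T.uu x ^ 13 - T.Z a x‖ ∧
      (9 / 10 * T.mm x ^ 8 ≤ ‖T.z a x‖ → -T.L / 4 < T.lam x ∧ T.r x ≤ 194 * T.En x ∧
        (‖T.z a x‖ ≤ 101 / 100 * T.mm x ^ 8 → T.r x ≤ 39 * T.En x)) := by
  have h5 := h.tk1_five hx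
  have f := (h.fr h5).1
  have h8 := pow_pos f.m_pos 8
  have h13' := pow_pos f.m_pos 13
  obtain ⟨h4, h13⟩ := h.tk1_pow h5
  have hP : T.mm x ^ 13 < ‖2 * T.uu x ^ 13 - T.Z a x‖ := f.of_cP (hc (.inl 0) hx)
  refine ⟨f.of_cF (hc (.inl 3) hx), f.of_cS (hc (.inl 2) hx), hP, fun hz => ?_⟩
  have h0 : 2 * T.uu x ^ 13 - T.Z a x ≠ 0 := norm_pos_iff.1 (h13'.trans hP)
  have hq : 1 - 11 * T.mm x ^ 4 < T.q x := f.of_cT h0 (hc (.inl 1) ⟨hx, by linarith only [h13', hP]⟩) hz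
  have hl : -T.L / 4 < T.lam x := by
    by_contra hl
    have := h.open1 a x h5 (not_lt.1 hl) (h.tk1_G hG)
    linarith only [h13', h13, hz, this]
  have hA := hc (.inl 4) ⟨hx, by linarith only [h13', hP], by linarith only [pow_pos f.m_pos 4, hq], hl⟩
  have hs1 := h.tk1_s h5
  have hs0 : 99 / 100 ≤ ‖x T.is‖ := by
    unfold q at hq
    exact abs_le_of_sq_le_sq' (by linarith only [h4, hq]) (norm_nonneg _) |>.2
  have hz4 := ((h.n_lt a x 4).1 hx.2).1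
  have hZ : ‖T.Z a x‖ = ‖x T.is‖ * ‖T.z a x‖ := norm_mul _ _
  have hZ0 := mul_le_mul_of_nonneg_right hs0 (norm_nonneg (T.z a x))
  have hZ1 := mul_le_mul_of_nonneg_right hs1 (norm_nonneg (T.z a x))
  exact ⟨hl, f.of_cA hA (by linarith only [h13', h13, hz, hZ, hZ0]) (by linarith only [h13', h13, hz4, hZ, hZ1]),
    fun hz1 => f.of_cA' hA (by linarith only [h13', h13, hz, hZ, hZ0]) (by linarith only [h13', h13, hZ, hZ1, hz1])⟩

/-- fact (b): on the inner edges of the domains the condition is negative -/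
theorem Ok.fact_b {a : A} {x : ι → ℂ} (hx : x ∈ T.Cop a 4)
    (hc : ∀ k, x ∈ T.sU a k → T.cond a k x ≤ 1 / 100) (hG : T.cG x ≤ 1 / 100)
    (k : Fin 5 ⊕ Bool × ix) (hF : x ∈ T.sF a k) (hU : x ∉ T.sU a k) :
    T.cond a k x ≤ -1 / 100 := by
  have h5 := h.tk1_five hx
  have f := (h.fr h5).1
  have h8 := pow_pos f.m_pos 8
  have h4' := pow_pos f.m_pos 4
  have h13' := pow_pos f.m_pos 13
  obtain ⟨h4, h13⟩ := h.tk1_pow h5
  have hP := (h.fact_a hx hc hG).2.2.1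
  have hX : ∀ Y : ℝ, |Y| ≤ 6 → T.q x ≤ 1 / 4 → cX T.μ T.a (T.uu x) Y (T.q x) ≤ -1 / 100 :=
    fun Y hY hq => f.cX_neg ((mul_nonpos_of_nonpos_of_nonneg
      (by linarith only [(abs_le.1 hY).2, hq]) (Real.sqrt_nonneg _)).trans (by linarith only [h4']))
  rcases k with k | ⟨b, i⟩
  · fin_cases k
    · exact absurd hx hU
    · exact absurd ⟨hx, by linarith only [h13', hP]⟩ hU
    · exact absurd hx hU
    · exact absurd hx hU
    · obtain ⟨-, -, hq, hl⟩ := hF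
      have h0 : 2 * T.uu x ^ 13 - T.Z a x ≠ 0 := norm_pos_iff.1 (h13'.trans hP)
      have hs1 := h.tk1_s h5
      have hZ : ‖T.Z a x‖ = ‖x T.is‖ * ‖T.z a x‖ := norm_mul _ _
      have hZ1 := mul_le_mul_of_nonneg_right hs1 (norm_nonneg (T.z a x))
      have hz4 := ((h.n_lt a x 4).1 hx.2).1
      have hr := h.up a x h5 hl hq (h.tk1_G hG) fun i => f.of_cX
        (hc (.inr (true, i)) ⟨hx, by linarith only [h4, hq]⟩) (hc (.inr (false, i)) ⟨hx, by linarith only [h4, hq]⟩) hq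
      refine f.cA_edge h0 ?_ (by linarith only [h13', h13, hZ, hZ1, hz4]) hr
      by_cases h1 : T.q x ≤ 1 - 12 * T.mm x ^ 4
      · exact f.of_cT_edge h0 (hc (.inl 1) ⟨hx, by linarith only [h13', hP]⟩) h1
      · have h2 : T.lam x ≤ -T.L / 4 :=
          not_lt.1 fun h2 => hU ⟨hx, by linarith only [h13', hP], not_le.1 h1, h2⟩
        have := h.open1 a x h5 h2 (h.tk1_G hG)
        exact (f.of_small (by linarith only [h13', hZ, hZ1, this])).2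
  · have hq : T.q x ≤ 1 / 4 := not_lt.1 fun hq => hU ⟨hx, hq⟩
    have hY := h.Y_le a i x h5 hF.2
    cases b
    · exact hX _ (by rwa [abs_neg]) hq
    · exact hX _ hY hq

end TD

end Pool.Agent.MP_bea40e_an.Iv

end

section

open Filter Topology Set Metric Complex
open scoped ContDiff ComplexConjugate

namespace Pool.Agent.MP_bea40e_an.Iv

theorem tk1b_X {μ m c a y : ℝ} {u : ℂ} (h : Fr μ m c a u y) {Y q : ℝ}
    (hY : |Y| * √a ≤ 3 * m ^ 4) (hq : q - 1 ≤ 3 * m ^ 4) :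
    cX μ a u Y q ≤ -1 / 100 ∧ cX μ a u (-Y) q ≤ -1 / 100 := by
  have hs := h.sqrt_le
  have h0 := Real.sqrt_nonneg a
  have hm : 0 ≤ m ^ 4 := by positivity
  have h1 : (q - 1) * √a ≤ 3 * m ^ 4 * √a := mul_le_mul_of_nonneg_right hq h0
  have h2 : 3 * m ^ 4 * √a ≤ 3 * m ^ 4 * (1 / 200) :=
    mul_le_mul_of_nonneg_left hs (by positivity)
  have h3 : Y * √a ≤ |Y| * √a := mul_le_mul_of_nonneg_right (le_abs_self Y) h0
  have h4 : -Y * √a ≤ |Y| * √a := mul_le_mul_of_nonneg_right (neg_le_abs Y) h0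
  exact ⟨h.cX_neg (by linarith only [hY, hm, h1, h2, h3]), h.cX_neg (by linarith only [hY, hm, h1, h2, h4])⟩

theorem tk1b_abs {t m θ : ℝ} (ht : t ^ 2 ≤ θ * m ^ 8) (hθ : θ ≤ 9) : |t| ≤ 3 * m ^ 4 := by
  have hm : 0 ≤ m ^ 4 := by positivity
  have hm8 : 0 ≤ m ^ 8 := by positivity
  refine abs_le_of_sq_le_sq' ?_ (by positivity) |> abs_le.mpr
  have : (3 * m ^ 4) ^ 2 = 9 * m ^ 8 := by ring
  nlinarith only [ht, hθ]

theorem tk1b_Y {a w Y m θ : ℝ} (ha : 0 < a) (hw : a ≤ w ∨ 20 * √a ≤ m ^ 4) (hY : |Y| ≤ 6)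
    (h : w * Y ^ 2 ≤ θ * m ^ 8) (hθ : θ ≤ 9) : |Y| * √a ≤ 3 * m ^ 4 := by
  have h0 := Real.sqrt_nonneg a
  have hm : 0 ≤ m ^ 4 := by positivity
  rcases hw with hw | hw
  · have h1 : (|Y| * √a) ^ 2 ≤ θ * m ^ 8 := by
      rw [mul_pow, sq_abs, Real.sq_sqrt ha.le]
      nlinarith only [h, hw]
    have h2 := tk1b_abs h1 hθ
    exact (le_abs_self _).trans h2
  · have h1 : |Y| * √a ≤ 6 * √a := mul_le_mul_of_nonneg_right hY h0
    linarith only [hm, hw, h1]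

namespace TD

variable {ι A ix : Type} [Fintype ι] [Fintype ix] {T : TD ι A ix} (h : T.Ok)
include h

omit h [Fintype ι] [Fintype ix] in
theorem tk1b_Near_mono {δ δ' : ℝ} (hδ : δ ≤ δ') {a b : A} {x : ι → ℂ} (hn : T.Near δ a b x) :
    T.Near δ' a b x :=
  ⟨hn.1.trans hδ, hn.2.1.trans hδ, fun hq i => (hn.2.2 hq i).trans hδ⟩

theorem Ok.tk1b_Z {a : A} {x : ι → ℂ} (hx : x ∈ T.Cop a 5) (hz : ‖T.z a x‖ ≤ T.mm x ^ 13 / 10) :
    ‖T.Z a x‖ ≤ T.mm x ^ 13 / 5 := by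
  have hs := (h.fr hx).2.2
  have h1 : ‖T.Z a x‖ = ‖x T.is‖ * ‖T.z a x‖ := norm_mul _ _
  have h2 : ‖x T.is‖ * ‖T.z a x‖ ≤ 2 * ‖T.z a x‖ := mul_le_mul_of_nonneg_right hs (norm_nonneg _)
  linarith

/-- fact (c): the outer edge -/
theorem Ok.fact_c {a : A} {x : ι → ℂ} (hx : x ∈ T.Cop a 5) (hl : -T.L / 4 ≤ T.lam x)
    (h1 : 39 / 10 * T.mm x ^ 8 ≤ ‖T.z a x‖) (h2 : ‖T.z a x‖ ≤ 41 / 10 * T.mm x ^ 8)
    (hr : T.r x ≤ 46 * T.En x) (k : Fin 5 ⊕ Bool × ix) (hF : x ∈ T.sF a k) :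
    T.cond a k x ≤ -1 / 100 := by
  have fr := (h.fr hx).1
  have hm := fr.m_pos
  have hm1 := fr.m_le
  have hc := h.one_le
  have hE : T.En x = T.c * T.mm x ^ 9 := rfl
  have h9 : 0 < T.mm x ^ 9 := by positivity
  have h8 : 0 < T.mm x ^ 8 := by positivity
  have h4 : 0 < T.mm x ^ 4 := by positivity
  have hE1 : T.mm x ^ 9 ≤ T.En x := by rw [hE]; nlinarith only [hc, h9]
  obtain ⟨b1, b2, b3, b4⟩ := h.basic_r hx hl h2 (by norm_num) (by norm_num) (by linarith only [hr, h9, hE1])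
  have hq : |T.q x - 1| ≤ 3 * T.mm x ^ 4 := tk1b_abs b2 (by norm_num)
  have h13 : T.mm x ^ 13 ≤ T.mm x ^ 9 := pow_le_pow_of_le_one hm.le (by linarith only [hm, hm1]) (by norm_num)
  have hX : (x T.is * T.z a x).re ≤ 47 * (T.c * T.mm x ^ 9) := by
    have : (T.Z a x).re = (x T.is * T.z a x).re := rfl
    linarith only [sq_nonneg (x T.il).im, hr, hE, h9, hE1, b4, h13, this]
  obtain ⟨o1, o2, o3⟩ := fr.outer (s := x T.is) (z := T.z a x) (r := T.r x) hq h1 h2 hr hX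
  have hq' : T.q x - 1 ≤ 3 * T.mm x ^ 4 := (le_abs_self _).trans hq
  have hXX : ∀ i, 1 / 4 ≤ T.q x → _ := fun i hi =>
    tk1b_X fr (tk1b_Y h.a_pos (h.wt_ge a x hx) (h.Y_le a i x hx hi) (b3 i) (by norm_num)) hq'
  match k, hF with
  | .inl 0, _ => exact o1
  | .inl 1, _ => exact o2
  | .inl 2, _ => exact fr.cS_neg (by linarith only [h4, hq'])
  | .inl 3, _ => exact fr.cF_neg (by linarith only [h8, b1])
  | .inl 4, _ => exact o3
  | .inr (true, i), hF => exact (hXX i hF.2).1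
  | .inr (false, i), hF => exact (hXX i hF.2).2

/-- fact (d): points of the domain (cases `-L / 4 ≤ lam x` and `lam x < -L / 4`) -/
theorem Ok.fact_d {a : A} {x : ι → ℂ} (hr : T.r x < 0) (k : Fin 5 ⊕ Bool × ix)
    (hU : x ∈ T.sU a k) : T.cond a k x ≤ -1 / 100 := by
  have hx4 : x ∈ T.Cop a 4 := (h.sU_sub a k).2.1 hU
  have hx : x ∈ T.Cop a 5 := (h.sU_sub a k).2.2.2 ((h.sU_sub a k).1 hU)
  have fr := (h.fr hx).1
  have hm := fr.m_pos
  have hm1 := fr.m_le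
  have hc := h.one_le
  have h9 : 0 < T.mm x ^ 9 := by positivity
  have h8 : 0 < T.mm x ^ 8 := by positivity
  have h4 : 0 < T.mm x ^ 4 := by positivity
  have h13 : 0 < T.mm x ^ 13 := by positivity
  have hE : 0 < T.En x := mul_pos (by linarith only [hc]) h9
  have hz := ((h.n_lt a x 4).1 hx4.2).1
  rcases le_or_gt (-T.L / 4) (T.lam x) with hl | hl
  · obtain ⟨b1, b2, b3, b4⟩ := h.basic_r hx hl hz.le (by norm_num) (by norm_num) (by linarith only [hr, hE])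
    have hq : |T.q x - 1| ≤ 3 * T.mm x ^ 4 := tk1b_abs b2 (by norm_num)
    have hX : (x T.is * T.z a x).re + (x T.il).im ^ 2 / 2 ≤ T.mm x ^ 13 / 10 := by
      have : (T.Z a x).re = (x T.is * T.z a x).re := rfl
      linarith only [hr, b4, this]
    obtain ⟨o1, o2, o3⟩ := fr.inside (s := x T.is) (z := T.z a x) (r := T.r x) hq
      (by linarith only [h8, hz]) hr hX
    have hq' : T.q x - 1 ≤ 3 * T.mm x ^ 4 := (le_abs_self _).trans hq
    have hXX : ∀ i, 1 / 4 ≤ T.q x → _ := fun i hi =>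
      tk1b_X fr (tk1b_Y h.a_pos (h.wt_ge a x hx) (h.Y_le a i x hx hi) (b3 i) (by norm_num)) hq'
    match k, hU with
    | .inl 0, _ => exact o1
    | .inl 1, _ => exact o2
    | .inl 2, _ => exact fr.cS_neg (by linarith only [h4, hq'])
    | .inl 3, _ => exact fr.cF_neg (by linarith only [h8, b1])
    | .inl 4, _ => exact o3
    | .inr (true, i), hU => exact (hXX i hU.2.le).1
    | .inr (false, i), hU => exact (hXX i hU.2.le).2
  · have hb := (h.box0 x hr).2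
    have hCz := h.Cz_pos
    have hi : ‖x T.iz‖ ^ 2 ≤ 5 * T.Cz ^ 2 := by nlinarith only [norm_nonneg (x T.iz), hb]
    have hz1 := h.open1 a x hx hl.le hi
    obtain ⟨c1, c2, c3⟩ := h.open3 a x hx hl.le hr
    have hz2 : ‖T.z a x‖ ≤ T.mm x ^ 13 / 10 := by linarith only [h13, hz1]
    have hXX : ∀ i, 1 / 4 ≤ T.q x → _ := fun i hi =>
      tk1b_X (q := T.q x) fr (tk1b_Y (w := 0) (θ := 0) h.a_pos (Or.inr c3) (h.Y_le a i x hx hi)
        (by simp) (by norm_num)) (by linarith only [h4, c1])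
    match k, hU with
    | .inl 0, _ => exact fr.cP_small (h.tk1b_Z hx hz2)
    | .inl 1, _ => exact fr.cT_small (h.fr hx).2.2 hz2
    | .inl 2, _ => exact fr.cS_neg (by linarith only [h4, c1])
    | .inl 3, _ => exact fr.cF_neg (by linarith only [h8, c2])
    | .inl 4, hU => exact absurd hU.2.2.2 (not_lt.mpr hl.le)
    | .inr (true, i), hU => exact (hXX i hU.2.le).1
    | .inr (false, i), hU => exact (hXX i hU.2.le).2

/-- fact (e): almost deep points -/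
theorem Ok.fact_e {a : A} {x : ι → ℂ} (hz : ‖T.z a x‖ ≤ T.mm x ^ 13 / 40) (hq : T.q x ≤ 1)
    (hΦ : T.Φ a x ≤ 11 / 10 * T.mm x ^ 8) (hi : ‖x T.iz‖ ≤ T.Cz)
    (hY : 1 / 4 ≤ T.q x → ∀ i, |(T.Y a i x).im| ≤ 10 * (1 - T.q x) + T.mm x ^ 4)
    (k : Fin 5 ⊕ Bool × ix) (hU : x ∈ T.sU a k) : T.cond a k x ≤ -1 / 100 := by
  have hx : x ∈ T.Cop a 5 := (h.sU_sub a k).2.2.2 ((h.sU_sub a k).1 hU)
  have fr := (h.fr hx).1
  have hm := fr.m_pos
  have hm1 := fr.m_le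
  have h8 : 0 < T.mm x ^ 8 := by positivity
  have h4 : 0 < T.mm x ^ 4 := by positivity
  have h13 : 0 < T.mm x ^ 13 := by positivity
  have hz2 : ‖T.z a x‖ ≤ T.mm x ^ 13 / 10 := by linarith only [hz, h13]
  have hZ := h.tk1b_Z hx hz2
  have hs := fr.sqrt_le
  have h0 := Real.sqrt_nonneg T.a
  have hXX : ∀ Y : ℝ, Y ≤ 10 * (1 - T.q x) + T.mm x ^ 4 →
      cX T.μ T.a (T.uu x) Y (T.q x) ≤ -1 / 100 := by
    intro Y hY
    refine fr.cX_neg ?_
    have e1 : (Y + 10 * (T.q x - 1)) * √T.a ≤ T.mm x ^ 4 * √T.a :=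
      mul_le_mul_of_nonneg_right (by linarith only [hY]) h0
    nlinarith only [h4, hs, e1]
  match k, hU with
  | .inl 0, _ => exact fr.cP_small hZ
  | .inl 1, _ => exact fr.cT_small (h.fr hx).2.2 hz2
  | .inl 2, _ => exact fr.cS_neg (by linarith only [hq, h4])
  | .inl 3, _ => exact fr.cF_neg (by linarith only [hΦ, h8])
  | .inl 4, hU =>
    obtain ⟨-, -, u1, u2⟩ := hU
    have hCz := h.Cz_pos
    have hi2 : ‖x T.iz‖ ^ 2 ≤ 5 * T.Cz ^ 2 := by nlinarith only [norm_nonneg (x T.iz), hi]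
    have hm4 : T.mm x ^ 4 ≤ T.mm x := pow_le_of_le_one hm.le (by linarith only [hm, hm1]) (by norm_num)
    have hq4 : 1 / 4 ≤ T.q x := by linarith only [hm1, u1, hm4]
    have hr : T.r x ≤ T.c * T.mm x ^ 8 := by
      refine h.up a x hx u2.le u1.le hi2 fun i => ?_
      have e1 : |(T.Y a i x).im| * √T.a ≤ (121 * T.mm x ^ 4) * √T.a :=
        mul_le_mul_of_nonneg_right (by linarith only [hY hq4 i, u1]) h0
      nlinarith only [h4, hs, e1]
    obtain ⟨s1, s2⟩ := fr.of_small hZ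
    have hm13 : T.mm x ^ 13 ≤ T.mm x ^ 8 :=
      pow_le_pow_of_le_one hm.le (by linarith only [hm, hm1]) (by norm_num)
    exact fr.cA_edge (norm_pos_iff.mp (h13.trans s1)) s2 (by linarith only [h8, hZ, hm13]) hr
  | .inr (true, i), hU => exact hXX _ ((le_abs_self _).trans (hY hU.2.le i))
  | .inr (false, i), hU => exact hXX _ ((neg_le_abs _).trans (hY hU.2.le i))

/-- close charts have close conditions -/
theorem Ok.cond_near {a b : A} {x : ι → ℂ} (hx : x ∈ T.Cop a 5) (hm : T.mm x ≤ 3 * T.μ)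
    (hn : T.Near (T.ε * T.μ ^ 30) a b x) (k : Fin 5 ⊕ Bool × ix) (ha : x ∈ T.sF a k)
    (hb : x ∈ T.sF b k) : T.cond a k x ≤ T.cond b k x + T.ε := by
  have fr := (h.fr hx).1
  have hm0 := fr.m_pos
  have h8 : 0 < T.mm x ^ 8 := by positivity
  have hε := h.ε_pos
  have hε1 := h.ε_le
  have hz := ((h.n_lt a x 5).1 hx.2).1
  obtain ⟨z1, z2⟩ := fr.near_z (s := x T.is) (r := T.r x) hm hε.le (by linarith) (h.fr hx).2.2
    (by linarith only [h8, hz]) hn.1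
  have hYY : ∀ i, 1 / 4 ≤ T.q x → |(T.Y a i x).im - (T.Y b i x).im| ≤ T.ε * T.μ ^ 30 := by
    intro i hq
    rw [← Complex.sub_im]
    exact (Complex.abs_im_le_norm _).trans (hn.2.2 hq i)
  have key : ∀ {s t : ℝ}, |s - t| ≤ T.ε → s ≤ t + T.ε := fun hst => by
    linarith only [(abs_le.mp hst).2]
  match k, ha, hb with
  | .inl 0, _, _ => exact key z1
  | .inl 1, ha, hb => exact key (z2 ha.2 hb.2).1
  | .inl 2, _, _ => exact le_add_of_nonneg_right hε.le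
  | .inl 3, _, _ => exact key (fr.near_F hε.le hn.2.1)
  | .inl 4, ha, hb => exact key (z2 ha.2.1 hb.2.1).2
  | .inr (true, i), ha, _ => exact key (fr.near_X hε.le (hYY i ha.2))
  | .inr (false, i), ha, _ =>
    refine key (fr.near_X hε.le ?_)
    rw [neg_sub_neg, abs_sub_comm]
    exact hYY i ha.2

/-- a usable form of `close`, including the case `a = b` -/
theorem Ok.close' {a b : A} {x : ι → ℂ} (hx : x ∈ T.Cop a 5) (hV : x ∈ T.V b) (hg : T.g b x < 5)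
    (hp : T.pre a b x) : T.Near (T.mm x ^ 13 / 1000) a b x := by
  have fr := (h.fr hx).1
  have hm := fr.m_pos
  have hm1 := fr.m_le
  have h13 : 0 < T.mm x ^ 13 := by positivity
  by_cases hab : a = b
  · subst hab
    refine ⟨?_, ?_, fun _ i => ?_⟩ <;> simp only [sub_self, norm_zero, abs_zero] <;> positivity
  · refine tk1b_Near_mono ?_ (h.close a b hab x hx hV hg hp).2
    have e1 : T.μ ^ 30 ≤ T.mm x ^ 30 := pow_le_pow_left₀ h.mu_pos.le fr.mu_le 30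
    have e2 : T.mm x ^ 30 ≤ T.mm x ^ 14 := pow_le_pow_of_le_one hm.le (by linarith) (by norm_num)
    have e3 : T.mm x ^ 14 ≤ T.mm x ^ 13 / 10 := by
      rw [pow_succ]
      nlinarith only [hm1, h13]
    have e4 : T.ε * T.μ ^ 30 ≤ 1 / 200 * T.μ ^ 30 :=
      mul_le_mul_of_nonneg_right h.ε_le (pow_nonneg h.mu_pos.le 30)
    linarith

/-- a usable form of `dom`: a chart in which the region level is small -/
theorem Ok.dom' {a : A} {x : ι → ℂ} (hx : x ∈ T.Cop a 5) :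
    ∃ b, x ∈ T.V b ∧ T.pre a b x ∧ T.g b x < 1 ∧ T.Near (T.mm x ^ 13 / 1000) a b x := by
  rcases lt_or_ge (T.g a x) 1 with hg | hg
  · exact ⟨a, hx.1, h.pre_refl a x, hg, h.close' hx hx.1 (by linarith) (h.pre_refl a x)⟩
  · obtain ⟨b, hV, hp, hb, -⟩ := h.dom a x hx hg
    exact ⟨b, hV, hp, hb, h.close' hx hV (by linarith) hp⟩

end TD

end Pool.Agent.MP_bea40e_an.Iv

end

section

open Filter Topology Set Metric Complex
open scoped ContDiff ComplexConjugate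

namespace Pool.Agent.MP_bea40e_an.Iv

/-! The set `K`: points `x` of a chart `b` with `x ∈ Q b` and `Sat ε b x`. See section 5 of the
paper, (H), and points R2, R3 of the referee. Note `tilt + ε ≤ 1 / 100`. -/

namespace TD

variable {ι A ix : Type} [Fintype ι] [Fintype ix] [Fintype A] {T : TD ι A ix} (h : T.Ok)
include h

theorem Ok.tk2_pow {a : A} {x : ι → ℂ} (hx : x ∈ T.V a) :
    0 < T.mm x ^ 13 ∧ T.mm x ^ 13 ≤ T.mm x ^ 8 ∧ T.mm x ^ 8 ≤ T.mm x ^ 4 := by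
  have h0 := h.mm_pos x
  have h1 := h.small x (h.V_lam a x hx)
  have h2 := h.one_le
  have h3 : T.mm x ≤ 1 := by nlinarith
  exact ⟨by positivity, pow_le_pow_of_le_one h0.le h3 (by norm_num),
    pow_le_pow_of_le_one h0.le h3 (by norm_num)⟩

theorem Ok.tk2_En (x : ι → ℂ) : 0 < T.En x := by
  have h0 := h.mm_pos x
  have h2 := h.one_le
  unfold TD.En
  positivity

omit h in
theorem tk2_op {a : A} {x : ι → ℂ} {θ θ' : ℝ} (hx : x ∈ T.Cop a θ) (ht : θ ≤ θ') :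
    x ∈ T.Cop a θ' := ⟨hx.1, lt_of_lt_of_le hx.2 ht⟩

omit h in
theorem tk2_cl {a : A} {x : ι → ℂ} {θ θ' : ℝ} (hx : x ∈ T.Ccl a θ) (ht : θ < θ') :
    x ∈ T.Cop a θ' := ⟨hx.1, lt_of_le_of_lt hx.2 ht⟩

theorem Ok.tk2_B {x : ι → ℂ} {θ : ℝ} (hx : T.r x ≤ θ * T.En x) (ht : θ ≤ 220)
    (hl : |T.lam x| ≤ 7 / 4 * T.L) : x ∈ T.Bcl 220 :=
  ⟨hx.trans (mul_le_mul_of_nonneg_right ht (h.tk2_En x).le), hl⟩

theorem Ok.tk2_hc {b : Option A} {x : ι → ℂ} (hs : T.Sat T.ε b x) {a : A} (ha : x ∈ T.Cop a 4)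
    (hr : T.rel (some a) b x) :
    (∀ k, x ∈ T.sU a k → T.cond a k x ≤ 1 / 100) ∧ T.cG x ≤ 1 / 100 := by
  have h1 := h.ε_le
  have h2 := (abs_le.1 (h.tilt_le a x (tk2_op ha (by norm_num)))).2
  refine ⟨fun k hk => ?_, ?_⟩
  · have := hs.1 a k hk hr
    linarith
  · have := hs.2.2
    linarith only [h1, this]

theorem Ok.tk2_none {x : ι → ℂ} (hQ : x ∈ T.Q none) (hs : T.Sat T.ε none x) :
    T.r x ≤ 46 * T.En x ∧ -T.L / 4 < T.lam x ∧ |T.lam x| ≤ 3 / 2 * T.L := by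
  obtain ⟨hB, hn⟩ := hQ
  have hE := h.tk2_En x
  have hL := h.L_pos
  have hB' : x ∈ T.Bcl 220 := h.tk2_B hB.1 (by norm_num) hB.2
  have hl := (h.box x hB').1
  have hU : x ∈ T.U0 := by
    refine ⟨⟨by linarith only [hB.1, hE], by linarith⟩, fun hc => hn ?_⟩
    obtain ⟨a, ha⟩ := mem_iUnion.1 hc
    exact mem_iUnion.2 ⟨a, tk2_cl ha (by norm_num)⟩
  refine ⟨?_, ?_, hl⟩
  · have h1 : (T.r x - 45 * T.En x) / (T.c * T.μ ^ 9) ≤ T.ε := hs.2.1 hU
    have hμ := h.mu_pos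
    have hc := h.one_le
    have hp : 0 < T.c * T.μ ^ 9 := by positivity
    rw [div_le_iff₀ hp] at h1
    have h2 : T.μ ^ 9 ≤ T.mm x ^ 9 := pow_le_pow_left₀ hμ.le (h.mu_le _) 9
    have h3 : T.c * T.μ ^ 9 ≤ T.En x := mul_le_mul_of_nonneg_left h2 (by linarith only [hc])
    have h4 : T.ε * (T.c * T.μ ^ 9) ≤ 1 * (T.c * T.μ ^ 9) :=
      mul_le_mul_of_nonneg_right (by linarith only [h.ε_le]) hp.le
    linarith only [h1, h3, h4]
  · by_contra hc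
    obtain ⟨a, ha⟩ := h.open2 x hB' (not_lt.1 hc)
    exact hn (mem_iUnion.2 ⟨a, tk2_op ha (by norm_num)⟩)

omit h in
theorem tk2_near {a b : A} {x : ι → ℂ} {δ : ℝ} (hn : T.Near δ a b x) :
    ‖T.z a x‖ ≤ ‖T.z b x‖ + δ ∧ ‖T.z b x‖ ≤ ‖T.z a x‖ + δ ∧ T.Φ a x ≤ T.Φ b x + δ ∧
      T.Φ b x ≤ T.Φ a x + δ := by
  have h1 := abs_le.1 ((abs_norm_sub_norm_le (T.z a x) (T.z b x)).trans hn.1)
  have h2 := abs_le.1 hn.2.1
  refine ⟨?_, ?_, ?_, ?_⟩ <;> linarith only [h1.1, h1.2, h2.1, h2.2]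

theorem Ok.tk2_in {b : Option A} {x : ι → ℂ} (hs : T.Sat T.ε b x) {a : A} (ha : x ∈ T.Cop a 4)
    (hr : T.rel (some a) b x) {θ : ℝ} (h1 : 1 ≤ θ) (hz : ‖T.z a x‖ ≤ (θ - 1 / 10) * T.mm x ^ 8) :
    ∃ d, x ∈ T.Cop d θ ∧ T.pre a d x := by
  obtain ⟨hc, hG⟩ := h.tk2_hc hs ha hr
  obtain ⟨f1, f2, -, -⟩ := h.fact_a ha hc hG
  obtain ⟨d, hV, hp, hg, hn⟩ := h.dom' (tk2_op ha (by norm_num) : x ∈ T.Cop a 5)
  obtain ⟨p1, p2, p3⟩ := h.tk2_pow hV
  obtain ⟨-, n2, -, n4⟩ := tk2_near hn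
  have q1 : 1 * T.mm x ^ 8 ≤ θ * T.mm x ^ 8 := mul_le_mul_of_nonneg_right h1 (by linarith only [p1, p2])
  have q2 : 1 * T.mm x ^ 4 ≤ θ * T.mm x ^ 4 := mul_le_mul_of_nonneg_right h1 (by linarith only [p1, p2, p3])
  refine ⟨d, ⟨hV, (h.n_lt d x θ).2 ⟨?_, ?_, ?_, ?_⟩⟩, hp⟩ <;> linarith only [hz, p1, p2, n2, f2, p3, q2, f1, n4, q1, h1, hg]

/-- basic bounds in every chart through the point: for `b = none` use `Q none ⊆ U0`, `open2`,
`basic_r`; for `b = some β` use `fact_a` and `close'` -/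
theorem Ok.K_basic {b : Option A} {x : ι → ℂ} (hQ : x ∈ T.Q b) (hs : T.Sat T.ε b x) {a : A}
    (ha : x ∈ T.Cop a 5) (hr : T.rel (some a) b x) :
    T.Φ a x ≤ 11 * T.mm x ^ 8 ∧ T.q x - 1 ≤ 6 * T.mm x ^ 4 := by
  obtain ⟨p1, p2, p3⟩ := h.tk2_pow ha.1
  cases b with
  | none =>
    obtain ⟨r1, r2, -⟩ := h.tk2_none hQ hs
    have hE := h.tk2_En x
    obtain ⟨b1, b2, -, -⟩ := h.basic_r ha r2.le (θ := 5) ((h.n_lt a x 5).1 ha.2).1.le
      (by norm_num) le_rfl (by linarith only [r1, hE])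
    refine ⟨by linarith only [p1, p2, b1], ?_⟩
    by_contra hc
    have hc' : 6 * T.mm x ^ 4 < T.q x - 1 := not_le.1 hc
    have e : T.mm x ^ 8 = (T.mm x ^ 4) ^ 2 := by ring
    have h4 : 0 < T.mm x ^ 4 := by linarith only [p1, p2, p3]
    rw [e] at b2
    nlinarith only [p3, b2, hc]
  | some β =>
    have hβ : x ∈ T.Cop β 4 := tk2_cl hQ (by norm_num)
    obtain ⟨hc, hG⟩ := h.tk2_hc hs hβ (h.pre_refl β x)
    obtain ⟨f1, f2, -, -⟩ := h.fact_a hβ hc hG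
    have hg := ((h.n_lt β x 4).1 hβ.2).2.2.2
    obtain ⟨-, -, n3, -⟩ := tk2_near (h.close' ha hβ.1 (by linarith only [hg]) hr)
    constructor <;> linarith only [p1, p2, f1, n3, p3, f2]

/-- (H) for the conditions of a tube chart -/
theorem Ok.K_H {b : Option A} {x : ι → ℂ} (hQ : x ∈ T.Q b) (hs : T.Sat T.ε b x) {a : A}
    (k : Fin 5 ⊕ Bool × ix) (hF : x ∈ T.sF a k) (hU : x ∉ T.sU a k) (hr : T.rel (some a) b x) :
    T.cond a k x < T.tilt a x := by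
  have ha5 : x ∈ T.Cop a 5 := (h.sU_sub a k).2.2.2 hF
  have ha4 : x ∈ T.Ccl a 4 := (h.sU_sub a k).2.2.1 hF
  have ht := (abs_le.1 (h.tilt_le a x ha5)).1
  by_cases h4 : x ∈ T.Cop a 4
  · obtain ⟨hc, hG⟩ := h.tk2_hc hs h4 hr
    have := h.fact_b h4 hc hG k hF hU
    linarith
  obtain ⟨p1, p2, p3⟩ := h.tk2_pow ha5.1
  obtain ⟨k1, k2⟩ := h.K_basic hQ hs ha5 hr
  have hz4 := ((h.n_le a x 4).1 ha4.2).1
  by_cases hz : 39 / 10 * T.mm x ^ 8 ≤ ‖T.z a x‖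
  · cases b with
    | none =>
      obtain ⟨r1, r2, -⟩ := h.tk2_none hQ hs
      have := h.fact_c ha5 r2.le hz (by linarith only [p1, p2, hz4]) r1 k hF
      linarith only [ht, this]
    | some β =>
      exfalso
      obtain ⟨z1, -, -, z4⟩ := (h.n_le β x 3).1 hQ.2
      obtain ⟨n1, -, -, -⟩ := tk2_near (h.close' ha5 hQ.1 (by linarith only [z4]) hr)
      linarith
  have hz' : ‖T.z a x‖ < 39 / 10 * T.mm x ^ 8 := not_le.1 hz
  have hg : 4 ≤ T.g a x := by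
    by_contra hc
    exact h4 ⟨ha5.1, (h.n_lt a x 4).2 ⟨by linarith only [p1, p2, hz], by linarith only [p1, p2, p3, k2], by linarith only [p1, p2, k1], not_le.1 hc⟩⟩
  obtain ⟨β, hV, hp, hgβ, htl⟩ := h.dom a x ha5 (by linarith only [hg])
  have hne : a ≠ β := by
    rintro rfl
    linarith only [hg, hgβ]
  obtain ⟨hm, hn⟩ := h.close a β hne x ha5 hV (by linarith only [hgβ]) hp
  obtain ⟨-, n2, -, n4⟩ := tk2_near (h.close' ha5 hV (by linarith only [hgβ]) hp)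
  have hβ : x ∈ T.Cop β 4 :=
    ⟨hV, (h.n_lt β x 4).2 ⟨by linarith only [p1, p2, hz, n2], by linarith only [p1, p2, p3, k2], by linarith only [p1, p2, k1, n4], by linarith only [hgβ]⟩⟩
  have hβ' : x ∈ T.Ccl β 4 := ⟨hV, hβ.2.le⟩
  have hrβ : T.rel (some β) b x := by
    cases b with
    | none => trivial
    | some γ => exact h.pre_trans β a γ x (h.pre_symm a β x hp) hr
  obtain ⟨hc, hG⟩ := h.tk2_hc hs hβ hrβ
  obtain ⟨-, -, f3, -⟩ := h.fact_a hβ hc hG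
  have f3' : T.mm x ^ 13 / 2 ≤ ‖2 * T.uu x ^ 13 - T.Z β x‖ := by linarith only [p1, f3]
  have hFβ : x ∈ T.sF β k := by
    rcases k with k | k
    · fin_cases k
      · exact hβ'
      · exact ⟨hβ', f3'⟩
      · exact hβ'
      · exact hβ'
      · exact ⟨hβ', f3', hF.2.2⟩
    · exact ⟨hβ', hF.2⟩
  have hε := h.ε_pos
  have htβ := (abs_le.1 (h.tilt_le β x (tk2_op hβ (by norm_num)))).1
  have hcβ : T.cond β k x ≤ T.tilt β x + T.ε := by
    by_cases hUβ : x ∈ T.sU β k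
    · exact hs.1 β k hUβ hrβ
    · have := h.fact_b hβ hc hG k hFβ hUβ
      linarith only [hε, htβ, this]
  have := h.cond_near ha5 hm hn k hF hFβ
  linarith only [htl, hε, hcβ, this]

/-- (H) for the outer condition -/
theorem Ok.K_H0 {b : Option A} {x : ι → ℂ} (hQ : x ∈ T.Q b) (hs : T.Sat T.ε b x) (hF : x ∈ T.F0)
    (hU : x ∉ T.U0) : T.c0 x < 0 := by
  obtain ⟨hB, hn⟩ := hF
  have hE := h.tk2_En x
  have hL := h.L_pos
  have hB' : x ∈ T.Bcl 220 := h.tk2_B hB.1 (by norm_num) hB.2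
  have hl := (h.box x hB').1
  have key : ∀ a, x ∈ T.Cop a 4 → T.rel (some a) b x → T.r x ≤ 194 * T.En x ∧
      (‖T.z a x‖ ≤ 101 / 100 * T.mm x ^ 8 → T.r x ≤ 39 * T.En x) := by
    intro a ha hr
    obtain ⟨hc, hG⟩ := h.tk2_hc hs ha hr
    by_cases hz : 9 / 10 * T.mm x ^ 8 ≤ ‖T.z a x‖
    · exact ((h.fact_a ha hc hG).2.2.2 hz).2
    · exfalso
      obtain ⟨d, hd, -⟩ := h.tk2_in hs ha hr (θ := 1) le_rfl (by linarith only [hz])
      exact hn (mem_iUnion.2 ⟨d, hd⟩)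
  have hlt : T.r x < 210 * T.En x := by
    cases b with
    | none => linarith only [(h.tk2_none hQ hs).1, hE]
    | some β => linarith only [(key β (tk2_cl hQ (by norm_num)) (h.pre_refl β x)).1, hE]
  have hin : x ∈ ⋃ a, T.Ccl a 1 := by
    by_contra hc
    exact hU ⟨⟨hlt, by linarith only [hL, hl]⟩, hc⟩
  obtain ⟨γ, hγ⟩ := mem_iUnion.1 hin
  have hrγ : T.rel (some γ) b x := by
    cases b with
    | none => trivial
    | some β => exact h.sep γ β x (tk2_cl hγ (by norm_num)) (tk2_cl hQ (by norm_num)) hB'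
  obtain ⟨p1, p2, p3⟩ := h.tk2_pow hγ.1
  have hz := ((h.n_le γ x 1).1 hγ.2).1
  have h39 := (key γ (tk2_cl hγ (by norm_num)) hrγ).2 (by linarith only [p1, p2, hz])
  have hμ := h.mu_pos
  have hc := h.one_le
  exact div_neg_of_neg_of_pos (by linarith only [hE, h39]) (by positivity)

/-- `K` lies in the interior of `Q` -/
theorem Ok.K_Qo {b : Option A} {x : ι → ℂ} (hQ : x ∈ T.Q b) (hs : T.Sat T.ε b x) :
    ∃ b', x ∈ T.Qo b' ∧ T.rel b' b x := by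
  have hE := h.tk2_En x
  have hL := h.L_pos
  cases b with
  | none =>
    obtain ⟨r1, -, r3⟩ := h.tk2_none hQ hs
    by_cases hin : x ∈ ⋃ a, T.Ccl a 2
    · obtain ⟨a, ha⟩ := mem_iUnion.1 hin
      exact ⟨some a, tk2_cl ha (by norm_num), trivial⟩
    · exact ⟨none, ⟨⟨by linarith only [hE, r1], by linarith only [hL, r3]⟩, hin⟩, trivial⟩
  | some β =>
    have hβ : x ∈ T.Cop β 4 := tk2_cl hQ (by norm_num)
    have hβ5 : x ∈ T.Cop β 5 := tk2_cl hQ (by norm_num)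
    obtain ⟨p1, p2, p3⟩ := h.tk2_pow hβ.1
    by_cases hz : 5 / 2 * T.mm x ^ 8 ≤ ‖T.z β x‖
    · obtain ⟨hc, hG⟩ := h.tk2_hc hs hβ (h.pre_refl β x)
      have r1 := ((h.fact_a hβ hc hG).2.2.2 (by linarith only [p1, p2, hz])).2.1
      have hl := h.O_lam β x hβ5
      have hB' : x ∈ T.Bcl 220 := h.tk2_B r1 (by norm_num) (by linarith only [hL, hl])
      refine ⟨none, ⟨⟨by linarith only [hE, r1], by linarith only [hL, hl]⟩, fun hin => ?_⟩, trivial⟩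
      obtain ⟨a, ha⟩ := mem_iUnion.1 hin
      have ha5 : x ∈ T.Cop a 5 := tk2_cl ha (by norm_num)
      have hg := ((h.n_lt β x 4).1 hβ.2).2.2.2
      obtain ⟨-, n2, -, -⟩ :=
        tk2_near (h.close' ha5 hβ.1 (by linarith only [hg]) (h.sep a β x ha5 hβ5 hB'))
      have hz2 := ((h.n_le a x 2).1 ha.2).1
      linarith only [p1, p2, hz, n2, hz2]
    · obtain ⟨d, hd, hp⟩ := h.tk2_in hs hβ (h.pre_refl β x) (θ := 3) (by norm_num)
        (by linarith [not_le.1 hz])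
      exact ⟨some d, hd, h.pre_symm β d x hp⟩

/-- points of the domain -/
theorem Ok.K_dom {x : ι → ℂ} (hr : T.r x < 0) :
    x ∈ T.O none ∧ T.Sat 0 none x ∧ ∃ b', x ∈ T.Q b' := by
  have hE := h.tk2_En x
  have hL := h.L_pos
  obtain ⟨hl, hz⟩ := h.box0 x hr
  refine ⟨⟨by linarith only [hr, hE], by linarith only [hL, hl]⟩, ⟨fun a k hk _ => ?_, fun _ => ?_, ?_⟩, ?_⟩
  · have h1 := h.fact_d hr k hk
    have h2 := (abs_le.1 (h.tilt_le a x ((h.sU_sub a k).2.2.2 ((h.sU_sub a k).1 hk)))).1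
    linarith only [h1, h2]
  · have hμ := h.mu_pos
    have hc := h.one_le
    exact (div_neg_of_neg_of_pos (by linarith only [hr, hE]) (by positivity)).le
  · have hC := h.Cz_pos
    have h1 : ‖x T.iz‖ ^ 2 / T.Cz ^ 2 ≤ 4 := by
      rw [div_le_iff₀ (by positivity)]
      nlinarith only [norm_nonneg (x T.iz), hz]
    unfold TD.cG
    linarith only [h1]
  · by_cases hin : x ∈ ⋃ a, T.Cop a 2
    · obtain ⟨a, ha⟩ := mem_iUnion.1 hin
      exact ⟨some a, ha.1, by linarith only [ha.2]⟩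
    · exact ⟨none, ⟨by linarith only [hr, hE], by linarith only [hL, hl]⟩, hin⟩

/-- deep points -/
theorem Ok.K_deep {a : A} {x : ι → ℂ} (hx : T.Deep a x) :
    x ∈ T.Q (some a) ∧ T.Sat 0 (some a) x := by
  obtain ⟨hV, hz, hq, hΦ, hg, hi, -, hY⟩ := hx
  obtain ⟨p1, p2, p3⟩ := h.tk2_pow hV
  have h1 : x ∈ T.Ccl a 1 :=
    ⟨hV, (h.n_le a x 1).2 ⟨by linarith, by linarith only [hq, p1, p2, p3], by linarith only [hΦ, p1, p2], by linarith only [hg]⟩⟩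
  refine ⟨⟨hV, by linarith only [h1.2]⟩, fun d k hk hp => ?_,
    fun hU => (hU.2 (mem_iUnion.2 ⟨a, h1⟩)).elim, ?_⟩
  · have hd : x ∈ T.Cop d 5 := (h.sU_sub d k).2.2.2 ((h.sU_sub d k).1 hk)
    have hn := h.close' hd hV (by linarith only [hg]) hp
    obtain ⟨n1, -, n3, -⟩ := tk2_near hn
    have h2 := (abs_le.1 (h.tilt_le d x hd)).1
    have h3 := h.fact_e (by linarith only [hz, p1, n1]) hq (by linarith only [hΦ, p1, p2, n3]) hi (fun h4 i => ?_) k hk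
    · linarith only [h2, h3]
    · have y1 := hY h4 i
      have y2 := (abs_im_le_norm _).trans (hn.2.2 h4 i)
      rw [sub_im] at y2
      have y3 := abs_sub_abs_le_abs_sub (T.Y d i x).im (T.Y a i x).im
      linarith only [p1, p2, p3, y1, y2, y3]
  · have hC := h.Cz_pos
    have h2 : ‖x T.iz‖ ^ 2 / T.Cz ^ 2 ≤ 4 := by
      rw [div_le_iff₀ (by positivity)]
      nlinarith only [norm_nonneg (x T.iz), hi]
    unfold TD.cG
    linarith only [h2]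

end TD

end Pool.Agent.MP_bea40e_an.Iv

end

section

open Filter Topology Set Metric Complex
open scoped ContDiff ComplexConjugate

namespace Pool.Agent.MP_bea40e_an.Iv

/-- The tube theorem. Apply `glue` to `T.O`, `T.rel`; conditions indexed by
`(A × (Fin 5 ⊕ Bool × ix)) ⊕ Bool` with `U = e (some a) '' sU a k`, `F = e (some a) '' sF a k`,
`e none '' U0`, `e none '' F0`, and `univ` for `cG`; `Q = ⋃ b, e b '' Q b`. For `y = e b x` one has
`y ∈ e a '' S ↔ x ∈ S ∧ rel a b x` if `S ⊆ O a`. Then `exh_sep`; `f = g ∘ e none`,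
`Ga = g ∘ e (some a)`; holomorphy at `t` from `HolAt` and continuity of `e a` at `t`. -/
theorem TD.Ok.tube {ι A ix : Type} [Fintype ι] [DecidableEq ι] [Fintype ix] [Fintype A]
    {T : TD ι A ix} (h : T.Ok) {a b : A} {x : ι → ℂ} (ha : T.Deep a x) (hb : T.Deep b x)
    (hab : ¬T.pre a b x) : ∃ f Ga Gb : (ι → ℂ) → ℂ, DifferentiableOn ℂ f {t | T.r t < 0} ∧
      (∀ t, T.Deep a t → AnalyticAt ℂ Ga t ∧ (T.r t < 0 → Ga t = f t)) ∧
      (∀ t, T.Deep b t → AnalyticAt ℂ Gb t ∧ (T.r t < 0 → Gb t = f t)) ∧ Ga x ≠ Gb x := by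
  obtain ⟨hU0, hF0, hUF0, hF0O, hQs⟩ := h.sets0
  obtain ⟨hrefl, hsymm, htrans, hop, hcl⟩ := h.rel_glue
  have hQO : ∀ c, T.Q c ⊆ T.O c := fun c => (hQs c).2.2.2
  have hxa := h.K_deep ha
  have hxb := h.K_deep hb
  obtain ⟨Y, _, π, e, hT2, hπ, hcont, hπe, hopen, heq, -⟩ :=
    glue T.O T.rel h.isOpen_O ⟨some a, x, hQO _ hxa.1⟩ hrefl hsymm htrans hop hcl
  have hrel0 : ∀ c t, T.rel none c t := fun c t => by cases c <;> trivial
  have hsFO : ∀ c k, T.sF c k ⊆ T.O (some c) := fun c k => (h.sU_sub c k).2.2.2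
  have hsUO : ∀ c k, T.sU c k ⊆ T.O (some c) := fun c k => (h.sU_sub c k).1.trans (hsFO c k)
  have hmem : ∀ c d (S : Set (ι → ℂ)), S ⊆ T.O c → ∀ t ∈ T.O d,
      (e d t ∈ e c '' S ↔ t ∈ S ∧ T.rel c d t) := by
    intro c d S hS t ht
    constructor
    · rintro ⟨s, hs, hst⟩
      have h1 : s = t := by
        have h2 := congrArg π hst
        rwa [hπe c s (hS hs), hπe d t ht] at h2
      subst h1
      exact ⟨hs, (heq c d s (hS hs) ht).1 hst⟩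
    · rintro ⟨hs, hr⟩
      exact ⟨t, hs, (heq c d t (hS hs) ht).2 hr⟩
  have hcpt : ∀ c (S : Set (ι → ℂ)), IsCompact S → S ⊆ T.O c → IsCompact (e c '' S) :=
    fun c S hS hSO => hS.image_of_continuousOn ((hcont c).mono hSO)
  let U : (A × (Fin 5 ⊕ Bool × ix)) ⊕ Bool → Set Y := Sum.elim
    (fun p => e (some p.1) '' T.sU p.1 p.2) (fun c => _root_.cond c (e none '' T.U0) univ)
  let F : (A × (Fin 5 ⊕ Bool × ix)) ⊕ Bool → Set Y := Sum.elim
    (fun p => e (some p.1) '' T.sF p.1 p.2) (fun c => _root_.cond c (e none '' T.F0) univ)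
  let ρ : (A × (Fin 5 ⊕ Bool × ix)) ⊕ Bool → (ι → ℂ) → ℝ := Sum.elim
    (fun p t => (T.cond p.1 p.2 t - T.tilt p.1 t) / T.ε)
    (fun c => _root_.cond c (fun t => T.c0 t / T.ε) (fun t => T.cG t / T.ε))
  have hε := h.ε_pos
  have hsat : ∀ (δ : ℝ) c, ∀ t ∈ T.O c,
      ((∀ i, e c t ∈ U i → ρ i (π (e c t)) ≤ δ) ↔ T.Sat (δ * T.ε) c t) := by
    intro δ c t ht
    rw [hπe c t ht]
    constructor
    · intro hh
      refine ⟨fun d k hk hr => ?_, fun h0 => ?_, ?_⟩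
      · have h1 : (T.cond d k t - T.tilt d t) / T.ε ≤ δ :=
          hh (Sum.inl (d, k)) ((hmem (some d) c _ (hsUO d k) t ht).2 ⟨hk, hr⟩)
        rw [div_le_iff₀ hε] at h1
        linarith
      · have h1 : T.c0 t / T.ε ≤ δ :=
          hh (Sum.inr true) ((hmem none c _ (hUF0.trans hF0O) t ht).2 ⟨h0, hrel0 c t⟩)
        rwa [div_le_iff₀ hε] at h1
      · have h1 : T.cG t / T.ε ≤ δ := hh (Sum.inr false) (mem_univ _)
        rwa [div_le_iff₀ hε] at h1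
    · rintro ⟨s1, s2, s3⟩ i hi
      rcases i with ⟨d, k⟩ | i
      · have h1 := (hmem (some d) c _ (hsUO d k) t ht).1 hi
        have h2 := s1 d k h1.1 h1.2
        change (T.cond d k t - T.tilt d t) / T.ε ≤ δ
        rw [div_le_iff₀ hε]
        linarith
      · cases i
        · change T.cG t / T.ε ≤ δ
          rwa [div_le_iff₀ hε]
        · have h1 := (hmem none c _ (hUF0.trans hF0O) t ht).1 hi
          change T.c0 t / T.ε ≤ δ
          rw [div_le_iff₀ hε]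
          exact s2 h1.1
  have hsat0 : ∀ c, ∀ t ∈ T.O c, T.Sat 0 c t → ∀ i, e c t ∈ U i → ρ i (π (e c t)) ≤ 0 := by
    intro c t ht hs
    refine (hsat 0 c t ht).2 ?_
    rwa [zero_mul]
  have hinQ : ∀ c, ∀ t ∈ T.Q c, e c t ∈ ⋃ d, e d '' T.Q d :=
    fun c t ht => mem_iUnion.2 ⟨c, t, ht, rfl⟩
  obtain ⟨g, hg, hne⟩ := exh_sep hπ U F ρ (⋃ d, e d '' T.Q d) (⋃ d, e d '' T.Qo d)
    (by
      rintro (⟨d, k⟩ | i)
      · exact hopen _ _ (h.isOpen_sU d k) (hsUO d k)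
      · cases i
        · exact isOpen_univ
        · exact hopen _ _ hU0 (hUF0.trans hF0O))
    (by
      rintro (⟨d, k⟩ | i)
      · exact (hcpt _ _ (h.isCompact_sF d k) (hsFO d k)).isClosed
      · cases i
        · exact isClosed_univ
        · exact (hcpt _ _ hF0 hF0O).isClosed)
    (by
      rintro (⟨d, k⟩ | i)
      · exact image_mono (h.sU_sub d k).1
      · cases i
        · exact Subset.rfl
        · exact image_mono hUF0)
    (isCompact_iUnion fun d => hcpt _ _ (hQs d).2.1 (hQO d))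
    (isOpen_iUnion fun d => hopen _ _ (hQs d).1 ((hQs d).2.2.1.trans (hQO d)))
    (iUnion_mono fun d => image_mono (hQs d).2.2.1)
    (by
      rintro (⟨d, k⟩ | i) y hy
      · obtain ⟨t, ht, rfl⟩ := hy
        rw [hπe _ t (hsFO d k ht)]
        exact h.psh_cond d k ht
      · cases i
        · exact h.psh_cG _
        · obtain ⟨t, ht, rfl⟩ := hy
          rw [hπe _ t (hF0O ht)]
          exact h.psh_c0 ht)
    (by
      intro y hy hc
      obtain ⟨c, t, ht, rfl⟩ := mem_iUnion.1 hy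
      have htO := hQO c ht
      have hs : T.Sat T.ε c t := by
        have h1 := (hsat 1 c t htO).1 hc
        rwa [one_mul] at h1
      constructor
      · obtain ⟨d, hd, hr⟩ := h.K_Qo ht hs
        exact mem_iUnion.2 ⟨d, (hmem d c _ ((hQs d).2.2.1.trans (hQO d)) t htO).2 ⟨hd, hr⟩⟩
      · rw [hπe c t htO]
        rintro (⟨d, k⟩ | i) hF hU
        · have h1 := (hmem (some d) c _ (hsFO d k) t htO).1 hF
          have h2 : t ∉ T.sU d k := fun h3 =>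
            hU ((hmem (some d) c _ (hsUO d k) t htO).2 ⟨h3, h1.2⟩)
          exact div_neg_of_neg_of_pos (sub_neg.2 (h.K_H ht hs k h1.1 h2 h1.2)) hε
        · cases i
          · exact absurd (mem_univ _) hU
          · have h1 := (hmem none c _ hF0O t htO).1 hF
            have h2 : t ∉ T.U0 := fun h3 =>
              hU ((hmem none c _ (hUF0.trans hF0O) t htO).2 ⟨h3, h1.2⟩)
            exact div_neg_of_neg_of_pos (h.K_H0 ht hs h1.1 h2) hε)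
    (p := e (some a) x) (p' := e (some b) x)
    (fun h1 => hab ((heq (some a) (some b) x (hQO _ hxa.1) (hQO _ hxb.1)).1 h1))
    (by rw [hπe _ x (hQO _ hxa.1), hπe _ x (hQO _ hxb.1)])
    ⟨hinQ _ x hxa.1, hsat0 _ x (hQO _ hxa.1) hxa.2⟩
    ⟨hinQ _ x hxb.1, hsat0 _ x (hQO _ hxb.1) hxb.2⟩
  have han : ∀ c, ∀ t ∈ T.O c, HolAt π g (e c t) → AnalyticAt ℂ (fun s => g (e c s)) t := by
    rintro c t ht ⟨G, hG, hgG⟩
    rw [hπe c t ht] at hG
    have hn : T.O c ∈ 𝓝 t := (h.isOpen_O c).mem_nhds ht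
    have hc : ContinuousAt (e c) t := (hcont c).continuousAt hn
    refine hG.congr ?_
    filter_upwards [hc.eventually hgG, hn] with s h1 h2
    rw [h1, hπe c s h2]
  have hdeep : ∀ c t, T.Deep c t → AnalyticAt ℂ (fun s => g (e (some c) s)) t ∧
      (T.r t < 0 → g (e (some c) t) = g (e none t)) := by
    intro c t ht
    have h1 := h.K_deep ht
    have h2 := hQO _ h1.1
    refine ⟨han _ t h2 (hg _ (hinQ _ t h1.1) (hsat0 _ t h2 h1.2)), fun hr => ?_⟩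
    rw [(heq none (some c) t (h.K_dom hr).1 h2).2 (hrel0 _ t)]
  refine ⟨fun s => g (e none s), fun s => g (e (some a) s), fun s => g (e (some b) s), ?_,
    hdeep a, hdeep b, hne⟩
  intro t ht
  obtain ⟨h1, h2, c, h3⟩ := h.K_dom ht
  have h4 : e none t ∈ ⋃ d, e d '' T.Q d := by
    rw [(heq none c t h1 (hQO c h3)).2 (hrel0 c t)]
    exact hinQ c t h3
  exact (han none t h1 (hg _ h4 (hsat0 none t h1 h2))).differentiableAt.differentiableWithinAt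

end Pool.Agent.MP_bea40e_an.Iv

end
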