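import Pool.Agent.MP_bea40e_an.Mg.InfA

attribute [-instance] AddQuantale.instAddLeftMono
  TopologicalSpace.instSecondCountableTopologyOfLindelofSpaceOfPseudoMetrizableSpace
  NumberField.to_charZero IdemSemiring.toCanonicallyOrderedAdd AddQuantale.instAddRightMono
  PolishSpace.toSecondCountableTopology MonTypeEquivalenceMon.monMonoid RKHS.instFunLike
  Quantale.instMulRightMono LinearOrderedCommMonoidWithZero.toPosMulStrictMono
  instCoeHTCTOfCoeTailOfCoeHTC CompactSpace.sigmaCompact MeasureTheory.instSFiniteOfCountable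
  NonarchimedeanAddGroup.toIsTopologicalAddGroup instCoeHTCOfCoeHeadOfCoeOTC instCoeTOfCoeDep
  NonarchimedeanRing.toIsTopologicalRing IdemSemiring.toMulLeftMono Valued.isTopologicalDivisionRing
  Valued.toUniformSpace continuousSub_of_discreteTopology GrpTypeEquivalenceGrp.grpGroup
  Quantale.instMulLeftMono instCoeTCOfCoe instCoeOutOfCoeFun DiscreteMeasurableSpace.toMeasurableDiv
  ContinuousMonoidHom.instCoeOutOfMonoidHomClassOfContinuousMapClass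
  AlexandrovDiscrete.toLocallyCompactSpace IsTopologicalTorsor.toContinuousSMul

section

open Filter Topology Set Metric Complex
open scoped ContDiff ComplexConjugate

namespace Pool.Agent.MP_bea40e_an.Iv

/-! Asymptotics and the local scale `ms`. -/

theorem ev_poly_exp (C : ℝ) (N : ℕ) {c : ℝ} (hc : 0 < c) :
    ∀ᶠ m : ℕ in atTop, C * (m : ℝ) ^ N * Real.exp (-c * m) ≤ 1 := by
  have h1 : Tendsto (fun x : ℝ => x ^ (N : ℝ) * Real.exp (-c * x)) atTop (𝓝 0) :=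
    tendsto_rpow_mul_exp_neg_mul_atTop_nhds_zero N c hc
  have h2 := (h1.comp tendsto_natCast_atTop_atTop).const_mul C
  rw [mul_zero] at h2
  filter_upwards [h2.eventually (ge_mem_nhds one_pos)] with m hm
  simpa only [neg_mul, mul_assoc, Function.comp, Real.rpow_natCast] using hm

theorem ev_pow_le (C : ℝ) {a b : ℕ} (h : a < b) :
    ∀ᶠ m : ℕ in atTop, C * (m : ℝ) ^ a ≤ (m : ℝ) ^ b := by
  filter_upwards [tendsto_natCast_atTop_atTop.eventually_ge_atTop C,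
    tendsto_natCast_atTop_atTop.eventually_ge_atTop (1 : ℝ)] with m h1 h2
  calc C * (m : ℝ) ^ a ≤ m * (m : ℝ) ^ a := by gcongr
    _ = (m : ℝ) ^ (a + 1) := by ring
    _ ≤ (m : ℝ) ^ b := pow_le_pow_right₀ h2 h

theorem ev_tl (C : ℝ) (N K : ℕ) : ∀ᶠ m : ℕ in atTop, C * (m : ℝ) ^ N * tl m ≤ mu m ^ K := by
  filter_upwards [ev_poly_exp C N one_pos,
    tendsto_natCast_atTop_atTop.eventually_ge_atTop (3 + 27 * (K : ℝ))] with m h1 h2
  have hK : (0 : ℝ) ≤ K := Nat.cast_nonneg K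
  have hm : (0 : ℝ) ≤ m := Nat.cast_nonneg m
  have e1 : tl m = Real.exp (-1 * m) * Real.exp (m - (m : ℝ) ^ 2 / 3) := by
    rw [tl, ← Real.exp_add]; congr 1; ring
  have e2 : mu m ^ K = Real.exp (K * (-9 * m)) := by rw [mu, Real.exp_nat_mul]
  have e3 : Real.exp (m - (m : ℝ) ^ 2 / 3) ≤ Real.exp (K * (-9 * m)) := by
    apply Real.exp_le_exp.2
    linarith only [mul_le_mul_of_nonneg_left h2 hm]
  rw [e1, e2, ← mul_assoc]
  calc C * (m : ℝ) ^ N * Real.exp (-1 * m) * Real.exp (m - (m : ℝ) ^ 2 / 3)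
      ≤ 1 * Real.exp (m - (m : ℝ) ^ 2 / 3) := by gcongr
    _ ≤ _ := by rw [one_mul]; exact e3

/-- one power of `mu` absorbs all polynomials and `exp (8 m)` -/
theorem ev_mu (C : ℝ) (N : ℕ) :
    ∀ᶠ m : ℕ in atTop, C * (m : ℝ) ^ N * Real.exp m ^ 8 * mu m ≤ 1 := by
  filter_upwards [ev_poly_exp C N one_pos] with m h1
  have e1 : Real.exp m ^ 8 * mu m = Real.exp (-1 * m) := by
    rw [mu, ← Real.exp_nat_mul, ← Real.exp_add]; congr 1; push_cast; ring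
  rw [mul_assoc, e1]; exact h1

theorem ev_mu' (C : ℝ) (N : ℕ) : ∀ᶠ m : ℕ in atTop, C * (m : ℝ) ^ N * mu m ≤ 1 :=
  ev_poly_exp C N (by norm_num : (0 : ℝ) < 9)

theorem mu_pos (m : ℕ) : 0 < mu m := Real.exp_pos _

theorem mu_le_one (m : ℕ) : mu m ≤ 1 := by
  rw [mu, Real.exp_le_one_iff]
  have : (0 : ℝ) ≤ m := Nat.cast_nonneg m
  linarith

theorem aa_pos (m : ℕ) : 0 < aa m := pow_pos (mu_pos m) 7

theorem tl_pos (m : ℕ) : 0 < tl m := Real.exp_pos _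

theorem LL_pos : 0 < LL := by
  rw [LL]; positivity

theorem Cz_pos : 0 < Cz := pow_pos LL_pos 20

theorem Big.of_ev {P : ℕ → Prop} (h : ∀ᶠ m : ℕ in atTop, P m) : Big fun _ m => P m := by
  obtain ⟨M, hM⟩ := eventually_atTop.1 h
  exact ⟨M, fun _ h0 m hm => hM m (h0.trans hm)⟩

theorem Big.of_ev0 {P : ℕ → Prop} (h : ∀ᶠ m : ℕ in atTop, P m) : Big fun m0 _ => P m0 := by
  obtain ⟨M, hM⟩ := eventually_atTop.1 h
  exact ⟨M, fun m0 h0 _ _ => hM m0 h0⟩

theorem Big.and {P Q : ℕ → ℕ → Prop} (hP : Big P) (hQ : Big Q) :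
    Big fun m0 m => P m0 m ∧ Q m0 m := by
  obtain ⟨M, hM⟩ := hP
  obtain ⟨M', hM'⟩ := hQ
  exact ⟨max M M', fun m0 h0 m hm => ⟨hM m0 ((le_max_left _ _).trans h0) m hm,
    hM' m0 ((le_max_right _ _).trans h0) m hm⟩⟩

theorem Big.mono {P Q : ℕ → ℕ → Prop} (hP : Big P) (h : ∀ m0 m, m0 ≤ m → P m0 m → Q m0 m) :
    Big Q := by
  obtain ⟨M, hM⟩ := hP
  exact ⟨M, fun m0 h0 m hm => h m0 m hm (hM m0 h0 m hm)⟩

theorem Big.ev {P : ℕ → ℕ → Prop} (hP : Big P) :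
    ∀ᶠ m0 : ℕ in atTop, ∀ m, m0 ≤ m → P m0 m := by
  obtain ⟨M, hM⟩ := hP
  exact eventually_atTop.2 ⟨M, hM⟩

theorem sc_pp_contDiff {μ : ℝ} (hμ : 0 < μ) : ContDiff ℝ ∞ (pp μ) := by
  unfold pp
  refine ContDiff.div_const (ContDiff.sub (ContDiff.sqrt (by fun_prop) fun t => ?_) contDiff_id) 2
  positivity

theorem sc_pp_ge_abs (μ t : ℝ) : (|t| - t) / 2 ≤ pp μ t := by
  have : |t| ≤ √(t ^ 2 + μ ^ 2) := Real.abs_le_sqrt (by linarith only [sq_nonneg μ])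
  unfold pp; linarith

theorem sc_pp_nonneg (μ t : ℝ) : 0 ≤ pp μ t := by
  have := sc_pp_ge_abs μ t
  have := le_abs_self t
  linarith

theorem sc_pp_ge_neg (μ t : ℝ) : -t ≤ pp μ t := by
  have := sc_pp_ge_abs μ t
  have := neg_le_abs t
  linarith

theorem sc_pp_le {μ : ℝ} (hμ : 0 < μ) (t : ℝ) : pp μ t ≤ (|t| - t) / 2 + μ / 2 := by
  have : √(t ^ 2 + μ ^ 2) ≤ |t| + μ := by
    apply Real.sqrt_le_iff.2
    refine ⟨by positivity, ?_⟩
    linarith only [sq_abs t, mul_nonneg (abs_nonneg t) hμ.le]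
  unfold pp; linarith only [this]

theorem ms_contDiff (m : ℕ) : ContDiff ℝ ∞ (ms m) := by
  have h := sc_pp_contDiff (mu_pos m)
  unfold ms
  refine (contDiff_const.add (h.comp ?_)).add (h.comp ?_) <;> fun_prop

theorem mu_le_ms (m : ℕ) (t : ℝ) : mu m ≤ ms m t := by
  have h1 := sc_pp_nonneg (mu m) (t - lc m + 10 / m ^ 3)
  have h2 := sc_pp_nonneg (mu m) (lc m + 10 / m ^ 3 - t)
  unfold ms; linarith

theorem ms_pos (m : ℕ) (t : ℝ) : 0 < ms m t := (mu_pos m).trans_le (mu_le_ms m t)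

theorem sc_abs_le {m : ℕ} (hm : 0 < m) {t c : ℝ} (h : |Xr m t| ≤ c) :
    |t - lc m| ≤ c / m ^ 3 := by
  have h0 : (0 : ℝ) < (m : ℝ) ^ 3 := by positivity
  rw [le_div_iff₀ h0]
  rwa [Xr, abs_mul, abs_of_pos h0] at h

theorem ms_le_two {m : ℕ} (hm : 0 < m) {t : ℝ} (h : |Xr m t| ≤ 10) : ms m t ≤ 2 * mu m := by
  obtain ⟨ha, hb⟩ := abs_le.1 (sc_abs_le hm h)
  have h1 := sc_pp_le (mu_pos m) (t - lc m + 10 / m ^ 3)
  have h2 := sc_pp_le (mu_pos m) (lc m + 10 / m ^ 3 - t)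
  rw [abs_of_nonneg (by linarith only [ha, hb])] at h1 h2
  unfold ms; linarith only [h1, h2]

theorem ms_ge (m : ℕ) (t : ℝ) : mu m + (|t - lc m| - 10 / m ^ 3) ≤ ms m t := by
  have h1 := sc_pp_nonneg (mu m) (t - lc m + 10 / m ^ 3)
  have h2 := sc_pp_nonneg (mu m) (lc m + 10 / m ^ 3 - t)
  have h3 := sc_pp_ge_neg (mu m) (t - lc m + 10 / m ^ 3)
  have h4 := sc_pp_ge_neg (mu m) (lc m + 10 / m ^ 3 - t)
  unfold ms
  rcases abs_cases (t - lc m) with h | h <;> linarith only [h.1, h1, h4, h2, h3]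

theorem ms_le (m : ℕ) (t : ℝ) : ms m t ≤ 2 * mu m + |t - lc m| := by
  have h0 : (0 : ℝ) ≤ 10 / m ^ 3 := by positivity
  have h1 := sc_pp_le (mu_pos m) (t - lc m + 10 / m ^ 3)
  have h2 := sc_pp_le (mu_pos m) (lc m + 10 / m ^ 3 - t)
  unfold ms
  rcases abs_cases (t - lc m) with h | h <;>
    rcases abs_cases (t - lc m + 10 / m ^ 3) with h3 | h3 <;>
    rcases abs_cases (lc m + 10 / m ^ 3 - t) with h4 | h4 <;>
    linarith only [h.1, h.2, h3.1, h3.2, h4.1, h4.2, h1, h2, h0]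

theorem sc_ev_inv {c : ℝ} (hc : 0 < c) : ∀ᶠ m : ℕ in atTop, 0 < m ∧ 1 / (m : ℝ) ≤ c := by
  filter_upwards [tendsto_one_div_atTop_nhds_zero_nat.eventually (ge_mem_nhds hc),
    eventually_gt_atTop 0] with m h1 h2
  exact ⟨h2, h1⟩

theorem sc_lc (m : ℕ) : lc m = -(1 / (m : ℝ)) / 117 := by
  rw [lc]; ring

theorem sc_inv3 {m : ℕ} (hm : 0 < m) : 1 / (m : ℝ) ^ 3 ≤ 1 / m := by
  have h1 : (1 : ℝ) ≤ m := by exact_mod_cast hm
  apply one_div_le_one_div_of_le (by linarith only [h1])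
  exact le_self_pow₀ h1 (by norm_num)

theorem ms_le_L : ∀ᶠ m : ℕ in atTop, ∀ t, |t| ≤ 2 * LL → ms m t ≤ 3 * LL := by
  filter_upwards [sc_ev_inv LL_pos, ev_mu' (4 / LL) 0] with m h1 h2 t ht
  have hL := LL_pos
  have h3 : mu m ≤ LL / 4 := by
    rw [pow_zero, mul_one, div_mul_eq_mul_div, div_le_one hL] at h2
    linarith only [h2]
  have h4 := ms_le m t
  have h5 : (0 : ℝ) ≤ 1 / m := by positivity
  have h6 := sc_lc m
  obtain ⟨ha, hb⟩ := abs_le.1 ht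
  have h7 : |t - lc m| ≤ 2 * LL + LL / 117 := abs_le.2 ⟨by linarith only [hL, h5, h6, ha], by linarith only [h1.2, h6, hb]⟩
  linarith only [hL, h3, h4, h7]

theorem ms_ge_L : ∀ᶠ m : ℕ in atTop, ∀ t, t ≤ -LL / 4 → LL / 8 ≤ ms m t := by
  filter_upwards [sc_ev_inv (div_pos LL_pos (by norm_num : (0 : ℝ) < 100))] with m h1 t ht
  have h4 := ms_ge m t
  have h5 := sc_inv3 h1.1
  have h6 := sc_lc m
  have h7 := neg_le_abs (t - lc m)
  have h8 := mu_pos m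
  have h9 : (10 : ℝ) / m ^ 3 = 10 * (1 / m ^ 3) := by ring
  have hL := LL_pos
  linarith only [h1.2, ht, h4, h5, h6, h7, h8, h9, hL]

/-- the window of the scale `m` -/
theorem win_sub : ∀ᶠ m : ℕ in atTop, ∀ t, |Xr m t| ≤ 13 → -LL / 8 < t ∧ t < 0 := by
  filter_upwards [sc_ev_inv (div_pos LL_pos (by norm_num : (0 : ℝ) < 200)),
    tendsto_natCast_atTop_atTop.eventually_ge_atTop (40 : ℝ)] with m h1 h2 t ht
  obtain ⟨ha, hb⟩ := abs_le.1 (sc_abs_le h1.1 ht)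
  have h5 := sc_inv3 h1.1
  have h6 := sc_lc m
  have h9 : (13 : ℝ) / m ^ 3 = 13 * (1 / m ^ 3) := by ring
  have hL := LL_pos
  have hm : (0 : ℝ) < m := by linarith only [h2]
  have h10 : 1 / (m : ℝ) ^ 3 ≤ 1 / m / 1600 := by
    rw [div_div]
    apply one_div_le_one_div_of_le (by positivity)
    nlinarith [mul_le_mul h2 h2 (by norm_num) hm.le]
  have h11 : (0 : ℝ) < 1 / m := by positivity
  constructor <;> linarith only [h1.2, ha, h6, h9, h10, h11, hb]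


end Pool.Agent.MP_bea40e_an.Iv

end

section

open Filter Topology Set Metric Complex
open scoped ContDiff ComplexConjugate

namespace Pool.Agent.MP_bea40e_an.Iv

theorem us_rho_pos {μ : ℝ} (hμ : 0 < μ) (t : ℝ) : 0 < √(t ^ 2 + μ ^ 2) :=
  Real.sqrt_pos.2 (by positivity)

theorem us_abs_le (μ t : ℝ) : |t| ≤ √(t ^ 2 + μ ^ 2) :=
  Real.abs_le_sqrt (by linarith only [sq_nonneg μ])

theorem us_mu_le {μ : ℝ} (t : ℝ) : μ ≤ √(t ^ 2 + μ ^ 2) :=
  (le_abs_self μ).trans (Real.abs_le_sqrt (by linarith only [sq_nonneg t]))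

theorem us_sum_le {μ t1 t2 : ℝ} (h : 0 ≤ t1 + t2) :
    μ + pp μ t1 + pp μ t2 ≤ 2 * √(t1 ^ 2 + μ ^ 2) := by
  have h1 := abs_le.1 (us_abs_le μ t1)
  have h2 := us_mu_le (μ := μ) t1
  have h3 : √(t1 ^ 2 + μ ^ 2) ^ 2 = t1 ^ 2 + μ ^ 2 := Real.sq_sqrt (by positivity)
  have h4 : √(t2 ^ 2 + μ ^ 2) ≤ √(t1 ^ 2 + μ ^ 2) + (t1 + t2) := by
    refine Real.sqrt_le_iff.2 ⟨by positivity, ?_⟩
    have := mul_nonneg h (show 0 ≤ √(t1 ^ 2 + μ ^ 2) + t1 by linarith)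
    linarith only [h3, this]
  unfold pp
  linarith only [h2, h4]

theorem us_ms_le1 (m : ℕ) (t : ℝ) : ms m t ≤ 2 * √((t - lc m + 10 / m ^ 3) ^ 2 + mu m ^ 2) := by
  have : (0 : ℝ) ≤ 10 / m ^ 3 := by positivity
  exact us_sum_le (by linarith)

theorem us_ms_le2 (m : ℕ) (t : ℝ) : ms m t ≤ 2 * √((lc m + 10 / m ^ 3 - t) ^ 2 + mu m ^ 2) := by
  have : (0 : ℝ) ≤ 10 / m ^ 3 := by positivity
  have h := us_sum_le (μ := mu m) (t1 := lc m + 10 / m ^ 3 - t) (t2 := t - lc m + 10 / m ^ 3)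
    (by linarith)
  unfold ms
  linarith only [h]

theorem us_pc {μ : ℝ} (hμ : 0 < μ) {w : ℂ} (h : |w.im| ≤ √(w.re ^ 2 + μ ^ 2) / 8) :
    AnalyticAt ℂ (pc μ) w ∧ ‖pc μ w - pp μ w.re‖ ≤ 2 * |w.im| := by
  have hρ := us_rho_pos hμ w.re
  have ht := us_abs_le μ w.re
  have h3 : √(w.re ^ 2 + μ ^ 2) ^ 2 = w.re ^ 2 + μ ^ 2 := Real.sq_sqrt (by positivity)
  have hpp : ((pp μ w.re : ℝ) : ℂ) = ((√(w.re ^ 2 + μ ^ 2) : ℝ) - (w.re : ℂ)) / 2 := by
    unfold pp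
    push_cast
    rfl
  generalize √(w.re ^ 2 + μ ^ 2) = ρ at h hρ ht h3 hpp
  have hy : w.im ^ 2 ≤ (ρ / 8) ^ 2 := sq_le_sq' (abs_le.1 h).1 (abs_le.1 h).2
  have hs : w ^ 2 + (μ : ℂ) ^ 2 ∈ slitPlane := by
    left
    have : (w ^ 2 + (μ : ℂ) ^ 2).re = w.re ^ 2 - w.im ^ 2 + μ ^ 2 := by
      simp only [sq, add_re, mul_re, ofReal_re, ofReal_im, mul_zero, sub_zero]
    rw [this]
    nlinarith only [hμ, h3, hy]
  refine ⟨?_, ?_⟩
  · have h1 : AnalyticAt ℂ (fun w : ℂ => (w ^ 2 + (μ : ℂ) ^ 2) ^ (1 / 2 : ℂ)) w :=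
      AnalyticAt.cpow (by fun_prop) analyticAt_const hs
    exact (h1.sub analyticAt_id).div analyticAt_const two_ne_zero
  · have hr : ((w ^ 2 + (μ : ℂ) ^ 2) ^ (1 / 2 : ℂ)) ^ 2 = w ^ 2 + (μ : ℂ) ^ 2 := by
      rw [one_div]
      exact cpow_ofNat_inv_pow _ 2
    have hre : 0 ≤ ((w ^ 2 + (μ : ℂ) ^ 2) ^ (1 / 2 : ℂ)).re := by
      rw [one_div, cpow_inv_two_re]
      exact Real.sqrt_nonneg _
    rw [hpp]
    unfold pc
    generalize (w ^ 2 + (μ : ℂ) ^ 2) ^ (1 / 2 : ℂ) = r at hr hre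
    have hw : w = w.re + w.im * I := (re_add_im w).symm
    have h3' : (ρ : ℂ) ^ 2 = (w.re : ℂ) ^ 2 + (μ : ℂ) ^ 2 := by exact_mod_cast h3
    have e1 : (r - ρ) * (r + ρ) = w.im * I * (2 * w.re + w.im * I) := by
      have : w ^ 2 = (w.re + w.im * I) ^ 2 := by rw [← hw]
      linear_combination hr - h3' + this
    have n1 : ρ ≤ ‖r + ρ‖ := by
      have := re_le_norm (r + ρ)
      rw [add_re, ofReal_re] at this
      linarith only [hre, this]
    have n2 : ‖(2 * w.re + w.im * I : ℂ)‖ ≤ 3 * ρ := by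
      have := norm_add_le (2 * w.re : ℂ) (w.im * I)
      rw [norm_mul, norm_mul, norm_real, norm_real, norm_I, Real.norm_eq_abs, Real.norm_eq_abs,
        Complex.norm_two] at this
      linarith only [h, hρ, ht, this]
    have n3 : ‖r - ρ‖ ≤ 3 * |w.im| := by
      have := congrArg norm e1
      rw [norm_mul, norm_mul, norm_mul, norm_real, norm_I, Real.norm_eq_abs, mul_one] at this
      have a1 := mul_le_mul_of_nonneg_left n1 (norm_nonneg (r - ρ))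
      have a2 := mul_le_mul_of_nonneg_left n2 (abs_nonneg w.im)
      refine le_of_mul_le_mul_right ?_ hρ
      linarith only [this, a1, a2]
    have e2 : (r - w) / 2 - ((ρ : ℂ) - w.re) / 2 = (r - ρ - w.im * I) / 2 := by
      linear_combination (-1 / 2 : ℂ) * hw
    rw [e2, norm_div, Complex.norm_two]
    have := norm_sub_le (r - ρ) (w.im * I)
    rw [norm_mul, norm_real, norm_I, Real.norm_eq_abs] at this
    linarith only [n3, this]

/-- With `ρ = √(t ^ 2 + μ ^ 2)` at either of the two arguments one has `ms ≤ 5 / 2 * ρ`, so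
`|y| ≤ ρ / 6`; `√(w ^ 2 + μ ^ 2) - ρ = (w ^ 2 - t ^ 2) / (√(w ^ 2 + μ ^ 2) + ρ)` and the square root
has nonnegative real part. -/
theorem us_an (m : ℕ) (l : ℂ) (h : |l.im| ≤ ms m l.re / 16) :
    AnalyticAt ℂ (us m) l ∧ ‖us m l - ms m l.re‖ ≤ 4 * |l.im| := by
  have c0 : (10 / (m : ℂ) ^ 3) = ((10 / (m : ℝ) ^ 3 : ℝ) : ℂ) := by push_cast; rfl
  have r1 : (l - lc m + 10 / m ^ 3).re = l.re - lc m + 10 / m ^ 3 := by
    rw [c0, add_re, sub_re, ofReal_re, ofReal_re]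
  have i1 : (l - lc m + 10 / m ^ 3).im = l.im := by
    rw [c0, add_im, sub_im, ofReal_im, ofReal_im, sub_zero, add_zero]
  have r2 : (lc m + 10 / m ^ 3 - l).re = lc m + 10 / m ^ 3 - l.re := by
    rw [c0, sub_re, add_re, ofReal_re, ofReal_re]
  have i2 : (lc m + 10 / m ^ 3 - l).im = -l.im := by
    rw [c0, sub_im, add_im, ofReal_im, ofReal_im, add_zero, zero_sub]
  obtain ⟨a1, b1⟩ := us_pc (mu_pos m) (w := l - lc m + 10 / m ^ 3) (by
    rw [r1, i1]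
    linarith only [us_ms_le1 m l.re, h])
  obtain ⟨a2, b2⟩ := us_pc (mu_pos m) (w := lc m + 10 / m ^ 3 - l) (by
    rw [r2, i2, abs_neg]
    linarith only [us_ms_le2 m l.re, h])
  rw [r1, i1] at b1
  rw [r2, i2, abs_neg] at b2
  refine ⟨?_, ?_⟩
  · have f1 : AnalyticAt ℂ (fun l : ℂ => pc (mu m) (l - lc m + 10 / m ^ 3)) l :=
      AnalyticAt.comp (f := fun l : ℂ => l - lc m + 10 / m ^ 3) a1
        ((analyticAt_id.sub analyticAt_const).add analyticAt_const)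
    have f2 : AnalyticAt ℂ (fun l : ℂ => pc (mu m) (lc m + 10 / m ^ 3 - l)) l :=
      AnalyticAt.comp (f := fun l : ℂ => lc m + 10 / m ^ 3 - l) a2
        (analyticAt_const.sub analyticAt_id)
    exact (analyticAt_const.add f1).add f2
  · have e : us m l - ms m l.re =
        (pc (mu m) (l - lc m + 10 / m ^ 3) - pp (mu m) (l.re - lc m + 10 / m ^ 3)) +
        (pc (mu m) (lc m + 10 / m ^ 3 - l) - pp (mu m) (lc m + 10 / m ^ 3 - l.re)) := by
      unfold us ms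
      rw [ofReal_add, ofReal_add]
      ring
    rw [e]
    refine (norm_add_le _ _).trans ?_
    linarith only [b1, b2]

theorem us_sqrt_der {μ : ℝ} (hμ : 0 < μ) (t : ℝ) :
    HasDerivAt (fun t => √(t ^ 2 + μ ^ 2)) (t / √(t ^ 2 + μ ^ 2)) t := by
  have h : HasDerivAt (fun t : ℝ => t ^ 2 + μ ^ 2) (2 * t) t := by
    simpa using (hasDerivAt_pow 2 t).add_const (μ ^ 2)
  have hρ := us_rho_pos hμ t
  refine (h.sqrt (by positivity)).congr_deriv ?_
  field_simp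

theorem us_pp_der {μ : ℝ} (hμ : 0 < μ) (t : ℝ) :
    HasDerivAt (pp μ) ((t / √(t ^ 2 + μ ^ 2) - 1) / 2) t :=
  ((us_sqrt_der hμ t).sub (hasDerivAt_id t)).div_const 2

theorem us_pp_der2 {μ : ℝ} (hμ : 0 < μ) (t : ℝ) :
    HasDerivAt (fun t => (t / √(t ^ 2 + μ ^ 2) - 1) / 2) (μ ^ 2 / (2 * √(t ^ 2 + μ ^ 2) ^ 3)) t := by
  have hρ := us_rho_pos hμ t
  have h3 : √(t ^ 2 + μ ^ 2) ^ 2 = t ^ 2 + μ ^ 2 := Real.sq_sqrt (by positivity)
  refine ((((hasDerivAt_id t).div (us_sqrt_der hμ t) hρ.ne').sub_const 1).div_const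
    2).congr_deriv ?_
  simp only [id]
  generalize √(t ^ 2 + μ ^ 2) = ρ at hρ h3
  field_simp
  linarith

theorem us_p1 {μ : ℝ} (hμ : 0 < μ) (t : ℝ) :
    -1 ≤ (t / √(t ^ 2 + μ ^ 2) - 1) / 2 ∧ (t / √(t ^ 2 + μ ^ 2) - 1) / 2 ≤ 0 := by
  have hρ := us_rho_pos hμ t
  have ht := abs_le.1 (us_abs_le μ t)
  have h1 : t / √(t ^ 2 + μ ^ 2) ≤ 1 := (div_le_one hρ).2 ht.2
  have h2 : -1 ≤ t / √(t ^ 2 + μ ^ 2) := by
    rw [le_div_iff₀ hρ]
    linarith
  constructor <;> linarith only [h2, h1]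

theorem us_p2 {μ : ℝ} (hμ : 0 < μ) (t : ℝ) {s : ℝ} (hs : s ≤ 2 * √(t ^ 2 + μ ^ 2)) :
    s * (μ ^ 2 / (2 * √(t ^ 2 + μ ^ 2) ^ 3)) ≤ 1 := by
  have hρ := us_rho_pos hμ t
  have h1 := us_mu_le (μ := μ) t
  generalize √(t ^ 2 + μ ^ 2) = ρ at hρ h1 hs
  have h2 : μ ^ 2 ≤ ρ ^ 2 := by gcongr
  calc s * (μ ^ 2 / (2 * ρ ^ 3)) ≤ 2 * ρ * (ρ ^ 2 / (2 * ρ ^ 3)) := by gcongr
    _ = 1 := by field_simp

/-- `|ms'| ≤ 1`, `0 ≤ pp'' = μ ^ 2 / (2 ρ ^ 3)`, `ms ≤ 5 / 2 * ρ`, `ms ≤ 3 L` -/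
theorem ms_deriv2 : ∀ᶠ m : ℕ in atTop, ∀ t, |t| ≤ 2 * LL →
    |deriv (deriv fun t => ms m t ^ 9) t| ≤ 1 / 10 ^ 9 := by
  filter_upwards [ms_le_L] with m hm t ht
  have hμ := mu_pos m
  obtain ⟨p1, hp1⟩ : ∃ p1 : ℝ → ℝ, p1 = fun t => (t / √(t ^ 2 + mu m ^ 2) - 1) / 2 := ⟨_, rfl⟩
  obtain ⟨p2, hp2⟩ : ∃ p2 : ℝ → ℝ, p2 = fun t => mu m ^ 2 / (2 * √(t ^ 2 + mu m ^ 2) ^ 3) :=
    ⟨_, rfl⟩
  have d1 : ∀ t, HasDerivAt (pp (mu m)) (p1 t) t := fun t => hp1 ▸ us_pp_der hμ t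
  have d2 : ∀ t, HasDerivAt p1 (p2 t) t := fun t => by
    rw [hp1, hp2]
    exact us_pp_der2 hμ t
  have l1 : ∀ t : ℝ, HasDerivAt (fun t : ℝ => t - lc m + 10 / m ^ 3) 1 t := fun t =>
    ((hasDerivAt_id t).sub_const _).add_const _
  have l2 : ∀ t : ℝ, HasDerivAt (fun t : ℝ => lc m + 10 / m ^ 3 - t) (-1) t := fun t =>
    (hasDerivAt_id t).const_sub _
  have m1 : ∀ t, HasDerivAt (ms m)
      (p1 (t - lc m + 10 / m ^ 3) - p1 (lc m + 10 / m ^ 3 - t)) t := fun t => by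
    refine ((((d1 _).comp t (l1 t)).const_add (mu m)).add ((d1 _).comp t (l2 t))).congr_deriv ?_
    ring
  have m2 : HasDerivAt (fun t => p1 (t - lc m + 10 / m ^ 3) - p1 (lc m + 10 / m ^ 3 - t))
      (p2 (t - lc m + 10 / m ^ 3) + p2 (lc m + 10 / m ^ 3 - t)) t := by
    refine (((d2 _).comp t (l1 t)).sub ((d2 _).comp t (l2 t))).congr_deriv ?_
    ring
  have e1 : (deriv fun t => ms m t ^ 9) = fun t =>
      9 * ms m t ^ 8 * (p1 (t - lc m + 10 / m ^ 3) - p1 (lc m + 10 / m ^ 3 - t)) := by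
    funext t
    simpa only [Nat.cast_ofNat, Nat.add_one_sub_one] using ((m1 t).fun_pow 9).deriv
  rw [e1, ((((m1 t).fun_pow 8).const_mul 9).fun_mul m2).deriv]
  have a1 := us_p1 hμ (t - lc m + 10 / m ^ 3)
  have a2 := us_p1 hμ (lc m + 10 / m ^ 3 - t)
  have b1 := us_p2 hμ _ (us_ms_le1 m t)
  have b2 := us_p2 hμ _ (us_ms_le2 m t)
  have c1 : 0 ≤ p2 (t - lc m + 10 / m ^ 3) := by rw [hp2]; positivity
  have c2 : 0 ≤ p2 (lc m + 10 / m ^ 3 - t) := by rw [hp2]; positivity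
  have a1' : -1 ≤ p1 (t - lc m + 10 / m ^ 3) ∧ p1 (t - lc m + 10 / m ^ 3) ≤ 0 := by
    rw [hp1]; exact a1
  have a2' : -1 ≤ p1 (lc m + 10 / m ^ 3 - t) ∧ p1 (lc m + 10 / m ^ 3 - t) ≤ 0 := by
    rw [hp1]; exact a2
  have b1' : ms m t * p2 (t - lc m + 10 / m ^ 3) ≤ 1 := by rw [hp2]; exact b1
  have b2' : ms m t * p2 (lc m + 10 / m ^ 3 - t) ≤ 1 := by rw [hp2]; exact b2
  have s0 := ms_pos m t
  have s1 : ms m t ≤ 1 / 100 := (hm t ht).trans (by unfold LL; norm_num)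
  generalize p1 (t - lc m + 10 / m ^ 3) = x1 at *
  generalize p1 (lc m + 10 / m ^ 3 - t) = x2 at *
  generalize p2 (t - lc m + 10 / m ^ 3) = y1 at *
  generalize p2 (lc m + 10 / m ^ 3 - t) = y2 at *
  generalize ms m t = s at *
  have g1 : (x1 - x2) ^ 2 ≤ 1 := by
    have := sq_le_sq' (a := x1 - x2) (b := 1) (by linarith only [a1', a2']) (by linarith only [a1', a2'])
    linarith only [this]
  have g2 : s ^ 7 ≤ (1 / 100) ^ 7 := by gcongr
  have g3 : 9 * (((8 : ℕ) : ℝ) * s ^ (8 - 1) * (x1 - x2)) * (x1 - x2) + 9 * s ^ 8 * (y1 + y2) =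
      s ^ 7 * (72 * (x1 - x2) ^ 2 + 9 * (s * y1 + s * y2)) := by
    push_cast
    ring
  rw [g3, abs_of_nonneg (by positivity)]
  calc s ^ 7 * (72 * (x1 - x2) ^ 2 + 9 * (s * y1 + s * y2)) ≤ (1 / 100) ^ 7 * 90 :=
        mul_le_mul g2 (by linarith only [b1', b2', g1]) (by positivity) (by positivity)
    _ ≤ 1 / 10 ^ 9 := by norm_num


end Pool.Agent.MP_bea40e_an.Iv

end

section

open Filter Topology Set Metric Complex
open scoped ContDiff ComplexConjugate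

namespace Pool.Agent.MP_bea40e_an.Iv

/-! The slack. -/

theorem sl_contDiff : ContDiff ℝ ∞ sl :=
  (expNegInvGlue.contDiff.comp contDiff_neg).div_const _

theorem sl_nonneg (t : ℝ) : 0 ≤ sl t := div_nonneg (expNegInvGlue.nonneg _) (by norm_num)

theorem sl_le (t : ℝ) : sl t ≤ 1 / 1000 := by
  refine div_le_div_of_nonneg_right ?_ (by norm_num)
  unfold expNegInvGlue
  split_ifs with h
  · exact zero_le_one
  · exact Real.exp_le_one_iff.2 (neg_nonpos.2 (inv_nonneg.2 (not_le.1 h).le))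

theorem sl_zero {t : ℝ} (h : 0 ≤ t) : sl t = 0 := by
  rw [sl, expNegInvGlue.zero_of_nonpos (neg_nonpos.2 h), zero_div]

theorem sl_pos {t : ℝ} (h : t < 0) : 0 < sl t :=
  div_pos (expNegInvGlue.pos_of_pos (neg_pos.2 h)) (by norm_num)

theorem sl_eq {t : ℝ} (h : t < 0) : sl t = Real.exp t⁻¹ / 1000 := by
  rw [sl, expNegInvGlue, if_neg (not_le.2 (neg_pos.2 h)), inv_neg, neg_neg]

theorem sl_anti : Antitone sl := fun _ _ h =>
  div_le_div_of_nonneg_right (expNegInvGlue.monotone (neg_le_neg h)) (by norm_num)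

theorem sl_hasDerivAt (t : ℝ) : HasDerivAt sl (-(sl t / t ^ 2)) t := by
  have h := ((expNegInvGlue.hasDerivAt_polynomial_eval_inv_mul 1 (-t)).comp t
    (hasDerivAt_neg t)).div_const 1000
  refine (h.congr_of_eventuallyEq (Eventually.of_forall fun x => ?_)).congr_deriv ?_
  · simp [sl]
  · simp only [sl, Polynomial.derivative_one, sub_zero, mul_one, Polynomial.eval_pow,
      Polynomial.eval_X]
    rw [inv_neg, neg_sq, inv_pow]
    ring

theorem sl_pow {t : ℝ} (h : t < 0) (n : ℕ) : sl t ≤ n.factorial * (-t) ^ n / 1000 := by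
  have h0 : 0 < -t := neg_pos.2 h
  have h1 := Real.pow_div_factorial_le_exp _ (inv_pos.2 h0).le n
  rw [sl_eq h]
  refine div_le_div_of_nonneg_right ?_ (by norm_num)
  rw [← neg_neg t⁻¹, ← inv_neg, Real.exp_neg]
  refine (inv_anti₀ (by positivity) h1).trans_eq ?_
  rw [inv_div, inv_pow, div_inv_eq_mul]

theorem sl_deriv2 (t : ℝ) : |deriv (deriv sl) t| ≤ 1 / 20 := by
  have h := ((((expNegInvGlue.hasDerivAt_polynomial_eval_inv_mul (Polynomial.X ^ 2) (-t)).comp t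
    (hasDerivAt_neg t)).div_const 1000).neg).deriv
  have e : deriv sl = -fun x => ((fun x : ℝ => (Polynomial.X ^ 2 : Polynomial ℝ).eval x⁻¹ *
      expNegInvGlue x) ∘ Neg.neg) x / 1000 := funext fun x => by
    rw [(sl_hasDerivAt x).deriv]
    simp only [sl, Pi.neg_apply, Function.comp, Polynomial.eval_pow, Polynomial.eval_X]
    rw [inv_neg, neg_sq, inv_pow]
    ring
  have e2 : deriv (deriv sl) t = sl t / (-t) ^ 4 - 2 * (sl t / (-t) ^ 3) := by
    rw [e, h]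
    simp only [sl, Polynomial.derivative_X_pow, Polynomial.eval_mul, Polynomial.eval_sub,
      Polynomial.eval_pow, Polynomial.eval_X, Polynomial.eval_C]
    push_cast
    ring
  rw [e2]
  rcases le_or_gt 0 t with h0 | h0
  · rw [sl_zero h0]; norm_num
  have h1 : 0 < -t := neg_pos.2 h0
  have a4 : sl t / (-t) ^ 4 ≤ 24 / 1000 := by
    rw [div_le_iff₀ (by positivity)]
    have := sl_pow h0 4
    norm_num only [Even.neg_pow, ge_iff_le] at this ⊢
    linarith only [this]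
  have a3 : sl t / (-t) ^ 3 ≤ 6 / 1000 := by
    rw [div_le_iff₀ (by positivity)]
    have := sl_pow h0 3
    simp only [Nat.factorial] at this
    push_cast at this
    linarith only [this]
  have b4 : 0 ≤ sl t / (-t) ^ 4 := div_nonneg (sl_nonneg t) (by positivity)
  have b3 : 0 ≤ sl t / (-t) ^ 3 := div_nonneg (sl_nonneg t) (by positivity)
  exact abs_le.2 ⟨by linarith only [a3, b4], by linarith only [a4, b3]⟩

theorem sl_win : ∀ᶠ m : ℕ in atTop, ∀ t, |Xr m t| ≤ 13 →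
    mu m ^ 13 / 3000 ≤ sl t ∧ sl t ≤ mu m ^ 13 / 300 := by
  filter_upwards [eventually_ge_atTop 400000] with m hm t ht
  have m0 : (400000 : ℝ) ≤ m := by exact_mod_cast hm
  have m1 : (0 : ℝ) < m := by linarith only [m0]
  have e : 117 * m * -t = 1 - 117 * Xr m t / m ^ 2 := by
    rw [Xr, lc]; field_simp; ring
  obtain ⟨h1, h2⟩ := abs_le.1 ht
  have b1 : 117 * Xr m t / m ^ 2 ≤ 1521 / m ^ 2 := by gcongr; linarith only [h2]
  have b2 : -(1521 / (m : ℝ) ^ 2) ≤ 117 * Xr m t / m ^ 2 := by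
    rw [← neg_div]; gcongr; linarith only [h1]
  have b3 : 1521 / (m : ℝ) ^ 2 ≤ 1 / 2 := by
    rw [div_le_iff₀ (by positivity)]; nlinarith only [m0]
  have b4 : 117 * m * (1521 / (m : ℝ) ^ 2) ≤ 1 / 2 := by
    rw [← mul_div_assoc, div_le_iff₀ (by positivity)]; nlinarith only [m0]
  have b5 : 1521 / (m : ℝ) ^ 2 ≤ -t :=
    le_of_mul_le_mul_left (by linarith) (show (0 : ℝ) < 117 * m by positivity)
  have t0 : 0 < -t := lt_of_lt_of_le (by positivity) b5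
  have c1 : (-t)⁻¹ ≤ 117 * m + 1 := by
    rw [inv_le_iff_one_le_mul₀ t0]; linarith only [e, b1, b5]
  have c2 : 117 * m - 1 ≤ (-t)⁻¹ := by
    rw [← one_div, le_div_iff₀ t0]; linarith only [e, b2, b5]
  rw [inv_neg] at c1 c2
  have e' : mu m ^ 13 = Real.exp (-117 * m) := by
    rw [mu, ← Real.exp_nat_mul]; congr 1; push_cast; ring
  have x1 := Real.exp_one_lt_d9
  have p := Real.exp_pos (-117 * m)
  have p' := Real.exp_pos t⁻¹
  rw [sl_eq (neg_pos.1 t0), e']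
  have d1 : Real.exp (-117 * m) ≤ Real.exp t⁻¹ * Real.exp 1 := by
    rw [← Real.exp_add]; exact Real.exp_le_exp.2 (by linarith only [c1])
  have d2 : Real.exp t⁻¹ ≤ Real.exp (-117 * m) * Real.exp 1 := by
    rw [← Real.exp_add]; exact Real.exp_le_exp.2 (by linarith only [c2])
  constructor <;> nlinarith only [x1, p', d1, p, d2]

theorem sl_le_Cz {t : ℝ} (h : |t| ≤ 2 * LL) : sl t ≤ Cz / 10 := by
  rcases le_or_gt 0 t with h0 | h0
  · rw [sl_zero h0]; exact (div_pos Cz_pos (by norm_num)).le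
  have h1 : (-t) ^ 21 ≤ (2 * LL) ^ 21 :=
    pow_le_pow_left₀ (neg_pos.2 h0).le ((neg_le_abs t).trans h) 21
  have h2 : (2 * LL) ^ 21 = 2 ^ 21 / 10 ^ 60 * Cz := by
    rw [Cz, mul_pow, pow_succ LL 20]
    conv_lhs => enter [2, 2]; rw [LL]
    ring
  have h3 := sl_pow h0 21
  have h4 : ((21 : ℕ).factorial : ℝ) ≤ 10 ^ 20 := by norm_num [Nat.factorial]
  have h5 := mul_le_mul h4 h1 (pow_nonneg (neg_pos.2 h0).le _) (by norm_num)
  have := Cz_pos
  rw [h2] at h5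
  linarith only [h1, h2, h3, this]

/-- right of the window use monotonicity; left of it, with `d = lc - t - 10 / m ^ 3 ≥ 3 / m ^ 3`,
either `|t| ≤ 3 d` and `exp (-u) ≤ 14! / u ^ 14`, or `|t| ≤ 3 |lc|` and `sl ≤ exp (-39 m)` -/
theorem sl_le_ms : ∀ᶠ m : ℕ in atTop, ∀ t, |t| ≤ 2 * LL → sl t ≤ ms m t ^ 13 / 40 := by
  filter_upwards [sl_win, ev_poly_exp 1 39 (show (0 : ℝ) < 39 by norm_num),
    eventually_ge_atTop 40] with m hw he hm t ht
  have m0 : (40 : ℝ) ≤ m := by exact_mod_cast hm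
  have m1 : (0 : ℝ) < m := by linarith only [m0]
  have p0 := pow_pos (ms_pos m t) 13
  rcases le_or_gt (lc m - 13 / m ^ 3) t with h | h
  · have h1 := (hw (lc m - 13 / m ^ 3) (by
      rw [Xr, sub_sub_cancel_left, neg_mul, abs_neg, div_mul_cancel₀ _ (by positivity)]
      norm_num)).2
    have h2 := pow_le_pow_left₀ (mu_pos m).le (mu_le_ms m t) 13
    linarith only [sl_anti h, p0, h1, h2]
  have i0 : (0 : ℝ) < 1 / m ^ 3 := by positivity
  have i1 : (13 : ℝ) / m ^ 3 = 13 * (1 / m ^ 3) := by ring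
  have i2 : (10 : ℝ) / m ^ 3 = 10 * (1 / m ^ 3) := by ring
  have i3 : lc m = -(1 / (117 * m)) := by rw [lc]; ring
  have i4 : 10 * (1 / (m : ℝ) ^ 3) ≤ 1 / (117 * m) := by
    rw [mul_one_div, div_le_div_iff₀ (by positivity) (by positivity)]
    linarith only [mul_le_mul_of_nonneg_left (mul_self_le_mul_self (by norm_num) m0) m1.le, m0]
  have g := ms_ge m t
  rw [abs_of_neg (by linarith only [h, i0, i1]), i2] at g
  have u := mu_pos m
  have t0 : t < 0 := by linarith only [h, i0, i1, i3, i4]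
  rcases le_or_gt (-t) (3 * ms m t) with h1 | h1
  · have h2 : (-t) ^ 14 ≤ (3 * ms m t) ^ 13 * (2 * LL) := by
      rw [pow_succ]
      exact mul_le_mul (pow_le_pow_left₀ (by linarith only [h, i0, i1, i3, i4]) h1 13) ((neg_le_abs t).trans ht)
        (by linarith only [h, i0, i1, i3, i4]) (by linarith only [p0])
    have h3 := sl_pow t0 14
    have h4 : ((14 : ℕ).factorial : ℝ) ≤ 10 ^ 11 := by norm_num [Nat.factorial]
    have h5 := mul_le_mul h4 h2 (pow_nonneg (by linarith only [h, i0, i1, i3, i4]) _) (by norm_num)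
    rw [mul_pow, LL] at h5
    linarith only [p0, h3, h5]
  · have h2 : t⁻¹ ≤ -39 * m := by
      have : (-t)⁻¹ ≥ 39 * m := by
        rw [ge_iff_le, ← one_div, le_div_iff₀ (by linarith only [h, i0, i1, i3, i4])]
        have a : -t ≤ 3 * (1 / (117 * m)) := by linarith only [i3, i4, g, u, h1]
        calc 39 * m * -t ≤ 39 * m * (3 * (1 / (117 * m))) := by gcongr
          _ = 1 := by field_simp; norm_num
      rw [inv_neg] at this
      linarith only [this]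
    have h3 : Real.exp (-39 * m) ≤ (1 / (m : ℝ) ^ 3) ^ 13 := by
      rw [one_div_pow, ← pow_mul, le_div_iff₀ (by positivity), mul_comm]
      exact (one_mul _).symm.trans_le (by simpa only [mul_assoc] using he)
    have h4 := pow_le_pow_left₀ i0.le (show 1 / (m : ℝ) ^ 3 ≤ ms m t by linarith only [h, i0, i1, g, u]) 13
    rw [sl_eq t0]
    linarith only [Real.exp_le_exp.2 h2, p0, h3, h4]


end Pool.Agent.MP_bea40e_an.Iv

end

section

open Filter Topology Set Metric Complex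
open scoped ContDiff ComplexConjugate

namespace Pool.Agent.MP_bea40e_an.Iv

/-! The logistic function, the reading of a bit and the penalty. -/

theorem Lg_ofReal (t : ℝ) : Lg t = lg t := by
  simp [Lg, lg, Complex.ofReal_exp]

theorem lg_pos (t : ℝ) : 0 < lg t := by
  unfold lg
  positivity

theorem lg_lt_one (t : ℝ) : lg t < 1 := by
  unfold lg
  have := Real.exp_pos (-t)
  rw [div_lt_one (by positivity)]
  linarith

theorem lg_le_exp (t : ℝ) : lg t ≤ Real.exp t := by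
  unfold lg
  have h := Real.exp_pos (-t)
  have h2 := Real.exp_pos t
  have h3 : Real.exp t * Real.exp (-t) = 1 := by rw [← Real.exp_add]; simp
  rw [div_le_iff₀ (by positivity)]
  linarith only [h2, h3]

theorem one_sub_lg_le (t : ℝ) : 1 - lg t ≤ Real.exp (-t) := by
  unfold lg
  have h := Real.exp_pos (-t)
  have : 1 - Real.exp (-t) ≤ 1 / (1 + Real.exp (-t)) := by
    rw [le_div_iff₀ (by positivity)]
    nlinarith only [h]
  linarith

theorem half_le_lg {t : ℝ} (h : 0 ≤ t) : 1 / 2 ≤ lg t := by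
  unfold lg
  have h1 := Real.exp_pos (-t)
  have h2 : Real.exp (-t) ≤ 1 := Real.exp_le_one_iff.2 (by linarith)
  rw [div_le_div_iff₀ (by positivity) (by positivity)]
  linarith

theorem lgs_den {w : ℂ} (h : |w.im| ≤ 1) :
    1 ≤ ‖1 + cexp (-w)‖ ∧ Real.exp (-w.re) ≤ ‖1 + cexp (-w)‖ := by
  have hc : 0 ≤ Real.cos w.im := (Real.cos_pos_of_le_one h).le
  have hr := Real.exp_pos (-w.re)
  have h1 : ‖1 + cexp (-w)‖ ^ 2 =
      1 + 2 * (Real.exp (-w.re) * Real.cos w.im) + Real.exp (-w.re) ^ 2 := by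
    rw [Complex.sq_norm, Complex.normSq_apply]
    simp only [add_re, one_re, add_im, one_im, Complex.exp_re, Complex.exp_im, neg_re, neg_im,
      Real.cos_neg, Real.sin_neg]
    have := Real.sin_sq_add_cos_sq w.im
    linear_combination Real.exp (-w.re) ^ 2 * this
  have h2 : 0 ≤ Real.exp (-w.re) * Real.cos w.im := mul_nonneg hr.le hc
  have h0 := norm_nonneg (1 + cexp (-w))
  constructor
  · exact le_of_sq_le_sq (by rw [h1]; nlinarith only [h2]) h0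
  · exact le_of_sq_le_sq (by rw [h1]; linarith only [h2]) h0

theorem lgs_ne {w : ℂ} (h : |w.im| ≤ 1) : 1 + cexp (-w) ≠ 0 := by
  intro h0
  have := (lgs_den h).1
  rw [h0, norm_zero] at this
  linarith

theorem Lg_an {w : ℂ} (h : |w.im| ≤ 1) : AnalyticAt ℂ Lg w := by
  unfold Lg
  exact analyticAt_const.div (analyticAt_const.add analyticAt_id.neg.cexp') (lgs_ne h)

theorem Lg_norm {w : ℂ} (h : |w.im| ≤ 1) : ‖Lg w‖ ≤ 1 := by
  unfold Lg
  have h1 := (lgs_den h).1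
  rw [norm_div, norm_one, div_le_one (by linarith)]
  exact h1

theorem Lg_le_exp {w : ℂ} (h : |w.im| ≤ 1) : ‖Lg w‖ ≤ Real.exp w.re := by
  unfold Lg
  have h1 := (lgs_den h).1
  have h2 := (lgs_den h).2
  have h3 : Real.exp w.re * Real.exp (-w.re) = 1 := by rw [← Real.exp_add]; simp
  have h4 := Real.exp_pos w.re
  rw [norm_div, norm_one, div_le_iff₀ (by linarith)]
  nlinarith only [h2, h3, h4]

theorem one_sub_Lg_le {w : ℂ} (h : |w.im| ≤ 1) : ‖1 - Lg w‖ ≤ Real.exp (-w.re) := by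
  have h1 := (lgs_den h).1
  have h0 := lgs_ne h
  have e : 1 - Lg w = cexp (-w) / (1 + cexp (-w)) := by
    unfold Lg
    field_simp
    ring
  have hr := Real.exp_pos (-w.re)
  rw [e, norm_div, Complex.norm_exp, neg_re, div_le_iff₀ (by linarith only [h1])]
  nlinarith only [h1, hr]

theorem Lg_near {w : ℂ} (h : |w.im| ≤ 1) : ‖Lg w - lg w.re‖ ≤ |w.im| := by
  have h1 := (lgs_den h).1
  have h0 := lgs_ne h
  have hr := Real.exp_pos (-w.re)
  have h2 : (1 + (Real.exp (-w.re) : ℂ)) ≠ 0 := by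
    have : (0 : ℝ) < 1 + Real.exp (-w.re) := by positivity
    exact_mod_cast this.ne'
  have e1 : cexp (-w) = (Real.exp (-w.re) : ℂ) * cexp (I * ((-w.im : ℝ) : ℂ)) := by
    rw [Complex.ofReal_exp, ← Complex.exp_add]
    congr 1
    apply Complex.ext <;> simp
  have e : Lg w - lg w.re = -((Real.exp (-w.re) : ℂ) * (cexp (I * ((-w.im : ℝ) : ℂ)) - 1)) /
      ((1 + cexp (-w)) * (1 + (Real.exp (-w.re) : ℂ))) := by
    rw [mul_sub, ← e1]
    unfold Lg lg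
    rw [Complex.ofReal_div, Complex.ofReal_add, Complex.ofReal_one]
    field_simp
    ring
  have h3 : ‖cexp (I * ((-w.im : ℝ) : ℂ)) - 1‖ ≤ |w.im| := by
    have := Real.norm_exp_I_mul_ofReal_sub_one_le (x := -w.im)
    simpa only [ofReal_neg, mul_neg, ge_iff_le, norm_neg, Real.norm_eq_abs] using this
  have h4 : ‖1 + (Real.exp (-w.re) : ℂ)‖ = 1 + Real.exp (-w.re) := by
    rw [← Complex.ofReal_one, ← Complex.ofReal_add, Complex.norm_real, Real.norm_eq_abs,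
      abs_of_pos (by positivity)]
  have h5 : ‖(Real.exp (-w.re) : ℂ)‖ = Real.exp (-w.re) := by
    rw [Complex.norm_real, Real.norm_eq_abs, abs_of_pos hr]
  rw [e, norm_div, norm_neg, norm_mul, norm_mul, h4, h5, div_le_iff₀ (by positivity)]
  have h6 := abs_nonneg w.im
  have h7 : Real.exp (-w.re) ≤ ‖1 + cexp (-w)‖ * (1 + Real.exp (-w.re)) := by nlinarith only [h1, hr]
  calc Real.exp (-w.re) * ‖cexp (I * ((-w.im : ℝ) : ℂ)) - 1‖ ≤ Real.exp (-w.re) * |w.im| :=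
        mul_le_mul_of_nonneg_left h3 hr.le
    _ ≤ (‖1 + cexp (-w)‖ * (1 + Real.exp (-w.re))) * |w.im| := mul_le_mul_of_nonneg_right h7 h6
    _ = _ := mul_comm _ _

/-- `tame_hol` for `Lg` along the real axis -/
theorem Tame.lg {ix E : Type} [NormedAddCommGroup E] [NormedSpace ℝ E] {sz : ix → ℕ}
    {U : ix → Set E} {f : ix → E → ℝ} (hf : Tame sz U f) : Tame sz U fun i x => lg (f i x) := by
  have him : ∀ x : ℂ, x.im = 0 → ∀ t ∈ ball x (1 : ℝ), |t.im| ≤ 1 := by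
    intro x hx t ht
    have h1 := Complex.abs_im_le_norm (t - x)
    rw [mem_ball, dist_eq_norm] at ht
    rw [sub_im, hx, sub_zero] at h1
    linarith
  have h1 : Tame sz (fun _ => {w : ℂ | w.im = 0}) fun _ => Lg := by
    refine tame_hol (M := 0) (N := 0) ?_
    intro i _ x hx
    simp only [pow_zero, inv_one]
    exact ⟨fun t ht => (Lg_an (him x hx t ht)).differentiableAt.differentiableWithinAt,
      fun t ht => Lg_norm (him x hx t ht)⟩
  have h2 := hf.clm_comp Complex.ofRealCLM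
  have h3 := (h1.comp h2 (M := 0) (fun i _ x _ => by simp)).re
  refine h3.congr (M := 0) fun i _ x _ => Eventually.of_forall fun y => ?_
  simp [Lg_ofReal]

theorem rd_nonneg (ξ : ℂ) : 0 ≤ rd ξ := by
  exact Real.smoothTransition.nonneg _

theorem rd_le_one (ξ : ℂ) : rd ξ ≤ 1 := by
  exact Real.smoothTransition.le_one _

theorem rd_zero {ξ : ℂ} (h : -1 / 4 ≤ ξ.re) : rd ξ = 0 := by
  exact Real.smoothTransition.zero_of_nonpos (by linarith)

theorem rd_one {ξ : ℂ} (h : ξ.re ≤ -3 / 4) : rd ξ = 1 := by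
  exact Real.smoothTransition.one_of_one_le (by linarith)

theorem rd_const {ξ : ℂ} (h : 1 / 4 < |ξ.re + 1 / 2|) : rd =ᶠ[𝓝 ξ] fun _ => rd ξ := by
  rcases lt_abs.1 h with h1 | h1
  · have h2 : ∀ᶠ t : ℂ in 𝓝 ξ, -1 / 4 < t.re :=
      Complex.continuous_re.continuousAt.eventually (lt_mem_nhds (by linarith only [h1]))
    filter_upwards [h2] with t ht
    rw [rd_zero ht.le, rd_zero (by linarith only [h1])]
  · have h2 : ∀ᶠ t : ℂ in 𝓝 ξ, t.re < -3 / 4 :=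
      Complex.continuous_re.continuousAt.eventually (gt_mem_nhds (by linarith only [h1]))
    filter_upwards [h2] with t ht
    rw [rd_one ht.le, rd_one (by linarith only [h1])]

theorem Pen_nonneg (ξ : ℂ) : 0 ≤ Pen ξ := by
  exact kap_nonneg _

theorem Pen_zero {ξ : ℂ} (h : ‖ξ‖ ≤ 1 / 10 ∨ ‖ξ + 1‖ ≤ 1 / 10) : Pen ξ = 0 := by
  refine kap_zero ?_
  rcases h with h | h
  · have h1 := abs_le.1 ((Complex.abs_re_le_norm ξ).trans h)
    have h2 := abs_le.1 ((Complex.abs_im_le_norm ξ).trans h)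
    nlinarith only [h1.1, h2.1, h2.2]
  · have h1 := abs_le.1 ((Complex.abs_re_le_norm (ξ + 1)).trans h)
    have h2 := abs_le.1 ((Complex.abs_im_le_norm (ξ + 1)).trans h)
    simp only [add_re, one_re, add_im, one_im, add_zero] at h1 h2
    nlinarith only [h1.2, h2.1, h2.2]

theorem lgs_inner {ι : Type} [Fintype ι] {F : (ι → ℂ) → ℂ} {x : ι → ℂ} (hF : AnalyticAt ℂ F x) :
    ContDiffAt ℝ ∞ (fun t => 1 / 8 + 2 * (F t).im ^ 2 - ((F t).re + 1 / 2) ^ 2) x ∧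
      ∀ v, Lv (fun t => 1 / 8 + 2 * (F t).im ^ 2 - ((F t).re + 1 / 2) ^ 2) x v =
        ‖fderiv ℂ F x v‖ ^ 2 / 2 := by
  have hG : AnalyticAt ℂ (fun t => F t + 1 / 2) x := hF.add analyticAt_const
  have hs := contDiffAt_of_analyticAt hF
  have hre : ContDiffAt ℝ ∞ (fun t => ((F t).re + 1 / 2) ^ 2) x :=
    ((Complex.reCLM.contDiff.contDiffAt.comp x hs).add contDiffAt_const).pow 2
  have him : ContDiffAt ℝ ∞ (fun t => (F t).im ^ 2) x :=
    (Complex.imCLM.contDiff.contDiffAt.comp x hs).pow 2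
  have him2 : ContDiffAt ℝ ∞ (fun t => 2 * (F t).im ^ 2) x := contDiffAt_const.mul him
  have hc : ContDiffAt ℝ ∞ (fun _ : ι → ℂ => (1 / 8 : ℝ)) x := contDiffAt_const
  refine ⟨(hc.add him2).sub hre, fun v => ?_⟩
  have e1 := Lv_reSq hG v
  have e2 := Lv_imSq hF v
  have e3 : (fun t => (F t + 1 / 2).re ^ 2) = fun t => ((F t).re + 1 / 2) ^ 2 := by
    funext t
    simp
  rw [e3, fderiv_add_const] at e1
  unfold Lv at e1 e2 ⊢
  rw [Lb_sub (hc.add him2) hre, Lb_add hc him2, Lb_const, Lb_const_mul him, e1, e2]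
  ring

theorem pshAt_Pen {ι : Type} [Fintype ι] {F : (ι → ℂ) → ℂ} {x : ι → ℂ} (hF : AnalyticAt ℂ F x) :
    PshAt (fun t => Pen (F t)) x := by
  obtain ⟨h1, h2⟩ := lgs_inner hF
  have h3 : PshAt (fun t => 1 / 8 + 2 * (F t).im ^ 2 - ((F t).re + 1 / 2) ^ 2) x :=
    ⟨h1, fun v => by rw [h2]; positivity⟩
  exact h3.comp (γ := kap) kap_contDiff.contDiffAt
    (by rw [kap_deriv]; exact Real.smoothTransition.nonneg _) (kap_deriv2_nonneg _)

theorem Lv_Pen {ι : Type} [Fintype ι] {F : (ι → ℂ) → ℂ} {x : ι → ℂ} (hF : AnalyticAt ℂ F x)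
    (h : |(F x).re + 1 / 2| ≤ 1 / 4) (v : ι → ℂ) :
    ‖fderiv ℂ F x v‖ ^ 2 / 2 ≤ Lv (fun t => Pen (F t)) x v := by
  obtain ⟨h1, h2⟩ := lgs_inner hF
  have h3 := Lb_comp h1 (γ := kap) kap_contDiff.contDiffAt v v
  have h4 := h2 v
  unfold Lv at h4 ⊢
  have h5 : deriv kap (1 / 8 + 2 * (F x).im ^ 2 - ((F x).re + 1 / 2) ^ 2) = 1 := by
    rw [kap_deriv]
    refine Real.smoothTransition.one_of_one_le ?_
    have := abs_le.1 h
    nlinarith only [this.1, this.2]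
  rw [h4, h5, one_mul] at h3
  unfold Pen
  rw [h3]
  have h6 := kap_deriv2_nonneg (1 / 8 + 2 * (F x).im ^ 2 - ((F x).re + 1 / 2) ^ 2)
  exact le_add_of_nonneg_right (div_nonneg (mul_nonneg h6
    (add_nonneg (mul_self_nonneg _) (mul_self_nonneg _))) (by norm_num))

theorem sg_eq {b : Bool} {X : ℝ} (h : 1 ≤ sn b * X) : sg X = if b then 1 else 0 := by
  cases b
  · simp only [sn, Bool.false_eq_true, if_false] at h ⊢
    exact st_zero (by norm_num) (by linarith)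
  · simp only [sn, if_true] at h ⊢
    exact st_one (by norm_num) (by linarith)


end Pool.Agent.MP_bea40e_an.Iv

end

section

open Filter Topology Set Metric Complex
open scoped ContDiff ComplexConjugate

namespace Pool.Agent.MP_bea40e_an.Iv

/-! The kernels, normalised at the node `1` (paper, section 1). -/

noncomputable def ker_P (e : ℝ) (s : ℂ) : ℂ := (e : ℂ) / (1 - (1 - (e : ℂ)) * s)

noncomputable def ker_E (e : ℝ) (M : ℕ) (s : ℂ) : ℂ :=
  (1 - (e : ℂ)) / (1 - (1 - (e : ℂ)) * s) * ∑ j ∈ Finset.range M, ker_P e s ^ j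

/-- lower bound of the denominator -/
theorem ker_den_ge {e d : ℝ} {s : ℂ} (he : 0 < e) (he1 : e ≤ 1) (hd : 0 ≤ d)
    (hs : ‖s‖ ≤ 1 + d) : e - d ≤ ‖1 - (1 - (e : ℂ)) * s‖ := by
  have h1 : ‖(1 - (e : ℂ)) * s‖ ≤ (1 - e) * (1 + d) := by
    rw [norm_mul]
    have : (1 - (e : ℂ)) = ((1 - e : ℝ) : ℂ) := by push_cast; ring
    rw [this, Complex.norm_real, Real.norm_eq_abs, abs_of_nonneg (by linarith)]
    exact mul_le_mul_of_nonneg_left hs (by linarith)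
  have h2 := norm_sub_norm_le (1 : ℂ) ((1 - (e : ℂ)) * s)
  rw [norm_one] at h2
  linarith only [mul_nonneg he.le hd, h1, h2]

theorem ker_den_ne {e d : ℝ} {s : ℂ} (he : 0 < e) (he1 : e ≤ 1) (hd : 0 ≤ d) (hde : d < e)
    (hs : ‖s‖ ≤ 1 + d) : 1 - (1 - (e : ℂ)) * s ≠ 0 := by
  have := ker_den_ge he he1 hd hs
  intro h
  rw [h, norm_zero] at this
  linarith

theorem ker_den_ge' {e d : ℝ} {s : ℂ} (he : 0 < e) (hs : ‖s‖ ≤ 1 + d) :
    ‖s - 1‖ - e * (1 + d) ≤ ‖1 - (1 - (e : ℂ)) * s‖ := by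
  have h0 : 1 - (1 - (e : ℂ)) * s = -(s - 1) + (e : ℂ) * s := by ring
  have h1 : ‖(e : ℂ) * s‖ ≤ e * (1 + d) := by
    rw [norm_mul, Complex.norm_real, Real.norm_eq_abs, abs_of_pos he]
    exact mul_le_mul_of_nonneg_left hs he.le
  have h2 : ‖-(s - 1)‖ ≤ ‖-(s - 1) + (e : ℂ) * s‖ + ‖(e : ℂ) * s‖ := by
    have := norm_sub_le (-(s - 1) + (e : ℂ) * s) ((e : ℂ) * s)
    simpa only [neg_sub, Complex.norm_mul, norm_real, Real.norm_eq_abs, ge_iff_le, add_sub_cancel_right] using this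
  rw [norm_neg] at h2
  rw [h0]; linarith

theorem ker_one_sub_P {e : ℝ} {s : ℂ} (h : 1 - (1 - (e : ℂ)) * s ≠ 0) :
    1 - ker_P e s = (1 - (e : ℂ)) / (1 - (1 - (e : ℂ)) * s) * (1 - s) := by
  unfold ker_P
  field_simp
  ring

theorem ker_E_mul {e : ℝ} {M : ℕ} {s : ℂ} (h : 1 - (1 - (e : ℂ)) * s ≠ 0) :
    (1 - s) * ker_E e M s = 1 - ker_P e s ^ M := by
  unfold ker_E
  have h1 := ker_one_sub_P h
  have h2 := mul_neg_geom_sum (ker_P e s) M
  rw [← h2, h1]; ring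

theorem ker_norm_P {e : ℝ} {s : ℂ} (he : 0 < e) :
    ‖ker_P e s‖ = e / ‖1 - (1 - (e : ℂ)) * s‖ := by
  unfold ker_P
  rw [norm_div, Complex.norm_real, Real.norm_eq_abs, abs_of_pos he]

/-- (K1) for `P`: if `|s| ≤ 1 + d`, `d ≤ t e`, `t ≤ 1/3` then `|P| ≤ 1 + 3 t / 2` -/
theorem ker_P_le {e d t : ℝ} {s : ℂ} (he : 0 < e) (he1 : e ≤ 1) (hd : 0 ≤ d) (ht : d ≤ t * e)
    (ht3 : t ≤ 1 / 3) (hs : ‖s‖ ≤ 1 + d) : ‖ker_P e s‖ ≤ 1 + 3 / 2 * t := by
  have h1 := ker_den_ge he he1 hd hs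
  have ht0 : 0 ≤ t := by
    by_contra h
    push Not at h
    nlinarith only [he, hd, ht, h]
  have hpos : 0 < e - d := by nlinarith only [he, ht, ht3]
  rw [ker_norm_P he, div_le_iff₀ (by linarith)]
  have h2 : e ≤ (1 + 3 / 2 * t) * (e - d) := by
    have : (1 - t) * e ≤ e - d := by linarith
    have h3 : 1 ≤ (1 + 3 / 2 * t) * (1 - t) := by nlinarith only [he, hd, ht, ht3]
    calc e ≤ (1 + 3 / 2 * t) * (1 - t) * e := by nlinarith only [he, h3]
      _ = (1 + 3 / 2 * t) * ((1 - t) * e) := by ring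
      _ ≤ _ := mul_le_mul_of_nonneg_left this (by positivity)
  exact h2.trans (mul_le_mul_of_nonneg_left h1 (by positivity))

/-- (K2) `|P| ≤ 1` away from the node -/
theorem ker_P_le_one {e d : ℝ} {s : ℂ} (he : 0 < e) (he1 : e ≤ 1 / 2) (hde : d ≤ e)
    (hs : ‖s‖ ≤ 1 + d) (h2 : 2 * e ≤ ‖s - 1‖) : ‖ker_P e s‖ ≤ 1 := by
  have hre : s.re ≤ 1 + d := (Complex.re_le_norm s).trans hs
  have hsq : 4 * e ^ 2 ≤ (s.re - 1) ^ 2 + s.im ^ 2 := by
    have : ‖s - 1‖ ^ 2 = (s.re - 1) ^ 2 + s.im ^ 2 := by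
      rw [Complex.sq_norm, Complex.normSq_apply]; simp; ring
    rw [← this]; nlinarith only [he, h2]
  have hden : e ^ 2 ≤ ‖1 - (1 - (e : ℂ)) * s‖ ^ 2 := by
    rw [Complex.sq_norm, Complex.normSq_apply]
    simp only [Complex.sub_re, Complex.one_re, Complex.mul_re, Complex.ofReal_re, Complex.sub_im,
      Complex.one_im, Complex.ofReal_im, Complex.mul_im]
    have hρ : 1 / 2 ≤ 1 - e := by linarith only [he1]
    have key : 2 * e * (s.re - 1) ≤ (1 - e) * ((s.re - 1) ^ 2 + s.im ^ 2) := by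
      have : 2 * e * (s.re - 1) ≤ 2 * e * e := by nlinarith only [he, hde, hre]
      nlinarith only [he1, hsq, this]
    linarith only [mul_le_mul_of_nonneg_left key (show 0 ≤ 1 - e by linarith only [he, he1])]
  have h3 : e ≤ ‖1 - (1 - (e : ℂ)) * s‖ := by
    exact (pow_le_pow_iff_left₀ he.le (norm_nonneg _) two_ne_zero).1 hden
  rw [ker_norm_P he, div_le_one (by linarith only [he, h3])]
  exact h3

/-- (K2) `|P| ≤ 0.53` further away -/
theorem ker_P_le_half {e d : ℝ} {s : ℂ} (he : 0 < e) (hd : d ≤ 1 / 10)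
    (hs : ‖s‖ ≤ 1 + d) (h3 : 3 * e ≤ ‖s - 1‖) : ‖ker_P e s‖ ≤ 53 / 100 := by
  have h1 := ker_den_ge' he hs
  have h2 : 19 / 10 * e ≤ ‖1 - (1 - (e : ℂ)) * s‖ := by nlinarith
  rw [ker_norm_P he, div_le_iff₀ (by linarith only [he, h2])]
  linarith

/-- far from the node `P` is of order `e` -/
theorem ker_P_le_far {e d : ℝ} {s : ℂ} (he : 0 < e) (hd : d ≤ 1 / 10)
    (hs : ‖s‖ ≤ 1 + d) (h3 : 3 * e ≤ ‖s - 1‖) : ‖ker_P e s‖ ≤ 2 * e / ‖s - 1‖ := by
  have h1 := ker_den_ge' he hs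
  have h2 : ‖s - 1‖ / 2 ≤ ‖1 - (1 - (e : ℂ)) * s‖ := by nlinarith
  have h0 : 0 < ‖s - 1‖ := by linarith only [he, h3]
  rw [ker_norm_P he, div_le_div_iff₀ (by linarith) h0]
  nlinarith only [he, h2]

/-- (K1) for `E` -/
theorem ker_E_le {e d t : ℝ} {M : ℕ} {s : ℂ} (he : 0 < e) (he1 : e ≤ 1) (hd : 0 ≤ d)
    (ht : d ≤ t * e) (ht3 : t ≤ 1 / 3) (hM : (M : ℝ) * t ≤ 1 / 3) (hs : ‖s‖ ≤ 1 + d) :
    ‖ker_E e M s‖ ≤ 3 * M / e := by
  have hP := ker_P_le he he1 hd ht ht3 hs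
  have ht0 : 0 ≤ t := by
    by_contra h
    push Not at h
    nlinarith only [he, hd, ht, h]
  have hpow : ∀ j ∈ Finset.range M, ‖ker_P e s ^ j‖ ≤ 2 := by
    intro j hj
    have hj' : (j : ℝ) ≤ M := by exact_mod_cast (Finset.mem_range.1 hj).le
    rw [norm_pow]
    calc ‖ker_P e s‖ ^ j ≤ (1 + 3 / 2 * t) ^ j := pow_le_pow_left₀ (norm_nonneg _) hP j
      _ ≤ Real.exp (3 / 2 * t) ^ j := by
          apply pow_le_pow_left₀ (by positivity)
          linarith only [Real.add_one_le_exp (3 / 2 * t)]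
      _ = Real.exp (j * (3 / 2 * t)) := by rw [Real.exp_nat_mul]
      _ ≤ Real.exp (1 / 2) := by
          apply Real.exp_le_exp.2
          linarith only [mul_le_mul_of_nonneg_right hj' ht0, hM]
      _ ≤ 2 := by
          have h := Real.exp_one_lt_d9
          have h2 : Real.exp (1 / 2) * Real.exp (1 / 2) = Real.exp 1 := by
            rw [← Real.exp_add]; norm_num
          nlinarith only [h, h2]
  have hsum : ‖∑ j ∈ Finset.range M, ker_P e s ^ j‖ ≤ 2 * M := by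
    calc _ ≤ ∑ j ∈ Finset.range M, ‖ker_P e s ^ j‖ := norm_sum_le _ _
      _ ≤ ∑ _j ∈ Finset.range M, (2 : ℝ) := Finset.sum_le_sum hpow
      _ = 2 * M := by simp; ring
  have h1 := ker_den_ge he he1 hd hs
  have h2 : 2 / 3 * e ≤ ‖1 - (1 - (e : ℂ)) * s‖ := by nlinarith only [he, ht, ht3, h1]
  have h3 : ‖(1 - (e : ℂ)) / (1 - (1 - (e : ℂ)) * s)‖ ≤ 3 / 2 / e := by
    rw [norm_div, div_le_div_iff₀ (by linarith only [he, h2]) he]
    have : (1 - (e : ℂ)) = ((1 - e : ℝ) : ℂ) := by push_cast; ring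
    have h4 : ‖(1 - (e : ℂ))‖ ≤ 1 := by
      rw [this, Complex.norm_real, Real.norm_eq_abs, abs_of_nonneg (by linarith only [he1])]; linarith only [he]
    nlinarith only [he, h2, h4]
  unfold ker_E
  rw [norm_mul]
  calc _ ≤ 3 / 2 / e * (2 * M) := mul_le_mul h3 hsum (norm_nonneg _) (by positivity)
    _ = 3 * M / e := by field_simp

theorem ker_pow_sub_one (p : ℂ) (j : ℕ) : ‖p ^ j - 1‖ ≤ (1 + ‖p - 1‖) ^ j - 1 := by
  induction j with
  | zero => simp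
  | succ j ih =>
    have h0 : p ^ (j + 1) - 1 = p * (p ^ j - 1) + (p - 1) := by ring
    have h1 : ‖p‖ ≤ 1 + ‖p - 1‖ := by
      have := norm_add_le (1 : ℂ) (p - 1)
      simpa only [ge_iff_le, add_sub_cancel, norm_one] using this
    rw [h0]
    calc _ ≤ ‖p * (p ^ j - 1)‖ + ‖p - 1‖ := norm_add_le _ _
      _ = ‖p‖ * ‖p ^ j - 1‖ + ‖p - 1‖ := by rw [norm_mul]
      _ ≤ (1 + ‖p - 1‖) * ((1 + ‖p - 1‖) ^ j - 1) + ‖p - 1‖ := by
          have := mul_le_mul h1 ih (norm_nonneg _) (by positivity)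
          linarith
      _ = _ := by ring

theorem ker_exp_half : Real.exp (1 / 2) ≤ 165 / 100 := by
  have h := Real.exp_one_lt_d9
  have h2 : Real.exp (1 / 2) * Real.exp (1 / 2) = Real.exp 1 := by
    rw [← Real.exp_add]; norm_num
  nlinarith only [h, h2]

/-- lower bound of the geometric sum -/
theorem ker_geom_ge {p : ℂ} {t : ℝ} {M : ℕ} (hM : 1 ≤ M) (htM : 24 * t * (M : ℝ) ^ 2 ≤ 1)
    (h1 : ‖1 - p‖ ^ 2 - 3 * t ≤ 1 - ‖p‖ ^ 2) :
    1 / (8 * M) ≤ ‖∑ j ∈ Finset.range M, p ^ j‖ := by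
  have hM' : (1 : ℝ) ≤ M := by exact_mod_cast hM
  by_cases hc : 1 / (2 * M) ≤ ‖1 - p‖
  · have hx : 0 < ‖1 - p‖ := lt_of_lt_of_le (by positivity) hc
    have h2 : 1 ≤ 2 * M * ‖1 - p‖ := by
      rw [div_le_iff₀ (by positivity)] at hc; linarith only [hc]
    have h3 : 6 * t ≤ ‖1 - p‖ ^ 2 := by
      have h4 : 1 ≤ 4 * (M : ℝ) ^ 2 * ‖1 - p‖ ^ 2 := by nlinarith only [h2]
      have h5 : 0 < 4 * (M : ℝ) ^ 2 := by positivity
      by_contra h
      push Not at h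
      linarith only [mul_lt_mul_of_pos_left h h5, htM, h4]
    have h4 : ‖1 - p‖ ^ 2 / 2 ≤ 1 - ‖p‖ ^ 2 := by linarith only [h1, h3]
    have hp1 : ‖p‖ ≤ 1 := by
      by_contra h
      push Not at h
      nlinarith only [h1, h3, h]
    have h5 : ‖1 - p‖ ^ 2 / 4 ≤ 1 - ‖p‖ := by nlinarith only [h1, h3]
    have h6 : ‖p‖ ^ M ≤ ‖p‖ := by
      obtain ⟨k, rfl⟩ := Nat.exists_eq_add_of_le' hM
      rw [pow_succ]
      nlinarith only [pow_le_one₀ (norm_nonneg p) hp1 (n := k), norm_nonneg p]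
    have h7 : 1 - ‖p‖ ≤ ‖1 - p‖ * ‖∑ j ∈ Finset.range M, p ^ j‖ := by
      rw [← norm_mul, mul_neg_geom_sum]
      have := norm_sub_norm_le (1 : ℂ) (p ^ M)
      rw [norm_one, norm_pow] at this
      linarith only [h6, this]
    have h8 : ‖1 - p‖ / 4 ≤ ‖∑ j ∈ Finset.range M, p ^ j‖ := by
      by_contra h
      push Not at h
      linarith only [mul_lt_mul_of_pos_left h hx, h5, h7]
    calc 1 / (8 * (M : ℝ)) = 1 / (2 * M) / 4 := by field_simp; norm_num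
      _ ≤ ‖1 - p‖ / 4 := by linarith only [hc]
      _ ≤ _ := h8
  · push Not at hc
    have hx : ‖p - 1‖ * M ≤ 1 / 2 := by
      rw [norm_sub_rev]
      rw [lt_div_iff₀ (by positivity)] at hc; linarith only [hc]
    have h2 : ∀ j ∈ Finset.range M, ‖p ^ j - 1‖ ≤ 65 / 100 := by
      intro j hj
      have hj' : (j : ℝ) ≤ M := by exact_mod_cast (Finset.mem_range.1 hj).le
      have h3 : (1 + ‖p - 1‖) ^ j ≤ 165 / 100 := by
        calc (1 + ‖p - 1‖) ^ j ≤ Real.exp ‖p - 1‖ ^ j := by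
              apply pow_le_pow_left₀ (by positivity)
              linarith only [Real.add_one_le_exp ‖p - 1‖]
          _ = Real.exp (j * ‖p - 1‖) := by rw [Real.exp_nat_mul]
          _ ≤ Real.exp (1 / 2) := by
              apply Real.exp_le_exp.2
              linarith only [mul_le_mul_of_nonneg_right hj' (norm_nonneg (p - 1)), hx]
          _ ≤ _ := ker_exp_half
      linarith only [ker_pow_sub_one p j, h3]
    have h3 : ‖∑ j ∈ Finset.range M, p ^ j - M‖ ≤ 65 / 100 * M := by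
      have : ∑ j ∈ Finset.range M, p ^ j - (M : ℂ) = ∑ j ∈ Finset.range M, (p ^ j - 1) := by
        rw [Finset.sum_sub_distrib]; simp
      rw [this]
      calc _ ≤ ∑ j ∈ Finset.range M, ‖p ^ j - 1‖ := norm_sum_le _ _
        _ ≤ ∑ _j ∈ Finset.range M, (65 / 100 : ℝ) := Finset.sum_le_sum h2
        _ = _ := by simp; ring
    have h4 := norm_sub_norm_le (M : ℂ) (∑ j ∈ Finset.range M, p ^ j)
    have h5 : ‖(M : ℂ)‖ ≤ ‖∑ j ∈ Finset.range M, p ^ j‖ + ‖∑ j ∈ Finset.range M, p ^ j - M‖ := by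
      rw [norm_sub_rev] at h4; linarith only [h4]
    rw [Complex.norm_natCast] at h5
    have h6 : 1 / (8 * (M : ℝ)) ≤ 1 / 8 := by
      apply one_div_le_one_div_of_le (by norm_num); linarith only [hM']
    linarith only [hM', h3, h5, h6]

/-- (K3) lower bound of `E` near the node -/
theorem ker_E_ge {e d t : ℝ} {M : ℕ} {s : ℂ} (he : 0 < e) (he1 : e ≤ 1 / 100) (hd : 0 ≤ d)
    (ht : d ≤ t * e) (ht3 : t ≤ 1 / 10) (hM : 1 ≤ M) (htM : 24 * t * (M : ℝ) ^ 2 ≤ 1)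
    (hs : ‖s‖ ≤ 1 + d) (h5 : ‖s - 1‖ ≤ 5 * e) : 1 / (50 * e * M) ≤ ‖ker_E e M s‖ := by
  have hM' : (1 : ℝ) ≤ M := by exact_mod_cast hM
  have ht0 : 0 ≤ t := by
    by_contra h
    push Not at h
    nlinarith only [he, hd, ht, h]
  have hP := ker_P_le he (by linarith only [he, he1]) hd ht (by linarith only [ht3]) hs
  have hden := ker_den_ge he (by linarith only [he, he1]) hd hs
  have hde : d < e := by nlinarith only [he, ht, ht3]
  have hne := ker_den_ne he (by linarith only [he, he1]) hd hde hs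
  set w : ℂ := 1 - (1 - (e : ℂ)) * s with hw
  have hwpos : 0 < ‖w‖ := norm_pos_iff.2 hne
  have hre : e - d ≤ w.re := by
    have hsre : s.re ≤ 1 + d := (Complex.re_le_norm s).trans hs
    simp only [hw, Complex.sub_re, Complex.one_re, Complex.mul_re, Complex.ofReal_re,
      Complex.sub_im, Complex.one_im, Complex.ofReal_im]
    nlinarith only [mul_nonneg he.le hd, he1, hsre]
  have hPw : ker_P e s * w = e := by
    unfold ker_P; rw [← hw]; field_simp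
  have hPre : (1 - t) * ‖ker_P e s‖ ^ 2 ≤ (ker_P e s).re := by
    have h1 : (ker_P e s).re = e * w.re / ‖w‖ ^ 2 := by
      unfold ker_P; rw [← hw, Complex.div_re, Complex.sq_norm]; simp
    rw [h1, ker_norm_P he, ← hw, div_pow, ← mul_div_assoc]
    apply div_le_div_of_nonneg_right _ (by positivity)
    nlinarith only [he, ht, hre]
  have hkey : ‖1 - ker_P e s‖ ^ 2 - 3 * t ≤ 1 - ‖ker_P e s‖ ^ 2 := by
    have h1 : ‖1 - ker_P e s‖ ^ 2 = 1 - 2 * (ker_P e s).re + ‖ker_P e s‖ ^ 2 := by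
      rw [Complex.sq_norm, Complex.sq_norm, Complex.normSq_apply, Complex.normSq_apply]
      simp only [sub_re, one_re, sub_im, one_im, zero_sub, mul_neg, neg_mul, neg_neg]; ring
    have h2 : ‖ker_P e s‖ ^ 2 ≤ 3 / 2 := by nlinarith only [ht3, hPre, h1]
    nlinarith only [he, hd, ht, hPre, h1, h2]
  have hg := ker_geom_ge hM htM hkey
  have hwle : ‖w‖ ≤ 601 / 100 * e := by
    have h0 : w = -(s - 1) + (e : ℂ) * s := by rw [hw]; ring
    have h1 : ‖(e : ℂ) * s‖ ≤ e * (1 + d) := by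
      rw [norm_mul, Complex.norm_real, Real.norm_eq_abs, abs_of_pos he]
      exact mul_le_mul_of_nonneg_left hs he.le
    have h2 := norm_add_le (-(s - 1)) ((e : ℂ) * s)
    rw [norm_neg, ← h0] at h2
    nlinarith only [he, he1, h5, hde, h1, h2]
  have h3 : 8 / (50 * e) ≤ ‖(1 - (e : ℂ)) / w‖ := by
    have : (1 - (e : ℂ)) = ((1 - e : ℝ) : ℂ) := by push_cast; ring
    rw [norm_div, this, Complex.norm_real, Real.norm_eq_abs, abs_of_nonneg (by linarith only [he, he1]),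
      div_le_div_iff₀ (by positivity) hwpos]
    nlinarith only [he, he1, hwle]
  unfold ker_E
  rw [norm_mul, ← hw]
  calc 1 / (50 * e * M) = 8 / (50 * e) * (1 / (8 * M)) := by field_simp
    _ ≤ _ := mul_le_mul h3 hg (by positivity) (norm_nonneg _)

theorem ker_im_b (s : ℂ) : (s / (1 - s) ^ 2).im = (1 - ‖s‖ ^ 2) * s.im / ‖s - 1‖ ^ 4 := by
  have h1 : ‖s - 1‖ ^ 4 = Complex.normSq ((1 - s) ^ 2) := by
    rw [map_pow, ← Complex.sq_norm, norm_sub_rev]; ring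
  rw [h1, Complex.div_im, Complex.sq_norm, Complex.normSq_apply s, ← sub_div]
  congr 1
  simp [pow_two]; ring

theorem ker_re_b (s : ℂ) :
    (s / (1 - s) ^ 2).re = (s.re * (1 + ‖s‖ ^ 2) - 2 * ‖s‖ ^ 2) / ‖s - 1‖ ^ 4 := by
  have h1 : ‖s - 1‖ ^ 4 = Complex.normSq ((1 - s) ^ 2) := by
    rw [map_pow, ← Complex.sq_norm, norm_sub_rev]; ring
  rw [h1, Complex.div_re, Complex.sq_norm, Complex.normSq_apply s, ← add_div]
  congr 1
  simp only [pow_two, mul_re, sub_re, one_re, sub_im, one_im, zero_sub, mul_neg, neg_mul, neg_neg, mul_im]; ring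

theorem ker_re_c (s : ℂ) : ((1 + s) / (1 - s)).re = (1 - ‖s‖ ^ 2) / ‖s - 1‖ ^ 2 := by
  have h1 : ‖s - 1‖ ^ 2 = Complex.normSq (1 - s) := by
    rw [← Complex.sq_norm, norm_sub_rev]
  rw [h1, Complex.div_re, Complex.sq_norm, Complex.normSq_apply s, ← add_div]
  congr 1
  simp; ring

theorem ker_E_eq {e : ℝ} {M : ℕ} {s : ℂ} (h : 1 - (1 - (e : ℂ)) * s ≠ 0) (hs : s ≠ 1) :
    ker_E e M s = (1 - ker_P e s ^ M) / (1 - s) := by
  have h1 : 1 - s ≠ 0 := sub_ne_zero.2 hs.symm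
  rw [← ker_E_mul h]; field_simp

theorem ker_B_eq {e : ℝ} {M : ℕ} {s : ℂ} (h : 1 - (1 - (e : ℂ)) * s ≠ 0) (hs : s ≠ 1) :
    s * ker_E e M s ^ 2 = s / (1 - s) ^ 2 * (1 - ker_P e s ^ M) ^ 2 := by
  have h1 : 1 - s ≠ 0 := sub_ne_zero.2 hs.symm
  rw [ker_E_eq h hs]; field_simp

theorem ker_norm_b (s : ℂ) : ‖s / (1 - s) ^ 2‖ = ‖s‖ / ‖s - 1‖ ^ 2 := by
  rw [norm_div, norm_pow, norm_sub_rev]

/-- (K2) size of `B` away from the node -/
theorem ker_B_le {e : ℝ} {M : ℕ} {s : ℂ} (h : 1 - (1 - (e : ℂ)) * s ≠ 0) (hs : s ≠ 1)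
    (hP : ‖ker_P e s‖ ≤ 1) (hs1 : ‖s‖ ≤ 5 / 4) : ‖s * ker_E e M s ^ 2‖ ≤ 5 / ‖s - 1‖ ^ 2 := by
  have h0 : 0 < ‖s - 1‖ := norm_pos_iff.2 (sub_ne_zero.2 hs)
  have h1 : ‖1 - ker_P e s ^ M‖ ≤ 2 := by
    have := norm_sub_le (1 : ℂ) (ker_P e s ^ M)
    rw [norm_one, norm_pow] at this
    linarith only [pow_le_one₀ (norm_nonneg _) hP (n := M), this]
  rw [ker_B_eq h hs, norm_mul, ker_norm_b, norm_pow, div_mul_eq_mul_div]
  apply div_le_div_of_nonneg_right _ (by positivity)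
  have h2 : ‖1 - ker_P e s ^ M‖ ^ 2 ≤ 4 := by nlinarith only [norm_nonneg (1 - ker_P e s ^ M), h1]
  nlinarith only [hs1, h2]

/-- (K2) distance of `B` from `s / (1 - s) ^ 2` -/
theorem ker_B_sub {e : ℝ} {M : ℕ} {s : ℂ} (h : 1 - (1 - (e : ℂ)) * s ≠ 0) (hs : s ≠ 1)
    (hP : ‖ker_P e s‖ ≤ 1) :
    ‖s * ker_E e M s ^ 2 - s / (1 - s) ^ 2‖ ≤ ‖s‖ / ‖s - 1‖ ^ 2 * (3 * ‖ker_P e s‖ ^ M) := by
  have h1 : s * ker_E e M s ^ 2 - s / (1 - s) ^ 2 =
      s / (1 - s) ^ 2 * (ker_P e s ^ M * (ker_P e s ^ M - 2)) := by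
    rw [ker_B_eq h hs]; ring
  rw [h1, norm_mul, ker_norm_b, norm_mul, norm_pow]
  apply mul_le_mul_of_nonneg_left _ (by positivity)
  have h2 : ‖ker_P e s ^ M - 2‖ ≤ 3 := by
    have := norm_sub_le (ker_P e s ^ M) (2 : ℂ)
    rw [norm_pow] at this
    have h3 : ‖(2 : ℂ)‖ = 2 := by simp
    linarith only [pow_le_one₀ (norm_nonneg _) hP (n := M), this, h3]
  nlinarith only [pow_nonneg (norm_nonneg (ker_P e s)) M, h2]

/-- (K2) imaginary part of `B` -/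
theorem ker_B_im {e : ℝ} {M : ℕ} {s : ℂ} (h : 1 - (1 - (e : ℂ)) * s ≠ 0) (hs : s ≠ 1)
    (hP : ‖ker_P e s‖ ≤ 1) (hs1 : ‖s‖ ≤ 5 / 4) : |(s * ker_E e M s ^ 2).im| ≤
      2 * |‖s‖ ^ 2 - 1| / ‖s - 1‖ ^ 4 + 4 * ‖ker_P e s‖ ^ M / ‖s - 1‖ ^ 2 := by
  have h0 : 0 < ‖s - 1‖ := norm_pos_iff.2 (sub_ne_zero.2 hs)
  have h1 := ker_B_sub (M := M) h hs hP
  have h2 : |(s / (1 - s) ^ 2).im| ≤ 2 * |‖s‖ ^ 2 - 1| / ‖s - 1‖ ^ 4 := by
    rw [ker_im_b, abs_div, abs_mul, abs_of_pos (by positivity : 0 < ‖s - 1‖ ^ 4), abs_sub_comm]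
    apply div_le_div_of_nonneg_right _ (by positivity)
    have := Complex.abs_im_le_norm s
    nlinarith only [abs_nonneg (‖s‖ ^ 2 - 1), hs1, this]
  have h3 := Complex.abs_im_le_norm (s * ker_E e M s ^ 2 - s / (1 - s) ^ 2)
  have h4 : ‖s‖ / ‖s - 1‖ ^ 2 * (3 * ‖ker_P e s‖ ^ M) ≤ 4 * ‖ker_P e s‖ ^ M / ‖s - 1‖ ^ 2 := by
    rw [div_mul_eq_mul_div]
    apply div_le_div_of_nonneg_right _ (by positivity)
    nlinarith only [pow_nonneg (norm_nonneg (ker_P e s)) M, hs1]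
  have h5 : (s * ker_E e M s ^ 2).im =
      (s * ker_E e M s ^ 2 - s / (1 - s) ^ 2).im + (s / (1 - s) ^ 2).im := by
    rw [Complex.sub_im]; ring
  rw [h5]
  linarith [abs_add_le (s * ker_E e M s ^ 2 - s / (1 - s) ^ 2).im (s / (1 - s) ^ 2).im]

theorem ker_im_sq (b : ℂ) : |(b ^ 2).im| ≤ 2 * ‖b‖ * |b.im| := by
  have : (b ^ 2).im = 2 * b.re * b.im := by simp [pow_two]; ring
  rw [this, abs_mul, abs_mul, abs_two]
  have := Complex.abs_re_le_norm b
  nlinarith only [abs_nonneg b.im, this]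

/-- (K2) real part of `S` -/
theorem ker_S_re {e : ℝ} {M : ℕ} {s : ℂ} (h : 1 - (1 - (e : ℂ)) * s ≠ 0) (hs : s ≠ 1)
    (hs1 : ‖s‖ ≤ 2) : |((1 + s) * ker_E e M s).re| ≤
      |‖s‖ ^ 2 - 1| / ‖s - 1‖ ^ 2 + 3 * ‖ker_P e s‖ ^ M / ‖s - 1‖ := by
  have h0 : 0 < ‖s - 1‖ := norm_pos_iff.2 (sub_ne_zero.2 hs)
  have h1 : (1 + s) * ker_E e M s = (1 + s) / (1 - s) - (1 + s) / (1 - s) * ker_P e s ^ M := by
    rw [ker_E_eq h hs]; ring
  rw [h1, Complex.sub_re]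
  have h2 : |((1 + s) / (1 - s)).re| = |‖s‖ ^ 2 - 1| / ‖s - 1‖ ^ 2 := by
    rw [ker_re_c, abs_div, abs_of_pos (by positivity : 0 < ‖s - 1‖ ^ 2), abs_sub_comm]
  have h3 : |((1 + s) / (1 - s) * ker_P e s ^ M).re| ≤ 3 * ‖ker_P e s‖ ^ M / ‖s - 1‖ := by
    refine (Complex.abs_re_le_norm _).trans ?_
    rw [norm_mul, norm_div, norm_pow, norm_sub_rev, div_mul_eq_mul_div]
    apply div_le_div_of_nonneg_right _ h0.le
    have := norm_add_le (1 : ℂ) s
    rw [norm_one] at this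
    nlinarith only [pow_nonneg (norm_nonneg (ker_P e s)) M, hs1, this]
  linarith only [abs_sub ((1 + s) / (1 - s)).re ((1 + s) / (1 - s) * ker_P e s ^ M).re, h2, h3]

/-- (K4) for the model kernel -/
theorem ker_b_far {s : ℂ} (h1 : 13 / 10 ≤ ‖s - 1‖) (hq : |‖s‖ ^ 2 - 1| ≤ 1 / 1000) :
    31 / 500 ≤ ((s / (1 - s) ^ 2) ^ 2).re ∧ ‖s / (1 - s) ^ 2‖ ^ 2 ≤ 9 / 25 := by
  obtain ⟨hq1, hq2⟩ := abs_le.1 hq
  set q := ‖s‖ ^ 2 with hqdef
  set D := ‖s - 1‖ ^ 2 with hD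
  have hD1 : 169 / 100 ≤ D := by rw [hD]; nlinarith only [h1]
  have hs1 : ‖s‖ ≤ 10005 / 10000 := by
    by_contra h
    push Not at h
    nlinarith only [hq2, h]
  have hD2 : D ≤ 4003 / 1000 := by
    have := norm_sub_le s 1
    rw [norm_one] at this
    rw [hD]; nlinarith only [h1, hs1, this]
  have hDx : D = 1 - 2 * s.re + q := by
    rw [hD, hqdef, Complex.sq_norm, Complex.sq_norm, Complex.normSq_apply, Complex.normSq_apply]
    simp; ring
  have hn : ‖s / (1 - s) ^ 2‖ ^ 2 = q / D ^ 2 := by rw [ker_norm_b, div_pow]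
  have hr : (s / (1 - s) ^ 2).re = ((1 - q) ^ 2 / 2 - D * (1 + q) / 2) / D ^ 2 := by
    rw [ker_re_b, ← hqdef]
    have : ‖s - 1‖ ^ 4 = D ^ 2 := by rw [hD]; ring
    rw [this]; congr 1
    have hx : s.re = (1 + q - D) / 2 := by linarith only [hDx]
    rw [hx]; ring
  have hD0 : 0 < D := by linarith only [hD1]
  constructor
  · have h2 : ∀ b : ℂ, (b ^ 2).re = 2 * b.re ^ 2 - ‖b‖ ^ 2 := by
      intro b
      rw [Complex.sq_norm, Complex.normSq_apply]; simp [pow_two]; ring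
    rw [h2, hn, hr]
    have h3 : 9994 / 10000 * D ≤ D * (1 + q) / 2 - (1 - q) ^ 2 / 2 := by nlinarith only [hq1, hq2, hD1]
    have h4 : (9994 / 10000 * D) ^ 2 ≤ ((1 - q) ^ 2 / 2 - D * (1 + q) / 2) ^ 2 := by
      nlinarith only [hD1, h3]
    have h5 : (9994 / 10000) ^ 2 / D ^ 2 ≤ (((1 - q) ^ 2 / 2 - D * (1 + q) / 2) / D ^ 2) ^ 2 := by
      rw [div_pow _ (D ^ 2), div_le_div_iff₀ (by positivity) (by positivity)]
      linarith only [mul_le_mul_of_nonneg_right h4 (sq_nonneg D)]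
    have h6 : 31 / 500 ≤ (2 * (9994 / 10000) ^ 2 - q) / D ^ 2 := by
      rw [le_div_iff₀ (by positivity)]
      nlinarith
    have h7 : (2 * (9994 / 10000) ^ 2 - q) / D ^ 2 =
        2 * ((9994 / 10000) ^ 2 / D ^ 2) - q / D ^ 2 := by ring
    linarith only [h5, h6, h7]
  · rw [hn, div_le_iff₀ (by positivity)]
    nlinarith only [hq2, hD1]

/-- (K4) -/
theorem ker_B_far {e : ℝ} {M : ℕ} {s : ℂ} (h : 1 - (1 - (e : ℂ)) * s ≠ 0)
    (hP : ‖ker_P e s‖ ^ M ≤ 1 / 1000) (h1 : 13 / 10 ≤ ‖s - 1‖) (hq : |‖s‖ ^ 2 - 1| ≤ 1 / 1000) :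
    1 / 17 ≤ ((s * ker_E e M s ^ 2) ^ 2).re ∧ ‖s * ker_E e M s ^ 2‖ ^ 2 ≤ 2 / 5 := by
  have hs : s ≠ 1 := by
    intro h0
    rw [h0] at h1; norm_num at h1
  obtain ⟨hb1, hb2⟩ := ker_b_far h1 hq
  rw [ker_B_eq h hs]
  set b := s / (1 - s) ^ 2
  set w := ker_P e s ^ M with hw
  have hw1 : ‖w‖ ≤ 1 / 1000 := by rw [hw, norm_pow]; exact hP
  have h2 : ‖(1 - w) ^ 4 - 1‖ ≤ 1 / 200 := by
    have h3 := ker_pow_sub_one (1 - w) 4
    have h4 : ‖1 - w - 1‖ = ‖w‖ := by simp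
    rw [h4] at h3
    have h5 : (1 + ‖w‖) ^ 4 ≤ (1 + 1 / 1000) ^ 4 := pow_le_pow_left₀ (by positivity) (by linarith only [hw1]) 4
    norm_num at h5
    linarith only [h3, h5]
  have h3 : (b * (1 - w) ^ 2) ^ 2 = b ^ 2 + b ^ 2 * ((1 - w) ^ 4 - 1) := by ring
  have h4 : ‖b ^ 2 * ((1 - w) ^ 4 - 1)‖ ≤ 9 / 25 * (1 / 200) := by
    rw [norm_mul, norm_pow]
    exact mul_le_mul hb2 h2 (norm_nonneg _) (by norm_num)
  constructor
  · rw [h3, Complex.add_re]
    have := (abs_le.1 (Complex.abs_re_le_norm (b ^ 2 * ((1 - w) ^ 4 - 1)))).1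
    linarith only [hb1, h4, this]
  · rw [← norm_pow, h3]
    have := norm_add_le (b ^ 2) (b ^ 2 * ((1 - w) ^ 4 - 1))
    rw [norm_pow] at this
    linarith only [hb2, h4, this]

theorem ker_P_analyticAt {e : ℝ} {s : ℂ} (h : 1 - (1 - (e : ℂ)) * s ≠ 0) :
    AnalyticAt ℂ (ker_P e) s := by
  unfold ker_P
  exact analyticAt_const.div (by fun_prop) h

theorem ker_E_analyticAt {e : ℝ} {M : ℕ} {s : ℂ} (h : 1 - (1 - (e : ℂ)) * s ≠ 0) :
    AnalyticAt ℂ (ker_E e M) s := by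
  unfold ker_E
  refine AnalyticAt.mul (analyticAt_const.div (by fun_prop) h) ?_
  exact Finset.analyticAt_fun_sum _ fun j _ => (ker_P_analyticAt h).pow j

theorem ker_E_zero {e : ℝ} {M : ℕ} : ker_E e M 0 = 1 - (e : ℂ) ^ M := by
  have h := ker_E_mul (e := e) (M := M) (s := 0) (by simp)
  simpa [ker_P] using h


theorem ker_Pk (m : ℕ) : Pk m = ker_P (ep m) := rfl

theorem ker_Ek (m : ℕ) : Ek m = ker_E (ep m) (m ^ 2) := rfl

/-- the numerical facts on the parameters -/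
theorem ker_num {m : ℕ} (hm : 10 ≤ m) : 0 < ep m ∧ ep m ≤ 1 / 100 ∧ 0 ≤ 2 * e2 m ∧
    2 * e2 m ≤ 2 / (m : ℝ) ^ 8 * ep m ∧ 2 / (m : ℝ) ^ 8 ≤ 1 / 10 ∧
    ((m ^ 2 : ℕ) : ℝ) * (2 / (m : ℝ) ^ 8) ≤ 1 / 3 ∧
    24 * (2 / (m : ℝ) ^ 8) * ((m ^ 2 : ℕ) : ℝ) ^ 2 ≤ 1 ∧ 2 * e2 m < ep m ∧ 2 * e2 m ≤ 1 / 10 := by
  have hx : (10 : ℝ) ≤ m := by exact_mod_cast hm
  have h0 : (0 : ℝ) < m := by linarith only [hx]
  have hp : ∀ k : ℕ, (10 : ℝ) ^ k ≤ (m : ℝ) ^ k := fun k => pow_le_pow_left₀ (by norm_num) hx k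
  have h1 : 0 < ep m := by unfold ep; positivity
  have h2 : ep m ≤ 1 / 100 := by
    unfold ep
    apply one_div_le_one_div_of_le (by norm_num)
    linarith only [hp 5]
  have h3 : 2 * e2 m = 2 / (m : ℝ) ^ 8 * ep m := by unfold e2 ep; field_simp
  have h4 : 2 / (m : ℝ) ^ 8 ≤ 1 / 10 := by
    rw [div_le_div_iff₀ (by positivity) (by norm_num)]
    linarith only [hp 8, h1, h2]
  refine ⟨h1, h2, by unfold e2; positivity, h3.le, h4, ?_, ?_, ?_, ?_⟩
  · have : ((m ^ 2 : ℕ) : ℝ) * (2 / (m : ℝ) ^ 8) = 2 / (m : ℝ) ^ 6 := by push_cast; field_simp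
    rw [this, div_le_div_iff₀ (by positivity) (by norm_num)]
    linarith only [hp 6, h1, h2]
  · have : 24 * (2 / (m : ℝ) ^ 8) * ((m ^ 2 : ℕ) : ℝ) ^ 2 = 48 / (m : ℝ) ^ 4 := by
      push_cast; field_simp; norm_num
    rw [this, div_le_one (by positivity)]
    linarith only [hp 4, h1, h2]
  · rw [h3]; nlinarith only [h1, h4]
  · rw [h3]; nlinarith only [h1, h2, h4]

theorem ker_pow_tl {p : ℝ} (h0 : 0 ≤ p) (h : p ≤ 53 / 100) (m : ℕ) : p ^ m ^ 2 ≤ tl m := by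
  have h1 : p ≤ Real.exp (-1 / 3) := by linarith [Real.add_one_le_exp (-1 / 3)]
  calc p ^ m ^ 2 ≤ Real.exp (-1 / 3) ^ m ^ 2 := pow_le_pow_left₀ h0 h1 _
    _ = tl m := by
      unfold tl
      rw [← Real.exp_nat_mul]
      congr 1
      push_cast; ring


theorem K1 : ∀ᶠ m : ℕ in atTop, ∀ s : ℂ, ‖s‖ ≤ 1 + 2 * e2 m → AnalyticAt ℂ (Ek m) s ∧
    ‖Ek m s‖ ≤ 6 * m ^ 7 ∧ (1 - s) * Ek m s = 1 - Pk m s ^ m ^ 2 := by
  filter_upwards [eventually_ge_atTop 10] with m hm s hs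
  obtain ⟨h1, h2, h3, h4, h5, h6, -, h8, -⟩ := ker_num hm
  have hne := ker_den_ne h1 (by linarith only [h2]) h3 h8 hs
  have h0 : (0 : ℝ) < m := by exact_mod_cast (by omega : 0 < m)
  rw [ker_Ek, ker_Pk]
  refine ⟨ker_E_analyticAt hne, ?_, ker_E_mul hne⟩
  refine (ker_E_le h1 (by linarith only [h1, h2]) h3 h4 (by linarith only [h5]) h6 hs).trans ?_
  have : 3 * ((m ^ 2 : ℕ) : ℝ) / ep m = 3 * (m : ℝ) ^ 7 := by
    unfold ep; push_cast; field_simp
  rw [this]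
  linarith only [pow_pos h0 7]

theorem K2 : ∀ᶠ m : ℕ in atTop, ∀ s : ℂ, ‖s‖ ≤ 1 + 2 * e2 m → 3 * ep m ≤ ‖s - 1‖ →
    |(Bk m s).im| ≤ m ^ 21 * (|‖s‖ ^ 2 - 1| + tl m) ∧
    |(Bk m s ^ 2).im| ≤ m ^ 32 * (|‖s‖ ^ 2 - 1| + tl m) ∧
    |((1 + s) * Ek m s).re| ≤ m ^ 11 * (|‖s‖ ^ 2 - 1| + tl m) ∧
    ‖Bk m s‖ ≤ 5 / ‖s - 1‖ ^ 2 := by
  filter_upwards [eventually_ge_atTop 10] with m hm s hs h3e
  obtain ⟨h1, h2, h3, h4, h5, h6, -, h8, h9⟩ := ker_num hm
  have hne := ker_den_ne h1 (by linarith only [h2]) h3 h8 hs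
  have hx : (10 : ℝ) ≤ m := by exact_mod_cast hm
  have h0 : (0 : ℝ) < m := by linarith only [h1, h2, hx]
  have hn : 0 < ‖s - 1‖ := by linarith only [h3e, h1]
  have hs1 : s ≠ 1 := sub_ne_zero.1 (norm_pos_iff.1 hn)
  have hP := ker_P_le_half h1 h9 hs h3e
  have hP1 : ‖ker_P (ep m) s‖ ≤ 1 := by linarith only [h1, h2, hP]
  have hT := ker_pow_tl (norm_nonneg _) hP m
  have hT0 := tl_pos m
  have hB := ker_B_le (M := m ^ 2) hne hs1 hP1 (by linarith only [hs, h2, h8])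
  have hI := ker_B_im (M := m ^ 2) hne hs1 hP1 (by linarith only [hs, h2, h8])
  have hS := ker_S_re (M := m ^ 2) hne hs1 (by linarith only [hs, h1, h2, h8])
  have hinv : 1 / ‖s - 1‖ ≤ (m : ℝ) ^ 5 / 3 := by
    rw [div_le_div_iff₀ hn (by norm_num)]
    have : (m : ℝ) ^ 5 * ep m = 1 := by unfold ep; field_simp
    linarith only [mul_le_mul_of_nonneg_left h3e (pow_pos h0 5).le, this]
  have hinv0 : 0 ≤ 1 / ‖s - 1‖ := by positivity
  have hk : ∀ k : ℕ, 1 / ‖s - 1‖ ^ k ≤ ((m : ℝ) ^ 5 / 3) ^ k := fun k => by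
    rw [← one_div_pow]; exact pow_le_pow_left₀ hinv0 hinv k
  have hm1 : (1 : ℝ) ≤ m := by linarith only [h1, h2, hx]
  have hle : ∀ {a b : ℕ}, a ≤ b → (m : ℝ) ^ a ≤ (m : ℝ) ^ b := fun h => pow_le_pow_right₀ hm1 h
  set δ := |‖s‖ ^ 2 - 1| with hδ
  have hδ0 : 0 ≤ δ := abs_nonneg _
  have hk2 : 1 / ‖s - 1‖ ^ 2 ≤ (m : ℝ) ^ 10 / 9 := (hk 2).trans (le_of_eq (by ring))
  have hk4 : 1 / ‖s - 1‖ ^ 4 ≤ (m : ℝ) ^ 20 / 81 := (hk 4).trans (le_of_eq (by ring))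
  have hI2 : |(Bk m s).im| ≤ (m : ℝ) ^ 20 * (δ + tl m) := by
    refine le_trans hI ?_
    have a1 : 2 * δ / ‖s - 1‖ ^ 4 ≤ 2 * δ * ((m : ℝ) ^ 20 / 81) := by
      rw [div_eq_mul_one_div]; exact mul_le_mul_of_nonneg_left hk4 (by positivity)
    have a2 : 4 * ‖ker_P (ep m) s‖ ^ m ^ 2 / ‖s - 1‖ ^ 2 ≤ 4 * tl m * ((m : ℝ) ^ 10 / 9) := by
      rw [div_eq_mul_one_div]
      exact mul_le_mul (by linarith only [hT]) hk2 (by positivity) (by positivity)
    have a3 : (m : ℝ) ^ 10 * tl m ≤ (m : ℝ) ^ 20 * tl m :=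
      mul_le_mul_of_nonneg_right (hle (by norm_num)) hT0.le
    have a4 := mul_nonneg (pow_pos h0 20).le hδ0
    have a5 := mul_pos (pow_pos h0 10) hT0
    rw [mul_add]
    linarith only [a1, a2, a3, a4, a5]
  have hB' : ‖Bk m s‖ ≤ 5 / ‖s - 1‖ ^ 2 := hB
  have hsum : 0 ≤ δ + tl m := by positivity
  refine ⟨hI2.trans (mul_le_mul_of_nonneg_right (hle (by norm_num)) hsum), ?_, ?_, hB'⟩
  · refine (ker_im_sq _).trans ?_
    have a1 : ‖Bk m s‖ ≤ 5 * ((m : ℝ) ^ 10 / 9) := by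
      refine hB'.trans ?_
      rw [div_eq_mul_one_div]; exact mul_le_mul_of_nonneg_left hk2 (by norm_num)
    have a2 : 2 * ‖Bk m s‖ * |(Bk m s).im| ≤
        2 * (5 * ((m : ℝ) ^ 10 / 9)) * ((m : ℝ) ^ 20 * (δ + tl m)) :=
      mul_le_mul (by linarith only [a1]) hI2 (abs_nonneg _) (by positivity)
    refine a2.trans ?_
    have a3 : 2 * (5 * ((m : ℝ) ^ 10 / 9)) * (m : ℝ) ^ 20 ≤ (m : ℝ) ^ 32 := by
      have : (m : ℝ) ^ 32 = (m : ℝ) ^ 2 * (m : ℝ) ^ 30 := by ring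
      rw [this]
      have h100 : (100 : ℝ) ≤ (m : ℝ) ^ 2 := by nlinarith only [hx]
      nlinarith only [pow_pos h0 30, h100]
    rw [← mul_assoc]
    exact mul_le_mul_of_nonneg_right a3 hsum
  · refine le_trans hS ?_
    have a1 : δ / ‖s - 1‖ ^ 2 ≤ δ * ((m : ℝ) ^ 10 / 9) := by
      rw [div_eq_mul_one_div]; exact mul_le_mul_of_nonneg_left hk2 hδ0
    have a2 : 3 * ‖ker_P (ep m) s‖ ^ m ^ 2 / ‖s - 1‖ ≤ 3 * tl m * ((m : ℝ) ^ 5 / 3) := by
      rw [div_eq_mul_one_div]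
      exact mul_le_mul (by linarith only [hT]) hinv (by positivity) (by positivity)
    have a3 : (m : ℝ) ^ 5 * tl m ≤ (m : ℝ) ^ 11 * tl m :=
      mul_le_mul_of_nonneg_right (hle (by norm_num)) hT0.le
    have a4 : (m : ℝ) ^ 10 * δ ≤ (m : ℝ) ^ 11 * δ :=
      mul_le_mul_of_nonneg_right (hle (by norm_num)) hδ0
    have a5 := mul_nonneg (pow_pos h0 10).le hδ0
    rw [mul_add]
    linarith only [a1, a2, a3, a4, a5]

theorem K3 : ∀ᶠ m : ℕ in atTop, ∀ s : ℂ, ‖s‖ ≤ 1 + 2 * e2 m → ‖s - 1‖ ≤ 5 * ep m →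
    (m : ℝ) ^ 3 / 100 ≤ ‖Ek m s‖ := by
  filter_upwards [eventually_ge_atTop 10] with m hm s hs h5e
  obtain ⟨h1, h2, h3, h4, h5, -, h7, -, -⟩ := ker_num hm
  have h0 : (0 : ℝ) < m := by exact_mod_cast (by omega : 0 < m)
  rw [ker_Ek]
  refine le_trans ?_ (ker_E_ge h1 h2 h3 h4 h5 (Nat.one_le_pow _ _ (by omega)) h7 hs h5e)
  have : 1 / (50 * ep m * ((m ^ 2 : ℕ) : ℝ)) = (m : ℝ) ^ 3 / 50 := by
    unfold ep; push_cast; field_simp
  rw [this]
  linarith only [pow_pos h0 3]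

theorem K4 : ∀ᶠ m : ℕ in atTop, ∀ s : ℂ, ‖s‖ ≤ 1 + 2 * e2 m → |‖s‖ ^ 2 - 1| ≤ 1 / 1000 →
    13 / 10 ≤ ‖s - 1‖ → 1 / 17 ≤ (Bk m s ^ 2).re ∧ ‖Bk m s‖ ^ 2 ≤ 2 / 5 := by
  filter_upwards [eventually_ge_atTop 10] with m hm s hs hq hf
  obtain ⟨h1, h2, h3, -, -, -, -, h8, h9⟩ := ker_num hm
  have hne := ker_den_ne h1 (by linarith only [h2]) h3 h8 hs
  have hP := ker_P_le_half h1 h9 hs (by linarith only [hf, h2])
  have hP2 : ‖ker_P (ep m) s‖ ^ m ^ 2 ≤ 1 / 1000 := by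
    calc ‖ker_P (ep m) s‖ ^ m ^ 2 ≤ (53 / 100) ^ m ^ 2 := pow_le_pow_left₀ (norm_nonneg _) hP _
      _ ≤ (53 / 100) ^ 11 :=
          pow_le_pow_of_le_one (by norm_num) (by norm_num) (by nlinarith only [hm])
      _ ≤ 1 / 1000 := by norm_num
  exact ker_B_far hne hP2 hf hq

theorem Ek_zero (m : ℕ) : Ek m 0 = S0 m := by
  rw [ker_Ek, ker_E_zero]
  unfold S0
  push_cast
  rfl

theorem S0_mem : ∀ᶠ m : ℕ in atTop, 1 / 2 ≤ S0 m ∧ S0 m ≤ 1 := by
  filter_upwards [eventually_ge_atTop 10] with m hm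
  obtain ⟨h1, h2, -⟩ := ker_num hm
  have h3 : ep m ^ m ^ 2 ≤ ep m ^ 1 :=
    pow_le_pow_of_le_one h1.le (by linarith only [h2]) (Nat.one_le_pow _ _ (by omega))
  have h4 := pow_pos h1 (m ^ 2)
  unfold S0
  constructor <;> linarith only [h2, h3, h4]


end Pool.Agent.MP_bea40e_an.Iv

end

section

open Filter Topology Set Metric Complex
open scoped ContDiff ComplexConjugate

namespace Pool.Agent.MP_bea40e_an.Iv

open MeasureTheory

/-- shears preserve the volume -/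
lemma vol_shear {ι : Type} [Fintype ι] (p : ι → Prop) {φ : (ι → ℂ) → ι → ℂ} (hφ : Measurable φ)
    (h0 : ∀ x i, p i → φ x i = 0) (h1 : ∀ x y, (∀ i, p i → x i = y i) → φ x = φ y) :
    MeasurePreserving (fun x => x + φ x) volume volume := by
  classical
  let e := MeasurableEquiv.piEquivPiSubtypeProd (fun _ : ι => ℂ) p
  have he : MeasurePreserving e volume volume := volume_preserving_piEquivPiSubtypeProd _ p
  let ψ : ({i // p i} → ℂ) → {i // ¬p i} → ℂ := fun a i => φ (e.symm (a, 0)) i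
  have hψ : Measurable ψ := measurable_pi_lambda _ fun i => (measurable_pi_apply i.1).comp
    (hφ.comp (e.symm.measurable.comp (measurable_id.prodMk measurable_const)))
  have hs : MeasurePreserving (fun q : ({i // p i} → ℂ) × ({i // ¬p i} → ℂ) => (q.1, q.2 + ψ q.1))
      volume volume :=
    (MeasurePreserving.id volume).skew_product (g := fun a b => b + ψ a)
      (measurable_snd.add (hψ.comp measurable_fst))
      (Eventually.of_forall fun a => (measurePreserving_add_right volume (ψ a)).map_eq)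
  refine (fun h : (fun x => x + φ x) = _ => h ▸ (he.symm e).comp (hs.comp he)) ?_
  funext x i
  have h2 : φ (e.symm ((e x).1, 0)) = φ x := h1 _ _ fun i hi => by simp [e, hi]
  by_cases hi : p i
  · simp [e, hi, h0 x i hi]
  · simp only [Function.comp, ψ, h2]
    simp [e, hi]

lemma vol_rect (a b c : ℝ) :
    volume {l : ℂ | a < l.re ∧ l.re < b ∧ |l.im| < c} = ENNReal.ofReal (b - a) * ENNReal.ofReal (2 * c) := by
  have h : {l : ℂ | a < l.re ∧ l.re < b ∧ |l.im| < c} =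
      measurableEquivRealProd ⁻¹' (Ioo a b ×ˢ Ioo (-c) c) := by
    ext l
    simp only [abs_lt, mem_ofPred_eq, mem_preimage, measurableEquivRealProd_apply, mem_prod, mem_Ioo, and_assoc]
  rw [h, volume_preserving_equiv_real_prod.measure_preimage
    (measurableSet_Ioo.prod measurableSet_Ioo).nullMeasurableSet, Measure.volume_eq_prod,
    Measure.prod_prod, Real.volume_Ioo, Real.volume_Ioo]
  congr 2
  ring

lemma vol_ball (r : ℝ) (hr : 0 ≤ r) : ENNReal.ofReal (r ^ 2) ≤ volume (ball (0 : ℂ) r) := by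
  rw [Complex.volume_ball, ENNReal.ofReal_pow hr]
  refine le_mul_of_one_le_right' ?_
  rw [ENNReal.one_le_coe_iff, ← NNReal.coe_le_coe]
  simpa only [NNReal.coe_one, NNReal.coe_real_pi] using (show (1 : ℝ) ≤ Real.pi by linarith [Real.pi_gt_three])

lemma vol_Lg : Measurable Lg := by
  unfold Lg
  fun_prop

lemma vol_Ek (m : ℕ) : Measurable (Ek m) := by
  unfold Ek Pk
  fun_prop

lemma vol_S1 (m : ℕ) (ν : Nd m) : Measurable (S1 m ν) := by
  have h1 := vol_Ek m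
  have h2 : Measurable (slope (Sk m ν) 0) := by
    unfold slope Sk
    simp only [vsub_eq_sub]
    fun_prop
  have h3 : S1 m ν = fun s => if s = 0 then deriv (Sk m ν) 0 else slope (Sk m ν) 0 s := by
    funext s
    simp only [S1, dslope, Function.update_apply]
  rw [h3]
  exact Measurable.ite (measurableSet_singleton 0) measurable_const h2

lemma vol_Gam (m : ℕ) (k : Wd m) (l : Fin (kk m)) : Measurable (Gam m k l) := by
  have h1 := vol_Lg
  unfold Gam Tc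
  split_ifs <;> fun_prop

lemma vol_GG1 (m : ℕ) (k : Wd m) : Measurable fun x : EE => GG1 m k (x js) (x jo) := by
  have h1 := vol_Gam m k
  have h2 := vol_Ek m
  unfold GG1 G1
  fun_prop

lemma vol_AA2 (m : ℕ) (k : Wd m) (j : AX) : Measurable fun x : EE => AA2 m k j (x js) (x jo) := by
  have h1 := vol_Gam m k
  have h2 := vol_Ek m
  unfold AA2 A2
  refine Finset.measurable_sum _ fun ν _ => ?_
  split_ifs <;> fun_prop

lemma vol_cmp (m : ℕ) (k : Wd m) :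
    Measurable fun x : EE => cmp m k (x js) (x jw) (x jl) (x jo) fun j => x (jv j) := by
  have h1 := vol_GG1 m k
  have h2 := vol_AA2 m k
  have h3 := vol_S1 m
  have h4 := vol_Lg
  unfold cmp eta Tc Xc
  fun_prop

lemma vol_pt {α : Type} [MeasurableSpace α] {s z w l o : α → ℂ} {v : α → AX → ℂ} (hs : Measurable s)
    (hz : Measurable z) (hw : Measurable w) (hl : Measurable l) (ho : Measurable o)
    (hv : ∀ j, Measurable fun a => v a j) :
    Measurable fun a => pt (s a) (z a) (w a) (l a) (o a) (v a) := by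
  refine measurable_pi_lambda _ fun i => ?_
  rcases i with i | j
  · fin_cases i <;> simpa [pt]
  · exact hv j

/-- the box onto which the tube is sheared -/
def vol_B (m : ℕ) : J → Set ℂ := Sum.elim ![ball 0 (1 / 2), ball 0 (mu m ^ 14), ball 0 (mu m ^ 4),
  {l | lc m < l.re ∧ l.re < lc m + 1 / m ^ 3 ∧ |l.im| < mu m ^ 7},
  {l | 10 * kk m / m ^ 3 < l.re ∧ l.re < 10 * kk m / m ^ 3 + 1 / m ^ 3 ∧ |l.im| < mu m ^ 7}]
  fun _ => ball 0 (1 / 10)

lemma vol_B_meas (m : ℕ) (i : J) : MeasurableSet (vol_B m i) := by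
  have h : ∀ a b c : ℝ, MeasurableSet {l : ℂ | a < l.re ∧ l.re < b ∧ |l.im| < c} := fun a b c =>
    IsOpen.measurableSet ((isOpen_lt continuous_const continuous_re).inter
      ((isOpen_lt continuous_re continuous_const).inter
        (isOpen_lt continuous_im.abs continuous_const)))
  rcases i with i | j
  · fin_cases i
    exacts [measurableSet_ball, measurableSet_ball, measurableSet_ball, h _ _ _, h _ _ _]
  · exact measurableSet_ball

lemma vol_Tset {m : ℕ} (hm : 0 < m) (k : Wd m) : MeasurableSet (Tset m k) ∧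
    volume (Tset m k) = volume (univ.pi (vol_B m)) := by
  have h2 := vol_shear (fun i : J => i ≠ jz)
    (φ := fun x => pt 0 (cmp m k (x js) (x jw) (x jl) (x jo) fun j => x (jv j)) 0 0 0 0)
    (vol_pt measurable_const (vol_cmp m k) measurable_const measurable_const measurable_const
      fun _ => measurable_const)
    (fun x i hi => by
      rcases i with i | j
      · fin_cases i <;> simp_all [pt]
      · rfl)
    (fun x y h => by
      rw [h js (by decide), h jw (by decide), h jl (by decide), h jo (by decide),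
        show (fun j => x (jv j)) = fun j => y (jv j) from funext fun j => h _ (by simp)])
  have h1 := vol_shear (fun i : J => i = js ∨ i = jz ∨ i = jl ∨ i = jo)
    (φ := fun x => pt 0 0 (x js * GG1 m k (x js) (x jo)) 0 0
      fun j => x js ^ 3 * AA2 m k j (x js) (x jo))
    (vol_pt measurable_const measurable_const ((measurable_pi_apply _).mul (vol_GG1 m k))
      measurable_const measurable_const
      fun j => ((measurable_pi_apply _).pow_const 3).mul (vol_AA2 m k j))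
    (fun x i hi => by rcases hi with rfl | rfl | rfl | rfl <;> simp [pt])
    (fun x y h => by rw [h js (by simp), h jo (by simp)])
  have h3 := h1.comp h2
  have hB : MeasurableSet (univ.pi (vol_B m)) := MeasurableSet.univ_pi (vol_B_meas m)
  have hm3 : (0 : ℝ) < (m : ℝ) ^ 3 := by positivity
  refine (fun e : Tset m k = _ => e ▸ ⟨h3.measurable hB, h3.measure_preimage hB.nullMeasurableSet⟩) ?_
  ext x
  have e1 : 0 < XX m x ↔ lc m < (x jl).re := by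
    rw [XX, Xr, mul_pos_iff_of_pos_right hm3, sub_pos]
  have e2 : XX m x < 1 ↔ (x jl).re < lc m + 1 / m ^ 3 := by
    rw [XX, Xr, ← lt_div_iff₀ hm3, sub_lt_iff_lt_add']
  have e3 : 10 * kk m < TT m x ↔ 10 * kk m / m ^ 3 < (x jo).re := by
    rw [TT, Tr, div_lt_iff₀ hm3]
  have e4 : TT m x < 10 * kk m + 1 ↔ (x jo).re < 10 * kk m / m ^ 3 + 1 / m ^ 3 := by
    rw [TT, Tr, ← add_div, lt_div_iff₀ hm3]
  simp only [Tset, mem_ofPred_eq, e1, e2, e3, e4, mem_preimage, mem_univ_pi, Sum.forall,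
    Fin.forall_fin_succ, ww, zw]
  simp only [one_div, vol_B, Fin.isValue, Sum.elim_inl, Matrix.cons_val_zero, pt, Function.comp_apply, Pi.add_apply, add_zero, Matrix.cons_val, mem_ball, dist_zero_right, Fin.succ_zero_eq_one, Matrix.cons_val_one, Fin.succ_one_eq_two, Fin.reduceSucc, mem_ofPred_eq, Matrix.cons_val_succ, Matrix.cons_val_fin_one, IsEmpty.forall_iff, and_true, Sum.elim_inr, Pi.zero_apply]
  tauto

lemma vol_B_ge (m : ℕ) : ENNReal.ofReal (mu m ^ 50 / m ^ 6 / 100 ^ 1400) ≤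
    volume (univ.pi (vol_B m)) := by
  have hμ := (mu_pos m).le
  have h1 : mu m ^ 50 / m ^ 6 / 100 ^ 1400 = ((1 / 2) ^ 2 * (mu m ^ 14) ^ 2 * (mu m ^ 4) ^ 2 *
      (1 / m ^ 3 * (2 * mu m ^ 7)) * (1 / m ^ 3 * (2 * mu m ^ 7))) * ((1 / 10) ^ 2) ^ 1400 := by
    rw [show ((1 / 10 : ℝ) ^ 2) = 100⁻¹ by norm_num, inv_pow, div_eq_mul_inv _ ((100 : ℝ) ^ 1400)]
    congr 1
    ring
  rw [volume_pi_pi, Fintype.prod_sum_type, Fin.prod_univ_five, h1,
    ENNReal.ofReal_mul (by positivity), ENNReal.ofReal_mul (by positivity),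
    ENNReal.ofReal_mul (by positivity), ENNReal.ofReal_mul (by positivity),
    ENNReal.ofReal_mul (by positivity), ENNReal.ofReal_mul (by positivity),
    ENNReal.ofReal_pow (p := (1 / 10) ^ 2) (by positivity)]
  have h2 : ∏ j : AX, volume (vol_B m (Sum.inr j)) = volume (ball (0 : ℂ) (1 / 10)) ^ 1400 := by
    have : Fintype.card AX = 1400 := by
      rw [Fintype.card_prod, Fintype.card_bool, Fintype.card_fin, dd]
    rw [← this, ← Finset.card_univ, ← Finset.prod_const]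
    rfl
  rw [h2]
  refine mul_le_mul' (mul_le_mul' (mul_le_mul' (mul_le_mul' (mul_le_mul' (vol_ball _ (by norm_num))
    (vol_ball _ (by positivity))) (vol_ball _ (by positivity))) (le_of_eq ?_)) (le_of_eq ?_))
    (pow_le_pow_left' (vol_ball _ (by norm_num)) _)
  · exact ((vol_rect _ _ _).trans (by rw [add_sub_cancel_left])).symm
  · exact ((vol_rect _ _ _).trans (by rw [add_sub_cancel_left])).symm

theorem tset_vol (C : ℕ) : ∀ᶠ m : ℕ in atTop, (∀ k, MeasurableSet (Tset m k)) ∧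
    (C : ENNReal) ≤ ∑ k : Wd m, volume (Tset m k) := by
  filter_upwards [ev_poly_exp (C * 100 ^ 1400) 6 (show (0 : ℝ) < 35 by norm_num),
    eventually_gt_atTop 0] with m h hm
  refine ⟨fun k => (vol_Tset hm k).1, ?_⟩
  have h1 : (C : ℝ) ≤ 2 ^ kk m * (mu m ^ 50 / m ^ 6 / 100 ^ 1400) := by
    have h2 : Real.exp (485 * m) ≤ 2 ^ kk m := by
      rw [← Real.exp_log (show (0 : ℝ) < 2 by norm_num), ← Real.exp_nat_mul, Real.exp_le_exp, kk, dd]
      push_cast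
      nlinarith only [Real.log_two_gt_d9]
    have h3 : Real.exp (485 * m) * mu m ^ 50 = (Real.exp (-35 * m))⁻¹ := by
      rw [mu, ← Real.exp_nat_mul, ← Real.exp_add, ← Real.exp_neg]
      congr 1
      push_cast
      ring
    have h4 : (0 : ℝ) < 100 ^ 1400 := by positivity
    generalize (100 : ℝ) ^ 1400 = A at *
    have h5 := Real.exp_pos (-35 * m)
    have h6 : (0 : ℝ) < (m : ℝ) ^ 6 := by positivity
    calc (C : ℝ) ≤ (Real.exp (-35 * m))⁻¹ / m ^ 6 / A := by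
          rw [le_div_iff₀ h4, le_div_iff₀ h6, ← one_div, le_div_iff₀ h5]
          exact h
      _ = Real.exp (485 * m) * (mu m ^ 50 / m ^ 6 / A) := by rw [← h3]; ring
      _ ≤ _ := mul_le_mul_of_nonneg_right h2 (by have := (mu_pos m).le; positivity)
  calc (C : ENNReal) = ENNReal.ofReal C := (ENNReal.ofReal_natCast C).symm
    _ ≤ ENNReal.ofReal (2 ^ kk m * (mu m ^ 50 / m ^ 6 / 100 ^ 1400)) := ENNReal.ofReal_le_ofReal h1
    _ = ∑ _k : Wd m, ENNReal.ofReal (mu m ^ 50 / m ^ 6 / 100 ^ 1400) := by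
      rw [ENNReal.ofReal_mul (by positivity), Finset.sum_const, Finset.card_univ, nsmul_eq_mul,
        Fintype.card_fun, Fintype.card_bool, Fintype.card_fin, ENNReal.ofReal_pow (by norm_num)]
      simp
    _ ≤ _ := Finset.sum_le_sum fun k _ => (vol_Tset hm k).2 ▸ vol_B_ge m

end Pool.Agent.MP_bea40e_an.Iv

end
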