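import Pool.Agent.MP_bea40e_an.Mg.InfD

attribute [-instance] AddQuantale.instAddLeftMono IdemSemiring.toCanonicallyOrderedAdd
  IdemSemiring.toMulLeftMono IsOrderedMonoid.toMulLeftMono NumberField.to_charZero
  Quantale.instMulLeftMono AddQuantale.instAddRightMono
  LinearOrderedCommMonoidWithZero.toPosMulStrictMono Quantale.instMulRightMono RKHS.instFunLike
  covariant_swap_mul_of_covariant_mul CanonicallyOrderedAdd.toMulLeftMono instCoeTOfCoeDep
  MonTypeEquivalenceMon.monMonoid instCoeTCOfCoe continuousSub_of_discreteTopology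
  LieAdmissibleAlgebra.toModule CanonicallyOrderedMul.toMulLeftMono Valued.toUniformSpace
  RightPreLieAlgebra.toModule LeftPreLieAlgebra.toModule

section

open Filter Topology Set Metric Complex
open scoped ContDiff ComplexConjugate

namespace Pool.Agent.MP_bea40e_an.Iv

/-! The kernels at the nodes. -/

theorem ker2_sn (b : Bool) : ‖(sn b : ℂ)‖ = 1 := by
  cases b <;> simp [sn]

theorem ker2_kk (m : ℕ) : (kk m : ℝ) = 700 * m := by
  simp [kk, dd]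

theorem ker2_th (m : ℕ) (l : Fin (kk m)) :
    0 ≤ ((l : ℕ) : ℝ) / (10 * kk m) ∧ ((l : ℕ) : ℝ) / (10 * kk m) ≤ 1 / 10 := by
  have h : ((l : ℕ) : ℝ) < kk m := by exact_mod_cast l.2
  have h0 : (0 : ℝ) < kk m := (Nat.cast_nonneg _).trans_lt h
  exact ⟨by positivity, by rw [div_le_div_iff₀ (by positivity) (by norm_num)]; linarith⟩

theorem ze_norm (m : ℕ) (ν : Nd m) : ‖ze m ν‖ = 1 := by
  rw [ze, norm_mul, ker2_sn, norm_exp_ofReal_mul_I, mul_one]

theorem ker2_near (m : ℕ) (ν : Nd m) : ‖ze m ν - sn ν.2‖ ≤ 1 / 10 := by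
  rw [ze, ← mul_sub_one, norm_mul, ker2_sn, one_mul, mul_comm]
  refine Real.norm_exp_I_mul_ofReal_sub_one_le.trans ?_
  rw [Real.norm_of_nonneg (ker2_th m ν.1).1]
  exact (ker2_th m ν.1).2

theorem ze_far (m : ℕ) {ν ν' : Nd m} (h : ν ≠ ν') : 1 / (20 * (kk m : ℝ)) ≤ ‖ze m ν - ze m ν'‖ := by
  have hk : (1 : ℝ) ≤ kk m := by exact_mod_cast ν.1.pos
  by_cases hb : ν.2 = ν'.2
  · have hl : (ν.1 : ℕ) ≠ ν'.1 := fun e => h (Prod.ext (Fin.ext e) hb)
    have h1 : (1 : ℝ) ≤ |((ν.1 : ℕ) : ℝ) - (ν'.1 : ℕ)| := by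
      have : (1 : ℤ) ≤ |((ν.1 : ℕ) : ℤ) - (ν'.1 : ℕ)| := Int.one_le_abs (by omega)
      exact_mod_cast this
    have h2 := ker2_th m ν.1
    have h3 := ker2_th m ν'.1
    have h4 : 1 / (10 * kk m : ℝ) ≤
        |((ν.1 : ℕ) : ℝ) / (10 * kk m) - ((ν'.1 : ℕ) : ℝ) / (10 * kk m)| := by
      rw [← sub_div, abs_div, abs_of_pos (by positivity : (0 : ℝ) < 10 * kk m)]
      gcongr
    rw [ze, ze, hb, ← mul_sub, norm_mul, ker2_sn, one_mul]
    generalize ((ν.1 : ℕ) : ℝ) / (10 * kk m) = a at *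
    generalize ((ν'.1 : ℕ) : ℝ) / (10 * kk m) = b at *
    have e : cexp (a * I) - cexp (b * I) = cexp (b * I) * (cexp (I * ((a - b : ℝ) : ℂ)) - 1) := by
      rw [mul_sub_one, ← Complex.exp_add]
      congr 2
      push_cast
      ring
    have h5 : |(a - b) / 2| ≤ Real.pi / 2 := by
      rw [abs_le]; constructor <;> linarith only [Real.pi_gt_three, h2, h3]
    have h6 := Real.mul_abs_le_abs_sin h5
    have h7 : 1 / 2 ≤ 2 / Real.pi := by
      rw [div_le_div_iff₀ (by norm_num) Real.pi_pos]; linarith only [Real.pi_le_four]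
    rw [e, norm_mul, norm_exp_ofReal_mul_I, one_mul, Complex.norm_exp_I_mul_ofReal_sub_one,
      norm_mul, Real.norm_eq_abs, Real.norm_eq_abs, abs_two]
    rw [abs_div, abs_two] at h6
    calc _ = 2 * (1 / 2 * (1 / (10 * kk m : ℝ) / 2)) := by field_simp; norm_num
      _ ≤ 2 * (2 / Real.pi * (|a - b| / 2)) := by gcongr
      _ ≤ _ := by gcongr
  · have h1 := ker2_near m ν
    have h2 := ker2_near m ν'
    have h3 : ‖(sn ν.2 : ℂ) - sn ν'.2‖ = 2 := by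
      revert hb
      cases ν.2 <;> cases ν'.2 <;> simp [sn] <;> norm_num
    have h4 := norm_sub_le_norm_sub_add_norm_sub (sn ν.2 : ℂ) (ze m ν) (sn ν'.2)
    have h5 := norm_sub_le_norm_sub_add_norm_sub (ze m ν) (ze m ν') (sn ν'.2)
    have h6 : 1 / (20 * (kk m : ℝ)) ≤ 1 := by
      rw [div_le_one (by positivity)]; linarith only [hk]
    rw [norm_sub_rev (sn ν.2 : ℂ) (ze m ν)] at h4
    linarith

theorem ze_near (m : ℕ) (ν : Nd m) : ‖ze m ν - sn ν.2‖ ≤ 1 / 10 := by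
  exact ker2_near m ν

theorem Gk_eq (m : ℕ) (ν : Nd m) (s : ℂ) : Gk m ν s = 1 / m ^ 16 * I * Bk m (s / ze m ν) := by
  simp only [Gk, G1, Bk]
  ring

theorem Ak_eq (m : ℕ) (ν : Nd m) (s : ℂ) :
    Ak m ν s = 1 / m ^ 30 * (1 / 16 ^ dig m ν) * I * Bk m (s / ze m ν) ^ 2 := by
  simp only [Ak, A2, Bk]
  ring

theorem Sk_eq (m : ℕ) (ν : Nd m) (s : ℂ) : Sk m ν s = S0 m + s * S1 m ν s := by
  have h := sub_smul_dslope (Sk m ν) 0 s
  have h0 : Sk m ν 0 = S0 m := by simp [Sk, Ek_zero]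
  rw [sub_zero, smul_eq_mul, h0] at h
  rw [S1, h]
  ring

theorem ker2_nd (m : ℕ) (ν : Nd m) (s : ℂ) : ‖s / ze m ν‖ = ‖s‖ := by
  rw [norm_div, ze_norm, div_one]

theorem ker2_ns (m : ℕ) (ν : Nd m) (s : ℂ) : ‖s / ze m ν - 1‖ = ‖s - ze m ν‖ := by
  have h : ze m ν ≠ 0 := norm_ne_zero_iff.1 (by rw [ze_norm]; norm_num)
  rw [div_sub_one h, ker2_nd]

theorem ker2_e2 (m : ℕ) : 0 ≤ e2 m := by unfold e2; positivity

theorem ker2_ep (m : ℕ) : 0 ≤ ep m := by unfold ep; positivity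

theorem ker2_ge (C : ℝ) : ∀ᶠ m : ℕ in atTop, C ≤ m :=
  tendsto_natCast_atTop_atTop.eventually_ge_atTop C

theorem ker2_inv {m : ℝ} (hm : 100 ≤ m) {k : ℕ} (hk : k ≠ 0) : 1 / m ^ k ≤ 1 / 100 :=
  one_div_le_one_div_of_le (by norm_num) (hm.trans (le_self_pow₀ (by linarith) hk))

theorem ker_an : ∀ᶠ m : ℕ in atTop, ∀ (ν : Nd m) (s : ℂ), ‖s‖ ≤ 1 + 2 * e2 m →
    AnalyticAt ℂ (G1 m ν) s ∧ AnalyticAt ℂ (A2 m ν) s ∧ AnalyticAt ℂ (Sk m ν) s ∧
      AnalyticAt ℂ (S1 m ν) s := by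
  filter_upwards [K1] with m h ν s hs
  have hd : ∀ t : ℂ, AnalyticAt ℂ (fun s => s / ze m ν) t := fun t => analyticAt_id.div_const
  have hE : ∀ t : ℂ, ‖t‖ ≤ 1 + 2 * e2 m → AnalyticAt ℂ (fun s => Ek m (s / ze m ν)) t :=
    fun t ht => (h _ ((ker2_nd m ν t).trans_le ht)).1.comp_of_eq (hd t) rfl
  have hS : ∀ t : ℂ, ‖t‖ ≤ 1 + 2 * e2 m → AnalyticAt ℂ (Sk m ν) t := fun t ht =>
    (analyticAt_const.add (hd t)).mul (hE t ht)
  refine ⟨(analyticAt_const.mul ((hE s hs).pow 2)).div_const,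
    (analyticAt_const.mul ((hE s hs).pow 4)).div_const, hS s hs, ?_⟩
  have ho := isOpen_analyticAt ℂ (Sk m ν)
  refine DifferentiableOn.analyticAt ((Complex.differentiableOn_dslope (ho.mem_nhds
    (hS 0 (by simpa only [norm_zero] using by linarith [ker2_e2 m])))).2 fun t ht => ?_) (ho.mem_nhds (hS s hs))
  exact (show AnalyticAt ℂ (Sk m ν) t from ht).differentiableAt.differentiableWithinAt

theorem ker2_sum {m : ℕ} {f : Nd m → ℝ} {b : ℝ} (h : ∀ ν, f ν ≤ b) : ∑ ν, f ν ≤ 1400 * m * b := by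
  refine (Finset.sum_le_card_nsmul _ _ b fun ν _ => h ν).trans_eq ?_
  simp only [Finset.card_univ, Fintype.card_prod, Fintype.card_fin, Fintype.card_bool,
    nsmul_eq_mul]
  push_cast
  rw [ker2_kk]
  ring

theorem ker2_dig (m : ℕ) (ν : Nd m) : (1 : ℝ) / 16 ^ dig m ν ≤ 1 := by
  rw [div_le_one (by positivity)]
  exact one_le_pow₀ (by norm_num)

/-- for `S1` use the quotient if `1 / 2 ≤ ‖s‖` and the maximum principle otherwise -/
theorem ker_bd : ∀ᶠ m : ℕ in atTop, ∀ s : ℂ, ‖s‖ ≤ 1 + 2 * e2 m →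
    ∑ ν, ‖G1 m ν s‖ ≤ 1 / 100 ∧ ∑ ν, ‖A2 m ν s‖ ≤ 1 / 100 ∧ ∑ ν, ‖Gk m ν s‖ ≤ 1 / 50 ∧
      ∑ ν, ‖Ak m ν s‖ ≤ 1 / 50 ∧ ∀ ν, ‖Sk m ν s‖ ≤ m ^ 8 ∧ ‖S1 m ν s‖ ≤ m ^ 8 := by
  filter_upwards [K1, ker_an, S0_mem, ker2_ge (10 ^ 9)] with m h han h0 hm s hs
  have m0 : (0 : ℝ) < m := by linarith only [hm]
  have he : e2 m ≤ 1 / 100 := ker2_inv (by linarith only [hm]) (by norm_num)
  have hE : ∀ ν (t : ℂ), ‖t‖ ≤ 1 + 2 * e2 m → ‖Ek m (t / ze m ν)‖ ≤ 6 * m ^ 7 :=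
    fun ν t ht => (h _ ((ker2_nd m ν t).trans_le ht)).2.1
  have h1 : ∑ ν, ‖G1 m ν s‖ ≤ 1 / 100 := by
    refine (ker2_sum (b := 1 / m ^ 16 * (6 * m ^ 7) ^ 2) fun ν => ?_).trans ?_
    · simp only [G1, norm_div, norm_mul, norm_pow, ze_norm, norm_one, norm_I, Complex.norm_natCast,
        mul_one, div_one]
      gcongr
      exact hE ν s hs
    · calc _ = 50400 / (m : ℝ) := by field_simp; norm_num
        _ ≤ _ := by rw [div_le_div_iff₀ m0 (by norm_num)]; linarith only [hm]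
  have h2 : ∑ ν, ‖A2 m ν s‖ ≤ 1 / 100 := by
    refine (ker2_sum (b := 1 / m ^ 30 * 1 * (6 * m ^ 7) ^ 4) fun ν => ?_).trans ?_
    · simp only [A2, norm_div, norm_mul, norm_pow, ze_norm, norm_one, norm_I, Complex.norm_natCast,
        one_pow, div_one, Complex.norm_ofNat]
      rw [mul_one]
      gcongr
      exacts [ker2_dig m ν, hE ν s hs]
    · calc _ = 1814400 / (m : ℝ) := by field_simp; norm_num
        _ ≤ _ := by rw [div_le_div_iff₀ m0 (by norm_num)]; linarith only [hm]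
  have hS : ∀ ν (t : ℂ), ‖t‖ ≤ 1 + 2 * e2 m → ‖Sk m ν t‖ ≤ 18 * m ^ 7 := fun ν t ht => by
    have := norm_add_le 1 (t / ze m ν)
    rw [ker2_nd, norm_one] at this
    rw [Sk, norm_mul]
    calc _ ≤ 3 * (6 * (m : ℝ) ^ 7) :=
          mul_le_mul (by linarith only [he, ht, this]) (hE ν t ht) (norm_nonneg _) (by norm_num)
      _ = _ := by ring
  have h7 : 36 * (m : ℝ) ^ 7 ≤ m ^ 8 := by
    rw [pow_succ' (m : ℝ) 7]; gcongr; linarith only [hm]
  have hz : ‖(0 : ℂ)‖ ≤ 1 + 2 * e2 m := by simpa only [norm_zero] using by linarith only [ker2_e2 m]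
  have hD : ∀ ν (t : ℂ), ‖t‖ ≤ 1 + 2 * e2 m → ‖Sk m ν t - Sk m ν 0‖ ≤ m ^ 8 := fun ν t ht => by
    linarith only [norm_sub_le (Sk m ν t) (Sk m ν 0), hS ν t ht, hS ν 0 hz, h7]
  refine ⟨h1, h2, ?_, ?_, fun ν => ⟨by linarith only [hS ν s hs, pow_pos m0 7, h7], ?_⟩⟩
  · simp only [Gk, norm_mul, ← Finset.mul_sum]
    calc _ ≤ 2 * (1 / 100 : ℝ) := mul_le_mul (by linarith only [hs, he]) h1 (by positivity) (by norm_num)
      _ = _ := by norm_num
  · simp only [Ak, norm_mul, norm_pow, ← Finset.mul_sum]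
    calc _ ≤ 2 * (1 / 100 : ℝ) :=
          mul_le_mul (by nlinarith only [norm_nonneg s, hs, he]) h2 (by positivity) (by norm_num)
      _ = _ := by norm_num
  · have hb : ∀ t ∈ ball (0 : ℂ) 1, ‖t‖ ≤ 1 + 2 * e2 m := fun t ht => by
      linarith only [mem_ball_zero_iff.1 ht, ker2_e2 m]
    rcases lt_or_ge ‖s‖ 1 with h1 | h1
    · simpa only [S1, ge_iff_le, div_one] using Complex.norm_dslope_le_div_of_mapsTo_ball (c := 0) (R₁ := 1) (R₂ := m ^ 8)
        (fun t ht => (han ν t (hb t ht)).2.2.1.differentiableAt.differentiableWithinAt)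
        (fun t ht => mem_closedBall_iff_norm.2 (hD ν t (hb t ht))) (mem_ball_zero_iff.2 h1)
    · have e := sub_smul_dslope (Sk m ν) 0 s
      have := hD ν s hs
      rw [← e, sub_zero, norm_smul] at this
      exact (le_mul_of_one_le_left (norm_nonneg _) h1).trans this

theorem cut_nonneg (m : ℕ) (ν : Nd m) (s : ℂ) : 0 ≤ cut m ν s := by
  exact mul_nonneg (mul_nonneg (st_nonneg _ _ _) (sub_nonneg.2 (st_le_one _ _ _)))
    (sub_nonneg.2 (st_le_one _ _ _))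

theorem cut_le_one (m : ℕ) (ν : Nd m) (s : ℂ) : cut m ν s ≤ 1 := by
  exact mul_le_one₀ (mul_le_one₀ (st_le_one _ _ _) (sub_nonneg.2 (st_le_one _ _ _))
    (sub_le_self _ (st_nonneg _ _ _))) (sub_nonneg.2 (st_le_one _ _ _))
    (sub_le_self _ (st_nonneg _ _ _))

theorem cut_off {m : ℕ} (hm : 0 < m) (ν : Nd m) {s : ℂ} (h : s ∉ Sn m ν) :
    cut m ν =ᶠ[𝓝 s] fun _ => 0 := by
  have h1 : 0 < e2 m := by unfold e2; positivity
  have h2 : 0 < ep m := by unfold ep; positivity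
  have hc : IsClosed (Sn m ν) := IsClosed.and (isClosed_le (by fun_prop) continuous_const)
    (isClosed_le (by fun_prop) continuous_const)
  filter_upwards [hc.isOpen_compl.mem_nhds h] with t ht
  rcases not_and_or.1 ht with ht | ht
  · rcases lt_abs.1 (not_le.1 ht) with ht | ht
    · rw [cut, st_one (a := e2 m / 2) (by linarith only [h1]) ht.le]
      simp
    · rw [cut, st_zero (a := -e2 m) (by linarith only [h1]) (by linarith)]
      simp
  · rw [cut, st_one (a := 9 * ep m ^ 2) (by nlinarith only [h2]) (by nlinarith only [h2, ht])]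
    simp

theorem Sn_norm {m : ℕ} {ν : Nd m} {s : ℂ} (h : s ∈ Sn m ν) : ‖s‖ ≤ 1 + e2 m := by
  have h1 := (abs_le.1 h.1).2
  have h2 := ker2_e2 m
  exact (abs_le_of_sq_le_sq' (by nlinarith only [h1, h2]) (by linarith)).2

theorem ker2_gap {m : ℕ} (hm : (100 : ℝ) ≤ m) : 10 * ep m ≤ 1 / (20 * (kk m : ℝ)) := by
  have h : (100 : ℝ) ^ 4 ≤ m ^ 4 := by gcongr
  rw [ep, ker2_kk, mul_one_div, div_le_div_iff₀ (by positivity) (by positivity), pow_succ]
  nlinarith only [h]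

theorem Sn_disj : ∀ᶠ m : ℕ in atTop, ∀ (ν ν' : Nd m) (s : ℂ), s ∈ Sn m ν → s ∈ Sn m ν' →
    ν = ν' := by
  filter_upwards [ker2_ge 100] with m hm ν ν' s h h'
  by_contra hn
  have h1 := ze_far m hn
  have h2 := norm_sub_le_norm_sub_add_norm_sub (ze m ν) s (ze m ν')
  have m0 : (0 : ℝ) < m := by linarith only [hm]
  have h3 : 0 < ep m := by unfold ep; positivity
  rw [norm_sub_rev (ze m ν) s] at h2
  linarith [ker2_gap hm, h.2, h'.2]

theorem ker2_re (c : ℝ) (B : ℂ) : (c * I * B).re = -(c * B.im) := by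
  simp

theorem ker2_im (c : ℝ) (B : ℂ) : (c * I * B).im = c * B.re := by
  simp

theorem ker2_Gk (m : ℕ) (ν : Nd m) (s : ℂ) :
    Gk m ν s = ((1 / m ^ 16 : ℝ) : ℂ) * I * Bk m (s / ze m ν) := by
  rw [Gk_eq]; push_cast; rfl

theorem ker2_Ak (m : ℕ) (ν : Nd m) (s : ℂ) :
    Ak m ν s = ((1 / m ^ 30 * (1 / 16 ^ dig m ν) : ℝ) : ℂ) * I * Bk m (s / ze m ν) ^ 2 := by
  rw [Ak_eq]; push_cast; rfl

/-- where the cut-off is not one, either `e2 / 2 < |q - 1|` or `K2` applies -/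
theorem ker_re : ∀ᶠ m : ℕ in atTop, ∀ (ν : Nd m) (s : ℂ), ‖s‖ ≤ 1 + 2 * e2 m →
    (1 - cut m ν s) * |(Gk m ν s).re| ≤ m ^ 14 * (|‖s‖ ^ 2 - 1| + tl m) ∧
    (1 - cut m ν s) * |(Ak m ν s).re| ≤ m ^ 14 * (|‖s‖ ^ 2 - 1| + tl m) ∧
    (1 - cut m ν s) * |(Sk m ν s).re| ≤ m ^ 22 * (|‖s‖ ^ 2 - 1| + tl m) := by
  filter_upwards [K2, ker_bd, ker2_ge 2] with m h hb hm ν s hs
  have m1 : (1 : ℝ) ≤ m := by linarith
  have ht := tl_pos m
  have hc : ∀ {x y : ℝ}, |x| ≤ y → (1 - cut m ν s) * |x| ≤ y := fun h =>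
    (mul_le_of_le_one_left (abs_nonneg _) (sub_le_self _ (cut_nonneg m ν s))).trans h
  by_cases h1 : 3 * ep m ≤ ‖s - ze m ν‖
  · obtain ⟨k1, k2, k3, -⟩ := h _ ((ker2_nd m ν s).trans_le hs) (h1.trans_eq (ker2_ns m ν s).symm)
    rw [ker2_nd] at k1 k2 k3
    refine ⟨hc ?_, hc ?_, hc (k3.trans (by gcongr; norm_num))⟩
    · rw [ker2_Gk, ker2_re, abs_neg, abs_mul, abs_of_pos (by positivity)]
      calc _ ≤ 1 / (m : ℝ) ^ 16 * (m ^ 21 * (|‖s‖ ^ 2 - 1| + tl m)) := by gcongr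
        _ = m ^ 5 * (|‖s‖ ^ 2 - 1| + tl m) := by field_simp
        _ ≤ _ := by gcongr; norm_num
    · rw [ker2_Ak, ker2_re, abs_neg, abs_mul, abs_of_pos (by positivity)]
      calc _ ≤ 1 / (m : ℝ) ^ 30 * 1 * (m ^ 32 * (|‖s‖ ^ 2 - 1| + tl m)) := by
            gcongr; exact ker2_dig m ν
        _ = m ^ 2 * (|‖s‖ ^ 2 - 1| + tl m) := by field_simp
        _ ≤ _ := by gcongr; norm_num
  have h2 : 0 < e2 m := by unfold e2; positivity
  have h3 : 0 < ep m := by unfold ep; positivity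
  by_cases h4 : |‖s‖ ^ 2 - 1| ≤ e2 m / 2
  · have : cut m ν s = 1 := by
      rw [cut, st_one (by linarith only [h2]) (by linarith only [(abs_le.1 h4).1]),
        st_zero (by linarith only [h2]) (abs_le.1 h4).2,
        st_zero (by nlinarith only [h3]) (by nlinarith only [norm_nonneg (s - ze m ν), h1])]
      norm_num
    rw [this, sub_self, zero_mul, zero_mul, zero_mul]
    exact ⟨by positivity, by positivity, by positivity⟩
  obtain ⟨-, -, b1, b2, b3⟩ := hb s hs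
  have h5 : 1 ≤ (m : ℝ) ^ 14 * (|‖s‖ ^ 2 - 1| + tl m) :=
    calc (1 : ℝ) ≤ m / 2 := by linarith only [hm]
      _ = m ^ 14 * (e2 m / 2) := by rw [e2]; field_simp
      _ ≤ _ := by gcongr; linarith only [ht, h4]
  refine ⟨hc ?_, hc ?_, hc ?_⟩
  · linarith only [abs_re_le_norm (Gk m ν s), Finset.single_le_sum (f := fun ν => ‖Gk m ν s‖)
      (fun _ _ => norm_nonneg _) (Finset.mem_univ ν), b1, h5]
  · linarith only [abs_re_le_norm (Ak m ν s), Finset.single_le_sum (f := fun ν => ‖Ak m ν s‖)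
      (fun _ _ => norm_nonneg _) (Finset.mem_univ ν), b2, h5]
  · calc _ ≤ (m : ℝ) ^ 8 * 1 := by linarith only [abs_re_le_norm (Sk m ν s), (b3 ν).1]
      _ ≤ m ^ 8 * (m ^ 14 * (|‖s‖ ^ 2 - 1| + tl m)) := by gcongr
      _ = _ := by ring

theorem ker2_nG (m : ℕ) (ν : Nd m) (s : ℂ) : ‖Gk m ν s‖ = 1 / m ^ 16 * ‖Bk m (s / ze m ν)‖ := by
  simp only [Gk_eq, one_div, Complex.norm_mul, norm_inv, norm_pow, RCLike.norm_natCast, norm_I, mul_one]

theorem Gk_low : ∀ᶠ m : ℕ in atTop, ∀ (ν : Nd m) (s : ℂ), ‖s‖ ≤ 1 + 2 * e2 m →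
    ‖s - ze m ν‖ ≤ 5 * ep m → 1 / (m : ℝ) ^ 11 ≤ ‖Gk m ν s‖ := by
  filter_upwards [K3, ker2_ge 20000] with m h hm ν s hs h1
  have m0 : (0 : ℝ) < m := by linarith
  have h2 := h _ ((ker2_nd m ν s).trans_le hs) ((ker2_ns m ν s).trans_le h1)
  have h3 : ep m ≤ 1 / 100 := ker2_inv (by linarith only [hm]) (by norm_num)
  have h4 := norm_sub_norm_le (ze m ν) s
  rw [ze_norm, norm_sub_rev] at h4
  rw [ker2_nG, Bk, norm_mul, norm_pow, ker2_nd]
  calc _ ≤ 1 / (20000 * (m : ℝ) ^ 10) := by rw [pow_succ' (m : ℝ) 10]; gcongr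
    _ = 1 / (m : ℝ) ^ 16 * (1 / 2 * (m ^ 3 / 100) ^ 2) := by field_simp; norm_num
    _ ≤ _ := by gcongr; linarith only [h1, h3, h4]

theorem Gk_dom : ∀ᶠ m : ℕ in atTop, ∀ (ν : Nd m) (s : ℂ), s ∈ Sn m ν →
    1 / (m : ℝ) ^ 11 ≤ ‖Gk m ν s‖ ∧ ‖Gk m ν s‖ ≤ 1 ∧
      ∑ ν' ∈ Finset.univ.erase ν, ‖Gk m ν' s‖ ≤ ‖Gk m ν s‖ / 100 := by
  filter_upwards [K2, ker_bd, Gk_low, ker2_ge (10 ^ 8)] with m h hb hl hm ν s hs
  have m0 : (0 : ℝ) < m := by linarith
  have h1 : ‖s‖ ≤ 1 + 2 * e2 m := by linarith [Sn_norm hs, ker2_e2 m]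
  have h2 := hl ν s h1 (by linarith [hs.2, ker2_ep m])
  have h0 := Finset.single_le_sum (f := fun ν => ‖Gk m ν s‖) (fun _ _ => norm_nonneg _)
    (Finset.mem_univ ν)
  refine ⟨h2, by linarith only [(hb s h1).2.2.1, h0], ?_⟩
  have h3 : ∑ ν' ∈ Finset.univ.erase ν, ‖Gk m ν' s‖ ≤
      ∑ _ν' : Nd m, 1 / (m : ℝ) ^ 16 * (5 / (1 / (28000 * m)) ^ 2) := by
    refine le_trans (Finset.sum_le_sum fun ν' hν => ?_) (Finset.sum_le_sum_of_subset_of_nonneg
      (Finset.erase_subset ν _) fun _ _ _ => by positivity)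
    have h4 := ze_far m (Finset.ne_of_mem_erase hν)
    have h5 := norm_sub_le_norm_sub_add_norm_sub (ze m ν') s (ze m ν)
    have h6 := ker2_gap (m := m) (by linarith only [hm])
    have h7 : 1 / (20 * (kk m : ℝ)) = 2 * (1 / (28000 * m)) := by rw [ker2_kk]; field_simp; norm_num
    have h8 := hs.2
    have h9 := ker2_ep m
    rw [norm_sub_rev (ze m ν') s, ← ker2_ns m ν' s] at h5
    rw [ker2_nG]
    gcongr
    refine (h _ ((ker2_nd m ν' s).trans_le h1) (by linarith only [h4, h5, h6, h8, h9])).2.2.2.trans ?_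
    gcongr
    linarith
  refine h3.trans ((ker2_sum fun _ => le_rfl).trans (le_trans ?_ (div_le_div_of_nonneg_right h2
    (by norm_num))))
  calc _ = 1 / (m : ℝ) ^ 11 * (5488 * 10 ^ 9 / m ^ 2) := by field_simp; norm_num
    _ ≤ 1 / (m : ℝ) ^ 11 * (5488 * 10 ^ 9 / (10 ^ 8) ^ 2) := by gcongr
    _ ≤ 1 / (m : ℝ) ^ 11 * (1 / 100) := mul_le_mul_of_nonneg_left (by norm_num) (by positivity)
    _ = _ := by ring

/-- one of the two clusters of nodes is far from `s` -/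
theorem Ak_far : ∀ᶠ m : ℕ in atTop, ∀ s : ℂ, ‖s‖ ≤ 1 + 2 * e2 m → |‖s‖ ^ 2 - 1| ≤ 1 / 1000 →
    ∃ b : Bool, ∀ l : Fin (kk m),
      1 / (m : ℝ) ^ 30 * (1 / 16 ^ dig m (l, b)) * (1 / 17) ≤ (Ak m (l, b) s).im ∧
      ‖Ak m (l, b) s‖ ≤ 1 / (m : ℝ) ^ 30 * (1 / 16 ^ dig m (l, b)) * (2 / 5) := by
  filter_upwards [K4] with m h s hs hq
  obtain ⟨b, hb⟩ : ∃ b : Bool, 7 / 5 ≤ ‖s - sn b‖ := by
    have h1 := (abs_le.1 hq).1
    rw [Complex.sq_norm, normSq_apply] at h1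
    refine ⟨decide (s.re ≤ 0), (abs_le_of_sq_le_sq' ?_ (norm_nonneg _)).2⟩
    rw [Complex.sq_norm, normSq_apply]
    by_cases h2 : s.re ≤ 0 <;> simp only [sn, h2, decide_true, ↓ reduceIte, ofReal_one, sub_re, one_re, sub_im, one_im, sub_zero, decide_false, Bool.false_eq_true, ofReal_neg, sub_neg_eq_add, add_re, add_im, add_zero] <;> linarith only [h1, h2]
  refine ⟨b, fun l => ?_⟩
  have h1 := norm_sub_le_norm_sub_add_norm_sub s (ze m (l, b)) (sn b)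
  obtain ⟨k1, k2⟩ := h (s / ze m (l, b)) ((ker2_nd m _ s).trans_le hs) (by rwa [ker2_nd])
    (by rw [ker2_ns]; linarith [ze_near m (l, b)])
  rw [ker2_Ak, ker2_im, norm_mul, norm_mul, norm_I, mul_one, norm_pow, Complex.norm_real,
    Real.norm_of_nonneg (by positivity)]
  constructor <;> gcongr


end Pool.Agent.MP_bea40e_an.Iv

end

section

open Filter Topology Set Metric Complex
open scoped ContDiff ComplexConjugate

namespace Pool.Agent.MP_bea40e_an.Iv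

/-! Tameness of the kernels (`tame_hol`; a ball of radius `m ^ (-N)`, `13 ≤ N`, around a point of
`Sn` stays in `‖s‖ ≤ 1 + 2 e2`, `‖s - ze‖ ≤ 5 ep`). -/

theorem ker3_ball {m : ℕ} (hm : 1 ≤ m) {ν : Nd m} {s t : ℂ} (hs : s ∈ Sn m ν)
    (ht : t ∈ ball s ((m : ℝ) ^ 13)⁻¹) : ‖t‖ ≤ 1 + 2 * e2 m ∧ ‖t - ze m ν‖ ≤ 5 * ep m := by
  have h1 := Sn_norm hs
  have h2 : ‖s - ze m ν‖ ≤ 4 * ep m := hs.2
  have hm' : (1 : ℝ) ≤ m := by exact_mod_cast hm
  have h3 : ‖t - s‖ ≤ e2 m := by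
    have := mem_ball_iff_norm.1 ht
    unfold e2
    rw [one_div]
    exact this.le
  have h4 : e2 m ≤ ep m := by
    unfold e2 ep
    exact one_div_le_one_div_of_le (by positivity) (pow_le_pow_right₀ hm' (by norm_num))
  refine ⟨?_, ?_⟩
  · have : ‖t‖ ≤ ‖s‖ + ‖t - s‖ := by
      have := norm_add_le s (t - s)
      simpa only [ge_iff_le, add_sub_cancel] using this
    linarith only [h1, h3, this]
  · have : ‖t - ze m ν‖ ≤ ‖t - s‖ + ‖s - ze m ν‖ := norm_sub_le_norm_sub_add_norm_sub _ _ _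
    linarith only [h2, h3, h4, this]

theorem ker3_hol {f : (m : ℕ) → Nd m → ℂ → ℂ}
    (h : ∀ᶠ m : ℕ in atTop, ∀ (ν : Nd m) (s : ℂ), ‖s‖ ≤ 1 + 2 * e2 m → ‖s - ze m ν‖ ≤ 5 * ep m →
      DifferentiableAt ℂ (f m ν) s ∧ ‖f m ν s‖ ≤ (m : ℝ) ^ 13) :
    Tame (fun p : Σ m, Nd m => p.1) (fun p => Sn p.1 p.2) fun p => f p.1 p.2 := by
  obtain ⟨M, hM⟩ := eventually_atTop.1 h
  refine tame_hol (M := max M 1) (N := 13) ?_
  rintro ⟨m, ν⟩ hm x hx
  have h1 : M ≤ m := le_trans (le_max_left _ _) hm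
  have h2 : 1 ≤ m := le_trans (le_max_right _ _) hm
  refine ⟨fun t ht => ?_, fun t ht => ?_⟩
  · obtain ⟨a, b⟩ := ker3_ball h2 hx ht
    exact (hM m h1 ν t a b).1.differentiableWithinAt
  · obtain ⟨a, b⟩ := ker3_ball h2 hx ht
    exact (hM m h1 ν t a b).2

theorem ker3_Gk_diff {m : ℕ} {ν : Nd m} {s : ℂ} (h : AnalyticAt ℂ (G1 m ν) s) :
    DifferentiableAt ℂ (Gk m ν) s :=
  differentiableAt_id.mul h.differentiableAt

theorem ker3_id {ix : Type} (sz : ix → ℕ) :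
    Tame sz (fun _ => closedBall (0 : ℂ) 5) fun _ s => s := by
  refine tame_clm (fun _ => ContinuousLinearMap.id ℝ ℂ) (M := 5) (N := 1) ?_ ?_
  · intro i hi
    have : (5 : ℝ) ≤ sz i := by exact_mod_cast hi
    have h := ContinuousLinearMap.norm_id_le (𝕜 := ℝ) (E := ℂ)
    rw [pow_one]
    linarith only [this, h]
  · intro i hi x hx
    have : (5 : ℝ) ≤ sz i := by exact_mod_cast hi
    rw [pow_one]
    exact (mem_closedBall_zero_iff.1 hx).trans this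

theorem ker3_one {ix E : Type} [NormedAddCommGroup E] [NormedSpace ℝ E] (sz : ix → ℕ)
    (U : ix → Set E) : Tame sz U fun _ _ => (1 : ℝ) :=
  tame_const (c := fun _ => (1 : ℝ)) (M := 0) (N := 0) fun _ _ => by simp

theorem ker3_cube {E : Type} [NormedAddCommGroup E] [NormedSpace ℝ E]
    (U : ℕ → Set E) : Tame id U fun m _ => (m : ℝ) ^ 3 :=
  tame_const (c := fun m : ℕ => (m : ℝ) ^ 3) (M := 0) (N := 3) fun _ _ => by simp

theorem tame_Gk : Tame (fun p : Σ m, Nd m => p.1) (fun p => Sn p.1 p.2) fun p => Gk p.1 p.2 := by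
  apply ker3_hol
  filter_upwards [ker_an, ker_bd, eventually_ge_atTop 1] with m h1 h2 hm ν s hs _
  have hm' : (1 : ℝ) ≤ m := by exact_mod_cast hm
  refine ⟨ker3_Gk_diff (h1 ν s hs).1, ?_⟩
  have h3 : ‖Gk m ν s‖ ≤ ∑ ν, ‖Gk m ν s‖ :=
    Finset.single_le_sum (f := fun ν => ‖Gk m ν s‖) (fun _ _ => norm_nonneg _) (Finset.mem_univ ν)
  have h4 := (h2 s hs).2.2.1
  have h5 : (1 : ℝ) ≤ (m : ℝ) ^ 13 := one_le_pow₀ hm'
  linarith only [h3, h4, h5]

theorem tame_Ak : Tame (fun p : Σ m, Nd m => p.1) (fun p => Sn p.1 p.2) fun p => Ak p.1 p.2 := by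
  apply ker3_hol
  filter_upwards [ker_an, ker_bd, eventually_ge_atTop 1] with m h1 h2 hm ν s hs _
  have hm' : (1 : ℝ) ≤ m := by exact_mod_cast hm
  refine ⟨(differentiableAt_id.pow 2).mul (h1 ν s hs).2.1.differentiableAt, ?_⟩
  have h3 : ‖Ak m ν s‖ ≤ ∑ ν, ‖Ak m ν s‖ :=
    Finset.single_le_sum (f := fun ν => ‖Ak m ν s‖) (fun _ _ => norm_nonneg _) (Finset.mem_univ ν)
  have h4 := (h2 s hs).2.2.2.1
  have h5 : (1 : ℝ) ≤ (m : ℝ) ^ 13 := one_le_pow₀ hm'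
  linarith only [h3, h4, h5]

theorem tame_Sk : Tame (fun p : Σ m, Nd m => p.1) (fun p => Sn p.1 p.2) fun p => Sk p.1 p.2 := by
  apply ker3_hol
  filter_upwards [ker_an, ker_bd, eventually_ge_atTop 1] with m h1 h2 hm ν s hs _
  have hm' : (1 : ℝ) ≤ m := by exact_mod_cast hm
  refine ⟨(h1 ν s hs).2.2.1.differentiableAt, ?_⟩
  exact ((h2 s hs).2.2.2.2 ν).1.trans (pow_le_pow_right₀ hm' (by norm_num))

theorem tame_Ginv :
    Tame (fun p : Σ m, Nd m => p.1) (fun p => Sn p.1 p.2) fun p s => (Gk p.1 p.2 s)⁻¹ := by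
  apply ker3_hol (f := fun m ν s => (Gk m ν s)⁻¹)
  filter_upwards [ker_an, Gk_low, eventually_ge_atTop 1] with m h1 h2 hm ν s hs hz
  have hm' : (1 : ℝ) ≤ m := by exact_mod_cast hm
  have h3 := h2 ν s hs hz
  have h4 : (0 : ℝ) < 1 / (m : ℝ) ^ 11 := by positivity
  have h5 : 0 < ‖Gk m ν s‖ := lt_of_lt_of_le h4 h3
  refine ⟨(ker3_Gk_diff (h1 ν s hs).1).inv (norm_pos_iff.1 h5), ?_⟩
  rw [norm_inv]
  calc ‖Gk m ν s‖⁻¹ ≤ (1 / (m : ℝ) ^ 11)⁻¹ := inv_anti₀ h4 h3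
    _ = (m : ℝ) ^ 11 := by simp
    _ ≤ _ := pow_le_pow_right₀ hm' (by norm_num)

theorem tame_cut :
    Tame (fun p : Σ m, Nd m => p.1) (fun _ => closedBall (0 : ℂ) 5) fun p => cut p.1 p.2 := by
  have hq : Tame (fun p : Σ m, Nd m => p.1) (fun _ => closedBall (0 : ℂ) 5)
      fun _ s => ‖s‖ ^ 2 - 1 := (ker3_id _).normSq.sub (ker3_one _ _)
  have hz : Tame (fun p : Σ m, Nd m => p.1) (fun _ => closedBall (0 : ℂ) 5)
      fun p s => ‖s - ze p.1 p.2‖ ^ 2 :=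
    ((ker3_id _).sub (tame_const (c := fun p : Σ m, Nd m => ze p.1 p.2) (M := 0) (N := 0)
      fun p _ => by simp [ze_norm])).normSq
  have key : ∀ m : ℕ, 2 ≤ m → (0 < e2 m ∧ e2 m ≤ 1 ∧ (e2 m / 2)⁻¹ ≤ (m : ℝ) ^ 14) ∧
      (0 < ep m ∧ 9 * ep m ^ 2 ≤ (m : ℝ) ^ 14 ∧ (7 * ep m ^ 2)⁻¹ ≤ (m : ℝ) ^ 14) ∧
      (1 : ℝ) ≤ (m : ℝ) ^ 14 := by
    intro m hm
    have hm' : (2 : ℝ) ≤ m := by exact_mod_cast hm
    have h1 : (1 : ℝ) ≤ m := by linarith only [hm']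
    have h0 : (0 : ℝ) < m := by linarith only [hm']
    have h13 : (1 : ℝ) ≤ (m : ℝ) ^ 13 := one_le_pow₀ h1
    have h5 : (1 : ℝ) ≤ (m : ℝ) ^ 5 := one_le_pow₀ h1
    have h10 : (0 : ℝ) < (m : ℝ) ^ 10 := by positivity
    have h14 : (2 : ℝ) ^ 14 ≤ (m : ℝ) ^ 14 := pow_le_pow_left₀ (by norm_num) hm' 14
    have h1014 : (m : ℝ) ^ 10 ≤ (m : ℝ) ^ 14 := pow_le_pow_right₀ h1 (by norm_num)
    have hep : ep m ≤ 1 := by
      unfold ep
      rw [div_le_one (by positivity)]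
      exact h5
    have hep0 : 0 < ep m := by
      unfold ep
      positivity
    refine ⟨⟨?_, ?_, ?_⟩, ⟨hep0, ?_, ?_⟩, by linarith [show (1 : ℝ) ≤ 2 ^ 14 by norm_num]⟩
    · unfold e2
      positivity
    · unfold e2
      rw [div_le_one (by positivity)]
      exact h13
    · have : (e2 m / 2)⁻¹ = 2 * (m : ℝ) ^ 13 := by
        unfold e2
        field_simp
      rw [this, pow_succ (m : ℝ) 13]
      nlinarith only [hm', h13]
    · have : ep m ^ 2 ≤ 1 := pow_le_one₀ hep0.le hep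
      linarith only [h14, this]
    · have : (7 * ep m ^ 2)⁻¹ = (m : ℝ) ^ 10 / 7 := by
        unfold ep
        field_simp
      rw [this]
      linarith only [h14, h1014]
  have a1 := hq.st (a := fun p => -e2 p.1) (b := fun p => -e2 p.1 / 2) (M := 2) (N := 14) (by
    rintro ⟨m, ν⟩ hm
    obtain ⟨⟨k1, k2, k3⟩, -, k4⟩ := key m hm
    refine ⟨?_, ?_⟩
    · show |-e2 m| ≤ (m : ℝ) ^ 14
      rw [abs_neg, abs_of_pos k1]
      linarith only [k2, k4]
    · show |(-e2 m / 2 - -e2 m)⁻¹| ≤ (m : ℝ) ^ 14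
      rw [show -e2 m / 2 - -e2 m = e2 m / 2 by ring, abs_of_pos (by positivity)]
      exact k3)
  have a2 := hq.st (a := fun p => e2 p.1 / 2) (b := fun p => e2 p.1) (M := 2) (N := 14) (by
    rintro ⟨m, ν⟩ hm
    obtain ⟨⟨k1, k2, k3⟩, -, k4⟩ := key m hm
    refine ⟨?_, ?_⟩
    · show |e2 m / 2| ≤ (m : ℝ) ^ 14
      rw [abs_of_pos (by positivity)]
      linarith only [k2, k4]
    · show |(e2 m - e2 m / 2)⁻¹| ≤ (m : ℝ) ^ 14
      rw [show e2 m - e2 m / 2 = e2 m / 2 by ring, abs_of_pos (by positivity)]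
      exact k3)
  have a3 := hz.st (a := fun p => 9 * ep p.1 ^ 2) (b := fun p => 16 * ep p.1 ^ 2) (M := 2)
    (N := 14) (by
    rintro ⟨m, ν⟩ hm
    obtain ⟨-, ⟨k1, k2, k3⟩, k4⟩ := key m hm
    refine ⟨?_, ?_⟩
    · show |9 * ep m ^ 2| ≤ (m : ℝ) ^ 14
      rw [abs_of_pos (by positivity)]
      exact k2
    · show |(16 * ep m ^ 2 - 9 * ep m ^ 2)⁻¹| ≤ (m : ℝ) ^ 14
      rw [show 16 * ep m ^ 2 - 9 * ep m ^ 2 = 7 * ep m ^ 2 by ring, abs_of_pos (by positivity)]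
      exact k3)
  exact (a1.mul ((ker3_one _ _).sub a2)).mul ((ker3_one _ _).sub a3)

theorem tame_coord {ix : Type} (sz : ix → ℕ) (j : ix → J) :
    Tame sz (fun _ => closedBall (0 : EE) 5) fun i x => x (j i) := by
  refine tame_clm (fun i => (ContinuousLinearMap.proj (j i) : EE →L[ℝ] ℂ)) (M := 5) (N := 1) ?_ ?_
  · intro i hi
    have : (5 : ℝ) ≤ sz i := by exact_mod_cast hi
    have h : ‖(ContinuousLinearMap.proj (j i) : EE →L[ℝ] ℂ)‖ ≤ 1 :=
      ContinuousLinearMap.opNorm_le_bound _ zero_le_one fun x => by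
        rw [one_mul]
        exact norm_le_pi_norm x (j i)
    rw [pow_one]
    linarith only [this, h]
  · intro i hi x hx
    have : (5 : ℝ) ≤ sz i := by exact_mod_cast hi
    rw [pow_one]
    exact (mem_closedBall_zero_iff.1 hx).trans this

theorem tame_XX : Tame id (fun _ => closedBall (0 : EE) 5) XX := by
  have h1 := (tame_coord id fun _ : ℕ => jl).re
  have h2 : Tame id (fun _ => closedBall (0 : EE) 5) fun m _ => lc m :=
    tame_const (c := fun m => lc m) (M := 1) (N := 0) fun m hm => by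
      have hm' : (1 : ℝ) ≤ m := by exact_mod_cast hm
      unfold lc
      rw [pow_zero, Real.norm_eq_abs, abs_div, abs_neg, abs_one, abs_of_pos (by positivity),
        div_le_one (by positivity)]
      linarith only [hm']
  exact (h1.sub h2).mul (ker3_cube _)

theorem tame_TT : Tame id (fun _ => closedBall (0 : EE) 5) TT := by
  exact (tame_coord id fun _ : ℕ => jo).re.mul (ker3_cube _)

theorem tame_chi : Tame id (fun _ => closedBall (0 : EE) 5) fun m x => chi (XX m x) := by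
  exact (ker3_one _ _).sub ((tame_XX.pow 2).st (a := fun _ => 121) (b := fun _ => 144) (M := 121)
    (N := 1) fun m hm => by
      have hm' : (121 : ℝ) ≤ m := by exact_mod_cast hm
      refine ⟨?_, ?_⟩
      · show |(121 : ℝ)| ≤ (m : ℝ) ^ 1
        rw [pow_one, abs_of_pos (by norm_num)]
        exact hm'
      · show |((144 : ℝ) - 121)⁻¹| ≤ (m : ℝ) ^ 1
        rw [pow_one, abs_of_pos (by norm_num)]
        linarith only [hm'])

theorem tame_cw :
    Tame (fun p : Σ m, Nd m => p.1) (fun _ => closedBall (0 : EE) 5) fun p => cw p.1 p.2 := by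
  have h1 : Tame (fun p : Σ m, Nd m => p.1) (fun _ => closedBall (0 : EE) 5)
      fun p x => cut p.1 p.2 (x js) :=
    tame_cut.comp (tame_coord _ fun _ => js) (M := 0) fun _ _ x hx =>
      mem_closedBall_zero_iff.2 ((norm_le_pi_norm x js).trans (mem_closedBall_zero_iff.1 hx))
  have a1 := (tame_XX.pow 2).st (a := fun _ => 25) (b := fun _ => 49) (M := 25)
    (N := 1) fun m hm => by
      have hm' : (25 : ℝ) ≤ m := by exact_mod_cast hm
      refine ⟨?_, ?_⟩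
      · show |(25 : ℝ)| ≤ (m : ℝ) ^ 1
        rw [pow_one, abs_of_pos (by norm_num)]
        exact hm'
      · show |((49 : ℝ) - 25)⁻¹| ≤ (m : ℝ) ^ 1
        rw [pow_one, abs_of_pos (by norm_num)]
        linarith only [hm']
  have a2 := tame_TT.st (a := fun m => Tend m + 3 / 2) (b := fun m => Tend m + 7 / 2) (M := 7001)
    (N := 2) fun m hm => by
      have hm' : (7001 : ℝ) ≤ m := by exact_mod_cast hm
      have hT : Tend m = 7000 * m + 2 := by
        unfold Tend kk dd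
        push_cast
        ring
      refine ⟨?_, ?_⟩
      · show |Tend m + 3 / 2| ≤ (m : ℝ) ^ 2
        rw [hT, abs_of_pos (by positivity)]
        nlinarith only [hm']
      · show |(Tend m + 7 / 2 - (Tend m + 3 / 2))⁻¹| ≤ (m : ℝ) ^ 2
        rw [show Tend m + 7 / 2 - (Tend m + 3 / 2) = 2 by ring, abs_of_pos (by norm_num)]
        nlinarith only [hm']
  have h2 : Tame id (fun _ => closedBall (0 : EE) 5) fun m x => th m (XX m x) (TT m x) :=
    ((ker3_one _ _).sub a1).mul ((ker3_one _ _).sub a2)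
  exact h1.mul (h2.reindex fun p : Σ m, Nd m => p.1)


end Pool.Agent.MP_bea40e_an.Iv

end

section

open Filter Topology Set Metric Complex
open scoped ContDiff ComplexConjugate

namespace Pool.Agent.MP_bea40e_an.Iv

/-! Tameness of the building blocks. -/

section tmaux

variable {ix E : Type} [NormedAddCommGroup E] [NormedSpace ℝ E] {sz : ix → ℕ} {U : ix → Set E}

theorem tm_bdd {c : ix → ℝ} (C : ℝ) (h : ∀ i, |c i| ≤ C) : Tame sz U fun i _ => c i := by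
  refine tame_const (M := ⌈C⌉₊) (N := 1) fun i hi => ?_
  rw [pow_one, Real.norm_eq_abs]
  exact (h i).trans ((Nat.le_ceil C).trans (by exact_mod_cast hi))

theorem tm_num (c : ℝ) : Tame sz U fun _ _ => c := tm_bdd |c| fun _ => le_rfl

theorem tm_sz : Tame sz U fun i _ => (sz i : ℝ) := by
  refine tame_const (M := 0) (N := 1) fun i _ => ?_
  simp

theorem tm_lin {c : ix → ℝ} (h : ∀ i, |c i| ≤ 7000 * sz i + 2) : Tame sz U fun i _ => c i := by
  refine tame_const (M := 7002) (N := 2) fun i hi => ?_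
  have h1 : (7002 : ℝ) ≤ sz i := by exact_mod_cast hi
  rw [Real.norm_eq_abs]
  nlinarith only [h i, h1]

theorem tm_st0 {f : ix → E → ℝ} (hf : Tame sz U f) (a b : ℝ) :
    Tame sz U fun i x => st a b (f i x) := by
  refine hf.st (a := fun _ => a) (b := fun _ => b) (M := ⌈max |a| |(b - a)⁻¹|⌉₊) (N := 1)
    fun i hi => ?_
  have h1 : max |a| |(b - a)⁻¹| ≤ sz i := (Nat.le_ceil _).trans (by exact_mod_cast hi)
  rw [pow_one]
  exact ⟨(le_max_left _ _).trans h1, (le_max_right _ _).trans h1⟩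

theorem tm_st {f : ix → E → ℝ} (hf : Tame sz U f) {c : ix → ℝ} (hc : Tame sz U fun i _ => c i)
    (a b : ℝ) : Tame sz U fun i x => st (c i + a) (c i + b) (f i x) := by
  have h := tm_st0 (hf.sub hc) a b
  have e : (fun i x => st (c i + a) (c i + b) (f i x)) = fun i x => st a b (f i x - c i) := by
    funext i x
    unfold st
    congr 1
    rw [show c i + b - (c i + a) = b - a by ring, show f i x - (c i + a) = f i x - c i - a by ring]
  rw [e]
  exact h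

theorem tm_rd {f : ix → E → ℂ} (hf : Tame sz U f) : Tame sz U fun i x => rd (f i x) :=
  (((tm_num (-2)).mul hf.re).sub (tm_num (1 / 2))).step

theorem tm_Pen {f : ix → E → ℂ} (hf : Tame sz U f) : Tame sz U fun i x => Pen (f i x) :=
  (((tm_num (1 / 8)).add ((tm_num 2).mul (hf.im.pow 2))).sub
    ((hf.re.add (tm_num (1 / 2))).pow 2)).kap

theorem tm_t0 (l : (i : ix) → Fin (kk (sz i))) : Tame sz U fun i _ => t0 (l i) := by
  refine tm_lin fun i => ?_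
  have h1 : ((l i : ℕ) : ℝ) ≤ kk (sz i) := by exact_mod_cast (l i).2.le
  have h2 : (kk (sz i) : ℝ) = 700 * sz i := by simp [kk, dd]
  unfold t0
  rw [abs_of_nonneg (by positivity)]
  linarith

theorem tm_Tend : Tame sz U fun i _ => Tend (sz i) := by
  refine tm_lin fun i => ?_
  have h2 : (kk (sz i) : ℝ) = 700 * sz i := by simp [kk, dd]
  unfold Tend
  rw [abs_of_nonneg (by positivity)]
  linarith

theorem tm_sn (b : ix → Bool) : Tame sz U fun i _ => sn (b i) := by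
  refine tm_bdd 1 fun i => ?_
  unfold sn
  split_ifs <;> simp

theorem tm_S0 : Tame sz U fun i _ => S0 (sz i) := by
  refine tm_bdd 2 fun i => ?_
  have h0 : 0 ≤ ep (sz i) := by unfold ep; positivity
  have h1 : ep (sz i) ≤ 1 := by
    unfold ep
    rcases Nat.eq_zero_or_pos (sz i) with h | h
    · simp [h]
    · have : (1 : ℝ) ≤ sz i := by exact_mod_cast h
      exact div_le_one_of_le₀ (one_le_pow₀ this) (by positivity)
  have h2 : ep (sz i) ^ sz i ^ 2 ≤ 1 := pow_le_one₀ h0 h1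
  have h3 : 0 ≤ ep (sz i) ^ sz i ^ 2 := pow_nonneg h0 _
  unfold S0
  rw [abs_le]
  constructor <;> linarith

end tmaux

theorem tm_XX {ix : Type} (sz : ix → ℕ) :
    Tame sz (fun _ => closedBall (0 : EE) 5) fun i x => XX (sz i) x := tame_XX.reindex sz

theorem tm_TT {ix : Type} (sz : ix → ℕ) :
    Tame sz (fun _ => closedBall (0 : EE) 5) fun i x => TT (sz i) x := tame_TT.reindex sz

theorem tm_card_fin (m : ℕ) (hm : 1400 ≤ m) : (Fintype.card (Fin (kk m)) : ℝ) ≤ (m : ℝ) ^ 2 := by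
  have h1 : (1400 : ℝ) ≤ m := by exact_mod_cast hm
  have h2 : (kk m : ℝ) = 700 * m := by simp [kk, dd]
  rw [Fintype.card_fin, h2]
  nlinarith only [h1]

theorem tm_card_nd (m : ℕ) (hm : 1400 ≤ m) : (Fintype.card (Nd m) : ℝ) ≤ (m : ℝ) ^ 2 := by
  have h1 : (1400 : ℝ) ≤ m := by exact_mod_cast hm
  have h2 : (kk m : ℝ) = 700 * m := by simp [kk, dd]
  rw [Fintype.card_prod, Fintype.card_fin, Fintype.card_bool, Nat.cast_mul, h2]
  push_cast
  nlinarith only [h1]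

theorem tame_Wall :
    Tame id (fun _ => closedBall (0 : EE) 5) fun m x => Wall m (XX m x) (TT m x) := by
  have hX := (tm_XX (id : ℕ → ℕ)).pow 2
  have hT := tm_TT (id : ℕ → ℕ)
  have hE : Tame (id : ℕ → ℕ) (fun _ => closedBall (0 : EE) 5) fun i _ => Tend (id i) := tm_Tend
  have h1 := (((tm_num 1).sub (tm_st0 hX 64 81)).mul ((tm_num 1).sub (tm_st hT hE (9 / 2) 5))).mul
    (((tm_st0 hX 9 16).mul (tm_st0 hT (-3) (-5 / 2))).add (tm_st hT hE 0 (1 / 2)))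
  have hX' := (tm_XX (fun p : Σ m, Fin (kk m) => p.1)).pow 2
  have hT' := tm_TT (fun p : Σ m, Fin (kk m) => p.1)
  have ht : Tame (fun p : Σ m, Fin (kk m) => p.1) (fun _ => closedBall (0 : EE) 5)
      fun p _ => t0 p.2 := tm_t0 (sz := fun p : Σ m, Fin (kk m) => p.1) fun p => p.2
  have h2 := (((tm_num 1).sub (tm_st0 hX' 1 4)).mul (tm_st hT' ht (1 / 2) 1)).mul
    ((tm_num 1).sub (tm_st hT' ht 9 (19 / 2)))
  have h3 := Tame.sum (sz := (id : ℕ → ℕ)) (U := fun _ => closedBall (0 : EE) 5)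
    (κ := fun m => Fin (kk m))
    (f := fun m l x => (1 - st 1 4 (XX m x ^ 2)) * st (t0 l + 1 / 2) (t0 l + 1) (TT m x) *
      (1 - st (t0 l + 9) (t0 l + 19 / 2) (TT m x))) h2 (M := 1400) (N := 2) tm_card_fin
  have h4 := h1.add h3
  simp only [add_zero, id] at h4
  exact h4

theorem tame_eta : Tame (fun p : Σ m, Wd m => p.1) (fun _ => closedBall (0 : EE) 5)
    fun p x => S0 p.1 * ∑ l, etaR p.1 p.2 l (XX p.1 x) (TT p.1 x) := by
  have hX := tm_XX (fun q : Σ p : (Σ m, Wd m), Fin (kk p.1) => q.1.1)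
  have hT := tm_TT (fun q : Σ p : (Σ m, Wd m), Fin (kk p.1) => q.1.1)
  have ht : Tame (fun q : Σ p : (Σ m, Wd m), Fin (kk p.1) => q.1.1)
      (fun _ => closedBall (0 : EE) 5) fun q _ => t0 q.2 :=
    tm_t0 (sz := fun q : Σ p : (Σ m, Wd m), Fin (kk p.1) => q.1.1) fun q => q.2
  have hm : Tame (fun q : Σ p : (Σ m, Wd m), Fin (kk p.1) => q.1.1)
      (fun _ => closedBall (0 : EE) 5) fun q _ => (q.1.1 : ℝ) ^ 2 := tm_sz.pow 2
  have hs : Tame (fun q : Σ p : (Σ m, Wd m), Fin (kk p.1) => q.1.1)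
      (fun _ => closedBall (0 : EE) 5) fun q _ => sn (q.1.2 q.2) := tm_sn _
  have h2 := ((hm.mul ((hT.sub ht).sub (tm_num (63 / 10)))).lg.mul
    (hm.mul ((hT.sub ht).sub (tm_num 8))).neg.lg).mul ((hs.mul hm).mul hX).neg.lg
  have h3 := Tame.sum (sz := fun p : Σ m, Wd m => p.1) (U := fun _ => closedBall (0 : EE) 5)
    (κ := fun p => Fin (kk p.1))
    (f := fun p l x => etaR p.1 p.2 l (XX p.1 x) (TT p.1 x)) h2 (M := 1400) (N := 2)
    fun p hp => tm_card_fin p.1 hp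
  exact tm_S0.mul h3

theorem tame_Qf : Tame id (fun _ => closedBall (0 : EE) 5) fun _ : ℕ => Qf := by
  have hc : ∀ j : J, Tame (id : ℕ → ℕ) (fun _ => closedBall (0 : EE) 5) fun _ x => x j :=
    fun j => tame_coord id fun _ => j
  exact (hc jw).normSq.add ((tm_num 2).mul (Tame.finsum Finset.univ
    (f := fun (j : AX) (_ : ℕ) (x : EE) => (x (jv j) * conj (x js)).im ^ 2)
    fun j _ => ((hc (jv j)).cmul (hc js).conj).im.pow 2))

theorem tame_box : Tame id (fun _ => closedBall (0 : EE) 5) fun _ : ℕ => box := by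
  have hc : ∀ j : J, Tame (id : ℕ → ℕ) (fun _ => closedBall (0 : EE) 5) fun _ x => x j :=
    fun j => tame_coord id fun _ => j
  exact Tame.prod Finset.univ (f := fun (j : J) (_ : ℕ) (x : EE) => 1 - st 9 16 (‖x j‖ ^ 2))
    fun j _ => (tm_num 1).sub (tm_st0 (hc j).normSq 9 16)

/-- the working set at a node -/
def tmU (p : Σ m, Nd m) : Set EE := closedBall (0 : EE) 5 ∩ {x | x js ∈ Sn p.1 p.2}

theorem tm_res {F : Type} [NormedAddCommGroup F] [NormedSpace ℝ F] {f : (Σ m, Nd m) → EE → F}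
    (h : Tame (fun p : Σ m, Nd m => p.1) (fun _ => closedBall (0 : EE) 5) f) :
    Tame (fun p : Σ m, Nd m => p.1) tmU f :=
  h.mono (M := 0) fun _ _ => inter_subset_left

theorem tm_ker {g : (Σ m, Nd m) → ℂ → ℂ}
    (h : Tame (fun p : Σ m, Nd m => p.1) (fun p => Sn p.1 p.2) g) :
    Tame (fun p : Σ m, Nd m => p.1) tmU fun p x => g p (x js) :=
  h.comp (tm_res (tame_coord _ fun _ => js)) (M := 0) fun _ _ _ hx => hx.2

theorem tm_xi : Tame (fun p : Σ m, Nd m => p.1) tmU fun p x => xi p.1 p.2 x := by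
  have h := (tm_res (tame_coord _ fun _ => jw)).cmul (tm_ker tame_Ginv)
  simp only [xi, div_eq_mul_inv]
  exact h

theorem tm_Cf : Tame (fun p : Σ m, Nd m => p.1) tmU fun p x => Cf p.1 p.2 x := by
  have hX := tm_res (tm_XX _)
  have hT := tm_res (tm_TT _)
  have ht : Tame (fun p : Σ m, Nd m => p.1) tmU fun p _ => t0 p.2.1 :=
    tm_t0 (sz := fun p : Σ m, Nd m => p.1) fun p => p.2.1
  have hm : Tame (fun p : Σ m, Nd m => p.1) tmU fun p _ => (p.1 : ℝ) ^ 2 := tm_sz.pow 2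
  exact (((((tm_num 1).sub (tm_st hT ht 5 (11 / 2))).mul (tm_st0 hX (-1) 1)).mul
    (hm.mul ((hT.sub ht).sub (tm_num 3))).lg).mul (tm_st hT ht (8 / 5) (19 / 10))).add
    ((tm_st hT ht 5 (11 / 2)).mul (tm_rd tm_xi))

theorem tm_bl : Tame (fun p : Σ m, Nd m => p.1) tmU fun p x => bl p.1 p.2 x := by
  have hX := tm_res (tm_XX _)
  have hT := tm_res (tm_TT _)
  have ht : Tame (fun p : Σ m, Nd m => p.1) tmU fun p _ => t0 p.2.1 :=
    tm_t0 (sz := fun p : Σ m, Nd m => p.1) fun p => p.2.1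
  have hm : Tame (fun p : Σ m, Nd m => p.1) tmU fun p _ => (p.1 : ℝ) ^ 2 := tm_sz.pow 2
  have hs := tm_st0 hX (-1) 1
  have hr := tm_rd tm_xi
  exact (((tm_st hT ht (28 / 5) (59 / 10)).mul (hm.mul ((hT.sub ht).sub (tm_num 8))).neg.lg).mul
    ((tm_num 1).sub (tm_st hT ht (17 / 2) (89 / 10)))).mul
    ((hs.mul ((tm_num 1).sub hr)).add (((tm_num 1).sub hs).mul hr))

theorem tame_NN : Tame (fun p : Σ m, Nd m => p.1)
    (fun p => closedBall (0 : EE) 5 ∩ {x | x js ∈ Sn p.1 p.2}) fun p => NN p.1 p.2 := by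
  have hG := (tm_ker tame_Gk).re
  have hA := (tm_ker tame_Ak).re
  have hS := (tm_ker tame_Sk).re
  have hw := (tm_res (tame_coord _ fun _ => jw)).re
  have hv := ((tm_res (tame_coord _ fun p => jv (grp p.1 p.2))).cmul
    (tm_res (tame_coord _ fun _ => js)).conj).re
  have hi : Tame (fun p : Σ m, Nd m => p.1) tmU fun p _ => (if p.2.2 then (1 : ℝ) else 0) := by
    refine tm_bdd 1 fun p => ?_
    split_ifs <;> simp
  have h := (((((((tm_num 4).mul tm_Cf).mul hG).mul hw).add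
    (((tm_num 2).mul (tm_Cf.pow 2)).mul (hG.pow 2))).add
    ((((tm_num 4).mul tm_Cf).mul hA).mul hv)).add
    (((tm_num 2).mul (tm_Cf.pow 2)).mul (hA.pow 2))).add (hi.mul (tm_bl.mul hS))
  simp only [ite_mul, one_mul, zero_mul] at h
  exact h

theorem tame_Pn : Tame (fun p : Σ m, Nd m => p.1)
    (fun p => closedBall (0 : EE) 5 ∩ {x | x js ∈ Sn p.1 p.2}) fun p => Pn p.1 p.2 := by
  have hT := tm_res (tm_TT _)
  have ht : Tame (fun p : Σ m, Nd m => p.1) tmU fun p _ => t0 p.2.1 :=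
    tm_t0 (sz := fun p : Σ m, Nd m => p.1) fun p => p.2.1
  exact (tm_st hT ht 4 (9 / 2)).mul (tm_Pen tm_xi)

theorem tm_node {f : (m : ℕ) → Nd m → EE → ℝ} (hf : Tame (fun p : Σ m, Nd m => p.1)
    (fun p => closedBall (0 : EE) 5 ∩ {x | x js ∈ Sn p.1 p.2}) fun p => f p.1 p.2) :
    Tame id (fun _ => closedBall (0 : EE) 5) fun m x => ∑ ν, cw m ν x * f m ν x := by
  have h := Tame.cut (S := fun p : Σ m, Nd m => {x : EE | x js ∈ Sn p.1 p.2}) tame_cw hf (M := 1)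
    fun p hp x _ hx => by
      have h0 : Tendsto (fun y : EE => y js) (𝓝 x) (𝓝 (x js)) := (continuous_apply js).tendsto x
      filter_upwards [h0.eventually (cut_off (m := p.1) hp p.2 hx)] with y hy
      simp only [cw, hy, zero_mul]
  exact Tame.sum (sz := (id : ℕ → ℕ)) (U := fun _ => closedBall (0 : EE) 5) (κ := fun m => Nd m)
    (f := fun m ν x => cw m ν x * f m ν x) h (M := 1400) (N := 2) tm_card_nd

/-- `Tame.cut`, `cut_off`, `Tame.sum` -/
theorem tame_Psi0 : Tame id (fun _ => closedBall (0 : EE) 5) Psi0 :=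
  (((tame_chi.pow 2).mul tame_Qf).add tame_Wall).add (tm_node tame_NN)

theorem tame_Psi1 : Tame id (fun _ => closedBall (0 : EE) 5) Psi1 := tm_node tame_Pn


end Pool.Agent.MP_bea40e_an.Iv

end

section

open Filter Topology Set Metric Complex
open scoped ContDiff ComplexConjugate

namespace Pool.Agent.MP_bea40e_an.Iv

/-! The holomorphic data of a word. -/

theorem an_small {m : ℕ} (hm : 1 ≤ m) {y : ℝ} (h : |y| ≤ 1 / m ^ 6) : (m : ℝ) ^ 5 * |y| ≤ 1 := by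
  have h1 : (1 : ℝ) ≤ m := by exact_mod_cast hm
  have h0 : (0 : ℝ) < m := by linarith only [h1]
  calc (m : ℝ) ^ 5 * |y| ≤ (m : ℝ) ^ 5 * (1 / m ^ 6) := by gcongr
    _ = 1 / (m : ℝ) := by field_simp
    _ ≤ 1 := by rw [div_le_one h0]; exact h1

theorem an_T_re (m : ℕ) (o : ℂ) (a c : ℝ) :
    ((m : ℂ) ^ 2 * (Tc m o - (a : ℂ) - (c : ℂ))).re = (m : ℝ) ^ 2 * (Tr m o.re - a - c) := by
  have : (m : ℂ) ^ 2 * (Tc m o - (a : ℂ) - (c : ℂ)) =
      (((m : ℝ) ^ 5 : ℝ) : ℂ) * o - (((m : ℝ) ^ 2 * (a + c) : ℝ) : ℂ) := by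
    unfold Tc; push_cast; ring
  rw [this, sub_re, re_ofReal_mul, ofReal_re]; unfold Tr; ring

theorem an_T_im (m : ℕ) (o : ℂ) (a c : ℝ) :
    |((m : ℂ) ^ 2 * (Tc m o - (a : ℂ) - (c : ℂ))).im| = (m : ℝ) ^ 5 * |o.im| := by
  have : (m : ℂ) ^ 2 * (Tc m o - (a : ℂ) - (c : ℂ)) =
      (((m : ℝ) ^ 5 : ℝ) : ℂ) * o - (((m : ℝ) ^ 2 * (a + c) : ℝ) : ℂ) := by
    unfold Tc; push_cast; ring
  rw [this, sub_im, im_ofReal_mul, ofReal_im, sub_zero, abs_mul, abs_of_nonneg (by positivity)]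

theorem an_X_re (m : ℕ) (b : Bool) (l : ℂ) :
    ((sn b : ℂ) * (m : ℂ) ^ 2 * Xc m l).re = sn b * (m : ℝ) ^ 2 * Xr m l.re := by
  have : (sn b : ℂ) * (m : ℂ) ^ 2 * Xc m l =
      ((sn b * (m : ℝ) ^ 5 : ℝ) : ℂ) * l - ((sn b * (m : ℝ) ^ 5 * lc m : ℝ) : ℂ) := by
    unfold Xc; push_cast; ring
  rw [this, sub_re, re_ofReal_mul, ofReal_re]; unfold Xr; ring

theorem an_X_im (m : ℕ) (b : Bool) (l : ℂ) :
    |((sn b : ℂ) * (m : ℂ) ^ 2 * Xc m l).im| = (m : ℝ) ^ 5 * |l.im| := by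
  have : (sn b : ℂ) * (m : ℂ) ^ 2 * Xc m l =
      ((sn b * (m : ℝ) ^ 5 : ℝ) : ℂ) * l - ((sn b * (m : ℝ) ^ 5 * lc m : ℝ) : ℂ) := by
    unfold Xc; push_cast; ring
  have h1 : |sn b| = 1 := by cases b <;> simp [sn]
  rw [this, sub_im, im_ofReal_mul, ofReal_im, sub_zero, abs_mul, abs_mul, h1, one_mul,
    abs_of_nonneg (by positivity)]

theorem an_T_an (m : ℕ) (o a c : ℂ) :
    AnalyticAt ℂ (fun o : ℂ => (m : ℂ) ^ 2 * (Tc m o - a - c)) o := by
  unfold Tc; fun_prop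

theorem an_X_an (m : ℕ) (l a : ℂ) :
    AnalyticAt ℂ (fun l : ℂ => -(a * (m : ℂ) ^ 2 * Xc m l)) l := by
  unfold Xc; fun_prop

theorem an_Lg_comp {E : Type} [NormedAddCommGroup E] [NormedSpace ℂ E] {f : E → ℂ} {x : E}
    (hf : AnalyticAt ℂ f x) (h : |(f x).im| ≤ 1) : AnalyticAt ℂ (fun t => Lg (f t)) x :=
  (Lg_an h).comp hf

theorem an_fst {f : ℂ → ℂ} {a b : ℂ} (hf : AnalyticAt ℂ f a) :
    AnalyticAt ℂ (fun p : ℂ × ℂ => f p.1) (a, b) :=
  AnalyticAt.comp (g := f) (f := Prod.fst) (x := (a, b)) hf analyticAt_fst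

theorem an_snd {f : ℂ → ℂ} {a b : ℂ} (hf : AnalyticAt ℂ f b) :
    AnalyticAt ℂ (fun p : ℂ × ℂ => f p.2) (a, b) :=
  AnalyticAt.comp (g := f) (f := Prod.snd) (x := (a, b)) hf analyticAt_snd

theorem an_three {a b c : ℂ} {a' b' c' : ℝ} (hb : ‖b‖ ≤ 1) (hc : ‖c‖ ≤ 1) (ha' : |a'| ≤ 1)
    (hb' : |b'| ≤ 1) : ‖a * b * c - ((a' * b' * c' : ℝ) : ℂ)‖ ≤ ‖a - a'‖ + ‖b - b'‖ + ‖c - c'‖ := by
  have e : a * b * c - ((a' * b' * c' : ℝ) : ℂ) =
      (a - a') * b * c + a' * (b - b') * c + a' * b' * (c - c') := by push_cast; ring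
  have n1 : ‖(a - a') * b * c‖ ≤ ‖a - a'‖ := by
    rw [norm_mul, norm_mul]
    calc ‖a - a'‖ * ‖b‖ * ‖c‖ ≤ ‖a - a'‖ * 1 * 1 := by gcongr
      _ = _ := by ring
  have n2 : ‖(a' : ℂ) * (b - b') * c‖ ≤ ‖b - b'‖ := by
    rw [norm_mul, norm_mul, norm_real, Real.norm_eq_abs]
    calc |a'| * ‖b - b'‖ * ‖c‖ ≤ 1 * ‖b - b'‖ * 1 := by gcongr
      _ = _ := by ring
  have n3 : ‖(a' : ℂ) * b' * (c - c')‖ ≤ ‖c - c'‖ := by
    rw [norm_mul, norm_mul, norm_real, norm_real, Real.norm_eq_abs, Real.norm_eq_abs]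
    calc |a'| * |b'| * ‖c - c'‖ ≤ 1 * 1 * ‖c - c'‖ := by gcongr
      _ = _ := by ring
  rw [e]
  exact (norm_add₃_le).trans (by linarith)

theorem an_lg_abs (t : ℝ) : |lg t| ≤ 1 := by
  rw [abs_of_pos (lg_pos t)]; exact (lg_lt_one t).le

theorem an_e2 {m : ℕ} (hm : 2 ≤ m) : 0 < e2 m ∧ e2 m ≤ 1 / 100 := by
  have h1 : (2 : ℝ) ≤ m := by exact_mod_cast hm
  unfold e2
  refine ⟨by positivity, ?_⟩
  have : (2 : ℝ) ^ 13 ≤ (m : ℝ) ^ 13 := by gcongr
  exact one_div_le_one_div_of_le (by norm_num) (by linarith only [this])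

theorem an_coord (j : J) (x : EE) : AnalyticAt ℂ (fun t : EE => t j) x :=
  (ContinuousLinearMap.proj (R := ℂ) (φ := fun _ : J => ℂ) j).analyticAt x

theorem Gam_an : ∀ᶠ m : ℕ in atTop, ∀ (k : Wd m) (l : Fin (kk m)) (o : ℂ), |o.im| ≤ 1 / m ^ 6 →
    AnalyticAt ℂ (Gam m k l) o ∧ ‖Gam m k l o‖ ≤ 1 ∧
    ‖Gam m k l o - (if k l then lg (m ^ 2 * (Tr m o.re - t0 l - 3)) else 0 : ℝ)‖ ≤ m ^ 5 * |o.im| ∧
    ‖Gam m k l o‖ ≤ Real.exp (m ^ 2 * (Tr m o.re - t0 l - 3)) ∧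
    ‖Gam m k l o - (if k l then 1 else 0)‖ ≤ Real.exp (-(m ^ 2 * (Tr m o.re - t0 l - 3))) := by
  filter_upwards [eventually_ge_atTop 1] with m hm k l o ho
  have h3 : (3 : ℂ) = ((3 : ℝ) : ℂ) := by norm_num
  have him := an_T_im m o (t0 l) 3
  have hre := an_T_re m o (t0 l) 3
  rw [← h3] at him hre
  have hle := him.le.trans (an_small hm ho)
  by_cases hk : k l = true
  · have e : Gam m k l = fun o => Lg (m ^ 2 * (Tc m o - t0 l - 3)) := by
      funext o; simp only [Gam, hk, if_true]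
    rw [e]
    simp only [hk, if_true]
    refine ⟨(Lg_an hle).comp (f := fun o : ℂ => (m : ℂ) ^ 2 * (Tc m o - t0 l - 3))
      (an_T_an m o _ _), Lg_norm hle, ?_, ?_, ?_⟩
    · rw [← hre, ← him]; exact Lg_near hle
    · rw [← hre]; exact Lg_le_exp hle
    · rw [← hre, norm_sub_rev]; exact one_sub_Lg_le hle
  · have e : Gam m k l = fun _ => 0 := by
      funext o; simp only [Gam, hk]; rfl
    rw [e]
    simp only [hk]
    refine ⟨analyticAt_const, by simp, ?_, ?_, ?_⟩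
    · simp only [Bool.false_eq_true, ↓ reduceIte, ofReal_zero, sub_self, norm_zero]; positivity
    · simp [Real.exp_nonneg]
    · simp [Real.exp_nonneg]

theorem eta_an : ∀ᶠ m : ℕ in atTop, ∀ (k : Wd m) (l : Fin (kk m)) (lam o : ℂ),
    |lam.im| ≤ 1 / m ^ 6 → |o.im| ≤ 1 / m ^ 6 →
    AnalyticAt ℂ (fun p : ℂ × ℂ => eta m k l p.1 p.2) (lam, o) ∧ ‖eta m k l lam o‖ ≤ 1 ∧
    ‖eta m k l lam o - etaR m k l (Xr m lam.re) (Tr m o.re)‖ ≤ 2 * m ^ 5 * (|lam.im| + |o.im|) ∧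
    ‖eta m k l lam o‖ ≤ Real.exp (m ^ 2 * (Tr m o.re - t0 l - 63 / 10)) := by
  filter_upwards [eventually_ge_atTop 1] with m hm k l lam o hl ho
  have h63 : (63 / 10 : ℂ) = ((63 / 10 : ℝ) : ℂ) := by push_cast; rfl
  have h8 : (8 : ℂ) = ((8 : ℝ) : ℂ) := by norm_num
  have i1 := an_T_im m o (t0 l) (63 / 10)
  have r1 := an_T_re m o (t0 l) (63 / 10)
  rw [← h63] at i1 r1
  have i2 := an_T_im m o (t0 l) 8
  have r2 := an_T_re m o (t0 l) 8
  rw [← h8] at i2 r2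
  have i3 := an_X_im m (k l) lam
  have r3 := an_X_re m (k l) lam
  have i2' : |(-((m : ℂ) ^ 2 * (Tc m o - t0 l - 8))).im| = (m : ℝ) ^ 5 * |o.im| := by
    rw [neg_im, abs_neg, i2]
  have i3' : |(-((sn (k l) : ℂ) * (m : ℂ) ^ 2 * Xc m lam)).im| = (m : ℝ) ^ 5 * |lam.im| := by
    rw [neg_im, abs_neg, i3]
  have l1 := i1.le.trans (an_small hm ho)
  have l2 := i2'.le.trans (an_small hm ho)
  have l3 := i3'.le.trans (an_small hm hl)
  have n1 := Lg_norm l1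
  have n2 := Lg_norm l2
  have n3 := Lg_norm l3
  refine ⟨?_, ?_, ?_, ?_⟩
  · unfold eta
    refine AnalyticAt.mul (AnalyticAt.mul ?_ ?_) ?_
    · exact an_snd (f := fun o => Lg ((m : ℂ) ^ 2 * (Tc m o - t0 l - 63 / 10)))
        (an_Lg_comp (an_T_an m o _ _) l1)
    · exact an_snd (f := fun o => Lg (-((m : ℂ) ^ 2 * (Tc m o - t0 l - 8))))
        (an_Lg_comp (f := fun o => -((m : ℂ) ^ 2 * (Tc m o - t0 l - 8))) (an_T_an m o _ _).neg l2)
    · exact an_fst (f := fun z => Lg (-((sn (k l) : ℂ) * (m : ℂ) ^ 2 * Xc m z)))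
        (an_Lg_comp (an_X_an m lam _) l3)
  · unfold eta
    rw [norm_mul, norm_mul]
    calc _ ≤ (1 : ℝ) * 1 * 1 := by gcongr
      _ = 1 := by ring
  · have a1 := Lg_near l1
    have a2 := Lg_near l2
    have a3 := Lg_near l3
    rw [r1, i1] at a1
    rw [neg_re, r2, i2'] at a2
    rw [neg_re, r3, i3'] at a3
    unfold eta etaR
    refine (an_three n2 n3 (an_lg_abs _) (an_lg_abs _)).trans ?_
    have : 0 ≤ (m : ℝ) ^ 5 * |lam.im| := by positivity
    linarith only [a1, a2, a3, this]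
  · have a1 := Lg_le_exp l1
    rw [r1] at a1
    unfold eta
    rw [norm_mul, norm_mul]
    calc _ ≤ Real.exp (m ^ 2 * (Tr m o.re - t0 l - 63 / 10)) * 1 * 1 := by gcongr
      _ = _ := by ring

theorem etaR_mem (m : ℕ) (k : Wd m) (l : Fin (kk m)) (X T : ℝ) :
    0 ≤ etaR m k l X T ∧ etaR m k l X T ≤ 1 := by
  unfold etaR
  refine ⟨(mul_pos (mul_pos (lg_pos _) (lg_pos _)) (lg_pos _)).le, ?_⟩
  exact mul_le_one₀ (mul_le_one₀ (lg_lt_one _).le (lg_pos _).le (lg_lt_one _).le) (lg_pos _).le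
    (lg_lt_one _).le

theorem GG1_an : ∀ᶠ m : ℕ in atTop, ∀ (k : Wd m) (s o : ℂ), ‖s‖ ≤ 1 + 2 * e2 m →
    |o.im| ≤ 1 / m ^ 6 → AnalyticAt ℂ (fun p : ℂ × ℂ => GG1 m k p.1 p.2) (s, o) ∧
      ‖GG1 m k s o‖ ≤ 1 / 100 ∧ (∀ j, AnalyticAt ℂ (fun p : ℂ × ℂ => AA2 m k j p.1 p.2) (s, o)) ∧
      ∑ j, ‖AA2 m k j s o‖ ≤ 1 / 100 := by
  filter_upwards [Gam_an, ker_an, ker_bd] with m hG hk hb k s o hs ho
  obtain ⟨b1, b2, -⟩ := hb s hs
  have hg : ∀ ν : Nd m, AnalyticAt ℂ (fun p : ℂ × ℂ => Gam m k ν.1 p.2) (s, o) := fun ν =>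
    an_snd (hG k ν.1 o ho).1
  refine ⟨?_, ?_, fun j => ?_, ?_⟩
  · unfold GG1
    refine Finset.analyticAt_fun_sum _ fun ν _ => (hg ν).mul ?_
    exact an_fst (hk ν s hs).1
  · unfold GG1
    refine (norm_sum_le _ _).trans (le_trans (Finset.sum_le_sum fun ν _ => ?_) b1)
    rw [norm_mul]
    exact mul_le_of_le_one_left (norm_nonneg _) (hG k ν.1 o ho).2.1
  · unfold AA2
    refine Finset.analyticAt_fun_sum _ fun ν _ => ?_
    by_cases h : grp m ν = j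
    · simp only [h, if_true]
      exact (hg ν).mul (an_fst (hk ν s hs).2.1)
    · simp only [h, if_false]
      exact analyticAt_const
  · unfold AA2
    refine le_trans (Finset.sum_le_sum fun j _ => norm_sum_le _ _) ?_
    rw [Finset.sum_comm]
    refine le_trans (Finset.sum_le_sum fun ν _ => ?_) b2
    rw [Finset.sum_eq_single (grp m ν)]
    · rw [if_pos rfl, norm_mul]
      exact mul_le_of_le_one_left (norm_nonneg _) (hG k ν.1 o ho).2.1
    · intro j _ hj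
      rw [if_neg (Ne.symm hj), norm_zero]
    · intro h
      exact absurd (Finset.mem_univ _) h

theorem cmp_an : ∀ᶠ m : ℕ in atTop, ∀ (k : Wd m) (x : EE), ‖x js‖ ≤ 1 + 2 * e2 m →
    |(x jl).im| ≤ 1 / m ^ 6 → |(x jo).im| ≤ 1 / m ^ 6 →
    AnalyticAt ℂ (fun t : EE => cmp m k (t js) (t jw) (t jl) (t jo) fun j => t (jv j)) x := by
  filter_upwards [GG1_an, eta_an, ker_an] with m hG he hk k x hs hl ho
  obtain ⟨g1, -, g2, -⟩ := hG k (x js) (x jo) hs ho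
  have p1 : AnalyticAt ℂ (fun t : EE => (t js, t jo)) x := (an_coord _ _).prod (an_coord _ _)
  have p2 : AnalyticAt ℂ (fun t : EE => (t jl, t jo)) x := (an_coord _ _).prod (an_coord _ _)
  have a1 : AnalyticAt ℂ (fun t : EE => GG1 m k (t js) (t jo)) x :=
    AnalyticAt.comp (f := fun t : EE => (t js, t jo)) g1 p1
  have a2 : ∀ j, AnalyticAt ℂ (fun t : EE => AA2 m k j (t js) (t jo)) x := fun j =>
    AnalyticAt.comp (f := fun t : EE => (t js, t jo)) (g2 j) p1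
  have a3 : ∀ l, AnalyticAt ℂ (fun t : EE => eta m k l (t jl) (t jo)) x := fun l =>
    AnalyticAt.comp (f := fun t : EE => (t jl, t jo)) (he k l _ _ hl ho).1 p2
  have a4 : ∀ l, AnalyticAt ℂ (fun t : EE => S1 m (l, true) (t js)) x := fun l =>
    AnalyticAt.comp (f := fun t : EE => t js) (hk (l, true) _ hs).2.2.2 (an_coord _ _)
  unfold cmp
  refine analyticAt_const.mul (AnalyticAt.add (AnalyticAt.add ?_ ?_) ?_)
  · exact a1.mul ((analyticAt_const.mul (an_coord _ _)).add ((an_coord _ _).mul a1))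
  · refine Finset.analyticAt_fun_sum _ fun j _ => ?_
    exact ((analyticAt_const.mul (a2 j)).mul (an_coord _ _)).add
      ((analyticAt_const.mul ((an_coord _ _).pow 3)).mul ((a2 j).pow 2))
  · exact Finset.analyticAt_fun_sum _ fun l _ => (a3 l).mul (a4 l)

theorem cmp_le : ∀ᶠ m : ℕ in atTop, ∀ (k : Wd m) (s w l o : ℂ) (v : AX → ℂ),
    ‖s‖ ≤ 1 + 2 * e2 m → |l.im| ≤ 1 / m ^ 6 → |o.im| ≤ 1 / m ^ 6 → ‖w‖ ≤ 3 → (∀ j, ‖v j‖ ≤ 3) →
    ‖cmp m k s w l o v‖ ≤ aa m * m ^ 10 := by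
  filter_upwards [GG1_an, eta_an, ker_bd, eventually_ge_atTop 701] with m hG he hb hm k s w l o v
    hs hl ho hw hv
  obtain ⟨-, g1, -, g2⟩ := hG k s o hs ho
  have hs2 : ‖s‖ ≤ 2 := by linarith only [(an_e2 (show 2 ≤ m by omega)).2, hs]
  have hm' : (701 : ℝ) ≤ m := by exact_mod_cast hm
  have t1 : ‖GG1 m k s o * (2 * w + s * GG1 m k s o)‖ ≤ 1 / 2 := by
    rw [norm_mul]
    have : ‖2 * w + s * GG1 m k s o‖ ≤ 7 := by
      refine (norm_add_le _ _).trans ?_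
      rw [norm_mul, norm_mul, Complex.norm_two]
      have : ‖s‖ * ‖GG1 m k s o‖ ≤ 2 * (1 / 100) := by gcongr
      linarith only [hw, this]
    calc ‖GG1 m k s o‖ * ‖2 * w + s * GG1 m k s o‖ ≤ 1 / 100 * 7 := by gcongr
      _ ≤ 1 / 2 := by norm_num
  have t2 : ‖∑ j, (4 * AA2 m k j s o * v j + 2 * s ^ 3 * AA2 m k j s o ^ 2)‖ ≤ 1 / 2 := by
    refine (norm_sum_le _ _).trans ?_
    have : ∀ j ∈ Finset.univ, ‖4 * AA2 m k j s o * v j + 2 * s ^ 3 * AA2 m k j s o ^ 2‖ ≤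
        13 * ‖AA2 m k j s o‖ := by
      intro j _
      have hj : ‖AA2 m k j s o‖ ≤ 1 / 100 :=
        (Finset.single_le_sum (f := fun j => ‖AA2 m k j s o‖) (fun _ _ => norm_nonneg _)
          (Finset.mem_univ j)).trans g2
      refine (norm_add_le _ _).trans ?_
      rw [norm_mul, norm_mul, norm_mul, norm_mul, norm_pow, norm_pow, Complex.norm_two,
        show ‖(4 : ℂ)‖ = 4 by simp]
      have h0 := norm_nonneg (AA2 m k j s o)
      have e1 : 4 * ‖AA2 m k j s o‖ * ‖v j‖ ≤ 4 * ‖AA2 m k j s o‖ * 3 := by gcongr; exact hv j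
      have e2 : 2 * ‖s‖ ^ 3 * ‖AA2 m k j s o‖ ^ 2 ≤ 2 * 2 ^ 3 * (1 / 100 * ‖AA2 m k j s o‖) := by
        rw [sq ‖AA2 m k j s o‖]; gcongr
      linarith only [h0, e1, e2]
    refine (Finset.sum_le_sum this).trans ?_
    rw [← Finset.mul_sum]
    linarith only [g2]
  have t3 : ‖∑ i, eta m k i l o * S1 m (i, true) s‖ ≤ 700 * (m : ℝ) ^ 9 := by
    refine (norm_sum_le _ _).trans ?_
    have : ∀ i ∈ Finset.univ, ‖eta m k i l o * S1 m (i, true) s‖ ≤ (m : ℝ) ^ 8 := by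
      intro i _
      rw [norm_mul]
      exact (mul_le_of_le_one_left (norm_nonneg _) (he k i l o hl ho).2.1).trans
        ((hb s hs).2.2.2.2 (i, true)).2
    refine (Finset.sum_le_sum this).trans ?_
    rw [Finset.sum_const, Finset.card_univ, Fintype.card_fin, nsmul_eq_mul]
    unfold kk dd
    push_cast
    exact le_of_eq (by ring)
  unfold cmp
  rw [norm_mul, norm_real, Real.norm_eq_abs, abs_of_pos (aa_pos m)]
  refine mul_le_mul_of_nonneg_left ((norm_add₃_le).trans ?_) (aa_pos m).le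
  have h9 : (1 : ℝ) ≤ (m : ℝ) ^ 9 := one_le_pow₀ (by linarith only [hm'])
  have : 701 * (m : ℝ) ^ 9 ≤ m * (m : ℝ) ^ 9 := by gcongr
  have e : (m : ℝ) ^ 10 = m * (m : ℝ) ^ 9 := by ring
  linarith only [t1, t2, t3, h9, this]

theorem word_an : ∀ᶠ m : ℕ in atTop, ∀ (k : Wd m), ∀ x ∈ Vw m, AnalyticAt ℂ (zw m k) x ∧
    AnalyticAt ℂ (ww m k) x ∧ (x js ≠ 0 → ∀ j, AnalyticAt ℂ (Yw m k j) x) ∧
    ‖zw m k x - x jz‖ ≤ aa m * m ^ 10 ∧ ‖ww m k x - x jw‖ ≤ 1 / 50 ∧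
    ∀ j, ‖Yw m k j x - x (jv j) / x js‖ ≤ 1 / 50 := by
  filter_upwards [GG1_an, cmp_an, cmp_le, eventually_ge_atTop 2] with m hG hc hb hm k x hx
  obtain ⟨h1, h2, h3, h4, -⟩ := hx
  obtain ⟨e0, e1⟩ := an_e2 hm
  have hs : ‖x js‖ ≤ 1 + 2 * e2 m := by linarith only [h1, e0]
  obtain ⟨g1, g2, g3, g4⟩ := hG k (x js) (x jo) hs h3.le
  have p1 : AnalyticAt ℂ (fun t : EE => (t js, t jo)) x := (an_coord _ _).prod (an_coord _ _)
  have a1 : AnalyticAt ℂ (fun t : EE => GG1 m k (t js) (t jo)) x :=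
    AnalyticAt.comp (f := fun t : EE => (t js, t jo)) g1 p1
  have a2 : ∀ j, AnalyticAt ℂ (fun t : EE => AA2 m k j (t js) (t jo)) x := fun j =>
    AnalyticAt.comp (f := fun t : EE => (t js, t jo)) (g3 j) p1
  have hx3 : ∀ j, ‖x j‖ ≤ 3 := fun j => (norm_le_pi_norm x j).trans h4.le
  have hs' : ‖x js‖ ≤ 101 / 100 := by linarith only [h1, e1]
  refine ⟨(an_coord _ _).add (hc k x hs h2.le h3.le), (an_coord _ _).add ((an_coord _ _).mul a1),
    fun h0 j => ((an_coord _ _).div (an_coord _ _) h0).add (((an_coord _ _).pow 2).mul (a2 j)),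
    ?_, ?_, fun j => ?_⟩
  · unfold zw
    rw [add_sub_cancel_left]
    exact hb k _ _ _ _ _ hs h2.le h3.le (hx3 _) fun j => hx3 _
  · unfold ww
    rw [add_sub_cancel_left, norm_mul]
    calc _ ≤ 101 / 100 * (1 / 100) := by gcongr
      _ ≤ (1 / 50 : ℝ) := by norm_num
  · have hj : ‖AA2 m k j (x js) (x jo)‖ ≤ 1 / 100 :=
      (Finset.single_le_sum (f := fun j => ‖AA2 m k j (x js) (x jo)‖) (fun _ _ => norm_nonneg _)
        (Finset.mem_univ j)).trans g4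
    unfold Yw
    rw [add_sub_cancel_left, norm_mul, norm_pow]
    calc _ ≤ (101 / 100) ^ 2 * (1 / 100) := by gcongr
      _ ≤ (1 / 50 : ℝ) := by norm_num

theorem Wall_nonneg (m : ℕ) (X T : ℝ) : 0 ≤ Wall m X T := by
  unfold Wall
  have h1 : ∀ a b t, 0 ≤ 1 - st a b t := fun a b t => sub_nonneg.2 (st_le_one a b t)
  exact add_nonneg (mul_nonneg (mul_nonneg (h1 _ _ _) (h1 _ _ _))
    (add_nonneg (mul_nonneg (st_nonneg _ _ _) (st_nonneg _ _ _)) (st_nonneg _ _ _)))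
    (Finset.sum_nonneg fun l _ => mul_nonneg (mul_nonneg (h1 _ _ _) (st_nonneg _ _ _)) (h1 _ _ _))

theorem Xi_nonneg (x : EE) : 0 ≤ Xi x := by
  unfold Xi
  exact add_nonneg (add_nonneg (add_nonneg (kap_nonneg _) (Finset.sum_nonneg fun _ _ => kap_nonneg _))
    (kap_nonneg _)) (kap_nonneg _)

theorem ysq_le_Phw : ∀ᶠ m : ℕ in atTop, ∀ (k : Wd m) (x : EE), ysq x + Xi x ≤ Phw m k x := by
  filter_upwards [S0_mem] with m hS k x
  unfold Phw
  refine le_add_of_nonneg_right (mul_nonneg (aa_pos m).le (add_nonneg (add_nonneg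
    (Wall_nonneg _ _ _) (mul_nonneg (by linarith only [hS.1]) ?_)) (sq_nonneg _)))
  exact Finset.sum_nonneg fun l _ => (etaR_mem _ _ _ _ _).1

theorem ysq_le_Pho (m : ℕ) (x : EE) : ysq x + Xi x ≤ Pho m x := by
  unfold Pho
  exact le_add_of_nonneg_right (mul_nonneg (aa_pos m).le (add_nonneg (Wall_nonneg _ _ _)
    (mul_nonneg (sq_nonneg _) (sq_nonneg _))))

/-- confinement -/
theorem Xi_small {x : EE} (h : Xi x ≤ 1 / 16) : ‖x jw‖ ^ 2 ≤ 9 / 8 ∧ (∀ j, ‖x (jv j)‖ ^ 2 ≤ 9 / 8) ∧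
    (x jl).re ^ 2 ≤ LL ^ 2 + LL ^ 3 / 8 ∧ (x jo).re ^ 2 ≤ LL ^ 2 + LL ^ 3 / 8 := by
  unfold Xi at h
  have s0 : 0 ≤ ∑ j, kap (‖x (jv j)‖ ^ 2 - 1) := Finset.sum_nonneg fun _ _ => kap_nonneg _
  have k1 := kap_nonneg (‖x jw‖ ^ 2 - 1)
  have k2 := kap_nonneg (((x jl).re ^ 2 - LL ^ 2) / LL ^ 3)
  have k3 := kap_nonneg (((x jo).re ^ 2 - LL ^ 2) / LL ^ 3)
  have hL : 0 < LL ^ 3 := pow_pos LL_pos 3
  refine ⟨by linarith [kap_ge (‖x jw‖ ^ 2 - 1)], fun j => ?_, ?_, ?_⟩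
  · have := Finset.single_le_sum (f := fun j => kap (‖x (jv j)‖ ^ 2 - 1))
      (fun _ _ => kap_nonneg _) (Finset.mem_univ j)
    linarith [kap_ge (‖x (jv j)‖ ^ 2 - 1)]
  · have : ((x jl).re ^ 2 - LL ^ 2) / LL ^ 3 ≤ 1 / 8 := by
      linarith [kap_ge (((x jl).re ^ 2 - LL ^ 2) / LL ^ 3)]
    rw [div_le_iff₀ hL] at this
    linarith only [this]
  · have : ((x jo).re ^ 2 - LL ^ 2) / LL ^ 3 ≤ 1 / 8 := by
      linarith [kap_ge (((x jo).re ^ 2 - LL ^ 2) / LL ^ 3)]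
    rw [div_le_iff₀ hL] at this
    linarith only [this]

theorem Xi_zero {x : EE} (hw : ‖x jw‖ ≤ 1) (hv : ∀ j, ‖x (jv j)‖ ≤ 1) (hl : |(x jl).re| ≤ LL)
    (ho : |(x jo).re| ≤ LL) : Xi x = 0 := by
  have hL : 0 ≤ LL ^ 3 := (pow_pos LL_pos 3).le
  have h1 : ∀ z : ℂ, ‖z‖ ≤ 1 → kap (‖z‖ ^ 2 - 1) = 0 := fun z hz =>
    kap_zero (sub_nonpos.2 (pow_le_one₀ (norm_nonneg _) hz))
  have h2 : ∀ t : ℝ, |t| ≤ LL → kap ((t ^ 2 - LL ^ 2) / LL ^ 3) = 0 := fun t ht =>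
    kap_zero (div_nonpos_of_nonpos_of_nonneg (sub_nonpos.2 (by
      rw [← sq_abs t]; exact pow_le_pow_left₀ (abs_nonneg _) ht 2)) hL)
  unfold Xi
  rw [h1 _ hw, h2 _ hl, h2 _ ho, Finset.sum_eq_zero fun j _ => h1 _ (hv j)]
  ring

theorem norm_le_of_coord {x : EE} {c : ℝ} (hs : ‖x js‖ ≤ c) (hz : ‖x jz‖ ≤ c) (hw : ‖x jw‖ ≤ c)
    (hl : ‖x jl‖ ≤ c) (ho : ‖x jo‖ ≤ c) (hv : ∀ j, ‖x (jv j)‖ ≤ c) : ‖x‖ ≤ c := by
  refine (pi_norm_le_iff_of_nonneg ((norm_nonneg _).trans hs)).2 fun j => ?_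
  rcases j with i | j
  · fin_cases i
    exacts [hs, hz, hw, hl, ho]
  · exact hv j


end Pool.Agent.MP_bea40e_an.Iv

end

section

open Filter Topology Set Metric Complex
open scoped ContDiff ComplexConjugate

namespace Pool.Agent.MP_bea40e_an.Iv

/-! The charts. -/

theorem un_n_lt {ι A ix : Type} (T : TD ι A ix) (a : A) (x : ι → ℂ) (h1 : 0 < T.mm x) (θ : ℝ) :
    T.n a x < θ ↔ ‖T.z a x‖ < θ * T.mm x ^ 8 ∧ T.q x - 1 < 10 * θ * T.mm x ^ 4 ∧
      T.Φ a x < 20 * θ * T.mm x ^ 8 ∧ T.g a x < θ := by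
  rw [TD.n, max_lt_iff, max_lt_iff, max_lt_iff, div_lt_iff₀ (by positivity),
    div_lt_iff₀ (by positivity), div_lt_iff₀ (by positivity), and_assoc, ← mul_assoc, ← mul_assoc,
    mul_comm θ 10, mul_comm θ 20]

theorem mem_Cop_none (m0 m : ℕ) (θ : ℝ) (x : EE) : x ∈ (tdm m0 m).Cop none θ ↔ x ∈ Vo ∧
    ‖x jz‖ < θ * ms m (x jl).re ^ 8 ∧ qq x - 1 < 10 * θ * ms m (x jl).re ^ 4 ∧
    Pho m x < 20 * θ * ms m (x jl).re ^ 8 ∧ gout m (XX m x) (TT m x) < θ := by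
  exact and_congr_right fun _ => un_n_lt (tdm m0 m) none x (ms_pos m _) θ

theorem mem_Cop_some (m0 m : ℕ) (k : Wd m) (θ : ℝ) (x : EE) : x ∈ (tdm m0 m).Cop (some k) θ ↔
    x ∈ Vw m ∧ ‖zw m k x‖ < θ * ms m (x jl).re ^ 8 ∧ qq x - 1 < 10 * θ * ms m (x jl).re ^ 4 ∧
    Phw m k x < 20 * θ * ms m (x jl).re ^ 8 ∧ gw m k (XX m x) (TT m x) < θ := by
  exact and_congr_right fun _ => un_n_lt (tdm m0 m) (some k) x (ms_pos m _) θ

theorem cop_chw {m0 m : ℕ} (hm : 0 < m) {k : Wd m} {x : EE} (h : x ∈ (tdm m0 m).Cop (some k) 5) :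
    Chw m k x ∧ ms m (x jl).re ≤ 2 * mu m := by
  obtain ⟨h1, -, -, h2, h3⟩ := (mem_Cop_some m0 m k 5 x).1 h
  have h4 : ms m (x jl).re ≤ 2 * mu m := ms_le_two hm (h1.2.2.2.2.1.le.trans (by norm_num))
  have h5 := pow_le_pow_left₀ (ms_pos m _).le h4 8
  exact ⟨⟨h1, h3, by linarith only [h2, h5]⟩, h4⟩

theorem gw_lt {m : ℕ} (hm : 0 < m) (k : Wd m) (X T θ : ℝ) : gw m k X T < θ ↔
    10 * (-1 - T) < θ ∧ 10 * (|X| - 5) < θ ∧ 10 * (T - Tend m - 1) < θ ∧ ∀ l,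
      50 * (T - t0 l - 2) < θ ∨ 50 * (t0 l + 7 - T) < θ ∨ -10 * sn (k l) * X < θ := by
  have : Nonempty (Fin (kk m)) := ⟨⟨0, Nat.mul_pos (by decide) hm⟩⟩
  have h1 : ∀ f : Fin (kk m) → ℝ, ⨆ l, f l < θ ↔ ∀ l, f l < θ := fun f =>
    ⟨fun h l => (le_ciSup (Finite.bddAbove_range f) l).trans_lt h, fun h => by
      obtain ⟨l, hl⟩ := exists_eq_ciSup_of_finite (f := f)
      exact hl ▸ h l⟩
  simp only [gw, max_lt_iff, h1, min_lt_iff, and_assoc, or_assoc]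

theorem un_XX (m : ℕ) : Continuous (XX m) := by
  unfold XX Xr
  fun_prop

theorem un_TT (m : ℕ) : Continuous (TT m) := by
  unfold TT Tr
  fun_prop

theorem un_sup {α β : Type} [TopologicalSpace α] [Fintype β] {f : β → α → ℝ}
    (hf : ∀ l, Continuous (f l)) : Continuous fun x => ⨆ l, f l x := by
  rcases isEmpty_or_nonempty β with h | h
  · simpa only [Real.iSup_of_isEmpty] using continuous_const
  · simpa only [Finset.sup'_univ_eq_ciSup] using
      Continuous.finset_sup'_apply Finset.univ_nonempty fun l _ => hf l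

theorem ok_cont_g (m0 m : ℕ) (a : Option (Wd m)) : Continuous ((tdm m0 m).g a) := by
  have hX := un_XX m
  have hT := un_TT m
  cases a with
  | none =>
    change Continuous fun x => gout m (XX m x) (TT m x)
    unfold gout
    fun_prop
  | some k =>
    change Continuous fun x => gw m k (XX m x) (TT m x)
    unfold gw
    exact Continuous.max (by fun_prop) (Continuous.max (by fun_prop) (un_sup fun l => by fun_prop))

theorem un_re (j : J) : Continuous fun x : EE => |(x j).re| := by fun_prop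

theorem un_im (j : J) : Continuous fun x : EE => |(x j).im| := by fun_prop

theorem ok_V_open (m0 m : ℕ) (a : Option (Wd m)) : IsOpen ((tdm m0 m).V a) := by
  cases a with
  | none =>
    exact (isOpen_lt continuous_norm continuous_const).inter (isOpen_lt (un_re jl) continuous_const)
  | some k =>
    exact (isOpen_lt (continuous_apply js).norm continuous_const).inter ((isOpen_lt (un_im jl)
      continuous_const).inter ((isOpen_lt (un_im jo) continuous_const).inter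
      ((isOpen_lt continuous_norm continuous_const).inter ((isOpen_lt (un_XX m).abs
      continuous_const).inter ((isOpen_lt continuous_const (un_TT m)).inter
      (isOpen_lt (un_TT m) continuous_const))))))

theorem ok_Kc_cpt (m0 m : ℕ) (a : Option (Wd m)) : IsCompact ((tdm m0 m).Kc a) := by
  cases a with
  | none =>
    exact (isCompact_closedBall 0 (5 / 2)).of_isClosed_subset
      ((isClosed_le continuous_norm continuous_const).inter
        (isClosed_le (un_re jl) continuous_const)) fun x hx => mem_closedBall_zero_iff.2 hx.1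
  | some k =>
    exact (isCompact_closedBall 0 (5 / 2)).of_isClosed_subset
      ((isClosed_le (continuous_apply js).norm continuous_const).inter ((isClosed_le (un_im jl)
      continuous_const).inter ((isClosed_le (un_im jo) continuous_const).inter
      ((isClosed_le continuous_norm continuous_const).inter ((isClosed_le (un_XX m).abs
      continuous_const).inter ((isClosed_le continuous_const (un_TT m)).inter
      (isClosed_le (un_TT m) continuous_const))))))) fun x hx => mem_closedBall_zero_iff.2 hx.2.2.2.1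

theorem ok_Kc_sub {m0 m : ℕ} (hm : 0 < m) (a : Option (Wd m)) :
    (tdm m0 m).Kc a ⊆ (tdm m0 m).V a := by
  intro x hx
  cases a with
  | none => exact ⟨hx.1.trans_lt (by norm_num), hx.2.trans_lt (by linarith only [LL_pos])⟩
  | some k =>
    obtain ⟨h1, h2, h3, h4, h5, h6, h7⟩ := hx
    have h0 : (0 : ℝ) < m := Nat.cast_pos.2 hm
    have h8 : 0 < e2 m := by unfold e2; positivity
    have h9 : (1 : ℝ) / (2 * m ^ 6) < 1 / m ^ 6 :=
      one_div_lt_one_div_of_lt (by positivity) (by linarith only [pow_pos h0 6])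
    exact ⟨by linarith only [h1, h8], h2.trans_lt h9, h3.trans_lt h9, by linarith only [h4], by linarith only [h5], by linarith only [h6],
      by linarith only [h7]⟩

theorem un_lam : ∀ᶠ m : ℕ in atTop, ∀ m0 a, ∀ x ∈ (tdm m0 m).V a, |(x jl).re| ≤ 2 * LL := by
  filter_upwards [win_sub] with m h m0 a x hx
  cases a with
  | none => exact hx.2.le
  | some k =>
    have := h _ (hx.2.2.2.2.1.le.trans (by norm_num))
    exact abs_le.2 ⟨by linarith [LL_pos], by linarith only [this]⟩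

theorem un_big {P : ℕ → ℕ → Prop} (h : ∀ᶠ m : ℕ in atTop, ∀ m0, P m0 m) : Big P :=
  (Big.of_ev h).mono fun m0 _ _ h => h m0

theorem un_Φ : ∀ᶠ m : ℕ in atTop, ∀ m0 a x, ysq x + Xi x ≤ (tdm m0 m).Φ a x := by
  filter_upwards [ysq_le_Phw] with m h m0 a x
  cases a with
  | none => exact ysq_le_Pho m x
  | some k => exact h k x

theorem un_ysq (x : EE) : (x jl).im ^ 2 ≤ ysq x + Xi x ∧ (x jo).im ^ 2 ≤ ysq x + Xi x ∧
    Xi x ≤ ysq x + Xi x := by
  have := Xi_nonneg x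
  unfold ysq
  refine ⟨?_, ?_, ?_⟩ <;> linarith [sq_nonneg (x jl).im, sq_nonneg (x jo).im]

theorem un_basic : ∀ᶠ m : ℕ in atTop, ∀ m0 a, ∀ x ∈ (tdm m0 m).Cop a 5,
    |(x jl).re| ≤ 3 / 2 * LL ∧ (∀ j, ‖x (jv j)‖ ≤ 2) ∧ ‖(tdm m0 m).z a x‖ ≤ 1 ∧
      (‖x jz‖ ≤ 5 / 2 → ‖x‖ ≤ 5 / 2) := by
  filter_upwards [un_lam, un_Φ, ms_le_L] with m h1 h2 h3 m0 a x hx
  obtain ⟨a1, a2, a3, -⟩ := (un_n_lt (tdm m0 m) a x (ms_pos m _) 5).1 hx.2
  have hL : LL ≤ 1 / 100 := by unfold LL; norm_num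
  have h0 := LL_pos
  have b0 : 0 < (tdm m0 m).mm x := ms_pos m _
  have b1 : (tdm m0 m).mm x ≤ 1 / 10 := (h3 _ (h1 m0 a x hx.1)).trans (by linarith)
  have b2 := pow_le_pow_left₀ b0.le b1 4
  have b3 := pow_le_pow_left₀ b0.le b1 8
  obtain ⟨c1, c2, c3⟩ := un_ysq x
  have c4 := h2 m0 a x
  obtain ⟨d1, d2, d3, d4⟩ := Xi_small (x := x) (by linarith only [a3, b3, c3, c4])
  have e1 : ∀ t : ℝ, t ^ 2 ≤ LL ^ 2 + LL ^ 3 / 8 → |t| ≤ 3 / 2 * LL := fun t ht =>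
    abs_le_of_sq_le_sq (by nlinarith only [mul_le_mul_of_nonneg_left hL (sq_nonneg LL), ht]) (by linarith only [h0])
  have e2 : ∀ z : ℂ, ‖z‖ ^ 2 ≤ 4 → ‖z‖ ≤ 2 := fun z hz =>
    (abs_le_of_sq_le_sq' (by linarith only [hz]) (by norm_num)).2
  have e3 : ∀ z : ℂ, |z.re| ≤ 3 / 2 * LL → z.im ^ 2 ≤ 1 → ‖z‖ ≤ 5 / 2 := fun z f1 f2 => by
    have : |z.im| ≤ 1 := abs_le_of_sq_le_sq (by linarith only [f2]) zero_le_one
    linarith only [norm_le_abs_re_add_abs_im z, hL, f1, this]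
  have e4 : ∀ j, ‖x (jv j)‖ ≤ 2 := fun j => e2 _ (by linarith only [d2 j, hL, h0])
  refine ⟨e1 _ d3, e4, by linarith only [a1, b3], fun hz => norm_le_of_coord ?_ hz ?_
    (e3 _ (e1 _ d3) (by linarith only [a3, b3, c1, c4])) (e3 _ (e1 _ d4) (by linarith only [a3, b3, c2, c4])) fun j => by linarith only [e4 j, hL, h0]⟩
  · have : ‖x js‖ ^ 2 - 1 < _ := a2
    linarith only [e2 (x js) (by linarith only [b2, this]), hL, h0]
  · linarith only [e2 (x jw) (by linarith only [d1]), hL, h0]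

theorem ok_V_lam : Big fun m0 m => ∀ a, ∀ x ∈ (tdm m0 m).V a,
    |(tdm m0 m).lam x| ≤ 2 * (tdm m0 m).L := by
  exact un_big un_lam

theorem ok_O_sub : Big fun m0 m => ∀ a, (tdm m0 m).Cop a 5 ⊆ (tdm m0 m).Kc a := by
  refine un_big ?_
  filter_upwards [un_basic, word_an, ysq_le_Phw, ev_mu' 800 13, eventually_gt_atTop 0]
    with m h1 h2 h3 h4 hm m0 a x hx
  obtain ⟨a1, -, a2, a3⟩ := h1 m0 a x hx
  cases a with
  | none => exact ⟨a3 (le_trans a2 (by norm_num)), a1⟩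
  | some k =>
    obtain ⟨⟨b1, b2, b3⟩, b4⟩ := cop_chw hm hx
    obtain ⟨c1, c2, c3, -⟩ := (gw_lt hm k _ _ 5).1 b2
    obtain ⟨-, -, c4, -⟩ := (mem_Cop_some m0 m k 5 x).1 hx
    have h0 : (1 : ℝ) ≤ m := Nat.one_le_cast.2 hm
    have hμ := mu_pos m
    have d0 : ∀ i, mu m ^ (i + 1) ≤ mu m := fun i => pow_le_of_le_one hμ.le (mu_le_one m) i.succ_ne_zero
    have d5 : mu m ^ 4 ≤ mu m := d0 3
    have d1 : ∀ i ≤ 13, 800 * mu m ≤ 1 / m ^ i := fun i hi => by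
      rw [le_div_iff₀ (by positivity)]
      refine le_trans ?_ h4
      rw [mul_right_comm]
      gcongr
    have d2 : ∀ t : ℝ, t ^ 2 ≤ ysq x + Xi x → |t| ≤ 1 / (2 * m ^ 6) := fun t ht => by
      have f1 : |t| ≤ 160 * mu m ^ 4 :=
        abs_le_of_sq_le_sq (by linarith only [h3 k x, b3, ht]) (by positivity)
      rw [mul_comm, ← div_div]
      linarith only [d1 6 (by norm_num), d5, hμ, f1]
    have d3 := pow_le_pow_left₀ (ms_pos m _).le b4 4
    have d4 : 0 ≤ e2 m := by unfold e2; positivity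
    refine ⟨(abs_le_of_sq_le_sq' ?_ (by linarith only [d4])).2, d2 _ (un_ysq x).1, d2 _ (un_ysq x).2.1,
      a3 ?_, by linarith only [c2], by linarith only [c1], by linarith only [c3]⟩
    · have f1 : 800 * mu m ≤ e2 m := d1 13 le_rfl
      unfold qq at c4
      linarith only [d5, sq_nonneg (e2 m), c4, d3, f1]
    · have f1 := (h2 k x b1).2.2.2.1
      have f2 : aa m * m ^ 10 ≤ 1 := by
        rw [← le_div_iff₀ (by positivity)]
        exact (d0 6).trans (by linarith only [d1 10 (by norm_num), hμ])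
      have f3 : ‖zw m k x‖ ≤ 1 := a2
      linarith only [norm_le_insert (zw m k x) (x jz), f1, f2, f3]

theorem ok_O_lam : Big fun m0 m => ∀ a, ∀ x ∈ (tdm m0 m).Cop a 5,
    |(tdm m0 m).lam x| ≤ 3 / 2 * (tdm m0 m).L := by
  exact un_big (un_basic.mono fun m h m0 a x hx => (h m0 a x hx).1)

theorem un_co (j : J) (x : EE) : AnalyticAt ℂ (fun t : EE => t j) x :=
  (ContinuousLinearMap.proj (R := ℂ) (φ := fun _ : J => ℂ) j).analyticAt x

theorem ok_an_z : Big fun m0 m => ∀ a, ∀ x ∈ (tdm m0 m).V a, AnalyticAt ℂ ((tdm m0 m).z a) x := by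
  refine un_big (word_an.mono fun m h m0 a x hx => ?_)
  cases a with
  | none => exact un_co jz x
  | some k => exact (h k x hx).1

theorem ok_an_Y : Big fun m0 m => ∀ a i, ∀ x ∈ (tdm m0 m).V a, x (tdm m0 m).is ≠ 0 →
    AnalyticAt ℂ ((tdm m0 m).Y a i) x := by
  refine un_big (word_an.mono fun m h m0 a i x hx h0 => ?_)
  cases a with
  | none => exact (un_co (jv i) x).div (un_co js x) h0
  | some k => exact (h k x hx).2.2.1 h0 i

theorem ok_Φ_ge : Big fun m0 m => ∀ a, ∀ x ∈ (tdm m0 m).V a,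
    (x (tdm m0 m).il).im ^ 2 ≤ (tdm m0 m).Φ a x := by
  exact un_big (un_Φ.mono fun m h m0 a x _ => (un_ysq x).1.trans (h m0 a x))

theorem ok_wt_nonneg (m0 m : ℕ) (a : Option (Wd m)) (x : EE) : 0 ≤ (tdm m0 m).wt a x := by
  cases a with
  | none => exact mul_nonneg (aa_pos m).le (sq_nonneg _)
  | some k => exact (aa_pos m).le

theorem ok_wt_ge : Big fun m0 m => ∀ a, ∀ x ∈ (tdm m0 m).Cop a 5,
    (tdm m0 m).a ≤ (tdm m0 m).wt a x ∨ 20 * √(tdm m0 m).a ≤ (tdm m0 m).mm x ^ 4 := by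
  refine un_big ?_
  filter_upwards [ev_mu' 20 12, eventually_gt_atTop 0] with m h1 hm m0 a x _
  cases a with
  | some k => exact .inl le_rfl
  | none =>
    have h0 : (0 : ℝ) < m := Nat.cast_pos.2 hm
    have hμ := mu_pos m
    rcases le_total |XX m x| 11 with h2 | h2
    · left
      change aa m ≤ aa m * chi (XX m x) ^ 2
      rw [chi, st_zero (by norm_num) ((sq_le_sq' (abs_le.1 h2).1 (abs_le.1 h2).2).trans (by norm_num))]
      simp
    · right
      change 20 * √(aa m) ≤ ms m (x jl).re ^ 4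
      have h3 : √(aa m) ≤ mu m :=
        Real.sqrt_le_iff.2 ⟨hμ.le, pow_le_pow_of_le_one hμ.le (mu_le_one m) (by norm_num)⟩
      have h4 : 1 / (m : ℝ) ^ 3 ≤ ms m (x jl).re := by
        rw [XX, Xr, abs_mul, abs_of_pos (pow_pos h0 3), ← div_le_iff₀ (pow_pos h0 3)] at h2
        have := ms_ge m (x jl).re
        rw [div_eq_mul_one_div] at h2 this
        linarith only [hμ, h2, this]
      refine le_trans ?_ (pow_le_pow_left₀ (by positivity) h4 4)
      rw [div_pow, one_pow, ← pow_mul, le_div_iff₀ (by positivity)]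
      refine le_trans ?_ h1
      rw [mul_right_comm]
      gcongr

theorem ok_Y_le : Big fun m0 m => ∀ a i, ∀ x ∈ (tdm m0 m).Cop a 5, 1 / 4 ≤ (tdm m0 m).q x →
    |((tdm m0 m).Y a i x).im| ≤ 6 := by
  refine un_big ?_
  filter_upwards [un_basic, word_an] with m h1 h2 m0 a i x hx hq
  have h3 : 1 / 2 ≤ ‖x js‖ := (abs_le_of_sq_le_sq' (le_trans (by norm_num) hq) (norm_nonneg _)).2
  have h4 : ‖x (jv i) / x js‖ ≤ 4 := by
    rw [norm_div, div_le_iff₀ (by linarith only [h3])]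
    linarith only [(h1 m0 a x hx).2.1 i, h3]
  refine (abs_im_le_norm _).trans ?_
  cases a with
  | none => exact h4.trans (by norm_num)
  | some k =>
    change ‖Yw m k i x‖ ≤ 6
    linarith only [(h2 k x hx.1).2.2.2.2.2 i, norm_le_insert' (Yw m k i x) (x (jv i) / x js), h4]

theorem ok_psh_tilt (m0 m : ℕ) (a : Option (Wd m)) (x : EE) :
    PshAt (fun t => -(tdm m0 m).tilt a t) x := by
  cases a with
  | none => exact pshAt_const (-0)
  | some k =>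
    refine (pshAt_re (F := fun t : EE => ((m ^ 3 / (10 ^ 7 * m) : ℝ) : ℂ) * t jo +
      (((∑ l, sn (k l)) * m ^ 3 / (10 ^ 11 * m ^ 2) : ℝ) : ℂ) * (t jl - (lc m : ℝ)))
      ((analyticAt_const.mul (un_co jo x)).add (analyticAt_const.mul
        ((un_co jl x).sub analyticAt_const)))).congr (.of_forall fun t => ?_)
    change -tw m k t = _
    simp only [add_re, re_ofReal_mul, sub_re, ofReal_re, tw, TT, XX, Tr, Xr]
    ring

theorem ok_tilt_le : Big fun m0 m => ∀ a, ∀ x ∈ (tdm m0 m).Cop a 5,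
    |(tdm m0 m).tilt a x| ≤ 1 / 200 := by
  refine un_big ((eventually_gt_atTop 0).mono fun m hm m0 a x hx => ?_)
  cases a with
  | none =>
    change |(0 : ℝ)| ≤ _
    norm_num
  | some k =>
    obtain ⟨-, -, -, -, h1, h2, h3⟩ : x ∈ Vw m := hx.1
    have h0 : (1 : ℝ) ≤ m := Nat.one_le_cast.2 hm
    have h4 : (kk m : ℝ) = 700 * m := by simp [kk, dd]
    have h5 : |∑ l, sn (k l)| ≤ 700 * m := by
      refine (Finset.abs_sum_le_sum_abs _ _).trans ?_
      rw [Finset.sum_congr rfl fun l _ => show |sn (k l)| = 1 by cases k l <;> simp [sn]]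
      simp only [Finset.sum_const, Finset.card_univ, Fintype.card_fin, nsmul_eq_mul, h4, mul_one, Std.le_refl]
    have h6 : |TT m x| ≤ 7004 * m := by
      rw [Tend, h4] at h3
      exact abs_le.2 ⟨by linarith only [h2, h0], by linarith only [h3, h0]⟩
    change |tw m k x| ≤ _
    refine (abs_sub _ _).trans ?_
    rw [abs_div, abs_div, abs_neg, abs_of_pos (by positivity : (0 : ℝ) < 10 ^ 7 * m),
      abs_of_pos (by positivity : (0 : ℝ) < 10 ^ 11 * m ^ 2), abs_mul]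
    calc _ ≤ 7004 * (m : ℝ) / (10 ^ 7 * m) + 700 * m * 6 / (10 ^ 11 * m) := by
          gcongr
          exact le_self_pow₀ h0 two_ne_zero
      _ = 7004 / 10 ^ 7 + 700 * 6 / 10 ^ 11 := by field_simp
      _ ≤ _ := by norm_num


end Pool.Agent.MP_bea40e_an.Iv

end

section

open Filter Topology Set Metric Complex
open scoped ContDiff ComplexConjugate

namespace Pool.Agent.MP_bea40e_an.Iv

/-! Geometry of the clock-register plane. -/

theorem id0_st1 (a b t : ℝ) : 0 ≤ 1 - st a b t := sub_nonneg.2 (st_le_one a b t)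

theorem id0_A (m : ℕ) (X T : ℝ) :
    0 ≤ (1 - st 64 81 (X ^ 2)) * (1 - st (Tend m + 9 / 2) (Tend m + 5) T) *
      (st 9 16 (X ^ 2) * st (-3) (-5 / 2) T + st (Tend m) (Tend m + 1 / 2) T) :=
  mul_nonneg (mul_nonneg (id0_st1 _ _ _) (id0_st1 _ _ _))
    (add_nonneg (mul_nonneg (st_nonneg _ _ _) (st_nonneg _ _ _)) (st_nonneg _ _ _))

theorem id0_B (m : ℕ) (X T : ℝ) (l : Fin (kk m)) : 0 ≤ (1 - st 1 4 (X ^ 2)) *
    st (t0 l + 1 / 2) (t0 l + 1) T * (1 - st (t0 l + 9) (t0 l + 19 / 2) T) :=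
  mul_nonneg (mul_nonneg (id0_st1 _ _ _) (st_nonneg _ _ _)) (id0_st1 _ _ _)

theorem id0_wall_nonneg (m : ℕ) (X T : ℝ) : 0 ≤ Wall m X T :=
  add_nonneg (id0_A m X T) (Finset.sum_nonneg fun l _ => id0_B m X T l)

theorem id0_wall_lat {m : ℕ} {X T : ℝ} (h1 : 4 ≤ |X|) (h2 : |X| ≤ 8) (h3 : -5 / 2 ≤ T)
    (h4 : T ≤ Tend m + 9 / 2) : 1 ≤ Wall m X T := by
  have a1 : 16 ≤ X ^ 2 := by rw [← sq_abs]; nlinarith only [h1]
  have a2 : X ^ 2 ≤ 64 := by rw [← sq_abs]; nlinarith only [h1, h2]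
  have := Finset.sum_nonneg fun l (_ : l ∈ Finset.univ) => id0_B m X T l
  rw [Wall, st_zero (by norm_num) a2, st_zero (by linarith only []) h4, st_one (by norm_num) a1,
    st_one (by norm_num) h3]
  linarith only [st_nonneg (Tend m) (Tend m + 1 / 2) T, this]

theorem id0_wall_end {m : ℕ} {X T : ℝ} (h2 : |X| ≤ 8) (h3 : Tend m + 1 / 2 ≤ T)
    (h4 : T ≤ Tend m + 9 / 2) : 1 ≤ Wall m X T := by
  have a2 : X ^ 2 ≤ 64 := by rw [← sq_abs]; nlinarith only [abs_nonneg X, h2]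
  have := Finset.sum_nonneg fun l (_ : l ∈ Finset.univ) => id0_B m X T l
  rw [Wall, st_zero (by norm_num) a2, st_zero (by linarith only []) h4, st_one (by linarith only []) h3]
  linarith [mul_nonneg (st_nonneg 9 16 (X ^ 2)) (st_nonneg (-3) (-5 / 2) T)]

theorem id0_wall_isl {m : ℕ} {X T : ℝ} (l : Fin (kk m)) (h2 : |X| ≤ 1) (h3 : t0 l + 1 ≤ T)
    (h4 : T ≤ t0 l + 9) : 1 ≤ Wall m X T := by
  have a2 : X ^ 2 ≤ 1 := by rw [← sq_abs]; nlinarith only [abs_nonneg X, h2]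
  have h := Finset.single_le_sum (fun l (_ : l ∈ Finset.univ) => id0_B m X T l) (Finset.mem_univ l)
  have e : (1 - st 1 4 (X ^ 2)) * st (t0 l + 1 / 2) (t0 l + 1) T *
      (1 - st (t0 l + 9) (t0 l + 19 / 2) T) = 1 := by
    rw [st_zero (by norm_num) a2, st_one (by linarith only []) h3, st_zero (by linarith only []) h4]; norm_num
  rw [e] at h
  rw [Wall]
  linarith [id0_A m X T]

theorem id0_Xi (x : EE) : 0 ≤ Xi x :=
  add_nonneg (add_nonneg (add_nonneg (kap_nonneg _) (Finset.sum_nonneg fun _ _ => kap_nonneg _))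
    (kap_nonneg _)) (kap_nonneg _)

theorem id0_ysq (x : EE) : 0 ≤ ysq x := add_nonneg (sq_nonneg _) (sq_nonneg _)

theorem id0_eta (m : ℕ) (k : Wd m) (l : Fin (kk m)) (X T : ℝ) : 0 ≤ etaR m k l X T :=
  mul_nonneg (mul_nonneg (lg_pos _).le (lg_pos _).le) (lg_pos _).le

theorem id0_t0 {n : ℕ} (l : Fin n) : 0 ≤ t0 l := by rw [t0]; positivity

theorem id0_t0_le {m : ℕ} (l : Fin (kk m)) : t0 l + 12 ≤ Tend m := by
  have : ((l : ℕ) : ℝ) + 1 ≤ kk m := by exact_mod_cast l.2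
  rw [t0, Tend]; linarith

theorem id0_sn (b : Bool) : sn b = 1 ∨ sn b = -1 := by cases b <;> simp [sn]

theorem id0_cop {m0 m : ℕ} {a : Option (Wd m)} {x : EE} (h : x ∈ (tdm m0 m).Cop a 5) :
    x ∈ (tdm m0 m).V a ∧ qq x - 1 < 50 * ms m (x jl).re ^ 4 ∧
      (tdm m0 m).Φ a x < 100 * ms m (x jl).re ^ 8 ∧ (tdm m0 m).g a x < 5 := by
  obtain ⟨hV, hn⟩ := h
  have hp := ms_pos m (x jl).re
  simp only [TD.n, max_lt_iff] at hn
  obtain ⟨⟨-, h2⟩, h3, h4⟩ := hn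
  change (qq x - 1) / (10 * ms m (x jl).re ^ 4) < 5 at h2
  change _ / (20 * ms m (x jl).re ^ 8) < 5 at h3
  rw [div_lt_iff₀ (by positivity)] at h2 h3
  exact ⟨hV, by linarith, by linarith, h4⟩

theorem id0_ms8 {m : ℕ} (hm : 0 < m) {x : EE} (h : |XX m x| ≤ 10) :
    ms m (x jl).re ^ 8 ≤ 256 * mu m ^ 8 ∧ ms m (x jl).re ^ 4 ≤ 16 * mu m ^ 4 := by
  have h1 := ms_le_two hm h
  have hp := (ms_pos m (x jl).re).le
  exact ⟨(pow_le_pow_left₀ hp h1 8).trans_eq (by ring), (pow_le_pow_left₀ hp h1 4).trans_eq (by ring)⟩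

theorem id0_small {m : ℕ} (hμ : 2560000 * mu m ≤ 1) {A B : ℝ} (hA : 0 ≤ A)
    (h : A + aa m * B ≤ 25600 * mu m ^ 8) : B ≤ 1 / 100 := by
  have hp := mu_pos m
  have h7 : 0 < mu m ^ 7 := by positivity
  have : mu m ^ 7 * B ≤ mu m ^ 7 * (1 / 100) := by
    rw [aa] at h; linarith only [mul_le_mul_of_nonneg_left hμ h7.le, hA, h]
  exact le_of_mul_le_mul_left this h7

theorem id0_sup_le {m : ℕ} (k : Wd m) (X T : ℝ) (l : Fin (kk m)) :
    min (min (50 * (T - t0 l - 2)) (50 * (t0 l + 7 - T))) (-10 * sn (k l) * X) ≤ gw m k X T :=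
  (le_ciSup (f := fun l => min (min (50 * (T - t0 l - 2)) (50 * (t0 l + 7 - T)))
    (-10 * sn (k l) * X)) (Finite.bddAbove_range _) l).trans
    ((le_max_right _ _).trans (le_max_right _ _))

theorem id0_reg : ∀ᶠ m : ℕ in atTop, ∀ (k : Wd m) (x : EE), Chw m k x →
    |XX m x| < 4 ∧ -3 / 2 < TT m x ∧ TT m x < Tend m + 1 / 2 ∧
    (∀ l : Fin (kk m), t0 l + 1 ≤ TT m x → TT m x ≤ t0 l + 9 → 1 < |XX m x|) ∧
    ∀ l, t0 l + 21 / 10 ≤ TT m x → TT m x ≤ t0 l + 8 → 1 < sn (k l) * XX m x := by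
  filter_upwards [ev_mu' 2560000 0, S0_mem] with m hμ hS k x ⟨hV, hg, hΦ⟩
  simp only [pow_zero, mul_one] at hμ
  have hB := id0_small hμ (add_nonneg (id0_ysq x) (id0_Xi x)) hΦ
  have he := Finset.sum_nonneg fun l (_ : l ∈ Finset.univ) => id0_eta m k l (XX m x) (TT m x)
  have hW := id0_wall_nonneg m (XX m x) (TT m x)
  have hSe : (∑ l, etaR m k l (XX m x) (TT m x)) / 2 ≤ S0 m * ∑ l, etaR m k l (XX m x) (TT m x) := by
    linarith only [mul_le_mul_of_nonneg_right hS.1 he]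
  have hw := sq_nonneg ‖ww m k x‖
  have hW1 : Wall m (XX m x) (TT m x) < 1 := by linarith only [hB, he, hSe, hw]
  have hg' := hg
  simp only [gw, max_lt_iff] at hg'
  obtain ⟨⟨g1, g2⟩, g3, -⟩ := hg'
  have isl : ∀ l : Fin (kk m), t0 l + 1 ≤ TT m x → TT m x ≤ t0 l + 9 → 1 < |XX m x| :=
    fun l a b => lt_of_not_ge fun c => hW1.not_ge (id0_wall_isl l c a b)
  refine ⟨lt_of_not_ge fun c => hW1.not_ge (id0_wall_lat c (by linarith only [g2]) (by linarith only [g1]) (by linarith only [g3])),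
    by linarith only [g1], lt_of_not_ge fun c => hW1.not_ge (id0_wall_end (by linarith only [g2]) c (by linarith only [g3])), isl,
    fun l a b => ?_⟩
  have h1 := isl l (by linarith only [a]) (by linarith only [b])
  have h2 : 1 < |sn (k l) * XX m x| := by
    rcases id0_sn (k l) with e | e <;> simpa [e] using h1
  by_contra hc
  have h3 : sn (k l) * XX m x < -1 := by
    rcases lt_abs.1 h2 with c | c
    · exact absurd c hc
    · linarith only [c]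
  have h4 := (id0_sup_le k (XX m x) (TT m x) l).trans_lt hg
  simp only [min_lt_iff] at h4
  have h5 : t0 l + 69 / 10 < TT m x := by
    rcases h4 with (c | c) | c <;> linarith only [a, c, h3]
  have hm2 : (0 : ℝ) ≤ (m : ℝ) ^ 2 := by positivity
  have e1 := half_le_lg (t := m ^ 2 * (TT m x - t0 l - 63 / 10)) (mul_nonneg hm2 (by linarith only [h5]))
  have e2 := half_le_lg (t := -(m ^ 2 * (TT m x - t0 l - 8))) (by nlinarith only [b])
  have e3 := half_le_lg (t := -(sn (k l) * m ^ 2 * XX m x)) (by nlinarith only [h3])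
  have e4 : 1 / 2 * (1 / 2) * (1 / 2) ≤ etaR m k l (XX m x) (TT m x) :=
    mul_le_mul (mul_le_mul e1 e2 (by norm_num) (lg_pos _).le) e3 (by norm_num)
      (mul_nonneg (lg_pos _).le (lg_pos _).le)
  have e5 := Finset.single_le_sum
    (fun l (_ : l ∈ Finset.univ) => id0_eta m k l (XX m x) (TT m x)) (Finset.mem_univ l)
  linarith only [hB, hW, hSe, hw, e4, e5]

theorem id0_Tend (m : ℕ) : 2 ≤ Tend m := by
  rw [Tend]; linarith [(Nat.cast_nonneg (kk m) : (0 : ℝ) ≤ kk m)]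

/-- what `Wall < 1` excludes -/
theorem wall_lt {m : ℕ} {X T : ℝ} (h : Wall m X T < 1) :
    (|X| ≤ 8 → -5 / 2 ≤ T → T ≤ Tend m + 9 / 2 → |X| < 4 ∧ T < Tend m + 1 / 2) ∧
      ∀ l : Fin (kk m), t0 l + 1 ≤ T → T ≤ t0 l + 9 → 1 < |X| :=
  ⟨fun a b c => ⟨lt_of_not_ge fun d => h.not_ge (id0_wall_lat d a b c),
    lt_of_not_ge fun d => h.not_ge (id0_wall_end a d c)⟩,
    fun l a b => lt_of_not_ge fun c => h.not_ge (id0_wall_isl l c a b)⟩

theorem wall_far {m : ℕ} {X T : ℝ} (h : 9 ≤ |X|) : Wall m X T = 0 := by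
  have a1 : 81 ≤ X ^ 2 := by rw [← sq_abs]; nlinarith only [h]
  rw [Wall, st_one (by norm_num) a1, st_one (a := 1) (by norm_num) (by linarith : 4 ≤ X ^ 2)]
  simp only [sub_self, zero_mul, one_div, Finset.sum_const_zero, add_zero]

theorem wall_early {m : ℕ} {X T : ℝ} (hT : T ≤ 0) (h : T ≤ -3 ∨ |X| ≤ 3) : Wall m X T = 0 := by
  have a1 : st 9 16 (X ^ 2) * st (-3) (-5 / 2) T = 0 := by
    rcases h with h | h
    · rw [st_zero (a := -3) (by norm_num) h, mul_zero]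
    · rw [st_zero (a := 9) (by norm_num) (by rw [← sq_abs]; nlinarith only [abs_nonneg X, h]), zero_mul]
  rw [Wall, a1, st_zero (a := Tend m) (by linarith only []) (by linarith [id0_Tend m]),
    Finset.sum_eq_zero fun l _ => by
      rw [st_zero (a := t0 l + 1 / 2) (by linarith) (by linarith [id0_t0 l]), mul_zero, zero_mul]]
  simp

theorem wall_good {m : ℕ} {k : Wd m} {X T : ℝ} (h : Good m k X T) : Wall m X T = 0 := by
  obtain ⟨h1, -, h3, h4⟩ := h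
  rw [Wall, st_zero (a := 9) (by norm_num) (by rw [← sq_abs]; nlinarith only [abs_nonneg X, h1]),
    st_zero (a := Tend m) (by linarith only []) h3, Finset.sum_eq_zero fun l _ => ?_]
  · simp
  by_cases a : T ≤ t0 l + 1 / 2
  · rw [st_zero (a := t0 l + 1 / 2) (by linarith only []) a, mul_zero, zero_mul]
  by_cases b : t0 l + 19 / 2 ≤ T
  · rw [st_one (a := t0 l + 9) (by linarith only []) b, sub_self, mul_zero]
  have c := h4 l (not_le.1 a) (not_le.1 b)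
  have d : 4 ≤ X ^ 2 := by rcases id0_sn (k l) with e | e <;> rw [e] at c <;> nlinarith only [c]
  rw [st_one (a := 1) (by norm_num) d, sub_self, zero_mul, zero_mul]

/-- For `t0 + 21 / 10 ≤ T ≤ t0 + 69 / 10` use `gw < 5`, for `t0 + 63 / 10 ≤ T ≤ t0 + 8` on the wrong
side `1 / 8 ≤ etaR`. -/
theorem chw_geo : ∀ᶠ m : ℕ in atTop, ∀ (k : Wd m) (x : EE), Chw m k x →
    |XX m x| < 4 ∧ -3 / 2 < TT m x ∧ TT m x < Tend m + 1 / 2 ∧
    (∀ l : Fin (kk m), t0 l + 1 ≤ TT m x → TT m x ≤ t0 l + 9 → 1 < |XX m x|) ∧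
    (∀ l, t0 l + 21 / 10 ≤ TT m x → TT m x ≤ t0 l + 8 → 1 < sn (k l) * XX m x) ∧
    ‖ww m k x‖ ^ 2 ≤ 25600 * mu m := by
  filter_upwards [id0_reg, S0_mem] with m hr hS k x hx
  obtain ⟨a, b, c, d, e⟩ := hr k x hx
  refine ⟨a, b, c, d, e, ?_⟩
  have hΦ := hx.2.2
  have h7 : 0 < mu m ^ 7 := pow_pos (mu_pos m) 7
  have he := mul_nonneg (by linarith only [hS.1] : 0 ≤ S0 m)
    (Finset.sum_nonneg fun l (_ : l ∈ Finset.univ) => id0_eta m k l (XX m x) (TT m x))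
  have h1 := mul_nonneg h7.le (add_nonneg (id0_wall_nonneg m (XX m x) (TT m x)) he)
  rw [Phw, aa, mul_add] at hΦ
  refine le_of_mul_le_mul_left ?_ h7
  calc mu m ^ 7 * ‖ww m k x‖ ^ 2 ≤ 25600 * mu m ^ 8 := by linarith only [id0_ysq x, id0_Xi x, hΦ, h1]
    _ = _ := by ring

/-- before the first ramp, and where `th = 0`, no node is active -/
theorem psi_idle {m : ℕ} {x : EE} (h : TT m x ≤ 8 / 5 ∨ 7 ≤ |XX m x| ∨ Tend m + 7 / 2 ≤ TT m x) :
    Psi m x = chi (XX m x) ^ 2 * Qf x + Wall m (XX m x) (TT m x) := by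
  have key (ν : Nd m) : cw m ν x * NN m ν x = 0 ∧ cw m ν x * Pn m ν x = 0 := by
    rcases h with h | h
    · have t := id0_t0 ν.1
      have c : Cf m ν x = 0 := by
        rw [Cf, st_zero (a := t0 ν.1 + 8 / 5) (by linarith) (by linarith only [h, t]),
          st_zero (a := t0 ν.1 + 5) (by linarith) (by linarith)]
        simp
      have b : bl m ν x = 0 := by
        rw [bl, st_zero (a := t0 ν.1 + 28 / 5) (by linarith only []) (by linarith)]
        simp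
      have p : Pn m ν x = 0 := by
        rw [Pn, st_zero (a := t0 ν.1 + 4) (by linarith only []) (by linarith), zero_mul]
      simp [NN, c, b, p]
    · have t : th m (XX m x) (TT m x) = 0 := by
        rcases h with h | h
        · rw [th, st_one (a := 25) (by norm_num) (by rw [← sq_abs]; nlinarith only [h]), sub_self, zero_mul]
        · rw [th, st_one (a := Tend m + 3 / 2) (by linarith only []) h, sub_self, mul_zero]
      simp [cw, t]
  rw [Psi, Psi0, Psi1, Finset.sum_eq_zero fun ν _ => (key ν).1,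
    Finset.sum_eq_zero fun ν _ => (key ν).2, mul_zero, add_zero, add_zero]

theorem out_geo : Big fun m0 m => ∀ x ∈ (tdm m0 m).Cop none 5,
    (TT m x < 3 / 2 ∨ 8 < |XX m x| ∨ Tend m + 9 / 2 < TT m x) ∧
      (|XX m x| ≤ 10 → Wall m (XX m x) (TT m x) < 1) := by
  refine (Big.of_ev ((ev_mu' 2560000 0).and (eventually_gt_atTop 0))).mono
    fun m0 m _ ⟨hμ, hm⟩ x hx => ?_
  simp only [pow_zero, mul_one] at hμ
  obtain ⟨-, -, hΦ, hg⟩ := id0_cop hx
  change Pho m x < _ at hΦ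
  change gout m (XX m x) (TT m x) < 5 at hg
  simp only [gout, min_lt_iff] at hg
  have hW (h : |XX m x| ≤ 10) : Wall m (XX m x) (TT m x) < 1 := by
    have hΦ' : Pho m x ≤ 25600 * mu m ^ 8 := by linarith only [(id0_ms8 hm h).1, hΦ]
    have hB := id0_small hμ (add_nonneg (id0_ysq x) (id0_Xi x)) hΦ'
    have hw : 0 ≤ chi (XX m x) ^ 2 * ‖x jw‖ ^ 2 := by positivity
    linarith only [hB, hw]
  refine ⟨?_, hW⟩
  by_contra hc
  simp only [not_or, not_lt] at hc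
  obtain ⟨a, b⟩ := (wall_lt (hW (by linarith only [hc.2.1]))).1 hc.2.1 (by linarith only [hc.1]) hc.2.2
  rcases hg with (c | c) | c <;> linarith only [hc.1, a, c, b]


end Pool.Agent.MP_bea40e_an.Iv

end
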