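import Pool.Agent.MP_bea40e_an.Mg.InfE

attribute [-instance] AddQuantale.instAddLeftMono IdemSemiring.toCanonicallyOrderedAdd
  NumberField.to_charZero AddQuantale.instAddRightMono Quantale.instMulRightMono
  IdemSemiring.toMulLeftMono RKHS.instFunLike LinearOrderedCommMonoidWithZero.toPosMulStrictMono
  IsOrderedMonoid.toMulLeftMono Quantale.instMulLeftMono IsScalarTower.complexToReal
  GrpTypeEquivalenceGrp.grpGroup instCoeTOfCoeDep Unique.instSubsingleton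
  MonTypeEquivalenceMon.monMonoid instCoeHTCTOfCoeTailOfCoeHTC

section

open Filter Topology Set Metric Complex
open scoped ContDiff ComplexConjugate

namespace Pool.Agent.MP_bea40e_an.Iv

/-! Smoothness of the defining function. -/

theorem box_one {x : EE} (h : ‖x‖ ≤ 3) : box x = 1 := by
  unfold box
  refine Finset.prod_eq_one fun j _ => ?_
  have h1 : ‖x j‖ ≤ 3 := (norm_le_pi_norm x j).trans h
  rw [st_zero (by norm_num) (by nlinarith only [norm_nonneg (x j), h1]), sub_zero]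

theorem box_one_ev {x : EE} (h : ‖x‖ < 3) : box =ᶠ[𝓝 x] fun _ => 1 := by
  filter_upwards [(isOpen_lt continuous_norm continuous_const).mem_nhds h] with y hy
  exact box_one (le_of_lt hy)

theorem sm1_fine_zero (m : ℕ) {x : EE} (h : x ∉ closedBall (0 : EE) 5) :
    fine m =ᶠ[𝓝 x] fun _ => 0 := by
  have h1 : (5 : ℝ) < ‖x‖ := by simpa using h
  filter_upwards [(isOpen_lt continuous_const continuous_norm).mem_nhds h1] with y hy
  have h2 : ¬ ∀ j, ‖y j‖ ≤ 5 := fun h3 =>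
    absurd ((pi_norm_le_iff_of_nonneg (by norm_num)).2 h3) (not_le.2 hy)
  obtain ⟨j, hj⟩ := not_forall.1 h2
  have h3 : box y = 0 := by
    unfold box
    refine Finset.prod_eq_zero (Finset.mem_univ j) ?_
    rw [st_one (by norm_num) (by nlinarith only [hj]), sub_self]
  simp [fine, h3]

theorem sm1_aa_pos (m : ℕ) : 0 < aa m := by
  unfold aa mu
  positivity

theorem sm1_summable (N : ℕ) : Summable fun m : ℕ => aa m * Real.exp m * (m : ℝ) ^ N := by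
  refine (Real.summable_pow_mul_exp_neg_nat_mul N (r := 62) (by norm_num)).congr fun m => ?_
  unfold aa mu
  rw [← Real.exp_nat_mul, ← Real.exp_add, mul_comm]
  congr 2
  push_cast
  ring

theorem sm1_tail {v : ℕ → ℝ} (hv : Summable v) (h0 : ∀ m, 0 ≤ v m) {δ : ℝ} (hδ : 0 < δ) :
    ∀ᶠ m0 : ℕ in atTop, ∑' m, (if m0 ≤ m then v m else 0) ≤ δ := by
  have h := tendsto_tsum_of_dominated_convergence (𝓕 := atTop)
    (f := fun (m0 m : ℕ) => if m0 ≤ m then v m else 0) (g := fun _ => (0 : ℝ)) hv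
    (fun m => tendsto_const_nhds.congr' (by
      filter_upwards [eventually_gt_atTop m] with m0 hm
      rw [if_neg (not_le.2 hm)]))
    (Eventually.of_forall fun m0 m => by
      split_ifs
      · rw [Real.norm_of_nonneg (h0 m)]
      · simpa only [norm_zero] using h0 m)
  rw [tsum_zero] at h
  exact h.eventually (ge_mem_nhds hδ)

/-- off the ball of radius `4` the function `box` vanishes near the point -/
theorem fine_bound : ∃ M : ℕ, (∀ m, M ≤ m → ContDiff ℝ ∞ (fine m)) ∧ ∀ k : ℕ, ∃ N : ℕ, ∀ m, M ≤ m →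
    ∀ x, ‖iteratedFDeriv ℝ k (fine m) x‖ ≤ aa m * Real.exp m * m ^ N := by
  have hc : Tame id (fun _ => closedBall (0 : EE) 5) fun (m : ℕ) (_ : EE) => Real.exp (-m) :=
    tame_const (M := 0) (N := 0) fun m _ => by
      rw [pow_zero, Real.norm_of_nonneg (Real.exp_pos _).le, Real.exp_le_one_iff]
      simp only [Left.neg_nonpos_iff, Nat.cast_nonneg]
  obtain ⟨M, h1, h2⟩ := tame_box.mul ((hc.mul tame_Psi0).add tame_Psi1)
  have e : ∀ m : ℕ, fine m = (aa m * Real.exp m) •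
      fun x => box x * (Real.exp (-m) * Psi0 m x + Psi1 m x) := by
    intro m
    funext x
    have h3 : Real.exp m * Real.exp (-m) = 1 := by rw [← Real.exp_add]; simp
    simp only [fine, Psi, Pi.smul_apply, smul_eq_mul]
    linear_combination (-(aa m * box x * Psi0 m x)) * h3
  refine ⟨M, fun m hm => contDiff_iff_contDiffAt.2 fun x => ?_, fun k => ?_⟩
  · by_cases hx : x ∈ closedBall (0 : EE) 5
    · rw [e]
      exact (h1 m hm x hx).const_smul (aa m * Real.exp m)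
    · exact contDiffAt_const.congr_of_eventuallyEq (sm1_fine_zero m hx)
  · obtain ⟨N, hN⟩ := h2 k
    refine ⟨N, fun m hm x => ?_⟩
    have hp : 0 < aa m * Real.exp m := mul_pos (sm1_aa_pos m) (Real.exp_pos _)
    by_cases hx : x ∈ closedBall (0 : EE) 5
    · rw [e, iteratedFDeriv_const_smul_apply ((h1 m hm x hx).of_le (by exact_mod_cast le_top)),
        norm_smul, Real.norm_of_nonneg hp.le]
      exact mul_le_mul_of_nonneg_left (hN m hm x hx) hp.le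
    · rw [((sm1_fine_zero m hx).iteratedFDeriv ℝ k).self_of_nhds]
      simp only [iteratedFDeriv_fun_zero, Pi.zero_apply, norm_zero]
      positivity

theorem fine_le : ∃ N : ℕ, ∀ᶠ m : ℕ in atTop, ∀ x, |fine m x| ≤ aa m * Real.exp m * m ^ N := by
  obtain ⟨M, -, h⟩ := fine_bound
  obtain ⟨N, hN⟩ := h 0
  refine ⟨N, ?_⟩
  filter_upwards [eventually_ge_atTop M] with m hm x
  simpa only [norm_iteratedFDeriv_zero, Real.norm_eq_abs] using hN m hm x

theorem sm1_terms : ∃ (M : ℕ) (N : ℕ → ℕ), ∀ m0, M ≤ m0 → ∀ m,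
    ContDiff ℝ ∞ (fun x => if m0 ≤ m then fine m x else 0) ∧ ∀ k x,
      ‖iteratedFDeriv ℝ k (fun x => if m0 ≤ m then fine m x else 0) x‖ ≤
        if m0 ≤ m then aa m * Real.exp m * (m : ℝ) ^ N k else 0 := by
  obtain ⟨M, h1, h2⟩ := fine_bound
  choose N hN using h2
  refine ⟨M, N, fun m0 h0 m => ?_⟩
  by_cases hm : m0 ≤ m
  · simp only [hm, if_true]
    exact ⟨h1 m (h0.trans hm), fun k x => hN k m (h0.trans hm) x⟩
  · simp only [hm, if_false]
    exact ⟨contDiff_const, fun k x => by simp⟩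

theorem sm1_summable' (N m0 : ℕ) :
    Summable fun m : ℕ => if m0 ≤ m then aa m * Real.exp m * (m : ℝ) ^ N else 0 := by
  have hp : ∀ m : ℕ, 0 ≤ aa m * Real.exp m * (m : ℝ) ^ N := fun m => by
    have := sm1_aa_pos m
    positivity
  refine Summable.of_nonneg_of_le (fun m => ?_) (fun m => ?_) (sm1_summable N)
  · split_ifs
    · exact hp m
    · exact le_rfl
  · split_ifs
    · exact le_rfl
    · exact hp m

/-- `contDiff_tsum` -/
theorem FS_contDiff : ∀ᶠ m0 : ℕ in atTop, ContDiff ℝ ∞ (FS m0) := by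
  obtain ⟨M, N, h⟩ := sm1_terms
  filter_upwards [eventually_ge_atTop M] with m0 h0
  exact contDiff_tsum (N := ⊤) (fun m => (h m0 h0 m).1) (fun k _ => sm1_summable' (N k) m0)
    fun k m x _ => (h m0 h0 m).2 k x

theorem sm1_co (j : J) : ContDiff ℝ ∞ fun x : EE => x j := contDiff_apply ℝ ℂ j

theorem sm1_re (j : J) : ContDiff ℝ ∞ fun x : EE => (x j).re := reCLM.contDiff.comp (sm1_co j)

theorem sm1_im (j : J) : ContDiff ℝ ∞ fun x : EE => (x j).im := imCLM.contDiff.comp (sm1_co j)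

theorem sm1_sq (j : J) : ContDiff ℝ ∞ fun x : EE => ‖x j‖ ^ 2 := (sm1_co j).norm_sq ℂ

theorem HH_contDiff : ContDiff ℝ ∞ fun x : EE => HH (qq x) (x jl).re := by
  have h1 : ContDiff ℝ ∞ fun x : EE => qq x - 1 := (sm1_sq js).sub contDiff_const
  have h2 : ContDiff ℝ ∞ fun x : EE => st (-LL / 2) (-2 * LL / 5) (x jl).re :=
    (st_contDiff _ _).comp (sm1_re jl)
  exact (h1.pow 2).mul (h2.add ((contDiff_const.sub h2).mul
    (Real.smoothTransition.contDiff.comp (h1.div_const _))))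

theorem Xi_contDiff : ContDiff ℝ ∞ Xi := by
  refine (((kap_contDiff.comp ((sm1_sq jw).sub contDiff_const)).add
    (ContDiff.sum fun j _ => kap_contDiff.comp ((sm1_sq (jv j)).sub contDiff_const))).add
    (kap_contDiff.comp ((((sm1_re jl).pow 2).sub contDiff_const).div_const _))).add
    (kap_contDiff.comp ((((sm1_re jo).pow 2).sub contDiff_const).div_const _))

theorem base_contDiff : ContDiff ℝ ∞ base := by
  have h1 : ContDiff ℝ ∞ fun x : EE => (x js * x jz).re :=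
    reCLM.contDiff.comp ((sm1_co js).mul (sm1_co jz))
  have h2 : ContDiff ℝ ∞ ysq := ((sm1_im jl).pow 2).add ((sm1_im jo).pow 2)
  exact ((((h1.add ((sm1_sq jz).div_const _)).add HH_contDiff).add h2).add Xi_contDiff).sub
    (sl_contDiff.comp (sm1_re jl))

theorem rr_contDiff : ∀ᶠ m0 : ℕ in atTop, ContDiff ℝ ∞ (rr m0) := by
  filter_upwards [FS_contDiff] with m0 h
  exact base_contDiff.add h

/-- `fderiv_tsum_apply`, tails of a convergent series -/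
theorem FS_small {δ : ℝ} (hδ : 0 < δ) :
    ∀ᶠ m0 : ℕ in atTop, ∀ x, |FS m0 x| ≤ δ ∧ ‖fderiv ℝ (FS m0) x‖ ≤ δ := by
  obtain ⟨M, N, h⟩ := sm1_terms
  have hp : ∀ (n m : ℕ), 0 ≤ aa m * Real.exp m * (m : ℝ) ^ n := fun n m => by
    have := sm1_aa_pos m
    positivity
  filter_upwards [eventually_ge_atTop M, sm1_tail (sm1_summable (N 0)) (hp _) hδ,
    sm1_tail (sm1_summable (N 1)) (hp _) hδ] with m0 h0 t0 t1 x
  have b0 : ∀ m y, ‖(if m0 ≤ m then fine m y else 0)‖ ≤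
      if m0 ≤ m then aa m * Real.exp m * (m : ℝ) ^ N 0 else 0 := fun m y => by
    have := (h m0 h0 m).2 0 y
    rwa [norm_iteratedFDeriv_zero] at this
  have b1 : ∀ m y, ‖fderiv ℝ (fun y => if m0 ≤ m then fine m y else 0) y‖ ≤
      if m0 ≤ m then aa m * Real.exp m * (m : ℝ) ^ N 1 else 0 := fun m y => by
    have := (h m0 h0 m).2 1 y
    rwa [norm_iteratedFDeriv_one] at this
  refine ⟨?_, ?_⟩
  · exact (tsum_of_norm_bounded (sm1_summable' (N 0) m0).hasSum fun m => b0 m x).trans t0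
  · have e := fderiv_tsum_apply (sm1_summable' (N 1) m0)
      (fun m => (h m0 h0 m).1.differentiable (by simp)) b1
      (Summable.of_norm_bounded (sm1_summable' (N 0) m0) fun m => b0 m x) x
    change ‖fderiv ℝ (fun y => ∑' m, if m0 ≤ m then fine m y else 0) x‖ ≤ δ
    rw [e]
    exact (tsum_of_norm_bounded (sm1_summable' (N 1) m0).hasSum fun m => b1 m x).trans t1


end Pool.Agent.MP_bea40e_an.Iv

end

section

open Filter Topology Set Metric Complex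
open scoped ContDiff ComplexConjugate

namespace Pool.Agent.MP_bea40e_an.Iv

/-! The windows of different scales are disjoint. -/

theorem Psi_far {m : ℕ} {x : EE} (h : 12 ≤ |XX m x|) : Psi m x = 0 := by
  have h1 : 144 ≤ XX m x ^ 2 := by
    rw [← sq_abs]
    nlinarith only [h]
  have h2 : ∀ {a b : ℝ}, a < b → b ≤ 144 → 1 - st a b (XX m x ^ 2) = 0 := fun hab hb => by
    rw [st_one hab (hb.trans h1), sub_self]
  have h3 : ∀ ν, cw m ν x = 0 := fun ν => by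
    rw [cw, th, h2 (by norm_num) (by norm_num), zero_mul, mul_zero]
  simp only [Psi, Psi0, Psi1, h3, chi, Wall, h2 (by norm_num : (121 : ℝ) < 144) le_rfl,
    h2 (by norm_num : (64 : ℝ) < 81) (by norm_num), h2 (by norm_num : (1 : ℝ) < 4) (by norm_num),
    zero_mul, Finset.sum_const_zero, mul_zero, add_zero, zero_pow two_ne_zero]

theorem fine_far {m : ℕ} {x : EE} (h : 12 ≤ |XX m x|) : fine m x = 0 := by
  rw [fine, Psi_far h, mul_zero, mul_zero]

theorem sm2_gap {a b : ℕ} (ha : 8000 ≤ a) (hab : a < b) :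
    1 / (300 * (a : ℝ) ^ 2) + 26 / (a : ℝ) ^ 3 < lc b - lc a := by
  have h1 : (8000 : ℝ) ≤ a := by exact_mod_cast ha
  have h2 : (a : ℝ) + 1 ≤ b := by exact_mod_cast hab
  have h3 : 1 / (117 * (b : ℝ)) ≤ 1 / (117 * ((a : ℝ) + 1)) := by gcongr
  have h4 : 1 / (300 * (a : ℝ) ^ 2) + 26 / (a : ℝ) ^ 3 <
      1 / (117 * (a : ℝ)) - 1 / (117 * ((a : ℝ) + 1)) := by
    have e1 : 1 / (117 * (a : ℝ)) - 1 / (117 * ((a : ℝ) + 1)) = 1 / (117 * a * (a + 1)) := by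
      field_simp
      ring
    have e2 : 1 / (300 * (a : ℝ) ^ 2) + 26 / (a : ℝ) ^ 3 = (a + 7800) / (300 * (a : ℝ) ^ 3) := by
      field_simp
      ring
    rw [e1, e2, div_lt_div_iff₀ (by positivity) (by positivity)]
    have h5 : 117 * ((a : ℝ) + 7800) * (a + 1) < 300 * a ^ 2 := by nlinarith only [h1]
    nlinarith only [h5]
  simp only [lc, neg_div]
  linarith only [h3, h4]

theorem sm2_abs {m : ℕ} (hm : 0 < m) (t : ℝ) : |Xr m t| = |t - lc m| * m ^ 3 := by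
  rw [Xr, abs_mul, abs_of_pos (a := (m : ℝ) ^ 3) (by positivity)]

theorem sm2_win {δ : ℝ} (hδ : 0 < δ) : ∀ᶠ m : ℕ in atTop, ∀ t, |Xr m t| ≤ 13 → -δ < t := by
  filter_upwards [eventually_ge_atTop 1, tendsto_natCast_atTop_atTop.eventually_gt_atTop (14 / δ)]
    with m hm h1 t ht
  have h2 : (1 : ℝ) ≤ m := by exact_mod_cast hm
  rw [sm2_abs hm, ← le_div_iff₀ (by positivity)] at ht
  have h3 : 13 / (m : ℝ) ^ 3 ≤ 13 / m := by
    gcongr
    exact le_self_pow₀ h2 (by norm_num)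
  have h4 : 1 / (117 * (m : ℝ)) ≤ 1 / m := by
    gcongr
    linarith only [h2]
  have h5 : 14 / (m : ℝ) < δ := by
    rw [div_lt_iff₀ (by positivity)]
    rw [div_lt_iff₀ hδ] at h1
    linarith only [h1]
  have h6 := (abs_le.1 ht).1
  have h7 : 14 / (m : ℝ) = 13 / m + 1 / m := by ring
  simp only [lc, neg_div] at h6
  linarith only [h3, h4, h5, h7, h6]

theorem sm2_cont (m : ℕ) : Continuous (XX m) := by
  unfold XX Xr
  fun_prop

theorem sm2_zero {m0 : ℕ} {x : EE} (h : ∀ m, m0 ≤ m → 12 ≤ |XX m x|) : FS m0 x = 0 := by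
  have : ∀ m, (if m0 ≤ m then fine m x else 0) = 0 := fun m => by
    split_ifs with hm
    exacts [fine_far (h m hm), rfl]
  simp only [FS, this, tsum_zero]

/-- `lc (m + 1) - lc m = 1 / (117 m (m + 1))` -/
theorem win_gap : Big fun m0 m => ∀ m', m0 ≤ m' → m' ≠ m → ∀ t, |Xr m' t| ≤ 13 →
    13 < |Xr m t| ∧ 1 / (300 * (m' : ℝ) ^ 2) ≤ ms m t := by
  refine ⟨8000, fun m0 h0 m hm m' hm' hne t ht => ?_⟩
  have p1 : 0 < m := by omega
  have p2 : 0 < m' := by omega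
  have q1 : (0 : ℝ) < m := by exact_mod_cast p1
  have q2 : (0 : ℝ) < m' := by exact_mod_cast p2
  rw [sm2_abs p2, ← le_div_iff₀ (by positivity)] at ht
  have key : 1 / (300 * (m' : ℝ) ^ 2) + 13 / (m : ℝ) ^ 3 < |t - lc m| := by
    have e : ∀ a : ℝ, 26 / a ^ 3 = 13 / a ^ 3 + 13 / a ^ 3 := fun a => by ring
    rcases lt_or_gt_of_ne hne with h | h
    · have a1 := sm2_gap (h0.trans hm') h
      have a2 : 13 / (m : ℝ) ^ 3 ≤ 13 / (m' : ℝ) ^ 3 := by
        gcongr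
      have a3 := neg_abs_le (t - lc m)
      linarith only [(abs_le.1 ht).2, e m', a1, a2, a3]
    · have a1 := sm2_gap (h0.trans hm) h
      have a2 : 13 / (m' : ℝ) ^ 3 ≤ 13 / (m : ℝ) ^ 3 := by
        gcongr
      have a4 : 1 / (300 * (m' : ℝ) ^ 2) ≤ 1 / (300 * (m : ℝ) ^ 2) := by
        gcongr
      have a3 := le_abs_self (t - lc m)
      linarith only [(abs_le.1 ht).1, e m, a1, a2, a4, a3]
  have b1 : 0 < 1 / (300 * (m' : ℝ) ^ 2) := by positivity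
  have b2 : 10 / (m : ℝ) ^ 3 ≤ 13 / (m : ℝ) ^ 3 := by
    gcongr
    norm_num
  refine ⟨?_, by linarith only [ms_ge m t, mu_pos m, key, b2]⟩
  rw [sm2_abs p1, ← div_lt_iff₀ (by positivity)]
  linarith only [key, b1]

theorem FS_win : Big fun m0 m => ∀ x, |XX m x| < 13 → FS m0 =ᶠ[𝓝 x] fine m := by
  obtain ⟨M, hM⟩ := win_gap
  refine ⟨M, fun m0 h0 m hm x hx => ?_⟩
  filter_upwards [(sm2_cont m).abs.continuousAt.eventually_lt continuousAt_const hx] with y hy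
  rw [FS, tsum_eq_single m, if_pos hm]
  intro m' hne
  split_ifs with hm'
  · exact fine_far (le_trans (by norm_num) (hM m0 h0 m' hm' m hm hne.symm _ hy.le).1.le)
  · rfl

theorem FS_left : ∀ᶠ m0 : ℕ in atTop, ∀ x : EE, (x jl).re ≤ -LL / 8 →
    FS m0 =ᶠ[𝓝 x] fun _ => 0 := by
  have hL := LL_pos
  filter_upwards [eventually_forall_ge_atTop.2 (sm2_win (δ := LL / 16) (by positivity))]
    with m0 h0 x hx
  have hc : Continuous fun y : EE => (y jl).re := by fun_prop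
  filter_upwards [hc.continuousAt.eventually_lt (continuousAt_const (y := -(LL / 16)))
    (by linarith : (x jl).re < -(LL / 16))] with y hy
  refine sm2_zero fun m hm => not_lt.1 fun h => ?_
  exact (h0 m hm _ (h.le.trans (by norm_num))).not_gt hy

theorem FS_right : ∀ᶠ m0 : ℕ in atTop, ∀ x : EE, 0 < (x jl).re → FS m0 =ᶠ[𝓝 x] fun _ => 0 := by
  filter_upwards [eventually_forall_ge_atTop.2 win_sub] with m0 h0 x hx
  have hc : Continuous fun y : EE => (y jl).re := by fun_prop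
  filter_upwards [continuousAt_const.eventually_lt hc.continuousAt hx] with y hy
  refine sm2_zero fun m hm => not_lt.1 fun h => ?_
  exact (h0 m hm _ (h.le.trans (by norm_num))).2.not_gt hy

/-- only finitely many windows come close to a point with negative `lam` -/
theorem FS_cases : ∀ᶠ m0 : ℕ in atTop, ∀ x : EE, (∃ m, m0 ≤ m ∧ |XX m x| < 13) ∨
    (FS m0 =ᶠ[𝓝 x] fun _ => 0) ∨ (x jl).re = 0 := by
  filter_upwards [FS_right] with m0 h0 x
  rcases lt_trichotomy (x jl).re 0 with h | h | h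
  · refine or_iff_not_imp_left.2 fun hn => Or.inl ?_
    obtain ⟨M, hM⟩ := eventually_atTop.1 (sm2_win (δ := -(x jl).re / 2) (by linarith))
    have hc : Continuous fun y : EE => (y jl).re := by fun_prop
    have h1 : ∀ᶠ y in 𝓝 x, ∀ m ∈ Finset.range M, m0 ≤ m → 12 ≤ |XX m y| := by
      rw [eventually_all_finset]
      intro m _
      by_cases hm : m0 ≤ m
      · have h2 : 12 < |XX m x| := lt_of_lt_of_le (by norm_num) (not_lt.1 fun h3 => hn ⟨m, hm, h3⟩)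
        exact (continuousAt_const.eventually_lt (sm2_cont m).abs.continuousAt h2).mono
          fun y hy _ => hy.le
      · exact Eventually.of_forall fun y h2 => absurd h2 hm
    filter_upwards [h1, hc.continuousAt.eventually_lt (continuousAt_const (y := -(-(x jl).re / 2)))
      (by linarith : (x jl).re < -(-(x jl).re / 2))] with y hy1 hy2
    refine sm2_zero fun m hm => ?_
    rcases lt_or_ge m M with h2 | h2
    · exact hy1 m (Finset.mem_range.2 h2) hm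
    · exact not_lt.1 fun h3 => (hM m h2 _ (h3.le.trans (by norm_num))).not_gt hy2
  · exact Or.inr (Or.inr h)
  · exact Or.inr (Or.inl (h0 x h))

/-- the value of `FS` is the value of one scale or zero -/
theorem FS_val : ∀ᶠ m0 : ℕ in atTop, ∀ x : EE,
    (∃ m, m0 ≤ m ∧ |XX m x| < 12 ∧ FS m0 x = fine m x) ∨
      (FS m0 x = 0 ∧ ∀ m, m0 ≤ m → fine m x = 0) := by
  filter_upwards [FS_win.ev] with m0 h0 x
  by_cases h : ∃ m, m0 ≤ m ∧ |XX m x| < 12
  · obtain ⟨m, hm, hx⟩ := h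
    exact Or.inl ⟨m, hm, hx, (h0 m hm x (hx.trans (by norm_num))).self_of_nhds⟩
  · have h1 : ∀ m, m0 ≤ m → 12 ≤ |XX m x| := fun m hm => not_lt.1 fun h2 => h ⟨m, hm, h2⟩
    exact Or.inr ⟨sm2_zero h1, fun m hm => fine_far (h1 m hm)⟩

theorem FS_other : Big fun m0 m => ∀ x, |FS m0 x - fine m x| ≤ ms m (x jl).re ^ 13 / 40 := by
  obtain ⟨N, hN⟩ := fine_le
  have hs : ∀ᶠ m : ℕ in atTop, ∀ x, |fine m x| ≤ (1 / (300 * (m : ℝ) ^ 2)) ^ 13 / 40 := by
    filter_upwards [hN, ev_mu (40 * 300 ^ 13) (N + 26), eventually_ge_atTop 1] with m h1 h2 hm x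
    have h3 : (0 : ℝ) < m := by exact_mod_cast hm
    refine (h1 x).trans ?_
    have h4 : aa m ≤ mu m := pow_le_of_le_one (mu_pos m).le (mu_le_one m) (by norm_num)
    have h5 : Real.exp m ≤ Real.exp m ^ 8 := le_self_pow₀ (Real.one_le_exp h3.le) (by norm_num)
    have h6 := (mu_pos m).le
    calc aa m * Real.exp m * m ^ N ≤ mu m * Real.exp m ^ 8 * m ^ N := by gcongr
      _ = 40 * 300 ^ 13 * (m : ℝ) ^ (N + 26) * Real.exp m ^ 8 * mu m *
          ((1 / (300 * (m : ℝ) ^ 2)) ^ 13 / 40) := by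
        rw [pow_add]
        field_simp
      _ ≤ _ := mul_le_of_le_one_left (by positivity) h2
  refine ((win_gap.and (Big.of_ev0 FS_val)).and
    (Big.of_ev0 (eventually_forall_ge_atTop.2 hs))).mono fun m0 m hm h x => ?_
  obtain ⟨⟨h1, h2⟩, h3⟩ := h
  have h0 : 0 ≤ ms m (x jl).re ^ 13 / 40 := by
    have := ms_pos m (x jl).re
    positivity
  rcases h2 x with ⟨m', hm', hx, e⟩ | ⟨e1, e2⟩
  · by_cases hne : m' = m
    · rwa [e, hne, sub_self, abs_zero]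
    · obtain ⟨a1, a2⟩ := h1 m' hm' hne _ (hx.le.trans (by norm_num))
      rw [e, fine_far (m := m) (le_trans (by norm_num) a1.le), sub_zero]
      refine (h3 m' hm' x).trans ?_
      gcongr
  · rwa [e1, e2 m hm, sub_self, abs_zero]


end Pool.Agent.MP_bea40e_an.Iv

end

section

open Filter Topology Set Metric Complex
open scoped ContDiff ComplexConjugate

namespace Pool.Agent.MP_bea40e_an.Iv

/-! Crude consequences of smallness of the defining function. With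
`z' = z + Cz * conj s / 2` one has `(s * z).re + ‖z‖ ^ 2 / Cz = ‖z'‖ ^ 2 / Cz - Cz * q / 4`. -/

theorem bx_fac (q t : ℝ) : 0 ≤ st (-LL / 2) (-2 * LL / 5) t +
    (1 - st (-LL / 2) (-2 * LL / 5) t) * Real.smoothTransition ((q - 1) / LL ^ 10) ∧
    st (-LL / 2) (-2 * LL / 5) t +
      (1 - st (-LL / 2) (-2 * LL / 5) t) * Real.smoothTransition ((q - 1) / LL ^ 10) ≤ 1 := by
  have h1 := st_nonneg (-LL / 2) (-2 * LL / 5) t
  have h2 := st_le_one (-LL / 2) (-2 * LL / 5) t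
  have h3 := Real.smoothTransition.nonneg ((q - 1) / LL ^ 10)
  have h4 := Real.smoothTransition.le_one ((q - 1) / LL ^ 10)
  constructor <;> nlinarith only [h1, h3, h4, h2]

theorem HH_nonneg (q t : ℝ) : 0 ≤ HH q t := by
  have h := bx_fac q t
  exact mul_nonneg (sq_nonneg _) h.1

theorem HH_le (q t : ℝ) : HH q t ≤ (q - 1) ^ 2 := by
  exact mul_le_of_le_one_right (sq_nonneg _) (bx_fac q t).2

theorem HH_eq {q t : ℝ} (h : -2 * LL / 5 ≤ t ∨ LL ^ 10 ≤ q - 1) : HH q t = (q - 1) ^ 2 := by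
  have hL := LL_pos
  unfold HH
  rcases h with h | h
  · rw [st_one (by linarith only [hL]) h]
    ring
  · rw [Real.smoothTransition.one_of_one_le ((one_le_div (by positivity)).2 h)]
    ring

theorem HH_zero {q t : ℝ} (h : q = 1 ∨ (t ≤ -LL / 2 ∧ q ≤ 1)) : HH q t = 0 := by
  have hL := LL_pos
  unfold HH
  rcases h with h | h
  · rw [h]
    ring
  · rw [st_zero (by linarith) h.1, Real.smoothTransition.zero_of_nonpos
      (div_nonpos_of_nonpos_of_nonneg (by linarith only [h.2]) (by positivity))]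
    ring

theorem bx_re (x : EE) : -(‖x js‖ * ‖x jz‖) ≤ (x js * x jz).re := by
  have h := (abs_le.1 (abs_re_le_norm (x js * x jz))).1
  rwa [norm_mul] at h

theorem bx_low (m0 : ℕ) (x : EE) : ‖x jz‖ ^ 2 / (2 * Cz) + HH (qq x) (x jl).re + ysq x + Xi x ≤
    rr m0 x - FS m0 x + sl (x jl).re + Cz * qq x / 2 := by
  have hC := Cz_pos
  have h1 := bx_re x
  have h2 : ‖x js‖ * ‖x jz‖ ≤ ‖x jz‖ ^ 2 / (2 * Cz) + Cz * ‖x js‖ ^ 2 / 2 := by
    have : ‖x jz‖ ^ 2 / (2 * Cz) + Cz * ‖x js‖ ^ 2 / 2 - ‖x js‖ * ‖x jz‖ =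
        (‖x jz‖ - Cz * ‖x js‖) ^ 2 / (2 * Cz) := by
      field_simp
      ring
    have h3 : 0 ≤ (‖x jz‖ - Cz * ‖x js‖) ^ 2 / (2 * Cz) := by positivity
    linarith
  have h3 : ‖x jz‖ ^ 2 / Cz = 2 * (‖x jz‖ ^ 2 / (2 * Cz)) := by field_simp
  unfold rr base qq
  linarith

theorem crude : ∀ᶠ m0 : ℕ in atTop, ∀ x, rr m0 x ≤ 1 / 10 ^ 6 → ‖x‖ ≤ 2 ∧ qq x ≤ 11 / 10 ∧
    (x jl).re ^ 2 ≤ LL ^ 2 + LL ^ 3 / 8 ∧ |(x jl).re| ≤ 3 / 2 * LL ∧
    (-LL / 3 ≤ (x jl).re → |qq x - 1| ≤ 1 / 10) := by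
  filter_upwards [FS_small (δ := 1 / 10 ^ 6) (by norm_num)] with m0 hF x hx
  have h1 := bx_low m0 x
  have h2 := (abs_le.1 (hF x).1).1
  have h3 := sl_le (x jl).re
  have hC := Cz_pos
  have hC1 : Cz ≤ 1 / 1000 := by norm_num [Cz, LL]
  have hL := LL_pos
  have hL1 : LL ≤ 1 := by norm_num [LL]
  have hz : 0 ≤ ‖x jz‖ ^ 2 / (2 * Cz) := by positivity
  have hH := HH_nonneg (qq x) (x jl).re
  have hy : 0 ≤ ysq x := by unfold ysq; positivity
  have hX := Xi_nonneg x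
  have hq0 : 0 ≤ qq x := sq_nonneg _
  have hq : qq x ≤ 11 / 10 := by
    by_contra hq
    have h4 : LL ^ 10 ≤ 1 / 10 := by norm_num [LL]
    rw [HH_eq (Or.inr (by linarith only [hq, h4]))] at h1
    nlinarith only [hx, h1, h2, h3, hC1, hz, hy, hX, hq]
  have h5 : Cz * qq x ≤ 1 / 500 := by nlinarith only [hC, hC1, hq]
  obtain ⟨hw, hv, hl, ho⟩ := Xi_small (x := x) (by linarith)
  have hL2 : LL ^ 2 + LL ^ 3 / 8 ≤ (3 / 2 * LL) ^ 2 := by nlinarith only [hL1]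
  have hl' : |(x jl).re| ≤ 3 / 2 * LL := abs_le_of_sq_le_sq (hl.trans hL2) (by positivity)
  have ho' : |(x jo).re| ≤ 3 / 2 * LL := abs_le_of_sq_le_sq (ho.trans hL2) (by positivity)
  have hy1 : (x jl).im ^ 2 + (x jo).im ^ 2 ≤ (1 / 2) ^ 2 := by
    have : ysq x ≤ 1 / 4 := by linarith only [hx, h1, h2, h3, hC, hC1, hz, hH, hX, h5]
    unfold ysq at this
    linarith only [this]
  have hl2 : |(x jl).im| ≤ 1 / 2 :=
    abs_le_of_sq_le_sq (by linarith only [sq_nonneg (x jo).im, hy1]) (by norm_num)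
  have ho2 : |(x jo).im| ≤ 1 / 2 :=
    abs_le_of_sq_le_sq (by linarith only [sq_nonneg (x jl).im, hy1]) (by norm_num)
  have two : ∀ j, ‖x j‖ ^ 2 ≤ 4 → ‖x j‖ ≤ 2 := fun j h => by nlinarith only [h]
  refine ⟨norm_le_of_coord (two _ ?_) (two _ ?_) (two _ (by linarith only [hw])) ?_ ?_
    fun j => two _ (by linarith only [hv j, hC, hC1]), hq, hl, hl', fun h => ?_⟩
  · unfold qq at hq
    linarith only [hq]
  · have h6 : ‖x jz‖ ^ 2 / (2 * Cz) ≤ 1 := by linarith only [hx, h1, h2, h3, hC, hC1, hH, hy, hX, h5]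
    rw [div_le_one (by positivity)] at h6
    linarith only [hC, hC1, h6]
  · linarith only [norm_le_abs_re_add_abs_im (x jl), hL1, hl', hl2]
  · linarith only [norm_le_abs_re_add_abs_im (x jo), hL1, ho', ho2]
  · rw [HH_eq (Or.inl (by linarith only [hL, h]))] at h1
    exact abs_le_of_sq_le_sq (by linarith only [hx, h1, h2, h3, hC, hC1, hz, hy, hX, h5]) (by norm_num)

theorem ok_small : Big fun m0 m => ∀ x, |(tdm m0 m).lam x| ≤ 2 * (tdm m0 m).L →
    (tdm m0 m).c * (tdm m0 m).mm x ≤ 1 / 10 ^ 8 := by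
  refine (Big.of_ev ms_le_L).mono fun m0 m _ h x hx => ?_
  have h1 : ms m (x jl).re ≤ 3 * LL := h _ hx
  have h2 : (10 : ℝ) ^ 6 * (3 * LL) ≤ 1 / 10 ^ 8 := by norm_num [LL]
  change (10 : ℝ) ^ 6 * ms m (x jl).re ≤ 1 / 10 ^ 8
  linarith only [h1, h2]

theorem bx_bcl : Big fun m0 m => ∀ x ∈ (tdm m0 m).Bcl 220,
    rr m0 x ≤ 1 / 10 ^ 6 ∧ rr m0 x ≤ ms m (x jl).re ^ 8 / 4 := by
  refine (Big.of_ev ms_le_L).mono fun m0 m _ h x hx => ?_
  have hL := LL_pos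
  have h0 : rr m0 x ≤ 220 * (10 ^ 6 * ms m (x jl).re ^ 9) := hx.1
  have hl : |(x jl).re| ≤ 7 / 4 * LL := hx.2
  have h1 : ms m (x jl).re ≤ 3 * LL := h _ (by linarith only [hL, hl])
  have hp := ms_pos m (x jl).re
  have h2 : 3 * LL ≤ 1 / 10 ^ 9 := by norm_num [LL]
  have h3 : ms m (x jl).re ^ 8 ≤ (1 / 10 ^ 9) ^ 8 := pow_le_pow_left₀ hp.le (h1.trans h2) 8
  have h4 := pow_pos hp 8
  have h5 : rr m0 x ≤ ms m (x jl).re ^ 8 / 4 := by
    rw [pow_succ _ 8] at h0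
    nlinarith only [h0, h1, h2, h4]
  refine ⟨h5.trans ?_, h5⟩
  have : ((1 : ℝ) / 10 ^ 9) ^ 8 ≤ 1 / 10 ^ 6 := by norm_num
  linarith only [h3]

theorem bcl_small : Big fun m0 m => ∀ x ∈ (tdm m0 m).Bcl 220,
    rr m0 x ≤ 1 / 10 ^ 6 ∧ rr m0 x ≤ ms m (x jl).re ^ 8 := by
  refine bx_bcl.mono fun m0 m _ h x hx => ?_
  have h1 := h x hx
  have h2 := pow_pos (ms_pos m (x jl).re) 8
  exact ⟨h1.1, by linarith only [h1.2, h2]⟩

theorem ok_box : Big fun m0 m => ∀ x ∈ (tdm m0 m).Bcl 220,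
    |(tdm m0 m).lam x| ≤ 3 / 2 * (tdm m0 m).L ∧ ‖x‖ ≤ 2 := by
  refine (bcl_small.and (Big.of_ev0 crude)).mono fun m0 m _ h x hx => ?_
  have h1 := h.2 x (h.1 x hx).1
  exact ⟨h1.2.2.2.1, h1.1⟩

/-- `sl_le_Cz`, `FS_small` -/
theorem ok_box0 : Big fun m0 m => ∀ x, (tdm m0 m).r x < 0 →
    |(tdm m0 m).lam x| ≤ 3 / 2 * (tdm m0 m).L ∧ ‖x (tdm m0 m).iz‖ ≤ 3 / 2 * (tdm m0 m).Cz := by
  have hC := Cz_pos
  refine (Big.of_ev0 (crude.and (FS_small (δ := Cz / 100) (by positivity)))).mono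
    fun m0 m _ h x hx => ?_
  have hx : rr m0 x < 0 := hx
  obtain ⟨-, hq, -, hl, -⟩ := h.1 x (hx.le.trans (by norm_num))
  refine ⟨hl, ?_⟩
  change ‖x jz‖ ≤ 3 / 2 * Cz
  have hL := LL_pos
  have h1 := bx_re x
  have h2 := (abs_le.1 (h.2 x).1).1
  have h3 := sl_le_Cz (t := (x jl).re) (by linarith only [hl, hL])
  have hH := HH_nonneg (qq x) (x jl).re
  have hy : 0 ≤ ysq x := by unfold ysq; positivity
  have hX := Xi_nonneg x
  have hs : ‖x js‖ ≤ 11 / 10 := by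
    unfold qq at hq
    nlinarith only [hq]
  have hz := norm_nonneg (x jz)
  have h4 : ‖x jz‖ ^ 2 / Cz ≤ 11 / 10 * ‖x jz‖ + 11 / 100 * Cz := by
    unfold rr base at hx
    nlinarith only [hx, h1, h2, h3, hH, hy, hX, hs, hz]
  rw [div_le_iff₀ hC] at h4
  by_contra h5
  nlinarith only [hC, h4, h5]

theorem bx_left : Big fun m0 m => ∀ x : EE, (x jl).re ≤ -LL / 4 → rr m0 x ≤ 1 / 10 ^ 6 →
    rr m0 x ≤ ms m (x jl).re ^ 8 / 4 → ‖x‖ ≤ 2 ∧ |(x jl).re| ≤ 3 / 2 * LL ∧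
      ‖x jz‖ ≤ ms m (x jl).re ^ 8 / 2 ∧ qq x - 1 ≤ ms m (x jl).re ^ 4 ∧
      Pho m x ≤ ms m (x jl).re ^ 8 ∧ gout m (XX m x) (TT m x) < 1 := by
  refine ((Big.of_ev0 (crude.and FS_left)).and (Big.of_ev (ms_ge_L.and win_sub))).mono
    fun m0 m _ h x hl hr hr' => ?_
  obtain ⟨⟨hc, hF⟩, hge, hw⟩ := h
  have hL := LL_pos
  have hC := Cz_pos
  obtain ⟨hn, hq, -, hl', -⟩ := hc x hr
  have hF0 : FS m0 x = 0 := (hF x (by linarith only [hl, hL])).eq_of_nhds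
  have h1 := bx_low m0 x
  have h3 := sl_le_Cz (t := (x jl).re) (by linarith only [hL, hl'])
  have hz : 0 ≤ ‖x jz‖ ^ 2 / (2 * Cz) := by positivity
  have hH := HH_nonneg (qq x) (x jl).re
  have hy : 0 ≤ ysq x := by unfold ysq; positivity
  have hX := Xi_nonneg x
  have hp := ms_pos m (x jl).re
  have h8 : (LL / 8) ^ 8 ≤ ms m (x jl).re ^ 8 := pow_le_pow_left₀ (by positivity) (hge _ hl) 8
  have h4 : (LL / 8) ^ 4 ≤ ms m (x jl).re ^ 4 := pow_le_pow_left₀ (by positivity) (hge _ hl) 4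
  have hC8 : Cz ≤ (LL / 8) ^ 8 / 4 := by norm_num [Cz, LL]
  have hL4 : LL ^ 10 ≤ (LL / 8) ^ 4 := by norm_num only [LL]
  have h5 : Cz * qq x ≤ Cz * (11 / 10) := mul_le_mul_of_nonneg_left hq hC.le
  have h6 : ‖x jz‖ ^ 2 / (2 * Cz) + HH (qq x) (x jl).re + ysq x + Xi x ≤
    ms m (x jl).re ^ 8 / 2 := by linarith only [hr', hC, hF0, h1, h3, h8, hC8, h5]
  have hfar : 13 < |XX m x| := by
    by_contra h7
    have := (hw _ (not_lt.1 h7)).1
    linarith only [hl, hL, this]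
  have hp8 := pow_pos hp 8
  have hp4 := pow_pos hp 4
  refine ⟨hn, hl', ?_, ?_, ?_, ?_⟩
  · have h7 : ‖x jz‖ ^ 2 / (2 * Cz) ≤ ms m (x jl).re ^ 8 / 2 := by linarith only [hr', hC, hF0, h1, h3, hH, hy, hX, h8, hC8, h5]
    rw [div_le_iff₀ (by positivity)] at h7
    refine (le_abs_self _).trans (abs_le_of_sq_le_sq ?_ (by positivity))
    nlinarith only [hC, h8, hC8, h7]
  · by_contra h7
    rw [HH_eq (Or.inr (by linarith only [h4, hL4, h7]))] at h6
    have h9 : ms m (x jl).re ^ 8 = ms m (x jl).re ^ 4 * ms m (x jl).re ^ 4 := by ring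
    nlinarith only [hz, hy, hX, h6, hp4, h7]
  · have h7 : chi (XX m x) = 0 := by
      unfold chi
      rw [st_one (by norm_num) (by nlinarith only [sq_abs (XX m x), hfar]), sub_self]
    unfold Pho
    rw [wall_far (by linarith only [hfar]), h7]
    simp only [ne_eq, OfNat.ofNat_ne_zero, not_false_eq_true, zero_pow, zero_mul, add_zero,
      mul_zero]
    linarith only [hr', hC, hF0, h1, h3, hz, hH, h8, hC8, h5]
  · unfold gout
    refine lt_of_le_of_lt ((min_le_left _ _).trans (min_le_left _ _)) ?_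
    linarith only [hfar]

theorem bx_word : Big fun m0 m => ∀ k, ∀ x ∈ (tdm m0 m).Cop (some k) 5,
    ¬(x jl).re ≤ -LL / 4 := by
  refine (Big.of_ev win_sub).mono fun m0 m _ h k x hx hl => ?_
  have hL := LL_pos
  have h1 : |XX m x| < 6 := ((mem_Cop_some m0 m k 5 x).1 hx).1.2.2.2.2.1
  have h2 := (h (x jl).re (le_trans h1.le (by norm_num))).1
  linarith only [hl, hL, h2]

/-- `ms_ge_L`, `ms_le_L`, `FS_left`; far from the window `Wall = chi = 0` -/
theorem ok_open2 : Big fun m0 m => ∀ x ∈ (tdm m0 m).Bcl 220,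
    (tdm m0 m).lam x ≤ -(tdm m0 m).L / 4 → ∃ a, x ∈ (tdm m0 m).Cop a 1 := by
  refine (bx_bcl.and bx_left).mono fun m0 m _ h x hx hl => ⟨none, ?_⟩
  have hL := LL_pos
  obtain ⟨h1, h2, h3, h4, h5, h6⟩ := h.2 x hl (h.1 x hx).1 (h.1 x hx).2
  have hp := ms_pos m (x jl).re
  have h7 := pow_pos hp 4
  have h8 := pow_pos hp 8
  rw [mem_Cop_none]
  exact ⟨⟨by linarith only [h1], by linarith only [hL, h2]⟩, by linarith only [h3, h8], by linarith only [h4, h7], by linarith only [h5, h8], h6⟩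

theorem ok_open1 : Big fun m0 m => ∀ a, ∀ x ∈ (tdm m0 m).Cop a 5,
    (tdm m0 m).lam x ≤ -(tdm m0 m).L / 4 → ‖x (tdm m0 m).iz‖ ^ 2 ≤ 5 * (tdm m0 m).Cz ^ 2 →
    ‖(tdm m0 m).z a x‖ ≤ (tdm m0 m).mm x ^ 13 / 50 := by
  refine (bx_word.and (Big.of_ev ms_ge_L)).mono fun m0 m _ h a x hx hl hz => ?_
  cases a with
  | some k => exact absurd hl (h.1 k x hx)
  | none =>
    have hL := LL_pos
    have hC := Cz_pos
    have hz : ‖x jz‖ ^ 2 ≤ 5 * Cz ^ 2 := hz
    have h1 : (LL / 8) ^ 13 ≤ ms m (x jl).re ^ 13 :=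
      pow_le_pow_left₀ (by positivity) (h.2 _ hl) 13
    have h2 : 3 * Cz ≤ (LL / 8) ^ 13 / 50 := by norm_num [Cz, LL]
    have h3 : ‖x jz‖ ≤ 3 * Cz :=
      (le_abs_self _).trans (abs_le_of_sq_le_sq (by nlinarith only [hz]) (by positivity))
    change ‖x jz‖ ≤ ms m (x jl).re ^ 13 / 50
    linarith only [h1, h2, h3]

theorem ok_open3 : Big fun m0 m => ∀ a, ∀ x ∈ (tdm m0 m).Cop a 5,
    (tdm m0 m).lam x ≤ -(tdm m0 m).L / 4 → (tdm m0 m).r x < 0 →
    (tdm m0 m).q x - 1 ≤ (tdm m0 m).mm x ^ 4 ∧ (tdm m0 m).Φ a x ≤ (tdm m0 m).mm x ^ 8 ∧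
      20 * √(tdm m0 m).a ≤ (tdm m0 m).mm x ^ 4 := by
  refine ((bx_word.and bx_left).and (Big.of_ev (ms_ge_L.and
    (ev_mu' (400 / (LL / 8) ^ 8) 0)))).mono fun m0 m _ h a x hx hl hr => ?_
  cases a with
  | some k => exact absurd hl (h.1.1 k x hx)
  | none =>
    have hL := LL_pos
    have hr : rr m0 x < 0 := hr
    have hp := pow_pos (ms_pos m (x jl).re) 8
    obtain ⟨-, -, -, h4, h5, -⟩ := h.1.2 x hl (hr.le.trans (by norm_num)) (by linarith only [hr, hp])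
    refine ⟨h4, h5, ?_⟩
    change 20 * √(aa m) ≤ ms m (x jl).re ^ 4
    have h1 : (LL / 8) ^ 4 ≤ ms m (x jl).re ^ 4 :=
      pow_le_pow_left₀ (by positivity) (h.2.1 _ hl) 4
    have h2 := h.2.2
    rw [pow_zero, mul_one, div_mul_eq_mul_div, div_le_one (by positivity)] at h2
    have h3 : aa m ≤ mu m := pow_le_of_le_one (mu_pos m).le (mu_le_one m) (by norm_num)
    have h6 : √(aa m) ≤ (LL / 8) ^ 4 / 20 := by
      refine Real.sqrt_le_iff.2 ⟨by positivity, ?_⟩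
      have : ((LL / 8) ^ 4 / 20) ^ 2 = (LL / 8) ^ 8 / 400 := by ring
      linarith only [h2, h3]
    linarith only [h1, h6]


end Pool.Agent.MP_bea40e_an.Iv

end

section

open Filter Topology Set Metric Complex
open scoped ContDiff ComplexConjugate

namespace Pool.Agent.MP_bea40e_an.Iv

theorem id1_tl {m : ℕ} {a c : ℝ} (hc : c ≤ -1 / 3) (h : a = m ^ 2 * c) : Real.exp a ≤ tl m :=
  Real.exp_le_exp.2 (by rw [h]; nlinarith [sq_nonneg (m : ℝ)])

theorem id1_mix {a b c : ℝ} (ha : 0 ≤ a ∧ a ≤ 1) (hb : 0 ≤ b ∧ b ≤ 1) (hc : 0 ≤ c ∧ c ≤ 1) :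
    0 ≤ (1 - a) * b + a * c ∧ (1 - a) * b + a * c ≤ 1 :=
  ⟨by linarith only [mul_nonneg (sub_nonneg.2 ha.2) hb.1, mul_nonneg ha.1 hc.1],
    by linarith only [mul_nonneg (sub_nonneg.2 ha.2) (sub_nonneg.2 hb.2), mul_nonneg ha.1 (sub_nonneg.2 hc.2)]⟩

theorem id1_mul {a b : ℝ} (ha : 0 ≤ a ∧ a ≤ 1) (hb : 0 ≤ b ∧ b ≤ 1) : 0 ≤ a * b ∧ a * b ≤ 1 :=
  ⟨mul_nonneg ha.1 hb.1, mul_le_one₀ ha.2 hb.1 hb.2⟩

theorem id1_st (a b t : ℝ) : 0 ≤ st a b t ∧ st a b t ≤ 1 := ⟨st_nonneg _ _ _, st_le_one _ _ _⟩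

theorem id1_st' (a b t : ℝ) : 0 ≤ 1 - st a b t ∧ 1 - st a b t ≤ 1 :=
  ⟨sub_nonneg.2 (st_le_one _ _ _), sub_le_self _ (st_nonneg _ _ _)⟩

theorem id1_lg (t : ℝ) : 0 ≤ lg t ∧ lg t ≤ 1 := ⟨(lg_pos t).le, (lg_lt_one t).le⟩

theorem id1_mis (X : ℝ) (ξ : ℂ) : 0 ≤ sg X * (1 - rd ξ) + (1 - sg X) * rd ξ ∧
    sg X * (1 - rd ξ) + (1 - sg X) * rd ξ ≤ 1 := by
  have := id1_mix (a := sg X) (b := rd ξ) (c := 1 - rd ξ) (id1_st _ _ _) ⟨rd_nonneg _, rd_le_one _⟩
    ⟨sub_nonneg.2 (rd_le_one _), sub_le_self _ (rd_nonneg _)⟩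
  rwa [add_comm] at this

theorem id1_abs {a b c : ℝ} (ha : 0 ≤ a ∧ a ≤ c) (hb : 0 ≤ b ∧ b ≤ c) : |a - b| ≤ c :=
  abs_le.2 ⟨by linarith [ha.1, hb.2], by linarith [ha.2, hb.1]⟩

/-- reading of the bit: `xi = (ww - ∑ ν', Gam ν' * Gk ν') / Gk ν`, `Gk_dom`, `chw_geo` -/
theorem id_read : ∀ᶠ m : ℕ in atTop, ∀ (k : Wd m) (x : EE), Chw m k x → ∀ ν : Nd m,
    x js ∈ Sn m ν → t0 ν.1 + 4 ≤ TT m x →
      rd (xi m ν x) = (if k ν.1 then 1 else 0) ∧ Pen (xi m ν x) = 0 := by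
  filter_upwards [chw_geo, Gam_an, Gk_dom, ev_mu' 256000000 22, eventually_ge_atTop 10]
    with m hgeo hGam hdom hmu hm k x hx ν hs hT
  have hm' : (10 : ℝ) ≤ m := by exact_mod_cast hm
  obtain ⟨hG1, -, hG3⟩ := hdom ν _ hs
  have ho : |(x jo).im| ≤ 1 / m ^ 6 := hx.1.2.2.1.le
  have hw := (hgeo k x hx).2.2.2.2.2
  have hGpos : 0 < ‖Gk m ν (x js)‖ := lt_of_lt_of_le (by positivity) hG1
  have hG0 : Gk m ν (x js) ≠ 0 := norm_pos_iff.1 hGpos
  have h1 : ‖ww m k x‖ ≤ ‖Gk m ν (x js)‖ / 100 := by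
    refine le_trans (abs_le_of_sq_le_sq' ?_ (by positivity)).2
      (div_le_div_of_nonneg_right hG1 (by norm_num))
    refine hw.trans ?_
    rw [div_pow, div_pow, one_pow, ← pow_mul, le_div_iff₀ (by norm_num),
      le_div_iff₀ (by positivity)]
    exact le_of_eq_of_le (by ring) hmu
  have h2 : ‖∑ ν' ∈ Finset.univ.erase ν, Gam m k ν'.1 (x jo) * Gk m ν' (x js)‖ ≤
      ‖Gk m ν (x js)‖ / 100 := by
    refine (norm_sum_le _ _).trans (le_trans (Finset.sum_le_sum fun ν' _ => ?_) hG3)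
    rw [norm_mul]
    exact mul_le_of_le_one_left (norm_nonneg _) (hGam k ν'.1 _ ho).2.1
  have h3 : ‖Gam m k ν.1 (x jo) - (if k ν.1 then 1 else 0)‖ ≤ 1 / 100 := by
    refine (hGam k ν.1 _ ho).2.2.2.2.trans ?_
    have hT' : t0 ν.1 + 4 ≤ Tr m (x jo).re := hT
    rw [Real.exp_neg, ← one_div]
    refine one_div_le_one_div_of_le (by norm_num) (le_trans ?_ (Real.add_one_le_exp _))
    nlinarith only [mul_le_mul_of_nonneg_left (show 1 ≤ Tr m (x jo).re - t0 ν.1 - 3 by linarith only [hT'])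
      (sq_nonneg (m : ℝ)), hm']
  have e : x jw = ww m k x - Gam m k ν.1 (x jo) * Gk m ν (x js) -
      ∑ ν' ∈ Finset.univ.erase ν, Gam m k ν'.1 (x jo) * Gk m ν' (x js) := by
    rw [sub_sub, Finset.add_sum_erase _ (fun ν' : Nd m => Gam m k ν'.1 (x jo) * Gk m ν' (x js))
      (Finset.mem_univ ν), ww, GG1, Finset.mul_sum]
    simp only [Gk, mul_left_comm, add_sub_cancel_right]
  have h4 : ‖xi m ν x + (if k ν.1 then 1 else 0)‖ ≤ 1 / 10 := by
    have e2 : xi m ν x + (if k ν.1 then 1 else 0) = (ww m k x -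
        ∑ ν' ∈ Finset.univ.erase ν, Gam m k ν'.1 (x jo) * Gk m ν' (x js)) / Gk m ν (x js) -
          (Gam m k ν.1 (x jo) - (if k ν.1 then 1 else 0)) := by
      rw [xi, e]
      field_simp
      ring
    have h5 : ‖(ww m k x - ∑ ν' ∈ Finset.univ.erase ν, Gam m k ν'.1 (x jo) * Gk m ν' (x js)) /
        Gk m ν (x js)‖ ≤ 1 / 50 := by
      rw [norm_div, div_le_iff₀ hGpos]
      linarith only [norm_sub_le (ww m k x)
        (∑ ν' ∈ Finset.univ.erase ν, Gam m k ν'.1 (x jo) * Gk m ν' (x js)), h1, h2]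
    rw [e2]
    exact (norm_sub_le _ _).trans (by linarith only [h3, h5])
  have h6 := abs_le.1 ((abs_re_le_norm _).trans h4)
  by_cases hk : k ν.1 = true
  · simp only [hk, if_true, add_re, one_re] at h4 h6 ⊢
    exact ⟨rd_one (by linarith only [h6.2]), Pen_zero (Or.inr h4)⟩
  · simp only [hk, Bool.false_eq_true, if_false, add_zero] at h4 h6 ⊢
    exact ⟨rd_zero (by linarith only [h6.1]), Pen_zero (Or.inl h4)⟩

/-- With `t = T - t0`: cases `t ≤ 21 / 10`, `21 / 10 ≤ t ≤ 5`, `5 ≤ t ≤ 11 / 2`, `11 / 2 ≤ t` for `Cf`;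
`t ≤ 28 / 5`, `17 / 2 ≤ t`, right side, wrong side (then `8 < t`) for `bl`. -/
theorem id_coef : ∀ᶠ m : ℕ in atTop, ∀ (k : Wd m) (x : EE), Chw m k x → ∀ ν : Nd m,
    x js ∈ Sn m ν → |Cf m ν x - (Gam m k ν.1 (x jo)).re| ≤ m ^ 5 * |(x jo).im| + tl m ∧
      Pn m ν x = 0 ∧ |bl m ν x - etaR m k ν.1 (XX m x) (TT m x)| ≤ tl m := by
  filter_upwards [chw_geo, Gam_an, id_read, eventually_ge_atTop 2]
    with m hgeo hGam hread hm k x hx ν hs
  have hm' : (2 : ℝ) ≤ m := by exact_mod_cast hm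
  obtain ⟨-, -, -, hX, hside, -⟩ := hgeo k x hx
  have hrd := hread k x hx ν hs
  have hκ : 0 ≤ (if k ν.1 then (1 : ℝ) else 0) ∧ (if k ν.1 then (1 : ℝ) else 0) ≤ 1 := by
    split_ifs <;> norm_num
  refine ⟨?_, ?_, ?_⟩
  · have h1 := (abs_re_le_norm _).trans (hGam k ν.1 _ hx.1.2.2.1.le).2.2.1
    rw [sub_re, ofReal_re] at h1
    have e : (if k ν.1 then lg (m ^ 2 * (Tr m (x jo).re - t0 ν.1 - 3)) else 0 : ℝ) =
        (if k ν.1 then 1 else 0) * lg (m ^ 2 * (TT m x - t0 ν.1 - 3)) := by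
      rw [ite_mul, one_mul, zero_mul]
      rfl
    rw [e] at h1
    have hl := id1_lg (m ^ 2 * (TT m x - t0 ν.1 - 3))
    suffices h : |Cf m ν x - (if k ν.1 then 1 else 0) * lg (m ^ 2 * (TT m x - t0 ν.1 - 3))| ≤ tl m by
      have := abs_sub_le (Cf m ν x)
        ((if k ν.1 then 1 else 0) * lg (m ^ 2 * (TT m x - t0 ν.1 - 3))) (Gam m k ν.1 (x jo)).re
      rw [abs_sub_comm] at h1
      linarith only [h1, h, this]
    unfold Cf
    rcases le_total (TT m x) (t0 ν.1 + 21 / 10) with h2 | h2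
    · have h3 : lg (m ^ 2 * (TT m x - t0 ν.1 - 3)) ≤ tl m :=
        (lg_le_exp _).trans (id1_tl (by linarith only [h2]) rfl)
      have h4 := id1_mul (id1_st (-1) 1 (XX m x)) (id1_st (t0 ν.1 + 8 / 5) (t0 ν.1 + 19 / 10) (TT m x))
      rw [st_zero (by linarith only []) (by linarith only [h2]), sub_zero, one_mul, zero_mul, add_zero,
        mul_right_comm]
      exact id1_abs ⟨mul_nonneg h4.1 hl.1, (mul_le_of_le_one_left hl.1 h4.2).trans h3⟩
        ⟨mul_nonneg hκ.1 hl.1, (mul_le_of_le_one_left hl.1 hκ.2).trans h3⟩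
    rcases le_total (TT m x) (t0 ν.1 + 5) with h3 | h3
    · rw [st_zero (by linarith only []) h3, st_one (by linarith only []) (by linarith),
        sg_eq (hside ν.1 h2 (by linarith only [h3])).le]
      simpa only [sub_zero, mul_ite, mul_one, mul_zero, ite_mul, one_mul, zero_mul, add_zero, sub_self, abs_zero] using (tl_pos m).le
    have h4 : 1 - lg (m ^ 2 * (TT m x - t0 ν.1 - 3)) ≤ tl m :=
      (one_sub_lg_le _).trans (id1_tl (c := -(TT m x - t0 ν.1 - 3)) (by linarith only [h3]) (by ring))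
    have h5 := id1_st (t0 ν.1 + 5) (t0 ν.1 + 11 / 2) (TT m x)
    have h6 := id1_mul h5 hκ
    have h7 : ∀ a : ℝ, 0 ≤ a ∧ a ≤ 1 → |a * (1 - lg (m ^ 2 * (TT m x - t0 ν.1 - 3)))| ≤ tl m :=
      fun a ha => by
        rw [abs_of_nonneg (mul_nonneg ha.1 (sub_nonneg.2 hl.2))]
        exact (mul_le_of_le_one_left (sub_nonneg.2 hl.2) ha.2).trans h4
    rw [(hrd (by linarith only [h3])).1]
    rcases le_total (TT m x) (t0 ν.1 + 11 / 2) with h8 | h8
    · rw [st_one (a := t0 ν.1 + 8 / 5) (by linarith only []) (by linarith only [h3]),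
        sg_eq (hside ν.1 h2 (by linarith only [h8])).le]
      exact le_of_eq_of_le (congrArg _ (by ring)) (h7 _ h6)
    · rw [st_one (by linarith only []) h8]
      exact le_of_eq_of_le (congrArg _ (by ring)) (h7 _ hκ)
  · unfold Pn
    rcases le_total (TT m x) (t0 ν.1 + 4) with h | h
    · rw [st_zero (by linarith) h, zero_mul]
    · rw [(hrd h).2, mul_zero]
  · have hA := id1_lg (m ^ 2 * (TT m x - t0 ν.1 - 63 / 10))
    have hB := id1_lg (-(m ^ 2 * (TT m x - t0 ν.1 - 8)))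
    have hC := id1_lg (-(sn (k ν.1) * m ^ 2 * XX m x))
    have he := (id1_mul (id1_mul hA hB) hC).1
    unfold bl etaR
    rcases le_total (TT m x) (t0 ν.1 + 28 / 5) with h1 | h1
    · rw [st_zero (by linarith only []) h1, zero_mul, zero_mul, zero_mul, zero_sub, abs_neg,
        abs_of_nonneg he, mul_assoc]
      exact (mul_le_of_le_one_right hA.1 (id1_mul hB hC).2).trans
        ((lg_le_exp _).trans (id1_tl (by linarith only [h1]) rfl))
    rcases le_total (t0 ν.1 + 17 / 2) (TT m x) with h2 | h2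
    · have h3 : lg (-(m ^ 2 * (TT m x - t0 ν.1 - 8))) ≤ tl m :=
        (lg_le_exp _).trans (id1_tl (c := -(TT m x - t0 ν.1 - 8)) (by linarith only [h2]) (by ring))
      have h4 := id1_mul (id1_mul (id1_st (t0 ν.1 + 28 / 5) (t0 ν.1 + 59 / 10) (TT m x))
        (id1_st' (t0 ν.1 + 17 / 2) (t0 ν.1 + 89 / 10) (TT m x))) (id1_mis (XX m x) (xi m ν x))
      have h5 := id1_mul hA hC
      refine id1_abs ⟨le_of_le_of_eq (mul_nonneg h4.1 hB.1) (by ring), le_of_eq_of_le (by ring)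
        ((mul_le_of_le_one_left hB.1 h4.2).trans h3)⟩ ⟨he, le_of_eq_of_le (by ring)
        ((mul_le_of_le_one_left hB.1 h5.2).trans h3)⟩
    rw [(hrd (by linarith only [h1])).1]
    by_cases h3 : 1 ≤ sn (k ν.1) * XX m x
    · have h4 : lg (-(sn (k ν.1) * m ^ 2 * XX m x)) ≤ tl m :=
        (lg_le_exp _).trans (id1_tl (c := -(sn (k ν.1) * XX m x)) (by linarith only [h3]) (by ring))
      have e : (if k ν.1 then (1 : ℝ) else 0) * (1 - if k ν.1 then 1 else 0) +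
          (1 - if k ν.1 then 1 else 0) * (if k ν.1 then 1 else 0) = 0 := by
        split_ifs <;> norm_num
      rw [sg_eq h3, e, mul_zero, zero_sub, abs_neg, abs_of_nonneg he]
      exact (mul_le_of_le_one_left hC.1 (id1_mul hA hB).2).trans h4
    · have h4 : t0 ν.1 + 8 < TT m x := by
        by_contra h
        exact h3 (hside ν.1 (by linarith only [h1]) (not_lt.1 h)).le
      have h5 := hX ν.1 (by linarith only [h2, h4]) (by linarith only [h2, h4])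
      have h6 : sn (k ν.1) * XX m x ≤ -1 := by
        have : |sn (k ν.1) * XX m x| = |XX m x| := by
          unfold sn
          split_ifs <;> simp
        rw [← this, lt_abs] at h5
        rcases h5 with h5 | h5
        · exact absurd h5.le h3
        · linarith only [h5]
      have h7 : 1 ≤ sn (!k ν.1) * XX m x := by
        revert h6
        unfold sn
        cases k ν.1
        · simp
        · simp only [if_true, Bool.not_true, Bool.false_eq_true, if_false]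
          intro h
          linarith only [h]
      have e : (if (!k ν.1) = true then (1 : ℝ) else 0) * (1 - if k ν.1 then 1 else 0) +
          (1 - if (!k ν.1) = true then 1 else 0) * (if k ν.1 then 1 else 0) = 1 := by
        cases k ν.1 <;> simp
      rw [sg_eq h7, e, st_one (by linarith only []) (by linarith only [h2, h4]), st_zero (by linarith only []) h2]
      have a1 : 1 - lg (m ^ 2 * (TT m x - t0 ν.1 - 63 / 10)) ≤ Real.exp (-(m : ℝ) ^ 2) :=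
        (one_sub_lg_le _).trans (Real.exp_le_exp.2 (by nlinarith only [h4]))
      have a2 : 1 - lg (-(sn (k ν.1) * m ^ 2 * XX m x)) ≤ Real.exp (-(m : ℝ) ^ 2) :=
        (one_sub_lg_le _).trans (Real.exp_le_exp.2 (by nlinarith only [h6]))
      have a3 : 2 * Real.exp (-(m : ℝ) ^ 2) ≤ tl m := by
        have e1 : tl m = Real.exp (2 * m ^ 2 / 3) * Real.exp (-(m : ℝ) ^ 2) := by
          rw [← Real.exp_add, tl]
          congr 1
          ring
        rw [e1]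
        refine mul_le_mul_of_nonneg_right (le_trans ?_ (Real.add_one_le_exp _)) (Real.exp_pos _).le
        nlinarith only [hm']
      have a4 := id1_mul hA hC
      have a5 : 1 - lg (m ^ 2 * (TT m x - t0 ν.1 - 63 / 10)) *
          lg (-(sn (k ν.1) * m ^ 2 * XX m x)) ≤ tl m := by
        linarith only [mul_nonneg (sub_nonneg.2 hA.2) (sub_nonneg.2 hC.2), a1, a2, a3]
      refine le_of_eq_of_le (b := lg (-(m ^ 2 * (TT m x - t0 ν.1 - 8))) *
        (1 - lg (m ^ 2 * (TT m x - t0 ν.1 - 63 / 10)) * lg (-(sn (k ν.1) * m ^ 2 * XX m x)))) ?_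
        ((mul_le_of_le_one_left (sub_nonneg.2 a4.2) hB.2).trans a5)
      rw [← abs_of_nonneg (mul_nonneg hB.1 (sub_nonneg.2 a4.2))]
      exact congrArg _ (by ring)

theorem Cf_mem (m : ℕ) (ν : Nd m) (x : EE) : 0 ≤ Cf m ν x ∧ Cf m ν x ≤ 1 := by
  have := id1_mix (id1_st (t0 ν.1 + 5) (t0 ν.1 + 11 / 2) (TT m x))
    (id1_mul (id1_mul (id1_st (-1) 1 (XX m x)) (id1_lg (m ^ 2 * (TT m x - t0 ν.1 - 3))))
      (id1_st (t0 ν.1 + 8 / 5) (t0 ν.1 + 19 / 10) (TT m x)))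
    ⟨rd_nonneg (xi m ν x), rd_le_one _⟩
  simpa only [Cf, sg, mul_assoc] using this

theorem bl_mem (m : ℕ) (ν : Nd m) (x : EE) : 0 ≤ bl m ν x ∧ bl m ν x ≤ 1 := by
  exact id1_mul (id1_mul (id1_mul (id1_st _ _ _) (id1_lg _)) (id1_st' _ _ _)) (id1_mis _ _)


end Pool.Agent.MP_bea40e_an.Iv

end

section

open Filter Topology Set Metric Complex
open scoped ContDiff ComplexConjugate

namespace Pool.Agent.MP_bea40e_an.Iv

/-! The forces. Per node
`cut C Re G - Re (Gam G) = cut (C - Re Gam) Re G - (1 - cut) Re Gam Re G + Im Gam Im G`;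
`cut ≠ 0` gives `s ∈ Sn` (`cut_off`), and at most one `cut` is nonzero (`Sn_disj`). -/

theorem id2_one {β : Type} [Fintype β] {K Γ : β → ℂ} {c C : β → ℝ} {a b g : ℝ}
    (ha : 0 ≤ a) (hg : 0 ≤ g) (hc0 : ∀ ν, 0 ≤ c ν) (hc1 : ∀ ν, c ν ≤ 1)
    (hΓ : ∀ ν, ‖Γ ν‖ ≤ 1) (h1 : ∀ ν, c ν ≠ 0 → |C ν - (Γ ν).re| ≤ a)
    (h2 : ∀ ν, (1 - c ν) * |(K ν).re| ≤ b) (h3 : ∀ ν, |(Γ ν).im| ≤ g)
    (h4 : ∑ ν, ‖K ν‖ ≤ 1 / 50) :
    |∑ ν, c ν * (C ν * (K ν).re) - (∑ ν, Γ ν * K ν).re| ≤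
      (a + g) / 50 + Fintype.card β * b := by
  rw [re_sum, ← Finset.sum_sub_distrib]
  refine (Finset.abs_sum_le_sum_abs _ _).trans ?_
  have key : ∀ ν, |c ν * (C ν * (K ν).re) - (Γ ν * K ν).re| ≤ (a + g) * ‖K ν‖ + b := by
    intro ν
    have e : c ν * (C ν * (K ν).re) - (Γ ν * K ν).re =
        c ν * (C ν - (Γ ν).re) * (K ν).re - (Γ ν).re * ((1 - c ν) * (K ν).re) +
          (Γ ν).im * (K ν).im := by
      rw [mul_re]
      ring
    have k1 : |c ν * (C ν - (Γ ν).re) * (K ν).re| ≤ a * ‖K ν‖ := by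
      by_cases h0 : c ν = 0
      · rw [h0, zero_mul, zero_mul, abs_zero]
        positivity
      · rw [abs_mul, abs_mul, abs_of_nonneg (hc0 ν)]
        refine mul_le_mul ?_ (abs_re_le_norm _) (abs_nonneg _) ha
        exact (mul_le_of_le_one_left (abs_nonneg _) (hc1 ν)).trans (h1 ν h0)
    have k2 : |(Γ ν).re * ((1 - c ν) * (K ν).re)| ≤ b := by
      rw [abs_mul, abs_mul, abs_of_nonneg (sub_nonneg.2 (hc1 ν))]
      refine (mul_le_of_le_one_left ?_ ((abs_re_le_norm _).trans (hΓ ν))).trans (h2 ν)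
      exact mul_nonneg (sub_nonneg.2 (hc1 ν)) (abs_nonneg _)
    have k3 : |(Γ ν).im * (K ν).im| ≤ g * ‖K ν‖ := by
      rw [abs_mul]
      exact mul_le_mul (h3 ν) (abs_im_le_norm _) (abs_nonneg _) hg
    rw [e]
    have k4 := abs_add_le (c ν * (C ν - (Γ ν).re) * (K ν).re -
      (Γ ν).re * ((1 - c ν) * (K ν).re)) ((Γ ν).im * (K ν).im)
    have k5 := abs_sub (c ν * (C ν - (Γ ν).re) * (K ν).re) ((Γ ν).re * ((1 - c ν) * (K ν).re))
    linarith only [k1, k2, k3, k4, k5]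
  refine (Finset.sum_le_sum fun ν _ => key ν).trans ?_
  rw [Finset.sum_add_distrib, ← Finset.mul_sum, Finset.sum_const, Finset.card_univ, nsmul_eq_mul]
  have := mul_le_mul_of_nonneg_left h4 (add_nonneg ha hg)
  linarith only [this]

theorem id2_two {β : Type} [Fintype β] {K Γ : β → ℂ} {c C : β → ℝ} {b d : ℝ}
    (hb : 0 ≤ b) (hc0 : ∀ ν, 0 ≤ c ν) (hc1 : ∀ ν, c ν ≤ 1) (hC0 : ∀ ν, 0 ≤ C ν)
    (hC1 : ∀ ν, C ν ≤ 1) (hΓ : ∀ ν, ‖Γ ν‖ ≤ 1) (h2 : ∀ ν, (1 - c ν) * |(K ν).re| ≤ b)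
    (h4 : ∑ ν, ‖K ν‖ ≤ 1 / 50) (h5 : ∀ ν ν', c ν ≠ 0 → c ν' ≠ 0 → ν = ν')
    (hd : |∑ ν, c ν * (C ν * (K ν).re) - (∑ ν, Γ ν * K ν).re| ≤ d) :
    |∑ ν, c ν * (C ν ^ 2 * (K ν).re ^ 2) - (∑ ν, Γ ν * K ν).re ^ 2| ≤ b + d := by
  classical
  set U := ∑ ν, c ν * (C ν * (K ν).re) with hU
  set W := (∑ ν, Γ ν * K ν).re with hW
  have hd0 : 0 ≤ d := (abs_nonneg _).trans hd
  have e1 : U ^ 2 = ∑ ν, (c ν * (C ν * (K ν).re)) ^ 2 := by
    rw [hU, sq, Finset.sum_mul_sum]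
    refine Finset.sum_congr rfl fun ν _ => ?_
    rw [Finset.sum_eq_single ν, sq]
    · intro ν' _ hne
      by_cases h0 : c ν = 0
      · simp [h0]
      · by_cases h0' : c ν' = 0
        · simp [h0']
        · exact absurd (h5 ν' ν h0' h0) hne
    · simp only [Finset.mem_univ, not_true_eq_false, mul_eq_zero, or_self, IsEmpty.forall_iff]
  have e2 : |∑ ν, c ν * (C ν ^ 2 * (K ν).re ^ 2) - U ^ 2| ≤ b := by
    rw [e1, ← Finset.sum_sub_distrib]
    refine (Finset.abs_sum_le_sum_abs _ _).trans ?_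
    have key : ∀ ν, |c ν * (C ν ^ 2 * (K ν).re ^ 2) - (c ν * (C ν * (K ν).re)) ^ 2| ≤
        b * ‖K ν‖ := by
      intro ν
      have e : c ν * (C ν ^ 2 * (K ν).re ^ 2) - (c ν * (C ν * (K ν).re)) ^ 2 =
          (c ν * C ν ^ 2) * (((1 - c ν) * |(K ν).re|) * |(K ν).re|) := by
        rw [mul_assoc (1 - c ν), abs_mul_abs_self]
        ring
      have k0 : 0 ≤ ((1 - c ν) * |(K ν).re|) * |(K ν).re| :=
        mul_nonneg (mul_nonneg (sub_nonneg.2 (hc1 ν)) (abs_nonneg _)) (abs_nonneg _)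
      have k1 : c ν * C ν ^ 2 ≤ 1 :=
        mul_le_one₀ (hc1 ν) (sq_nonneg _) (pow_le_one₀ (hC0 ν) (hC1 ν))
      rw [e, abs_of_nonneg (mul_nonneg (mul_nonneg (hc0 ν) (sq_nonneg _)) k0)]
      exact (mul_le_of_le_one_left k0 k1).trans
        (mul_le_mul (h2 ν) (abs_re_le_norm _) (abs_nonneg _) hb)
    refine (Finset.sum_le_sum fun ν _ => key ν).trans ?_
    rw [← Finset.mul_sum]
    have := mul_le_mul_of_nonneg_left h4 hb
    linarith only [hb, this]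
  have e3 : |U| ≤ 1 / 50 := by
    refine (Finset.abs_sum_le_sum_abs _ _).trans (le_trans (Finset.sum_le_sum fun ν _ => ?_) h4)
    rw [abs_mul, abs_mul, abs_of_nonneg (hc0 ν), abs_of_nonneg (hC0 ν)]
    refine (mul_le_of_le_one_left (mul_nonneg (hC0 ν) (abs_nonneg _)) (hc1 ν)).trans ?_
    exact (mul_le_of_le_one_left (abs_nonneg _) (hC1 ν)).trans (abs_re_le_norm _)
  have e4 : |W| ≤ 1 / 50 := by
    refine (abs_re_le_norm _).trans ((norm_sum_le _ _).trans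
      (le_trans (Finset.sum_le_sum fun ν _ => ?_) h4))
    rw [norm_mul]
    exact mul_le_of_le_one_left (norm_nonneg _) (hΓ ν)
  have e5 : |U ^ 2 - W ^ 2| ≤ d := by
    rw [sq_sub_sq, abs_mul]
    have k1 : |U + W| ≤ 1 := (abs_add_le _ _).trans (by linarith only [e3, e4])
    exact (mul_le_of_le_one_left (abs_nonneg _) k1).trans hd
  have e6 := abs_sub_le (∑ ν, c ν * (C ν ^ 2 * (K ν).re ^ 2)) (U ^ 2) (W ^ 2)
  linarith only [e2, e5, e6]

theorem id2_mem {m : ℕ} (hm : 0 < m) {ν : Nd m} {s : ℂ} (h : cut m ν s ≠ 0) : s ∈ Sn m ν := by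
  by_contra h'
  exact h (cut_off hm ν h').eq_of_nhds

theorem id2_box {m : ℕ} {k : Wd m} {x : EE} (h : Chw m k x) : ‖x js‖ ≤ 1 + 2 * e2 m ∧
    |(x jl).im| ≤ 1 / m ^ 6 ∧ |(x jo).im| ≤ 1 / m ^ 6 := by
  obtain ⟨⟨h1, h2, h3, -⟩, -⟩ := h
  have : 0 ≤ e2 m := by
    unfold e2
    positivity
  exact ⟨by linarith only [h1, this], h2.le, h3.le⟩

theorem id2_card (m : ℕ) : (Fintype.card (Nd m) : ℝ) = 1400 * m := by
  rw [Fintype.card_prod, Fintype.card_fin, Fintype.card_bool, kk, dd]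
  push_cast
  ring

theorem id2_gen : ∀ᶠ m : ℕ in atTop, ∀ (k : Wd m) (x : EE), Chw m k x → ∀ K : Nd m → ℂ,
    (∀ ν, (1 - cut m ν (x js)) * |(K ν).re| ≤ m ^ 14 * (|‖x js‖ ^ 2 - 1| + tl m)) →
    ∑ ν, ‖K ν‖ ≤ 1 / 50 →
    |∑ ν, cut m ν (x js) * (Cf m ν x * (K ν).re) - (∑ ν : Nd m, Gam m k ν.1 (x jo) * K ν).re| ≤
      m ^ 17 * Er m x ∧
    |∑ ν, cut m ν (x js) * (Cf m ν x ^ 2 * (K ν).re ^ 2) -
      (∑ ν : Nd m, Gam m k ν.1 (x jo) * K ν).re ^ 2| ≤ m ^ 18 * Er m x := by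
  filter_upwards [id_coef, Gam_an, Sn_disj, eventually_ge_atTop 2,
    ev_pow_le 1401 (by norm_num : 15 < 17)] with m hcoef hGam hdisj hm hpow k x hx K h2 h4
  have hm0 : 0 < m := by omega
  have hm1 : (1 : ℝ) ≤ m := by exact_mod_cast hm0
  have hm2 : (2 : ℝ) ≤ m := by exact_mod_cast hm
  obtain ⟨-, -, ho⟩ := id2_box hx
  have ht := (tl_pos m).le
  have hq := abs_nonneg (‖x js‖ ^ 2 - 1)
  have hl := abs_nonneg (x jl).im
  have hy := abs_nonneg (x jo).im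
  have hE : Er m x = |‖x js‖ ^ 2 - 1| + |(x jl).im| + |(x jo).im| + tl m := rfl
  have hE0 : 0 ≤ Er m x := by linarith only [ht, hq, hl, hy, hE]
  have hΓ : ∀ ν : Nd m, ‖Gam m k ν.1 (x jo)‖ ≤ 1 := fun ν => (hGam k ν.1 _ ho).2.1
  have h3 : ∀ ν : Nd m, |(Gam m k ν.1 (x jo)).im| ≤ m ^ 5 * |(x jo).im| := fun ν => by
    have := (abs_im_le_norm _).trans (hGam k ν.1 _ ho).2.2.1
    rwa [sub_im, ofReal_im, sub_zero] at this
  have hb : (m : ℝ) ^ 14 * (|‖x js‖ ^ 2 - 1| + tl m) ≤ m ^ 14 * Er m x :=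
    mul_le_mul_of_nonneg_left (by linarith only [hl, hy, hE]) (by positivity)
  have h2' := fun ν => (h2 ν).trans hb
  have k1 := id2_one (a := m ^ 5 * |(x jo).im| + tl m) (by positivity) (by positivity)
    (fun ν => cut_nonneg m ν (x js)) (fun ν => cut_le_one m ν (x js)) hΓ
    (fun ν h => (hcoef k x hx ν (id2_mem hm0 h)).1) h2' h3 h4
  have p5 : (1 : ℝ) ≤ m ^ 5 := one_le_pow₀ hm1
  have p15 : (m : ℝ) ^ 5 ≤ m ^ 15 := pow_le_pow_right₀ hm1 (by norm_num)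
  have p17 : (m : ℝ) ^ 14 ≤ m ^ 17 := pow_le_pow_right₀ hm1 (by norm_num)
  have k2 : (m ^ 5 * |(x jo).im| + tl m + m ^ 5 * |(x jo).im|) / 50 +
      Fintype.card (Nd m) * (m ^ 14 * Er m x) ≤ m ^ 17 * Er m x := by
    rw [id2_card]
    have j1 : (m : ℝ) ^ 5 * |(x jo).im| ≤ m ^ 15 * Er m x :=
      mul_le_mul p15 (by linarith only [ht, hq, hl, hE]) hy (by positivity)
    have j2 : tl m ≤ m ^ 15 * Er m x :=
      le_trans (by linarith only [hq, hl, hy, hE]) (le_mul_of_one_le_left hE0 (p5.trans p15))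
    have j3 := mul_le_mul_of_nonneg_right hpow hE0
    have j4 : (1400 : ℝ) * m * (m ^ 14 * Er m x) = 1400 * (m ^ 15 * Er m x) := by ring
    have j5 : (0 : ℝ) ≤ m ^ 15 * Er m x := by positivity
    rw [j4]
    linarith only [ht, j1, j2, j3]
  have k3 := k1.trans k2
  refine ⟨k3, ?_⟩
  refine (id2_two (by positivity) (fun ν => cut_nonneg m ν (x js))
    (fun ν => cut_le_one m ν (x js)) (fun ν => (Cf_mem m ν x).1) (fun ν => (Cf_mem m ν x).2) hΓ
    h2' h4 (fun ν ν' h h' => hdisj ν ν' _ (id2_mem hm0 h) (id2_mem hm0 h')) k3).trans ?_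
  have j1 := mul_le_mul_of_nonneg_right p17 hE0
  have j2 : (2 : ℝ) * (m ^ 17 * Er m x) ≤ m * (m ^ 17 * Er m x) :=
    mul_le_mul_of_nonneg_right hm2 (by positivity)
  have j3 : (m : ℝ) * (m ^ 17 * Er m x) = m ^ 18 * Er m x := by ring
  linarith only [j1, j2]

theorem id_G : ∀ᶠ m : ℕ in atTop, ∀ (k : Wd m) (x : EE), Chw m k x →
    |∑ ν, cut m ν (x js) * (Cf m ν x * (Gk m ν (x js)).re) -
      (x js * GG1 m k (x js) (x jo)).re| ≤ m ^ 17 * Er m x ∧
    |∑ ν, cut m ν (x js) * (Cf m ν x ^ 2 * (Gk m ν (x js)).re ^ 2) -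
      (x js * GG1 m k (x js) (x jo)).re ^ 2| ≤ m ^ 18 * Er m x := by
  filter_upwards [id2_gen, ker_re, ker_bd] with m hgen hre hbd k x hx
  obtain ⟨hs, -, -⟩ := id2_box hx
  have e : x js * GG1 m k (x js) (x jo) = ∑ ν : Nd m, Gam m k ν.1 (x jo) * Gk m ν (x js) := by
    rw [GG1, Finset.mul_sum]
    refine Finset.sum_congr rfl fun ν _ => ?_
    rw [Gk]
    ring
  rw [e]
  exact hgen k x hx _ (fun ν => (hre ν _ hs).1) (hbd _ hs).2.2.1

theorem id_A : ∀ᶠ m : ℕ in atTop, ∀ (k : Wd m) (x : EE), Chw m k x → ∀ j,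
    |∑ ν, (if grp m ν = j then cut m ν (x js) * (Cf m ν x * (Ak m ν (x js)).re) else 0) -
      (x js ^ 2 * AA2 m k j (x js) (x jo)).re| ≤ m ^ 17 * Er m x ∧
    |∑ ν, (if grp m ν = j then cut m ν (x js) * (Cf m ν x ^ 2 * (Ak m ν (x js)).re ^ 2) else 0) -
      (x js ^ 2 * AA2 m k j (x js) (x jo)).re ^ 2| ≤ m ^ 18 * Er m x := by
  filter_upwards [id2_gen, ker_re, ker_bd] with m hgen hre hbd k x hx j
  obtain ⟨hs, -, -⟩ := id2_box hx
  have e : x js ^ 2 * AA2 m k j (x js) (x jo) =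
      ∑ ν : Nd m, Gam m k ν.1 (x jo) * if grp m ν = j then Ak m ν (x js) else 0 := by
    rw [AA2, Finset.mul_sum]
    refine Finset.sum_congr rfl fun ν _ => ?_
    rw [Ak]
    split_ifs <;> ring
  have h := hgen k x hx (fun ν => if grp m ν = j then Ak m ν (x js) else 0) (fun ν => ?_)
    (le_trans (Finset.sum_le_sum fun ν _ => ?_) (hbd _ hs).2.2.2.1)
  · rw [e]
    convert h using 5 <;> split_ifs <;> simp
  · split_ifs
    · exact (hre ν _ hs).2.1
    · have := (tl_pos m).le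
      rw [zero_re, abs_zero, mul_zero]
      positivity
  · split_ifs <;> simp

theorem id_S : ∀ᶠ m : ℕ in atTop, ∀ (k : Wd m) (x : EE), Chw m k x → ∀ l,
    |cut m (l, true) (x js) * (bl m (l, true) x * (Sk m (l, true) (x js)).re) -
      ((x js * (eta m k l (x jl) (x jo) * S1 m (l, true) (x js))).re +
        S0 m * etaR m k l (XX m x) (TT m x))| ≤ m ^ 23 * Er m x := by
  filter_upwards [id_coef, eta_an, ker_re, ker_bd, S0_mem, eventually_ge_atTop 6]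
    with m hcoef heta hre hbd hS0 hm k x hx l
  have hm0 : 0 < m := by omega
  have hm1 : (1 : ℝ) ≤ m := by exact_mod_cast hm0
  have hm6 : (6 : ℝ) ≤ m := by exact_mod_cast hm
  obtain ⟨hs, hlam, ho⟩ := id2_box hx
  have ht := (tl_pos m).le
  have hq := abs_nonneg (‖x js‖ ^ 2 - 1)
  have hl := abs_nonneg (x jl).im
  have hy := abs_nonneg (x jo).im
  have hE : Er m x = |‖x js‖ ^ 2 - 1| + |(x jl).im| + |(x jo).im| + tl m := rfl
  have hE0 : 0 ≤ Er m x := by linarith only [ht, hq, hl, hy, hE]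
  have h1 : ‖eta m k l (x jl) (x jo) - etaR m k l (XX m x) (TT m x)‖ ≤
      2 * m ^ 5 * (|(x jl).im| + |(x jo).im|) := (heta k l _ _ hlam ho).2.2.1
  have h2 := (hre (l, true) _ hs).2.2
  have h3 := ((hbd _ hs).2.2.2.2 (l, true)).1
  have h4 := etaR_mem m k l (XX m x) (TT m x)
  have h5 := Sk_eq m (l, true) (x js)
  have hc0 := cut_nonneg m (l, true) (x js)
  have hc1 := cut_le_one m (l, true) (x js)
  have h6 : cut m (l, true) (x js) ≠ 0 → |bl m (l, true) x - etaR m k l (XX m x) (TT m x)| ≤ tl m :=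
    fun h => (hcoef k x hx (l, true) (id2_mem hm0 h)).2.2
  set c := cut m (l, true) (x js)
  set b := bl m (l, true) x
  set S := Sk m (l, true) (x js)
  set η := eta m k l (x jl) (x jo)
  set r := etaR m k l (XX m x) (TT m x)
  have e0 : x js * (η * S1 m (l, true) (x js)) = η * (S - S0 m) := by
    rw [h5]
    ring
  have e : c * (b * S.re) - ((x js * (η * S1 m (l, true) (x js))).re + S0 m * r) =
      c * (b - r) * S.re - r * ((1 - c) * S.re) - ((η - r) * S).re + S0 m * (η - r).re := by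
    rw [e0]
    simp only [mul_re, sub_re, sub_im, ofReal_re, ofReal_im]
    ring
  have p8 : (m : ℝ) ^ 8 ≤ m ^ 22 := pow_le_pow_right₀ hm1 (by norm_num)
  have p13 : (m : ℝ) ^ 13 ≤ m ^ 22 := pow_le_pow_right₀ hm1 (by norm_num)
  have p5 : (m : ℝ) ^ 5 ≤ m ^ 22 := pow_le_pow_right₀ hm1 (by norm_num)
  have k1 : |c * (b - r) * S.re| ≤ m ^ 22 * Er m x := by
    by_cases h0 : c = 0
    · rw [h0, zero_mul, zero_mul, abs_zero]
      positivity
    · rw [abs_mul, abs_mul, abs_of_nonneg hc0, mul_comm]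
      refine mul_le_mul (((abs_re_le_norm _).trans h3).trans p8) ?_ (by positivity) (by positivity)
      exact ((mul_le_of_le_one_left (abs_nonneg _) hc1).trans (h6 h0)).trans (by linarith only [hq, hl, hy, hE])
  have k2 : |r * ((1 - c) * S.re)| ≤ m ^ 22 * Er m x := by
    rw [abs_mul, abs_mul, abs_of_nonneg h4.1, abs_of_nonneg (sub_nonneg.2 hc1)]
    refine ((mul_le_of_le_one_left (mul_nonneg (sub_nonneg.2 hc1) (abs_nonneg _)) h4.2).trans
      h2).trans (mul_le_mul_of_nonneg_left (by linarith only [hl, hy, hE]) (by positivity))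
  have h7 : ‖η - r‖ ≤ 2 * m ^ 5 * Er m x :=
    h1.trans (mul_le_mul_of_nonneg_left (by linarith only [ht, hq, hE]) (by positivity))
  have k3 : |((η - r) * S).re| ≤ 2 * (m ^ 22 * Er m x) := by
    refine (abs_re_le_norm _).trans ?_
    rw [norm_mul]
    refine (mul_le_mul h7 h3 (norm_nonneg _) (by positivity)).trans ?_
    have j1 := mul_le_mul_of_nonneg_right p13 hE0
    have j2 : (2 : ℝ) * m ^ 5 * Er m x * m ^ 8 = 2 * (m ^ 13 * Er m x) := by ring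
    linarith only [j1]
  have k4 : |S0 m * (η - r).re| ≤ 2 * (m ^ 22 * Er m x) := by
    rw [abs_mul, abs_of_nonneg (by linarith only [hS0.1] : 0 ≤ S0 m)]
    refine ((mul_le_of_le_one_left (abs_nonneg _) hS0.2).trans
      ((abs_re_le_norm _).trans h7)).trans ?_
    have j1 := mul_le_mul_of_nonneg_right p5 hE0
    linarith only [j1]
  have j2 : (6 : ℝ) * (m ^ 22 * Er m x) ≤ m * (m ^ 22 * Er m x) :=
    mul_le_mul_of_nonneg_right hm6 (by positivity)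
  have j3 : (m : ℝ) * (m ^ 22 * Er m x) = m ^ 23 * Er m x := by ring
  rw [e, abs_le]
  rw [abs_le] at k1 k2 k3 k4
  constructor <;> linarith only [k1.1, k1.2, k2.1, k2.2, k3.1, k3.2, k4.1, k4.2, j2]

theorem id_Psi1 : ∀ᶠ m : ℕ in atTop, ∀ (k : Wd m) (x : EE), Chw m k x → Psi1 m x = 0 := by
  filter_upwards [id_coef, eventually_gt_atTop 0] with m hcoef hm k x hx
  refine Finset.sum_eq_zero fun ν _ => ?_
  by_cases h0 : cut m ν (x js) = 0
  · rw [cw, h0, zero_mul, zero_mul]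
  · rw [(hcoef k x hx ν (id2_mem hm h0)).2.1, mul_zero]


end Pool.Agent.MP_bea40e_an.Iv

end

section

open Filter Topology Set Metric Complex
open scoped ContDiff ComplexConjugate

namespace Pool.Agent.MP_bea40e_an.Iv

theorem id3_grp {α β : Type} [Fintype α] [Fintype β] [DecidableEq β] (g : α → β) (f : α → ℝ)
    (h : β → ℝ) : ∑ ν, f ν * h (g ν) = ∑ j, h j * ∑ ν, if g ν = j then f ν else 0 := by
  simp_rw [Finset.mul_sum]
  rw [Finset.sum_comm]
  refine Finset.sum_congr rfl fun ν _ => ?_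
  simp_rw [mul_ite, mul_zero]
  rw [Finset.sum_ite_eq, if_pos (Finset.mem_univ _), mul_comm]

theorem id3_mul {a b A B : ℝ} (ha : |a| ≤ A) (hb : |b| ≤ B) : |a * b| ≤ A * B := by
  rw [abs_mul]
  exact mul_le_mul ha hb (abs_nonneg _) ((abs_nonneg _).trans ha)

theorem id3_w {w G : ℂ} {a b R : ℝ} (hw : ‖w‖ ≤ 3) (ha : |a - G.re| ≤ R)
    (hb : |b - G.re ^ 2| ≤ R) :
    |‖w‖ ^ 2 + 4 * w.re * a + 2 * b - ((G * (2 * w + G)).re + ‖w + G‖ ^ 2)| ≤ 14 * R := by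
  have e : ‖w‖ ^ 2 + 4 * w.re * a + 2 * b - ((G * (2 * w + G)).re + ‖w + G‖ ^ 2) =
      4 * (w.re * (a - G.re)) + 2 * (b - G.re ^ 2) := by
    simp only [Complex.sq_norm, normSq_apply, mul_re, add_re, add_im, mul_im, re_ofNat, im_ofNat]
    ring
  have h1 := abs_le.1 (id3_mul ((abs_re_le_norm w).trans hw) ha)
  have h2 := abs_le.1 hb
  rw [e, abs_le]
  constructor <;> linarith only [h1, h2]

theorem id3_j {q a b E R : ℝ} {u A : ℂ} (hq0 : 0 ≤ q) (hq : q ≤ 9) (hu : ‖u‖ ≤ 6) (hA : ‖A‖ ≤ 1)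
    (hE : |q - 1| ≤ E) (hR : E ≤ R) (ha : |a - A.re| ≤ R) (hb : |b - A.re ^ 2| ≤ R) :
    |2 * (q * u.im) ^ 2 + 4 * (q * u.re) * a + 2 * b -
      ((4 * A * u + 2 * A ^ 2).re + 2 * (u + A).im ^ 2)| ≤ 1000 * R := by
  have e : 2 * (q * u.im) ^ 2 + 4 * (q * u.re) * a + 2 * b -
      ((4 * A * u + 2 * A ^ 2).re + 2 * (u + A).im ^ 2) =
      2 * ((q + 1) * (u.im * u.im) * (q - 1)) + 4 * (q * u.re * (a - A.re)) +
        4 * (u.re * A.re * (q - 1)) + 2 * (b - A.re ^ 2) := by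
    simp only [sq, mul_re, add_re, add_im, mul_im, re_ofNat, im_ofNat]
    ring
  have u1 := (abs_re_le_norm u).trans hu
  have u2 := (abs_im_le_norm u).trans hu
  have q1 : |q + 1| ≤ 10 := abs_le.2 ⟨by linarith only [hq0], by linarith only [hq]⟩
  have q2 : |q| ≤ 9 := abs_le.2 ⟨by linarith only [hq0], hq⟩
  have h1 := abs_le.1 (id3_mul (id3_mul q1 (id3_mul u2 u2)) (hE.trans hR))
  have h2 := abs_le.1 (id3_mul (id3_mul q2 u1) ha)
  have h3 := abs_le.1 (id3_mul (id3_mul u1 ((abs_re_le_norm A).trans hA)) (hE.trans hR))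
  have h4 := abs_le.1 hb
  have h5 := (abs_nonneg _).trans hb
  rw [e, abs_le]
  constructor <;> linarith only [h1, h2, h3, h4]

theorem id3_sum {β : Type} [Fintype β] {f g : β → ℝ} {R : ℝ} (h : ∀ j, |f j - g j| ≤ R) :
    |∑ j, f j - ∑ j, g j| ≤ Fintype.card β * R := by
  rw [← Finset.sum_sub_distrib]
  refine (Finset.abs_sum_le_sum_abs _ _).trans ((Finset.sum_le_sum fun j _ => h j).trans ?_)
  rw [Finset.sum_const, Finset.card_univ, nsmul_eq_mul]

theorem id3_nodes (m : ℕ) (x : EE) : ∑ ν, cut m ν (x js) * NN m ν x =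
    4 * (x jw).re * ∑ ν, cut m ν (x js) * (Cf m ν x * (Gk m ν (x js)).re) +
    2 * ∑ ν, cut m ν (x js) * (Cf m ν x ^ 2 * (Gk m ν (x js)).re ^ 2) +
    ∑ j, (4 * (x (jv j) * conj (x js)).re) *
      ∑ ν, (if grp m ν = j then cut m ν (x js) * (Cf m ν x * (Ak m ν (x js)).re) else 0) +
    ∑ j, 2 * ∑ ν,
      (if grp m ν = j then cut m ν (x js) * (Cf m ν x ^ 2 * (Ak m ν (x js)).re ^ 2) else 0) +
    ∑ l, cut m (l, true) (x js) * (bl m (l, true) x * (Sk m (l, true) (x js)).re) := by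
  have e1 : ∑ l, cut m (l, true) (x js) * (bl m (l, true) x * (Sk m (l, true) (x js)).re) =
      ∑ ν : Nd m, cut m ν (x js) * (if ν.2 then bl m ν x * (Sk m ν (x js)).re else 0) := by
    rw [Fintype.sum_prod_type]
    refine Finset.sum_congr rfl fun l _ => ?_
    rw [Fintype.sum_bool, if_pos rfl, if_neg Bool.false_ne_true, mul_zero, add_zero]
  rw [e1, ← id3_grp (grp m) _ fun j => 4 * (x (jv j) * conj (x js)).re,
    ← id3_grp (grp m) _ fun _ => 2, Finset.mul_sum, Finset.mul_sum, ← Finset.sum_add_distrib,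
    ← Finset.sum_add_distrib, ← Finset.sum_add_distrib, ← Finset.sum_add_distrib]
  refine Finset.sum_congr rfl fun ν _ => ?_
  unfold NN
  ring

theorem id3_cmp (m : ℕ) (k : Wd m) (x : EE) (hs : x js ≠ 0) :
    (x js * (zw m k x - x jz)).re = aa m *
      ((x js * GG1 m k (x js) (x jo) * (2 * x jw + x js * GG1 m k (x js) (x jo))).re +
        ∑ j, (4 * (x js ^ 2 * AA2 m k j (x js) (x jo)) * (x (jv j) / x js) +
          2 * (x js ^ 2 * AA2 m k j (x js) (x jo)) ^ 2).re +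
        ∑ l, (x js * (eta m k l (x jl) (x jo) * S1 m (l, true) (x js))).re) := by
  rw [← re_sum, ← re_sum, ← add_re, ← add_re, ← re_ofReal_mul, ← Finset.mul_sum]
  have e : ∑ j, (4 * (x js ^ 2 * AA2 m k j (x js) (x jo)) * (x (jv j) / x js) +
      2 * (x js ^ 2 * AA2 m k j (x js) (x jo)) ^ 2) = x js * ∑ j,
      (4 * AA2 m k j (x js) (x jo) * x (jv j) + 2 * x js ^ 3 * AA2 m k j (x js) (x jo) ^ 2) := by
    rw [Finset.mul_sum]
    refine Finset.sum_congr rfl fun j _ => ?_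
    field_simp
  rw [e]
  refine congrArg re ?_
  unfold zw cmp
  ring

/-- The identity (ID) of the paper. On the chart `box = chi = th = 1`. Exact algebra:
`‖w + G‖ ^ 2 + (G * (2 * w + G)).re = ‖w‖ ^ 2 + 4 * G.re * w.re + 2 * G.re ^ 2` and
`2 * (u + A).im ^ 2 + (4 * A * u + 2 * A ^ 2).re = 2 * u.im ^ 2 + 4 * A.re * u.re + 2 * A.re ^ 2` with
`u = v / s`, `v * conj s = q * u`, `‖u‖ ≤ 6`; regroup the sum over nodes by `grp`. -/
theorem id_main : ∀ᶠ m : ℕ in atTop, ∀ (k : Wd m) (x : EE), Chw m k x → 1 / 2 ≤ ‖x js‖ →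
    |fine m x - ((x js * (zw m k x - x jz)).re + (Phw m k x - ysq x - Xi x) +
      2 * aa m * ∑ j, (Yw m k j x).im ^ 2)| ≤ aa m * m ^ 40 * Er m x := by
  filter_upwards [id_G, id_A, id_S, id_Psi1, chw_geo, GG1_an, eventually_ge_atTop 1,
    ev_pow_le (14 + Fintype.card AX * 1000 + dd) (show 24 < 40 by norm_num)] with m hG hA hS hP hgeo
    hGG hm hev k x hx hs
  obtain ⟨hX, -, hT, -⟩ := hgeo k x hx
  obtain ⟨v1, -, v3, v4, -⟩ := hx.1
  have hm1 : (1 : ℝ) ≤ m := by exact_mod_cast hm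
  have he : 0 ≤ e2 m := by unfold e2; positivity
  have hs0 : x js ≠ 0 := norm_pos_iff.1 (by linarith only [hs])
  have hc : ∀ j, ‖x j‖ ≤ 3 := fun j => (norm_le_pi_norm x j).trans v4.le
  have hX2 : XX m x ^ 2 ≤ 4 ^ 2 := sq_le_sq' (abs_lt.1 hX).1.le (abs_lt.1 hX).2.le
  have hchi : chi (XX m x) = 1 := by
    unfold chi
    rw [st_zero (by norm_num) (by linarith only [hX2]), sub_zero]
  have hth : th m (XX m x) (TT m x) = 1 := by
    unfold th
    rw [st_zero (by norm_num) (by linarith only [hX2]), st_zero (by linarith only []) (by linarith only [hT])]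
    norm_num
  have hf : fine m x = aa m * (Qf x + Wall m (XX m x) (TT m x) +
      ∑ ν, cut m ν (x js) * NN m ν x) := by
    unfold fine Psi Psi0 cw
    rw [box_one v4.le, hP k x hx, hchi, hth]
    simp only [mul_one, one_pow, one_mul, mul_zero, add_zero]
  have hE0 : |qq x - 1| ≤ Er m x := by
    unfold Er
    linarith only [abs_nonneg (x jl).im, abs_nonneg (x jo).im, tl_pos m]
  have hE : 0 ≤ Er m x := (abs_nonneg _).trans hE0
  have hp : ∀ a : ℕ, a ≤ 24 → (m : ℝ) ^ a * Er m x ≤ m ^ 24 * Er m x := fun a ha =>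
    mul_le_mul_of_nonneg_right (pow_le_pow_right₀ hm1 ha) hE
  have hq : qq x ≤ 9 := by
    have := pow_le_pow_left₀ (norm_nonneg _) (hc js) 2
    unfold qq
    linarith only [this]
  have hvu : ∀ j, x (jv j) * conj (x js) = (qq x : ℝ) * (x (jv j) / x js) := fun j => by
    unfold qq
    rw [ofReal_pow, ← mul_conj']
    field_simp
  have hu : ∀ j, ‖x (jv j) / x js‖ ≤ 6 := fun j => by
    rw [norm_div, div_le_iff₀ (by linarith only [hs])]
    linarith only [hc (jv j), hs]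
  have hAn : ∀ j, ‖x js ^ 2 * AA2 m k j (x js) (x jo)‖ ≤ 1 := fun j => by
    have h1 := (hGG k (x js) (x jo) (by linarith only [v1, he]) v3.le).2.2.2
    have h2 := Finset.single_le_sum (f := fun j => ‖AA2 m k j (x js) (x jo)‖)
      (fun j _ => norm_nonneg _) (Finset.mem_univ j)
    rw [norm_mul, norm_pow]
    calc _ ≤ (9 : ℝ) * (1 / 100) := mul_le_mul hq (h2.trans h1) (norm_nonneg _) (by norm_num)
      _ ≤ 1 := by norm_num
  have b1 := abs_le.1 (id3_w (hc jw) ((hG k x hx).1.trans (hp 17 (by norm_num)))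
    ((hG k x hx).2.trans (hp 18 (by norm_num))))
  have b2 := abs_le.1 (id3_sum fun j => id3_j (sq_nonneg ‖x js‖) hq (hu j) (hAn j) hE0
    (by simpa only [pow_zero, one_mul] using hp 0 (by norm_num)) ((hA k x hx j).1.trans (hp 17 (by norm_num)))
    ((hA k x hx j).2.trans (hp 18 (by norm_num))))
  have b3 := id3_sum (hS k x hx)
  have c3 : (Fintype.card (Fin (kk m)) : ℝ) * (m ^ 23 * Er m x) = dd * (m ^ 24 * Er m x) := by
    rw [Fintype.card_fin]
    unfold kk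
    push_cast
    ring
  rw [c3, abs_le] at b3
  have b4 := mul_le_mul_of_nonneg_right hev hE
  have hQ : Qf x = ‖x jw‖ ^ 2 + ∑ j, 2 * (qq x * (x (jv j) / x js).im) ^ 2 := by
    unfold Qf
    rw [Finset.mul_sum]
    simp only [hvu, im_ofReal_mul]
  have hPh : Phw m k x - ysq x - Xi x = aa m * (Wall m (XX m x) (TT m x) +
      ∑ l, S0 m * etaR m k l (XX m x) (TT m x) + ‖x jw + x js * GG1 m k (x js) (x jo)‖ ^ 2) := by
    unfold Phw ww
    rw [← Finset.mul_sum]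
    ring
  have hY : 2 * aa m * ∑ j, (Yw m k j x).im ^ 2 = aa m *
      ∑ j, 2 * (x (jv j) / x js + x js ^ 2 * AA2 m k j (x js) (x jo)).im ^ 2 := by
    unfold Yw
    rw [← Finset.mul_sum]
    ring
  rw [hf, id3_cmp m k x hs0, hPh, hY, ← mul_add, ← mul_add, ← mul_sub, abs_mul,
    abs_of_pos (aa_pos m), mul_assoc (aa m)]
  refine mul_le_mul_of_nonneg_left ?_ (aa_pos m).le
  rw [id3_nodes, hQ]
  simp only [hvu, re_ofReal_mul]
  simp only [Finset.sum_add_distrib] at b2 b3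
  unfold qq
  rw [abs_le]
  constructor <;> linarith only [b1, b4, b2, b3]

/-- the form in which it is used -/
theorem id_rr : Big fun m0 m => ∀ (k : Wd m) (x : EE), Chw m k x → 1 / 2 ≤ ‖x js‖ →
    |rr m0 x - ((x js * zw m k x).re + ‖x jz‖ ^ 2 / Cz + (qq x - 1) ^ 2 + Phw m k x +
      2 * aa m * ∑ j, (Yw m k j x).im ^ 2 - sl (x jl).re)| ≤ aa m * m ^ 40 * Er m x := by
  refine (FS_win.and (Big.of_ev (id_main.and win_sub))).mono ?_
  rintro m0 m - ⟨h1, h2, h3⟩ k x hx hs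
  have hX : |XX m x| < 13 := hx.1.2.2.2.2.1.trans (by norm_num)
  have h4 := (h3 (x jl).re hX.le).1
  have h5 : HH (qq x) (x jl).re = (qq x - 1) ^ 2 := HH_eq (Or.inl (by linarith only [LL_pos, h4]))
  refine le_of_eq_of_le (congrArg abs ?_) (h2 k x hx hs)
  unfold rr base
  rw [(h1 x hX).eq_of_nhds, h5, mul_sub, sub_re]
  ring


end Pool.Agent.MP_bea40e_an.Iv

end

section

open Filter Topology Set Metric Complex
open scoped ContDiff ComplexConjugate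

namespace Pool.Agent.MP_bea40e_an.Iv

theorem lw_amgm (B t : ℝ) : B * |t| ≤ t ^ 2 / 2 + B ^ 2 / 2 := by
  have h := sq_nonneg (|t| - B)
  have h2 := sq_abs t
  nlinarith

theorem lw_err {B t y1 y2 τ Φ : ℝ} (hΦ : y1 ^ 2 + y2 ^ 2 ≤ Φ) :
    B * (|t| + |y1| + |y2| + τ) ≤ t ^ 2 / 2 + Φ / 2 + 3 / 2 * B ^ 2 + B * τ := by
  have h1 := lw_amgm B t
  have h2 := lw_amgm B y1
  have h3 := lw_amgm B y2
  linarith only [hΦ, h1, h2, h3]

theorem lw_small : ∀ᶠ m : ℕ in atTop, 0 < m ∧ mu m ≤ 1 / 100 ∧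
    (aa m * m ^ 40) ^ 2 ≤ mu m ^ 13 / 100 ∧ aa m * m ^ 40 * tl m ≤ mu m ^ 13 / 100 ∧
    (1281 * (aa m * m ^ 10)) ^ 2 / Cz ≤ mu m ^ 8 := by
  filter_upwards [eventually_gt_atTop 0, ev_mu' 100 0, ev_mu' 100 80, ev_tl 100 40 13,
    ev_mu' (1281 ^ 2 / Cz) 20] with m h0 h1 h2 h3 h4
  have hμ := mu_pos m
  have hμ1 := mu_le_one m
  have hτ := tl_pos m
  have hC := Cz_pos
  refine ⟨h0, by simp only [pow_zero, mul_one] at h1; linarith only [h1], ?_, ?_, ?_⟩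
  · have e : (aa m * m ^ 40) ^ 2 = mu m ^ 13 / 100 * (100 * (m : ℝ) ^ 80 * mu m) := by
      unfold aa; ring
    rw [e]
    exact mul_le_of_le_one_right (by positivity) h2
  · have ha : aa m ≤ 1 := pow_le_one₀ hμ.le hμ1
    have h5 : (m : ℝ) ^ 40 * tl m ≤ mu m ^ 13 / 100 := by linarith only [h3]
    calc aa m * m ^ 40 * tl m = aa m * (m ^ 40 * tl m) := by ring
      _ ≤ 1 * (m ^ 40 * tl m) := by gcongr
      _ ≤ _ := by linarith only [h3]
  · have e : (1281 * (aa m * m ^ 10)) ^ 2 / Cz =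
        mu m ^ 8 * (mu m ^ 5 * (1281 ^ 2 / Cz * (m : ℝ) ^ 20 * mu m)) := by
      unfold aa; ring
    rw [e]
    refine mul_le_of_le_one_right (by positivity) ?_
    exact mul_le_one₀ (pow_le_one₀ hμ.le hμ1) (by positivity) h4

theorem lw_half {x : EE} (h : 1 / 4 ≤ qq x) : 1 / 2 ≤ ‖x js‖ := by
  unfold qq at h
  by_contra hc
  have h0 := norm_nonneg (x js)
  nlinarith

/-- `crude` gives `1 / 2 ≤ ‖s‖`; then `id_rr`, `sl_win`, and
`aa m ^ 40 |t| ≤ t ^ 2 / 2 + (aa m ^ 40) ^ 2 / 2` for `t = q - 1, im l, im o` -/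
theorem ok_low_some : Big fun m0 m => ∀ k, ∀ x ∈ (tdm m0 m).Cop (some k) 5,
    -(tdm m0 m).L / 4 ≤ (tdm m0 m).lam x → (tdm m0 m).r x ≤ (tdm m0 m).mm x ^ 8 →
    ((tdm m0 m).Z (some k) x).re + ((tdm m0 m).q x - 1) ^ 2 / 2 + (tdm m0 m).Φ (some k) x / 2 +
      (tdm m0 m).wt (some k) x * ∑ i, ((tdm m0 m).Y (some k) i x).im ^ 2 ≤
      (tdm m0 m).r x + (tdm m0 m).mm x ^ 13 / 10 := by
  refine ((((Big.of_ev0 crude).and id_rr).and (Big.of_ev sl_win)).and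
    ((Big.of_ev lw_small).and (Big.of_ev ysq_le_Phw))).mono ?_
  rintro m0 m - ⟨⟨⟨hcr, hid⟩, hsl⟩, ⟨hm, hμs, hB, hBτ, -⟩, hys⟩ k x hx hlam hr
  obtain ⟨hch, hM⟩ := cop_chw hm hx
  change -LL / 4 ≤ (x jl).re at hlam
  change rr m0 x ≤ ms m (x jl).re ^ 8 at hr
  change (x js * zw m k x).re + (qq x - 1) ^ 2 / 2 + Phw m k x / 2 +
    aa m * ∑ i, (Yw m k i x).im ^ 2 ≤ rr m0 x + ms m (x jl).re ^ 13 / 10
  have hμ := mu_pos m
  have hM0 := mu_le_ms m (x jl).re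
  have hL := LL_pos
  have h8 : ms m (x jl).re ^ 8 ≤ (1 / 50) ^ 8 :=
    pow_le_pow_left₀ (by linarith only [hμ, hM0]) (by linarith only [hμs, hM]) 8
  have hr6 : rr m0 x ≤ 1 / 10 ^ 6 := hr.trans (h8.trans (by norm_num))
  have hq := (hcr x hr6).2.2.2.2 (by linarith only [hlam, hL])
  have hs : 1 / 2 ≤ ‖x js‖ := lw_half (by have := (abs_le.1 hq).1; linarith only [this])
  have h1 := (abs_le.1 (hid k x hch hs)).1
  have hX : |Xr m (x jl).re| ≤ 13 := by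
    have : |XX m x| < 6 := hch.1.2.2.2.2.1
    unfold XX at this
    linarith only [hμs, hμ, this]
  have h2 := (hsl _ hX).2
  have hΦ : (x jl).im ^ 2 + (x jo).im ^ 2 ≤ Phw m k x := by
    have h3 := hys k x
    have h4 := Xi_nonneg x
    unfold ysq at h3
    linarith only [h3, h4]
  have h3 := lw_err (B := aa m * m ^ 40) (t := qq x - 1) (τ := tl m) hΦ
  have h4 : 0 ≤ ‖x jz‖ ^ 2 / Cz := div_nonneg (sq_nonneg _) Cz_pos.le
  have h5 : 0 ≤ aa m * ∑ i, (Yw m k i x).im ^ 2 :=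
    mul_nonneg (aa_pos m).le (Finset.sum_nonneg fun i _ => sq_nonneg _)
  have h6 : mu m ^ 13 ≤ ms m (x jl).re ^ 13 := pow_le_pow_left₀ hμ.le hM0 13
  have h7 : 0 < mu m ^ 13 := by positivity
  unfold Er at h1
  linarith

/-- `id_rr`; there are `1400` indices; `‖z‖ ≤ ‖zw‖ + aa m ^ 10` -/
theorem ok_up_some : Big fun m0 m => ∀ k, ∀ x ∈ (tdm m0 m).Cop (some k) 5,
    -(tdm m0 m).L / 4 ≤ (tdm m0 m).lam x → 1 - 12 * (tdm m0 m).mm x ^ 4 ≤ (tdm m0 m).q x →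
    ‖x (tdm m0 m).iz‖ ^ 2 ≤ 5 * (tdm m0 m).Cz ^ 2 →
    (∀ i, |((tdm m0 m).Y (some k) i x).im| * √(tdm m0 m).a ≤ 6 * (tdm m0 m).mm x ^ 4) →
    (tdm m0 m).r x ≤ (tdm m0 m).c * (tdm m0 m).mm x ^ 8 := by
  refine ((id_rr.and (Big.of_ev word_an)).and
    ((Big.of_ev lw_small).and (Big.of_ev ysq_le_Phw))).mono ?_
  rintro m0 m - ⟨⟨hid, hwa⟩, ⟨hm, hμs, hB, hBτ, hz⟩, hys⟩ k x hx - hq - hY
  obtain ⟨hch, hM⟩ := cop_chw hm hx
  obtain ⟨hV, hzw, hq1, hΦ1, -⟩ := (mem_Cop_some m0 m k 5 x).1 hx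
  change 1 - 12 * ms m (x jl).re ^ 4 ≤ qq x at hq
  change ∀ i, |(Yw m k i x).im| * √(aa m) ≤ 6 * ms m (x jl).re ^ 4 at hY
  change rr m0 x ≤ 10 ^ 6 * ms m (x jl).re ^ 8
  have hμ := mu_pos m
  have hμ1 := mu_le_one m
  have hM0 := mu_le_ms m (x jl).re
  have ha := aa_pos m
  generalize ms m (x jl).re = M at *
  have hMp : 0 < M := by linarith only [hμ, hM0]
  have h4 : M ^ 4 ≤ (1 / 50) ^ 4 := pow_le_pow_left₀ hMp.le (by linarith only [hμs, hM]) 4
  have hs : 1 / 2 ≤ ‖x js‖ := lw_half (by norm_num at h4; linarith only [hq, h4])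
  have h1 := (abs_le.1 (hid k x hch hs)).2
  have hΦ : (x jl).im ^ 2 + (x jo).im ^ 2 ≤ Phw m k x := by
    have h3 := hys k x
    have h4 := Xi_nonneg x
    unfold ysq at h3
    linarith only [h3, h4]
  have h3 := lw_err (B := aa m * m ^ 40) (t := qq x - 1) (τ := tl m) hΦ
  have hm1 : (1 : ℝ) ≤ m := by exact_mod_cast hm
  have hs2 : ‖x js‖ ≤ 2 := by
    have h5 : ‖x js‖ < 1 + e2 m := hV.1
    have h6 : e2 m ≤ 1 := by
      unfold e2
      exact div_le_one_of_le₀ (one_le_pow₀ hm1) (by positivity)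
    linarith only [h5, h6]
  have hM8 : 0 < M ^ 8 := by positivity
  have hZ : (x js * zw m k x).re ≤ 10 * M ^ 8 := by
    calc (x js * zw m k x).re ≤ ‖x js * zw m k x‖ := re_le_norm _
      _ = ‖x js‖ * ‖zw m k x‖ := norm_mul _ _
      _ ≤ 2 * (5 * M ^ 8) := by gcongr
      _ = 10 * M ^ 8 := by ring
  have hμ8 : mu m ^ 8 ≤ M ^ 8 := pow_le_pow_left₀ hμ.le hM0 8
  have hμ13 : mu m ^ 13 ≤ mu m ^ 8 := pow_le_pow_of_le_one hμ.le hμ1 (by norm_num)
  have hzz : ‖x jz‖ ^ 2 / Cz ≤ M ^ 8 := by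
    have h5 := (hwa k x hV).2.2.2.1
    have h6 : M ^ 8 ≤ (2 * mu m) ^ 8 := pow_le_pow_left₀ hMp.le hM 8
    have h7 : mu m ^ 8 ≤ aa m := pow_le_pow_of_le_one hμ.le hμ1 (by norm_num)
    have h8 : aa m ≤ aa m * m ^ 10 := le_mul_of_one_le_right ha.le (one_le_pow₀ hm1)
    have h9 : ‖x jz‖ ≤ ‖zw m k x‖ + ‖zw m k x - x jz‖ := by
      have := norm_sub_le (zw m k x) (zw m k x - x jz)
      rwa [sub_sub_cancel] at this
    have h10 : ‖x jz‖ ≤ 1281 * (aa m * m ^ 10) := by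
      rw [mul_pow] at h6
      norm_num at h6
      linarith only [hzw, h5, h7, h8, h9, h6]
    calc ‖x jz‖ ^ 2 / Cz ≤ (1281 * (aa m * m ^ 10)) ^ 2 / Cz := by
          have := Cz_pos
          gcongr
      _ ≤ M ^ 8 := hz.trans hμ8
  have ht : (qq x - 1) ^ 2 ≤ 2500 * M ^ 8 := by
    have h5 : 0 < M ^ 4 := by positivity
    have h6 : (qq x - 1) ^ 2 ≤ (50 * M ^ 4) ^ 2 := sq_le_sq' (by linarith only [hq, h5]) (by linarith only [hq1])
    calc (qq x - 1) ^ 2 ≤ (50 * M ^ 4) ^ 2 := h6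
      _ = 2500 * M ^ 8 := by ring
  have hS : aa m * ∑ i, (Yw m k i x).im ^ 2 ≤ 1400 * (36 * M ^ 8) := by
    rw [Finset.mul_sum]
    have h5 : ∀ i ∈ (Finset.univ : Finset AX), aa m * (Yw m k i x).im ^ 2 ≤ 36 * M ^ 8 := by
      intro i _
      have h6 : (|(Yw m k i x).im| * √(aa m)) ^ 2 ≤ (6 * M ^ 4) ^ 2 :=
        pow_le_pow_left₀ (by positivity) (hY i) 2
      rw [mul_pow, sq_abs, Real.sq_sqrt ha.le] at h6
      calc aa m * (Yw m k i x).im ^ 2 = (Yw m k i x).im ^ 2 * aa m := by ring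
        _ ≤ (6 * M ^ 4) ^ 2 := h6
        _ = 36 * M ^ 8 := by ring
    have h6 := Finset.sum_le_card_nsmul _ _ _ h5
    have h7 : (Finset.univ : Finset AX).card = 1400 := by
      rw [Finset.card_univ, Fintype.card_prod, Fintype.card_bool, Fintype.card_fin]
      rfl
    rw [h7, nsmul_eq_mul] at h6
    exact_mod_cast h6
  have hsl := sl_nonneg (x jl).re
  unfold Er at h1
  linarith


end Pool.Agent.MP_bea40e_an.Iv

end

section

open Filter Topology Set Metric Complex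
open scoped ContDiff ComplexConjugate

namespace Pool.Agent.MP_bea40e_an.Iv

theorem lo_im (v s : ℂ) : (v * conj s).im = ‖s‖ ^ 2 * (v / s).im := by
  by_cases hs : s = 0
  · simp [hs]
  · have h1 : v * conj s = ((‖s‖ ^ 2 : ℝ) : ℂ) * (v / s) := by
      have h2 : ((‖s‖ ^ 2 : ℝ) : ℂ) = s * conj s := by
        rw [Complex.mul_conj, Complex.normSq_eq_norm_sq]
      rw [h2]
      field_simp
    rw [h1, Complex.im_ofReal_mul]

theorem lo_chi (X : ℝ) : chi X ^ 2 ≤ 1 := by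
  have h1 := st_nonneg 121 144 (X ^ 2)
  have h2 := st_le_one 121 144 (X ^ 2)
  unfold chi
  nlinarith only [h1, h2]

theorem lo_LL : 3 * LL ≤ 1 / 100 := by
  unfold LL
  norm_num

theorem lo_pow {a : ℝ} (h0 : 0 < a) (h : a ≤ 1 / 100) :
    a ^ 8 ≤ 1 / 10 ^ 6 ∧ a ^ 4 ≤ 1 / 100 ∧ a ^ 13 ≤ a ^ 8 := by
  refine ⟨?_, ?_, ?_⟩
  · calc a ^ 8 ≤ (1 / 100) ^ 8 := pow_le_pow_left₀ h0.le h 8
      _ ≤ 1 / 10 ^ 6 := by norm_num
  · calc a ^ 4 ≤ (1 / 100) ^ 4 := pow_le_pow_left₀ h0.le h 4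
      _ ≤ 1 / 100 := by norm_num
  · exact pow_le_pow_of_le_one h0.le (by linarith) (by norm_num)

/-- on the outer chart no node is active: `out_geo`, `psi_idle` -/
theorem out_rr : Big fun m0 m => ∀ x ∈ (tdm m0 m).Cop none 5, -LL / 4 ≤ (x jl).re →
    |rr m0 x - ((x js * x jz).re + ‖x jz‖ ^ 2 / Cz + (qq x - 1) ^ 2 + Pho m x +
      2 * (aa m * chi (XX m x) ^ 2) * ∑ j, (x (jv j) * conj (x js)).im ^ 2 - sl (x jl).re)| ≤
      ms m (x jl).re ^ 13 / 40 := by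
  refine (out_geo.and FS_other).mono ?_
  rintro m0 m - ⟨hg, hF⟩ x hx hl
  have hV := ((mem_Cop_none m0 m 5 x).1 hx).1
  have hb : box x = 1 := box_one hV.1.le
  have hL := LL_pos
  have hH : HH (qq x) (x jl).re = (qq x - 1) ^ 2 := HH_eq (Or.inl (by linarith))
  have hP : Psi m x = chi (XX m x) ^ 2 * Qf x + Wall m (XX m x) (TT m x) := by
    apply psi_idle
    rcases (hg x hx).1 with h | h | h
    · left; linarith only [h]
    · right; left; linarith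
    · right; right; linarith
  have hE : rr m0 x - ((x js * x jz).re + ‖x jz‖ ^ 2 / Cz + (qq x - 1) ^ 2 + Pho m x +
      2 * (aa m * chi (XX m x) ^ 2) * ∑ j, (x (jv j) * conj (x js)).im ^ 2 - sl (x jl).re) =
      FS m0 x - fine m x := by
    unfold rr base fine Pho
    rw [hH, hb, hP]
    unfold Qf
    ring
  rw [hE]
  exact hF x

/-- `(v * conj s).im = q * (v / s).im`, `crude`, `sl_le_ms` -/
theorem ok_low_none : Big fun m0 m => ∀ x ∈ (tdm m0 m).Cop none 5,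
    -(tdm m0 m).L / 4 ≤ (tdm m0 m).lam x → (tdm m0 m).r x ≤ (tdm m0 m).mm x ^ 8 →
    ((tdm m0 m).Z none x).re + ((tdm m0 m).q x - 1) ^ 2 / 2 + (tdm m0 m).Φ none x / 2 +
      (tdm m0 m).wt none x * ∑ i, ((tdm m0 m).Y none i x).im ^ 2 ≤
      (tdm m0 m).r x + (tdm m0 m).mm x ^ 13 / 10 := by
  refine (out_rr.and ((Big.of_ev0 crude).and (Big.of_ev (ms_le_L.and sl_le_ms)))).mono ?_
  rintro m0 m - ⟨hr, hc, hm, hs⟩ x hx hl hle
  change -LL / 4 ≤ (x jl).re at hl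
  change rr m0 x ≤ ms m (x jl).re ^ 8 at hle
  change (x js * x jz).re + (qq x - 1) ^ 2 / 2 + Pho m x / 2 +
    aa m * chi (XX m x) ^ 2 * ∑ i, (x (jv i) / x js).im ^ 2 ≤ rr m0 x + ms m (x jl).re ^ 13 / 10
  have hV := ((mem_Cop_none m0 m 5 x).1 hx).1
  have hL := LL_pos
  have hm0 := ms_pos m (x jl).re
  have hm1 : ms m (x jl).re ≤ 1 / 100 := (hm _ hV.2.le).trans lo_LL
  obtain ⟨p8, -, -⟩ := lo_pow hm0 hm1
  have hq := (hc x (hle.trans p8)).2.2.2.2 (by linarith only [hl, hL])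
  have hq1 : 9 / 10 ≤ qq x := by have := (abs_le.1 hq).1; linarith only [this]
  have h1 := (abs_le.1 (hr x hx hl)).1
  have h2 := hs _ hV.2.le
  have hz : 0 ≤ ‖x jz‖ ^ 2 / Cz := div_nonneg (sq_nonneg _) Cz_pos.le
  have hP : 0 ≤ Pho m x := by
    have h3 := ysq_le_Pho m x
    have h4 := Xi_nonneg x
    have h5 : 0 ≤ ysq x := by unfold ysq; positivity
    linarith only [h3, h4, h5]
  have hw : 0 ≤ aa m * chi (XX m x) ^ 2 := mul_nonneg (aa_pos m).le (sq_nonneg _)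
  have hS : ∑ i, (x (jv i) / x js).im ^ 2 ≤ 2 * ∑ j, (x (jv j) * conj (x js)).im ^ 2 := by
    rw [Finset.mul_sum]
    refine Finset.sum_le_sum fun j _ => ?_
    rw [lo_im]
    change _ ≤ 2 * (qq x * _) ^ 2
    have h6 : 1 ≤ 2 * qq x ^ 2 := by nlinarith only [hq1]
    have h7 := sq_nonneg (x (jv j) / x js).im
    nlinarith
  have h8 := mul_le_mul_of_nonneg_left hS hw
  have h9 := sq_nonneg (qq x - 1)
  have h10 : 0 ≤ ms m (x jl).re ^ 13 := by positivity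
  nlinarith only [h1, h2, hz, hP, h8, h10]

/-- `‖z‖ ^ 2 / Cz ≤ 3 ‖z‖` -/
theorem ok_up_none : Big fun m0 m => ∀ x ∈ (tdm m0 m).Cop none 5,
    -(tdm m0 m).L / 4 ≤ (tdm m0 m).lam x → 1 - 12 * (tdm m0 m).mm x ^ 4 ≤ (tdm m0 m).q x →
    ‖x (tdm m0 m).iz‖ ^ 2 ≤ 5 * (tdm m0 m).Cz ^ 2 →
    (∀ i, |((tdm m0 m).Y none i x).im| * √(tdm m0 m).a ≤ 6 * (tdm m0 m).mm x ^ 4) →
    (tdm m0 m).r x ≤ (tdm m0 m).c * (tdm m0 m).mm x ^ 8 := by
  refine (out_rr.and (Big.of_ev ms_le_L)).mono ?_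
  rintro m0 m - ⟨hr, hm⟩ x hx hl hq hz hY
  change -LL / 4 ≤ (x jl).re at hl
  change 1 - 12 * ms m (x jl).re ^ 4 ≤ qq x at hq
  change ‖x jz‖ ^ 2 ≤ 5 * Cz ^ 2 at hz
  change ∀ i, |(x (jv i) / x js).im| * √(aa m) ≤ 6 * ms m (x jl).re ^ 4 at hY
  change rr m0 x ≤ 10 ^ 6 * ms m (x jl).re ^ 8
  obtain ⟨hV, c1, c2, c3, -⟩ := (mem_Cop_none m0 m 5 x).1 hx
  have hm0 := ms_pos m (x jl).re
  have hm1 : ms m (x jl).re ≤ 1 / 100 := (hm _ hV.2.le).trans lo_LL
  obtain ⟨-, p4, p13⟩ := lo_pow hm0 hm1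
  have h1 := (abs_le.1 (hr x hx hl)).2
  generalize hM : ms m (x jl).re = M at *
  have hM4 : 0 < M ^ 4 := by positivity
  have hM8 : M ^ 8 = M ^ 4 * M ^ 4 := by ring
  have hM8' : 0 < M ^ 8 := by positivity
  have hC := Cz_pos
  have hs3 : ‖x js‖ ≤ 3 := (norm_le_pi_norm x js).trans hV.1.le
  have a1 : (x js * x jz).re ≤ 15 * M ^ 8 := by
    have h2 : (x js * x jz).re ≤ ‖x js‖ * ‖x jz‖ := by
      rw [← norm_mul]
      exact Complex.re_le_norm _
    have h3 := mul_le_mul_of_nonneg_right hs3 (norm_nonneg (x jz))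
    linarith only [c1, h2, h3]
  have a2 : ‖x jz‖ ^ 2 / Cz ≤ 15 * M ^ 8 := by
    have h2 : ‖x jz‖ ≤ 3 * Cz := by
      apply abs_le_of_sq_le_sq' _ (by positivity) |>.2
      linarith only [sq_nonneg Cz, hz]
    rw [div_le_iff₀ hC]
    have h3 := mul_le_mul_of_nonneg_left h2 (norm_nonneg (x jz))
    have h4 := mul_le_mul_of_nonneg_right c1.le hC.le
    linarith only [h3, h4]
  have a3 : (qq x - 1) ^ 2 ≤ 2500 * M ^ 8 := by
    have h2 : |qq x - 1| ≤ 50 * M ^ 4 := abs_le.2 ⟨by linarith only [hq, hM4], by linarith only [c2]⟩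
    have h3 := pow_le_pow_left₀ (abs_nonneg _) h2 2
    rw [sq_abs] at h3
    linarith only [h3]
  have hq0 : 0 ≤ qq x := by unfold qq; positivity
  have hq2 : qq x ≤ 2 := by linarith only [c2, p4]
  have ha := aa_pos m
  have a4 : aa m * ∑ j, (x (jv j) * conj (x js)).im ^ 2 ≤ 1400 * (144 * M ^ 8) := by
    rw [Finset.mul_sum]
    have h2 : ∑ _j : AX, 144 * M ^ 8 = 1400 * (144 * M ^ 8) := by
      rw [Finset.sum_const, Finset.card_univ, Fintype.card_prod, Fintype.card_bool,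
        Fintype.card_fin, nsmul_eq_mul]
      unfold dd
      norm_num
    rw [← h2]
    refine Finset.sum_le_sum fun j _ => ?_
    rw [lo_im]
    change aa m * (qq x * _) ^ 2 ≤ _
    have h3 := pow_le_pow_left₀ (mul_nonneg (abs_nonneg _) (Real.sqrt_nonneg _)) (hY j) 2
    rw [mul_pow, sq_abs, Real.sq_sqrt ha.le] at h3
    have h4 : qq x ^ 2 ≤ 4 := by nlinarith only [hq, c2, p4]
    have h5 : 0 ≤ (x (jv j) / x js).im ^ 2 * aa m := mul_nonneg (sq_nonneg _) ha.le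
    have h6 := mul_le_mul_of_nonneg_right h4 h5
    linarith only [h3, h6]
  have a5 : 2 * (aa m * chi (XX m x) ^ 2) * ∑ j, (x (jv j) * conj (x js)).im ^ 2 ≤
      2 * (1400 * (144 * M ^ 8)) := by
    have h2 := lo_chi (XX m x)
    have h3 : 0 ≤ aa m * ∑ j, (x (jv j) * conj (x js)).im ^ 2 :=
      mul_nonneg ha.le (Finset.sum_nonneg fun j _ => sq_nonneg _)
    have h4 := mul_le_mul_of_nonneg_right h2 h3
    linarith only [a4, h4]
  have a6 := sl_nonneg (x jl).re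
  linarith only [c3, p13, h1, hM8', a1, a2, a3, a5, a6]


end Pool.Agent.MP_bea40e_an.Iv

end

section

open Filter Topology Set Metric Complex
open scoped ContDiff ComplexConjugate

namespace Pool.Agent.MP_bea40e_an.Iv

/-! Data of words which differ only at stages whose ramp has not started. -/

noncomputable def cl1_G (m : ℕ) (Γ : Fin (kk m) → ℂ) (s : ℂ) : ℂ := ∑ ν : Nd m, Γ ν.1 * G1 m ν s

noncomputable def cl1_A (m : ℕ) (Γ : Fin (kk m) → ℂ) (j : AX) (s : ℂ) : ℂ :=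
  ∑ ν : Nd m, if grp m ν = j then Γ ν.1 * A2 m ν s else 0

noncomputable def cl1_C (m : ℕ) (Γ η : Fin (kk m) → ℂ) (s w : ℂ) (v : AX → ℂ) : ℂ :=
  cl1_G m Γ s * (2 * w + s * cl1_G m Γ s) +
    ∑ j, (4 * cl1_A m Γ j s * v j + 2 * s ^ 3 * cl1_A m Γ j s ^ 2) + ∑ l, η l * S1 m (l, true) s

variable {m : ℕ} {Γ Γ' η η' : Fin (kk m) → ℂ} {s w : ℂ} {v : AX → ℂ} {δ : ℝ}

theorem cl1_G_sub : cl1_G m Γ s - cl1_G m Γ' s = cl1_G m (fun l => Γ l - Γ' l) s := by
  unfold cl1_G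
  rw [← Finset.sum_sub_distrib]
  exact Finset.sum_congr rfl fun ν _ => (sub_mul _ _ _).symm

theorem cl1_A_sub (j : AX) :
    cl1_A m Γ j s - cl1_A m Γ' j s = cl1_A m (fun l => Γ l - Γ' l) j s := by
  unfold cl1_A
  rw [← Finset.sum_sub_distrib]
  refine Finset.sum_congr rfl fun ν _ => ?_
  split_ifs
  exacts [(sub_mul _ _ _).symm, sub_zero _]

theorem cl1_sum {f : Nd m → ℂ} (hδ : 0 ≤ δ) (h : ∑ ν, ‖f ν‖ ≤ 1 / 100) (a : ∀ l, ‖Γ l‖ ≤ δ) :
    ∑ ν, ‖Γ ν.1 * f ν‖ ≤ δ / 100 :=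
  calc ∑ ν, ‖Γ ν.1 * f ν‖ ≤ ∑ ν, δ * ‖f ν‖ := Finset.sum_le_sum fun ν _ => by
        rw [norm_mul]
        exact mul_le_mul_of_nonneg_right (a _) (norm_nonneg _)
    _ ≤ δ / 100 := by
        rw [← Finset.mul_sum]
        linarith [mul_le_mul_of_nonneg_left h hδ]

theorem cl1_G_le (hδ : 0 ≤ δ) (h : ∑ ν, ‖G1 m ν s‖ ≤ 1 / 100) (a : ∀ l, ‖Γ l‖ ≤ δ) :
    ‖cl1_G m Γ s‖ ≤ δ / 100 :=
  (norm_sum_le _ _).trans (cl1_sum hδ h a)

theorem cl1_A_le (hδ : 0 ≤ δ) (h : ∑ ν, ‖A2 m ν s‖ ≤ 1 / 100) (a : ∀ l, ‖Γ l‖ ≤ δ) :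
    ∑ j, ‖cl1_A m Γ j s‖ ≤ δ / 100 := by
  refine le_trans (Finset.sum_le_sum fun j _ => norm_sum_le _ _) ?_
  rw [Finset.sum_comm]
  refine le_trans (le_of_eq (Finset.sum_congr rfl fun ν _ => ?_)) (cl1_sum hδ h a)
  simp only [apply_ite norm, norm_zero, Finset.sum_ite_eq, Finset.mem_univ, if_true]

theorem cl1_one (hδ : 0 ≤ δ) (h : ∑ ν, ‖A2 m ν s‖ ≤ 1 / 100) (a : ∀ l, ‖Γ l‖ ≤ δ) (j : AX) :
    ‖cl1_A m Γ j s‖ ≤ δ / 100 :=
  (Finset.single_le_sum (f := fun j => ‖cl1_A m Γ j s‖) (fun _ _ => norm_nonneg _)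
    (Finset.mem_univ j)).trans (cl1_A_le hδ h a)

theorem cl1_core (hδ : 0 ≤ δ) (hs : ‖s‖ ≤ 3) (hw : ‖w‖ ≤ 3) (hv : ∀ j, ‖v j‖ ≤ 3)
    (h1 : ∑ ν, ‖G1 m ν s‖ ≤ 1 / 100) (h2 : ∑ ν, ‖A2 m ν s‖ ≤ 1 / 100)
    (h3 : ∀ ν, ‖S1 m ν s‖ ≤ m ^ 8) (a : ∀ l, ‖Γ l‖ ≤ 1) (a' : ∀ l, ‖Γ' l‖ ≤ 1)
    (b : ∀ l, ‖Γ l - Γ' l‖ ≤ δ) (c : ∀ l, ‖η l - η' l‖ ≤ δ) :
    ‖cl1_C m Γ η s w v - cl1_C m Γ' η' s w v‖ ≤ (1 + kk m * m ^ 8) * δ ∧
      ‖s * cl1_G m Γ s - s * cl1_G m Γ' s‖ ≤ δ ∧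
      |‖w + s * cl1_G m Γ s‖ ^ 2 - ‖w + s * cl1_G m Γ' s‖ ^ 2| ≤ δ ∧
      ∀ j, ‖s ^ 2 * cl1_A m Γ j s - s ^ 2 * cl1_A m Γ' j s‖ ≤ δ := by
  have g := cl1_G_le zero_le_one h1 a
  have g' := cl1_G_le zero_le_one h1 a'
  have gd : ‖cl1_G m Γ s - cl1_G m Γ' s‖ ≤ δ / 100 := cl1_G_sub ▸ cl1_G_le hδ h1 b
  have n : ∀ {z : ℂ} {r : ℝ}, ‖z‖ ≤ r → ‖s * z‖ ≤ 3 * r := fun h => norm_mul_le_of_le hs h
  have s1 : ‖s * cl1_G m Γ s - s * cl1_G m Γ' s‖ ≤ 3 * (δ / 100) := by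
    rw [← mul_sub]
    exact n gd
  refine ⟨?_, by linarith only [hδ, s1], ?_, fun j => ?_⟩
  · have e : cl1_C m Γ η s w v - cl1_C m Γ' η' s w v =
        (cl1_G m Γ s - cl1_G m Γ' s) * (2 * w + (s * cl1_G m Γ s + s * cl1_G m Γ' s)) +
        ∑ j, (cl1_A m Γ j s - cl1_A m Γ' j s) *
          (4 * v j + 2 * (s * (s * (s * (cl1_A m Γ j s + cl1_A m Γ' j s))))) +
        ∑ l, (η l - η' l) * S1 m (l, true) s := by
      unfold cl1_C
      have : ∀ j, (cl1_A m Γ j s - cl1_A m Γ' j s) *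
          (4 * v j + 2 * (s * (s * (s * (cl1_A m Γ j s + cl1_A m Γ' j s))))) =
          (4 * cl1_A m Γ j s * v j + 2 * s ^ 3 * cl1_A m Γ j s ^ 2) -
          (4 * cl1_A m Γ' j s * v j + 2 * s ^ 3 * cl1_A m Γ' j s ^ 2) := fun j => by ring
      simp only [this, sub_mul (η _), Finset.sum_sub_distrib]
      ring
    have t1 := norm_mul_le_of_le gd (norm_add_le_of_le (norm_mul_le_of_le Complex.norm_two.le hw)
      (norm_add_le_of_le (n g) (n g')))
    have t2 : ‖∑ j, (cl1_A m Γ j s - cl1_A m Γ' j s) *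
        (4 * v j + 2 * (s * (s * (s * (cl1_A m Γ j s + cl1_A m Γ' j s)))))‖ ≤ δ / 100 * 14 := by
      refine (norm_sum_le _ _).trans (le_trans (Finset.sum_le_sum (g := fun j =>
        ‖cl1_A m (fun l => Γ l - Γ' l) j s‖ * 14) fun j _ => ?_) ?_)
      · rw [cl1_A_sub]
        refine norm_mul_le_of_le le_rfl (le_trans (norm_add_le_of_le
          (norm_mul_le_of_le (Complex.norm_ofNat 4).le (hv j))
          (norm_mul_le_of_le Complex.norm_two.le (n (n (n (norm_add_le_of_le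
            (cl1_one zero_le_one h2 a j) (cl1_one zero_le_one h2 a' j))))))) (by norm_num))
      · rw [← Finset.sum_mul]
        exact mul_le_mul_of_nonneg_right (cl1_A_le hδ h2 b) (by norm_num)
    have t3 : ‖∑ l, (η l - η' l) * S1 m (l, true) s‖ ≤ kk m * (δ * m ^ 8) := by
      refine (norm_sum_le _ _).trans ((Finset.sum_le_sum fun l _ =>
        norm_mul_le_of_le (c l) (h3 _)).trans ?_)
      rw [Finset.sum_const, Finset.card_univ, Fintype.card_fin, nsmul_eq_mul]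
    rw [e]
    refine (norm_add_le_of_le (norm_add_le_of_le t1 t2) t3).trans ?_
    linarith only [hδ]
  · have p := norm_add_le_of_le hw (n g)
    have p' := norm_add_le_of_le hw (n g')
    have q := abs_norm_sub_norm_le (w + s * cl1_G m Γ s) (w + s * cl1_G m Γ' s)
    rw [add_sub_add_left_eq_sub] at q
    rw [sq_sub_sq, abs_mul, abs_of_nonneg (by positivity)]
    refine (mul_le_mul (add_le_add p p') (q.trans s1) (abs_nonneg _) (by norm_num)).trans ?_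
    linarith only [hδ]
  · rw [← mul_sub, cl1_A_sub, sq, mul_assoc]
    linarith only [n (n (cl1_one hδ h2 b j)), hδ]

theorem cl1_tl (m : ℕ) {t : ℝ} (h : t ≤ -1 / 3) : Real.exp (m ^ 2 * t) ≤ tl m := by
  refine Real.exp_le_exp.2 ?_
  linarith [mul_le_mul_of_nonneg_left h (sq_nonneg (m : ℝ))]

theorem cl1_small : ∀ᶠ m : ℕ in atTop, ∀ (k : Wd m), ∀ x ∈ Vw m, ∀ l,
    ‖Gam m k l (x jo)‖ ≤ 1 ∧ (TT m x ≤ t0 l + 21 / 10 → ‖Gam m k l (x jo)‖ ≤ tl m ∧
      ‖eta m k l (x jl) (x jo)‖ ≤ tl m ∧ |etaR m k l (XX m x) (TT m x)| ≤ tl m) := by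
  filter_upwards [Gam_an, eta_an] with m h1 h2 k x hx l
  obtain ⟨-, a, -, b, -⟩ := h1 k l (x jo) hx.2.2.1.le
  refine ⟨a, fun h => ⟨b.trans (cl1_tl m (by unfold TT at h; linarith)),
    (h2 k l _ _ hx.2.1.le hx.2.2.1.le).2.2.2.trans (cl1_tl m (by unfold TT at h; linarith only [h])), ?_⟩⟩
  rw [abs_of_nonneg (etaR_mem _ _ _ _ _).1]
  refine le_trans (mul_le_of_le_one_right (mul_pos (lg_pos _) (lg_pos _)).le (lg_lt_one _).le)
    (le_trans (mul_le_of_le_one_right (lg_pos _).le (lg_lt_one _).le)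
      ((lg_le_exp _).trans (cl1_tl m (by linarith))))

theorem cl1_main : ∀ᶠ m : ℕ in atTop, ∀ x ∈ Vw m, ∀ (Γ Γ' η η' : Fin (kk m) → ℂ)
    (ρ ρ' : Fin (kk m) → ℝ), (∀ l, ‖Γ l‖ ≤ 1) → (∀ l, ‖Γ' l‖ ≤ 1) →
    (∀ l, ‖Γ l - Γ' l‖ ≤ 2 * tl m ∧ ‖η l - η' l‖ ≤ 2 * tl m ∧ |ρ l - ρ' l| ≤ 2 * tl m) →
    ‖aa m * cl1_C m Γ η (x js) (x jw) (fun j => x (jv j)) -
      aa m * cl1_C m Γ' η' (x js) (x jw) fun j => x (jv j)‖ ≤ m ^ 20 * tl m ∧
    ‖x js * cl1_G m Γ (x js) - x js * cl1_G m Γ' (x js)‖ ≤ m ^ 20 * tl m ∧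
    |aa m * (S0 m * ∑ l, ρ l + ‖x jw + x js * cl1_G m Γ (x js)‖ ^ 2) -
      aa m * (S0 m * ∑ l, ρ' l + ‖x jw + x js * cl1_G m Γ' (x js)‖ ^ 2)| ≤ m ^ 20 * tl m ∧
    ∀ j, ‖x js ^ 2 * cl1_A m Γ j (x js) - x js ^ 2 * cl1_A m Γ' j (x js)‖ ≤ m ^ 20 * tl m := by
  filter_upwards [ker_bd, S0_mem, eventually_ge_atTop 1,
    ev_pow_le (2 + 2 * dd) (show 9 < 20 by norm_num)] with m hk hS hm hev x hx Γ Γ' η η' ρ ρ' a a' b
  have he : 0 ≤ e2 m := by unfold e2; positivity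
  have hc : ∀ j, ‖x j‖ ≤ 3 := fun j => (norm_le_pi_norm x j).trans hx.2.2.2.1.le
  obtain ⟨k1, k2, -, -, k3⟩ := hk (x js) (by linarith only [hx.1, he])
  have ht := tl_pos m
  obtain ⟨c1, c2, c3, c4⟩ := cl1_core (η := η) (η' := η') (v := fun j => x (jv j)) (by positivity)
    (hc js) (hc jw) (fun j => hc _) k1 k2 (fun ν => (k3 ν).2) a a' (fun l => (b l).1)
    fun l => (b l).2.1
  have m1 : (1 : ℝ) ≤ m := by exact_mod_cast hm
  have m8 : (1 : ℝ) ≤ m ^ 8 := one_le_pow₀ m1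
  have m9 : (1 : ℝ) ≤ m ^ 9 := one_le_pow₀ m1
  have k0 : (0 : ℝ) ≤ kk m := Nat.cast_nonneg _
  have k9 : (kk m : ℝ) * m ^ 8 = dd * m ^ 9 := by
    unfold kk
    push_cast
    ring
  have k8 := mul_le_mul_of_nonneg_left m8 k0
  have f : (1 + kk m * m ^ 8) * (2 * tl m) ≤ m ^ 20 * tl m := by
    rw [← mul_assoc]
    exact mul_le_mul_of_nonneg_right (by linarith only [hev, m9, k9]) ht.le
  have f' : (1 + kk m) * (2 * tl m) ≤ m ^ 20 * tl m :=
    (mul_le_mul_of_nonneg_right (by linarith only [k8]) (by positivity)).trans f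
  have f'' : 2 * tl m ≤ m ^ 20 * tl m := by linarith only [mul_nonneg k0 ht.le, f']
  have a1 : aa m ≤ 1 := pow_le_one₀ (mu_pos m).le (mu_le_one m)
  refine ⟨?_, c2.trans f'', ?_, fun j => (c4 j).trans f''⟩
  · rw [← mul_sub, norm_mul, norm_real, Real.norm_of_nonneg (aa_pos m).le]
    exact (mul_le_of_le_one_left (norm_nonneg _) a1).trans (c1.trans f)
  · have r : |S0 m * ∑ l, ρ l - S0 m * ∑ l, ρ' l| ≤ kk m * (2 * tl m) := by
      rw [← mul_sub, abs_mul, abs_of_nonneg (by linarith only [hS.1]), ← Finset.sum_sub_distrib]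
      refine (mul_le_of_le_one_left (abs_nonneg _) hS.2).trans ((Finset.abs_sum_le_sum_abs _ _).trans
        ((Finset.sum_le_sum fun l _ => (b l).2.2).trans ?_))
      rw [Finset.sum_const, Finset.card_univ, Fintype.card_fin, nsmul_eq_mul]
    rw [← mul_sub, abs_mul, abs_of_pos (aa_pos m), add_sub_add_comm]
    refine (mul_le_of_le_one_left (abs_nonneg _) a1).trans ((abs_add_le _ _).trans ?_)
    linarith only [c3, f', r]

theorem near_word : ∀ᶠ m : ℕ in atTop, ∀ (k k' : Wd m), ∀ x ∈ Vw m,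
    (∀ l, k l ≠ k' l → TT m x ≤ t0 l + 21 / 10) → ‖zw m k x - zw m k' x‖ ≤ m ^ 20 * tl m ∧
      |Phw m k x - Phw m k' x| ≤ m ^ 20 * tl m ∧ ∀ j, ‖Yw m k j x - Yw m k' j x‖ ≤ m ^ 20 * tl m := by
  filter_upwards [cl1_small, cl1_main] with m h1 h2 k k' x hx h
  have ht := tl_pos m
  obtain ⟨c1, -, c3, c4⟩ := h2 x hx (fun l => Gam m k l (x jo)) (fun l => Gam m k' l (x jo))
    (fun l => eta m k l (x jl) (x jo)) (fun l => eta m k' l (x jl) (x jo))
    (fun l => etaR m k l (XX m x) (TT m x)) (fun l => etaR m k' l (XX m x) (TT m x))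
    (fun l => (h1 k x hx l).1) (fun l => (h1 k' x hx l).1) fun l => by
      by_cases e : k l = k' l
      · simp only [Gam, eta, etaR, e, sub_self, norm_zero, abs_zero, and_self]
        positivity
      · obtain ⟨a1, a2, a3⟩ := (h1 k x hx l).2 (h l e)
        obtain ⟨b1, b2, b3⟩ := (h1 k' x hx l).2 (h l e)
        exact ⟨(norm_sub_le _ _).trans (by linarith), (norm_sub_le _ _).trans (by linarith),
          (abs_sub _ _).trans (by linarith)⟩
  refine ⟨le_of_eq_of_le (congrArg norm (add_sub_add_left_eq_sub _ _ _)) c1,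
    le_of_eq_of_le (congrArg abs ?_) c3,
    fun j => le_of_eq_of_le (congrArg norm (add_sub_add_left_eq_sub _ _ _)) (c4 j)⟩
  unfold Phw ww GG1 cl1_G
  ring

theorem near_out : ∀ᶠ m : ℕ in atTop, ∀ (k : Wd m), ∀ x ∈ Vw m, TT m x ≤ 21 / 10 →
    ‖zw m k x - x jz‖ ≤ m ^ 20 * tl m ∧ |Phw m k x - Pho m x| ≤ m ^ 20 * tl m ∧
      ‖ww m k x - x jw‖ ≤ m ^ 20 * tl m ∧ ∀ j, ‖Yw m k j x - x (jv j) / x js‖ ≤ m ^ 20 * tl m := by
  filter_upwards [cl1_small, cl1_main] with m h1 h2 k x hx h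
  have ht := tl_pos m
  obtain ⟨c1, c2, c3, c4⟩ := h2 x hx (fun l => Gam m k l (x jo)) (fun _ => 0)
    (fun l => eta m k l (x jl) (x jo)) (fun _ => 0)
    (fun l => etaR m k l (XX m x) (TT m x)) (fun _ => 0)
    (fun l => (h1 k x hx l).1) (fun l => by simp) fun l => by
      have : 0 ≤ t0 l := by unfold t0; positivity
      obtain ⟨a1, a2, a3⟩ := (h1 k x hx l).2 (by linarith)
      simp only [sub_zero]
      exact ⟨by linarith only [ht, a1], by linarith, by linarith⟩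
  have g0 : cl1_G m (fun _ => 0) (x js) = 0 := by simp only [cl1_G, zero_mul, Finset.sum_const_zero]
  have a0 : ∀ j, cl1_A m (fun _ => 0) j (x js) = 0 := fun j => by simp only [cl1_A, zero_mul, ite_self, Finset.sum_const_zero]
  have c0 : cl1_C m (fun _ => 0) (fun _ => 0) (x js) (x jw) (fun j => x (jv j)) = 0 := by
    simp only [cl1_C, g0, mul_zero, add_zero, zero_mul, a0, ne_eq, OfNat.ofNat_ne_zero, not_false_eq_true, zero_pow, Finset.sum_const_zero]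
  have hX := abs_lt.1 hx.2.2.2.2.1
  have hchi : chi (XX m x) = 1 := by
    have : XX m x ^ 2 ≤ 6 ^ 2 := sq_le_sq' hX.1.le hX.2.le
    unfold chi
    rw [st_zero (by norm_num) (by linarith only [this]), sub_zero]
  rw [c0, mul_zero, sub_zero] at c1
  rw [g0, mul_zero, sub_zero] at c2
  simp only [a0, mul_zero, sub_zero] at c4
  refine ⟨le_of_eq_of_le (congrArg norm (add_sub_cancel_left _ _)) c1,
    le_of_eq_of_le (congrArg abs ?_) c3, le_of_eq_of_le (congrArg norm (add_sub_cancel_left _ _)) c2,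
    fun j => le_of_eq_of_le (congrArg norm (add_sub_cancel_left _ _)) (c4 j)⟩
  rw [g0, Finset.sum_const_zero, mul_zero, mul_zero, add_zero]
  unfold Phw Pho ww GG1 cl1_G
  rw [hchi]
  ring


end Pool.Agent.MP_bea40e_an.Iv

end
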