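import Pool.Agent.MP_bea40e_an.Mg.InfF

attribute [-instance] AddQuantale.instAddLeftMono IdemSemiring.toCanonicallyOrderedAdd
  covariant_swap_mul_of_covariant_mul NumberField.to_charZero LieAdmissibleAlgebra.toModule
  AddQuantale.instAddRightMono IsOrderedMonoid.toMulLeftMono RightPreLieAlgebra.toModule
  LeftPreLieAlgebra.toModule IsTopologicalTorsor.toContinuousSMul
  NonarchimedeanRing.toIsTopologicalRing Quantale.instMulRightMono RKHS.instFunLike
  Quantale.instMulLeftMono IdemSemiring.toMulLeftMono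
  LinearOrderedCommMonoidWithZero.toPosMulStrictMono Valued.toUniformSpace
  TotallySeparatedSpace.t2Space Valued.isTopologicalDivisionRing CStarAlgebra.instOrderClosedTopology
  CanonicallyOrderedAdd.toMulLeftMono ProperSMul.toContinuousSMul Fintype.decidableForallFintype
  CompletePartialOrder.toPartialOrder Group.IsPerfect.subsingleton_of_isMulCommutative

section

open Filter Topology Set Metric Complex
open scoped ContDiff ComplexConjugate

namespace Pool.Agent.MP_bea40e_an.Iv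

/-! The Levi form of `Psi` in the soft directions (paper, section 4). Along a complex line in a
soft direction `s`, `XX`, `TT` are constant; compare with explicit functions by `Lv_line`. -/

theorem vst_add_vso (v : EE) : vst v + vso v = v := by
  funext j
  rcases j with j | j
  · fin_cases j <;> simp [vst, vso, pt]
  · simp [vst, vso, pt]

/-- soft vectors -/
def ps1_So (u : EE) : Prop := u js = 0 ∧ u jz = 0 ∧ u jl = 0 ∧ u jo = 0

theorem ps1_vso (v : EE) : ps1_So (vso v) := ⟨rfl, rfl, rfl, rfl⟩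

theorem ps1_s {u : EE} (hu : ps1_So u) (x : EE) (t : ℂ) : (x + t • u) js = x js := by
  simp [hu.1]

theorem ps1_X {u : EE} (hu : ps1_So u) (m : ℕ) (x : EE) (t : ℂ) : XX m (x + t • u) = XX m x := by
  simp [XX, hu.2.2.1]

theorem ps1_T {u : EE} (hu : ps1_So u) (m : ℕ) (x : EE) (t : ℂ) : TT m (x + t • u) = TT m x := by
  simp [TT, hu.2.2.2]

theorem ps1_an (j : J) (c : ℂ) (x : EE) : AnalyticAt ℂ (fun y : EE => y j * c) x :=
  ((ContinuousLinearMap.proj (R := ℂ) (φ := fun _ : J => ℂ) j).analyticAt x).mul analyticAt_const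

theorem ps1_fd (j : J) (c : ℂ) (x u : EE) : fderiv ℂ (fun y : EE => y j * c) x u = u j * c := by
  have h : HasFDerivAt (fun y : EE => y j * c)
      (c • ContinuousLinearMap.proj (R := ℂ) (φ := fun _ : J => ℂ) j) x :=
    (ContinuousLinearMap.proj (R := ℂ) (φ := fun _ : J => ℂ) j).hasFDerivAt.mul_const c
  rw [h.fderiv]
  simp [mul_comm]

theorem ps1_NN {m : ℕ} {ν : Nd m} {x u : EE} (hu : ps1_So u) (hN : ContDiffAt ℝ ∞ (NN m ν) x)
    (h : ∀ᶠ t : ℂ in 𝓝 0, Cf m ν (x + t • u) = Cf m ν x ∧ bl m ν (x + t • u) = bl m ν x) :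
    Lv (NN m ν) x u = 0 := by
  have hA : AnalyticAt ℂ (fun y : EE => y jw * ((4 * Cf m ν x * (Gk m ν (x js)).re : ℝ) : ℂ) +
      y (jv (grp m ν)) * (conj (x js) * ((4 * Cf m ν x * (Ak m ν (x js)).re : ℝ) : ℂ)) +
      ((2 * Cf m ν x ^ 2 * (Gk m ν (x js)).re ^ 2 + 2 * Cf m ν x ^ 2 * (Ak m ν (x js)).re ^ 2 +
        (if ν.2 then bl m ν x * (Sk m ν (x js)).re else 0) : ℝ) : ℂ)) x :=
    ((ps1_an _ _ x).add (ps1_an _ _ x)).add analyticAt_const
  rw [Lv_line hN (pshAt_re hA).1 u, Lv, Lb_re hA]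
  filter_upwards [h] with t ht
  rw [NN, ht.1, ht.2, ps1_s hu, add_re, add_re, ← mul_assoc _ (conj (x js)), re_mul_ofReal,
    re_mul_ofReal, ofReal_re]
  ring

theorem ps1_Pn {m : ℕ} {ν : Nd m} {x u : EE} (hu : ps1_So u) (hP : ContDiffAt ℝ ∞ (Pn m ν) x) :
    Lv (Pn m ν) x u = st (t0 ν.1 + 4) (t0 ν.1 + 9 / 2) (TT m x) *
      Lv (fun y : EE => Pen (y jw * (Gk m ν (x js))⁻¹)) x u := by
  have h1 := (pshAt_Pen (ps1_an jw (Gk m ν (x js))⁻¹ x)).1
  rw [Lv_line hP (contDiffAt_const.mul h1 (f := fun _ => st (t0 ν.1 + 4) (t0 ν.1 + 9 / 2) (TT m x)))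
    u, Lv, Lb_const_mul h1, Lv]
  refine Eventually.of_forall fun t => ?_
  rw [Pn, ps1_T hu, xi, ps1_s hu, div_eq_mul_inv ((x + t • u) jw)]

theorem ps1_Qf : ContDiff ℝ ∞ Qf := by
  have h0 : ∀ j : J, ContDiff ℝ ∞ fun y : EE => y j := fun j => contDiff_apply ℝ ℂ j
  refine ((h0 jw).norm_sq ℝ).add (contDiff_const.mul (ContDiff.sum fun j _ => ?_))
  exact (imCLM.contDiff.comp ((h0 _).mul (conjCLE.contDiff.comp (h0 js)))).pow 2

theorem ps1_norm {u : EE} (hu : ps1_So u) : ‖u‖ ^ 2 ≤ ‖u jw‖ ^ 2 + ∑ j, ‖u (jv j)‖ ^ 2 := by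
  have h0 : 0 ≤ ∑ j, ‖u (jv j)‖ ^ 2 := Finset.sum_nonneg fun _ _ => sq_nonneg _
  have h1 : 0 ≤ ‖u jw‖ ^ 2 + ∑ j, ‖u (jv j)‖ ^ 2 := add_nonneg (sq_nonneg _) h0
  rw [← Real.le_sqrt (norm_nonneg _) h1]
  refine norm_le_of_coord ?_ ?_ ?_ ?_ ?_ fun j => ?_
  · rw [hu.1, norm_zero]; exact Real.sqrt_nonneg _
  · rw [hu.2.1, norm_zero]; exact Real.sqrt_nonneg _
  · rw [Real.le_sqrt (norm_nonneg _) h1]; exact le_add_of_nonneg_right h0
  · rw [hu.2.2.1, norm_zero]; exact Real.sqrt_nonneg _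
  · rw [hu.2.2.2, norm_zero]; exact Real.sqrt_nonneg _
  · rw [Real.le_sqrt (norm_nonneg _) h1]
    exact (Finset.single_le_sum (f := fun j => ‖u (jv j)‖ ^ 2) (fun _ _ => sq_nonneg _)
      (Finset.mem_univ j)).trans (le_add_of_nonneg_left (sq_nonneg _))

theorem ps1_cw (m : ℕ) (ν : Nd m) (x : EE) : 0 ≤ cw m ν x ∧ cw m ν x ≤ chi (XX m x) ^ 2 := by
  have h1 := cut_nonneg m ν (x js)
  have h2 := cut_le_one m ν (x js)
  have h3 := st_nonneg 25 49 (XX m x ^ 2)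
  have h4 := st_le_one 25 49 (XX m x ^ 2)
  have h5 := st_nonneg (Tend m + 3 / 2) (Tend m + 7 / 2) (TT m x)
  have h6 := st_le_one (Tend m + 3 / 2) (Tend m + 7 / 2) (TT m x)
  have h7 : 0 ≤ th m (XX m x) (TT m x) := mul_nonneg (by linarith only [h4]) (by linarith only [h6])
  have h8 : th m (XX m x) (TT m x) ≤ 1 := mul_le_one₀ (by linarith only [h3]) (by linarith) (by linarith)
  refine ⟨mul_nonneg h1 h7, ?_⟩
  rcases le_total (XX m x ^ 2) 49 with h | h
  · rw [chi, st_zero (by norm_num) (by linarith only [h])]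
    simpa only [cw, sub_zero, one_pow] using mul_le_one₀ h2 h7 h8
  · rw [cw, th, st_one (by norm_num) h]
    simpa only [sub_self, zero_mul, mul_zero] using sq_nonneg _

/-- Along the line `Pn = c * Pen (w / G)` with `0 ≤ c`. If `1 / 4 < |re xi + 1 / 2|` or `T ≤ t0 + 5`
then `NN` is the real part of an affine function along the line. Otherwise `c = 1`, `Lv_Pen` gives
`‖v jw‖ ^ 2 / 2`; split `vso v` into its `w` part and its `v` part; `NN` is affine along the latter,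
and `tame_NN` bounds the two other terms by `P * ‖v jw‖ * ‖vso v‖`. -/
theorem Lv_node : ∀ᶠ m : ℕ in atTop, ∀ (ν : Nd m) (x : EE), ‖x‖ ≤ 3 → x js ∈ Sn m ν → ∀ v,
    -(‖vso v‖ ^ 2 / 2) ≤ Lv (NN m ν) x (vso v) + Real.exp m * Lv (Pn m ν) x (vso v) := by
  obtain ⟨N, hN⟩ := tame_NN.bound' 2
  obtain ⟨N', hN'⟩ := tame_Pn.bound' 0
  filter_upwards [hN, hN', Gk_dom, ev_poly_exp 9 (2 * N) one_pos] with m h1 h2 h3 h4 ν x hx hs v
  have hx5 : x ∈ closedBall (0 : EE) 5 := mem_closedBall_zero_iff.2 (by linarith)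
  obtain ⟨hNN, hb⟩ := h1 ν x ⟨hx5, hs⟩
  have hPn := (h2 ν x ⟨hx5, hs⟩).1
  have hb2 := hb 2 le_rfl
  obtain ⟨hG0, hG1, -⟩ := h3 ν _ hs
  have hu := ps1_vso v
  generalize vso v = u at hu ⊢
  have hA := ps1_an jw (Gk m ν (x js))⁻¹ x
  have he := Real.exp_pos (m : ℝ)
  rw [ps1_Pn hu hPn]
  by_cases hc : TT m x ≤ t0 ν.1 + 5 ∨ 1 / 4 < |(xi m ν x).re + 1 / 2|
  · have h5 := mul_nonneg he.le (mul_nonneg (st_nonneg (t0 ν.1 + 4) (t0 ν.1 + 9 / 2) (TT m x))
      ((pshAt_Pen hA).2 u))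
    rw [ps1_NN hu hNN]
    · linarith only [sq_nonneg ‖u‖, h5]
    rcases hc with hc | hc
    · refine Eventually.of_forall fun t => ?_
      simp only [Cf, bl, ps1_T hu, ps1_X hu, st_zero (by linarith only [] : t0 ν.1 + 5 < t0 ν.1 + 11 / 2) hc,
        st_zero (by linarith only [] : t0 ν.1 + 28 / 5 < t0 ν.1 + 59 / 10)
          (by linarith only [hc] : TT m x ≤ t0 ν.1 + 28 / 5), zero_mul, and_self]
    · have hcont : Continuous fun t : ℂ => (x + t • u) jw / Gk m ν (x js) := by fun_prop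
      have ht : Tendsto (fun t : ℂ => (x + t • u) jw / Gk m ν (x js)) (𝓝 0) (𝓝 (xi m ν x)) := by
        simpa only [Pi.add_apply, Pi.smul_apply, smul_eq_mul, xi, zero_smul, Pi.zero_apply, add_zero] using hcont.tendsto 0
      filter_upwards [ht.eventually (rd_const hc)] with t h
      have h' : rd (xi m ν (x + t • u)) = rd (xi m ν x) := by rw [xi, ps1_s hu]; exact h
      simp only [Cf, bl, ps1_T hu, ps1_X hu, h', and_self]
  · obtain ⟨hT, hξ⟩ := not_or.1 hc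
    rw [not_le] at hT
    rw [not_lt, xi, div_eq_mul_inv (x jw)] at hξ
    have h5 := Lv_Pen hA hξ u
    have hm : (0 : ℝ) < m := by
      rcases Nat.eq_zero_or_pos m with rfl | hm
      · exact absurd ν.1.2 (by simp [kk])
      · exact_mod_cast hm
    have hGp : 0 < ‖Gk m ν (x js)‖ := lt_of_lt_of_le (by positivity) hG0
    have h6 : ‖u jw‖ ≤ ‖fderiv ℂ (fun y : EE => y jw * (Gk m ν (x js))⁻¹) x u‖ := by
      rw [ps1_fd, norm_mul, norm_inv]
      exact le_mul_of_one_le_right (norm_nonneg _) ((one_le_inv₀ hGp).2 hG1)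
    have h7 := pow_le_pow_left₀ (norm_nonneg _) h6 2
    rw [st_one (by linarith only []) (by linarith only [hT]), one_mul]
    obtain ⟨a, ha⟩ : ∃ a : EE, a = Pi.single jw (u jw) := ⟨_, rfl⟩
    have hna : ‖a‖ = ‖u jw‖ := by rw [ha, Pi.norm_single]
    have hbs : ps1_So (u - a) := by
      obtain ⟨k1, k2, k3, k4⟩ := hu
      refine ⟨?_, ?_, ?_, ?_⟩ <;> simp [ha, k1, k2, k3, k4]
    have hbw : (u - a) jw = 0 := by simp [ha]
    have hnb : ‖u - a‖ ≤ ‖u‖ := by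
      refine (pi_norm_le_iff_of_nonneg (norm_nonneg _)).2 fun j => ?_
      by_cases hj : j = jw
      · rw [hj, hbw, norm_zero]; exact norm_nonneg _
      · simpa [ha, hj] using norm_le_pi_norm u j
    have h8 : Lv (NN m ν) x (u - a) = 0 := by
      refine ps1_NN hbs hNN (Eventually.of_forall fun t => ?_)
      have h' : xi m ν (x + t • (u - a)) = xi m ν x := by
        rw [xi, xi, ps1_s hbs, Pi.add_apply, Pi.smul_apply, hbw, smul_zero, add_zero]
      simp only [Cf, bl, ps1_T hbs, ps1_X hbs, h', and_self]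
    have h9 := Lv_add_vec hNN a (u - a)
    rw [add_sub_cancel, h8] at h9
    have hα := norm_le_pi_norm u jw
    have hα0 := norm_nonneg (u jw)
    have hP : (0 : ℝ) ≤ (m : ℝ) ^ N := by positivity
    have k1 : |Lv (NN m ν) x a| ≤ (m : ℝ) ^ N * ‖u jw‖ * ‖u‖ := by
      refine (abs_Lb_le a a).trans ?_
      rw [hna]; gcongr
    have k2 : |Lb (NN m ν) x a (u - a)| ≤ (m : ℝ) ^ N * ‖u jw‖ * ‖u‖ := by
      refine (abs_Lb_le a _).trans ?_
      rw [hna]; gcongr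
    have k3 : 9 * ((m : ℝ) ^ N) ^ 2 ≤ Real.exp m := by
      rw [neg_one_mul, Real.exp_neg, ← div_eq_mul_inv, div_le_one he] at h4
      rwa [← pow_mul, mul_comm N]
    have k4 : Real.exp m * (‖u jw‖ ^ 2 / 2) ≤
        Real.exp m * Lv (fun y : EE => Pen (y jw * (Gk m ν (x js))⁻¹)) x u :=
      mul_le_mul_of_nonneg_left (by linarith only [h5, h7]) he.le
    have k5 := mul_le_mul_of_nonneg_right k3 (sq_nonneg ‖u jw‖)
    rw [abs_le] at k1 k2
    linarith only [k1.1, k2.1, sq_nonneg (‖u‖ - 3 * ((m : ℝ) ^ N * ‖u jw‖)), h9, k4, k5]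

theorem Lv_Qf {x : EE} (hq : 3 / 4 ≤ qq x) (v : EE) : 3 / 4 * ‖vso v‖ ^ 2 ≤ Lv Qf x (vso v) := by
  have hu := ps1_vso v
  generalize vso v = u at hu ⊢
  have h1 : ContDiffAt ℝ ∞ (fun y : EE => ‖y jw * 1‖ ^ 2) x := (pshAt_normSq (ps1_an jw 1 x)).1
  have h2 : ∀ j ∈ (Finset.univ : Finset AX),
      ContDiffAt ℝ ∞ (fun y : EE => (y (jv j) * conj (x js)).im ^ 2) x := fun j _ =>
    (pshAt_im (ps1_an (jv j) _ x)).1.pow 2
  have h3 := ContDiffAt.sum h2
  rw [Lv_line ps1_Qf.contDiffAt (h1.add (contDiffAt_const.mul h3 (f := fun _ => (2 : ℝ)))) u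
    (Eventually.of_forall fun t => by rw [Qf, ps1_s hu, mul_one]),
    Lv, Lb_add h1 (contDiffAt_const.mul h3), Lb_const_mul h3, Lb_sum _ h2]
  have h4 := Lv_normSq (ps1_an jw 1 x) u
  have h5 : ∀ j : AX, Lb (fun y : EE => (y (jv j) * conj (x js)).im ^ 2) x u u =
      qq x / 2 * ‖u (jv j)‖ ^ 2 := fun j => by
    have := Lv_imSq (ps1_an (jv j) (conj (x js)) x) u
    rw [ps1_fd, norm_mul, RCLike.norm_conj, Lv] at this
    rw [this, qq]; ring
  rw [ps1_fd, mul_one, Lv] at h4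
  simp only [h4, h5, ← Finset.mul_sum]
  have h6 := ps1_norm hu
  have h0 : 0 ≤ ∑ j, ‖u (jv j)‖ ^ 2 := Finset.sum_nonneg fun _ _ => sq_nonneg _
  linarith only [sq_nonneg ‖u jw‖, mul_le_mul_of_nonneg_right hq h0, h6]

/-- at most one node is active (`cut_off`, `Sn_disj`), and `cw ≠ 0` gives `chi = 1` -/
theorem psi_soft : ∀ᶠ m : ℕ in atTop, ∀ x : EE, ‖x‖ ≤ 3 → 3 / 4 ≤ qq x → ∀ v,
    chi (XX m x) ^ 2 * ‖vso v‖ ^ 2 / 4 ≤ Lv (Psi m) x (vso v) := by
  classical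
  obtain ⟨N, hN⟩ := tame_NN.bound' 0
  obtain ⟨N', hN'⟩ := tame_Pn.bound' 0
  obtain ⟨N0, hN0⟩ := tame_Psi0.bound 0
  obtain ⟨N1, hN1⟩ := tame_Psi1.bound 0
  filter_upwards [hN, hN', hN0, hN1, Lv_node, Sn_disj, eventually_gt_atTop 0]
    with m h1 h2 h3 h4 h5 h6 hm x hx hq v
  have hx5 : x ∈ closedBall (0 : EE) 5 := mem_closedBall_zero_iff.2 (by linarith only [hx])
  have hQ := Lv_Qf hq v
  have h7 := fun ν hs => h5 ν x hx hs v
  have hu := ps1_vso v
  generalize vso v = u at hu hQ h7 ⊢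
  have hP : ContDiffAt ℝ ∞ (Psi m) x := (h3 x hx5).1.add (contDiffAt_const.mul (h4 x hx5).1)
  obtain ⟨A, hA⟩ : ∃ A : Finset (Nd m), A = Finset.univ.filter fun ν => x js ∈ Sn m ν := ⟨_, rfl⟩
  have hmem : ∀ ν, ν ∈ A ↔ x js ∈ Sn m ν := fun ν => by simp only [hA, Finset.mem_filter, Finset.mem_univ, true_and]
  have c1 : ∀ ν ∈ A, ContDiffAt ℝ ∞ (NN m ν) x := fun ν h => (h1 ν x ⟨hx5, (hmem ν).1 h⟩).1
  have c2 : ∀ ν ∈ A, ContDiffAt ℝ ∞ (Pn m ν) x := fun ν h => (h2 ν x ⟨hx5, (hmem ν).1 h⟩).1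
  have c3 : ∀ ν ∈ A, ContDiffAt ℝ ∞ (fun y => NN m ν y + Real.exp m * Pn m ν y) x := fun ν h =>
    (c1 ν h).add (contDiffAt_const.mul (c2 ν h))
  have c4 : ∀ ν ∈ A, ContDiffAt ℝ ∞
      (fun y => cw m ν x * (NN m ν y + Real.exp m * Pn m ν y)) x := fun ν h =>
    contDiffAt_const.mul (c3 ν h)
  have c5 : ContDiffAt ℝ ∞ (fun y => chi (XX m x) ^ 2 * Qf y) x :=
    contDiffAt_const.mul ps1_Qf.contDiffAt
  have c6 : ContDiffAt ℝ ∞ (fun y => chi (XX m x) ^ 2 * Qf y + Wall m (XX m x) (TT m x)) x :=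
    c5.add contDiffAt_const
  rw [Lv_line hP (c6.add (ContDiffAt.sum c4)) u, Lv, Lb_add c6 (ContDiffAt.sum c4),
    Lb_add c5 contDiffAt_const, Lb_const, Lb_const_mul ps1_Qf.contDiffAt, Lb_sum _ c4]
  · have k1 : ∑ ν ∈ A, cw m ν x ≤ chi (XX m x) ^ 2 := by
      rcases A.eq_empty_or_nonempty with h | ⟨ν, h⟩
      · rw [h, Finset.sum_empty]; positivity
      · rw [Finset.sum_eq_single_of_mem ν h fun ν' h' hne =>
          absurd (h6 _ _ _ ((hmem ν').1 h') ((hmem ν).1 h)) hne]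
        exact (ps1_cw m ν x).2
    have k2 : ∑ ν ∈ A, cw m ν x * -(‖u‖ ^ 2 / 2) ≤
        ∑ ν ∈ A, Lb (fun y => cw m ν x * (NN m ν y + Real.exp m * Pn m ν y)) x u u := by
      refine Finset.sum_le_sum fun ν h => ?_
      rw [Lb_const_mul (c3 ν h), Lb_add (c1 ν h) (contDiffAt_const.mul (c2 ν h)),
        Lb_const_mul (c2 ν h)]
      exact mul_le_mul_of_nonneg_left (h7 ν ((hmem ν).1 h)) (ps1_cw m ν x).1
    rw [← Finset.sum_mul] at k2
    rw [Lv] at hQ
    linarith only [mul_le_mul_of_nonneg_left hQ (sq_nonneg (chi (XX m x))), mul_le_mul_of_nonneg_right k1 (sq_nonneg ‖u‖), k2]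
  · refine Eventually.of_forall fun t => ?_
    have k1 : ∀ ν, cw m ν (x + t • u) = cw m ν x := fun ν => by
      rw [cw, cw, ps1_s hu, ps1_X hu, ps1_T hu]
    simp only [Psi, Psi0, Psi1, k1, ps1_X hu, ps1_T hu]
    rw [add_assoc, Finset.mul_sum, ← Finset.sum_add_distrib]
    congr 1
    refine (Finset.sum_subset_zero_on_sdiff (Finset.subset_univ A) (fun ν h => ?_)
      fun ν _ => by ring).symm
    have k2 := (cut_off hm ν (mt (hmem ν).2 (Finset.mem_sdiff.1 h).2)).self_of_nhds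
    simp only at k2
    simp [cw, k2]


end Pool.Agent.MP_bea40e_an.Iv

end

section

open Filter Topology Set Metric Complex
open scoped ContDiff ComplexConjugate

namespace Pool.Agent.MP_bea40e_an.Iv

theorem ps2_gen : ∃ N : ℕ, ∀ᶠ m : ℕ in atTop, ∀ x : EE, ‖x‖ ≤ 3 → ContDiffAt ℝ ∞ (Psi m) x ∧
    ∀ v w, |Lb (Psi m) x v w| ≤ Real.exp m * m ^ N * ‖v‖ * ‖w‖ := by
  obtain ⟨N0, h0⟩ := tame_Psi0.bound 2
  obtain ⟨N1, h1⟩ := tame_Psi1.bound 2
  refine ⟨max N0 N1 + 1, ?_⟩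
  filter_upwards [h0, h1, eventually_ge_atTop 2] with m h0 h1 hm x hx
  have hx' : x ∈ closedBall (0 : EE) 5 := mem_closedBall_zero_iff.2 (by linarith only [hx])
  obtain ⟨a0, b0⟩ := h0 x hx'
  obtain ⟨a1, b1⟩ := h1 x hx'
  have e : Psi m = fun t => Psi0 m t + Real.exp m * Psi1 m t := rfl
  refine ⟨e ▸ a0.add (contDiffAt_const.mul a1), fun v w => ?_⟩
  have hm' : (2 : ℝ) ≤ m := by exact_mod_cast hm
  have p0 : (m : ℝ) ^ N0 ≤ m ^ max N0 N1 := pow_le_pow_right₀ (by linarith only [hm']) (le_max_left _ _)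
  have p1 : (m : ℝ) ^ N1 ≤ m ^ max N0 N1 := pow_le_pow_right₀ (by linarith) (le_max_right _ _)
  have hE : 1 ≤ Real.exp m := Real.one_le_exp (by linarith only [hm'])
  have hn : 0 ≤ ‖v‖ * ‖w‖ := by positivity
  have c0 : |Lb (Psi0 m) x v w| ≤ m ^ max N0 N1 * (‖v‖ * ‖w‖) :=
    (abs_Lb_le v w).trans (by rw [mul_assoc]; gcongr; exact (b0 2 le_rfl).trans p0)
  have c1 : |Lb (Psi1 m) x v w| ≤ m ^ max N0 N1 * (‖v‖ * ‖w‖) :=
    (abs_Lb_le v w).trans (by rw [mul_assoc]; gcongr; exact (b1 2 le_rfl).trans p1)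
  rw [e, Lb_add a0 (contDiffAt_const.mul a1), Lb_const_mul a1, pow_succ]
  refine (abs_add_le _ _).trans ?_
  rw [abs_mul, abs_of_pos (Real.exp_pos _)]
  have hP : 0 ≤ (m : ℝ) ^ max N0 N1 * (‖v‖ * ‖w‖) := by positivity
  have c2 := mul_le_mul_of_nonneg_left c1 (Real.exp_pos m).le
  have c3 := mul_le_mul_of_nonneg_right hE hP
  have c4 := mul_le_mul_of_nonneg_right hm' (mul_nonneg (Real.exp_pos m).le hP)
  linarith only [c0, c2, c3, c4]

theorem ps2_dir {f : EE → ℝ} {x w : EE} (hf : DifferentiableAt ℝ f x)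
    (h : ∀ t : ℝ, f (x + t • w) = f x) : fderiv ℝ f x w = 0 := by
  rw [← hf.lineDeriv_eq_fderiv, lineDeriv]
  simp only [h, deriv_const]

theorem ps2_chi_nonneg (X : ℝ) : 0 ≤ chi X := sub_nonneg.2 (st_le_one _ _ _)

theorem ps2_far {m : ℕ} {x : EE} (h : chi (XX m x) ≠ 1) :
    Psi m =ᶠ[𝓝 x] fun t => chi (XX m t) * (chi (XX m t) * Qf t) := by
  have h1 : 11 < |XX m x| := by
    by_contra h2
    apply h
    have h3 : XX m x ^ 2 ≤ 121 := by
      rw [← sq_abs]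
      nlinarith only [abs_nonneg (XX m x), h2]
    rw [chi, st_zero (by norm_num) h3, sub_zero]
  have hc : Continuous fun t : EE => |XX m t| := by
    unfold XX Xr
    fun_prop
  filter_upwards [(hc.tendsto x).eventually (lt_mem_nhds h1)] with t ht
  rw [psi_idle (Or.inr (Or.inl (by linarith))), wall_far (by linarith)]
  ring

theorem ps2_prod {c q : EE → ℝ} {x v w : EE} {P : ℝ} (hc : ContDiffAt ℝ ∞ c x)
    (hq : ContDiffAt ℝ ∞ q x) (h0 : 0 ≤ c x) (hw : fderiv ℝ c x w = 0)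
    (hw' : fderiv ℝ c x (I • w) = 0) (bc : ∀ j ≤ 2, ‖iteratedFDeriv ℝ j c x‖ ≤ P)
    (bq : ∀ j ≤ 2, ‖iteratedFDeriv ℝ j q x‖ ≤ P)
    (bg : ‖iteratedFDeriv ℝ 2 (fun t => c t * q t) x‖ ≤ P) :
    |Lb (fun t => c t * (c t * q t)) x v w| ≤ (P + 2 * P ^ 2) * c x * ‖v‖ * ‖w‖ := by
  have dc := hc.differentiableAt (by simp)
  have dq := hq.differentiableAt (by simp)
  have hP : 0 ≤ P := (norm_nonneg _).trans bg
  have e1 : ∀ u, fderiv ℝ c x u = 0 → fderiv ℝ (fun t => c t * q t) x u = c x * fderiv ℝ q x u := by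
    intro u hu
    rw [fderiv_fun_mul dc dq]
    simp [hu]
  have nI : ∀ u : EE, ‖I • u‖ = ‖u‖ := fun u => by rw [norm_smul, norm_I, one_mul]
  have d1 : ∀ u, |fderiv ℝ c x u| ≤ P * ‖u‖ := fun u =>
    (abs_fderiv_le u).trans (by gcongr; exact bc 1 (by norm_num))
  have d2 : ∀ u, |fderiv ℝ q x u| ≤ P * ‖u‖ := fun u =>
    (abs_fderiv_le u).trans (by gcongr; exact bq 1 (by norm_num))
  have d3 : |q x| ≤ P := by simpa using bq 0 (by norm_num)
  have d4 : |Lb c x v w| ≤ P * ‖v‖ * ‖w‖ := (abs_Lb_le v w).trans (by gcongr; exact bc 2 le_rfl)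
  have d5 : |Lb (fun t => c t * q t) x v w| ≤ P * ‖v‖ * ‖w‖ := (abs_Lb_le v w).trans (by gcongr)
  have d6 : |q x * Lb c x v w| ≤ P * (P * ‖v‖ * ‖w‖) := by
    rw [abs_mul]
    gcongr
  have d7 : ∀ a b, |fderiv ℝ c x a * fderiv ℝ q x b| ≤ P * ‖a‖ * (P * ‖b‖) := fun a b => by
    rw [abs_mul]
    exact mul_le_mul (d1 a) (d2 b) (abs_nonneg _) (by positivity)
  have d8 := d7 v w
  have d9 := d7 (I • v) (I • w)
  rw [nI, nI] at d9
  rw [Lb_mul hc (hc.mul hq), e1 w hw, e1 _ hw', hw, hw']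
  have e2 : c x * Lb (fun t => c t * q t) x v w + c x * q x * Lb c x v w +
      (fderiv ℝ c x v * (c x * fderiv ℝ q x w) + 0 * fderiv ℝ (fun t => c t * q t) x v +
        fderiv ℝ c x (I • v) * (c x * fderiv ℝ q x (I • w)) +
        0 * fderiv ℝ (fun t => c t * q t) x (I • v)) / 4 =
      c x * (Lb (fun t => c t * q t) x v w + q x * Lb c x v w +
        (fderiv ℝ c x v * fderiv ℝ q x w + fderiv ℝ c x (I • v) * fderiv ℝ q x (I • w)) / 4) := by
    ring
  rw [e2, abs_mul, abs_of_nonneg h0, show (P + 2 * P ^ 2) * c x * ‖v‖ * ‖w‖ =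
    c x * ((P + 2 * P ^ 2) * ‖v‖ * ‖w‖) by ring]
  refine mul_le_mul_of_nonneg_left ?_ h0
  have hn : 0 ≤ P ^ 2 * (‖v‖ * ‖w‖) := by positivity
  rw [abs_le] at d5 d6 d8 d9 ⊢
  constructor <;> linarith only [d5.1, d5.2, d6.1, d6.2, d8.1, d8.2, d9.1, d9.2]

/-- If `chi = 1` use tameness. Otherwise `11 < |XX|` and `Psi = chi ^ 2 * Qf` near the point
(`psi_idle`, `wall_far`); `chi` does not change in soft directions and `d (chi ^ 2) = 2 chi d chi`. -/
theorem psi_mixed : ∃ N : ℕ, ∀ᶠ m : ℕ in atTop, ∀ x : EE, ‖x‖ ≤ 3 → ∀ v,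
    |Lb (Psi m) x (vst v) (vso v)| ≤
      Real.exp m * m ^ N * chi (XX m x) * ‖vst v‖ * ‖vso v‖ ∧
    |Lv (Psi m) x (vst v)| ≤ Real.exp m * m ^ N * ‖vst v‖ ^ 2 := by
  obtain ⟨N0, h0⟩ := ps2_gen
  obtain ⟨N1, h1⟩ := tame_chi.bound 2
  obtain ⟨N2, h2⟩ := tame_Qf.bound 2
  obtain ⟨N3, h3⟩ := (tame_chi.mul tame_Qf).bound 2
  refine ⟨N0 + 2 * (N1 + N2 + N3) + 1, ?_⟩
  filter_upwards [h0, h1, h2, h3, eventually_ge_atTop 3] with m h0 h1 h2 h3 hm x hx v
  have hx' : x ∈ closedBall (0 : EE) 5 := mem_closedBall_zero_iff.2 (by linarith only [hx])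
  have hm' : (3 : ℝ) ≤ m := by exact_mod_cast hm
  have hp : ∀ {a b : ℕ}, a ≤ b → (m : ℝ) ^ a ≤ m ^ b := fun h =>
    pow_le_pow_right₀ (by linarith only [hm']) h
  have g : ∀ a b, |Lb (Psi m) x a b| ≤
      Real.exp m * m ^ (N0 + 2 * (N1 + N2 + N3) + 1) * ‖a‖ * ‖b‖ := fun a b =>
    ((h0 x hx).2 a b).trans (by gcongr _ * ?_ * _ * _; exact hp (by omega))
  refine ⟨?_, (g _ _).trans_eq (by ring)⟩
  by_cases h : chi (XX m x) = 1
  · rw [h, mul_one]
    exact g _ _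
  obtain ⟨a1, b1⟩ := h1 x hx'
  obtain ⟨a2, b2⟩ := h2 x hx'
  obtain ⟨-, b3⟩ := h3 x hx'
  have hd : ∀ w : EE, w jl = 0 → fderiv ℝ (fun t => chi (XX m t)) x w = 0 := fun w hw =>
    ps2_dir (a1.differentiableAt (by simp)) fun t => by simp [XX, hw]
  have hs : vso v jl = 0 := rfl
  rw [Lb_congr (ps2_far h)]
  refine (ps2_prod (P := m ^ (N1 + N2 + N3)) a1 a2 (ps2_chi_nonneg _) (hd _ hs)
    (hd _ (by simp [hs])) (fun j hj => (b1 j hj).trans (hp (by omega)))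
    (fun j hj => (b2 j hj).trans (hp (by omega))) ((b3 2 le_rfl).trans (hp (by omega)))).trans ?_
  have hc := ps2_chi_nonneg (XX m x)
  gcongr ?_ * _ * _ * _
  have hE : 1 ≤ Real.exp m := Real.one_le_exp (by linarith only [hm'])
  have q1 : (m : ℝ) ^ (N1 + N2 + N3) ≤ m ^ (N0 + 2 * (N1 + N2 + N3)) := hp (by omega)
  have q2 : ((m : ℝ) ^ (N1 + N2 + N3)) ^ 2 ≤ m ^ (N0 + 2 * (N1 + N2 + N3)) := by
    rw [← pow_mul]
    exact hp (by omega)
  have q3 : (0 : ℝ) ≤ m ^ (N0 + 2 * (N1 + N2 + N3)) := by positivity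
  rw [pow_succ (m : ℝ) (N0 + 2 * (N1 + N2 + N3))]
  have q4 := mul_le_mul_of_nonneg_left hm' q3
  have q5 := mul_le_mul_of_nonneg_right hE (mul_nonneg q3 (by linarith only [hm'] : (0 : ℝ) ≤ m))
  linarith

theorem Lv_fine : ∀ᶠ m : ℕ in atTop, ∀ x : EE, ‖x‖ < 3 → 3 / 4 ≤ qq x → ∀ v,
    -(‖vst v‖ ^ 2 / 100) ≤ Lv (fine m) x v := by
  obtain ⟨N, h1⟩ := psi_mixed
  obtain ⟨N0, h0⟩ := ps2_gen
  filter_upwards [h0, h1, psi_soft, ev_mu 500 (2 * N), eventually_ge_atTop 1]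
    with m h0 h1 h2 h3 hm x hx hq v
  have hm' : (1 : ℝ) ≤ m := by exact_mod_cast hm
  have hs := (h0 x hx.le).1
  obtain ⟨a1, a2⟩ := h1 x hx.le v
  have a3 := h2 x hx.le hq v
  have e : fine m =ᶠ[𝓝 x] fun t => aa m * Psi m t := by
    filter_upwards [box_one_ev hx] with t ht
    rw [fine, ht, one_mul]
  rw [Lv, Lb_congr e, Lb_const_mul hs, ← Lv]
  conv_rhs => rw [← vst_add_vso v, Lv_add_vec hs]
  have hE : 1 ≤ Real.exp m := Real.one_le_exp (by linarith only [hm'])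
  obtain ⟨P, hP⟩ : ∃ P, P = Real.exp m * m ^ N := ⟨_, rfl⟩
  have p1 : 1 ≤ P := hP ▸ one_le_mul_of_one_le_of_one_le hE (one_le_pow₀ hm')
  have p2 : aa m * P ^ 2 ≤ 1 / 500 := by
    have q1 : aa m ≤ mu m := by
      have := pow_le_pow_of_le_one (mu_pos m).le (mu_le_one m) (by norm_num : 1 ≤ 7)
      rwa [pow_one] at this
    have q2 : P ^ 2 ≤ m ^ (2 * N) * Real.exp m ^ 8 := by
      rw [hP, mul_pow, ← pow_mul, mul_comm N 2, mul_comm]
      exact mul_le_mul_of_nonneg_left (pow_le_pow_right₀ hE (by norm_num)) (by positivity)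
    have q3 := mul_le_mul q1 q2 (by positivity) (mu_pos m).le
    linarith only [h3, q3]
  rw [← hP] at a1 a2
  have b1 := (abs_le.1 a1).1
  have b2 := (abs_le.1 a2).1
  have b3 : -(5 * P ^ 2 * ‖vst v‖ ^ 2) ≤ Lv (Psi m) x (vst v) +
      2 * Lb (Psi m) x (vst v) (vso v) + Lv (Psi m) x (vso v) := by
    have c1 := sq_nonneg (chi (XX m x) * ‖vso v‖ / 2 - 2 * P * ‖vst v‖)
    have c2 : P * ‖vst v‖ ^ 2 ≤ P ^ 2 * ‖vst v‖ ^ 2 := by gcongr; nlinarith only [p1]
    nlinarith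
  have b4 := mul_le_mul_of_nonneg_left b3 (aa_pos m).le
  have b5 := mul_le_mul_of_nonneg_right p2 (sq_nonneg ‖vst v‖)
  linarith only [b4, b5]


end Pool.Agent.MP_bea40e_an.Iv

end

section

open Filter Topology Set Metric Complex
open scoped ContDiff ComplexConjugate

namespace Pool.Agent.MP_bea40e_an.Iv

theorem ps4_an (j : J) (x : EE) : AnalyticAt ℂ (fun t : EE => t j) x :=
  (ContinuousLinearMap.proj (R := ℂ) (φ := fun _ : J => ℂ) j).analyticAt x

theorem ps4_fd (j : J) (x v : EE) : fderiv ℂ (fun t : EE => t j) x v = v j := by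
  have h := (ContinuousLinearMap.proj (R := ℂ) (φ := fun _ : J => ℂ) j).hasFDerivAt (x := x)
  have h2 : fderiv ℂ (fun t : EE => t j) x = _ := h.fderiv
  rw [h2]
  rfl

theorem ps4_cd (j : J) (x : EE) : ContDiffAt ℝ ∞ (fun t : EE => t j) x :=
  contDiffAt_of_analyticAt (ps4_an j x)

theorem ps4_cd_im (j : J) (x : EE) : ContDiffAt ℝ ∞ (fun t : EE => (t j).im ^ 2) x :=
  ((Complex.imCLM.contDiff.contDiffAt).comp x (ps4_cd j x)).pow 2

theorem ps4_cd_re (j : J) (x : EE) : ContDiffAt ℝ ∞ (fun t : EE => (t j).re ^ 2) x :=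
  ((Complex.reCLM.contDiff.contDiffAt).comp x (ps4_cd j x)).pow 2

theorem Lv_ysq (x v : EE) : Lv ysq x v = (‖v jl‖ ^ 2 + ‖v jo‖ ^ 2) / 2 := by
  have h1 := Lv_imSq (ps4_an jl x) v
  have h2 := Lv_imSq (ps4_an jo x) v
  rw [ps4_fd] at h1 h2
  have h := Lb_add (ps4_cd_im jl x) (ps4_cd_im jo x) v v
  unfold Lv at h1 h2 ⊢
  have e : ysq = fun t : EE => (t jl).im ^ 2 + (t jo).im ^ 2 := rfl
  rw [e, h, h1, h2]
  ring

theorem pshAt_ysq (x : EE) : PshAt ysq x := by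
  refine ⟨(ps4_cd_im jl x).add (ps4_cd_im jo x), fun v => ?_⟩
  rw [Lv_ysq]
  positivity

theorem ps4_kap {f : EE → ℝ} {x : EE} (hf : PshAt f x) : PshAt (fun t => kap (f t)) x :=
  hf.comp kap_contDiff.contDiffAt (by rw [kap_deriv]; exact Real.smoothTransition.nonneg _)
    (kap_deriv2_nonneg _)

theorem ps4_nsq (j : J) (x : EE) : PshAt (fun t : EE => kap (‖t j‖ ^ 2 - 1)) x := by
  have h := (pshAt_normSq (ps4_an j x)).add (pshAt_const (-1))
  exact ps4_kap (f := fun t : EE => ‖t j‖ ^ 2 - 1) (by simpa only [sub_eq_add_neg] using h)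

theorem ps4_rsq (j : J) (x : EE) :
    PshAt (fun t : EE => kap (((t j).re ^ 2 - LL ^ 2) / LL ^ 3)) x := by
  have h0 : PshAt (fun t : EE => (t j).re ^ 2) x :=
    ⟨ps4_cd_re j x, fun v => by rw [Lv_reSq (ps4_an j x)]; positivity⟩
  have h := (h0.add (pshAt_const (-LL ^ 2))).div_const (pow_pos LL_pos 3).le
  exact ps4_kap (f := fun t : EE => ((t j).re ^ 2 - LL ^ 2) / LL ^ 3)
    (by simpa only [sub_eq_add_neg] using h)

theorem pshAt_Xi (x : EE) : PshAt Xi x :=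
  (((ps4_nsq jw x).add (pshAt_sum Finset.univ fun j _ => ps4_nsq (jv j) x)).add
    (ps4_rsq jl x)).add (ps4_rsq jo x)

/-- the components `l` and `o` of a vector -/
def ps4_lo (v : EE) : EE := pt 0 0 0 (v jl) (v jo) 0

theorem ps4_lo_l (v : EE) : ps4_lo v jl = v jl := rfl

theorem ps4_lo_o (v : EE) : ps4_lo v jo = v jo := rfl

theorem ps4_lo_norm (v : EE) : ‖ps4_lo v‖ ≤ max ‖v jl‖ ‖v jo‖ := by
  have h0 : (0 : ℝ) ≤ max ‖v jl‖ ‖v jo‖ := le_max_of_le_left (norm_nonneg _)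
  have hz : ‖(0 : ℂ)‖ ≤ max ‖v jl‖ ‖v jo‖ := by rw [norm_zero]; exact h0
  exact norm_le_of_coord hz hz hz (le_max_left _ _) (le_max_right _ _) fun _ => hz

theorem ps4_lo_sq (v : EE) : ‖ps4_lo v‖ * ‖ps4_lo v‖ ≤ ‖v jl‖ ^ 2 + ‖v jo‖ ^ 2 := by
  have h := ps4_lo_norm v
  have h1 : ‖ps4_lo v‖ * ‖ps4_lo v‖ ≤ max ‖v jl‖ ‖v jo‖ * max ‖v jl‖ ‖v jo‖ :=
    mul_self_le_mul_self (norm_nonneg _) h
  refine h1.trans ?_
  rcases le_total ‖v jl‖ ‖v jo‖ with h2 | h2
  · rw [max_eq_right h2]; linarith only [sq_nonneg ‖v jl‖]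
  · rw [max_eq_left h2]; linarith only [sq_nonneg ‖v jo‖]

theorem ps4_line {f : EE → ℝ} (h : ∀ t t' : EE, t jl = t' jl → t jo = t' jo → f t = f t')
    (x : EE) {v w : EE} (hl : v jl = w jl) (ho : v jo = w jo) :
    (fun t : ℝ => f (x + t • v)) = fun t : ℝ => f (x + t • w) := by
  funext t
  apply h
  · simp only [Pi.add_apply, Pi.smul_apply, hl]
  · simp only [Pi.add_apply, Pi.smul_apply, ho]

/-- a function of `l` and `o` only sees these components of the vector (`Hs_line`) -/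
theorem Lv_lo {f : EE → ℝ} {x : EE} (hf : ContDiffAt ℝ ∞ f x)
    (h : ∀ t t' : EE, t jl = t' jl → t jo = t' jo → f t = f t') (v : EE) :
    |Lv f x v| ≤ ‖iteratedFDeriv ℝ 2 f x‖ * (‖v jl‖ ^ 2 + ‖v jo‖ ^ 2) := by
  have e : Lv f x v = Lb f x (ps4_lo v) (ps4_lo v) := by
    unfold Lv Lb
    rw [Hs_line hf, Hs_line hf, Hs_line hf, Hs_line hf,
      ps4_line h x (ps4_lo_l v).symm (ps4_lo_o v).symm,
      ps4_line h x (v := I • v) (w := I • ps4_lo v) (by simp only [Pi.smul_apply, ps4_lo_l])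
        (by simp only [Pi.smul_apply, ps4_lo_o])]
  rw [e]
  refine (abs_Lb_le _ _).trans ?_
  rw [mul_assoc]
  exact mul_le_mul_of_nonneg_left (ps4_lo_sq v) (norm_nonneg _)

theorem ps4_fd_lo {f : EE → ℝ} {x : EE} (hf : ContDiffAt ℝ ∞ f x)
    (h : ∀ t t' : EE, t jl = t' jl → t jo = t' jo → f t = f t') (v : EE) :
    |fderiv ℝ f x v| ≤ ‖iteratedFDeriv ℝ 1 f x‖ * ‖ps4_lo v‖ := by
  have hd : DifferentiableAt ℝ f x := hf.differentiableAt (by simp)
  have e : fderiv ℝ f x v = fderiv ℝ f x (ps4_lo v) := by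
    rw [← hd.lineDeriv_eq_fderiv, ← hd.lineDeriv_eq_fderiv]
    unfold lineDeriv
    rw [ps4_line h x (ps4_lo_l v).symm (ps4_lo_o v).symm]
  rw [e]
  exact abs_fderiv_le _

theorem ps4_XT {m : ℕ} (F : ℝ → ℝ → ℝ) (t t' : EE) (hl : t jl = t' jl) (ho : t jo = t' jo) :
    F (XX m t) (TT m t) = F (XX m t') (TT m t') := by
  unfold XX TT
  rw [hl, ho]

/-- the scale factor absorbs polynomials -/
theorem ps4_aa (C : ℝ) (N : ℕ) (hC : 0 ≤ C) :
    ∀ᶠ m : ℕ in atTop, aa m * (C * (m : ℝ) ^ N) ≤ 1 / 2 := by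
  filter_upwards [ev_mu' (2 * C) N] with m hm
  have h0 := mu_pos m
  have h1 : aa m ≤ mu m := by
    unfold aa
    exact pow_le_of_le_one h0.le (mu_le_one m) (by norm_num)
  have h2 : aa m * (C * (m : ℝ) ^ N) ≤ mu m * (C * (m : ℝ) ^ N) :=
    mul_le_mul_of_nonneg_right h1 (by positivity)
  linarith

/-- the common scheme: `ysq` absorbs a small negative Levi form in the directions `l`, `o` -/
theorem ps4_core {g : EE → ℝ} {x : EE} {a P : ℝ} (ha : 0 ≤ a) (hP : a * P ≤ 1 / 2)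
    (hg : ContDiffAt ℝ ∞ g x) (hL : ∀ v : EE, -(P * (‖v jl‖ ^ 2 + ‖v jo‖ ^ 2)) ≤ Lv g x v) :
    PshAt (fun t => ysq t + Xi t + a * g t) x := by
  have h1 := pshAt_ysq x
  have h2 := pshAt_Xi x
  have h3 : ContDiffAt ℝ ∞ (fun t => a * g t) x := contDiffAt_const.mul hg
  refine ⟨(h1.1.add h2.1).add h3, fun v => ?_⟩
  have e1 := Lb_add (h1.1.add h2.1) h3 v v
  have e2 := Lb_add h1.1 h2.1 v v
  have e3 := Lb_const_mul hg a v v
  have e4 := Lv_ysq x v
  have e5 := h2.2 v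
  have e6 := hL v
  unfold Lv at e4 e5 e6 ⊢
  rw [e1, e2, e3, e4]
  have hs : 0 ≤ ‖v jl‖ ^ 2 + ‖v jo‖ ^ 2 := by positivity
  have e7 := mul_le_mul_of_nonneg_left e6 ha
  have e8 := mul_le_mul_of_nonneg_right hP hs
  linarith only [e5, e7, e8]

theorem ps4_ball {x : EE} (h : ‖x‖ < 3) : x ∈ closedBall (0 : EE) 5 := by
  rw [mem_closedBall_zero_iff]; linarith

theorem ps4_low {f : EE → ℝ} {x : EE} {P : ℝ} (hf : ContDiffAt ℝ ∞ f x)
    (h : ∀ t t' : EE, t jl = t' jl → t jo = t' jo → f t = f t')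
    (hP : ‖iteratedFDeriv ℝ 2 f x‖ ≤ P) (v : EE) :
    -(P * (‖v jl‖ ^ 2 + ‖v jo‖ ^ 2)) ≤ Lb f x v v := by
  have h1 := Lv_lo hf h v
  have hs : 0 ≤ ‖v jl‖ ^ 2 + ‖v jo‖ ^ 2 := by positivity
  have h2 := mul_le_mul_of_nonneg_right hP hs
  have h3 := (abs_le.1 h1).1
  unfold Lv at h3
  linarith

theorem pshAt_Phw : ∀ᶠ m : ℕ in atTop, ∀ k : Wd m, ∀ x ∈ Vw m, PshAt (Phw m k) x := by
  obtain ⟨N1, h1⟩ := tame_Wall.bound 2
  obtain ⟨N2, h2⟩ := Tame.bound' (κ := Wd) tame_eta 2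
  filter_upwards [h1, h2, word_an, ps4_aa 2 (N1 + N2) (by norm_num), eventually_ge_atTop 1]
    with m h1 h2 h3 h4 hm k x hx
  have hb := ps4_ball hx.2.2.2.1
  obtain ⟨c1, d1⟩ := h1 x hb
  obtain ⟨c2, d2⟩ := h2 k x hb
  have hw := pshAt_normSq (h3 k x hx).2.1
  have hm1 : (1 : ℝ) ≤ m := by exact_mod_cast hm
  have p1 : (m : ℝ) ^ N1 ≤ m ^ (N1 + N2) := pow_le_pow_right₀ hm1 (by omega)
  have p2 : (m : ℝ) ^ N2 ≤ m ^ (N1 + N2) := pow_le_pow_right₀ hm1 (by omega)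
  refine ps4_core (g := fun t => Wall m (XX m t) (TT m t) +
    S0 m * ∑ l, etaR m k l (XX m t) (TT m t) + ‖ww m k t‖ ^ 2) (aa_pos m).le h4
    ((c1.add c2).add hw.1) fun v => ?_
  have e1 := Lb_add (c1.add c2) hw.1 v v
  have e2 := Lb_add c1 c2 v v
  have e3 := ps4_low c1 (ps4_XT (Wall m)) ((d1 2 le_rfl).trans p1) v
  have e4 := ps4_low c2 (ps4_XT fun X T => S0 m * ∑ l, etaR m k l X T)
    ((d2 2 le_rfl).trans p2) v
  have e5 := hw.2 v
  unfold Lv at e5 ⊢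
  rw [e1, e2]
  linarith only [e3, e4, e5]

theorem ps4_tame_XX : Tame id (fun _ => closedBall (0 : EE) 5) fun m x => XX m x := by
  let L : EE →L[ℝ] ℝ := Complex.reCLM.comp (ContinuousLinearMap.proj (R := ℝ) jl)
  have hL : ‖L‖ ≤ 1 := by
    refine ContinuousLinearMap.opNorm_le_bound _ zero_le_one fun x => ?_
    rw [one_mul]
    exact (Complex.abs_re_le_norm (x jl)).trans (norm_le_pi_norm x jl)
  have h1 : Tame id (fun _ => closedBall (0 : EE) 5) fun (_ : ℕ) x => L x := by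
    refine tame_clm (fun _ => L) (M := 5) (N := 1) (fun i hi => ?_) fun i hi x hx => ?_
    · have : (5 : ℝ) ≤ (id i : ℕ) := by exact_mod_cast hi
      rw [pow_one]; linarith only [hL, this]
    · have : (5 : ℝ) ≤ (id i : ℕ) := by exact_mod_cast hi
      rw [mem_closedBall_zero_iff] at hx
      rw [pow_one]; linarith only [hx, this]
  have h2 : Tame id (fun _ => closedBall (0 : EE) 5) fun (m : ℕ) (_ : EE) => lc m := by
    refine tame_const (M := 1) (N := 0) fun i hi => ?_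
    have : (1 : ℝ) ≤ i := by exact_mod_cast hi
    rw [pow_zero, lc, Real.norm_eq_abs, abs_div, abs_neg, abs_one, abs_of_pos (by positivity),
      div_le_one (by positivity)]
    linarith
  have h3 : Tame id (fun _ => closedBall (0 : EE) 5) fun (m : ℕ) (_ : EE) => (m : ℝ) ^ 3 := by
    refine tame_const (M := 1) (N := 3) fun i _ => ?_
    rw [Real.norm_eq_abs, abs_of_nonneg (by positivity)]
    exact le_rfl
  exact (h1.sub h2).mul h3

theorem ps4_tame_chi : Tame id (fun _ => closedBall (0 : EE) 5) fun m x => chi (XX m x) := by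
  have h1 : Tame id (fun _ => closedBall (0 : EE) 5) fun (_ : ℕ) (_ : EE) => (1 : ℝ) :=
    tame_const (M := 1) (N := 0) fun i _ => by simp
  have h2 := (ps4_tame_XX.pow 2).st (a := fun _ => 121) (b := fun _ => 144) (M := 121) (N := 1)
    fun i hi => by
      have : (121 : ℝ) ≤ (id i : ℕ) := by exact_mod_cast hi
      rw [pow_one]
      refine ⟨by rw [abs_of_pos (by norm_num)]; exact this, ?_⟩
      rw [abs_of_pos (by norm_num)]
      refine le_trans ?_ this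
      norm_num
  exact h1.sub h2

theorem ps4_fd_nsq (x v : EE) :
    |fderiv ℝ (fun t : EE => ‖t jw‖ ^ 2) x v| ≤ 2 * ‖x jw‖ * ‖v jw‖ := by
  have h := (ContinuousLinearMap.proj (R := ℝ) (φ := fun _ : J => ℂ) jw).hasFDerivAt (x := x)
  have h2 : fderiv ℝ (fun t : EE => ‖t jw‖ ^ 2) x = _ := h.norm_sq.fderiv
  rw [h2]
  have h3 := abs_real_inner_le_norm (x jw) (v jw)
  simp only [smul_apply, ContinuousLinearMap.comp_apply, innerSL_apply_apply,
    ContinuousLinearMap.proj_apply, nsmul_eq_mul, Nat.cast_ofNat, abs_mul, Nat.abs_ofNat]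
  linarith

theorem ps4_cross {c p q n w P : ℝ} (hc : 0 ≤ c) (hp : |p| ≤ P * n) (hq : |q| ≤ 6 * w) :
    -(c ^ 2 * w ^ 2 / 2 + 18 * P ^ 2 * n ^ 2) ≤ 2 * c * p * q / 2 := by
  have h1 : |p * q| ≤ P * n * (6 * w) := by
    rw [abs_mul]
    exact mul_le_mul hp hq (abs_nonneg _) ((abs_nonneg _).trans hp)
  have h2 := mul_le_mul_of_nonneg_left (abs_le.1 h1).1 hc
  linarith only [sq_nonneg (c * w - 6 * (P * n)), h2]

/-- the Levi form of `c ^ 2 * ‖w‖ ^ 2` for a function `c ≥ 0` of `l` and `o` -/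
theorem ps4_chi {c : EE → ℝ} {x : EE} {P : ℝ} (hx : ‖x‖ < 3) (hc : ContDiffAt ℝ ∞ c x)
    (h0 : 0 ≤ c x) (h : ∀ t t' : EE, t jl = t' jl → t jo = t' jo → c t = c t')
    (h1 : ‖iteratedFDeriv ℝ 1 c x‖ ≤ P)
    (h2 : ‖iteratedFDeriv ℝ 2 (fun t => c t ^ 2) x‖ ≤ P) (v : EE) :
    -((9 * P + 36 * P ^ 2) * (‖v jl‖ ^ 2 + ‖v jo‖ ^ 2)) ≤
      Lb (fun t => c t ^ 2 * ‖t jw‖ ^ 2) x v v := by
  have hw := pshAt_normSq (ps4_an jw x)
  have hP : 0 ≤ P := (norm_nonneg _).trans h1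
  rw [Lb_mul (hc.pow 2) hw.1]
  have e1 := Lv_normSq (ps4_an jw x) v
  rw [ps4_fd] at e1
  unfold Lv at e1
  rw [e1]
  have e2 := ps4_low (hc.pow 2) (fun t t' a b => by rw [h t t' a b]) h2 v
  have hxw : ‖x jw‖ ≤ 3 := (norm_le_pi_norm x jw).trans hx.le
  have hd : DifferentiableAt ℝ c x := hc.differentiableAt (by simp)
  have e3 : ∀ u : EE, fderiv ℝ (fun t => c t ^ 2) x u = 2 * c x * fderiv ℝ c x u := by
    intro u
    have := (hd.hasFDerivAt.pow 2).fderiv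
    rw [this]
    simp [mul_assoc]
  have e4 : ∀ u : EE, |fderiv ℝ c x u| ≤ P * ‖ps4_lo u‖ := fun u =>
    (ps4_fd_lo hc h u).trans (mul_le_mul_of_nonneg_right h1 (norm_nonneg _))
  have e5 : ∀ u : EE, |fderiv ℝ (fun t : EE => ‖t jw‖ ^ 2) x u| ≤ 6 * ‖u jw‖ := fun u =>
    (ps4_fd_nsq x u).trans (mul_le_mul_of_nonneg_right (by linarith) (norm_nonneg _))
  have a1 := ps4_cross h0 (e4 v) (e5 v)
  have a2 := ps4_cross h0 (e4 (I • v)) (e5 (I • v))
  have n1 : ‖(I • v) jw‖ = ‖v jw‖ := by simp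
  have n2 := ps4_lo_sq v
  have n3 := ps4_lo_sq (I • v)
  have n4 : ‖(I • v) jl‖ = ‖v jl‖ := by simp
  have n5 : ‖(I • v) jo‖ = ‖v jo‖ := by simp
  rw [n4, n5] at n3
  rw [n1] at a2
  rw [e3, e3]
  have hs : 0 ≤ ‖v jl‖ ^ 2 + ‖v jo‖ ^ 2 := by positivity
  have b1 : P ^ 2 * ‖ps4_lo v‖ ^ 2 ≤ P ^ 2 * (‖v jl‖ ^ 2 + ‖v jo‖ ^ 2) :=
    mul_le_mul_of_nonneg_left (by rw [sq]; exact n2) (sq_nonneg _)
  have b2 : P ^ 2 * ‖ps4_lo (I • v)‖ ^ 2 ≤ P ^ 2 * (‖v jl‖ ^ 2 + ‖v jo‖ ^ 2) :=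
    mul_le_mul_of_nonneg_left (by rw [sq]; exact n3) (sq_nonneg _)
  have b3 : -(9 * (P * (‖v jl‖ ^ 2 + ‖v jo‖ ^ 2))) ≤
      ‖x jw‖ ^ 2 * Lb (fun t => c t ^ 2) x v v := by
    have q1 : ‖x jw‖ ^ 2 ≤ 9 := by nlinarith only [norm_nonneg (x jw), hxw]
    have q2 := mul_le_mul_of_nonneg_left e2 (sq_nonneg ‖x jw‖)
    have q3 := mul_le_mul_of_nonneg_right q1 (mul_nonneg hP hs)
    linarith only [q2, q3]
  linarith

/-- `Lv (chi ^ 2 * ‖w‖ ^ 2) ≥ chi ^ 2 ‖v jw‖ ^ 2 - P chi ‖v jl‖ ‖v jw‖ - P ‖v jl‖ ^ 2` -/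
theorem pshAt_Pho : ∀ᶠ m : ℕ in atTop, ∀ x ∈ Vo, PshAt (Pho m) x := by
  obtain ⟨N1, h1⟩ := tame_Wall.bound 2
  obtain ⟨N2, h2⟩ := ps4_tame_chi.bound 2
  obtain ⟨N3, h3⟩ := (ps4_tame_chi.pow 2).bound 2
  filter_upwards [h1, h2, h3, ps4_aa 46 (2 * (N1 + N2 + N3)) (by norm_num), eventually_ge_atTop 1]
    with m h1 h2 h3 h4 hm x hx
  have hb := ps4_ball hx.1
  obtain ⟨c1, d1⟩ := h1 x hb
  obtain ⟨c2, d2⟩ := h2 x hb
  obtain ⟨c3, d3⟩ := h3 x hb
  have hw := pshAt_normSq (ps4_an jw x)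
  have hm1 : (1 : ℝ) ≤ m := by exact_mod_cast hm
  have p1 : (m : ℝ) ^ N1 ≤ m ^ (N1 + N2 + N3) := pow_le_pow_right₀ hm1 (by omega)
  have p2 : (m : ℝ) ^ N2 ≤ m ^ (N1 + N2 + N3) := pow_le_pow_right₀ hm1 (by omega)
  have p3 : (m : ℝ) ^ N3 ≤ m ^ (N1 + N2 + N3) := pow_le_pow_right₀ hm1 (by omega)
  have p4 : (1 : ℝ) ≤ m ^ (N1 + N2 + N3) := one_le_pow₀ hm1
  rw [pow_mul'] at h4
  refine ps4_core (g := fun t => Wall m (XX m t) (TT m t) + chi (XX m t) ^ 2 * ‖t jw‖ ^ 2)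
    (aa_pos m).le h4 (c1.add (c3.mul hw.1)) fun v => ?_
  have e1 := Lb_add c1 (c3.mul hw.1) v v
  have e3 := ps4_low c1 (ps4_XT (Wall m)) ((d1 2 le_rfl).trans p1) v
  have e4 := ps4_chi (c := fun t => chi (XX m t)) hx.1 c2
    (sub_nonneg.2 (st_le_one _ _ _)) (ps4_XT fun X _ => chi X)
    ((d2 1 (by norm_num)).trans p2) ((d3 2 le_rfl).trans p3) v
  unfold Lv
  rw [e1]
  have hs : 0 ≤ ‖v jl‖ ^ 2 + ‖v jo‖ ^ 2 := by positivity
  generalize (m : ℝ) ^ (N1 + N2 + N3) = P at e3 e4 p4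
  have e5 : P * (‖v jl‖ ^ 2 + ‖v jo‖ ^ 2) ≤ P ^ 2 * (‖v jl‖ ^ 2 + ‖v jo‖ ^ 2) :=
    mul_le_mul_of_nonneg_right (by nlinarith only [p4]) hs
  linarith only [e3, e4, e5]

theorem ok_psh_Φ : Big fun m0 m => ∀ a, ∀ x ∈ (tdm m0 m).V a, PshAt ((tdm m0 m).Φ a) x := by
  refine (Big.of_ev (pshAt_Phw.and pshAt_Pho)).mono fun m0 m _ h a x hx => ?_
  cases a with
  | none => exact h.2 x hx
  | some k => exact h.1 k x hx


end Pool.Agent.MP_bea40e_an.Iv

end

section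

open Filter Topology Set Metric Complex
open scoped ContDiff ComplexConjugate

namespace Pool.Agent.MP_bea40e_an.Iv

theorem ps3_an (j : J) (x : EE) : AnalyticAt ℂ (fun t : EE => t j) x :=
  (ContinuousLinearMap.proj (R := ℂ) (φ := fun _ : J => ℂ) j).analyticAt x

theorem ps3_hfd (j : J) (x : EE) : HasFDerivAt (fun t : EE => t j)
    (ContinuousLinearMap.proj (R := ℂ) (φ := fun _ : J => ℂ) j) x :=
  (ContinuousLinearMap.proj (R := ℂ) (φ := fun _ : J => ℂ) j).hasFDerivAt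

theorem ps3_fd (j : J) (x v : EE) : fderiv ℂ (fun t : EE => t j) x v = v j := by
  rw [(ps3_hfd j x).fderiv]
  rfl

theorem ps3_vst (v : EE) :
    ‖vst v‖ ^ 2 ≤ ‖v js‖ ^ 2 + ‖v jz‖ ^ 2 + ‖v jl‖ ^ 2 + ‖v jo‖ ^ 2 := by
  set S := ‖v js‖ ^ 2 + ‖v jz‖ ^ 2 + ‖v jl‖ ^ 2 + ‖v jo‖ ^ 2 with hS
  have h0 : 0 ≤ S := by positivity
  have key : ∀ a : ℝ, a ^ 2 ≤ S → a ≤ √S := fun a ha => Real.le_sqrt_of_sq_le ha
  have a1 := sq_nonneg ‖v js‖
  have a2 := sq_nonneg ‖v jz‖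
  have a3 := sq_nonneg ‖v jl‖
  have a4 := sq_nonneg ‖v jo‖
  have h : ‖vst v‖ ≤ √S := by
    refine norm_le_of_coord ?_ ?_ ?_ ?_ ?_ fun j => ?_
    · exact key ‖v js‖ (by linarith)
    · exact key ‖v jz‖ (by linarith)
    · exact le_trans (norm_zero (E := ℂ)).le (Real.sqrt_nonneg _)
    · exact key ‖v jl‖ (by linarith)
    · exact key ‖v jo‖ (by linarith)
    · exact le_trans (norm_zero (E := ℂ)).le (Real.sqrt_nonneg _)
  calc ‖vst v‖ ^ 2 ≤ √S ^ 2 := pow_le_pow_left₀ (norm_nonneg _) h 2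
    _ = S := Real.sq_sqrt h0

theorem ps3_HH {x : EE} (hl : -2 * LL / 5 < (x jl).re) (v : EE) :
    Lv (fun t : EE => HH (qq t) (t jl).re) x v = (4 * qq x - 2) * ‖v js‖ ^ 2 := by
  have a2 : AnalyticAt ℂ (fun t : EE => t js * t js) x := (ps3_an js x).mul (ps3_an js x)
  have c1 := (pshAt_normSq a2).1
  have c2 := (pshAt_normSq (ps3_an js x)).1
  have hev : (fun t : EE => HH (qq t) (t jl).re) =ᶠ[𝓝 x]
      fun t : EE => ‖t js * t js‖ ^ 2 - 2 * ‖t js‖ ^ 2 + 1 := by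
    have hc : Continuous fun t : EE => (t jl).re := by fun_prop
    filter_upwards [hc.continuousAt.eventually (Ioi_mem_nhds hl)] with t ht
    rw [HH_eq (Or.inl (le_of_lt ht)), norm_mul]
    unfold qq
    ring
  have h1 := Lv_normSq a2 v
  have h2 := Lv_normSq (ps3_an js x) v
  rw [ps3_fd] at h2
  have h3 : fderiv ℂ (fun t : EE => t js * t js) x v = 2 * x js * v js := by
    rw [((ps3_hfd js x).fun_mul (ps3_hfd js x)).fderiv]
    simp
    ring
  rw [h3] at h1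
  unfold Lv at h1 h2 ⊢
  rw [Lb_congr hev, Lb_add (c1.sub (contDiffAt_const.mul c2)) contDiffAt_const,
    Lb_sub c1 (contDiffAt_const.mul c2), Lb_const_mul c2, Lb_const, h1, h2]
  unfold qq
  simp only [norm_mul, Complex.norm_ofNat]
  ring

/-- near the point `HH = (q - 1) ^ 2`, whose Levi form is `(4 q - 2) ‖v js‖ ^ 2` -/
theorem Lv_base {x : EE} (hq : 3 / 4 ≤ qq x) (hl : -LL / 3 ≤ (x jl).re) (v : EE) :
    ‖vst v‖ ^ 2 / 4 + ‖v jl‖ ^ 2 / 8 ≤ Lv base x v := by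
  have hL := LL_pos
  have hC := Cz_pos
  have c1 : ContDiffAt ℝ ∞ (fun t : EE => (t js * t jz).re) x :=
    (pshAt_re ((ps3_an js x).mul (ps3_an jz x))).1
  have cz : ContDiffAt ℝ ∞ (fun t : EE => ‖t jz‖ ^ 2) x := (pshAt_normSq (ps3_an jz x)).1
  have c2 : ContDiffAt ℝ ∞ (fun t : EE => ‖t jz‖ ^ 2 / Cz) x := cz.div_const _
  have c3 : ContDiffAt ℝ ∞ (fun t : EE => HH (qq t) (t jl).re) x := HH_contDiff.contDiffAt
  have c4 := (pshAt_ysq x).1
  have c5 := (pshAt_Xi x).1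
  have c6 : ContDiffAt ℝ ∞ (fun t : EE => sl (t jl).re) x :=
    sl_contDiff.contDiffAt.comp x (pshAt_re (ps3_an jl x)).1
  have e : Lv base x v = Lv (fun t : EE => (t js * t jz).re) x v +
      Lv (fun t : EE => ‖t jz‖ ^ 2 / Cz) x v + Lv (fun t : EE => HH (qq t) (t jl).re) x v +
      Lv ysq x v + Lv Xi x v - Lv (fun t : EE => sl (t jl).re) x v := by
    unfold Lv
    rw [← Lb_add c1 c2, ← Lb_add (c1.add c2) c3, ← Lb_add ((c1.add c2).add c3) c4,
      ← Lb_add (((c1.add c2).add c3).add c4) c5,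
      ← Lb_sub ((((c1.add c2).add c3).add c4).add c5) c6]
    rfl
  have e1 : Lv (fun t : EE => (t js * t jz).re) x v = 0 :=
    Lb_re ((ps3_an js x).mul (ps3_an jz x)) v v
  have e2 : Lv (fun t : EE => ‖t jz‖ ^ 2 / Cz) x v = Cz⁻¹ * ‖v jz‖ ^ 2 := by
    have h1 := Lv_normSq (ps3_an jz x) v
    rw [ps3_fd] at h1
    rw [← h1]
    unfold Lv
    rw [← Lb_const_mul cz]
    congr 1
    funext t
    rw [div_eq_inv_mul]
  have e6 := Lv_comp_re (ps3_an jl x) (γ := sl) sl_contDiff.contDiffAt v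
  rw [ps3_fd] at e6
  have h6 := (abs_le.1 (sl_deriv2 (x jl).re)).2
  have hz : ‖v jz‖ ^ 2 ≤ Cz⁻¹ * ‖v jz‖ ^ 2 := by
    have : 1 ≤ Cz⁻¹ := by
      rw [one_le_inv₀ hC]
      unfold Cz
      refine pow_le_one₀ hL.le ?_
      unfold LL
      norm_num
    nlinarith only [this]
  rw [e, e1, e2, ps3_HH (by linarith only [hl, hL]) v, Lv_ysq, e6]
  have h5 := (pshAt_Xi x).2 v
  have h7 := ps3_vst v
  linarith only [sq_nonneg ‖v js‖, sq_nonneg ‖v jz‖, sq_nonneg ‖v jl‖, sq_nonneg ‖v jo‖, mul_le_mul_of_nonneg_right h6 (sq_nonneg ‖v jl‖), mul_le_mul_of_nonneg_right hq (sq_nonneg ‖v js‖), hz, h5, h7]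

/-- `FS_cases`; for `lam = 0` use `continuous_Lv` and `FS_right` -/
theorem Lv_FS : ∀ᶠ m0 : ℕ in atTop, ∀ x : EE, ‖x‖ < 3 → 3 / 4 ≤ qq x → ∀ v,
    -(‖vst v‖ ^ 2 / 100) ≤ Lv (FS m0) x v := by
  filter_upwards [FS_cases, FS_right, FS_contDiff, FS_win.ev,
    (Big.of_ev Lv_fine).ev] with m0 hc hr hs hw hf x hx hq v
  have h0 : -(‖vst v‖ ^ 2 / 100) ≤ 0 := neg_nonpos.2 (by positivity)
  have hz : ∀ y : EE, (FS m0 =ᶠ[𝓝 y] fun _ => 0) → Lv (FS m0) y v = 0 := fun y hy => by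
    unfold Lv
    rw [Lb_congr hy, Lb_const]
  rcases hc x with ⟨m, hm, hX⟩ | h | h
  · have := hf m hm x hx hq v
    unfold Lv at this ⊢
    rwa [Lb_congr (hw m hm x hX)]
  · rwa [hz x h]
  · have hg : Continuous fun t : ℝ => Lv (FS m0) (x + Pi.single jl (t : ℂ)) v :=
      (continuous_Lv hs v).comp (continuous_const.add
        ((continuous_single (A := fun _ : J => ℂ) jl).comp Complex.continuous_ofReal))
    have h1 : Tendsto (fun t : ℝ => Lv (FS m0) (x + Pi.single jl (t : ℂ)) v) (𝓝[>] 0)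
        (𝓝 (Lv (FS m0) x v)) := by
      simpa using (hg.tendsto 0).mono_left (nhdsWithin_le_nhds (s := Ioi 0))
    refine ge_of_tendsto h1 ?_
    filter_upwards [self_mem_nhdsWithin] with t ht
    rw [hz _ (hr _ ?_)]
    · exact h0
    · simpa [h] using ht

theorem Lv_rr : ∀ᶠ m0 : ℕ in atTop, ∀ x : EE, ‖x‖ < 3 → 3 / 4 ≤ qq x → -LL / 3 ≤ (x jl).re → ∀ v,
    ‖v jl‖ ^ 2 / 8 ≤ Lv (rr m0) x v := by
  filter_upwards [Lv_FS, FS_contDiff] with m0 hF hs x hx hq hl v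
  have h1 := Lv_base hq hl v
  have h2 := hF x hx hq v
  have e : Lv (rr m0) x v = Lv base x v + Lv (FS m0) x v :=
    Lb_add base_contDiff.contDiffAt hs.contDiffAt v v
  rw [e]
  linarith only [sq_nonneg ‖vst v‖, h1, h2]

theorem ok_psh_r : Big fun m0 m => ∀ a, ∀ x ∈ (tdm m0 m).Cop a 5,
    -(tdm m0 m).L / 4 ≤ (tdm m0 m).lam x → 1 - 12 * (tdm m0 m).mm x ^ 4 ≤ (tdm m0 m).q x →
    PshAt (tdm m0 m).r x := by
  refine ((((Big.of_ev0 Lv_rr).and (Big.of_ev0 rr_contDiff)).and ok_V_lam).and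
    (Big.of_ev ms_le_L)).mono ?_
  rintro m0 m - ⟨⟨⟨h1, h2⟩, h3⟩, h4⟩ a x hx hl hq
  have hL := LL_pos
  have hx3 : ‖x‖ < 3 := by
    cases a with
    | none => exact hx.1.1
    | some k => exact hx.1.2.2.2.1
  have h5 : ms m (x jl).re ≤ 3 * LL := h4 _ (h3 a x hx.1)
  have h6 : ms m (x jl).re ≤ 1 / 10 := by
    refine h5.trans ?_
    unfold LL
    norm_num
  have h7 : ms m (x jl).re ^ 4 ≤ (1 / 10) ^ 4 := pow_le_pow_left₀ (ms_pos _ _).le h6 4
  have hq' : 1 - 12 * ms m (x jl).re ^ 4 ≤ qq x := hq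
  have hl' : -LL / 4 ≤ (x jl).re := hl
  refine ⟨h2.contDiffAt, fun v => le_trans (by positivity) (h1 x hx3 ?_ ?_ v)⟩
  · norm_num at h7
    linarith only [hq', h7]
  · linarith only [hL, hl']

/-- `crude`, `bcl_small`, `ms_deriv2`, `Lv_comp_re` -/
theorem ok_psh_0 : Big fun m0 m => ∀ x ∈ (tdm m0 m).Bcl 220,
    -(tdm m0 m).L / 4 ≤ (tdm m0 m).lam x →
    PshAt (fun t => (tdm m0 m).r t - 45 * (tdm m0 m).En t) x := by
  refine (((((Big.of_ev0 Lv_rr).and (Big.of_ev0 rr_contDiff)).and bcl_small).and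
    (Big.of_ev0 crude)).and (Big.of_ev ms_deriv2)).mono ?_
  rintro m0 m - ⟨⟨⟨⟨h1, h2⟩, h3⟩, h4⟩, h5⟩ x hx hl
  have hL := LL_pos
  have hl' : -LL / 4 ≤ (x jl).re := hl
  obtain ⟨c1, -, -, c4, c5⟩ := h4 x (h3 x hx).1
  have c6 := (abs_le.1 (c5 (by linarith only [hL, hl']))).1
  have hγ : ContDiff ℝ ∞ fun t => ms m t ^ 9 := (ms_contDiff m).pow 9
  have cm : ContDiffAt ℝ ∞ (fun t : EE => ms m (t jl).re ^ 9) x :=
    hγ.contDiffAt.comp x (pshAt_re (ps3_an jl x)).1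
  have e : (fun t => (tdm m0 m).r t - 45 * (tdm m0 m).En t) =
      fun t : EE => rr m0 t - 45 * 10 ^ 6 * ms m (t jl).re ^ 9 := by
    funext t
    rw [mul_assoc]
    rfl
  rw [e]
  refine ⟨h2.contDiffAt.sub (contDiffAt_const.mul cm), fun v => ?_⟩
  have e6 := Lv_comp_re (ps3_an jl x) (γ := fun t => ms m t ^ 9) hγ.contDiffAt v
  rw [ps3_fd] at e6
  have h6 := (abs_le.1 (h5 (x jl).re (by linarith only [hL, c4]))).2
  have h7 := h1 x (by linarith only [c1]) (by linarith only [c6]) (by linarith only [hL, hl']) v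
  unfold Lv at e6 h7 ⊢
  rw [Lb_sub h2.contDiffAt (contDiffAt_const.mul cm), Lb_const_mul cm, e6]
  linarith only [sq_nonneg ‖v jl‖, mul_le_mul_of_nonneg_right h6 (sq_nonneg ‖v jl‖), h7]


end Pool.Agent.MP_bea40e_an.Iv

end

section

open Filter Topology Set Metric Complex
open scoped ContDiff ComplexConjugate

namespace Pool.Agent.MP_bea40e_an.Iv

/-! The relation `pre`. -/

theorem cop_open : Big fun m0 m => ∀ a θ, IsOpen ((tdm m0 m).Cop a θ) := by
  refine (ok_an_z.and ok_psh_Φ).mono fun m0 m _ h a θ => ?_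
  have hm : Continuous (tdm m0 m).mm :=
    (ms_contDiff m).continuous.comp (continuous_re.comp (continuous_apply jl))
  have h0 : ∀ x, (tdm m0 m).mm x ≠ 0 := fun x => (ms_pos m _).ne'
  have hq : Continuous (tdm m0 m).q := (continuous_apply js).norm.pow 2
  refine ContinuousOn.isOpen_inter_preimage (f := (tdm m0 m).n a) (fun x hx => ?_)
    (ok_V_open m0 m a) isOpen_Iio
  refine ContinuousAt.continuousWithinAt ?_
  exact (((h.1 a x hx).continuousAt.norm.div (hm.pow 8).continuousAt (pow_ne_zero _ (h0 x))).max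
    ((hq.sub continuous_const).continuousAt.div (continuous_const.mul (hm.pow 4)).continuousAt
      (mul_ne_zero (by norm_num) (pow_ne_zero _ (h0 x))))).max
    (((h.2 a x hx).1.continuousAt.div (continuous_const.mul (hm.pow 8)).continuousAt
      (mul_ne_zero (by norm_num) (pow_ne_zero _ (h0 x)))).max (ok_cont_g m0 m a).continuousAt)

theorem ok_pre_refl (m0 m : ℕ) (a : Option (Wd m)) (x : EE) : (tdm m0 m).pre a a x := by
  cases a with
  | none => trivial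
  | some k => exact fun l h => absurd rfl h

theorem ok_pre_symm (m0 m : ℕ) (a b : Option (Wd m)) (x : EE) (h : (tdm m0 m).pre a b x) :
    (tdm m0 m).pre b a x := by
  cases a <;> cases b
  exacts [trivial, h, h, fun l e => h l e.symm]

theorem ok_pre_trans (m0 m : ℕ) (a b c : Option (Wd m)) (x : EE) (h : (tdm m0 m).pre a b x)
    (h' : (tdm m0 m).pre b c x) : (tdm m0 m).pre a c x := by
  cases a <;> cases b <;> cases c
  · trivial
  · exact h'
  · trivial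
  · exact h
  · exact h
  · intro l _
    have h1 : TT m x < 3 := h
    have h2 : 0 ≤ t0 l := by unfold t0; positivity
    linarith
  · exact h'
  · rename_i k k' k''
    intro l e
    by_cases e' : k l = k' l
    · exact h' l (e' ▸ e)
    · exact h l e'

theorem out_word : Big fun m0 m => ∀ k, ∀ x ∈ (tdm m0 m).Cop none 5,
    x ∈ (tdm m0 m).Cop (some k) 5 → TT m x < 3 / 2 := by
  refine (out_geo.and (Big.of_ev (chw_geo.and (eventually_gt_atTop 0)))).mono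
    fun m0 m _ h k x h1 h2 => ?_
  obtain ⟨a1, -, a2, -⟩ := h.2.1 k x (cop_chw h.2.2 h2).1
  rcases (h.1 x h1).1 with b | b | b
  · exact b
  · linarith only [a1, b]
  · linarith only [a2, b]

theorem word_word : Big fun m0 m => ∀ k k', ∀ x ∈ (tdm m0 m).Cop (some k) 5,
    x ∈ (tdm m0 m).Cop (some k') 5 → ∀ l, k l ≠ k' l →
      TT m x < t0 l + 21 / 10 ∨ t0 l + 8 < TT m x := by
  refine (Big.of_ev (chw_geo.and (eventually_gt_atTop 0))).mono
    fun m0 m _ h k k' x h1 h2 l e => ?_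
  by_contra hn
  rw [not_or, not_lt, not_lt] at hn
  have a1 := (h.1 k x (cop_chw h.2 h1).1).2.2.2.2.1 l hn.1 hn.2
  have a2 := (h.1 k' x (cop_chw h.2 h2).1).2.2.2.2.1 l hn.1 hn.2
  revert a1 a2 e
  cases k l <;> cases k' l <;> simp only [ne_eq, not_true_eq_false, sn, Bool.false_eq_true, ↓ reduceIte, neg_mul, one_mul, imp_false, not_lt, IsEmpty.forall_iff, not_false_eq_true, forall_const, Bool.true_eq_false] <;> intros <;> linarith

lemma rg_TT (m : ℕ) : Continuous (TT m) := by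
  unfold TT Tr
  fun_prop

theorem ok_pre_open : Big fun m0 m => ∀ a b, IsOpen {x | x ∈ (tdm m0 m).Cop a 5 ∧
    x ∈ (tdm m0 m).Cop b 5 ∧ (tdm m0 m).pre a b x} := by
  refine cop_open.mono fun m0 m _ h a b => (h a 5).inter ((h b 5).inter ?_)
  have hT := rg_TT m
  cases a <;> cases b
  · exact isOpen_univ
  · exact isOpen_lt hT continuous_const
  · exact isOpen_lt hT continuous_const
  · rename_i k k'
    have e : {x | (tdm m0 m).pre (some k) (some k') x} =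
        ⋂ l, ⋂ _ : k l ≠ k' l, {x | TT m x < t0 l + 3} := by
      ext x
      simp only [mem_iInter]
      rfl
    change IsOpen {x | (tdm m0 m).pre (some k) (some k') x}
    rw [e]
    exact isOpen_iInter_of_finite fun l => isOpen_iInter_of_finite fun _ =>
      isOpen_lt hT continuous_const

theorem ok_pre_closed : Big fun m0 m => ∀ a b, IsOpen {x | x ∈ (tdm m0 m).Cop a 5 ∧
    x ∈ (tdm m0 m).Cop b 5 ∧ ¬(tdm m0 m).pre a b x} := by
  refine (cop_open.and (out_word.and word_word)).mono fun m0 m _ h a b => ?_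
  have hT := rg_TT m
  cases a <;> cases b
  · convert isOpen_empty
    exact eq_empty_of_forall_notMem fun x hx => hx.2.2 trivial
  · convert isOpen_empty
    refine eq_empty_of_forall_notMem fun x hx => hx.2.2 ?_
    exact (h.2.1 _ x hx.1 hx.2.1).trans (by norm_num)
  · convert isOpen_empty
    refine eq_empty_of_forall_notMem fun x hx => hx.2.2 ?_
    exact (h.2.1 _ x hx.2.1 hx.1).trans (by norm_num)
  · rename_i k k'
    have e : {x | x ∈ (tdm m0 m).Cop (some k) 5 ∧ x ∈ (tdm m0 m).Cop (some k') 5 ∧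
        ¬(tdm m0 m).pre (some k) (some k') x} = (tdm m0 m).Cop (some k) 5 ∩
          ((tdm m0 m).Cop (some k') 5 ∩ ⋃ l, ⋃ _ : k l ≠ k' l, {x | t0 l + 8 < TT m x}) := by
      ext x
      refine and_congr_right fun h1 => and_congr_right fun h2 => ?_
      simp only [mem_iUnion, mem_ofPred_eq]
      constructor
      · intro hn
        by_contra hc
        refine hn fun l e => ?_
        rcases h.2.2 k k' x h1 h2 l e with b | b
        · linarith only [b]
        · exact absurd ⟨l, e, b⟩ hc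
      · rintro ⟨l, e, b⟩ hp
        linarith only [hp l e, b]
    rw [e]
    exact (h.1 _ 5).inter ((h.1 _ 5).inter (isOpen_iUnion fun l => isOpen_iUnion fun _ =>
      isOpen_lt continuous_const hT))


end Pool.Agent.MP_bea40e_an.Iv

end

section

open Filter Topology Set Metric Complex
open scoped ContDiff ComplexConjugate

namespace Pool.Agent.MP_bea40e_an.Iv

theorem dm_ysq (x : EE) : 0 ≤ ysq x := add_nonneg (sq_nonneg _) (sq_nonneg _)

theorem dm_t0 {n : ℕ} (l : Fin n) : 0 ≤ t0 l := by rw [t0]; positivity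

theorem dm_sn (b : Bool) : sn b = 1 ∨ sn b = -1 := by cases b <;> simp [sn]

theorem dm_cop {m0 m : ℕ} {a : Option (Wd m)} {x : EE} (h : x ∈ (tdm m0 m).Cop a 5) :
    x ∈ (tdm m0 m).V a ∧ qq x - 1 < 50 * ms m (x jl).re ^ 4 ∧
      (tdm m0 m).Φ a x < 100 * ms m (x jl).re ^ 8 ∧ (tdm m0 m).g a x < 5 := by
  obtain ⟨hV, hn⟩ := h
  have hp := ms_pos m (x jl).re
  simp only [TD.n, max_lt_iff] at hn
  obtain ⟨⟨-, h2⟩, h3, h4⟩ := hn
  change (qq x - 1) / (10 * ms m (x jl).re ^ 4) < 5 at h2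
  change _ / (20 * ms m (x jl).re ^ 8) < 5 at h3
  rw [div_lt_iff₀ (by positivity)] at h2 h3
  exact ⟨hV, by linarith, by linarith, h4⟩

theorem dm_ms8 {m : ℕ} (hm : 0 < m) {x : EE} (h : |XX m x| ≤ 10) :
    ms m (x jl).re ^ 8 ≤ 256 * mu m ^ 8 ∧ ms m (x jl).re ^ 4 ≤ 16 * mu m ^ 4 := by
  have h1 := ms_le_two hm h
  have hp := (ms_pos m (x jl).re).le
  exact ⟨(pow_le_pow_left₀ hp h1 8).trans_eq (by ring), (pow_le_pow_left₀ hp h1 4).trans_eq (by ring)⟩

theorem dm_small {m : ℕ} (hμ : 2560000 * mu m ≤ 1) {A B : ℝ} (hA : 0 ≤ A)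
    (h : A + aa m * B ≤ 25600 * mu m ^ 8) : B ≤ 1 / 100 := by
  have hp := mu_pos m
  have h7 : 0 < mu m ^ 7 := by positivity
  have : mu m ^ 7 * B ≤ mu m ^ 7 * (1 / 100) := by
    rw [aa] at h; linarith only [mul_le_mul_of_nonneg_left hμ h7.le, hA, h]
  exact le_of_mul_le_mul_left this h7

theorem dm_gw_lt {m : ℕ} {k : Wd m} {X T : ℝ} (h1 : -1 < T) (h2 : |X| < 5) (h3 : T < Tend m + 1)
    (h : ∀ l, min (min (50 * (T - t0 l - 2)) (50 * (t0 l + 7 - T))) (-10 * sn (k l) * X) ≤ 0) :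
    gw m k X T < 1 := by
  have := Real.iSup_nonpos h
  simp only [gw, max_lt_iff]
  refine ⟨⟨by linarith, by linarith⟩, by linarith, by linarith⟩

theorem dm_sum_sn {m : ℕ} (k : Wd m) : |∑ l, sn (k l)| ≤ 700 * m := by
  refine (Finset.abs_sum_le_sum_abs _ _).trans ?_
  have : ∀ l ∈ Finset.univ, |sn (k l)| ≤ 1 := fun l _ => by rcases dm_sn (k l) with e | e <;> simp [e]
  have h := Finset.sum_le_card_nsmul _ _ _ this
  rw [Finset.card_univ, Fintype.card_fin, nsmul_eq_mul, mul_one] at h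
  exact h.trans_eq (by simp [kk, dd])

theorem dm_tw {m : ℕ} (hm : 0 < m) (k : Wd m) (x : EE) {c : ℝ} (hX : |XX m x| ≤ c) :
    |tw m k x * m + TT m x / 10 ^ 7| ≤ 700 * c / 10 ^ 11 := by
  have h0 : (0 : ℝ) < m := by exact_mod_cast hm
  have e : tw m k x * m + TT m x / 10 ^ 7 = -((∑ l, sn (k l)) * XX m x / (10 ^ 11 * m)) := by
    rw [tw]; field_simp; ring
  rw [e, abs_neg, abs_div, abs_mul, abs_of_pos (by positivity : (0 : ℝ) < 10 ^ 11 * m),
    div_le_iff₀ (by positivity)]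
  calc _ ≤ 700 * m * c := mul_le_mul (dm_sum_sn k) hX (abs_nonneg _) (by positivity)
    _ = _ := by ring

theorem dm_eps {m : ℕ} (hm : 0 < m) : 3 * (1 / (10 ^ 12 * (m : ℝ) ^ 2)) * m ≤ 3 / 10 ^ 12 := by
  have h0 : (1 : ℝ) ≤ m := by exact_mod_cast hm
  rw [show 3 * (1 / (10 ^ 12 * (m : ℝ) ^ 2)) * m = 3 / 10 ^ 12 / m by field_simp]
  exact div_le_self (by norm_num) h0

theorem dm_out : ∀ᶠ m : ℕ in atTop, ∀ m0 (x : EE), x ∈ (tdm m0 m).Cop none 5 →
    1 ≤ gout m (XX m x) (TT m x) → x ∈ Vw m ∧ |XX m x| < 4 ∧ 11 / 10 ≤ TT m x ∧ TT m x < 3 / 2 := by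
  filter_upwards [ev_mu' 2560000 0, ev_mu' 800 13, ev_mu' 200 6, eventually_gt_atTop 0] with
    m hμ hμ1 hμ2 hm m0 x hx hg1
  have h0 : (0 : ℝ) < m := by exact_mod_cast hm
  simp only [pow_zero, mul_one] at hμ
  obtain ⟨hV, hq, hΦ, hg⟩ := dm_cop hx
  change Pho m x < _ at hΦ
  change gout m (XX m x) (TT m x) < 5 at hg
  simp only [gout, le_min_iff, min_lt_iff] at hg1 hg
  obtain ⟨⟨g1, g2⟩, g3⟩ := hg1
  obtain ⟨m8, m4⟩ := dm_ms8 hm (by linarith only [g1] : |XX m x| ≤ 10)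
  have hΦ' : Pho m x ≤ 25600 * mu m ^ 8 := by linarith only [hΦ, m8]
  have hB := dm_small hμ (add_nonneg (dm_ysq x) (Xi_nonneg x)) hΦ'
  have hw : 0 ≤ chi (XX m x) ^ 2 * ‖x jw‖ ^ 2 := by positivity
  have hW := Wall_nonneg m (XX m x) (TT m x)
  have hW1 : Wall m (XX m x) (TT m x) < 1 := by linarith only [hB, hw]
  obtain ⟨a1, a2⟩ := (wall_lt hW1).1 (by linarith only [g1]) (by linarith only [g2]) (by linarith only [g3])
  have a3 : TT m x < 3 / 2 := by rcases hg with (c | c) | c <;> linarith only [a1, c, a2]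
  have hp := mu_pos m
  have hle := mu_le_one m
  have p4 : mu m ^ 4 ≤ mu m := pow_le_of_le_one hp.le hle (by norm_num)
  have hy : ysq x ≤ (160 * mu m ^ 4) ^ 2 := by
    have := mul_nonneg (aa_pos m).le (add_nonneg hW hw)
    rw [Pho] at hΦ'; linarith only [Xi_nonneg x, hΦ', this]
  have hy' : 160 * mu m ^ 4 < 1 / (m : ℝ) ^ 6 := by
    rw [lt_div_iff₀ (by positivity)]
    linarith only [mul_le_mul_of_nonneg_right p4 (by positivity : (0 : ℝ) ≤ (m : ℝ) ^ 6), hμ2, hμ, hp]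
  have hq' : 800 * mu m ^ 4 ≤ e2 m := by
    rw [e2, le_div_iff₀ (by positivity)]
    linarith only [mul_le_mul_of_nonneg_right p4 (by positivity : (0 : ℝ) ≤ (m : ℝ) ^ 13), hμ1]
  have he : 0 < e2 m := by rw [e2]; positivity
  rw [ysq] at hy
  refine ⟨⟨?_, ?_, ?_, hV.1, by linarith only [hμ, a1, hp], by linarith only [hμ, g2, hp], by linarith only [hμ, a2, hp]⟩, a1, by linarith only [g2], a3⟩
  · refine lt_of_pow_lt_pow_left₀ 2 (by linarith only [hμ, hp, he]) ?_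
    rw [qq] at hq; nlinarith only [hq, m4, hq', he]
  · exact (abs_le_of_sq_le_sq' (by linarith only [sq_nonneg (x jo).im, hy]) (by positivity) |> abs_le.2).trans_lt hy'
  · exact (abs_le_of_sq_le_sq' (by linarith only [sq_nonneg (x jl).im, hy]) (by positivity) |> abs_le.2).trans_lt hy'

theorem dm_dom : ∀ᶠ m : ℕ in atTop, ∀ m0 a, ∀ x ∈ (tdm m0 m).Cop a 5, 1 ≤ (tdm m0 m).g a x →
    ∃ b, x ∈ (tdm m0 m).V b ∧ (tdm m0 m).pre a b x ∧ (tdm m0 m).g b x < 1 ∧
      (tdm m0 m).tilt b x + 3 * (tdm m0 m).ε ≤ (tdm m0 m).tilt a x := by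
  filter_upwards [chw_geo, dm_out, win_sub, eventually_gt_atTop 0] with m hreg hout hwin hm m0 a x hx hg
  have h0 : (0 : ℝ) < m := by exact_mod_cast hm
  have hT : 2 ≤ Tend m := by rw [Tend]; linarith only []
  have hε := dm_eps hm
  cases a with
  | none =>
    obtain ⟨hV, a1, a2, a3⟩ := hout m0 x hx hg
    refine ⟨some fun _ => true, hV, by change TT m x < 3; linarith only [a2, a3], ?_, ?_⟩
    · refine dm_gw_lt (by linarith only [a2, a3]) (by linarith only [a1, a2, a3]) (by linarith only [hT, a3]) fun l => ?_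
      exact (min_le_left _ _).trans ((min_le_left _ _).trans (by linarith only [dm_t0 l, a3]))
    · change tw m (fun _ => true) x + 3 * (1 / (10 ^ 12 * (m : ℝ) ^ 2)) ≤ 0
      have := abs_le.1 (dm_tw hm (fun _ => true) x a1.le)
      refine le_of_mul_le_mul_right ?_ h0
      rw [add_mul]; linarith
  | some k =>
    have hc := (cop_chw hm hx).1
    obtain ⟨a1, a2, a3, a4, a5, -⟩ := hreg k x hc
    change 1 ≤ gw m k (XX m x) (TT m x) at hg
    by_cases hT1 : TT m x ≤ -11 / 10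
    · have hw := hwin (x jl).re (by change |XX m x| ≤ 13; linarith only [a1, a2, hT1])
      refine ⟨none, ⟨hc.1.2.2.2.1, abs_lt.2 ⟨by linarith only [hw], by linarith only [hw]⟩⟩,
        by change TT m x < 3; linarith only [hT1], ?_, ?_⟩
      · exact ((min_le_left _ _).trans (min_le_right _ _)).trans_lt (by linarith only [a2, hT1])
      · change 0 + 3 * (1 / (10 ^ 12 * (m : ℝ) ^ 2)) ≤ tw m k x
        have := abs_le.1 (dm_tw hm k x a1.le)
        refine le_of_mul_le_mul_right ?_ h0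
        rw [zero_add]; linarith
    · have hl : ∃ l, 1 / 2 < min (min (50 * (TT m x - t0 l - 2)) (50 * (t0 l + 7 - TT m x)))
          (-10 * sn (k l) * XX m x) := by
        by_contra hn
        push Not at hn
        have := Real.iSup_le hn (by norm_num)
        simp only [gw, le_max_iff] at hg
        rcases hg with (c | c) | c | c <;> linarith only [hT1, c, a1, a3, this]
      obtain ⟨l, hl⟩ := hl
      simp only [lt_min_iff] at hl
      obtain ⟨⟨b1, b2⟩, b3⟩ := hl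
      have b4 : TT m x < t0 l + 21 / 10 :=
        lt_of_not_ge fun c => by linarith only [a5 l c (by linarith only [b2]), b3]
      have b5 : 1 < |sn (k l) * XX m x| := by
        have := a4 l (by linarith only [b1]) (by linarith only [b4])
        rcases dm_sn (k l) with e | e <;> simpa [e] using this
      have b6 : sn (k l) * XX m x < -1 := by
        rcases lt_abs.1 b5 with c | c <;> linarith only [b3, c]
      have hf : sn (!k l) = -sn (k l) := by cases k l <;> simp [sn]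
      refine ⟨some (Function.update k l (!k l)), hc.1, fun l' h => ?_, ?_, ?_⟩
      · by_cases e : l' = l
        · rw [e]; linarith only [b4]
        · exact absurd (Function.update_of_ne e _ _).symm h
      · refine dm_gw_lt (by linarith only [dm_t0 l, b1]) (by linarith only [a1]) (by linarith only [a3]) fun l' => ?_
        rcases lt_trichotomy l' l with e | e | e
        · have : ((l' : ℕ) : ℝ) + 1 ≤ (l : ℕ) := by exact_mod_cast e
          refine (min_le_left _ _).trans ((min_le_right _ _).trans ?_)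
          simp only [t0] at *; linarith only [b1, this]
        · refine (min_le_right _ _).trans ?_
          rw [e, Function.update_self, hf]; linarith only [b6]
        · have : ((l : ℕ) : ℝ) + 1 ≤ (l' : ℕ) := by exact_mod_cast e
          refine (min_le_left _ _).trans ((min_le_left _ _).trans ?_)
          simp only [t0] at *; linarith only [b4, this]
      · change tw m (Function.update k l (!k l)) x + 3 * (1 / (10 ^ 12 * (m : ℝ) ^ 2)) ≤ tw m k x
        have e : ∑ l', sn (Function.update k l (!k l) l') = ∑ l', sn (k l') - 2 * sn (k l) := by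
          rw [← Finset.add_sum_erase _ _ (Finset.mem_univ l),
            ← Finset.add_sum_erase _ (fun l' => sn (k l')) (Finset.mem_univ l), Function.update_self,
            hf, Finset.sum_congr rfl fun l' h => by
              rw [Function.update_of_ne (Finset.ne_of_mem_erase h)]]
          ring
        have e' : tw m k x - tw m (Function.update k l (!k l)) x =
            -(20 * (sn (k l) * XX m x)) * (1 / (10 ^ 12 * (m : ℝ) ^ 2)) := by
          rw [tw, tw, e]; field_simp; ring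
        nlinarith only [show (0 : ℝ) < 1 / (10 ^ 12 * (m : ℝ) ^ 2) by positivity, b6, e']

/-- Word chart: if `T ≤ -11 / 10` take the outer chart; otherwise `chw_geo` leaves a stage `l` with
`t0 l + 2 < T < t0 l + 21 / 10` and `sn (k l) * X < -1`: flip the bit `l`. Outer chart: `out_geo` and
`wall_lt` give `11 / 10 ≤ T < 3 / 2`, `|X| < 4`: take any word. -/
theorem ok_dom : Big fun m0 m => ∀ a, ∀ x ∈ (tdm m0 m).Cop a 5, 1 ≤ (tdm m0 m).g a x →
    ∃ b, x ∈ (tdm m0 m).V b ∧ (tdm m0 m).pre a b x ∧ (tdm m0 m).g b x < 1 ∧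
      (tdm m0 m).tilt b x + 3 * (tdm m0 m).ε ≤ (tdm m0 m).tilt a x := by
  exact (Big.of_ev dm_dom).mono fun m0 _ _ h => h m0


end Pool.Agent.MP_bea40e_an.Iv

end

section

open Filter Topology Set Metric Complex
open scoped ContDiff ComplexConjugate

namespace Pool.Agent.MP_bea40e_an.Iv

theorem sp1_range (d n : ℕ) :
    ∑ i ∈ Finset.range n, (1 : ℝ) / 16 ^ (d + 1 + i) ≤ 1 / 16 ^ d / 15 - 1 / 16 ^ (d + n) / 15 := by
  induction n with
  | zero => simp
  | succ n ih =>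
    rw [Finset.sum_range_succ]
    have h1 : (1 : ℝ) / 16 ^ (d + 1 + n) = 1 / 16 ^ (d + n) / 16 := by
      rw [show d + 1 + n = d + n + 1 by ring, pow_succ]; field_simp
    have h2 : (1 : ℝ) / 16 ^ (d + (n + 1)) = 1 / 16 ^ (d + n) / 16 := by
      rw [← add_assoc, pow_succ]; field_simp
    rw [h1, h2]
    linarith only [ih]

theorem sp1_geo (S : Finset ℕ) (d : ℕ) (h : ∀ n ∈ S, d < n) :
    ∑ n ∈ S, (1 : ℝ) / 16 ^ n ≤ 1 / 16 ^ d / 15 := by
  have hsub : S ⊆ Finset.Ico (d + 1) (d + 1 + S.sup id) := by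
    intro n hn
    have h1 := h n hn
    have h2 : n ≤ S.sup id := Finset.le_sup (f := id) hn
    rw [Finset.mem_Ico]
    omega
  have h3 := Finset.sum_le_sum_of_subset_of_nonneg (f := fun n : ℕ => (1 : ℝ) / 16 ^ n) hsub
    (fun n _ _ => by positivity)
  rw [Finset.sum_Ico_eq_sum_range, Nat.add_sub_cancel_left] at h3
  have h4 := sp1_range d (S.sup id)
  have h5 : (0 : ℝ) ≤ 1 / 16 ^ (d + S.sup id) / 15 := by positivity
  linarith

theorem sp1_grp {m : ℕ} {ν ν' : Nd m} (h : grp m ν = grp m ν') :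
    ν.2 = ν'.2 ∧ (ν.1 : ℕ) % dd = (ν'.1 : ℕ) % dd := by
  unfold grp at h
  rw [Prod.mk.injEq, Fin.mk.injEq] at h
  exact h

theorem sp1_inj {m : ℕ} {ν ν' : Nd m} (h : grp m ν = grp m ν') (hd : dig m ν = dig m ν') :
    ν = ν' := by
  obtain ⟨h1, h2⟩ := sp1_grp h
  unfold dig at hd
  refine Prod.ext (Fin.ext ?_) h1
  rw [← Nat.div_add_mod (ν.1 : ℕ) dd, ← Nat.div_add_mod (ν'.1 : ℕ) dd, hd, h2]

theorem sp1_dig_lt (m : ℕ) (ν : Nd m) : dig m ν < m := by
  unfold dig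
  exact Nat.div_lt_of_lt_mul ν.1.2

theorem sp1_exp : ∀ᶠ m : ℕ in atTop, Real.exp (-(m : ℝ) ^ 2) ≤ 1 / 100 := by
  filter_upwards [eventually_ge_atTop 10] with m hm
  have h1 : (10 : ℝ) ≤ m := by exact_mod_cast hm
  have h2 := Real.add_one_le_exp ((m : ℝ) ^ 2)
  rw [Real.exp_neg, one_div]
  exact inv_anti₀ (by norm_num) (by nlinarith only [h1, h2])

theorem sp1_lead {c A : ℂ} {u : ℝ} (hc : ‖c - 1‖ ≤ 1 / 100) (h1 : u * (1 / 17) ≤ A.im)
    (h2 : ‖A‖ ≤ u * (2 / 5)) : u * (1 / 17 - 1 / 250) ≤ (c * A).im := by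
  have h3 : c * A = A + (c - 1) * A := by ring
  have h4 : |((c - 1) * A).im| ≤ 1 / 100 * (u * (2 / 5)) := by
    refine (Complex.abs_im_le_norm _).trans ?_
    rw [norm_mul]
    exact mul_le_mul hc h2 (norm_nonneg _) (by norm_num)
  rw [h3, Complex.add_im]
  have := (abs_le.1 h4).1
  linarith only [h1, this]

/-- Take the far cluster `b` of `Ak_far`, `j = grp (l, b)`, and the least `l'` in the residue class
of `l` with `k l' ≠ k' l'`. Its term has imaginary part at least `1 / 17 - small` in the unit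
`16 ^ (-dig) / m ^ 30`; the others have distinct larger digits and add up to at most
`2 / 5 / 15`. All digits are less than `m`. -/
theorem offset : ∀ᶠ m : ℕ in atTop, ∀ (k k' : Wd m) (s o : ℂ) (l : Fin (kk m)),
    ‖s‖ ≤ 1 + 2 * e2 m → |‖s‖ ^ 2 - 1| ≤ 1 / 1000 → |o.im| ≤ 1 / m ^ 6 → k l ≠ k' l →
    t0 l + 4 ≤ Tr m o.re → ∃ j, 1 / (50 * (m : ℝ) ^ 30 * 16 ^ m) ≤
      |(s ^ 2 * AA2 m k j s o - s ^ 2 * AA2 m k' j s o).im| := by
  filter_upwards [Ak_far, Gam_an, sp1_exp, eventually_gt_atTop 0] with m hA hG hE hm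
  intro k k' s o l hs hq ho hl hT
  obtain ⟨b, hb⟩ := hA s hs hq
  refine ⟨grp m (l, b), ?_⟩
  classical
  have hm' : (0 : ℝ) < m := by exact_mod_cast hm
  set F : Finset (Nd m) := Finset.univ.filter fun ν => grp m ν = grp m (l, b) ∧ k ν.1 ≠ k' ν.1
    with hF
  have hmem : ∀ ν, ν ∈ F ↔ grp m ν = grp m (l, b) ∧ k ν.1 ≠ k' ν.1 := by
    intro ν
    rw [hF, Finset.mem_filter]
    exact ⟨fun h => h.2, fun h => ⟨Finset.mem_univ _, h⟩⟩
  have hD : s ^ 2 * AA2 m k (grp m (l, b)) s o - s ^ 2 * AA2 m k' (grp m (l, b)) s o =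
      ∑ ν ∈ F, (Gam m k ν.1 o - Gam m k' ν.1 o) * Ak m ν s := by
    unfold AA2
    rw [hF, Finset.sum_filter, Finset.mul_sum, Finset.mul_sum, ← Finset.sum_sub_distrib]
    refine Finset.sum_congr rfl fun ν _ => ?_
    by_cases h1 : grp m ν = grp m (l, b)
    · by_cases h2 : k ν.1 = k' ν.1
      · rw [if_pos h1, if_pos h1, if_neg (fun h => h.2 h2)]
        unfold Gam
        rw [h2, sub_self]
      · rw [if_pos h1, if_pos h1, if_pos ⟨h1, h2⟩]
        unfold Ak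
        ring
    · rw [if_neg h1, if_neg h1, if_neg (fun h => h1 h.1), sub_self]
  have hlF : (l, b) ∈ F := (hmem _).2 ⟨rfl, hl⟩
  obtain ⟨ν0, hν0, hmin⟩ := F.exists_min_image (fun ν => (ν.1 : ℕ)) ⟨_, hlF⟩
  have hbF : ∀ ν ∈ F, (ν.1, b) = ν := fun ν hν =>
    Prod.ext rfl (sp1_grp ((hmem ν).1 hν).1).1.symm
  have hb' : ∀ ν ∈ F, 1 / (m : ℝ) ^ 30 * (1 / 16 ^ dig m ν) * (1 / 17) ≤ (Ak m ν s).im ∧
      ‖Ak m ν s‖ ≤ 1 / (m : ℝ) ^ 30 * (1 / 16 ^ dig m ν) * (2 / 5) := by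
    intro ν hν
    have := hb ν.1
    rwa [hbF ν hν] at this
  have hc : ∀ ν ∈ F, ‖Gam m k ν.1 o - Gam m k' ν.1 o‖ ≤ 1 := by
    intro ν hν
    have h1 := ((hmem ν).1 hν).2
    have h2 := (hG k ν.1 o ho).2.1
    have h3 := (hG k' ν.1 o ho).2.1
    cases hk : k ν.1 with
    | false =>
      have : Gam m k ν.1 o = 0 := by unfold Gam; rw [hk]; rfl
      rwa [this, zero_sub, norm_neg]
    | true =>
      have hk' : k' ν.1 = false := by
        cases h : k' ν.1 with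
        | false => rfl
        | true => exact absurd (hk.trans h.symm) h1
      have : Gam m k' ν.1 o = 0 := by unfold Gam; rw [hk']; rfl
      rwa [this, sub_zero]
  -- the tail
  have htail : ‖∑ ν ∈ F.erase ν0, (Gam m k ν.1 o - Gam m k' ν.1 o) * Ak m ν s‖ ≤
      1 / (m : ℝ) ^ 30 * (1 / 16 ^ dig m ν0) * (2 / 5 / 15) := by
    refine (norm_sum_le _ _).trans ?_
    have h1 : ∑ ν ∈ F.erase ν0, ‖(Gam m k ν.1 o - Gam m k' ν.1 o) * Ak m ν s‖ ≤
        ∑ ν ∈ F.erase ν0, 1 / (m : ℝ) ^ 30 * (2 / 5) * (1 / 16 ^ dig m ν) := by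
      refine Finset.sum_le_sum fun ν hν => ?_
      have hν' := Finset.mem_of_mem_erase hν
      rw [norm_mul]
      have := mul_le_mul (hc ν hν') (hb' ν hν').2 (norm_nonneg _) zero_le_one
      linarith only [this]
    refine h1.trans ?_
    rw [← Finset.mul_sum]
    have hinj : ∀ ν ∈ F.erase ν0, ∀ ν' ∈ F.erase ν0, dig m ν = dig m ν' → ν = ν' := by
      intro ν hν ν' hν' h
      exact sp1_inj (((hmem ν).1 (Finset.mem_of_mem_erase hν)).1.trans
        ((hmem ν').1 (Finset.mem_of_mem_erase hν')).1.symm) h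
    have h2 : ∑ ν ∈ F.erase ν0, (1 : ℝ) / 16 ^ dig m ν =
        ∑ n ∈ (F.erase ν0).image (dig m), (1 : ℝ) / 16 ^ n :=
      (Finset.sum_image (f := fun n : ℕ => (1 : ℝ) / 16 ^ n) hinj).symm
    have h3 := sp1_geo ((F.erase ν0).image (dig m)) (dig m ν0) (by
      intro n hn
      obtain ⟨ν, hν, rfl⟩ := Finset.mem_image.1 hn
      have hν' := Finset.mem_of_mem_erase hν
      have h4 : dig m ν0 ≤ dig m ν := Nat.div_le_div_right (hmin ν hν')
      refine lt_of_le_of_ne h4 fun h => Finset.ne_of_mem_erase hν ?_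
      exact sp1_inj (((hmem ν).1 hν').1.trans ((hmem ν0).1 hν0).1.symm) h.symm)
    rw [h2]
    have h5 : (0 : ℝ) ≤ 1 / (m : ℝ) ^ 30 * (2 / 5) := by positivity
    have := mul_le_mul_of_nonneg_left h3 h5
    linarith only [this]
  -- the leading term
  have hexp : Real.exp (-((m : ℝ) ^ 2 * (Tr m o.re - t0 ν0.1 - 3))) ≤ 1 / 100 := by
    refine le_trans (Real.exp_le_exp.2 ?_) hE
    have h1 : ((ν0.1 : ℕ) : ℝ) ≤ ((l : ℕ) : ℝ) := by exact_mod_cast hmin _ hlF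
    unfold t0 at hT ⊢
    have h2 : (0 : ℝ) ≤ (m : ℝ) ^ 2 := by positivity
    nlinarith only [hT, h1]
  have hlead : 1 / (m : ℝ) ^ 30 * (1 / 16 ^ dig m ν0) * (1 / 17 - 1 / 250) ≤
      |((Gam m k ν0.1 o - Gam m k' ν0.1 o) * Ak m ν0 s).im| := by
    have h1 := ((hmem ν0).1 hν0).2
    have h2 := (hG k ν0.1 o ho).2.2.2.2
    have h3 := (hG k' ν0.1 o ho).2.2.2.2
    cases hk : k ν0.1 with
    | false =>
      have hk' : k' ν0.1 = true := by
        cases h : k' ν0.1 with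
        | true => rfl
        | false => exact absurd (hk.trans h.symm) h1
      have h0 : Gam m k ν0.1 o = 0 := by unfold Gam; rw [hk]; rfl
      rw [hk', if_pos rfl] at h3
      rw [h0, zero_sub, neg_mul, Complex.neg_im, abs_neg]
      exact (sp1_lead (h3.trans hexp) (hb' ν0 hν0).1 (hb' ν0 hν0).2).trans (le_abs_self _)
    | true =>
      have hk' : k' ν0.1 = false := by
        cases h : k' ν0.1 with
        | false => rfl
        | true => exact absurd (hk.trans h.symm) h1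
      have h0 : Gam m k' ν0.1 o = 0 := by unfold Gam; rw [hk']; rfl
      rw [hk, if_pos rfl] at h2
      rw [h0, sub_zero]
      exact (sp1_lead (h2.trans hexp) (hb' ν0 hν0).1 (hb' ν0 hν0).2).trans (le_abs_self _)
  rw [hD, ← Finset.add_sum_erase F _ hν0, Complex.add_im]
  have h6 := (Complex.abs_im_le_norm _).trans htail
  have h7 := abs_add_le (((Gam m k ν0.1 o - Gam m k' ν0.1 o) * Ak m ν0 s).im +
    (∑ ν ∈ F.erase ν0, (Gam m k ν.1 o - Gam m k' ν.1 o) * Ak m ν s).im)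
    (-(∑ ν ∈ F.erase ν0, (Gam m k ν.1 o - Gam m k' ν.1 o) * Ak m ν s).im)
  rw [add_neg_cancel_right, abs_neg] at h7
  have h8 : (1 : ℝ) / 16 ^ m ≤ 1 / 16 ^ dig m ν0 :=
    one_div_le_one_div_of_le (by positivity)
      (pow_le_pow_right₀ (by norm_num) (sp1_dig_lt m ν0).le)
  have h9 : 1 / (50 * (m : ℝ) ^ 30 * 16 ^ m) = 1 / (m : ℝ) ^ 30 * (1 / 16 ^ m) * (1 / 50) := by
    field_simp
  have h10 : 1 / (m : ℝ) ^ 30 * (1 / 16 ^ m) ≤ 1 / (m : ℝ) ^ 30 * (1 / 16 ^ dig m ν0) :=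
    mul_le_mul_of_nonneg_left h8 (by positivity)
  have h11 : (0 : ℝ) ≤ 1 / (m : ℝ) ^ 30 * (1 / 16 ^ m) := by positivity
  rw [h9]
  linarith only [hlead, h6, h7, h10, h11]


end Pool.Agent.MP_bea40e_an.Iv

end

section

open Filter Topology Set Metric Complex
open scoped ContDiff ComplexConjugate

namespace Pool.Agent.MP_bea40e_an.Iv

/-- the bounds at a point of a word chart and of the base box -/
theorem sp2_word : Big fun m0 m => ∀ k, ∀ x ∈ (tdm m0 m).Cop (some k) 5,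
    x ∈ (tdm m0 m).Bcl 220 → |qq x - 1| ≤ 1 / 1000 ∧ ∀ j, (Yw m k j x).im ^ 2 ≤ 3072 * mu m := by
  refine (ok_low_some.and (Big.of_ev (win_sub.and (ysq_le_Phw.and ((ev_mu' (10 ^ 10) 0).and
    (eventually_gt_atTop 0)))))).mono ?_
  rintro m0 m - ⟨hlow, hwin, hΦ, hmu, hm⟩ k x hx hB
  obtain ⟨hch, hM⟩ := cop_chw hm hx
  obtain ⟨hV, hz, -, -, -⟩ := (mem_Cop_some m0 m k 5 x).1 hx
  obtain ⟨hs, -, -, -, hX, -, -⟩ := hV
  have hμ := mu_pos m
  have hM0 := ms_pos m (x jl).re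
  set M := ms m (x jl).re with hMd
  simp only [pow_zero, mul_one] at hmu
  have hl : -LL / 8 < (x jl).re := (hwin _ (hX.le.trans (by norm_num))).1
  have hL := LL_pos
  have hM8 : 0 < M ^ 8 := by positivity
  have hr : rr m0 x ≤ M ^ 8 := by
    have h1 : rr m0 x ≤ 220 * (10 ^ 6 * M ^ 9) := hB.1
    have h2 : M ^ 9 = M * M ^ 8 := by ring
    nlinarith only [hM, hmu, hM8, h1]
  have h := hlow k x hx (by
    change -LL / 4 ≤ (x jl).re
    linarith only [hl, hL]) hr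
  change (x js * zw m k x).re + (qq x - 1) ^ 2 / 2 + Phw m k x / 2 +
    aa m * ∑ i, (Yw m k i x).im ^ 2 ≤ rr m0 x + M ^ 13 / 10 at h
  have he : e2 m ≤ 1 := by
    have h1 : (1 : ℝ) ≤ m := by exact_mod_cast hm
    unfold e2
    exact (div_le_one (by positivity)).2 (one_le_pow₀ h1)
  have hZ : -(10 * M ^ 8) ≤ (x js * zw m k x).re := by
    have h1 := (abs_le.mp (Complex.abs_re_le_norm (x js * zw m k x))).1
    rw [norm_mul] at h1
    have h2 : ‖x js‖ * ‖zw m k x‖ ≤ 2 * ‖zw m k x‖ :=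
      mul_le_mul_of_nonneg_right (by linarith only [hs, he]) (norm_nonneg _)
    linarith only [hz, h1, h2]
  have hΦ0 : 0 ≤ Phw m k x := by
    have h1 := hΦ k x
    have h2 := Xi_nonneg x
    have h3 : 0 ≤ ysq x := by unfold ysq; positivity
    linarith only [h1, h2, h3]
  have h13 : M ^ 13 ≤ M ^ 8 := pow_le_pow_of_le_one hM0.le (by linarith only [hμ, hM, hmu]) (by norm_num)
  have hM8' : M ^ 8 ≤ 256 * mu m ^ 8 := by
    have := pow_le_pow_left₀ hM0.le hM 8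
    rw [mul_pow] at this
    linarith only [this]
  have ha := aa_pos m
  have hS : 0 ≤ ∑ i, (Yw m k i x).im ^ 2 := Finset.sum_nonneg fun i _ => sq_nonneg _
  have hS' : 0 ≤ aa m * ∑ i, (Yw m k i x).im ^ 2 := mul_nonneg ha.le hS
  refine ⟨?_, fun j => ?_⟩
  · have h8 : mu m ^ 8 ≤ mu m := pow_le_of_le_one hμ.le (mu_le_one m) (by norm_num)
    refine abs_le.mpr (abs_le_of_sq_le_sq' ?_ (by norm_num))
    linarith
  · have h1 : (Yw m k j x).im ^ 2 ≤ ∑ i, (Yw m k i x).im ^ 2 :=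
      Finset.single_le_sum (f := fun i => (Yw m k i x).im ^ 2) (fun i _ => sq_nonneg _)
        (Finset.mem_univ j)
    have h2 : aa m * (Yw m k j x).im ^ 2 ≤ aa m * (3072 * mu m) := by
      have h3 : aa m * (3072 * mu m) = 3072 * mu m ^ 8 := by unfold aa; ring
      have h4 := mul_le_mul_of_nonneg_left h1 ha.le
      linarith only [sq_nonneg (qq x - 1), hM8, hr, h, hZ, hΦ0, h13, hM8', h3, h4]
    exact le_of_mul_le_mul_left h2 ha

theorem sp2_exp (m : ℕ) : ((16 : ℝ) ^ m) ^ 2 ≤ Real.exp m ^ 8 := by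
  have h1 : (2 : ℝ) ≤ Real.exp 1 := by linarith [Real.add_one_le_exp (1 : ℝ)]
  have h2 : (2 : ℝ) ^ m ≤ Real.exp m := by
    rw [← Real.exp_one_pow]
    exact pow_le_pow_left₀ (by norm_num) h1 m
  calc ((16 : ℝ) ^ m) ^ 2 = ((2 : ℝ) ^ m) ^ 8 := by
        rw [← pow_mul, ← pow_mul, show (16 : ℝ) = 2 ^ 4 by norm_num, ← pow_mul]
        congr 1
        ring
    _ ≤ _ := pow_le_pow_left₀ (by positivity) h2 8

/-- For two words: `ok_low_some` for both gives `aa * (im Y) ^ 2 ≤ 12 ms ^ 8` and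
`(q - 1) ^ 2 ≤ 24 ms ^ 8`, so `(im Y) ^ 2 ≤ 3072 mu`; this contradicts `offset` since
`16 ^ (2 m) ≤ exp m ^ 8`. -/
theorem ok_sep : Big fun m0 m => ∀ a b, ∀ x ∈ (tdm m0 m).Cop a 5, x ∈ (tdm m0 m).Cop b 5 →
    x ∈ (tdm m0 m).Bcl 220 → (tdm m0 m).pre a b x := by
  refine (sp2_word.and (out_word.and (word_word.and (Big.of_ev (offset.and
    ((ev_mu (10 ^ 8) 60).and (eventually_gt_atTop 0))))))).mono ?_
  rintro m0 m - ⟨hw, how, hww, hoff, hmu, hm⟩ a b x ha hb hB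
  match a, b, ha, hb with
  | none, none, _, _ => trivial
  | none, some k, ha, hb =>
    have := how k x ha hb
    change TT m x < 3
    linarith only [this]
  | some k, none, ha, hb =>
    have := how k x hb ha
    change TT m x < 3
    linarith only [this]
  | some k, some k', ha, hb =>
    intro l hl
    rcases hww k k' x ha hb l hl with h | h
    · linarith
    exfalso
    obtain ⟨hq, hY⟩ := hw k x ha hB
    obtain ⟨-, hY'⟩ := hw k' x hb hB
    obtain ⟨hs, -, ho, -, -, -, -⟩ := ((mem_Cop_some m0 m k 5 x).1 ha).1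
    have hm1 : (0 : ℝ) < m := by exact_mod_cast hm
    have he : 0 < e2 m := by unfold e2; positivity
    obtain ⟨j, hj⟩ := hoff k k' (x js) (x jo) l (by linarith only [hs, he]) hq ho.le hl (by
      have : TT m x = Tr m (x jo).re := rfl
      linarith only [h, this])
    have hd : (x js ^ 2 * AA2 m k j (x js) (x jo) - x js ^ 2 * AA2 m k' j (x js) (x jo)).im =
        (Yw m k j x).im - (Yw m k' j x).im := by
      rw [← Complex.sub_im]
      unfold Yw
      congr 1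
      ring
    rw [hd] at hj
    have hP : (0 : ℝ) < 50 * (m : ℝ) ^ 30 * 16 ^ m := by positivity
    have h1 := pow_le_pow_left₀ (by positivity) hj 2
    rw [sq_abs, div_pow, one_pow, div_le_iff₀ (by positivity)] at h1
    have h2 : ((Yw m k j x).im - (Yw m k' j x).im) ^ 2 ≤ 12288 * mu m := by
      linarith only [hY j, hY' j, sq_nonneg ((Yw m k j x).im + (Yw m k' j x).im)]
    have h3 : (50 * (m : ℝ) ^ 30 * 16 ^ m) ^ 2 ≤ 2500 * ((m : ℝ) ^ 60 * Real.exp m ^ 8) := by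
      have := mul_le_mul_of_nonneg_left (sp2_exp m) (by positivity : (0 : ℝ) ≤ (m : ℝ) ^ 60)
      have e : (50 * (m : ℝ) ^ 30 * 16 ^ m) ^ 2 = 2500 * ((m : ℝ) ^ 60 * (16 ^ m) ^ 2) := by ring
      linarith only [this]
    have hμ := mu_pos m
    have h4 := mul_le_mul h2 h3 (by positivity) (by positivity)
    linarith only [hmu, h1, h4]


end Pool.Agent.MP_bea40e_an.Iv

end

section

open Filter Topology Set Metric Complex
open scoped ContDiff ComplexConjugate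

namespace Pool.Agent.MP_bea40e_an.Iv

/-- One of the charts is a word, so `|X| < 6`. Two words: `pre`, `chw_geo` and `gw k' < 5` give
`T < t0 l + 21 / 10` at the differing stages. With the outer chart: `T < 3 / 2`. -/
theorem ok_close : Big fun m0 m => ∀ a b, a ≠ b → ∀ x ∈ (tdm m0 m).Cop a 5, x ∈ (tdm m0 m).V b →
    (tdm m0 m).g b x < 5 → (tdm m0 m).pre a b x → (tdm m0 m).mm x ≤ 3 * (tdm m0 m).μ ∧
      (tdm m0 m).Near ((tdm m0 m).ε * (tdm m0 m).μ ^ 30) a b x := by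
  have hev : ∀ᶠ m : ℕ in atTop, 0 < m ∧ (m : ℝ) ^ 20 * tl m ≤ 1 / (10 ^ 12 * m ^ 2) * mu m ^ 30 := by
    filter_upwards [ev_tl (10 ^ 12) 22 30, eventually_gt_atTop 0] with m h hm
    have h0 : (0 : ℝ) < m := by exact_mod_cast hm
    refine ⟨hm, ?_⟩
    rw [one_div_mul_eq_div, le_div_iff₀ (by positivity)]
    exact le_of_eq_of_le (by ring) h
  refine ((Big.of_ev (hev.and (near_word.and (near_out.and chw_geo)))).and out_geo).mono ?_
  rintro m0 m - ⟨⟨⟨hm, hδ⟩, hw, ho, hgeo⟩, hout⟩ a b hab x hx hV hg hpre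
  have hmm : x ∈ Vw m → (tdm m0 m).mm x ≤ 3 * (tdm m0 m).μ := fun h => by
    have h1 : |XX m x| < 6 := h.2.2.2.2.1
    have h2 := ms_le_two hm (t := (x jl).re) (by change |XX m x| ≤ 10; linarith only [h1])
    change ms m (x jl).re ≤ 3 * mu m
    linarith only [mu_pos m, h2]
  cases a with
  | none =>
    cases b with
    | none => exact absurd rfl hab
    | some k =>
      have hV' : x ∈ Vw m := hV
      have hT : TT m x ≤ 21 / 10 := by
        obtain ⟨-, -, -, -, a1, -, a3⟩ := hV'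
        rcases (hout x hx).1 with c | c | c <;> linarith only [c, a1, a3]
      obtain ⟨b1, b2, -, b4⟩ := ho k x hV' hT
      exact ⟨hmm hV', (norm_sub_rev _ _).trans_le (b1.trans hδ),
        (abs_sub_comm _ _).trans_le (b2.trans hδ),
        fun _ j => (norm_sub_rev _ _).trans_le ((b4 j).trans hδ)⟩
  | some k =>
    have hc := (cop_chw hm hx).1
    obtain ⟨a1, -, a3, -, a5, -⟩ := hgeo k x hc
    cases b with
    | none =>
      have hT : TT m x ≤ 21 / 10 := by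
        change gout m (XX m x) (TT m x) < 5 at hg
        simp only [gout, min_lt_iff] at hg
        rcases hg with (c | c) | c <;> linarith only [a1, c, a3]
      obtain ⟨b1, b2, -, b4⟩ := ho k x hc.1 hT
      exact ⟨hmm hc.1, b1.trans hδ, b2.trans hδ, fun _ j => (b4 j).trans hδ⟩
    | some k' =>
      have hT : ∀ l, k l ≠ k' l → TT m x ≤ t0 l + 21 / 10 := fun l hl => by
        by_contra c
        have c' := not_le.1 c
        have p1 : TT m x < t0 l + 3 := hpre l hl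
        have p2 := a5 l c'.le (by linarith only [c, p1])
        have p3 : sn (k' l) = -sn (k l) := by
          revert hl; cases k l <;> cases k' l <;> simp [sn]
        have p4 := ((gw_lt hm k' (XX m x) (TT m x) 5).1 hg).2.2.2 l
        rw [p3] at p4
        rcases p4 with d | d | d <;> linarith only [c, d, p1, p2]
      obtain ⟨b1, b2, b4⟩ := hw k k' x hc.1 hT
      exact ⟨hmm hc.1, b1.trans hδ, b2.trans hδ, fun _ j => (b4 j).trans hδ⟩


end Pool.Agent.MP_bea40e_an.Iv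

end

section

open Filter Topology Set Metric Complex
open scoped ContDiff ComplexConjugate

namespace Pool.Agent.MP_bea40e_an.Iv

theorem ok_asm_aa : ∀ᶠ m : ℕ in atTop, aa m ≤ 1 / 40000 := by
  filter_upwards [ev_mu' 40000 0] with m hm
  have h0 := mu_pos m
  have h1 := mu_le_one m
  have h2 : mu m ^ 7 ≤ mu m := by
    calc mu m ^ 7 = mu m ^ 6 * mu m := by ring
      _ ≤ 1 * mu m := mul_le_mul_of_nonneg_right (pow_le_one₀ h0.le h1) h0.le
      _ = mu m := one_mul _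
  have h3 : 40000 * mu m ≤ 1 := by simpa only [pow_zero, mul_one] using hm
  unfold aa
  linarith only [hm, h2]

theorem ok_asm_eps {m : ℕ} (hm : 0 < m) :
    (0 : ℝ) < 1 / (10 ^ 12 * (m : ℝ) ^ 2) ∧ 1 / (10 ^ 12 * (m : ℝ) ^ 2) ≤ 1 / 200 := by
  have h1 : (1 : ℝ) ≤ m := by exact_mod_cast hm
  have h2 : (1 : ℝ) ≤ (m : ℝ) ^ 2 := one_le_pow₀ h1
  refine ⟨by positivity, one_div_le_one_div_of_le (by norm_num) ?_⟩
  linarith only [h2]

theorem tdm_ok : Big fun m0 m => (tdm m0 m).Ok := by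
  have hA := ((((Big.of_ev0 rr_contDiff).and (Big.of_ev ok_asm_aa)).and
    (Big.of_ev (eventually_gt_atTop 0))).and ok_small).and ok_V_lam
  have hB := ((((ok_O_sub.and ok_O_lam).and ok_an_z).and ok_psh_Φ).and ok_Φ_ge).and ok_an_Y
  have hC := ((((ok_tilt_le.and ok_psh_r).and ok_psh_0).and ok_box).and ok_box0).and ok_low_some
  have hD := ((((ok_low_none.and ok_wt_ge).and ok_Y_le).and ok_up_some).and ok_up_none).and ok_open1
  have hE := (((((ok_open2.and ok_open3).and ok_pre_open).and ok_pre_closed).and ok_sep).and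
    ok_close).and ok_dom
  refine ((((hA.and hB).and hC).and hD).and hE).mono ?_
  rintro m0 m - ⟨⟨⟨⟨⟨⟨⟨⟨h1, h2⟩, hm⟩, h3⟩, h4⟩, ⟨⟨⟨⟨⟨h5, h6⟩, h7⟩, h8⟩, h9⟩, h10⟩⟩,
    ⟨⟨⟨⟨⟨h11, h12⟩, h13⟩, h14⟩, h15⟩, h16⟩⟩, ⟨⟨⟨⟨⟨h17, h18⟩, h19⟩, h20⟩, h21⟩, h22⟩⟩,
    ⟨⟨⟨⟨⟨⟨h23, h24⟩, h25⟩, h26⟩, h27⟩, h28⟩, h29⟩⟩
  exact
    { cont_r := h1.continuous
      cont_m := (ms_contDiff m).continuous
      mu_pos := mu_pos m
      mu_le := mu_le_ms m
      one_le := by
        show (1 : ℝ) ≤ 10 ^ 6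
        norm_num
      a_pos := aa_pos m
      a_le := h2
      L_pos := LL_pos
      Cz_pos := Cz_pos
      ε_pos := (ok_asm_eps hm).1
      ε_le := (ok_asm_eps hm).2
      small := h3
      V_open := ok_V_open m0 m
      V_lam := h4
      Kc_cpt := ok_Kc_cpt m0 m
      Kc_sub := ok_Kc_sub hm
      O_sub := h5
      O_lam := h6
      an_z := h7
      psh_Φ := h8
      Φ_ge := h9
      cont_g := ok_cont_g m0 m
      an_Y := h10
      an_u := us_an m
      psh_tilt := ok_psh_tilt m0 m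
      tilt_le := h11
      psh_r := h12
      psh_0 := h13
      box := h14
      box0 := h15
      low := fun a => match a with
        | none => h17
        | some k => h16 k
      wt_nonneg := ok_wt_nonneg m0 m
      wt_ge := h18
      Y_le := h19
      up := fun a => match a with
        | none => h21
        | some k => h20 k
      open1 := h22
      open2 := h23
      open3 := h24
      pre_refl := ok_pre_refl m0 m
      pre_symm := ok_pre_symm m0 m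
      pre_trans := ok_pre_trans m0 m
      pre_open := h25
      pre_closed := h26
      sep := h27
      close := h28
      dom := h29 }


end Pool.Agent.MP_bea40e_an.Iv

end
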