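import Pool.Agent.MP_bea40e_an.Defs
import Pool.Agent.Lib.SCV.Osgood
import Pool.Agent.Lib.SCV.Division

-- part MP_bea40e_an.Ext
section

open Filter Topology Set Function Metric

namespace Pool.Agent.MP_bea40e_an

open Pool.Agent.Lib.SCV

universe u

variable {n : ℕ} {D : Set (Fin n → ℂ)} {X : Type u} [TopologicalSpace X] {π : X → Fin n → ℂ}
  {ι : D → X}

lemma Hol.comp₂ {F G : X → ℂ} (hF : Hol π F) (hG : Hol π G) {φ : ℂ × ℂ → ℂ}
    (hφ : ∀ q, AnalyticAt ℂ φ q) : Hol π fun x => φ (F x, G x) := by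
  intro x
  obtain ⟨f, hf, hf'⟩ := hF x
  obtain ⟨g, hg, hg'⟩ := hG x
  refine ⟨fun z => φ (f z, g z), (hφ _).comp (hf.prod hg), ?_⟩
  filter_upwards [hf', hg'] with y h1 h2
  rw [h1, h2]

lemma hol_entire {G : (Fin n → ℂ) → ℂ} (hG : Differentiable ℂ G) : Hol π fun x => G (π x) :=
  fun _ => ⟨G, osgood isOpen_univ hG.differentiableOn _ (mem_univ _), Eventually.of_forall fun _ => rfl⟩

lemma Hol.continuous {F : X → ℂ} (hF : Hol π F) (hπ : Continuous π) : Continuous F := by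
  rw [continuous_iff_continuousAt]
  intro x
  obtain ⟨g, hg, hg'⟩ := hF x
  exact (hg.continuousAt.comp hπ.continuousAt).congr (EventuallyEq.symm hg')

lemma diffOn_prod {κ : Type*} (s : Finset κ) {F : κ → (Fin n → ℂ) → ℂ}
    (hF : ∀ i ∈ s, DifferentiableOn ℂ (F i) D) :
    DifferentiableOn ℂ (fun z => ∏ i ∈ s, F i z) D := by
  classical
  induction s using Finset.induction_on with
  | empty => simp
  | insert a s ha ih =>
    simp only [Finset.prod_insert ha]
    exact (hF a (Finset.mem_insert_self _ _)).fun_mul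
      (ih fun i hi => hF i (Finset.mem_insert_of_mem hi))

open Classical in
/-- the extension of a holomorphic function -/
noncomputable def IsExt.ext (h : IsExt D π ι) (f : (Fin n → ℂ) → ℂ) : X → ℂ :=
  if hf : DifferentiableOn ℂ f D then (h.2.2.2 f hf).exists.choose else 0

namespace IsExt

variable (h : IsExt D π ι) {f g : (Fin n → ℂ) → ℂ}

lemma ext_spec (hf : DifferentiableOn ℂ f D) : Hol π (h.ext f) ∧ ∀ z : D, h.ext f (ι z) = f z := by
  rw [IsExt.ext, dif_pos hf]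
  exact (h.2.2.2 f hf).exists.choose_spec

lemma ext_eq (hf : DifferentiableOn ℂ f D) {F : X → ℂ} (hF : Hol π F)
    (hFf : ∀ z : D, F (ι z) = f z) : h.ext f = F :=
  (h.2.2.2 f hf).unique (h.ext_spec hf) ⟨hF, hFf⟩

lemma ext_congr (hf : DifferentiableOn ℂ f D) (hfg : ∀ z ∈ D, g z = f z) : h.ext g = h.ext f :=
  h.ext_eq (hf.congr hfg) (h.ext_spec hf).1 fun z => by rw [(h.ext_spec hf).2, hfg z z.2]

lemma ext_entire (hf : Differentiable ℂ f) (x : X) : h.ext f x = f (π x) := by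
  rw [h.ext_eq hf.differentiableOn (hol_entire hf) fun z => by rw [h.2.2.1]]

lemma ext_mul (hf : DifferentiableOn ℂ f D) (hg : DifferentiableOn ℂ g D) (x : X) :
    h.ext (fun z => f z * g z) x = h.ext f x * h.ext g x := by
  rw [h.ext_eq (hf.fun_mul hg) ((h.ext_spec hf).1.comp₂ (h.ext_spec hg).1 (φ := fun q => q.1 * q.2)
    fun q => analyticAt_fst.mul analyticAt_snd) fun z => by
      simp [(h.ext_spec hf).2, (h.ext_spec hg).2]]

lemma ext_add (hf : DifferentiableOn ℂ f D) (hg : DifferentiableOn ℂ g D) (x : X) :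
    h.ext (fun z => f z + g z) x = h.ext f x + h.ext g x := by
  rw [h.ext_eq (hf.fun_add hg) ((h.ext_spec hf).1.comp₂ (h.ext_spec hg).1 (φ := fun q => q.1 + q.2)
    fun q => analyticAt_fst.add analyticAt_snd) fun z => by
      simp [(h.ext_spec hf).2, (h.ext_spec hg).2]]

lemma ext_sub (hf : DifferentiableOn ℂ f D) (hg : DifferentiableOn ℂ g D) (x : X) :
    h.ext (fun z => f z - g z) x = h.ext f x - h.ext g x := by
  rw [h.ext_eq (hf.fun_sub hg) ((h.ext_spec hf).1.comp₂ (h.ext_spec hg).1 (φ := fun q => q.1 - q.2)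
    fun q => analyticAt_fst.sub analyticAt_snd) fun z => by
      simp [(h.ext_spec hf).2, (h.ext_spec hg).2]]

lemma ext_prod {κ : Type*} (s : Finset κ) {F : κ → (Fin n → ℂ) → ℂ}
    (hF : ∀ i ∈ s, DifferentiableOn ℂ (F i) D) (x : X) :
    h.ext (fun z => ∏ i ∈ s, F i z) x = ∏ i ∈ s, h.ext (F i) x := by
  classical
  induction s using Finset.induction_on with
  | empty => simpa using h.ext_entire (f := fun _ => 1) (differentiable_const _) x
  | insert a s ha ih =>
    have h1 : ∀ i ∈ s, DifferentiableOn ℂ (F i) D := fun i hi => hF i (Finset.mem_insert_of_mem hi)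
    simp only [Finset.prod_insert ha]
    rw [h.ext_mul (hF a (Finset.mem_insert_self _ _)) (diffOn_prod s h1), ih h1]

lemma ext_sum {κ : Type*} (s : Finset κ) {F : κ → (Fin n → ℂ) → ℂ}
    (hF : ∀ i ∈ s, DifferentiableOn ℂ (F i) D) (x : X) :
    h.ext (fun z => ∑ i ∈ s, F i z) x = ∑ i ∈ s, h.ext (F i) x := by
  classical
  induction s using Finset.induction_on with
  | empty => simpa using h.ext_entire (f := fun _ => 0) (differentiable_const _) x
  | insert a s ha ih =>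
    have h1 : ∀ i ∈ s, DifferentiableOn ℂ (F i) D := fun i hi => hF i (Finset.mem_insert_of_mem hi)
    simp only [Finset.sum_insert ha]
    rw [h.ext_add (hF a (Finset.mem_insert_self _ _)) (DifferentiableOn.fun_sum h1), ih h1]

end IsExt

/-- a local section of `π` over a ball -/
structure Chart (π : X → Fin n → ℂ) (c : Fin n → ℂ) (r : ℝ) (σ : (Fin n → ℂ) → X) : Prop where
  cont : ∀ z ∈ ball c r, ContinuousAt σ z
  right : ∀ z ∈ ball c r, π (σ z) = z
  left : ∀ z ∈ ball c r, ∀ᶠ y in 𝓝 (σ z), σ (π y) = y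

lemma Chart.mono {c : Fin n → ℂ} {r r' : ℝ} {σ : (Fin n → ℂ) → X} (h : Chart π c r σ)
    (hr : r' ≤ r) : Chart π c r' σ :=
  ⟨fun z hz => h.cont z (ball_subset_ball hr hz), fun z hz => h.right z (ball_subset_ball hr hz),
    fun z hz => h.left z (ball_subset_ball hr hz)⟩

lemma exists_chart (hπ : IsLocalHomeomorph π) (x : X) :
    ∃ r > 0, ∃ σ, Chart π (π x) r σ ∧ σ (π x) = x := by
  obtain ⟨e, hx, rfl⟩ := hπ x
  obtain ⟨r, hr, hb⟩ := Metric.isOpen_iff.1 e.open_target _ (e.map_source hx)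
  refine ⟨r, hr, e.symm, ⟨fun z hz => e.continuousAt_symm (hb hz), fun z hz => e.right_inv (hb hz),
    fun z hz => ?_⟩, e.left_inv hx⟩
  filter_upwards [e.open_source.mem_nhds (e.map_target (hb hz))] with y hy
  exact e.left_inv hy

lemma Chart.analytic {c : Fin n → ℂ} {r : ℝ} {σ : (Fin n → ℂ) → X} (h : Chart π c r σ)
    {F : X → ℂ} (hF : Hol π F) {z : Fin n → ℂ} (hz : z ∈ ball c r) :
    AnalyticAt ℂ (fun w => F (σ w)) z := by
  obtain ⟨g, hg, hg'⟩ := hF (σ z)
  rw [h.right z hz] at hg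
  refine hg.congr ?_
  filter_upwards [(h.cont z hz).eventually hg', isOpen_ball.mem_nhds hz] with w h1 h2
  rw [h1, h.right w h2]

lemma Chart.agree {c c' : Fin n → ℂ} {r r' : ℝ} {σ σ' : (Fin n → ℂ) → X} (h : Chart π c r σ)
    (h' : Chart π c' r' σ') {z : Fin n → ℂ} (hz : z ∈ ball c r) (hz' : z ∈ ball c' r')
    (e : σ' z = σ z) : ∀ᶠ w in 𝓝 z, σ' w = σ w := by
  have h1 := h'.left z hz'
  rw [e] at h1
  filter_upwards [(h.cont z hz).eventually h1, isOpen_ball.mem_nhds hz] with w h1 h2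
  rwa [h.right w h2] at h1

lemma IsExt.ext_fderiv (h : IsExt D π ι) (hO : IsOpen D) {f : (Fin n → ℂ) → ℂ}
    (hf : DifferentiableOn ℂ f D) (v : Fin n → ℂ) {c : Fin n → ℂ} {r : ℝ} {σ : (Fin n → ℂ) → X}
    (hσ : Chart π c r σ) {z : Fin n → ℂ} (hz : z ∈ ball c r) :
    h.ext (fun w => fderiv ℂ f w v) (σ z) = fderiv ℂ (fun w => h.ext f (σ w)) z v := by
  choose ρ hρ τ hτ hτx using exists_chart h.1
  have hF := (h.ext_spec hf).1
  let G : X → ℂ := fun x => fderiv ℂ (fun w => h.ext f (τ x w)) (π x) v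
  have key : ∀ {c : Fin n → ℂ} {r : ℝ} {σ : (Fin n → ℂ) → X}, Chart π c r σ → ∀ z ∈ ball c r,
      G (σ z) = fderiv ℂ (fun w => h.ext f (σ w)) z v := by
    intro c r σ hσ z hz
    have e := hσ.right z hz
    have h1 := hσ.agree (hτ (σ z)) hz (by rw [e]; exact mem_ball_self (hρ _))
      (by have := hτx (σ z); rwa [e] at this)
    simp only [G, e]
    rw [EventuallyEq.fderiv_eq (f := fun w => h.ext f (σ w))]
    filter_upwards [h1] with w hw
    rw [hw]
  rw [h.ext_eq (differentiableOn_fderiv_apply hO hf v) (F := G), key hσ z hz]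
  · intro x
    have hx : π x ∈ ball (π x) (ρ x) := mem_ball_self (hρ x)
    refine ⟨fun w => fderiv ℂ (fun w => h.ext f (τ x w)) w v, ?_, ?_⟩
    · exact ((ContinuousLinearMap.apply ℂ ℂ v).analyticAt _).comp ((hτ x).analytic hF hx).fderiv
    · have h1 := (hτ x).left _ hx
      rw [hτx] at h1
      filter_upwards [h1, h.1.continuous.continuousAt.eventually (isOpen_ball.mem_nhds hx)]
        with y h2 h3
      rw [← key (hτ x) _ h3, h2]
  · intro z
    simp only [G, h.2.2.1]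
    rw [EventuallyEq.fderiv_eq (f := f)]
    have h1 := (hτ (ι z)).left _ (mem_ball_self (hρ _))
    rw [hτx] at h1
    rw [← hO.isOpenEmbedding_subtypeVal.map_nhds_eq, EventuallyEq, eventually_map]
    filter_upwards [h.2.1.continuousAt.eventually h1] with w hw
    rw [h.2.2.1] at hw
    rw [hw, (h.ext_spec hf).2]

lemma exists_line_radius {c y z : Fin n → ℂ} {r s : ℝ} (hs : ball y s ⊆ ball c r)
    (hz : z ∈ ball y s) : ∃ R : ℝ, 1 < R ∧ ∀ ζ ∈ ball (0 : ℂ) R, y + ζ • (z - y) ∈ ball c r := by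
  rw [mem_ball, dist_eq_norm] at hz
  have h0 := norm_nonneg (z - y)
  have h1 : 0 < ‖z - y‖ + s := by linarith
  refine ⟨2 * s / (‖z - y‖ + s), by rw [lt_div_iff₀ h1]; linarith, fun ζ hζ => hs ?_⟩
  rw [mem_ball_zero_iff, lt_div_iff₀ h1] at hζ
  rw [mem_ball, dist_eq_norm, add_sub_cancel_left, norm_smul]
  nlinarith [norm_nonneg ζ]

lemma Chart.hasDerivAt_line {c : Fin n → ℂ} {r : ℝ} {σ : (Fin n → ℂ) → X} (h : Chart π c r σ)
    {F : X → ℂ} (hF : Hol π F) {y v : Fin n → ℂ} {ζ : ℂ} (hζ : y + ζ • v ∈ ball c r) :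
    HasDerivAt (fun s : ℂ => F (σ (y + s • v))) (fderiv ℂ (fun w => F (σ w)) (y + ζ • v) v) ζ := by
  have h1 : HasDerivAt (fun s : ℂ => y + s • v) v ζ := by
    simpa using ((hasDerivAt_id ζ).smul_const v).const_add y
  exact (h.analytic hF hζ).differentiableAt.hasFDerivAt.comp_hasDerivAt ζ h1

/-- points with the same character have the same germs -/
lemma IsExt.local_eq (h : IsExt D π ι) (hO : IsOpen D) {c : Fin n → ℂ} {r : ℝ}
    {σ τ : (Fin n → ℂ) → X} (hσ : Chart π c r σ) (hτ : Chart π c r τ)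
    (e : ∀ f, DifferentiableOn ℂ f D → h.ext f (σ c) = h.ext f (τ c)) {z : Fin n → ℂ}
    (hz : z ∈ ball c r) {f : (Fin n → ℂ) → ℂ} (hf : DifferentiableOn ℂ f D) :
    h.ext f (σ z) = h.ext f (τ z) := by
  obtain ⟨R, hR, hb⟩ := exists_line_radius subset_rfl hz
  have hR0 : ball (0 : ℂ) R ∈ 𝓝 (0 : ℂ) := ball_mem_nhds _ (by linarith)
  have step : ∀ {σ : (Fin n → ℂ) → X}, Chart π c r σ → ∀ {f}, DifferentiableOn ℂ f D → ∀ k,
      iteratedDeriv (k + 1) (fun s : ℂ => h.ext f (σ (c + s • (z - c)))) 0 =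
      iteratedDeriv k (fun s : ℂ => h.ext (fun w => fderiv ℂ f w (z - c)) (σ (c + s • (z - c)))) 0 := by
    intro σ hσ f hf k
    rw [iteratedDeriv_succ']
    apply EventuallyEq.iteratedDeriv_eq
    filter_upwards [hR0] with s hs
    rw [(hσ.hasDerivAt_line (h.ext_spec hf).1 (hb s hs)).deriv, h.ext_fderiv hO hf _ hσ (hb s hs)]
  have key : ∀ k : ℕ, ∀ f, DifferentiableOn ℂ f D →
      iteratedDeriv k (fun s : ℂ => h.ext f (σ (c + s • (z - c)))) 0 =
      iteratedDeriv k (fun s : ℂ => h.ext f (τ (c + s • (z - c)))) 0 := by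
    intro k
    induction k with
    | zero => intro f hf; simpa using e f hf
    | succ k ih =>
      intro f hf
      rw [step hσ hf, step hτ hf, ih _ (differentiableOn_fderiv_apply hO hf _)]
  have h1 : (1 : ℂ) ∈ ball (0 : ℂ) R := by simpa using hR
  have s1 := Complex.hasSum_taylorSeries_on_ball (f := fun s : ℂ => h.ext f (σ (c + s • (z - c))))
    (fun s hs => (hσ.hasDerivAt_line (h.ext_spec hf).1 (hb s hs)).differentiableAt.differentiableWithinAt) h1
  have s2 := Complex.hasSum_taylorSeries_on_ball (f := fun s : ℂ => h.ext f (τ (c + s • (z - c))))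
    (fun s hs => (hτ.hasDerivAt_line (h.ext_spec hf).1 (hb s hs)).differentiableAt.differentiableWithinAt) h1
  simp only [key _ f hf] at s1
  simpa using s1.unique s2

end Pool.Agent.MP_bea40e_an

end

-- part MP_bea40e_an.Cont
section

open Filter Topology Set Function Metric Uniformity

namespace Pool.Agent.MP_bea40e_an

open Pool.Agent.Lib.SCV

universe u

section CL

variable {V : Type*} [AddCommGroup V] [Module ℂ V] [TopologicalSpace V]

/-- `φ` is a continuous linear functional -/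
def CL (φ : V → ℂ) : Prop := ∃ l : V →L[ℂ] ℂ, ∀ v, l v = φ v

lemma CL.lim [BarrelledSpace ℂ V] [IsTopologicalAddGroup V] [ContinuousSMul ℂ V] {α : Type*}
    {l : Filter α} [l.IsCountablyGenerated] [l.NeBot] {g : α → V → ℂ} {φ : V → ℂ}
    (hg : ∀ᶠ a in l, CL (g a)) (h : ∀ v, Tendsto (fun a => g a v) l (𝓝 (φ v))) : CL φ := by
  classical
  let : UniformSpace V := IsTopologicalAddGroup.rightUniformSpace V
  have : IsUniformAddGroup V := isUniformAddGroup_of_addCommGroup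
  let L : α → V →L[ℂ] ℂ := fun a => if ha : CL (g a) then ha.choose else 0
  refine ⟨continuousLinearMapOfTendsto L (f := φ) (l := l) (tendsto_pi_nhds.2 fun v => ?_),
    fun _ => rfl⟩
  refine (h v).congr' ?_
  filter_upwards [hg] with a ha
  simp only [L, dif_pos ha]
  exact (ha.choose_spec v).symm

lemma CL.line [BarrelledSpace ℂ V] [IsTopologicalAddGroup V] [ContinuousSMul ℂ V]
    {G : V → ℂ → ℂ} {R : ℝ} (hR : 1 < R) (hG : ∀ v, DifferentiableOn ℂ (G v) (ball 0 R))
    (h0 : ∀ᶠ ζ in 𝓝 (0 : ℂ), CL fun v => G v ζ) : CL fun v => G v 1 := by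
  have key : ∀ k : ℕ, ∀ᶠ ζ in 𝓝 (0 : ℂ), CL fun v => iteratedDeriv k (G v) ζ := by
    intro k
    induction k with
    | zero => simpa using h0
    | succ k ih =>
      filter_upwards [ih.eventually_nhds, ball_mem_nhds (0 : ℂ) (by linarith : 0 < R)] with ζ h1 h2
      refine CL.lim (l := 𝓝[≠] ζ) (g := fun s v => slope (iteratedDeriv k (G v)) ζ s) ?_
        fun v => ?_
      · obtain ⟨l₀, hl₀⟩ := h1.self_of_nhds
        filter_upwards [nhdsWithin_le_nhds h1] with s ⟨l, hl⟩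
        exact ⟨(s - ζ)⁻¹ • (l - l₀), fun v => by simp [slope, hl, hl₀]⟩
      · rw [iteratedDeriv_succ]
        have := ((hG v).analyticOnNhd isOpen_ball).iterated_deriv k ζ h2
        rw [← iteratedDeriv_eq_iterate] at this
        exact this.differentiableAt.hasDerivAt.tendsto_slope
  choose l hl using fun k => (key k).self_of_nhds
  have h1 : (1 : ℂ) ∈ ball (0 : ℂ) R := by simpa using hR
  refine CL.lim (l := atTop) (g := fun N v => ∑ k ∈ Finset.range N,
    ((k.factorial : ℂ)⁻¹ • (1 - 0 : ℂ) ^ k • iteratedDeriv k (G v) 0)) (.of_forall fun N => ?_)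
    fun v => (Complex.hasSum_taylorSeries_on_ball (hG v) h1).tendsto_sum_nat
  exact ⟨∑ k ∈ Finset.range N, (k.factorial : ℂ)⁻¹ • l k, fun v => by simp [hl]⟩

end CL

variable {n : ℕ} {D : Set (Fin n → ℂ)} {X : Type u} [TopologicalSpace X] {π : X → Fin n → ℂ}
  {ι : D → X}

/-- the holomorphic functions inside `C(D, ℂ)` -/
def HolSub (D : Set (Fin n → ℂ)) : Submodule ℂ C(D, ℂ) where
  carrier := {g | ∃ f : (Fin n → ℂ) → ℂ, DifferentiableOn ℂ f D ∧ ∀ z : D, g z = f z}
  add_mem' := by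
    rintro _ _ ⟨f, hf, hf'⟩ ⟨g, hg, hg'⟩
    exact ⟨f + g, hf.add hg, fun z => by simp [hf', hg']⟩
  zero_mem' := ⟨0, differentiableOn_const _, fun _ => rfl⟩
  smul_mem' := by
    rintro c _ ⟨f, hf, hf'⟩
    exact ⟨c • f, hf.const_smul c, fun z => by simp [hf']⟩

/-- a representative on the whole space -/
noncomputable def rep (g : HolSub D) : (Fin n → ℂ) → ℂ :=
  (show ∃ f : (Fin n → ℂ) → ℂ, DifferentiableOn ℂ f D ∧ ∀ z : D, g.1 z = f z from g.2).choose

lemma rep_spec (g : HolSub D) : DifferentiableOn ℂ (rep g) D ∧ ∀ z : D, g.1 z = rep g z :=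
  (show ∃ f : (Fin n → ℂ) → ℂ, DifferentiableOn ℂ f D ∧ ∀ z : D, g.1 z = f z from g.2).choose_spec

lemma isClosed_holSub (hO : IsOpen D) : IsClosed (HolSub D : Set C(D, ℂ)) := by
  classical
  have : LocallyCompactSpace D := hO.locallyCompactSpace
  apply IsSeqClosed.isClosed
  intro u g hu hg
  choose f hf hf' using hu
  let G : (Fin n → ℂ) → ℂ := fun z => if hz : z ∈ D then g ⟨z, hz⟩ else 0
  refine ⟨G, fun x hx => ?_, fun z => by simp [G]⟩
  obtain ⟨r, hr, hb⟩ := nhds_basis_closedBall.mem_iff.1 (hO.mem_nhds hx)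
  have hK : IsCompact (Subtype.val ⁻¹' closedBall x r : Set D) :=
    IsInducing.subtypeVal.isCompact_preimage' (isCompact_closedBall x r) (by simpa using hb)
  have hU := Metric.tendstoUniformlyOn_iff.1
    (ContinuousMap.tendsto_iff_forall_isCompact_tendstoUniformlyOn.1 hg _ hK)
  choose N hN using fun k : ℕ => (hU (1 / ((k : ℝ) + 1)) (by positivity)).exists
  have e : 2 * (r / 2) = r := by ring
  refine (differentiableAt_of_unif_limit (g := fun k => f (N k)) (δ := r / 2) (by positivity)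
    (fun k => (hf _).mono ?_) tendsto_one_div_add_atTop_nhds_zero_nat
    fun k y hy => ?_).differentiableWithinAt
  · rw [e]; exact ball_subset_closedBall.trans hb
  · rw [e] at hy
    have hy' := ball_subset_closedBall hy
    have := hN k ⟨y, hb hy'⟩ hy'
    rw [hf', dist_comm, dist_eq_norm] at this
    simpa [G, hb hy'] using this.le

theorem IsExt.cl [ConnectedSpace X] (h : IsExt D π ι) (hO : IsOpen D) (hD : D.Nonempty) (x : X) :
    CL fun g : HolSub D => h.ext (rep g) x := by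
  have : LocallyCompactSpace D := hO.locallyCompactSpace
  have : CompleteSpace (HolSub D) := (isClosed_holSub hO).completeSpace_coe
  have : IsCountablyGenerated (𝓤 (HolSub D)) := comap.isCountablyGenerated _ _
  let S : Set X := {x | CL fun g : HolSub D => h.ext (rep g) x}
  have hS : IsClopen (interior S) := by
    refine ⟨isClosed_of_closure_subset fun x hx => ?_, isOpen_interior⟩
    obtain ⟨r, hr, σ, hσ, hσx⟩ := exists_chart h.1 x
    have h1 := hσ.left _ (mem_ball_self hr)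
    rw [hσx] at h1
    have h2 : ∀ᶠ y in 𝓝 x, π y ∈ ball (π x) (r / 4) :=
      h.1.continuous.continuousAt.eventually (ball_mem_nhds _ (by positivity))
    obtain ⟨y, ⟨hy1, hy2⟩, hyS⟩ := mem_closure_iff_nhds.1 hx _ (h1.and h2)
    rw [mem_interior_iff_mem_nhds]
    filter_upwards [h1, h2] with w hw1 hw2
    rw [mem_ball] at hy2 hw2
    have hs : ball (π y) (r / 2) ⊆ ball (π x) r := ball_subset_ball' (by linarith)
    obtain ⟨R, hR, hb⟩ := exists_line_radius hs (z := π w) (by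
      rw [mem_ball]; linarith [dist_triangle_right (π w) (π y) (π x)])
    have h3 := CL.line (G := fun (g : HolSub D) (s : ℂ) =>
      h.ext (rep g) (σ (π y + s • (π w - π y)))) hR (fun g s hs =>
        (hσ.hasDerivAt_line (h.ext_spec (rep_spec g).1).1
          (hb s hs)).differentiableAt.differentiableWithinAt) ?_
    · simpa [hw1, S] using h3
    · have c1 : ContinuousAt (fun s : ℂ => σ (π y + s • (π w - π y))) 0 :=
        ContinuousAt.comp_of_eq (hσ.cont (π y) (hs (mem_ball_self (by positivity))))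
          (by fun_prop) (by simp)
      refine c1.eventually (p := fun a => a ∈ S) ?_
      simpa [hy1] using mem_interior_iff_mem_nhds.1 hyS
  obtain ⟨z, hz⟩ := hD
  have hne : (interior S).Nonempty := by
    refine ⟨ι ⟨z, hz⟩, mem_interior_iff_mem_nhds.2 ?_⟩
    have hι : IsOpenEmbedding ι := h.1.isOpenEmbedding_of_comp
      (by rw [show π ∘ ι = Subtype.val from funext h.2.2.1]; exact hO.isOpenEmbedding_subtypeVal)
      h.2.1
    refine mem_of_superset (hι.isOpen_range.mem_nhds (mem_range_self _)) ?_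
    rintro _ ⟨w, rfl⟩
    refine ⟨(ContinuousMap.evalCLM ℂ w).comp (HolSub D).subtypeL, fun g => ?_⟩
    exact ((rep_spec g).2 w).trans ((h.ext_spec (rep_spec g).1).2 w).symm
  have hx : x ∈ interior S := hS.eq_univ hne ▸ mem_univ x
  exact (interior_subset hx : x ∈ S)

/-- evaluation at a point of an extension is continuous for locally uniform convergence -/
theorem IsExt.tendsto_ext [ConnectedSpace X] (h : IsExt D π ι) (hO : IsOpen D) (hD : D.Nonempty)
    {α : Type*} {l : Filter α} {F : α → (Fin n → ℂ) → ℂ} {f : (Fin n → ℂ) → ℂ}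
    (hF : ∀ a, DifferentiableOn ℂ (F a) D) (hf : DifferentiableOn ℂ f D)
    (hl : ∀ K ⊆ D, IsCompact K → TendstoUniformlyOn F f l K) (x : X) :
    Tendsto (fun a => h.ext (F a) x) l (𝓝 (h.ext f x)) := by
  obtain ⟨L, hL⟩ := h.cl hO hD x
  let mk : ∀ f : (Fin n → ℂ) → ℂ, DifferentiableOn ℂ f D → HolSub D := fun f hf =>
    ⟨⟨fun z => f z, hf.continuousOn.domRestrict⟩, f, hf, fun _ => rfl⟩
  have e : ∀ f hf, L (mk f hf) = h.ext f x := fun f hf => by
    exact (hL _).trans (congrFun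
      (h.ext_congr hf fun z hz => ((rep_spec (mk f hf)).2 ⟨z, hz⟩).symm) x)
  have h1 : Tendsto (fun a => mk (F a) (hF a)) l (𝓝 (mk f hf)) := by
    rw [tendsto_subtype_rng, ContinuousMap.tendsto_iff_forall_isCompact_tendstoUniformlyOn]
    intro K hK
    have := (hl _ (Subtype.coe_image_subset D K) (hK.image continuous_subtype_val)).comp
      (Subtype.val : D → Fin n → ℂ)
    exact this.mono (subset_preimage_image _ _)
  have := (L.continuous.tendsto _).comp h1
  rw [e f hf] at this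
  exact this.congr fun a => e (F a) (hF a)

end Pool.Agent.MP_bea40e_an

end

-- part MP_bea40e_an.Fourier
section

open Filter Topology Set Function Metric Complex

namespace Pool.Agent.MP_bea40e_an

open Pool.Agent.Lib.SCV

universe u

variable {n : ℕ} {D : Set (Fin n → ℂ)}

/-- rotation of the coordinates -/
noncomputable def rot (θ : Fin n → ℝ) (z : Fin n → ℂ) : Fin n → ℂ :=
  fun j => exp (θ j * I) * z j

lemma rot_rot (θ φ : Fin n → ℝ) (z : Fin n → ℂ) : rot θ (rot φ z) = rot (θ + φ) z := by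
  funext j
  simp [rot, add_mul, exp_add, mul_assoc]

lemma rot_zero (z : Fin n → ℂ) : rot 0 z = z := by
  funext j
  simp [rot]

/-- the circle action with weights `v` -/
noncomputable def cir (v : Fin n → ℤ) (s : ℝ) (z : Fin n → ℂ) : Fin n → ℂ :=
  rot (fun j => s * v j) z

lemma cir_cir (v : Fin n → ℤ) (s t : ℝ) (z : Fin n → ℂ) :
    cir v s (cir v t z) = cir v (s + t) z := by
  rw [cir, cir, rot_rot, cir]
  congr 1
  funext j
  simp [add_mul]

lemma cir_apply (v : Fin n → ℤ) (s : ℝ) (z : Fin n → ℂ) (j : Fin n) :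
    cir v s z j = exp (s * I) ^ v j * z j := by
  rw [← exp_int_mul]
  simp only [cir, rot]
  congr 2
  push_cast
  ring

lemma cir_per (v : Fin n → ℤ) (z : Fin n → ℂ) : Periodic (fun s => cir v s z) (2 * Real.pi) := by
  intro s
  funext j
  simp [cir_apply, add_mul, exp_add]

lemma continuous_cir (v : Fin n → ℤ) : Continuous fun q : ℝ × (Fin n → ℂ) => cir v q.1 q.2 := by
  unfold cir rot
  fun_prop

/-- Fourier modes along a circle action -/
noncomputable def mode (v : Fin n → ℤ) (k : ℤ) (f : (Fin n → ℂ) → ℂ) (z : Fin n → ℂ) : ℂ :=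
  ∫ s in (0 : ℝ)..2 * Real.pi, exp (s * I) ^ (-k) * f (cir v s z)

section Circle

variable {v : Fin n → ℤ} {f : (Fin n → ℂ) → ℂ} (hO : IsOpen D)
  (hv : ∀ s, ∀ z ∈ D, cir v s z ∈ D)

lemma continuous_pw (k : ℤ) : Continuous fun s : ℝ => exp (s * I) ^ k :=
  Continuous.zpow₀ (by fun_prop) k fun _ => Or.inl (exp_ne_zero _)

include hv in
lemma continuous_orb (hf : DifferentiableOn ℂ f D) {z : Fin n → ℂ} (hz : z ∈ D) :
    Continuous fun s => f (cir v s z) :=
  hf.continuousOn.comp_continuous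
    ((continuous_cir v).comp (continuous_id.prodMk continuous_const)) fun s => hv s z hz

include hO hv in
lemma mode_diff (hf : DifferentiableOn ℂ f D) (k : ℤ) : DifferentiableOn ℂ (mode v k f) D := by
  intro z hz
  have h1 := analyticAt_circleIntegral (p₀ := z)
    (H := fun q : ℂ × (Fin n → ℂ) => (I⁻¹ * q.1 ^ (-k - 1)) * f fun j => q.1 ^ v j * q.2 j)
    one_pos fun ζ hζ => by
      have h0 : ζ ≠ 0 := ne_of_mem_sphere hζ one_ne_zero
      have hp : ∀ m : ℤ, AnalyticAt ℂ (fun q : ℂ × (Fin n → ℂ) => q.1 ^ m) (ζ, z) := fun m =>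
        analyticAt_fst.zpow h0
      refine (analyticAt_const.mul (hp _)).mul (AnalyticAt.comp_of_eq (osgood hO hf _
        (hv (arg ζ) z hz)) (AnalyticAt.pi fun j => (hp _).mul
          (((ContinuousLinearMap.proj j : (Fin n → ℂ) →L[ℂ] ℂ).analyticAt _).comp
            analyticAt_snd)) ?_)
      funext j
      have := norm_mul_exp_arg_mul_I ζ
      rw [mem_sphere_zero_iff_norm.1 hζ] at this
      rw [cir_apply]
      simp_all
  refine (h1.congr (.of_forall fun w => ?_)).differentiableAt.differentiableWithinAt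
  simp only [circleIntegral, mode, deriv_circleMap, circleMap, smul_eq_mul]
  congr 1
  funext s
  have e : (fun j => exp (s * I) ^ v j * w j) = cir v s w := funext fun j => (cir_apply ..).symm
  have h0 := exp_ne_zero (s * I)
  simp only [ofReal_one, one_mul, zero_add, e, zpow_sub_one₀ h0]
  field_simp

lemma mode_eig (k : ℤ) (t : ℝ) (z : Fin n → ℂ) :
    mode v k f (cir v t z) = exp (t * I) ^ k * mode v k f z := by
  have hp : Periodic (fun s : ℝ => exp (s * I) ^ (-k) * f (cir v s z)) (2 * Real.pi) := by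
    intro s
    have := cir_per v z s
    simp only at this
    simp [this, add_mul, exp_add]
  have h1 := hp.intervalIntegral_add_eq t 0
  have h2 := intervalIntegral.integral_comp_add_right (a := 0) (b := 2 * Real.pi)
    (fun s : ℝ => exp (s * I) ^ (-k) * f (cir v s z)) t
  rw [zero_add, add_comm _ t, h1, zero_add] at h2
  rw [mode, mode, ← h2, ← intervalIntegral.integral_const_mul]
  congr 1
  funext s
  have h0 := zpow_ne_zero k (exp_ne_zero (t * I))
  simp only [cir_cir, ofReal_add, add_mul, exp_add, mul_zpow, zpow_neg]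
  field_simp

include hv in
lemma mode_comm (k : ℤ) {θ : Fin n → ℝ} {a : ℂ} (h : ∀ w ∈ D, f (rot θ w) = a * f w)
    {z : Fin n → ℂ} (hz : z ∈ D) : mode v k f (rot θ z) = a * mode v k f z := by
  rw [mode, mode, ← intervalIntegral.integral_const_mul]
  congr 1
  funext s
  have : cir v s (rot θ z) = rot θ (cir v s z) := by rw [cir, cir, rot_rot, rot_rot, add_comm]
  rw [this, h _ (hv s z hz)]
  ring

/-- derivative along the circle action -/
noncomputable def der (v : Fin n → ℤ) (f : (Fin n → ℂ) → ℂ) (w : Fin n → ℂ) : ℂ :=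
  fderiv ℂ f w fun j => v j * I * w j

include hO in
lemma der_diff (hf : DifferentiableOn ℂ f D) : DifferentiableOn ℂ (der v f) D := fun w hw =>
  (((osgood hO hf).fderiv w hw).differentiableAt.clm_apply (by fun_prop)).differentiableWithinAt

include hO hv in
lemma mode_der (hf : DifferentiableOn ℂ f D) (k : ℤ) {z : Fin n → ℂ} (hz : z ∈ D) :
    mode v k (der v f) z = k * I * mode v k f z := by
  have h1 : ∀ (m : ℤ) (s : ℝ), HasDerivAt (fun s : ℝ => exp (s * I) ^ m)
      (m * I * exp (s * I) ^ m) s := fun m s => by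
    simp only [← exp_int_mul]
    have := (((hasDerivAt_id (s : ℂ)).mul_const I).const_mul (m : ℂ)).cexp.comp_ofReal
    simpa [mul_comm] using this
  have h2 : ∀ s : ℝ, HasDerivAt (fun s => f (cir v s z)) (der v f (cir v s z)) s := fun s => by
    have h3 : HasDerivAt (fun s => cir v s z) (fun j => v j * I * cir v s z j) s :=
      hasDerivAt_pi.2 fun j => by
        simpa [cir_apply, mul_assoc] using (h1 (v j) s).mul_const (z j)
    exact ((hf.differentiableAt (hO.mem_nhds (hv s z hz))).hasFDerivAt.restrictScalars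
      ℝ).comp_hasDerivAt s h3
  have c1 := (continuous_pw (-k)).fun_mul (continuous_orb hv hf hz)
  have c2 := (continuous_pw (-k)).fun_mul (continuous_orb hv (der_diff (v := v) hO hf) hz)
  have c3 := (continuous_const (y := k * I)).fun_mul c1
  have h4 := intervalIntegral.integral_eq_sub_of_hasDerivAt (a := 0) (b := 2 * Real.pi)
    (f' := fun s : ℝ => exp (s * I) ^ (-k) * der v f (cir v s z) -
      k * I * (exp (s * I) ^ (-k) * f (cir v s z)))
    (fun s _ => ((h1 (-k) s).mul (h2 s)).congr_deriv (by push_cast; ring))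
    ((c2.sub c3).intervalIntegrable _ _)
  rw [intervalIntegral.integral_sub (c2.intervalIntegrable _ _)
    (c3.intervalIntegrable _ _), intervalIntegral.integral_const_mul] at h4
  have := cir_per v z 0
  simp only [zero_add] at this
  rw [← sub_eq_zero]
  refine h4.trans ?_
  simp [this]

include hv in
lemma mode_bound (hf : DifferentiableOn ℂ f D) {K : Set (Fin n → ℂ)} (hK : K ⊆ D)
    (hc : IsCompact K) : ∃ C, ∀ k, ∀ z ∈ K, ‖mode v k f z‖ ≤ C := by
  obtain ⟨C, hC⟩ := ((isCompact_uIcc (a := (0 : ℝ)) (b := 2 * Real.pi)).prod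
    hc).exists_bound_of_continuousOn (f := fun q => f (cir v q.1 q.2))
    (hf.continuousOn.comp (continuous_cir v).continuousOn fun q hq => hv _ _ (hK hq.2))
  refine ⟨C * |2 * Real.pi - 0|, fun k z hz =>
    intervalIntegral.norm_integral_le_of_norm_le_const fun s hs => ?_⟩
  simpa [norm_exp_ofReal_mul_I] using hC (s, z) ⟨uIoc_subset_uIcc hs, hz⟩

include hO hv in
lemma mode_summable (hf : DifferentiableOn ℂ f D) {K : Set (Fin n → ℂ)} (hK : K ⊆ D)
    (hc : IsCompact K) : ∃ u : ℤ → ℝ, Summable u ∧ ∀ k, ∀ z ∈ K, ‖mode v k f z‖ ≤ u k := by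
  have h1 := der_diff (v := v) hO hf
  obtain ⟨C₀, h₀⟩ := mode_bound hv hf hK hc
  obtain ⟨C, hC⟩ := mode_bound hv (der_diff (v := v) hO h1) hK hc
  refine ⟨fun k => Pi.single (M := fun _ => ℝ) (0 : ℤ) C₀ k + C * (1 / (k : ℝ) ^ 2),
    (hasSum_pi_single _ _).summable.add
      ((Real.summable_one_div_int_pow.2 one_lt_two).mul_left C), fun k z hz => ?_⟩
  rcases eq_or_ne k 0 with rfl | hk
  · simpa using h₀ 0 z hz
  · have := hC k z hz
    rw [mode_der hO hv h1 k (hK hz), mode_der hO hv hf k (hK hz)] at this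
    have hk' : (0 : ℝ) < (k : ℝ) ^ 2 := by positivity
    simp only [norm_mul, norm_I, norm_intCast, mul_one, ← mul_assoc, abs_mul_abs_self] at this
    simp only [Pi.single_eq_of_ne hk, zero_add, mul_one_div, le_div_iff₀ hk']
    nlinarith

include hO hv in
lemma hasSum_mode (hf : DifferentiableOn ℂ f D) {z : Fin n → ℂ} (hz : z ∈ D) :
    HasSum (fun k => (2 * Real.pi : ℂ)⁻¹ * mode v k f z) (f z) := by
  have : Fact (0 < 2 * Real.pi) := ⟨Real.two_pi_pos⟩
  have hπ : (Real.pi : ℂ) ≠ 0 := ofReal_ne_zero.2 Real.pi_ne_zero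
  have e0 : ∀ (k : ℤ) (s : ℝ), fourier k (s : AddCircle (2 * Real.pi)) = exp (s * I) ^ k := by
    intro k s
    rw [fourier_coe_apply, ← exp_int_mul]
    congr 1
    push_cast
    field_simp
  have e1 : ∀ s : ℝ, (fun j => fourier (v j) (s : AddCircle (2 * Real.pi)) * z j) = cir v s z :=
    fun s => funext fun j => by rw [e0, cir_apply]
  let φ : C(AddCircle (2 * Real.pi), ℂ) := ⟨fun s => f fun j => fourier (v j) s * z j,
    hf.continuousOn.comp_continuous (by fun_prop) fun s => by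
      induction s using QuotientAddGroup.induction_on with
      | H s => rw [e1]; exact hv s z hz⟩
  have e2 : ∀ k, fourierCoeff φ k = (2 * Real.pi : ℂ)⁻¹ * mode v k f z := fun k => by
    rw [fourierCoeff_eq_intervalIntegral _ _ 0]
    simp only [φ, ContinuousMap.coe_mk, e1]
    simp only [e0, mode, zero_add, smul_eq_mul, real_smul]
    push_cast
    rw [one_div]
  obtain ⟨u, hu, hb⟩ := mode_summable hO hv hf (singleton_subset_iff.2 hz) isCompact_singleton
  have h := has_pointwise_sum_fourier_series_of_summable (f := φ) (by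
    rw [funext e2]
    exact (Summable.of_norm_bounded hu fun k => hb k z rfl).mul_left _) 0
  simp only [e2] at h
  simpa [φ] using h

variable {X : Type u} [TopologicalSpace X] {π : X → Fin n → ℂ} {ι : D → X}

include hO hv in
lemma IsExt.eq_of_mode [ConnectedSpace X] (h : IsExt D π ι) (hD : D.Nonempty)
    (hf : DifferentiableOn ℂ f D) {x y : X} (e : ∀ k, h.ext (mode v k f) x = h.ext (mode v k f) y) :
    h.ext f x = h.ext f y := by
  have hd := mode_diff hO hv hf
  have hπ : (2 * Real.pi : ℂ) ≠ 0 := by simp [Real.pi_ne_zero]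
  have h1 := h.tendsto_ext hO hD (l := atTop)
    (F := fun (t : Finset ℤ) z => ∑ k ∈ t, mode v k f z) (f := fun z => 2 * Real.pi * f z)
    (fun t => DifferentiableOn.fun_sum fun k _ => hd k) (hf.const_mul _) fun K hK hc => by
      obtain ⟨u, hu, hb⟩ := mode_summable hO hv hf hK hc
      refine (tendstoUniformlyOn_tsum hu hb).congr_right fun z hz => ?_
      simpa [← mul_assoc, mul_inv_cancel₀ hπ] using
        ((hasSum_mode hO hv hf (hK hz)).mul_left (2 * Real.pi : ℂ)).tsum_eq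
  have h2 := h1 x
  simp only [h.ext_sum _ fun k _ => hd k, e] at h2
  simp only [← h.ext_sum _ fun k _ => hd k] at h2
  have h3 := tendsto_nhds_unique h2 (h1 y)
  rw [h.ext_mul (differentiableOn_const _) hf, h.ext_mul (differentiableOn_const _) hf,
    h.ext_entire (differentiable_const _), h.ext_entire (differentiable_const _)] at h3
  exact mul_left_cancel₀ hπ h3

end Circle

/-- `f` is a holomorphic eigenfunction of weight `α` of the torus orthogonal to `m` -/
def Eig (D : Set (Fin n → ℂ)) (m : Fin n → ℤ) (f : (Fin n → ℂ) → ℂ) (α : Fin n → ℤ) : Prop :=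
  DifferentiableOn ℂ f D ∧ ∀ θ : Fin n → ℝ, ∑ j, m j * θ j = 0 → ∀ z ∈ D,
    f (rot θ z) = exp ((∑ j, α j * θ j : ℝ) * I) * f z

theorem IsExt.eq_of_eig {X : Type u} [TopologicalSpace X] {π : X → Fin n → ℂ} {ι : D → X}
    [ConnectedSpace X] (h : IsExt D π ι) (hO : IsOpen D) (hD : D.Nonempty) {m u : Fin n → ℤ}
    (hu : ∑ j, m j * u j = 1)
    (hinv : ∀ θ : Fin n → ℝ, ∑ j, m j * θ j = 0 → ∀ z ∈ D, rot θ z ∈ D) {x y : X}
    (e : ∀ f α, Eig D m f α → h.ext f x = h.ext f y) {f : (Fin n → ℂ) → ℂ}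
    (hf : DifferentiableOn ℂ f D) : h.ext f x = h.ext f y := by
  classical
  let v : Fin n → Fin n → ℤ := fun i => Pi.single i 1 - m i • u
  have hv : ∀ i s, ∀ z ∈ D, cir (v i) s z ∈ D := fun i s => hinv _ (by
    have : ∑ j, m j * v i j = 0 := by
      simp [v, mul_sub, Pi.single_apply, mul_left_comm, ← Finset.mul_sum, hu]
    have h2 : ∑ j, (m j : ℝ) * v i j = 0 := by exact_mod_cast this
    simp [mul_left_comm, ← Finset.mul_sum, h2])
  have key : ∀ S : Finset (Fin n), ∀ f, DifferentiableOn ℂ f D →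
      (∀ i ∉ S, ∃ k : ℤ, ∀ s : ℝ, ∀ z ∈ D, f (cir (v i) s z) = exp (s * I) ^ k * f z) →
      h.ext f x = h.ext f y := by
    intro S
    induction S using Finset.induction_on with
    | empty =>
      intro f hf hk
      choose k hk using fun i => hk i (Finset.notMem_empty i)
      refine e f k ⟨hf, fun θ hθ z hz => ?_⟩
      have : ∀ S : Finset (Fin n), rot (∑ i ∈ S, fun j => θ i * v i j) z ∈ D ∧
          f (rot (∑ i ∈ S, fun j => θ i * v i j) z) =
            exp ((∑ j ∈ S, k j * θ j : ℝ) * I) * f z := by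
        intro S
        induction S using Finset.induction_on with
        | empty => simp [rot_zero, hz]
        | insert i S hi ih =>
          rw [Finset.sum_insert hi, Finset.sum_insert hi, ← rot_rot]
          refine ⟨hv i _ _ ih.1, (hk i _ _ ih.1).trans ?_⟩
          rw [ih.2, ← exp_int_mul, ← mul_assoc, ← exp_add]
          congr 2
          push_cast
          ring
      rw [← (this Finset.univ).2]
      congr 2
      funext j
      have h3 : ∑ i, θ i * (m i * u j) = 0 := by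
        rw [← zero_mul (u j : ℝ), ← hθ, Finset.sum_mul]
        exact Finset.sum_congr rfl fun i _ => by ring
      simp [v, mul_sub, Pi.single_apply, h3]
    | insert i S hi ih =>
      intro f hf hk
      refine h.eq_of_mode hO (hv i) hD hf fun k => ih _ (mode_diff hO (hv i) hf k) fun j hj => ?_
      rcases eq_or_ne j i with rfl | hji
      · exact ⟨k, fun s z _ => mode_eig k s z⟩
      · obtain ⟨l, hl⟩ := hk j (by simp [hj, hji])
        exact ⟨l, fun s z hz => mode_comm (hv i) k (hl s) hz⟩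
  exact key Finset.univ f hf fun i hi => absurd (Finset.mem_univ i) hi

end Pool.Agent.MP_bea40e_an

end

-- part MP_bea40e_an.Box
section

open Filter Topology Set Metric Complex

namespace Pool.Agent.MP_bea40e_an

open Pool.Agent.Lib.SCV

variable {n : ℕ} {D : Set (Fin n → ℂ)} {m : Fin n → ℤ}

/-- dilation of the coordinates -/
noncomputable def scl (ξ : Fin n → ℝ) (z : Fin n → ℂ) : Fin n → ℂ :=
  fun j => (Real.exp (ξ j) : ℂ) * z j

lemma Eig.scl_eq {f : (Fin n → ℂ) → ℂ} {α : Fin n → ℤ} (hf : Eig D m f α) (hO : IsOpen D)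
    {ξ : Fin n → ℝ} (hξ : ∑ j, m j * ξ j = 0) {y : Fin n → ℂ}
    (hy : ∀ s ∈ Icc (0 : ℝ) 1, scl (s • ξ) y ∈ D) :
    f (scl ξ y) = exp (∑ j, α j * ξ j : ℝ) * f y := by
  set a : ℝ := ∑ j, α j * ξ j
  let G : ℂ → ℂ := fun ζ => f (fun j => exp (ζ * ξ j) * y j) * exp (-(ζ * a))
  have e : ∀ s : ℝ, (fun j => exp (s * ξ j) * y j) = scl (s • ξ) y := fun s => by
    funext j
    simp [scl]
  have h1 : ∀ s ∈ Icc (0 : ℝ) 1, HasDerivAt G 0 s := fun s hs => by
    have hd : DifferentiableAt ℂ G s := (DifferentiableAt.comp (s : ℂ) (g := f)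
      (e s ▸ hf.1.differentiableAt (hO.mem_nhds (hy s hs))) (by fun_prop)).mul (by fun_prop)
    have h2 : HasDerivAt (fun t : ℝ => G (s + t * I)) (deriv G s * I) 0 := by
      have h3 := (HasDerivAt.comp_of_eq (0 : ℂ) hd.hasDerivAt
        (((hasDerivAt_id (0 : ℂ)).mul_const I).const_add (s : ℂ)) (by simp))
      simpa using HasDerivAt.comp_ofReal (z := 0) h3
    have h4 : (fun t : ℝ => G (s + t * I)) = fun _ => G s := by
      funext t
      have h5 : (fun j => exp ((s + t * I) * ξ j) * y j) = rot (t • ξ) (scl (s • ξ) y) := by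
        funext j
        simp only [rot, scl, Pi.smul_apply, smul_eq_mul, ← mul_assoc, ofReal_exp, ← exp_add]
        congr 2
        push_cast
        ring
      have h6 : ∀ β : Fin n → ℤ, ∑ j, β j * (t • ξ) j = t * ∑ j, β j * ξ j := fun β => by
        simp [Finset.mul_sum, mul_left_comm]
      simp only [G, h5, e]
      rw [hf.2 _ (by rw [h6, hξ, mul_zero]) _ (hy s hs), h6, mul_comm (exp _), mul_assoc, ← exp_add]
      congr 2
      rw [ofReal_mul]
      ring
    rw [h4] at h2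
    have h7 := (mul_eq_zero.1 (h2.unique (hasDerivAt_const _ _))).resolve_right I_ne_zero
    exact h7 ▸ hd.hasDerivAt
  have h8 := constant_of_has_deriv_right_zero (f := fun s : ℝ => G s) (a := 0) (b := 1)
    (fun s hs => (h1 s hs).comp_ofReal.continuousAt.continuousWithinAt)
    (fun s hs => (h1 s (Ico_subset_Icc_self hs)).comp_ofReal.hasDerivWithinAt) 1
    (right_mem_Icc.2 zero_le_one)
  simp only [G, e, one_smul] at h8
  simp only [ofReal_one, one_mul, ofReal_zero, zero_mul, neg_zero, exp_zero, mul_one, exp_neg,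
    mul_inv_eq_iff_eq_mul₀ (exp_ne_zero _)] at h8
  rw [h8, mul_comm]
  congr 2
  funext j
  simp [scl]

lemma scl_mem_ball {q z : Fin n → ℂ} {r : ℝ} {ξ : Fin n → ℝ} (hz : z ∈ ball q r)
    (hz' : scl ξ z ∈ ball q r) {s : ℝ} (hs : s ∈ Icc (0 : ℝ) 1) : scl (s • ξ) z ∈ ball q r := by
  have hr := pos_of_mem_ball hz
  rw [mem_ball, dist_pi_lt_iff hr] at hz hz' ⊢
  intro j
  have h1 : Convex ℝ {t : ℝ | t • z j ∈ ball (q j) r} :=
    (convex_ball (q j) r).linear_preimage (LinearMap.toSpanSingleton ℝ ℂ (z j))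
  have h2 := h1.ordConnected.uIcc_subset (x := Real.exp 0) (y := Real.exp (ξ j))
    (by simpa using hz j) (by simpa [scl] using hz' j)
  have h3 : s * ξ j ∈ uIcc 0 (ξ j) := by
    rcases le_total 0 (ξ j) with h | h
    · exact mem_uIcc_of_le (by nlinarith [hs.1]) (by nlinarith [hs.2])
    · exact mem_uIcc_of_ge (by nlinarith [hs.2]) (by nlinarith [hs.1])
  simpa [scl] using h2 (Real.exp_monotone.image_uIcc_subset (mem_image_of_mem _ h3))

lemma exists_push (hO : IsOpen D) {q : Fin n → ℂ} (hq : q ∈ frontier D) {ρ : (Fin n → ℂ) → ℝ}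
    (hρ : ContDiffAt ℝ 1 ρ q) (hL : fderiv ℝ ρ q ≠ 0) (hD : ∀ᶠ z in 𝓝 q, z ∈ D ↔ ρ z < 0) :
    ∃ (i : Fin n) (e : Fin n → ℂ) (δ : ℝ), (∀ j ≠ i, e j = 0) ∧ 0 < δ ∧
      (∀ w ∈ D ∩ ball q δ, ∀ τ ∈ Icc 0 δ, w + τ • e ∈ D) ∧ q - δ • e ∉ D ∧
      ∀ τ₀ > 0, ∃ r > 0, ∀ w ∈ ball q r, ∀ τ ∈ Icc τ₀ δ, w + τ • e ∈ D := by
  set L := fderiv ℝ ρ q
  obtain ⟨i, c, hc⟩ : ∃ i c, L (Pi.single i c) < 0 := by
    by_contra! h
    refine hL (ContinuousLinearMap.ext fun z => ?_)
    rw [← Finset.univ_sum_single z, map_sum]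
    refine Finset.sum_eq_zero fun i _ => le_antisymm ?_ (h i _)
    simpa [Pi.single_neg] using h i (-z i)
  set e : Fin n → ℂ := Pi.single i c
  have he : 0 < ‖e‖ := norm_pos_iff.2 fun h => by simp [h] at hc
  have h0 : ρ q = 0 := by
    rw [hO.frontier_eq] at hq
    refine le_antisymm ?_ (not_lt.1 fun h => hq.2 (hD.self_of_nhds.2 h))
    by_contra! h
    obtain ⟨z, hz, hz'⟩ := mem_closure_iff_nhds.1 hq.1 _
      (hD.and (hρ.continuousAt.eventually (lt_mem_nhds h)))
    exact lt_asymm hz.2 (hz.1.1 hz')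
  have h1 := (hρ.hasStrictFDerivAt one_ne_zero).isLittleO.def
    (c := -L e / (2 * ‖e‖)) (div_pos (neg_pos.2 hc) (by positivity))
  obtain ⟨ε, hε, hB⟩ := Metric.eventually_nhds_iff_ball.1 (h1.and
    ((continuous_fst.tendsto' (q, q) q rfl).eventually hD))
  have hB' : ∀ w ∈ ball q ε, (w ∈ D ↔ ρ w < 0) := fun w hw =>
    (hB (w, q) (by rw [← ball_prod_same]; exact ⟨hw, mem_ball_self hε⟩)).2
  have key : ∀ w ∈ ball q ε, ∀ τ : ℝ, 0 ≤ τ → w + τ • e ∈ ball q ε →
      ρ (w + τ • e) ≤ ρ w + τ * L e / 2 := fun w hw τ hτ hw' => by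
    have := (hB (w + τ • e, w) (by rw [← ball_prod_same]; exact ⟨hw', hw⟩)).1
    simp only [add_sub_cancel_left, map_smul, norm_smul, Real.norm_eq_abs, abs_of_nonneg hτ,
      smul_eq_mul] at this
    have h2 : -L e / (2 * ‖e‖) * (τ * ‖e‖) = -(τ * L e / 2) := by field_simp
    linarith [(abs_le.1 this).2]
  set δ := ε / (2 + ‖e‖)
  have hδ : 0 < δ := by positivity
  have hε' : ε = δ * 2 + δ * ‖e‖ := by simp only [δ]; field_simp
  have hb : ∀ w ∈ ball q δ, ∀ τ : ℝ, |τ| ≤ δ → w + τ • e ∈ ball q ε := fun w hw τ hτ => by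
    rw [mem_ball, dist_eq_norm] at hw ⊢
    rw [add_sub_right_comm]
    refine (norm_add_le _ _).trans_lt ?_
    rw [norm_smul, Real.norm_eq_abs]
    nlinarith
  have hb' : ball q δ ⊆ ball q ε := ball_subset_ball (by nlinarith)
  refine ⟨i, e, δ, fun j hj => Pi.single_eq_of_ne hj _, hδ, fun w hw τ hτ => ?_, fun h => ?_, fun τ₀ hτ₀ => ?_⟩
  · have h3 := hb w hw.2 τ (by rw [abs_of_nonneg hτ.1]; exact hτ.2)
    rw [hB' _ h3]
    nlinarith [key w (hb' hw.2) τ hτ.1 h3, (hB' w (hb' hw.2)).1 hw.1, hτ.1]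
  · have h3 := hb q (mem_ball_self hδ) (-δ) (by rw [abs_neg, abs_of_pos hδ])
    rw [neg_smul, ← sub_eq_add_neg] at h3
    have h4 := key _ h3 δ hδ.le (by simpa using hε)
    rw [sub_add_cancel] at h4
    nlinarith [(hB' _ h3).1 h]
  · obtain ⟨r, hr, h3⟩ := Metric.eventually_nhds_iff_ball.1 ((hρ.continuousAt.eventually
      (gt_mem_nhds (show ρ q < -(τ₀ * L e / 2) by nlinarith))).and (ball_mem_nhds q hδ))
    refine ⟨r, hr, fun w hw τ hτ => ?_⟩
    have h5 := hτ₀.le.trans hτ.1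
    have h4 := hb w (h3 w hw).2 τ (by rw [abs_of_nonneg h5]; exact hτ.2)
    rw [hB' _ h4]
    nlinarith [key w (hb' (h3 w hw).2) τ h5 h4, (h3 w hw).1, hτ.1]

lemma exists_bound {q : Fin n → ℂ} {i : Fin n}
    (hi : q i = 0 → m i ≠ 0 ∧ ∀ j ≠ i, q j = 0 → m j = 0) : ∃ r > 0, ∃ K : ℝ, ∀ z ∈ ball q r,
      ∀ ξ : Fin n → ℝ, ∑ j, m j * ξ j = 0 → scl ξ z ∈ ball q r → |ξ i| ≤ K := by
  have h0 : ∀ᶠ r in 𝓝[>] (0 : ℝ), ∀ j, q j ≠ 0 → r < ‖q j‖ / 2 := eventually_all.2 fun j => by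
    by_cases h : q j = 0
    · simp [h]
    · exact nhdsWithin_le_nhds ((gt_mem_nhds (by positivity)).mono fun _ h _ => h)
  obtain ⟨r, hr', hr⟩ := (h0.and self_mem_nhdsWithin).exists
  refine ⟨r, hr, 2 + ∑ j, |(m j : ℝ)| * 2, fun z hz ξ hξ hz' => ?_⟩
  rw [mem_ball, dist_pi_lt_iff hr] at hz hz'
  have h1 : ∀ j, q j ≠ 0 → |ξ j| ≤ 2 := fun j hj => by
    have a1 := (abs_norm_sub_norm_le _ _).trans_lt ((dist_eq_norm _ _).symm.trans_lt (hz j))
    have a2 := (abs_norm_sub_norm_le _ _).trans_lt ((dist_eq_norm _ _).symm.trans_lt (hz' j))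
    simp only [scl, norm_mul, norm_real, Real.norm_eq_abs, abs_of_pos (Real.exp_pos _),
      abs_lt] at a1 a2
    have a3 := hr' j hj
    have a4 := Real.add_one_le_exp (ξ j)
    have a5 := Real.add_one_le_exp (-ξ j)
    have a6 : Real.exp (ξ j) * Real.exp (-ξ j) = 1 := by rw [← Real.exp_add]; simp
    have a7 := Real.exp_pos (ξ j)
    have hr : 0 < r := hr
    rw [abs_le]
    constructor
    · by_contra! h
      have : Real.exp (ξ j) * 3 ≤ 1 := by nlinarith
      nlinarith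
    · by_contra! h
      nlinarith
  have h2 : 0 ≤ ∑ j, |(m j : ℝ)| * 2 := by positivity
  by_cases hq : q i = 0
  · obtain ⟨h3, h4⟩ := hi hq
    rw [← Finset.add_sum_erase _ _ (Finset.mem_univ i), add_eq_zero_iff_eq_neg] at hξ
    have h5 : (1 : ℝ) ≤ |(m i : ℝ)| := by exact_mod_cast Int.one_le_abs h3
    have h6 : |(m i : ℝ)| * |ξ i| ≤ ∑ j, |(m j : ℝ)| * 2 := by
      rw [← abs_mul, hξ, abs_neg]
      refine (Finset.abs_sum_le_sum_abs _ _).trans ((Finset.sum_le_sum fun j hj => ?_).trans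
        (Finset.sum_le_sum_of_subset_of_nonneg (Finset.erase_subset _ _)
          fun _ _ _ => by positivity))
      by_cases hj' : q j = 0
      · simp [h4 j (Finset.ne_of_mem_erase hj) hj']
      · rw [abs_mul]
        exact mul_le_mul_of_nonneg_left (h1 j hj') (abs_nonneg _)
    nlinarith [abs_nonneg (ξ i)]
  · linarith [h1 i hq]

/-- on the set `Q` the eigenfunctions transform by their weight under dilations -/
def Box (D : Set (Fin n → ℂ)) (m : Fin n → ℤ) (Q : Set (Fin n → ℂ)) : Prop :=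
  ∀ z ∈ D ∩ Q, ∀ ξ : Fin n → ℝ, ∑ j, m j * ξ j = 0 → scl ξ z ∈ D ∩ Q → ∀ f α, Eig D m f α →
    f (scl ξ z) = exp (∑ j, α j * ξ j : ℝ) * f z

lemma box_boundary (hO : IsOpen D)
    (hinv : ∀ θ : Fin n → ℝ, ∑ j, m j * θ j = 0 → ∀ z ∈ D, rot θ z ∈ D)
    {q : Fin n → ℂ} (hq : q ∈ frontier D) {ρ : (Fin n → ℂ) → ℝ}
    (hρ : ContDiffAt ℝ 1 ρ q) (hL : fderiv ℝ ρ q ≠ 0) (hD : ∀ᶠ z in 𝓝 q, z ∈ D ↔ ρ z < 0) :
    ∃ Q ∈ 𝓝 q, Box D m Q := by
  obtain ⟨i, e, δ, he, hδ, h1, h2, h3⟩ := exists_push hO hq hρ hL hD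
  have h4 : q i = 0 → ∀ θ : Fin n → ℝ, θ i = Real.pi → (∀ j, q j ≠ 0 → θ j = 0) →
      ∑ j, m j * θ j ≠ 0 := fun hi θ hθ hθ' h => by
    obtain ⟨r, hr, h5⟩ := h3 δ hδ
    have h6 := hinv θ h _ (h5 q (mem_ball_self hr) δ ⟨le_rfl, le_rfl⟩)
    refine h2 ((funext fun j => ?_ : rot θ (q + δ • e) = q - δ • e) ▸ h6)
    rcases eq_or_ne j i with rfl | hj
    · simp [rot, hθ, hi]
    · by_cases hj' : q j = 0
      · simp [rot, he j hj, hj']
      · simp [rot, he j hj, hθ' j hj']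
  obtain ⟨r₀, hr₀, K, hK⟩ := exists_bound (m := m) (q := q) (i := i) fun hi => by
    constructor
    · intro h
      refine h4 hi (Pi.single i Real.pi) (by simp) (fun j hj => Pi.single_eq_of_ne ?_ _)
        (by simp [Pi.single_apply, h])
      rintro rfl
      exact hj hi
    · intro j hj hj'
      by_contra h
      have h' : (m j : ℝ) ≠ 0 := by exact_mod_cast h
      refine h4 hi (Pi.single i Real.pi - Pi.single j (Real.pi * m i / m j)) (by simp [hj.symm])
        (fun k hk => ?_) ?_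
      · have a1 : k ≠ i := by rintro rfl; exact hk hi
        have a2 : k ≠ j := by rintro rfl; exact hk hj'
        simp [a1, a2]
      · simp [Pi.single_apply, mul_sub]
        field_simp
        simp
  set t₀ := δ * Real.exp (-K)
  have ht₀ : 0 < t₀ := by positivity
  obtain ⟨r, hr, h5⟩ := h3 (t₀ / 2 * Real.exp (-K)) (by positivity)
  refine ⟨ball q (min r (min r₀ δ)), ball_mem_nhds _ (by positivity),
    fun z hz ξ hξ hz' f α hf => ?_⟩
  have s1 : ball q (min r (min r₀ δ)) ⊆ ball q δ :=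
    ball_subset_ball ((min_le_right _ _).trans (min_le_right _ _))
  have s2 : ball q (min r (min r₀ δ)) ⊆ ball q r₀ :=
    ball_subset_ball ((min_le_right _ _).trans (min_le_left _ _))
  have hk := hK z (s2 hz.2) ξ hξ (s2 hz'.2)
  have h6 : ∀ (η : Fin n → ℝ) (t : ℝ), scl η (z + t • e) = scl η z + (t * Real.exp (η i)) • e := by
    intro η t
    funext j
    rcases eq_or_ne j i with rfl | hj
    · simp [scl]; ring
    · simp [scl, he j hj]
  have h7 : ∀ x : ℝ, |x| ≤ K → ∀ t ≤ t₀, t * Real.exp x ≤ δ := fun x hx t ht => by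
    have : Real.exp (-K) * Real.exp x ≤ 1 := by
      rw [← Real.exp_add, Real.exp_le_one_iff]
      linarith [(abs_le.1 hx).2]
    calc t * Real.exp x ≤ t₀ * Real.exp x := by gcongr
      _ = δ * (Real.exp (-K) * Real.exp x) := mul_assoc _ _ _
      _ ≤ δ := mul_le_of_le_one_right hδ.le this
  let G : ℝ → ℂ := fun t => f (scl ξ z + (t * Real.exp (ξ i)) • e) -
    exp (∑ j, α j * ξ j : ℝ) * f (z + t • e)
  have hA := (osgood hO hf.1).restrictScalars (𝕜 := ℝ)
  have hG : AnalyticOnNhd ℝ G (Icc 0 t₀) := fun t ht =>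
    ((hA _ (h1 _ ⟨hz'.1, s1 hz'.2⟩ _ ⟨mul_nonneg ht.1 (Real.exp_pos _).le,
      h7 _ hk t ht.2⟩)).comp_of_eq (f := fun t : ℝ => scl ξ z + (t * Real.exp (ξ i)) • e)
      (by fun_prop) rfl).sub (analyticAt_const.mul ((hA _ (h1 _ ⟨hz.1, s1 hz.2⟩ _
        ⟨ht.1, by simpa using h7 0 ((abs_nonneg _).trans' (by simp) |>.trans hk) t ht.2⟩)).comp_of_eq
        (f := fun t : ℝ => z + t • e) (by fun_prop) rfl))
  have h8 := hG.eqOn_zero_of_preconnected_of_eventuallyEq_zero isPreconnected_Icc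
    (z₀ := 3 / 4 * t₀) ⟨by positivity, by linarith⟩ ?_ (left_mem_Icc.2 ht₀.le)
  · simpa [G, sub_eq_zero] using h8
  filter_upwards [Icc_mem_nhds (show t₀ / 2 < 3 / 4 * t₀ by linarith)
    (show 3 / 4 * t₀ < t₀ by linarith)] with t ht
  rw [Pi.zero_apply, sub_eq_zero, ← h6]
  refine hf.scl_eq hO hξ fun s hs => ?_
  have h9 : |(s • ξ) i| ≤ K := by
    rw [Pi.smul_apply, smul_eq_mul, abs_mul, abs_of_nonneg hs.1]
    nlinarith [hs.2, abs_nonneg (ξ i)]
  rw [h6]
  exact h5 _ (ball_subset_ball (min_le_left _ _) (scl_mem_ball hz.2 hz'.2 hs)) _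
    ⟨mul_le_mul ht.1 (Real.exp_le_exp.2 (abs_le.1 h9).1) (Real.exp_pos _).le
      (by linarith [ht.1]), h7 _ h9 t ht.2⟩

theorem exists_boxes (hO : IsOpen D) (hb : Bornology.IsBounded D)
    (hinv : ∀ θ : Fin n → ℝ, ∑ j, m j * θ j = 0 → ∀ z ∈ D, rot θ z ∈ D)
    (hρ : ∀ q ∈ frontier D, ∃ ρ : (Fin n → ℂ) → ℝ, ContDiffAt ℝ 1 ρ q ∧ fderiv ℝ ρ q ≠ 0 ∧
      ∀ᶠ z in 𝓝 q, z ∈ D ↔ ρ z < 0) :
    ∃ (M : ℕ) (Q : Fin M → Set (Fin n → ℂ)), (∀ i, Box D m (Q i)) ∧ ∀ z ∈ D, ∃ i, z ∈ Q i := by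
  have h : ∀ q ∈ closure D, ∃ Q ∈ 𝓝 q, Box D m Q := fun q hq => by
    by_cases hq' : q ∈ D
    · obtain ⟨r, hr, h1⟩ := Metric.isOpen_iff.1 hO q hq'
      exact ⟨ball q r, ball_mem_nhds q hr, fun z hz ξ hξ hz' f α hf =>
        hf.scl_eq hO hξ fun s hs => h1 (scl_mem_ball hz.2 hz'.2 hs)⟩
    · have h1 : q ∈ frontier D := hO.frontier_eq ▸ ⟨hq, hq'⟩
      obtain ⟨ρ, h2, h3, h4⟩ := hρ q h1
      exact box_boundary hO hinv h1 h2 h3 h4
  choose! Q hQ hQ' using h
  obtain ⟨t, ht, ht'⟩ := hb.isCompact_closure.elim_nhds_subcover Q hQ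
  refine ⟨t.card, fun i => Q (t.equivFin.symm i), fun i => hQ' _ (ht _ (Finset.coe_mem _)),
    fun z hz => ?_⟩
  obtain ⟨q, hq, hz'⟩ := mem_iUnion₂.1 (ht' (subset_closure hz))
  exact ⟨t.equivFin ⟨q, hq⟩, by simpa using hz'⟩

end Pool.Agent.MP_bea40e_an

end

-- part MP_bea40e_an.Div
section

open Filter Topology Set Metric Complex

namespace Pool.Agent.MP_bea40e_an

open Pool.Agent.Lib.SCV

universe u

lemma div_one_var {U : Set ℂ} (hU : IsOpen U) {φ : ℂ → ℂ} (hφ : DifferentiableOn ℂ φ U) (d : ℕ) :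
    ∀ Q : Polynomial ℂ, Q ≠ 0 → Q.natDegree ≤ d → (∀ ζ ∈ U, Q.eval ζ = 0 → φ ζ = 0) →
      ∃ q, DifferentiableOn ℂ q U ∧ ∀ ζ ∈ U, φ ζ ^ d = Q.eval ζ * q ζ := by
  induction d with
  | zero =>
    intro Q hQ hd _
    rw [Polynomial.eq_C_of_natDegree_le_zero hd] at hQ ⊢
    exact ⟨fun _ => (Q.coeff 0)⁻¹, differentiableOn_const _, fun ζ _ => by
      rw [pow_zero, Polynomial.eval_C, mul_inv_cancel₀ (Polynomial.C_ne_zero.1 hQ)]⟩
  | succ d ih =>
    intro Q hQ hd h0
    by_cases hd' : Q.natDegree ≤ d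
    · obtain ⟨q, hq, hq'⟩ := ih Q hQ hd' h0
      exact ⟨fun ζ => q ζ * φ ζ, hq.mul hφ, fun ζ hζ => by rw [pow_succ, hq' ζ hζ, mul_assoc]⟩
    obtain ⟨a, ha⟩ := IsAlgClosed.exists_root Q
      (Polynomial.natDegree_pos_iff_degree_pos.1 (by omega)).ne'
    obtain ⟨Q₁, rfl⟩ := Polynomial.dvd_iff_isRoot.2 ha
    have h1 : Q₁ ≠ 0 := right_ne_zero_of_mul hQ
    rw [Polynomial.natDegree_mul (Polynomial.X_sub_C_ne_zero a) h1,
      Polynomial.natDegree_X_sub_C] at hd
    obtain ⟨q, hq, hq'⟩ := ih Q₁ h1 (by omega) fun ζ hζ e => h0 ζ hζ (by simp [e])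
    obtain ⟨ψ, hψ, hψ'⟩ : ∃ ψ, DifferentiableOn ℂ ψ U ∧ ∀ ζ ∈ U, φ ζ = (ζ - a) * ψ ζ := by
      by_cases haU : a ∈ U
      · refine ⟨dslope φ a, (differentiableOn_dslope (hU.mem_nhds haU)).2 hφ, fun ζ _ => ?_⟩
        rw [← smul_eq_mul, sub_smul_dslope, h0 a haU ha, sub_zero]
      · have : ∀ ζ ∈ U, ζ - a ≠ 0 := fun ζ hζ e => haU (sub_eq_zero.1 e ▸ hζ)
        exact ⟨fun ζ => φ ζ / (ζ - a), hφ.div (by fun_prop) this, fun ζ hζ =>
          (mul_div_cancel₀ _ (this ζ hζ)).symm⟩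
    refine ⟨fun ζ => q ζ * ψ ζ, hq.mul hψ, fun ζ hζ => ?_⟩
    rw [pow_succ, hq' ζ hζ, hψ' ζ hζ]
    simp only [Polynomial.eval_mul, Polynomial.eval_sub, Polynomial.eval_X, Polynomial.eval_C]
    ring

open MvPolynomial

variable {n : ℕ} {D : Set (Fin n → ℂ)} {F : MvPolynomial (Fin n) ℂ} {b : Fin n → ℂ}

lemma analyticAt_eval (F : MvPolynomial (Fin n) ℂ) (z : Fin n → ℂ) :
    AnalyticAt ℂ (fun z => eval z F) z := AnalyticOnNhd.eval_mvPolynomial F z (mem_univ _)

lemma frequently_ne (hb : eval b F ≠ 0) (y : Fin n → ℂ) : ∃ᶠ w in 𝓝 y, eval w F ≠ 0 := by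
  intro h
  exact hb ((AnalyticOnNhd.eval_mvPolynomial F).eqOn_zero_of_preconnected_of_eventuallyEq_zero
    isPreconnected_univ (mem_univ y) (h.mono fun w hw => not_not.1 hw) (mem_univ b))

lemma exists_slice (F : MvPolynomial (Fin n) ℂ) (y v : Fin n → ℂ) : ∃ Q : Polynomial ℂ,
    Q.natDegree ≤ F.totalDegree ∧ ∀ ζ, Q.eval ζ = eval (y + ζ • v) F := by
  refine ⟨aeval (fun j => Polynomial.C (v j) * Polynomial.X + Polynomial.C (y j)) F,
    (aeval_natDegree_le F le_rfl _ fun _ => Polynomial.natDegree_linear_le).trans (mul_one _).le,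
    fun ζ => ?_⟩
  induction F using MvPolynomial.induction_on with
  | C a => simp
  | add p q hp hq => simp [hp, hq]
  | mul_X p j hp => simp [hp, mul_comm ζ, add_comm (y j)]

lemma exists_div_local (hO : IsOpen D) (hb : eval b F ≠ 0) {H : (Fin n → ℂ) → ℂ}
    (hH : DifferentiableOn ℂ H D) (h0 : ∀ z ∈ D, eval z F = 0 → H z = 0) {a : Fin n → ℂ}
    (ha : a ∈ D) : ∃ g, AnalyticAt ℂ g a ∧ ∀ᶠ y in 𝓝 a, H y ^ F.totalDegree = eval y F * g y := by
  set v := b - a
  have hl : ∀ q : ℂ × (Fin n → ℂ), AnalyticAt ℂ (fun q : ℂ × (Fin n → ℂ) => q.2 + q.1 • v) q :=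
    fun q => analyticAt_snd.add (analyticAt_fst.smul analyticAt_const)
  have h1 : AnalyticOnNhd ℂ (fun ζ : ℂ => eval (a + ζ • v) F) univ := fun ζ _ =>
    (analyticAt_eval F _).comp (f := fun ζ : ℂ => a + ζ • v) (by fun_prop)
  have h2 : ∀ᶠ ζ in 𝓝[≠] (0 : ℂ), eval (a + ζ • v) F ≠ 0 :=
    (h1 0 (mem_univ _)).eventually_eq_zero_or_eventually_ne_zero.resolve_left fun h => hb (by
      simpa [v] using h1.eqOn_zero_of_preconnected_of_eventuallyEq_zero isPreconnected_univ
        (mem_univ 0) h (mem_univ 1))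
  have h3 : ∀ᶠ ζ in 𝓝 (0 : ℂ), a + ζ • v ∈ D :=
    ContinuousAt.eventually_mem (by fun_prop) (by simpa using hO.mem_nhds ha)
  obtain ⟨r, hr, hB⟩ := nhds_basis_closedBall.eventually_iff.1
    (h3.and (eventually_nhdsWithin_iff.1 h2))
  have hS : ∀ ζ ∈ sphere (0 : ℂ) r, eval (a + ζ • v) F ≠ 0 := fun ζ hζ =>
    (hB (sphere_subset_closedBall hζ)).2 (ne_of_mem_sphere hζ hr.ne')
  refine ⟨fun y => (2 * Real.pi * I)⁻¹ * ∮ ζ in C(0, r),
    ζ⁻¹ * (H (y + ζ • v) ^ F.totalDegree / eval (y + ζ • v) F), analyticAt_const.mul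
      (analyticAt_circleIntegral (H := fun q : ℂ × (Fin n → ℂ) => q.1⁻¹ *
        (H (q.2 + q.1 • v) ^ F.totalDegree / eval (q.2 + q.1 • v) F)) hr fun ζ hζ =>
      (analyticAt_fst.inv (ne_of_mem_sphere hζ hr.ne')).mul
        ((((osgood hO hH _ (hB (sphere_subset_closedBall hζ)).1).comp_of_eq (hl _) rfl).pow _).div
          ((analyticAt_eval F _).comp_of_eq (hl _) rfl) (hS ζ hζ))), ?_⟩
  have hc : Continuous fun q : (Fin n → ℂ) × ℂ => q.1 + q.2 • v := by fun_prop
  have h4 := (isCompact_closedBall (0 : ℂ) r).eventually_forall_of_forall_eventually (x₀ := a)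
    (P := fun y ζ => y + ζ • v ∈ D) fun ζ hζ =>
      hc.continuousAt.eventually_mem (hO.mem_nhds (hB hζ).1)
  have h5 := (isCompact_sphere (0 : ℂ) r).eventually_forall_of_forall_eventually (x₀ := a)
    (P := fun y ζ => eval (y + ζ • v) F ≠ 0) fun ζ hζ =>
      (((MvPolynomial.continuous_eval F).comp hc).continuousAt).eventually_ne (hS ζ hζ)
  filter_upwards [h4, h5] with y hy hy'
  obtain ⟨Q, hQ, hQ'⟩ := exists_slice F y v
  obtain ⟨q, hq, hq'⟩ := div_one_var (U := {ζ : ℂ | y + ζ • v ∈ D})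
    (hO.preimage (f := fun ζ : ℂ => y + ζ • v) (by fun_prop))
    (φ := fun ζ => H (y + ζ • v)) (hH.comp (by fun_prop) fun _ h => h) _ Q
    (fun e => hy' r (by simp [hr.le]) (by rw [← hQ', e, Polynomial.eval_zero])) hQ
    fun ζ hζ e => h0 _ hζ (hQ' ζ ▸ e)
  have h6 := (hq.mono hy).circleIntegral_sub_inv_smul (mem_ball_self hr)
  rw [circleIntegral.integral_congr hr.le (g := fun ζ => (ζ - 0)⁻¹ • q ζ) fun ζ hζ => by
    simp only [hq' ζ (hy ζ (sphere_subset_closedBall hζ)), hQ', sub_zero, smul_eq_mul,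
      mul_div_cancel_left₀ _ (hy' ζ hζ)], h6, smul_eq_mul, inv_mul_cancel_left₀ two_pi_I_ne_zero]
  simpa [hQ'] using hq' 0 (hy 0 (mem_closedBall_self hr.le))

theorem exists_div_pow (hO : IsOpen D) (hb : eval b F ≠ 0) {H : (Fin n → ℂ) → ℂ}
    (hH : DifferentiableOn ℂ H D) (h0 : ∀ z ∈ D, eval z F = 0 → H z = 0) :
    ∃ g, DifferentiableOn ℂ g D ∧ ∀ z ∈ D, H z ^ F.totalDegree = eval z F * g z := by
  choose! g hg hg' using fun a => exists_div_local hO hb hH h0 (a := a)
  refine ⟨fun y => g y y, fun a ha => ((hg a ha).congr ?_).differentiableAt.differentiableWithinAt,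
    fun z hz => (hg' z hz).self_of_nhds⟩
  filter_upwards [(hg a ha).eventually_analyticAt, (hg' a ha).eventually_nhds, hO.mem_nhds ha]
    with y h1 h2 hy
  refine tendsto_nhds_unique_of_frequently_eq h1.continuousAt (hg y hy).continuousAt
    (((frequently_ne hb y).and_eventually (h2.and (hg' y hy))).mono ?_)
  rintro w ⟨hw, e, e'⟩
  exact mul_left_cancel₀ hw (e.symm.trans e')

theorem IsExt.ext_eq_zero {X : Type u} [TopologicalSpace X] {π : X → Fin n → ℂ} {ι : D → X}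
    (h : IsExt D π ι) (hO : IsOpen D) (hb : eval b F ≠ 0) {H : (Fin n → ℂ) → ℂ}
    (hH : DifferentiableOn ℂ H D) (h0 : ∀ z ∈ D, eval z F = 0 → H z = 0) {x : X}
    (hx : eval (π x) F = 0) : h.ext H x = 0 := by
  obtain ⟨g, hg, hg'⟩ := exists_div_pow hO hb hH h0
  have hF : Differentiable ℂ fun z => eval z F := fun z => (analyticAt_eval F z).differentiableAt
  have h1 := h.ext_prod (Finset.range F.totalDegree) (F := fun _ => H) (fun _ _ => hH) x
  rw [h.ext_congr (hF.differentiableOn.fun_mul hg) fun z hz => by simpa using hg' z hz,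
    h.ext_mul hF.differentiableOn hg, h.ext_entire hF, hx, zero_mul] at h1
  exact (Finset.prod_eq_zero_iff.1 h1.symm).choose_spec.2

end Pool.Agent.MP_bea40e_an

end

-- part MP_bea40e_an.Sep
section

open Filter Topology Set Function Metric

namespace Pool.Agent.MP_bea40e_an

universe u

variable {n : ℕ} {D : Set (Fin n → ℂ)} {X : Type u} [TopologicalSpace X] {π : X → Fin n → ℂ}
  {ι : D → X}

/-- points not separated by the extended functions -/
def IsExt.setoid (h : IsExt D π ι) : Setoid X where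
  r x y := ∀ f, DifferentiableOn ℂ f D → h.ext f x = h.ext f y
  iseqv := ⟨fun _ _ _ => rfl, fun e f hf => (e f hf).symm,
    fun e e' f hf => (e f hf).trans (e' f hf)⟩

lemma IsExt.pi_eq (h : IsExt D π ι) {x y : X} (e : h.setoid x y) : π x = π y := by
  funext j
  have hj : Differentiable ℂ fun z : Fin n → ℂ => z j := differentiable_apply j
  have := e _ hj.differentiableOn
  rwa [h.ext_entire hj, h.ext_entire hj] at this

lemma IsExt.isOpenMap_mk (h : IsExt D π ι) (hO : IsOpen D) :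
    IsOpenMap (Quotient.mk h.setoid) := by
  intro U hU
  rw [← isQuotientMap_quotient_mk'.isOpen_preimage, isOpen_iff_mem_nhds]
  rintro y ⟨x, hx, e⟩
  have e' : h.setoid x y := Quotient.exact e
  obtain ⟨r, hr, σ, hσ, hσx⟩ := exists_chart h.1 x
  obtain ⟨r', hr', τ, hτ, hτy⟩ := exists_chart h.1 y
  rw [← h.pi_eq e'] at hτ hτy
  have hm : 0 < min r r' := lt_min hr hr'
  have hc : Tendsto π (𝓝 y) (𝓝 (π x)) := h.pi_eq e' ▸ h.1.continuous.continuousAt
  have h1 := hτ.left _ (mem_ball_self hr')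
  rw [hτy] at h1
  have h2 : ∀ᶠ z in 𝓝 (π x), σ z ∈ U :=
    (hσ.cont _ (mem_ball_self hr)).eventually (hU.mem_nhds (hσx.symm ▸ hx))
  filter_upwards [h1, hc.eventually h2, hc.eventually (ball_mem_nhds _ hm)] with w a1 a2 a3
  refine ⟨σ (π w), a2, Quotient.sound (s := h.setoid) fun f hf => ?_⟩
  have := h.local_eq hO (hσ.mono (min_le_left r r')) (hτ.mono (min_le_right r r'))
    (fun f hf => by rw [hσx, hτy]; exact e' f hf) a3 hf
  rwa [a1] at this

/-- holomorphic functions separate the points of the envelope -/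
theorem IsEnvelope.separates [T2Space X] [ConnectedSpace X] (H : IsEnvelope D π ι) (hO : IsOpen D)
    (hD : D.Nonempty) {x y : X} (e : ∀ f, DifferentiableOn ℂ f D → H.1.ext f x = H.1.ext f y) :
    x = y := by
  obtain ⟨h, hmax⟩ := H
  let Y := Quotient h.setoid
  let q : X → Y := Quotient.mk h.setoid
  have qc : Continuous q := continuous_quotient_mk'
  have qo : IsOpenMap q := h.isOpenMap_mk hO
  have qs : Surjective q := Quotient.mk_surjective
  have qn : ∀ x, map q (𝓝 x) = 𝓝 (q x) := fun x => qo.map_nhds_eq qc.continuousAt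
  let π' : Y → Fin n → ℂ := Quotient.lift π fun _ _ e => h.pi_eq e
  have πc : Continuous π' := h.1.continuous.quotient_lift _
  let L : ∀ f : {f : (Fin n → ℂ) → ℂ // DifferentiableOn ℂ f D}, Y → ℂ := fun f =>
    Quotient.lift (h.ext f.1) fun _ _ e => e f.1 f.2
  have : T2Space Y := by
    refine T2Space.of_injective_continuous (f := fun w f => L f w) ?_ (continuous_pi fun f => ?_)
    · intro a b hab
      obtain ⟨a, rfl⟩ := qs a
      obtain ⟨b, rfl⟩ := qs b
      exact Quotient.sound fun f hf => congrFun hab ⟨f, hf⟩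
    · exact ((h.ext_spec f.2).1.continuous h.1.continuous).quotient_lift _
  have : ConnectedSpace Y := qs.connectedSpace qc
  have πo : IsOpenMap π' := by
    intro W hW
    have : π' '' W = π '' (q ⁻¹' W) := by
      conv_lhs => rw [← image_preimage_eq W qs, image_image]
      rfl
    rw [this]
    exact h.1.isOpenMap _ (hW.preimage qc)
  have πl : IsLocalHomeomorph π' := by
    rw [isLocalHomeomorph_iff_isOpenEmbedding_restrict]
    intro w
    obtain ⟨a, rfl⟩ := qs w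
    obtain ⟨U, hU, haU, hinj⟩ := h.1.isLocallyInjective a
    refine ⟨q '' U, (qo U hU).mem_nhds (mem_image_of_mem q haU),
      .of_continuous_injective_isOpenMap (πc.comp continuous_subtype_val) ?_
        (πo.comp (qo U hU).isOpenMap_subtype_val)⟩
    rintro ⟨_, b, hb, rfl⟩ ⟨_, c, hc, rfl⟩ hbc
    have : b = c := hinj hb hc hbc
    subst this
    rfl
  have hY : IsExt D π' (q ∘ ι) := by
    refine ⟨πl, qc.comp h.2.1, h.2.2.1, fun f hf => ⟨L ⟨f, hf⟩, ⟨fun w => ?_,
      (h.ext_spec hf).2⟩, fun G hG => ?_⟩⟩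
    · obtain ⟨a, rfl⟩ := qs w
      obtain ⟨g, hg, hg'⟩ := (h.ext_spec hf).1 a
      exact ⟨g, hg, by rw [← qn, eventually_map]; exact hg'⟩
    · have h1 : h.ext f = G ∘ q := h.ext_eq hf (fun a => by
        obtain ⟨g, hg, hg'⟩ := hG.1 (q a)
        exact ⟨g, hg, qc.continuousAt.eventually hg'⟩) hG.2
      funext w
      obtain ⟨a, rfl⟩ := qs w
      exact (congrFun h1 a).symm
  obtain ⟨φ, φc, φπ, φι⟩ := hmax Y π' (q ∘ ι) hY
  obtain ⟨z, hz⟩ := hD
  have h1 : φ ∘ q = id := (T2Space.isSeparatedMap π).eq_of_comp_eq h.1.isLocallyInjective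
    (φc.comp qc) continuous_id (funext fun a => φπ (q a)) (ι ⟨z, hz⟩) (φι ⟨z, hz⟩)
  have h2 : q x = q y := Quotient.sound e
  exact (congrFun h1 x).symm.trans ((congrArg φ h2).trans (congrFun h1 y))

end Pool.Agent.MP_bea40e_an

end

-- part MP_bea40e_an.Main
section

open Filter Topology Set Metric Complex MvPolynomial

namespace Pool.Agent.MP_bea40e_an

universe u

variable {n : ℕ} {D : Set (Fin n → ℂ)} {m u : Fin n → ℤ}

/-- the monomial of the positive part of `α` -/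
noncomputable def mon (α : Fin n → ℤ) : MvPolynomial (Fin n) ℂ := ∏ j, X j ^ (α j).toNat

lemma eval_mon (α : Fin n → ℤ) {z : Fin n → ℂ} (hz : ∀ j, z j ≠ 0) :
    eval z (mon (-α)) ≠ 0 ∧ eval z (mon α) = eval z (mon (-α)) * ∏ j, z j ^ α j := by
  simp only [mon, map_prod, map_pow, eval_X, ← Finset.prod_mul_distrib]
  refine ⟨Finset.prod_ne_zero_iff.2 fun j _ => pow_ne_zero _ (hz j),
    Finset.prod_congr rfl fun j _ => ?_⟩
  rw [← zpow_natCast, ← zpow_natCast, ← zpow_add₀ (hz j)]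
  congr 1
  simp only [Pi.neg_apply]
  omega

lemma prod_exp (α : Fin n → ℤ) (c z : Fin n → ℂ) :
    ∏ j, (exp (c j) * z j) ^ α j = exp (∑ j, α j * c j) * ∏ j, z j ^ α j := by
  simp only [mul_zpow, Finset.prod_mul_distrib, exp_sum, exp_int_mul]

lemma prod_rot_scl (α : Fin n → ℤ) (θ ξ : Fin n → ℝ) (z : Fin n → ℂ) :
    ∏ j, rot θ (scl ξ z) j ^ α j =
      exp ((∑ j, α j * θ j : ℝ) * I) * (exp (∑ j, α j * ξ j : ℝ) * ∏ j, z j ^ α j) := by
  simp only [rot, scl, ofReal_exp, prod_exp]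
  simp [Finset.sum_mul, mul_assoc]

lemma exists_orbit (hu : ∑ j, m j * u j = 1) {p z : Fin n → ℂ} (hp : ∀ j, p j ≠ 0)
    (hz : ∀ j, z j ≠ 0) (h : ∏ j, z j ^ m j = ∏ j, p j ^ m j) : ∃ θ ξ : Fin n → ℝ,
      ∑ j, m j * θ j = 0 ∧ ∑ j, m j * ξ j = 0 ∧ z = rot θ (scl ξ p) := by
  let w : Fin n → ℂ := fun j => log (z j / p j)
  have hw : ∀ j, z j = exp (w j) * p j := fun j => by
    rw [exp_log (div_ne_zero (hz j) (hp j)), div_mul_cancel₀ _ (hp j)]
  rw [Finset.prod_congr rfl fun j _ => by rw [hw j], prod_exp, mul_eq_right₀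
    (Finset.prod_ne_zero_iff.2 fun j _ => zpow_ne_zero _ (hp j)), exp_eq_one_iff] at h
  obtain ⟨k, hk⟩ := h
  have hu' : ∑ j, (m j : ℝ) * u j = 1 := by exact_mod_cast hu
  refine ⟨fun j => (w j).im - k * (2 * Real.pi) * u j, fun j => (w j).re, ?_, ?_,
    funext fun j => ?_⟩
  · have := congrArg im hk
    simp only [mul_sub, Finset.sum_sub_distrib, mul_left_comm _ (k * (2 * Real.pi)),
      ← Finset.mul_sum, hu']
    simpa [sub_eq_zero] using this
  · simpa using congrArg re hk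
  · rw [hw j, rot, scl, ofReal_exp, ← mul_assoc, ← exp_add]
    congr 1
    refine exp_eq_exp_iff_exists_int.2 ⟨k * u j, ?_⟩
    nth_rw 1 [← re_add_im (w j)]
    push_cast
    ring

variable {X : Type u} [TopologicalSpace X] {π : X → Fin n → ℂ} {ι : D → X}

lemma IsExt.exists_box (h : IsExt D π ι) (hO : IsOpen D) (hu : ∑ j, m j * u j = 1)
    (hinv : ∀ θ : Fin n → ℝ, ∑ j, m j * θ j = 0 → ∀ z ∈ D, rot θ z ∈ D) {M : ℕ}
    {Q : Fin M → Set (Fin n → ℂ)} (hQ : ∀ i, Box D m (Q i)) (hc : ∀ z ∈ D, ∃ i, z ∈ Q i)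
    {p : Fin n → ℂ} (hp : ∀ j, p j ≠ 0) : ∃ Ψ : Fin M → ((Fin n → ℂ) → ℂ) → (Fin n → ℤ) → ℂ,
      ∀ x, π x = p → ∃ i, ∀ f α, Eig D m f α → h.ext f x = Ψ i f α := by
  classical
  have hE := fun (F : MvPolynomial (Fin n) ℂ) z => (analyticAt_eval F z).differentiableAt
  choose! ξ₀ h₀ h₀' using fun (i : Fin M)
    (hi : ∃ ξ : Fin n → ℝ, ∑ j, m j * ξ j = 0 ∧ scl ξ p ∈ D ∩ Q i) => hi
  refine ⟨fun i f α => f (scl (ξ₀ i) p) / exp (∑ j, α j * ξ₀ i j : ℝ), fun x hx => ?_⟩
  by_contra! hne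
  choose f α hf hne using hne
  let g : Fin M → (Fin n → ℂ) → ℂ := fun i z => eval z (mon (-α i)) * f i z -
    eval z (C (f i (scl (ξ₀ i) p) / exp (∑ j, α i j * ξ₀ i j : ℝ) / ∏ j, p j ^ α i j) * mon (α i))
  have d1 := fun i => (Differentiable.differentiableOn (hE (mon (-α i)))).fun_mul (hf i).1
  have hg : ∀ i, DifferentiableOn ℂ (g i) D := fun i =>
    (d1 i).fun_sub (Differentiable.differentiableOn (hE _))
  have hP := fun β : Fin n → ℤ => Finset.prod_ne_zero_iff (s := Finset.univ).2 fun j _ =>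
    zpow_ne_zero (β j) (hp j)
  have hgx : ∀ i, h.ext (g i) x ≠ 0 := fun i => by
    rw [h.ext_sub (d1 i) (Differentiable.differentiableOn (hE _)),
      h.ext_mul (Differentiable.differentiableOn (hE _)) (hf i).1, h.ext_entire (hE _),
      h.ext_entire (hE _), hx, map_mul, eval_C, (eval_mon (α i) hp).2, mul_left_comm,
      div_mul_cancel₀ _ (hP _), ← mul_sub]
    exact mul_ne_zero (eval_mon _ hp).1 (sub_ne_zero.2 (hne i))
  let F : MvPolynomial (Fin n) ℂ := mon m - C (∏ j, p j ^ m j) * mon (-m)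
  have hF : ∀ z : Fin n → ℂ, (∀ j, z j ≠ 0) →
      (eval z F = 0 ↔ ∏ j, z j ^ m j = ∏ j, p j ^ m j) := fun z hz => by
    rw [map_sub, map_mul, eval_C, (eval_mon m hz).2, mul_comm, ← sub_mul,
      mul_eq_zero_iff_right (eval_mon m hz).1, sub_eq_zero]
  have hT : ∀ θ ξ j, rot θ (scl ξ p) j ≠ 0 := fun θ ξ j => by simp [rot, scl, hp]
  have h1 := h.ext_eq_zero hO (F := F) (b := rot 0 (scl (fun j => u j) p))
    (H := fun z => eval z (mon (-fun _ => -1)) * ∏ i, g i z) ?_
    ((Differentiable.differentiableOn (hE _)).fun_mul (diffOn_prod _ fun i _ => hg i))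
    (fun z hz e => ?_) (x := x) (hx ▸ (hF p hp).2 rfl)
  · rw [h.ext_mul (Differentiable.differentiableOn (hE _)) (diffOn_prod _ fun i _ => hg i),
      h.ext_entire (hE _), h.ext_prod _ fun i _ => hg i, hx] at h1
    exact mul_ne_zero (eval_mon _ hp).1 (Finset.prod_ne_zero_iff.2 fun i _ => hgx i) h1
  · have hu' : ∑ j, (m j : ℝ) * u j = 1 := by exact_mod_cast hu
    rw [Ne, hF _ (hT _ _), prod_rot_scl, hu', ← mul_assoc, mul_eq_right₀ (hP _)]
    intro e
    simpa [-ofReal_one, norm_exp_ofReal] using congrArg norm e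
  by_cases hz' : ∀ j, z j ≠ 0
  swap
  · push Not at hz'
    obtain ⟨j, hj⟩ := hz'
    refine mul_eq_zero_of_left ?_ _
    rw [mon, map_prod]
    exact Finset.prod_eq_zero (Finset.mem_univ j) (by simp [hj])
  obtain ⟨θ, ξ, hθ, hξ, rfl⟩ := exists_orbit hu hp hz' ((hF z hz').1 e)
  have h2 : scl ξ p ∈ D := by
    have := hinv (-θ) (by simp [hθ]) _ hz
    rwa [rot_rot, neg_add_cancel, rot_zero] at this
  obtain ⟨i, hi⟩ := hc _ h2
  have h3 : scl (ξ - ξ₀ i) (scl (ξ₀ i) p) = scl ξ p := by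
    funext j
    simp [scl, ← mul_assoc, ← exp_add]
  have h4 := hQ i _ (h₀' i ⟨ξ, hξ, h2, hi⟩) (ξ - ξ₀ i)
    (by simp [mul_sub, hξ, h₀ i ⟨ξ, hξ, h2, hi⟩]) (h3 ▸ ⟨h2, hi⟩) _ _ (hf i)
  refine mul_eq_zero_of_right _ (Finset.prod_eq_zero (Finset.mem_univ i) ?_)
  simp only [g, map_mul, eval_C, (eval_mon (α i) hz').2, prod_rot_scl, (hf i).2 θ hθ _ h2]
  rw [← h3, h4, h3]
  simp only [Pi.sub_apply, mul_sub, Finset.sum_sub_distrib, ofReal_sub, exp_sub]
  have := hP (α i)
  field_simp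
  ring

theorem IsExt.encard_le [T2Space X] [ConnectedSpace X] (h : IsExt D π ι) (hO : IsOpen D)
    (hs : ∀ x y, (∀ f, DifferentiableOn ℂ f D → h.ext f x = h.ext f y) → x = y)
    (hD : D.Nonempty) (hu : ∑ j, m j * u j = 1)
    (hinv : ∀ θ : Fin n → ℝ, ∑ j, m j * θ j = 0 → ∀ z ∈ D, rot θ z ∈ D) {M : ℕ}
    {Q : Fin M → Set (Fin n → ℂ)} (hQ : ∀ i, Box D m (Q i)) (hc : ∀ z ∈ D, ∃ i, z ∈ Q i)
    (z : Fin n → ℂ) : (π ⁻¹' {z}).encard ≤ M := by
  have h1 : ∀ p : Fin n → ℂ, (∀ j, p j ≠ 0) → (π ⁻¹' {p}).encard ≤ M := fun p hp => by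
    obtain ⟨Ψ, hΨ⟩ := h.exists_box hO hu hinv hQ hc hp
    choose i hi using fun x : π ⁻¹' {p} => hΨ x x.2
    have : Function.Injective i := fun x y e => Subtype.ext (hs _ _ fun f hf =>
      h.eq_of_eig hO hD hu hinv (fun f α hf => by rw [hi x f α hf, hi y f α hf, e]) hf)
    exact (ENat.card_le_card_of_injective this).trans (by simp)
  by_contra! hlt
  obtain ⟨t, ht, ht'⟩ := exists_subset_encard_eq (Order.add_one_le_of_lt hlt)
  have hfin : t.Finite := finite_of_encard_eq_coe (k := M + 1) ht'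
  choose r hr σ hσ hσx using exists_chart h.1
  have e : ∀ x ∈ t, π x = z := fun x hx => ht hx
  have c : ∀ x ∈ t, ContinuousAt (σ x) z := fun x hx =>
    e x hx ▸ (hσ x).cont _ (mem_ball_self (hr x))
  have h2 : ∀ᶠ w in 𝓝 z, ∀ x ∈ t, π (σ x w) = w := (eventually_all_finite hfin).2 fun x hx =>
    Eventually.mono (e x hx ▸ ball_mem_nhds _ (hr x)) (hσ x).right
  have h3 : ∀ᶠ w in 𝓝 z, ∀ x ∈ t, ∀ y ∈ t, σ x w = σ y w → x = y :=
    (eventually_all_finite hfin).2 fun x hx => (eventually_all_finite hfin).2 fun y hy => by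
      rcases eq_or_ne x y with rfl | hxy
      · simp
      · refine (((c x hx).prodMk (c y hy)).eventually
          (isClosed_diagonal.isOpen_compl.mem_nhds ?_)).mono fun w hw e => absurd e hw
        have a1 := hσx x
        have a2 := hσx y
        rw [e x hx] at a1
        rw [e y hy] at a2
        simpa [a1, a2] using hxy
  obtain ⟨w, hw, h4, h5⟩ := ((frequently_ne (F := mon (-fun _ => -1)) (b := fun _ => 1)
    (eval_mon _ fun _ => one_ne_zero).1 z).and_eventually (h2.and h3)).exists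
  have h6 := (encard_le_encard_of_injOn (f := fun x => σ x w) (t := π ⁻¹' {w}) h4
    fun x hx y hy => h5 x hx y hy).trans (h1 w fun j hj => hw (by
      rw [mon, map_prod]
      exact Finset.prod_eq_zero (Finset.mem_univ j) (by simp [hj])))
  rw [ht'] at h6
  exact absurd (by exact_mod_cast h6 : M + 1 ≤ M) (by omega)

lemma IsExt.norm_le (h : IsExt D π ι) (hO : IsOpen D) {R : ℝ} (hR0 : 0 ≤ R)
    (hR : ∀ z ∈ D, ‖z‖ ≤ R) (x : X) : ‖π x‖ ≤ R := by
  refine (pi_norm_le_iff_of_nonneg hR0).2 fun j => not_lt.1 fun hj => ?_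
  have := h.ext_eq_zero hO (F := MvPolynomial.X j - C (π x j)) (b := π x + 1) (by simp)
    (differentiableOn_const (1 : ℂ)) (fun z hz e => ?_) (x := x) (by simp)
  · rw [h.ext_entire (differentiable_const _)] at this
    exact one_ne_zero this
  · have h1 := (norm_le_pi_norm z j).trans (hR z hz)
    rw [map_sub, eval_X, eval_C, sub_eq_zero] at e
    rw [e] at h1
    exact absurd hj h1.not_gt

theorem IsExt.exists_encard_le [T2Space X] [ConnectedSpace X] (h : IsExt D π ι) (hO : IsOpen D)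
    (hs : ∀ x y, (∀ f, DifferentiableOn ℂ f D → h.ext f x = h.ext f y) → x = y)
    (hD : D.Nonempty) (hb : Bornology.IsBounded D)
    (hρ : ∀ q ∈ frontier D, ∃ ρ : (Fin n → ℂ) → ℝ, ContDiffAt ℝ 1 ρ q ∧ fderiv ℝ ρ q ≠ 0 ∧
      ∀ᶠ z in 𝓝 q, (z ∈ D ↔ ρ z < 0)) (hm : m ≠ 0)
    (hinv : ∀ θ : Fin n → ℝ, ∑ j, m j * θ j = 0 → ∀ z ∈ D, rot θ z ∈ D) :
    ∃ M : ℕ, ∀ z, (π ⁻¹' {z}).encard ≤ M := by
  obtain ⟨u, hu⟩ := Finset.gcd_eq_sum_mul Finset.univ m
  have hg : Finset.univ.gcd m ≠ 0 := fun h =>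
    hm (funext fun j => Finset.gcd_eq_zero_iff.1 h j (Finset.mem_univ j))
  choose m' hm' using fun j => Finset.gcd_dvd (f := m) (Finset.mem_univ j)
  set g := Finset.univ.gcd m
  have hu' : ∑ j, m' j * u j = 1 := mul_left_cancel₀ hg (by
    rw [mul_one, Finset.mul_sum]
    exact (hu.trans (Finset.sum_congr rfl fun j _ => by rw [hm' j, mul_assoc])).symm)
  have hinv' : ∀ θ : Fin n → ℝ, ∑ j, m' j * θ j = 0 → ∀ z ∈ D, rot θ z ∈ D := fun θ hθ =>
    hinv θ (by
      rw [← mul_zero (g : ℝ), ← hθ, Finset.mul_sum]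
      exact Finset.sum_congr rfl fun j _ => by rw [hm' j, Int.cast_mul, mul_assoc])
  obtain ⟨M, Q, hQ, hQ'⟩ := exists_boxes hO hb hinv' hρ
  exact ⟨M, h.encard_le hO hs hD hu' hinv' hQ hQ'⟩

end Pool.Agent.MP_bea40e_an

end
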