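import Pool.Agent.MP_bea40e_an.Mg.InfF
import Pool.Agent.MP_bea40e_an.Mg.InfB
import Pool.Agent.MP_bea40e_an.Mg.InfC
import Pool.Agent.MP_bea40e_an.Mg.InfG

attribute [-instance] AddQuantale.instAddLeftMono IdemSemiring.toCanonicallyOrderedAdd
  NumberField.to_charZero LeftPreLieAlgebra.toModule RightPreLieAlgebra.toModule
  IsTopologicalTorsor.toContinuousSMul ProperSMul.toContinuousSMul AddQuantale.instAddRightMono
  IsScalarTower.complexToReal LinearOrderedCommMonoidWithZero.toPosMulStrictMono RKHS.instFunLike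
  Valued.toUniformSpace Quantale.instMulRightMono NonarchimedeanAddGroup.toIsTopologicalAddGroup
  MonTypeEquivalenceMon.monMonoid NonarchimedeanRing.toIsTopologicalRing
  GrpTypeEquivalenceGrp.grpGroup IdemSemiring.toMulLeftMono continuousSub_of_discreteTopology
  LieRinehartAlgebra.toIsScalarTower instCoeTCOfCoe Valued.isTopologicalDivisionRing
  AlexandrovDiscrete.locallyPathConnectedSpace IsOrderedMonoid.toMulLeftMono
  AlgHom.instNonUnitalAlgHomClassOfAlgHomClass instCoeTOfCoeDep Quantale.instMulLeftMono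

-- part MP_bea40e_an.Mg.InfH
section

section

open Filter Topology Set Metric Complex
open scoped ContDiff ComplexConjugate

namespace Pool.Agent.MP_bea40e_an.Iv

/-! The defining function has no critical zero (paper, section 2). Write
`base = ‖z'‖ ^ 2 / Cz - Cz * q / 4 + HH + ysq + Xi - sl` with `z' = z + Cz * conj s / 2`, and
differentiate along `t ↦ p + t • V`. -/

/-- derivative of a squared modulus -/
def bdN (a b : ℂ) : ℝ := 2 * (a.re * b.re + a.im * b.im)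

/-- derivative of the quadratic part -/
noncomputable def bdB (p V : EE) : ℝ := (V js * p jz + p js * V jz).re + bdN (p jz) (V jz) / Cz

/-- derivative of `HH` -/
noncomputable def bdH (q t dq dt : ℝ) : ℝ :=
  2 * (q - 1) * dq * (st (-LL / 2) (-2 * LL / 5) t +
    (1 - st (-LL / 2) (-2 * LL / 5) t) * Real.smoothTransition ((q - 1) / LL ^ 10)) +
  (q - 1) ^ 2 * (deriv (st (-LL / 2) (-2 * LL / 5)) t * dt *
      (1 - Real.smoothTransition ((q - 1) / LL ^ 10)) +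
    (1 - st (-LL / 2) (-2 * LL / 5) t) *
      (deriv Real.smoothTransition ((q - 1) / LL ^ 10) * (dq / LL ^ 10)))

/-- derivative of `Xi` -/
noncomputable def bdX (p V : EE) : ℝ :=
  Real.smoothTransition (16 * (‖p jw‖ ^ 2 - 1)) * bdN (p jw) (V jw) +
    ∑ j, Real.smoothTransition (16 * (‖p (jv j)‖ ^ 2 - 1)) * bdN (p (jv j)) (V (jv j)) +
    Real.smoothTransition (16 * (((p jl).re ^ 2 - LL ^ 2) / LL ^ 3)) *
      (2 * (p jl).re * (V jl).re / LL ^ 3) +
    Real.smoothTransition (16 * (((p jo).re ^ 2 - LL ^ 2) / LL ^ 3)) *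
      (2 * (p jo).re * (V jo).re / LL ^ 3)

theorem bd_HH {q t : ℝ → ℝ} {dq dt : ℝ} (hq : HasDerivAt q dq 0) (ht : HasDerivAt t dt 0) :
    HasDerivAt (fun u => HH (q u) (t u)) (bdH (q 0) (t 0) dq dt) 0 := by
  have h1 : HasDerivAt (fun u => st (-LL / 2) (-2 * LL / 5) (t u))
      (deriv (st (-LL / 2) (-2 * LL / 5)) (t 0) * dt) 0 :=
    ((st_contDiff _ _).differentiable (by simp) _).hasDerivAt.comp 0 ht
  have h2 : HasDerivAt (fun u => Real.smoothTransition ((q u - 1) / LL ^ 10))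
      (deriv Real.smoothTransition ((q 0 - 1) / LL ^ 10) * (dq / LL ^ 10)) 0 :=
    ((Real.smoothTransition.contDiff (n := 1)).differentiable (by simp) _).hasDerivAt.comp 0
      ((hq.sub_const 1).div_const _)
  have h3 := ((hq.sub_const 1).fun_pow 2).fun_mul (h1.fun_add ((h1.const_sub 1).fun_mul h2))
  refine h3.congr_deriv ?_
  simp only [bdH]
  push_cast
  ring

theorem bd_deriv {γ : ℝ → EE} {V : EE} (hγ : HasDerivAt γ V 0) :
    HasDerivAt (fun t => base (γ t)) (bdB (γ 0) V +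
      bdH (qq (γ 0)) (γ 0 jl).re (bdN (γ 0 js) (V js)) (V jl).re +
      (2 * (γ 0 jl).im * (V jl).im + 2 * (γ 0 jo).im * (V jo).im) + bdX (γ 0) V +
      sl (γ 0 jl).re / (γ 0 jl).re ^ 2 * (V jl).re) 0 := by
  have hc : ∀ j, HasDerivAt (fun t => γ t j) (V j) 0 := hasDerivAt_pi.1 hγ
  have hre : ∀ j, HasDerivAt (fun t => (γ t j).re) (V j).re 0 := fun j =>
    Complex.reCLM.hasFDerivAt.comp_hasDerivAt 0 (hc j)
  have him : ∀ j, HasDerivAt (fun t => (γ t j).im) (V j).im 0 := fun j =>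
    Complex.imCLM.hasFDerivAt.comp_hasDerivAt 0 (hc j)
  have hn : ∀ j, HasDerivAt (fun t => ‖γ t j‖ ^ 2) (bdN (γ 0 j) (V j)) 0 := by
    intro j
    have e : (fun t => ‖γ t j‖ ^ 2) = fun t => (γ t j).re ^ 2 + (γ t j).im ^ 2 := by
      funext t
      rw [Complex.sq_norm, Complex.normSq_apply]
      ring
    rw [e]
    refine (((hre j).fun_pow 2).fun_add ((him j).fun_pow 2)).congr_deriv ?_
    simp only [bdN]
    push_cast
    ring
  have hB : HasDerivAt (fun t => (γ t js * γ t jz).re + ‖γ t jz‖ ^ 2 / Cz) (bdB (γ 0) V) 0 :=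
    (Complex.reCLM.hasFDerivAt.comp_hasDerivAt 0 ((hc js).fun_mul (hc jz))).fun_add
      ((hn jz).div_const Cz)
  have hH := bd_HH (q := fun t => qq (γ t)) (t := fun t => (γ t jl).re) (hn js) (hre jl)
  have hy : HasDerivAt (fun t => ysq (γ t))
      (2 * (γ 0 jl).im * (V jl).im + 2 * (γ 0 jo).im * (V jo).im) 0 := by
    refine (((him jl).fun_pow 2).fun_add ((him jo).fun_pow 2)).congr_deriv ?_
    push_cast
    ring
  have hk : ∀ j, HasDerivAt (fun t => kap (‖γ t j‖ ^ 2 - 1))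
      (Real.smoothTransition (16 * (‖γ 0 j‖ ^ 2 - 1)) * bdN (γ 0 j) (V j)) 0 := fun j =>
    (kap_hasDerivAt _).comp 0 ((hn j).sub_const 1)
  have hk2 : ∀ j, HasDerivAt (fun t => kap (((γ t j).re ^ 2 - LL ^ 2) / LL ^ 3))
      (Real.smoothTransition (16 * (((γ 0 j).re ^ 2 - LL ^ 2) / LL ^ 3)) *
        (2 * (γ 0 j).re * (V j).re / LL ^ 3)) 0 := by
    intro j
    have h1 : HasDerivAt (fun t => ((γ t j).re ^ 2 - LL ^ 2) / LL ^ 3)
        (2 * (γ 0 j).re * (V j).re / LL ^ 3) 0 := by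
      refine ((((hre j).fun_pow 2).sub_const (LL ^ 2)).div_const (LL ^ 3)).congr_deriv ?_
      push_cast
      ring
    exact (kap_hasDerivAt _).comp 0 h1
  have hX : HasDerivAt (fun t => Xi (γ t)) (bdX (γ 0) V) 0 :=
    (((hk jw).fun_add (HasDerivAt.fun_sum fun j _ => hk (jv j))).fun_add (hk2 jl)).fun_add (hk2 jo)
  have hs : HasDerivAt (fun t => sl (γ t jl).re)
      (-(sl (γ 0 jl).re / (γ 0 jl).re ^ 2) * (V jl).re) 0 := (sl_hasDerivAt _).comp 0 (hre jl)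
  refine ((((hB.fun_add hH).fun_add hy).fun_add hX).fun_sub hs).congr_deriv ?_
  ring

theorem bd_fderiv (p V : EE) : fderiv ℝ base p V = bdB p V +
      bdH (qq p) (p jl).re (bdN (p js) (V js)) (V jl).re +
      (2 * (p jl).im * (V jl).im + 2 * (p jo).im * (V jo).im) + bdX p V +
      sl (p jl).re / (p jl).re ^ 2 * (V jl).re := by
  have h1 : HasDerivAt (fun t : ℝ => p + t • V) V 0 := by
    simpa using ((hasDerivAt_id (0 : ℝ)).smul_const V).const_add p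
  have h2 := bd_deriv h1
  have h3 := (base_contDiff.differentiable (by simp) (p + (0 : ℝ) • V)).hasFDerivAt.comp_hasDerivAt
    (0 : ℝ) h1
  have h4 := h3.unique h2
  simpa only [zero_smul, add_zero] using h4

theorem bd_kap {u d : ℝ} (h : u ≤ d) : kap u ≤ Real.smoothTransition (16 * u) * d :=
  (kap_le_mul u).trans (by
    rw [mul_comm]
    exact mul_le_mul_of_nonneg_left h (Real.smoothTransition.nonneg _))

theorem bd_N_self (a : ℂ) : bdN a a = 2 * ‖a‖ ^ 2 := by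
  rw [Complex.sq_norm, Complex.normSq_apply, bdN]

theorem bd_X {p V : EE} (hw : V jw = p jw) (hv : ∀ j, V (jv j) = p (jv j)) (ho : V jo = p jo)
    (hl : (p jl).re ^ 2 - LL ^ 2 ≤ 2 * (p jl).re * (V jl).re) : Xi p ≤ bdX p V := by
  have hL : 0 < LL ^ 3 := pow_pos LL_pos 3
  have h1 : ∀ a : ℂ, kap (‖a‖ ^ 2 - 1) ≤ Real.smoothTransition (16 * (‖a‖ ^ 2 - 1)) * bdN a a :=
    fun a => bd_kap (by rw [bd_N_self]; linarith only [sq_nonneg ‖a‖])
  unfold Xi bdX
  rw [hw, ho]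
  refine add_le_add (add_le_add (add_le_add (h1 _) (Finset.sum_le_sum fun j _ => ?_)) ?_) ?_
  · rw [hv]
    exact h1 _
  · exact bd_kap (div_le_div_of_nonneg_right hl hL.le)
  · exact bd_kap (div_le_div_of_nonneg_right (by linarith only [sq_nonneg (p jo).re, sq_nonneg LL]) hL.le)

theorem bd_B {p V : EE} {c : ℝ} (hs : V js = c * p js)
    (hz : V jz = p jz + Cz * conj (p js) / 2 - Cz * conj (V js) / 2) :
    (p js * p jz).re + ‖p jz‖ ^ 2 / Cz + Cz / 4 * (qq p - 2 * c * qq p) ≤ bdB p V := by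
  have hC := Cz_pos
  have h1 : bdB p V = (p js * p jz).re + ‖p jz‖ ^ 2 / Cz + Cz / 4 * (qq p - 2 * c * qq p) +
      (((p jz).re + Cz * (p js).re / 2) ^ 2 + ((p jz).im - Cz * (p js).im / 2) ^ 2) / Cz := by
    unfold bdB bdN qq
    rw [hz, hs, Complex.sq_norm, Complex.sq_norm, Complex.normSq_apply, Complex.normSq_apply]
    simp only [add_re, mul_re, sub_re, add_im, mul_im, sub_im, ofReal_re, ofReal_im, conj_re,
      conj_im, div_ofNat_re, div_ofNat_im]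
    field_simp
    ring
  rw [h1]
  exact le_add_of_nonneg_right (by positivity)

theorem bd_Nc (c : ℝ) (a : ℂ) : bdN a (c * a) = 2 * c * ‖a‖ ^ 2 := by
  rw [Complex.sq_norm, Complex.normSq_apply, bdN]
  simp only [mul_re, mul_im, ofReal_re, ofReal_im]
  ring

theorem bd_step_deriv (t : ℝ) : 0 ≤ deriv Real.smoothTransition t :=
  Real.smoothTransition.monotone.deriv_nonneg

theorem bd_LL : LL < 1 / 100 := by
  unfold LL
  norm_num

theorem bd_Cz : Cz ≤ 1 / 100 := by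
  have h := LL_pos
  have h1 := bd_LL
  unfold Cz
  calc LL ^ 20 ≤ LL ^ 1 := pow_le_pow_of_le_one h.le (by linarith) (by norm_num)
    _ ≤ 1 / 100 := by rw [pow_one]; exact h1.le

/-- `V = (s (q - 1) / (2 q), z' - Cz * conj (V js) / 2, w, max lam 0 + im l * I, o, v)`;
`kap_le_mul` -/
theorem base_field1 {p : EE} (hl : -LL / 3 ≤ (p jl).re) (hq : |qq p - 1| ≤ 1 / 10) (hp : ‖p‖ ≤ 2) :
    ∃ V : EE, ‖V‖ ≤ 3 ∧ base p + Cz / 4 ≤ fderiv ℝ base p V := by
  have hL := LL_pos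
  have hC := Cz_pos
  have hC1 := bd_Cz
  have hq1 := abs_le.1 hq
  have hq0 : 0 < qq p := by linarith only [hq1.1]
  have hj : ∀ j, ‖p j‖ ≤ 2 := fun j => (norm_le_pi_norm p j).trans hp
  obtain ⟨c, hc⟩ : ∃ c : ℝ, c = (qq p - 1) / (2 * qq p) := ⟨_, rfl⟩
  have hc1 : 2 * c * qq p = qq p - 1 := by
    rw [hc]
    field_simp
  have hc2 : |c| ≤ 1 := by
    rw [abs_le]
    constructor <;> nlinarith only [hq1.1, hc1]
  obtain ⟨V, hs, hz, hw, hll, ho, hv⟩ : ∃ V : EE, V js = c * p js ∧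
      V jz = p jz + Cz * conj (p js) / 2 - Cz * conj (V js) / 2 ∧ V jw = p jw ∧
      V jl = ⟨max (p jl).re 0, (p jl).im⟩ ∧ V jo = p jo ∧ ∀ j, V (jv j) = p (jv j) :=
    ⟨pt (c * p js) (p jz + Cz * conj (p js) / 2 - Cz * conj (c * p js) / 2) (p jw)
      ⟨max (p jl).re 0, (p jl).im⟩ (p jo) fun j => p (jv j), rfl, rfl, rfl, rfl, rfl, fun _ => rfl⟩
  have hVs : ‖V js‖ ≤ 2 := by
    rw [hs, norm_mul, Complex.norm_real, Real.norm_eq_abs]
    nlinarith only [hj js, norm_nonneg (p js), hc2]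
  refine ⟨V, ?_, ?_⟩
  · refine (pi_norm_le_iff_of_nonneg (by norm_num)).2 ?_
    rintro (j | j)
    · have hcases : Sum.inl j = js ∨ Sum.inl j = jz ∨ Sum.inl j = jw ∨ Sum.inl j = jl ∨
          Sum.inl j = jo := by
        fin_cases j <;> simp
      rcases hcases with h | h | h | h | h <;> rw [h]
      · linarith only [hC, hC1, hVs]
      · have e : ∀ a : ℂ, ‖(Cz : ℂ) * conj a / 2‖ = Cz * ‖a‖ / 2 := by
          intro a
          rw [norm_div, norm_mul, Complex.norm_real, Real.norm_eq_abs, abs_of_pos hC,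
            Complex.norm_conj, Complex.norm_ofNat]
        have h1 := norm_sub_le (p jz + Cz * conj (p js) / 2) (Cz * conj (V js) / 2)
        have h2 := norm_add_le (p jz) (Cz * conj (p js) / 2)
        rw [e] at h1 h2
        rw [hz]
        nlinarith only [hj jz, hj js, hC, hC1, hVs, h1, h2]
      · rw [hw]
        linarith only [hj jw, hC, hC1]
      · have h1 : ‖V jl‖ ≤ ‖p jl‖ := by
          refine le_of_sq_le_sq ?_ (norm_nonneg _)
          rw [Complex.sq_norm, Complex.sq_norm, Complex.normSq_apply, Complex.normSq_apply, hll]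
          simp only
          rcases le_total (p jl).re 0 with h0 | h0
          · rw [max_eq_right h0]
            linarith only [mul_self_nonneg (p jl).re]
          · rw [max_eq_left h0]
        linarith only [hj jl, hC, hC1, h1]
      · rw [ho]
        linarith only [hj jo, hC, hC1]
    · rw [hv j]
      linarith only [hj (jv j), hC, hC1]
  · have hre : (V jl).re = max (p jl).re 0 := by rw [hll]
    have him : (V jl).im = (p jl).im := by rw [hll]
    have hm : 0 ≤ (V jl).re := by rw [hre]; exact le_max_right _ _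
    have h1 := bd_B hs hz
    have h2 : Xi p ≤ bdX p V := by
      refine bd_X hw hv ho ?_
      rw [hre]
      rcases le_total (p jl).re 0 with h0 | h0
      · rw [max_eq_right h0]
        nlinarith only [hl, h0]
      · rw [max_eq_left h0]
        nlinarith only []
    have h3 : HH (qq p) (p jl).re ≤ bdH (qq p) (p jl).re (bdN (p js) (V js)) (V jl).re := by
      have e : bdN (p js) (V js) = qq p - 1 := by
        rw [hs, bd_Nc, ← hc1]
        rfl
      have ht : st (-LL / 2) (-2 * LL / 5) (p jl).re = 1 := st_one (by linarith only [hL]) (by linarith only [hl, hL])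
      have h4 := mul_nonneg (sq_nonneg (qq p - 1)) (mul_nonneg (mul_nonneg
        (st_deriv_nonneg (a := -LL / 2) (b := -2 * LL / 5) (by linarith only [hL]) (p jl).re) hm)
        (sub_nonneg.2 (Real.smoothTransition.le_one ((qq p - 1) / LL ^ 10))))
      unfold HH bdH
      rw [e, ht]
      linarith only [sq_nonneg (qq p - 1), h4]
    have h5 : 0 ≤ sl (p jl).re / (p jl).re ^ 2 * (V jl).re :=
      mul_nonneg (div_nonneg (sl_nonneg _) (sq_nonneg _)) hm
    have h6 := sl_nonneg (p jl).re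
    rw [bd_fderiv, him, ho]
    rw [hc1] at h1
    unfold base ysq
    linarith only [sq_nonneg (p jl).im, sq_nonneg (p jo).im, h1, h2, h3, h5, h6]

/-- `V = ∂ / ∂ lam` -/
theorem base_field2 {p : EE} (h1 : -LL ≤ (p jl).re) (h2 : (p jl).re < 0) :
    ∃ V : EE, 0 < fderiv ℝ base p V := by
  have hL := LL_pos
  obtain ⟨V, hs, hz, hw, hll, ho, hv⟩ : ∃ V : EE, V js = 0 ∧ V jz = 0 ∧ V jw = 0 ∧
      V jl = 1 ∧ V jo = 0 ∧ ∀ j, V (jv j) = 0 :=
    ⟨pt 0 0 0 1 0 fun _ => 0, rfl, rfl, rfl, rfl, rfl, fun _ => rfl⟩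
  refine ⟨V, ?_⟩
  have h0 : ∀ a : ℂ, bdN a 0 = 0 := fun a => by simp [bdN]
  have h3 : bdB p V = 0 := by simp [bdB, hs, hz, h0]
  have h4 : bdX p V = 0 := by
    have : Real.smoothTransition (16 * (((p jl).re ^ 2 - LL ^ 2) / LL ^ 3)) = 0 := by
      refine Real.smoothTransition.zero_of_nonpos ?_
      have : ((p jl).re ^ 2 - LL ^ 2) / LL ^ 3 ≤ 0 :=
        div_nonpos_of_nonpos_of_nonneg (by nlinarith only [h1, h2]) (pow_pos hL 3).le
      linarith only [this]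
    simp only [bdX, hw, h0, mul_zero, hv, Finset.sum_const_zero, add_zero, this, zero_mul, ho, zero_re, zero_div]
  have h5 : 0 ≤ bdH (qq p) (p jl).re 0 1 := by
    have := mul_nonneg (sq_nonneg (qq p - 1)) (mul_nonneg
        (st_deriv_nonneg (a := -LL / 2) (b := -2 * LL / 5) (by linarith only [h1, h2]) (p jl).re)
        (sub_nonneg.2 (Real.smoothTransition.le_one ((qq p - 1) / LL ^ 10))))
    simpa only [bdH, mul_zero, neg_mul, zero_mul, mul_one, zero_div, add_zero, zero_add, ge_iff_le] using this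
  have h6 : 0 < sl (p jl).re / (p jl).re ^ 2 := div_pos (sl_pos h2) (sq_pos_of_neg h2)
  rw [bd_fderiv, h3, h4, hs, hll, ho, h0]
  simp only [one_re, one_im, zero_im, mul_zero, mul_one]
  linarith

/-- `V = (s / 2, z' - Cz * conj s / 4, w, lam + L + im l * I, o, v)` -/
theorem base_field3 {p : EE} (h1 : (p jl).re < -LL) (h2 : (p jl).re ^ 2 ≤ LL ^ 2 + LL ^ 3 / 8) :
    ∃ V : EE, base p < fderiv ℝ base p V := by
  have hL := LL_pos
  have hL1 := bd_LL
  obtain ⟨V, hs, hz, hw, hll, ho, hv⟩ : ∃ V : EE, V js = ((1 / 2 : ℝ) : ℂ) * p js ∧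
      V jz = p jz + Cz * conj (p js) / 2 - Cz * conj (V js) / 2 ∧ V jw = p jw ∧
      V jl = ⟨(p jl).re + LL, (p jl).im⟩ ∧ V jo = p jo ∧ ∀ j, V (jv j) = p (jv j) :=
    ⟨pt (((1 / 2 : ℝ) : ℂ) * p js)
      (p jz + Cz * conj (p js) / 2 - Cz * conj (((1 / 2 : ℝ) : ℂ) * p js) / 2) (p jw)
      ⟨(p jl).re + LL, (p jl).im⟩ (p jo) fun j => p (jv j), rfl, rfl, rfl, rfl, rfl, fun _ => rfl⟩
  refine ⟨V, ?_⟩
  have hre : (V jl).re = (p jl).re + LL := by rw [hll]
  have him : (V jl).im = (p jl).im := by rw [hll]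
  have h3 := bd_B hs hz
  have h4 : Xi p ≤ bdX p V := by
    refine bd_X hw hv ho ?_
    rw [hre]
    linarith only [sq_nonneg ((p jl).re + LL)]
  have h5 : HH (qq p) (p jl).re ≤ bdH (qq p) (p jl).re (bdN (p js) (V js)) (V jl).re := by
    have e : bdN (p js) (V js) = qq p := by
      rw [hs, bd_Nc]
      unfold qq
      ring
    have ht : st (-LL / 2) (-2 * LL / 5) (p jl).re = 0 := st_zero (by linarith only [hL]) (by linarith only [h1, hL])
    have ht2 : deriv (st (-LL / 2) (-2 * LL / 5)) (p jl).re = 0 := by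
      have : st (-LL / 2) (-2 * LL / 5) =ᶠ[𝓝 (p jl).re] fun _ => 0 := by
        filter_upwards [gt_mem_nhds (show (p jl).re < -LL / 2 by linarith only [h1, hL])] with t ht
        exact st_zero (by linarith only [hL]) ht.le
      rw [this.deriv_eq, deriv_const]
    have hq0 : 0 ≤ qq p := sq_nonneg _
    have h6 := mul_nonneg (sq_nonneg (qq p - 1)) (mul_nonneg
      (bd_step_deriv ((qq p - 1) / LL ^ 10)) (div_nonneg hq0 (pow_pos hL 10).le))
    have h7 : (qq p - 1) ^ 2 * Real.smoothTransition ((qq p - 1) / LL ^ 10) ≤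
        2 * (qq p - 1) * qq p * Real.smoothTransition ((qq p - 1) / LL ^ 10) := by
      rcases le_total (qq p) 1 with h | h
      · rw [Real.smoothTransition.zero_of_nonpos
          (div_nonpos_of_nonpos_of_nonneg (by linarith only [h]) (pow_pos hL 10).le)]
        simp
      · exact mul_le_mul_of_nonneg_right (by nlinarith only [h]) (Real.smoothTransition.nonneg _)
    unfold HH bdH
    rw [e, ht, ht2]
    linarith only [h6, h7]
  have hn : (p jl).re < 0 := by linarith only [h1, hL]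
  have h8 : -sl (p jl).re < sl (p jl).re / (p jl).re ^ 2 * (V jl).re := by
    have h9 := sl_pos hn
    have h10 : 0 < (p jl).re ^ 2 := by nlinarith only [h1, hL]
    have h11 : -(p jl).re ^ 2 < (p jl).re + LL := by
      by_contra hc
      have h12 : LL ^ 2 ≤ -(p jl).re - LL := by nlinarith only [hL, hc]
      have h13 : 0 < LL ^ 3 := pow_pos hL 3
      nlinarith only [h1, h2, hL, hL1, hc]
    rw [hre, div_mul_eq_mul_div, lt_div_iff₀ h10]
    nlinarith only [h9, h11]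
  rw [bd_fderiv, him, ho]
  unfold base ysq
  linarith only [sq_nonneg (p jl).im, sq_nonneg (p jo).im, h3, h4, h5, h8]

theorem rr_reg : ∀ᶠ m0 : ℕ in atTop, ∀ p, rr m0 p = 0 → fderiv ℝ (rr m0) p ≠ 0 := by
  have hL := LL_pos
  have hC := Cz_pos
  filter_upwards [crude, FS_contDiff, FS_small (δ := Cz / 20) (by positivity), FS_left] with
    m0 h1 h2 h3 h4 p hp h0
  obtain ⟨a1, -, a3, -, a5⟩ := h1 p (by rw [hp]; norm_num)
  have hd : fderiv ℝ (rr m0) p = fderiv ℝ base p + fderiv ℝ (FS m0) p :=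
    fderiv_fun_add (base_contDiff.differentiable (by simp) p) (h2.differentiable (by simp) p)
  have hv : base p + FS m0 p = 0 := hp
  rw [hd] at h0
  rcases le_or_gt (-LL / 3) (p jl).re with hl | hl
  · obtain ⟨V, hV, hb⟩ := base_field1 hl (a5 hl) a1
    have b1 : fderiv ℝ base p V + fderiv ℝ (FS m0) p V = 0 := by
      simpa only [add_apply, zero_apply] using congrArg (fun T => T V) h0
    have b2 := (fderiv ℝ (FS m0) p).le_opNorm V
    have b3 := abs_le.1 (h3 p).1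
    have b4 : ‖fderiv ℝ (FS m0) p‖ * ‖V‖ ≤ Cz / 20 * 3 :=
      mul_le_mul (h3 p).2 hV (norm_nonneg _) (by positivity)
    have b5 := abs_le.1 (b2.trans b4)
    linarith only [b3.2, b5.1, hC, hv, hb, b1]
  · have b1 := h4 p (by linarith only [hL, hl])
    have b2 : FS m0 p = 0 := b1.eq_of_nhds
    have b3 : fderiv ℝ (FS m0) p = 0 := by rw [b1.fderiv_eq]; simp
    rw [b3, add_zero] at h0
    rw [b2, add_zero] at hv
    rcases le_or_gt (-LL) (p jl).re with hl2 | hl2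
    · obtain ⟨V, hV⟩ := base_field2 hl2 (by linarith only [hL, hl])
      rw [h0] at hV
      simp at hV
    · obtain ⟨V, hV⟩ := base_field3 hl2 a3
      rw [h0, hv] at hV
      simp at hV


end Pool.Agent.MP_bea40e_an.Iv

end

section

open Filter Topology Set Metric Complex
open scoped ContDiff ComplexConjugate

namespace Pool.Agent.MP_bea40e_an.Iv

/-! The discs of a word: holomorphy and coordinates. -/

theorem dw_js (m : ℕ) (k : Wd m) (l o ew z0 : ℂ) (b : AX → ℂ) (ζ : ℂ) :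
    dw m k l o ew z0 b ζ js = ζ ∧ dw m k l o ew z0 b ζ jl = l ∧ dw m k l o ew z0 b ζ jo = o ∧
      ww m k (dw m k l o ew z0 b ζ) = ew ∧ zw m k (dw m k l o ew z0 b ζ) = z0 :=
  ⟨rfl, rfl, rfl, sub_add_cancel _ _, sub_add_cancel _ _⟩

theorem dw_Y (m : ℕ) (k : Wd m) (l o ew z0 : ℂ) (b : AX → ℂ) {ζ : ℂ} (h : ζ ≠ 0) (j : AX) :
    (Yw m k j (dw m k l o ew z0 b ζ)).im = (b j * ζ).im * (1 - 1 / ‖ζ‖ ^ 2) := by
  have h1 : conj ζ ≠ 0 := (map_ne_zero _).2 h
  have e : Yw m k j (dw m k l o ew z0 b ζ) =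
      b j * ζ + ((1 / ‖ζ‖ ^ 2 : ℝ) : ℂ) * conj (b j * ζ) := by
    change (conj (b j) + b j * ζ ^ 2 - ζ ^ 3 * AA2 m k j ζ o) / ζ + ζ ^ 2 * AA2 m k j ζ o = _
    rw [ofReal_div, ofReal_one, ofReal_pow, ← mul_conj', map_mul]
    field_simp
    ring
  rw [e, add_im, im_ofReal_mul, conj_im]
  ring

theorem dk1_an {E : Type} [NormedAddCommGroup E] [NormedSpace ℂ E] {s z w l o : E → ℂ}
    {v : E → AX → ℂ} {e : E} (hs : AnalyticAt ℂ s e) (hz : AnalyticAt ℂ z e)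
    (hw : AnalyticAt ℂ w e) (hl : AnalyticAt ℂ l e) (ho : AnalyticAt ℂ o e)
    (hv : ∀ j, AnalyticAt ℂ (fun t => v t j) e) :
    AnalyticAt ℂ (fun t => pt (s t) (z t) (w t) (l t) (o t) (v t)) e := by
  refine AnalyticAt.pi fun j => ?_
  rcases j with j | j
  · fin_cases j
    exacts [hs, hz, hw, hl, ho]
  · exact hv j

theorem dk1_co {E : Type} [TopologicalSpace E] {s z w l o : E → ℂ}
    {v : E → AX → ℂ} {e : E} (hs : ContinuousAt s e) (hz : ContinuousAt z e)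
    (hw : ContinuousAt w e) (hl : ContinuousAt l e) (ho : ContinuousAt o e)
    (hv : ∀ j, ContinuousAt (fun t => v t j) e) :
    ContinuousAt (fun t => pt (s t) (z t) (w t) (l t) (o t) (v t)) e := by
  refine continuousAt_pi.2 fun j => ?_
  rcases j with j | j
  · fin_cases j
    exacts [hs, hz, hw, hl, ho]
  · exact hv j

theorem dk1_le (m : ℕ) {ζ : ℂ} (h : ‖ζ‖ ≤ 1) : ‖ζ‖ ≤ 1 + 2 * e2 m := by
  have : 0 ≤ e2 m := by unfold e2; positivity
  linarith

/-- each coordinate is analytic (`cmp_an`, `GG1_an`) -/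
theorem dw_an : ∀ᶠ m : ℕ in atTop, ∀ (k : Wd m) (l o ew z0 : ℂ) (b : AX → ℂ),
    |l.im| ≤ 1 / m ^ 6 → |o.im| ≤ 1 / m ^ 6 →
      (∀ ζ, ‖ζ‖ ≤ 1 → AnalyticAt ℂ (dw m k l o ew z0 b) ζ) ∧ Disc (dw m k l o ew z0 b) := by
  filter_upwards [GG1_an, cmp_an] with m hG hC k l o ew z0 b hl ho
  have key : ∀ ζ, ‖ζ‖ ≤ 1 → AnalyticAt ℂ (dw m k l o ew z0 b) ζ := fun ζ hζ => by
    obtain ⟨g1, -, g2, -⟩ := hG k ζ o (dk1_le m hζ) ho
    have p : AnalyticAt ℂ (fun t : ℂ => (t, o)) ζ := analyticAt_id.prod analyticAt_const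
    have s : AnalyticAt ℂ (fun t : ℂ => t) ζ := analyticAt_id
    have cs : ∀ c : ℂ, AnalyticAt ℂ (fun _ : ℂ => c) ζ := fun c => analyticAt_const
    have w := (cs ew).fun_sub (s.fun_mul (g1.fun_comp_of_eq p rfl))
    have v := fun j => ((cs (conj (b j))).fun_add ((cs (b j)).fun_mul (s.fun_pow 2))).fun_sub
        ((s.fun_pow 3).fun_mul ((g2 j).fun_comp_of_eq p rfl))
    have y := dk1_an (v := fun t j => conj (b j) + b j * t ^ 2 - t ^ 3 * AA2 m k j t o) s (cs 0) w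
      (cs l) (cs o) v
    have c := (hC k _ (dk1_le m hζ) hl ho).fun_comp_of_eq y rfl
    exact dk1_an s ((cs z0).fun_sub c) w (cs l) (cs o) v
  refine ⟨key, DifferentiableOn.diffContOnCl fun ζ hζ => ?_⟩
  rw [closure_ball _ one_ne_zero, mem_closedBall_zero_iff] at hζ
  exact (key ζ hζ).differentiableAt.differentiableWithinAt

theorem dw_cont : ∀ᶠ m : ℕ in atTop, ∀ k : Wd m,
    ContinuousOn (fun p : (ℂ × ℂ × ℂ × ℂ × (AX → ℂ)) × ℂ =>
      dw m k p.1.1 p.1.2.1 p.1.2.2.1 p.1.2.2.2.1 p.1.2.2.2.2 p.2)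
      {p | |p.1.1.im| ≤ 1 / m ^ 6 ∧ |p.1.2.1.im| ≤ 1 / m ^ 6 ∧ ‖p.2‖ ≤ 1} := by
  filter_upwards [GG1_an, cmp_an] with m hG hC k p hp
  obtain ⟨hl, ho, hζ⟩ := hp
  obtain ⟨g1, -, g2, -⟩ := hG k p.2 p.1.2.1 (dk1_le m hζ) ho
  have s : ContinuousAt (fun t : (ℂ × ℂ × ℂ × ℂ × (AX → ℂ)) × ℂ => t.2) p := by fun_prop
  have l : ContinuousAt (fun t : (ℂ × ℂ × ℂ × ℂ × (AX → ℂ)) × ℂ => t.1.1) p := by fun_prop
  have o : ContinuousAt (fun t : (ℂ × ℂ × ℂ × ℂ × (AX → ℂ)) × ℂ => t.1.2.1) p := by fun_prop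
  have e : ContinuousAt (fun t : (ℂ × ℂ × ℂ × ℂ × (AX → ℂ)) × ℂ => t.1.2.2.1) p := by fun_prop
  have z : ContinuousAt (fun t : (ℂ × ℂ × ℂ × ℂ × (AX → ℂ)) × ℂ => t.1.2.2.2.1) p := by fun_prop
  have b : ∀ j, ContinuousAt (fun t : (ℂ × ℂ × ℂ × ℂ × (AX → ℂ)) × ℂ => t.1.2.2.2.2 j) p :=
    fun j => by fun_prop
  have w := e.sub (s.mul (g1.continuousAt.comp_of_eq (s.prodMk o) rfl))
  have v := fun j => ((continuous_conj.continuousAt.comp (b j)).add ((b j).mul (s.pow 2))).sub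
    ((s.pow 3).mul ((g2 j).continuousAt.comp_of_eq (s.prodMk o) rfl))
  have y := dk1_co (z := fun _ => 0) (v := fun t j => conj (t.1.2.2.2.2 j) +
    t.1.2.2.2.2 j * t.2 ^ 2 - t.2 ^ 3 * AA2 m k j t.2 t.1.2.1) s continuousAt_const w l o v
  have c := (hC k _ (dk1_le m hζ) hl ho).continuousAt.comp_of_eq y rfl
  exact (dk1_co s (z.sub c) w l o v).continuousWithinAt

theorem dk1_b {s v : ℂ} (hs : ‖s‖ < 1 / 2) (hv : ‖v‖ < 1 / 10) :
    ∃ b : ℂ, ‖b‖ ≤ 1 / 5 ∧ conj b + b * s ^ 2 = v := by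
  have h2 : ‖s‖ ^ 2 ≤ (1 / 2) ^ 2 := by gcongr
  have h4 : ‖s‖ ^ 4 ≤ (1 / 2) ^ 4 := by gcongr
  have hd : (0 : ℝ) < 1 - ‖s‖ ^ 4 := by linarith only [h4]
  refine ⟨(conj v - conj s ^ 2 * v) / ((1 - ‖s‖ ^ 4 : ℝ) : ℂ), ?_, ?_⟩
  · have h1 := norm_sub_le (conj v) (conj s ^ 2 * v)
    rw [norm_mul, norm_pow, norm_conj, norm_conj] at h1
    have h3 := mul_le_mul_of_nonneg_right h2 (norm_nonneg v)
    rw [norm_div, norm_real, Real.norm_of_nonneg hd.le, div_le_iff₀ hd]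
    linarith only [hv, h4, h1, h3]
  · have hd' : ((1 - ‖s‖ ^ 4 : ℝ) : ℂ) ≠ 0 := ofReal_ne_zero.2 hd.ne'
    have e : ((1 - ‖s‖ ^ 4 : ℝ) : ℂ) = 1 - (s * conj s) ^ 2 := by
      rw [mul_conj']
      push_cast
      ring
    rw [map_div₀, conj_ofReal, map_sub, map_mul, map_pow, conj_conj, conj_conj, div_mul_eq_mul_div,
      ← add_div, div_eq_iff hd', e]
    ring

/-- `b j = (conj v - conj s ^ 2 * v) / (1 - ‖s‖ ^ 4)` with `v = x (jv j) + s ^ 3 * AA2` -/
theorem tset_dw {m : ℕ} {k : Wd m} {x : EE} (h : x ∈ Tset m k) : ∃ b,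
    Adm m (x jl) (x jo) (ww m k x) (zw m k x) b ∧
      dw m k (x jl) (x jo) (ww m k x) (zw m k x) b (x js) = x := by
  obtain ⟨h1, -, -, -, -, h2, h3, h4, h5, h6⟩ := h
  choose b hb hb' using fun j => dk1_b h1 (h5 j)
  refine ⟨b, ⟨h2.le, h3.le, h4.le, h6.le, hb⟩, ?_⟩
  have e1 : ww m k x - x js * GG1 m k (x js) (x jo) = x jw := add_sub_cancel_right _ _
  have e2 : (fun j => conj (b j) + b j * x js ^ 2 - x js ^ 3 * AA2 m k j (x js) (x jo)) =
      fun j => x (jv j) := funext fun j => by rw [hb', add_sub_cancel_right]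
  unfold dw
  rw [e1, e2]
  funext j
  rcases j with j | j
  · fin_cases j
    exacts [rfl, add_sub_cancel_right _ _, rfl, rfl, rfl]
  · rfl

theorem good_end {m : ℕ} (k : Wd m) {X T : ℝ} (hX : |X| ≤ 1) (h1 : 10 * kk m ≤ T)
    (h2 : T ≤ 10 * kk m + 1) : Good m k X T := by
  have h0 : (0 : ℝ) ≤ kk m := Nat.cast_nonneg _
  refine ⟨by linarith, by linarith, by unfold Tend; linarith, fun l _ a => ?_⟩
  have : ((l : ℕ) : ℝ) + 1 ≤ kk m := by exact_mod_cast l.2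
  unfold t0 at a
  linarith only [h1, a, this]

/-- a continuous section of the admissible region over the clock axis -/
noncomputable def dk1_sec (m : ℕ) (k : Wd m) (T : ℝ) : ℝ :=
  ∑ l, 2 * sn (k l) * max 0 (min 1 (min (2 * (T - t0 l)) (2 * (t0 l + 10 - T))))

theorem dk1_sn (b : Bool) : sn b * sn b = 1 ∧ |sn b| = 1 := by cases b <;> simp [sn]

theorem dk1_sec_eq (m : ℕ) (k : Wd m) {T : ℝ} (l : Fin (kk m)) (h1 : t0 l ≤ T) (h2 : T ≤ t0 l + 10) :
    dk1_sec m k T = 2 * sn (k l) * max 0 (min 1 (min (2 * (T - t0 l)) (2 * (t0 l + 10 - T)))) := by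
  refine Finset.sum_eq_single l (fun j _ hj => ?_) fun h => absurd (Finset.mem_univ _) h
  rw [max_eq_left, mul_zero]
  refine min_le_of_right_le ?_
  rcases lt_or_gt_of_ne (Fin.val_ne_of_ne hj) with h | h
  · have : ((j : ℕ) : ℝ) + 1 ≤ (l : ℕ) := by exact_mod_cast h
    refine min_le_of_right_le ?_
    simp only [t0] at *
    linarith only [h1, this]
  · have : ((l : ℕ) : ℝ) + 1 ≤ (j : ℕ) := by exact_mod_cast h
    refine min_le_of_left_le ?_
    simp only [t0] at *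
    linarith only [h2, this]

theorem dk1_sec_good (m : ℕ) (k : Wd m) {T : ℝ} (h0 : 0 ≤ T) (h1 : T ≤ Tend m) :
    Good m k (dk1_sec m k T) T := by
  refine ⟨?_, h0, h1, fun l a1 a2 => ?_⟩
  · by_cases h : ∃ l : Fin (kk m), t0 l ≤ T ∧ T ≤ t0 l + 10
    · obtain ⟨l, a1, a2⟩ := h
      rw [dk1_sec_eq m k l a1 a2, abs_mul, abs_mul, (dk1_sn _).2, abs_two,
        abs_of_nonneg (le_max_left _ _)]
      have : max 0 (min 1 (min (2 * (T - t0 l)) (2 * (t0 l + 10 - T)))) ≤ 1 :=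
        max_le zero_le_one (min_le_left _ _)
      linarith
    · rw [dk1_sec, Finset.sum_eq_zero, abs_zero]
      · norm_num
      intro l _
      rw [max_eq_left, mul_zero]
      refine min_le_of_right_le ?_
      by_cases a : t0 l ≤ T
      · exact min_le_of_right_le (by linarith [not_le.1 fun b => h ⟨l, a, b⟩])
      · exact min_le_of_left_le (by linarith [not_le.1 a])
  · rw [dk1_sec_eq m k l (by linarith only [a1]) (by linarith), min_eq_left (le_min (by linarith) (by linarith)),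
      max_eq_right zero_le_one]
    linarith only [(dk1_sn (k l)).1]

theorem dk1_preconn (m : ℕ) (k : Wd m) : IsPreconnected {p : ℝ × ℝ | Good m k p.1 p.2} := by
  have hc : Continuous fun T => (dk1_sec m k T, T) := by
    unfold dk1_sec
    fun_prop
  have hT : (0 : ℝ) ≤ Tend m := by unfold Tend; positivity
  refine isPreconnected_of_forall (dk1_sec m k 0, 0) fun p hp => ?_
  let G := (fun T => (dk1_sec m k T, T)) '' Icc 0 (Tend m)
  have hp' := dk1_sec_good m k hp.2.1 hp.2.2.1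
  refine ⟨G ∪ segment ℝ (dk1_sec m k p.2, p.2) p, union_subset ?_ ?_, Or.inl ⟨0, ⟨le_rfl, hT⟩, rfl⟩,
    Or.inr (right_mem_segment _ _ _), (isPreconnected_Icc.image _ hc.continuousOn).union _
      ⟨p.2, ⟨hp.2.1, hp.2.2.1⟩, rfl⟩ (left_mem_segment _ _ _) (convex_segment _ _).isPreconnected⟩
  · rintro _ ⟨T, hT, rfl⟩
    exact dk1_sec_good m k hT.1 hT.2
  · rintro _ ⟨a, b, ha, hb, hab, rfl⟩
    have e : a * p.2 + b * p.2 = p.2 := by rw [← add_mul, hab, one_mul]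
    simp only [mem_ofPred_eq, Prod.fst_add, Prod.snd_add, Prod.smul_fst, Prod.smul_snd, smul_eq_mul, e]
    refine ⟨?_, hp.2.1, hp.2.2.1, fun l a1 a2 => ?_⟩
    · have h1 := abs_le.1 hp.1
      have h2 := abs_le.1 hp'.1
      rw [abs_le]
      constructor <;> nlinarith only [ha, hb, hab, h1, h2]
    · nlinarith only [hp.2.2.2 l a1 a2, hp'.2.2.2 l a1 a2, ha, hb, hab]

/-- the graph of `T ↦ 5 / 2 * ∑ l, sn (k l) * trap (T - t0 l)` over `[0, 10 kk]`, where
`trap t = max 0 (min 1 (min (2 * t) (2 * (10 - t))))`, and the box at its end -/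
theorem good_conn (m : ℕ) (k : Wd m) : ∃ S : Set (ℝ × ℝ), IsPreconnected S ∧ (0, 0) ∈ S ∧
    (∀ p ∈ S, Good m k p.1 p.2) ∧
      ∀ X T : ℝ, |X| ≤ 1 → 10 * kk m ≤ T → T ≤ 10 * kk m + 1 → (X, T) ∈ S := by
  refine ⟨_, dk1_preconn m k, ⟨by simp, le_rfl, by unfold Tend; positivity, fun l a _ => ?_⟩,
    fun _ h => h, fun X T a b c => good_end k a b c⟩
  have : 0 ≤ t0 l := by unfold t0; positivity
  exact absurd a (not_lt.2 (by positivity))


end Pool.Agent.MP_bea40e_an.Iv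

end

section

open Filter Topology Set Metric Complex
open scoped ContDiff ComplexConjugate

namespace Pool.Agent.MP_bea40e_an.Iv

/-! The discs of a word: estimates. -/

theorem good_small : ∀ᶠ m : ℕ in atTop, ∀ (k : Wd m) (X T : ℝ), Good m k X T →
    gw m k X T < 1 ∧ ∀ l, etaR m k l X T ≤ tl m := by
  filter_upwards [eventually_gt_atTop 0] with m hm k X T ⟨h1, h2, h3, h4⟩
  have h5 : ∀ l : Fin (kk m), T ≤ t0 l + 1 / 2 ∨ t0 l + 19 / 2 ≤ T ∨ 2 ≤ sn (k l) * X := fun l => by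
    rcases le_or_gt T (t0 l + 1 / 2) with a | a
    · exact Or.inl a
    · exact Or.inr ((le_or_gt _ _).imp_right (h4 l a))
  refine ⟨(gw_lt hm k X T 1).2 ⟨by linarith only [h2], by linarith only [h1], by linarith, fun l => ?_⟩, fun l => ?_⟩
  · rcases h5 l with a | a | a
    · left; linarith
    · right; left; linarith
    · right; right; linarith
  · have e : ∀ t, t ≤ -(m : ℝ) ^ 2 / 3 → lg t ≤ tl m := fun t ht =>
      (lg_le_exp t).trans (Real.exp_le_exp.2 ht)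
    have p : ∀ a b, lg a * lg b ≤ lg a := fun a b =>
      mul_le_of_le_one_right (lg_pos a).le (lg_lt_one b).le
    have q : ∀ a b, lg a * lg b ≤ lg b := fun a b =>
      mul_le_of_le_one_left (lg_pos b).le (lg_lt_one a).le
    have r : ∀ a b c, lg a * lg b * lg c ≤ lg a * lg b := fun a b c =>
      mul_le_of_le_one_right (mul_pos (lg_pos a) (lg_pos b)).le (lg_lt_one c).le
    have hm2 : 0 ≤ (m : ℝ) ^ 2 := sq_nonneg _
    rcases h5 l with a | a | a
    · exact ((r _ _ _).trans (p _ _)).trans (e _ (by nlinarith only [a]))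
    · exact ((r _ _ _).trans (q _ _)).trans (e _ (by nlinarith only [a]))
    · exact (mul_le_of_le_one_left (lg_pos _).le ((p _ _).trans (lg_lt_one _).le)).trans
        (e _ (by nlinarith only [a]))

/-- `Xi = 0`, `Wall = 0` -/
theorem dw_chw : ∀ᶠ m : ℕ in atTop, ∀ (k : Wd m) (l o ew z0 : ℂ) (b : AX → ℂ), Adm m l o ew z0 b →
    Good m k (Xr m l.re) (Tr m o.re) → ∀ ζ, ‖ζ‖ ≤ 1 → Chw m k (dw m k l o ew z0 b ζ) ∧
      Phw m k (dw m k l o ew z0 b ζ) ≤ 4 * mu m ^ 14 ∧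
      ‖dw m k l o ew z0 b ζ jz‖ ≤ 2 * aa m * m ^ 10 := by
  have hL := LL_pos
  filter_upwards [good_small, eventually_gt_atTop 0, GG1_an, cmp_le, win_sub, S0_mem,
    ev_mu' 2 10, ev_tl 700 1 7, ev_pow_le (7002 / LL) (a := 1) (b := 3) (by norm_num)]
    with m hg hm hG hc hw hS h1 h2 h3 k l o ew z0 b ⟨a1, a2, a3, a4, a5⟩ hgood ζ hζ
  obtain ⟨e1, e2', e3, e4, -⟩ := dw_js m k l o ew z0 b ζ
  have m1 : (1 : ℝ) ≤ m := by exact_mod_cast hm
  have u0 := mu_pos m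
  have u1 := mu_le_one m
  have m6 : (1 : ℝ) ≤ (m : ℝ) ^ 6 := one_le_pow₀ m1
  have m10 : (m : ℝ) ^ 6 ≤ (m : ℝ) ^ 10 := pow_le_pow_right₀ m1 (by norm_num)
  have u2 : mu m ≤ 1 / 2 := by nlinarith only [h1, m6, m10]
  have u7 : mu m ^ 7 ≤ mu m := pow_le_of_le_one u0.le u1 (by norm_num)
  have u3 : mu m ^ 7 < 1 / (m : ℝ) ^ 6 := by
    rw [lt_div_iff₀ (by positivity)]
    nlinarith only [h1, u0, m6, m10, u7]
  have u4 : mu m ^ 4 ≤ 1 / 2 := (pow_le_of_le_one u0.le u1 (by norm_num)).trans u2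
  have ee : 0 < e2 m := by
    rw [e2]
    positivity
  have hs : ‖ζ‖ ≤ 1 + 2 * e2 m := by linarith only [hζ, ee]
  obtain ⟨-, g1, -, g2⟩ := hG k ζ o hs (a2.trans u3.le)
  have bw : ‖ew - ζ * GG1 m k ζ o‖ ≤ 1 := by
    refine (norm_sub_le _ _).trans ?_
    rw [norm_mul]
    nlinarith only [norm_nonneg (GG1 m k ζ o), a3, hζ, u4, g1]
  have bv : ∀ j, ‖conj (b j) + b j * ζ ^ 2 - ζ ^ 3 * AA2 m k j ζ o‖ ≤ 1 := fun j => by
    refine (norm_sub_le _ _).trans ((add_le_add (norm_add_le _ _) le_rfl).trans ?_)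
    rw [norm_mul, norm_mul, norm_pow, norm_pow, RCLike.norm_conj]
    have c1 : ‖AA2 m k j ζ o‖ ≤ 1 / 100 := (Finset.single_le_sum
      (f := fun j => ‖AA2 m k j ζ o‖) (fun _ _ => norm_nonneg _) (Finset.mem_univ j)).trans g2
    have c2 := mul_le_of_le_one_right (norm_nonneg (b j)) (pow_le_one₀ (n := 2) (norm_nonneg ζ) hζ)
    have c3 := mul_le_of_le_one_left (norm_nonneg (AA2 m k j ζ o))
      (pow_le_one₀ (n := 3) (norm_nonneg ζ) hζ)
    linarith only [a5 j, c1, c2, c3]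
  have bz : ‖dw m k l o ew z0 b ζ jz‖ ≤ 2 * aa m * m ^ 10 := by
    have c1 := hc k ζ _ l o _ hs (a1.trans u3.le) (a2.trans u3.le) (bw.trans (by norm_num))
      fun j => (bv j).trans (by norm_num)
    have c2 : mu m ^ 14 ≤ aa m := pow_le_pow_of_le_one u0.le u1 (by norm_num)
    have c3 : aa m ≤ aa m * m ^ 10 := le_mul_of_one_le_right (aa_pos m).le (m6.trans m10)
    refine (norm_sub_le z0 _).trans ?_
    linarith only [a4, c1, c2, c3]
  obtain ⟨w1, w2⟩ := hw l.re (hgood.1.trans (by norm_num))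
  have bl' : |l.re| ≤ LL := abs_le.2 ⟨by linarith only [w1, w2], by linarith only [w1, w2]⟩
  have bo : |o.re| ≤ LL := by
    have c1 : 0 ≤ o.re * m ^ 3 := hgood.2.1
    have c2 : o.re * m ^ 3 ≤ 10 * ((700 * m : ℕ) : ℝ) + 2 := hgood.2.2.1
    have c3 : (0 : ℝ) < m ^ 3 := by positivity
    rw [pow_one, div_mul_eq_mul_div, div_le_iff₀ hL] at h3
    push_cast at c2
    rw [abs_of_nonneg (nonneg_of_mul_nonneg_left c1 c3)]
    exact le_of_mul_le_mul_right (by linarith only [h3, m1, c2]) c3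
  have L1 : LL ≤ 1 := by
    rw [LL]
    norm_num
  have hX : XX m (dw m k l o ew z0 b ζ) = Xr m l.re := by rw [XX, e2']
  have hT : TT m (dw m k l o ew z0 b ζ) = Tr m o.re := by rw [TT, e3]
  have hP : Phw m k (dw m k l o ew z0 b ζ) ≤ 4 * mu m ^ 14 := by
    rw [Phw, Xi_zero bw bv (e2' ▸ bl') (e3 ▸ bo), hX, hT, wall_good hgood, e4, ysq, e2', e3, aa]
    have c1 : l.im ^ 2 ≤ (mu m ^ 7) ^ 2 := sq_le_sq' (abs_le.1 a1).1 (abs_le.1 a1).2
    have c2 : o.im ^ 2 ≤ (mu m ^ 7) ^ 2 := sq_le_sq' (abs_le.1 a2).1 (abs_le.1 a2).2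
    have c3 : ‖ew‖ ^ 2 ≤ mu m ^ 7 := (pow_le_pow_left₀ (norm_nonneg _) a3 2).trans (by
      rw [← pow_mul]
      exact pow_le_pow_of_le_one u0.le u1 (by norm_num))
    have c4 : ∑ l', etaR m k l' (Xr m l.re) (Tr m o.re) ≤ mu m ^ 7 := by
      refine (Finset.sum_le_card_nsmul _ _ _ fun l' _ => (hg k _ _ hgood).2 l').trans ?_
      rw [Finset.card_univ, Fintype.card_fin, nsmul_eq_mul, kk, Nat.cast_mul,
        show ((dd : ℕ) : ℝ) = 700 from Nat.cast_ofNat]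
      exact le_of_eq_of_le (by ring) h2
    have c5 := mul_le_of_le_one_left (Finset.sum_nonneg (s := Finset.univ)
      fun l' _ => (etaR_mem m k l' (Xr m l.re) (Tr m o.re)).1) hS.2
    have c6 := mul_le_mul_of_nonneg_left (add_le_add (c5.trans c4) c3) (pow_pos u0 7).le
    linarith only [c1, c2, c6]
  refine ⟨⟨⟨by rw [e1]; linarith only [hζ, ee], e2' ▸ a1.trans_lt u3, e3 ▸ a2.trans_lt u3,
    lt_of_le_of_lt (norm_le_of_coord (c := 2) (by rw [e1]; linarith only [hζ, w1, w2, L1]) (bz.trans ?_)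
      (bw.trans one_le_two) ?_ ?_ fun j => (bv j).trans one_le_two) (by norm_num),
    hX ▸ hgood.1.trans_lt (by norm_num), by rw [hT]; linarith only [hgood.2.1, w1, w2, L1],
    by rw [hT]; linarith only [hgood.2.2.1, w1, w2, L1]⟩, ?_, hP.trans ?_⟩, hP, bz⟩
  · have : aa m * m ^ 10 ≤ mu m * m ^ 10 := mul_le_mul_of_nonneg_right u7 (by positivity)
    linarith only [h1, w1, w2, L1, this]
  · rw [e2']
    linarith only [norm_le_abs_re_add_abs_im l, a1, u2, u7, bl', L1]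
  · rw [e3]
    linarith only [norm_le_abs_re_add_abs_im o, a2, u2, u7, bo, L1]
  · rw [hX, hT]
    exact (hg k _ _ hgood).1.trans (by norm_num)
  · have : mu m ^ 14 ≤ mu m ^ 8 := pow_le_pow_of_le_one u0.le u1 (by norm_num)
    linarith only [pow_pos u0 8, this]

/-- `id_rr`, `sl_win` -/
theorem dw_bdry : Big fun m0 m => ∀ (k : Wd m) (l o ew z0 : ℂ) (b : AX → ℂ), Adm m l o ew z0 b →
    Good m k (Xr m l.re) (Tr m o.re) → ∀ ζ, ‖ζ‖ = 1 → rr m0 (dw m k l o ew z0 b ζ) < 0 := by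
  refine (id_rr.and (Big.of_ev (dw_chw.and (sl_win.and ((ev_tl 1 0 7).and
    ((ev_mu' (6000 * (8 + 4 / Cz)) 40).and (eventually_gt_atTop 0))))))).mono
    fun m0 m _ ⟨h1, h2, h3, h4, h5, hm⟩ k l o ew z0 b ha hgood ζ hζ => ?_
  obtain ⟨c1, c2, c3⟩ := h2 k l o ew z0 b ha hgood ζ hζ.le
  obtain ⟨e1, e2', e3, -, e5⟩ := dw_js m k l o ew z0 b ζ
  have h0 : ζ ≠ 0 := norm_ne_zero_iff.1 (by rw [hζ]; exact one_ne_zero)
  have d1 := (abs_le.1 (h1 k _ c1 (by rw [e1, hζ]; norm_num))).2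
  have hq : qq (dw m k l o ew z0 b ζ) = 1 := by rw [qq, e1, hζ, one_pow]
  simp only [dw_Y m k l o ew z0 b h0, hζ, Er, hq, e1, e2', e3, e5, one_pow, div_one, sub_self,
    mul_zero, zero_pow two_ne_zero, Finset.sum_const_zero, abs_zero] at d1
  have m1 : (1 : ℝ) ≤ m := by exact_mod_cast hm
  have u0 := mu_pos m
  have hC := Cz_pos
  have d2 : (ζ * z0).re ≤ mu m ^ 14 := (re_le_norm _).trans (by
    rw [norm_mul, hζ, one_mul]
    exact ha.2.2.2.1)
  have d3 : ‖dw m k l o ew z0 b ζ jz‖ ^ 2 / Cz ≤ 4 / Cz * (mu m ^ 14 * m ^ 40) := by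
    have : (m : ℝ) ^ 20 ≤ (m : ℝ) ^ 40 := pow_le_pow_right₀ m1 (by norm_num)
    calc _ ≤ (2 * aa m * m ^ 10) ^ 2 / Cz := by gcongr
      _ = 4 / Cz * (mu m ^ 14 * m ^ 20) := by rw [aa]; ring
      _ ≤ _ := by gcongr
  have d4 : aa m * m ^ 40 * (0 + |l.im| + |o.im| + tl m) ≤ 3 * (mu m ^ 14 * m ^ 40) := by
    rw [pow_zero, mul_one, one_mul] at h4
    have := mul_le_mul_of_nonneg_left (add_le_add (add_le_add ha.1 ha.2.1) h4)
      (mul_nonneg (pow_pos u0 7).le (pow_nonneg (Nat.cast_nonneg (α := ℝ) m) 40))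
    rw [aa]
    linarith only [this]
  have d5 : mu m ^ 14 ≤ mu m ^ 14 * m ^ 40 :=
    le_mul_of_one_le_right (pow_pos u0 14).le (one_le_pow₀ m1)
  have d6 := mul_le_mul_of_nonneg_left h5 (pow_pos u0 13).le
  have d7 := (h3 l.re (hgood.1.trans (by norm_num))).1
  have d8 := pow_pos u0 13
  linarith only [c2, d1, d2, d3, d4, d5, d6, d7, d8]

theorem dw_deep : Big fun m0 m => ∀ (k : Wd m) (l o ew z0 : ℂ) (b : AX → ℂ), Adm m l o ew z0 b →
    Good m k (Xr m l.re) (Tr m o.re) → ∀ ζ, ‖ζ‖ ≤ 1 →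
      (tdm m0 m).Deep (some k) (dw m k l o ew z0 b ζ) := by
  refine (Big.of_ev (dw_chw.and (good_small.and (win_sub.and ((ev_mu' 50 0).and
    (ev_mu' (2 / Cz) 10)))))).mono
    fun m0 m _ ⟨h2, h3, h4, h5, h6⟩ k l o ew z0 b ha hgood ζ hζ => ?_
  obtain ⟨c1, c2, c3⟩ := h2 k l o ew z0 b ha hgood ζ hζ
  obtain ⟨e1, e2', e3, -, e5⟩ := dw_js m k l o ew z0 b ζ
  have u0 := mu_pos m
  have u1 := mu_le_one m
  have hL := LL_pos
  have hC := Cz_pos
  rw [pow_zero, mul_one] at h5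
  have p : ∀ n : ℕ, mu m ^ n ≤ ms m (dw m k l o ew z0 b ζ jl).re ^ n := fun n =>
    pow_le_pow_left₀ u0.le (mu_le_ms m _) n
  have d1 := mul_le_mul_of_nonneg_left h5 (pow_pos u0 13).le
  have d2 : mu m ^ 13 ≤ mu m ^ 8 := pow_le_pow_of_le_one u0.le u1 (by norm_num)
  refine ⟨c1.1, ?_, ?_, ?_, ?_, ?_, ?_, fun hq j => ?_⟩
  · change ‖zw m k _‖ ≤ ms m (dw m k l o ew z0 b ζ jl).re ^ 13 / 50
    rw [e5]
    linarith only [p 13, ha.2.2.2.1, d1]
  · change ‖dw m k l o ew z0 b ζ js‖ ^ 2 ≤ 1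
    rw [e1]
    exact pow_le_one₀ (norm_nonneg _) hζ
  · change Phw m k _ ≤ ms m (dw m k l o ew z0 b ζ jl).re ^ 8
    linarith only [p 8, pow_pos u0 14, c2, d1, d2]
  · change gw m k (Xr m (dw m k l o ew z0 b ζ jl).re) (Tr m (dw m k l o ew z0 b ζ jo).re) < 1
    rw [e2', e3]
    exact (h3 k _ _ hgood).1
  · change ‖dw m k l o ew z0 b ζ jz‖ ≤ Cz
    have a1 : aa m * m ^ 10 ≤ mu m * m ^ 10 := mul_le_mul_of_nonneg_right
      (pow_le_of_le_one u0.le u1 (by norm_num)) (by positivity)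
    rw [div_mul_eq_mul_div, div_mul_eq_mul_div, div_le_one hC] at h6
    linarith only [h6, c3, a1]
  · change -LL / 4 < (dw m k l o ew z0 b ζ jl).re
    rw [e2']
    linarith only [(h4 l.re (hgood.1.trans (by norm_num))).1, hL]
  · change 1 / 4 ≤ ‖dw m k l o ew z0 b ζ js‖ ^ 2 at hq
    change |(Yw m k j _).im| ≤ 10 * (1 - ‖dw m k l o ew z0 b ζ js‖ ^ 2)
    rw [e1] at hq ⊢
    have h0 : ζ ≠ 0 := fun h => by
      rw [h, norm_zero] at hq
      norm_num at hq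
    have a1 : ‖ζ‖ ^ 2 ≤ 1 := pow_le_one₀ (norm_nonneg _) hζ
    have a2 : |(b j * ζ).im| ≤ 1 := (abs_im_le_norm _).trans (by
      rw [norm_mul]
      exact mul_le_one₀ ((ha.2.2.2.2 j).trans (by norm_num)) (norm_nonneg _) hζ)
    have a3 : 1 ≤ 1 / ‖ζ‖ ^ 2 := one_le_one_div (by linarith only [hq]) a1
    have a4 : 1 / ‖ζ‖ ^ 2 ≤ 1 + 10 * (1 - ‖ζ‖ ^ 2) := by
      rw [div_le_iff₀ (by linarith only [hq])]
      nlinarith only [hq, a1]
    rw [dw_Y m k l o ew z0 b h0, abs_mul]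
    refine (mul_le_of_le_one_left (abs_nonneg _) a2).trans (abs_le.2 ⟨by linarith only [a4], by linarith only [a1, a3]⟩)


end Pool.Agent.MP_bea40e_an.Iv

end

section

open Filter Topology Set Metric Complex
open scoped ContDiff ComplexConjugate

namespace Pool.Agent.MP_bea40e_an.Iv

/-! Flat discs. -/

theorem pa1_co (ζ l o : ℂ) : pt ζ 0 0 l o 0 js = ζ ∧ pt ζ 0 0 l o 0 jz = 0 ∧
    pt ζ 0 0 l o 0 jw = 0 ∧ pt ζ 0 0 l o 0 jl = l ∧ pt ζ 0 0 l o 0 jo = o ∧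
    ∀ j, pt ζ 0 0 l o 0 (jv j) = 0 :=
  ⟨rfl, rfl, rfl, rfl, rfl, fun _ => rfl⟩

theorem flat_psi {m : ℕ} (ζ : ℂ) (l o : ℝ) (hT : Tr m o ≤ 0) (h : Tr m o ≤ -3 ∨ |Xr m l| ≤ 3) :
    Psi m (pt ζ 0 0 l o 0) = 0 := by
  obtain ⟨-, -, hw, hl, ho, hv⟩ := pa1_co ζ l o
  have hX : XX m (pt ζ 0 0 l o 0) = Xr m l := by
    unfold XX
    rw [hl, Complex.ofReal_re]
  have hTT : TT m (pt ζ 0 0 l o 0) = Tr m o := by
    unfold TT
    rw [ho, Complex.ofReal_re]
  have hQ : Qf (pt ζ 0 0 l o 0) = 0 := by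
    unfold Qf
    rw [hw, Finset.sum_eq_zero fun j _ => by rw [hv j, zero_mul, Complex.zero_im]; norm_num]
    norm_num
  rw [psi_idle (Or.inl (by rw [hTT]; linarith only [hT])), hQ, hX, hTT, wall_early hT h]
  ring

theorem pa1_base (ζ : ℂ) {l o : ℝ} (hl1 : |l| ≤ LL) (ho1 : |o| ≤ LL) :
    base (pt ζ 0 0 l o 0) = HH (‖ζ‖ ^ 2) l - sl l := by
  obtain ⟨hs, hz, hw, hl, ho, hv⟩ := pa1_co ζ l o
  have hXi : Xi (pt ζ 0 0 l o 0) = 0 := by
    refine Xi_zero ?_ (fun j => ?_) ?_ ?_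
    · rw [hw, norm_zero]; norm_num
    · rw [hv j, norm_zero]; norm_num
    · rw [hl, Complex.ofReal_re]; exact hl1
    · rw [ho, Complex.ofReal_re]; exact ho1
  unfold base ysq qq
  rw [hXi, hs, hz, hl, ho, Complex.ofReal_re, Complex.ofReal_im, Complex.ofReal_im, mul_zero,
    Complex.zero_re, norm_zero]
  ring

theorem pa1_cont : Continuous fun t : (ℝ × ℝ) × ℂ => pt t.2 0 0 (t.1.1 : ℝ) (t.1.2 : ℝ) 0 := by
  refine continuous_pi fun i => ?_
  rcases i with i | j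
  · fin_cases i
    · exact continuous_snd
    · exact continuous_const
    · exact continuous_const
    · exact Complex.continuous_ofReal.comp (continuous_fst.comp continuous_fst)
    · exact Complex.continuous_ofReal.comp (continuous_snd.comp continuous_fst)
  · exact continuous_const

theorem pa1_diff (l o : ℂ) : Differentiable ℂ fun ζ : ℂ => pt ζ 0 0 l o 0 := by
  refine differentiable_pi.2 fun i => ?_
  rcases i with i | j
  · fin_cases i
    · exact differentiable_id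
    · exact differentiable_const (0 : ℂ)
    · exact differentiable_const (0 : ℂ)
    · exact differentiable_const l
    · exact differentiable_const o
  · exact differentiable_const (0 : ℂ)

theorem pa1_seed : ∀ᶠ m0 : ℕ in atTop, ∀ ζ : ℂ, ‖ζ‖ ≤ 1 →
    rr m0 (pt ζ 0 0 (-3 / 4 * LL : ℝ) (-LL / 2 : ℝ) 0) < 0 := by
  filter_upwards [FS_left] with m0 hF ζ hζ
  have hL := LL_pos
  have h1 : FS m0 (pt ζ 0 0 (-3 / 4 * LL : ℝ) (-LL / 2 : ℝ) 0) = 0 := by
    refine (hF _ ?_).eq_of_nhds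
    rw [(pa1_co ζ _ _).2.2.2.1, Complex.ofReal_re]
    linarith
  have h2 : ‖ζ‖ ^ 2 ≤ 1 := pow_le_one₀ (norm_nonneg _) hζ
  have h3 : 0 < sl (-3 / 4 * LL) := sl_pos (by linarith only [hL])
  unfold rr
  rw [h1, pa1_base ζ (abs_le.2 ⟨by linarith only [hL], by linarith only [hL]⟩) (abs_le.2 ⟨by linarith only [hL], by linarith only [hL]⟩),
    HH_zero (Or.inr ⟨by linarith only [hL], h2⟩)]
  linarith only [h3]

theorem seed_mem : ∀ᶠ m0 : ℕ in atTop, rr m0 seed < 0 := by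
  filter_upwards [pa1_seed] with m0 h
  exact h 0 (by simp)

theorem pa1_open : ∀ᶠ m0 : ℕ in atTop, IsOpen {x | rr m0 x < 0} := by
  filter_upwards [rr_contDiff] with m0 h
  exact isOpen_lt h.continuous continuous_const

/-- the closed disc is connected, contains the seed, and `rr = -sl` on it -/
theorem reach_seed : ∀ᶠ m0 : ℕ in atTop,
    Reach (DD m0) fun ζ => pt ζ 0 0 (-3 / 4 * LL : ℝ) (-LL / 2 : ℝ) 0 := by
  filter_upwards [pa1_seed, pa1_open] with m0 h ho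
  refine reach_of_subset ho.connectedComponentIn (pa1_diff _ _).diffContOnCl fun ζ hζ => ?_
  have hp : IsPreconnected ((fun ζ => pt ζ 0 0 (-3 / 4 * LL : ℝ) (-LL / 2 : ℝ) 0) ''
      closedBall (0 : ℂ) 1) :=
    (convex_closedBall (0 : ℂ) 1).isPreconnected.image _ (pa1_diff _ _).continuous.continuousOn
  refine hp.subset_connectedComponentIn (x := seed) ⟨0, mem_closedBall_self zero_le_one, rfl⟩ ?_
    (mem_image_of_mem _ hζ)
  rintro _ ⟨t, ht, rfl⟩
  exact h t (mem_closedBall_zero_iff.1 ht)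

/-- `reach_family` on the union of the segments `lam ∈ [-3 L / 4, lc]`, `om = -L / 2` and
`lam = lc`, `om ∈ [-L / 2, 0]`; on the boundary `rr = -sl` by `FS_val`, `FS_win`, `flat_psi` -/
theorem reach_flat : Big fun m0 m => Reach (DD m0) fun ζ => pt ζ 0 0 (lc m : ℝ) 0 0 := by
  have hbig : ∀ᶠ m0 : ℕ in atTop, ∀ m', m0 ≤ m' → 6 / LL * (m' : ℝ) ^ 0 ≤ (m' : ℝ) ^ 3 :=
    (Big.of_ev (ev_pow_le (6 / LL) (by norm_num : 0 < 3))).ev
  refine ((Big.of_ev0 (reach_seed.and (pa1_open.and (FS_val.and hbig)))).and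
    (FS_win.and (Big.of_ev win_sub))).mono ?_
  rintro m0 m - ⟨⟨hs, ho, hv, hb⟩, hw, hn⟩
  have hL := LL_pos
  have hX0 : Xr m (lc m) = 0 := by
    unfold Xr
    ring
  obtain ⟨c1, c2⟩ := hn (lc m) (by rw [hX0]; norm_num)
  have hS : IsPreconnected (Icc (-3 / 4 * LL) (lc m) ×ˢ ({-LL / 2} : Set ℝ) ∪
      ({lc m} : Set ℝ) ×ˢ Icc (-LL / 2) (0 : ℝ)) :=
    IsPreconnected.union (lc m, -LL / 2) ⟨⟨by linarith only [c1, c2], le_rfl⟩, rfl⟩
      ⟨rfl, le_rfl, by linarith only [c1, c2]⟩ (isPreconnected_Icc.prod isPreconnected_singleton)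
      (isPreconnected_singleton.prod isPreconnected_Icc)
  have key := reach_family ho seed hS (fun θ ζ => pt ζ 0 0 (θ.1 : ℝ) (θ.2 : ℝ) 0)
    pa1_cont.continuousOn (fun θ _ => (pa1_diff _ _).diffContOnCl) ?_
    (θ0 := (-3 / 4 * LL, -LL / 2)) (Or.inl ⟨⟨le_rfl, by linarith⟩, rfl⟩) hs (lc m, 0)
    (Or.inr ⟨rfl, by linarith, le_rfl⟩)
  · simpa only [Complex.ofReal_zero, DD] using key
  rintro ⟨l, o⟩ hθ ζ hζ
  have hq : ‖ζ‖ ^ 2 = 1 := by rw [mem_sphere_zero_iff_norm.1 hζ]; norm_num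
  have hlo : -3 / 4 * LL ≤ l ∧ l ≤ lc m ∧ -LL / 2 ≤ o ∧ o ≤ 0 := by
    rcases hθ with ⟨⟨h1, h2⟩, h3⟩ | ⟨h1, h2, h3⟩
    · have h4 : o = -LL / 2 := h3
      exact ⟨h1, h2, h4.ge, by linarith only [c1, c2, h4]⟩
    · have h4 : l = lc m := h1
      exact ⟨by linarith, h4.le, h2, h3⟩
  obtain ⟨a1, a2, a3, a4⟩ := hlo
  have hT : ∀ m' : ℕ, Tr m' o ≤ 0 := fun m' =>
    mul_nonpos_of_nonpos_of_nonneg a4 (by positivity)
  have hF : FS m0 (pt ζ 0 0 l o 0) = 0 := by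
    rcases hθ with ⟨-, h3⟩ | ⟨h1, -⟩
    · have h4 : o = -LL / 2 := h3
      rcases hv (pt ζ 0 0 l o 0) with ⟨m', hm', -, e⟩ | ⟨e, -⟩
      · have h5 := hb m' hm'
        rw [pow_zero, mul_one, div_le_iff₀ hL] at h5
        have h6 : Tr m' o ≤ -3 := by
          unfold Tr
          rw [h4]
          linarith only [h5]
        rw [e]
        unfold fine
        rw [flat_psi ζ l o (hT m') (Or.inl h6)]
        ring
      · exact e
    · have h4 : l = lc m := h1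
      have h5 : XX m (pt ζ 0 0 l o 0) = 0 := by
        unfold XX
        rw [(pa1_co ζ _ _).2.2.2.1, Complex.ofReal_re, h4, hX0]
      rw [(hw _ (by rw [h5]; norm_num)).eq_of_nhds]
      unfold fine
      rw [flat_psi ζ l o (hT m) (Or.inr (by rw [h4, hX0]; norm_num))]
      ring
  have h3 : 0 < sl l := sl_pos (by linarith only [c2, a2])
  change rr m0 (pt ζ 0 0 l o 0) < 0
  unfold rr
  rw [hF, pa1_base ζ (abs_le.2 ⟨by linarith, by linarith only [c1, c2, a2]⟩) (abs_le.2 ⟨by linarith only [c1, c2, a3], by linarith only [c1, c2, a4]⟩),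
    HH_zero (Or.inl hq)]
  linarith only [h3]


end Pool.Agent.MP_bea40e_an.Iv

end

section

open Filter Topology Set Metric Complex
open scoped ContDiff ComplexConjugate

namespace Pool.Agent.MP_bea40e_an.Iv

/-- at `X = T = 0` no node is active -/
theorem start_neg : Big fun m0 m => ∀ x : EE, ‖x js‖ = 1 → x jl = (lc m : ℝ) → x jo = 0 →
    ‖x jz‖ ≤ mu m ^ 14 → ‖x jw‖ ≤ mu m ^ 14 → (∀ j, ‖x (jv j)‖ ≤ mu m ^ 14) → rr m0 x < 0 := by
  refine (FS_win.and (Big.of_ev ((sl_win.and win_sub).and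
    (ev_mu' (6000 * (2802 + 1 / Cz)) 0)))).mono fun m0 m _ h x hs hl ho hz hw hv => ?_
  obtain ⟨hF, ⟨hsl, hwin⟩, hmu⟩ := h
  have hL := LL_pos
  have hL1 : LL ≤ 1 := by norm_num [LL]
  have hC := Cz_pos
  have hp := mu_pos m
  have h1 := mu_le_one m
  have h14 : mu m ^ 14 ≤ 1 := pow_le_one₀ hp.le h1
  have hp14 := pow_pos hp 14
  have hre : (x jl).re = lc m := by rw [hl, ofReal_re]
  have hX0 : Xr m (lc m) = 0 := by simp [Xr]
  have hX : XX m x = 0 := by rw [XX, hre, hX0]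
  have hT : TT m x = 0 := by simp [TT, Tr, ho]
  have hlc := hwin (lc m) (by rw [hX0]; norm_num)
  have hlc' : |lc m| ≤ LL := abs_le.2 ⟨by linarith only [hlc], by linarith only [hlc.2, hlc]⟩
  have hs1 := (hsl (lc m) (by rw [hX0]; norm_num)).1
  have hn : ‖x‖ ≤ 3 := norm_le_of_coord (by linarith only [hs, hL1, hlc]) (by linarith only [hz, hL1, h14, hlc]) (by linarith only [hw, hL1, h14, hlc])
    (by rw [hl, norm_real, Real.norm_eq_abs]; linarith only [hL1, hlc, hlc']) (by rw [ho]; simp)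
    fun j => by linarith only [hv j, hL1, h14, hlc]
  have hF0 : FS m0 x = fine m x := (hF x (by rw [hX]; norm_num)).eq_of_nhds
  have hchi : chi 0 = 1 := by
    unfold chi
    rw [st_zero (by norm_num) (by norm_num), sub_zero]
  have sq14 : ∀ {t : ℝ}, |t| ≤ mu m ^ 14 → t ^ 2 ≤ mu m ^ 14 := fun {t} ht => by
    rw [← sq_abs]
    nlinarith only [abs_nonneg t, h14, ht]
  have hQ : Qf x ≤ 2801 * mu m ^ 14 := by
    have h2 : ∑ j, (x (jv j) * conj (x js)).im ^ 2 ≤ ∑ _j : AX, mu m ^ 14 :=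
      Finset.sum_le_sum fun j _ => sq14 ((abs_im_le_norm _).trans
        (by rw [norm_mul, RCLike.norm_conj, hs, mul_one]; exact hv j))
    have h3 : ∑ _j : AX, mu m ^ 14 = 1400 * mu m ^ 14 := by
      rw [Finset.sum_const, Finset.card_univ, Fintype.card_prod, Fintype.card_bool,
        Fintype.card_fin, nsmul_eq_mul]
      norm_num [dd]
    have h4 := sq14 (t := ‖x jw‖) (by rw [abs_norm]; exact hw)
    unfold Qf
    linarith only [h2, h3, h4]
  have hQ0 : 0 ≤ Qf x :=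
    add_nonneg (sq_nonneg _) (mul_nonneg zero_le_two (Finset.sum_nonneg fun _ _ => sq_nonneg _))
  have ha : aa m ≤ 1 := pow_le_one₀ hp.le h1
  have hf : fine m x ≤ 2801 * mu m ^ 14 := by
    rw [fine, box_one hn, psi_idle (Or.inl (by rw [hT]; norm_num)), hX, hT, hchi,
      wall_early le_rfl (Or.inr (by norm_num))]
    nlinarith only [aa_pos m, hp14, hQ, ha]
  have hq : qq x = 1 := by rw [qq, hs, one_pow]
  have hy : ysq x = 0 := by simp [ysq, hl, ho]
  have hXi : Xi x = 0 := Xi_zero (by linarith only [hw, h14]) (fun j => by linarith only [hv j, h14]) (by rwa [hre])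
    (by simp [ho, hL.le])
  have h5 : (x js * x jz).re ≤ mu m ^ 14 := (re_le_norm _).trans (by rwa [norm_mul, hs, one_mul])
  have h6 : ‖x jz‖ ^ 2 / Cz ≤ 1 / Cz * mu m ^ 14 := by
    rw [one_div_mul_eq_div]
    exact div_le_div_of_nonneg_right (sq14 (by rw [abs_norm]; exact hz)) hC.le
  have h7 : (2802 + 1 / Cz) * mu m ^ 14 ≤ mu m ^ 13 / 6000 := by
    rw [pow_zero, mul_one] at hmu
    have := mul_le_mul_of_nonneg_right hmu (pow_pos hp 13).le
    rw [pow_succ _ 13]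
    linarith only [this]
  have h8 := pow_pos hp 13
  rw [rr, base, hF0, HH_zero (Or.inl hq), hy, hXi, hre]
  linarith only [hs1, hf, h5, h6, h7, h8]

/-- linear interpolation `(1 - θ) • flat + θ • dw`; the coordinates `z, w, v` of `dw` are at most
`m ^ 20 * tl m` (`near_out`, `dw_js`) -/
theorem reach_start : Big fun m0 m => ∀ k : Wd m,
    Reach (DD m0) (dw m k (lc m : ℝ) 0 0 0 0) := by
  refine ((start_neg.and reach_flat).and ((Big.of_ev0 rr_contDiff).and (Big.of_ev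
    ((dw_an.and dw_chw).and (near_out.and (ev_tl 1 20 14)))))).mono fun m0 m _ h k => ?_
  obtain ⟨⟨hneg, hflat⟩, hsm, ⟨han, hchw⟩, hnear, htl⟩ := h
  rw [one_mul] at htl
  have hp := mu_pos m
  have hD := (han k (lc m : ℝ) 0 0 0 0 (by simp only [ofReal_im, abs_zero, one_div, inv_nonneg, Nat.cast_nonneg, pow_succ_nonneg]) (by simp only [zero_im, abs_zero, one_div, inv_nonneg, Nat.cast_nonneg, pow_succ_nonneg])).2
  have hF := hflat.1
  have hadm : Adm m (lc m : ℝ) 0 0 0 0 := by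
    refine ⟨?_, ?_, ?_, ?_, fun j => ?_⟩ <;> simp [hp.le]
  have hgood : Good m k (Xr m ((lc m : ℝ) : ℂ).re) (Tr m (0 : ℂ).re) := by
    have h1 : Xr m ((lc m : ℝ) : ℂ).re = 0 := by simp [Xr]
    have h2 : Tr m (0 : ℂ).re = 0 := by simp [Tr]
    rw [h1, h2]
    refine ⟨by norm_num, le_rfl, by unfold Tend; positivity, fun l hl => ?_⟩
    have : 0 ≤ t0 l := by unfold t0; positivity
    linarith only [hl, this]
  have key := reach_family (Ω := {x | rr m0 x < 0}) (isOpen_lt hsm.continuous continuous_const)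
    seed (S := Icc (0 : ℝ) 1) isPreconnected_Icc
    (fun θ ζ => ((1 - θ : ℝ) : ℂ) • pt ζ 0 0 (lc m : ℝ) 0 0 +
      (θ : ℂ) • dw m k (lc m : ℝ) 0 0 0 0 ζ) ?_ ?_ ?_ (θ0 := 0) (left_mem_Icc.2 zero_le_one)
    (by simpa [DD] using hflat) 1 (right_mem_Icc.2 zero_le_one)
  · simp only [sub_self, ofReal_zero, zero_smul, ofReal_one, one_smul, zero_add] at key
    exact key
  · have c1 : Continuous fun t : ℝ × ℂ => ((1 - t.1 : ℝ) : ℂ) := by fun_prop
    have c2 : Continuous fun t : ℝ × ℂ => (t.1 : ℂ) := by fun_prop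
    exact (c1.continuousOn.smul ((reach_cont hF).comp continuousOn_snd fun t ht => ht.2)).add
      (c2.continuousOn.smul ((reach_cont hD).comp continuousOn_snd fun t ht => ht.2))
  · intro θ _
    have := (DiffContOnCl.const_smul hF ((1 - θ : ℝ) : ℂ)).add (DiffContOnCl.const_smul hD (θ : ℂ))
    exact this
  · intro θ hθ ζ hζ
    have hζ : ‖ζ‖ = 1 := by simpa using hζ
    obtain ⟨c1, c2, c3, c4, c5⟩ := dw_js m k (lc m : ℝ) 0 0 0 0 ζ
    obtain ⟨n1, -, n2, n3⟩ := hnear k _ (hchw k _ _ _ _ _ hadm hgood ζ hζ.le).1.1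
      (by rw [TT, c3]; simp [Tr]; norm_num)
    rw [c5, zero_sub, norm_neg] at n1
    rw [c4, zero_sub, norm_neg] at n2
    have n4 : ∀ j, ‖dw m k (lc m : ℝ) 0 0 0 0 ζ (jv j)‖ ≤ m ^ 20 * tl m := fun j => by
      have h1 := n3 j
      have h2 : dw m k (lc m : ℝ) 0 0 0 0 ζ (jv j) = -(ζ * (ζ ^ 2 * AA2 m k j ζ 0)) := by
        change conj ((0 : AX → ℂ) j) + (0 : AX → ℂ) j * ζ ^ 2 - ζ ^ 3 * AA2 m k j ζ 0 = _
        simp only [Pi.zero_apply, map_zero]
        ring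
      rw [Yw, add_sub_cancel_left, c1, c3] at h1
      rwa [h2, norm_neg, norm_mul, hζ, one_mul]
    have sm : ∀ j, pt ζ 0 0 (lc m : ℝ) 0 0 j = 0 →
        ‖dw m k (lc m : ℝ) 0 0 0 0 ζ j‖ ≤ m ^ 20 * tl m →
        ‖(((1 - θ : ℝ) : ℂ) • pt ζ 0 0 (lc m : ℝ) 0 0 +
          (θ : ℂ) • dw m k (lc m : ℝ) 0 0 0 0 ζ) j‖ ≤ mu m ^ 14 := fun j h1 h2 => by
      rw [Pi.add_apply, Pi.smul_apply, Pi.smul_apply, h1, smul_zero, zero_add, norm_smul, norm_real,
        Real.norm_of_nonneg hθ.1]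
      exact (mul_le_of_le_one_left (norm_nonneg _) hθ.2).trans (h2.trans htl)
    have eq : ∀ j c, pt ζ 0 0 (lc m : ℝ) 0 0 j = c → dw m k (lc m : ℝ) 0 0 0 0 ζ j = c →
        (((1 - θ : ℝ) : ℂ) • pt ζ 0 0 (lc m : ℝ) 0 0 +
          (θ : ℂ) • dw m k (lc m : ℝ) 0 0 0 0 ζ) j = c := fun j c h1 h2 => by
      rw [Pi.add_apply, Pi.smul_apply, Pi.smul_apply, h1, h2, smul_eq_mul, smul_eq_mul]
      push_cast
      ring
    exact hneg _ (by rw [eq js ζ rfl c1, hζ]) (eq jl _ rfl c2) (eq jo _ rfl c3) (sm jz rfl n1)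
      (sm jw rfl n2) fun j => sm (jv j) rfl (n4 j)


end Pool.Agent.MP_bea40e_an.Iv

end

section

open Filter Topology Set Metric Complex
open scoped ContDiff ComplexConjugate

namespace Pool.Agent.MP_bea40e_an.Iv

/-- the parameters of the family -/
noncomputable def pa3l (m : ℕ) (l : ℂ) (p : (ℝ × ℝ) × ℝ) : ℂ :=
  ((lc m + p.1.1 / m ^ 3 : ℝ) : ℂ) + ((p.2 * l.im : ℝ) : ℂ) * I

noncomputable def pa3o (m : ℕ) (o : ℂ) (p : (ℝ × ℝ) × ℝ) : ℂ :=
  ((p.1.2 / m ^ 3 : ℝ) : ℂ) + ((p.2 * o.im : ℝ) : ℂ) * I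

theorem pa3l_re (m : ℕ) (l : ℂ) (p : (ℝ × ℝ) × ℝ) : (pa3l m l p).re = lc m + p.1.1 / m ^ 3 := by
  unfold pa3l
  rw [add_re, ofReal_re, re_ofReal_mul, I_re, mul_zero, add_zero]

theorem pa3l_im (m : ℕ) (l : ℂ) (p : (ℝ × ℝ) × ℝ) : (pa3l m l p).im = p.2 * l.im := by
  unfold pa3l
  rw [add_im, ofReal_im, im_ofReal_mul, I_im, mul_one, zero_add]

theorem pa3o_re (m : ℕ) (o : ℂ) (p : (ℝ × ℝ) × ℝ) : (pa3o m o p).re = p.1.2 / m ^ 3 := by
  unfold pa3o
  rw [add_re, ofReal_re, re_ofReal_mul, I_re, mul_zero, add_zero]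

theorem pa3o_im (m : ℕ) (o : ℂ) (p : (ℝ × ℝ) × ℝ) : (pa3o m o p).im = p.2 * o.im := by
  unfold pa3o
  rw [add_im, ofReal_im, im_ofReal_mul, I_im, mul_one, zero_add]

theorem pa3_X {m : ℕ} (hm : 1 ≤ m) (l : ℂ) (p : (ℝ × ℝ) × ℝ) : Xr m (pa3l m l p).re = p.1.1 := by
  have : (m : ℝ) ≠ 0 := by positivity
  rw [pa3l_re]
  unfold Xr
  field_simp
  ring

theorem pa3_T {m : ℕ} (hm : 1 ≤ m) (o : ℂ) (p : (ℝ × ℝ) × ℝ) : Tr m (pa3o m o p).re = p.1.2 := by
  have : (m : ℝ) ≠ 0 := by positivity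
  rw [pa3o_re]
  unfold Tr
  field_simp

theorem pa3_adm {m : ℕ} {l o ew z0 : ℂ} {b : AX → ℂ} (h : Adm m l o ew z0 b) (p : (ℝ × ℝ) × ℝ)
    (hp : p.2 ∈ Icc (0 : ℝ) 1) :
    Adm m (pa3l m l p) (pa3o m o p) (p.2 * ew) (p.2 * z0) fun j => p.2 * b j := by
  have ha : |p.2| ≤ 1 := by rw [abs_of_nonneg hp.1]; exact hp.2
  have h1 : ∀ y c : ℝ, |y| ≤ c → |p.2 * y| ≤ c := fun y c hy => by
    rw [abs_mul]; exact (mul_le_of_le_one_left (abs_nonneg _) ha).trans hy
  have h2 : ∀ (z : ℂ) (c : ℝ), ‖z‖ ≤ c → ‖(p.2 : ℂ) * z‖ ≤ c := fun z c hz => by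
    rw [norm_mul, norm_real, Real.norm_eq_abs]
    exact (mul_le_of_le_one_left (norm_nonneg _) ha).trans hz
  refine ⟨?_, ?_, h2 _ _ h.2.2.1, h2 _ _ h.2.2.2.1, fun j => h2 _ _ (h.2.2.2.2 j)⟩
  · rw [pa3l_im]; exact h1 _ _ h.1
  · rw [pa3o_im]; exact h1 _ _ h.2.1

theorem pa3_mu : ∀ᶠ m : ℕ in atTop, 1 ≤ m ∧ mu m ^ 7 ≤ 1 / (m : ℝ) ^ 6 := by
  filter_upwards [ev_mu' 1 6, eventually_ge_atTop 1] with m h hm
  refine ⟨hm, ?_⟩
  have h0 : (0 : ℝ) < (m : ℝ) ^ 6 := by positivity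
  have h1 : mu m ^ 7 ≤ mu m := pow_le_of_le_one (mu_pos m).le (mu_le_one m) (by norm_num)
  rw [le_div_iff₀ h0]
  nlinarith only [h, h0, h1]

/-- `reach_family` on `S ×ˢ Icc 0 1` with `S` from `good_conn` and the discs
`dw m k (lc + X / m ^ 3 + θ * im l * I) (T / m ^ 3 + θ * im o * I) (θ * ew) (θ * z0) (θ • b)` -/
theorem reach_dw : Big fun m0 m => ∀ (k : Wd m) (l o ew z0 : ℂ) (b : AX → ℂ), Adm m l o ew z0 b →
    |Xr m l.re| ≤ 1 → 10 * kk m ≤ Tr m o.re → Tr m o.re ≤ 10 * kk m + 1 →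
      Reach (DD m0) (dw m k l o ew z0 b) := by
  refine ((reach_start.and dw_bdry).and ((Big.of_ev (dw_an.and (dw_cont.and pa3_mu))).and
    (Big.of_ev0 rr_contDiff))).mono ?_
  rintro m0 m - ⟨⟨hst, hbd⟩, ⟨han, hco, hm, hmu⟩, hrr⟩ k l o ew z0 b hA hX h1 h2
  obtain ⟨S, hS, h0, hG, hE⟩ := good_conn m k
  have hΩ : IsOpen {x | rr m0 x < 0} := isOpen_lt hrr.continuous continuous_const
  have hne : (m : ℝ) ≠ 0 := by positivity
  have key := reach_family hΩ seed (hS.prod (isPreconnected_Icc (a := (0 : ℝ)) (b := 1)))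
    (fun p => dw m k (pa3l m l p) (pa3o m o p) (p.2 * ew) (p.2 * z0) fun j => p.2 * b j) ?_ ?_ ?_
    (θ0 := ((0, 0), 0)) ⟨h0, le_rfl, zero_le_one⟩ ?_ ((Xr m l.re, Tr m o.re), 1)
    ⟨hE _ _ hX h1 h2, zero_le_one, le_rfl⟩
  · have e1 : pa3l m l ((Xr m l.re, Tr m o.re), 1) = l := by
      refine Complex.ext ?_ ?_
      · rw [pa3l_re]; unfold Xr; field_simp; ring
      · rw [pa3l_im, one_mul]
    have e2 : pa3o m o ((Xr m l.re, Tr m o.re), 1) = o := by
      refine Complex.ext ?_ ?_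
      · rw [pa3o_re]; unfold Tr; field_simp
      · rw [pa3o_im, one_mul]
    simp only [e1, e2, ofReal_one, one_mul] at key
    exact key
  · have hc : Continuous fun t : ((ℝ × ℝ) × ℝ) × ℂ => ((pa3l m l t.1, pa3o m o t.1,
        (t.1.2 : ℂ) * ew, (t.1.2 : ℂ) * z0, fun j => (t.1.2 : ℂ) * b j), t.2) := by
      unfold pa3l pa3o
      fun_prop
    refine ContinuousOn.comp (hco k) hc.continuousOn fun t ht => ?_
    have a := pa3_adm hA t.1 ht.1.2
    exact ⟨a.1.trans hmu, a.2.1.trans hmu, mem_closedBall_zero_iff.1 ht.2⟩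
  · intro p hp
    have a := pa3_adm hA p hp.2
    exact (han k _ _ _ _ _ (a.1.trans hmu) (a.2.1.trans hmu)).2
  · intro p hp ζ hζ
    refine hbd k _ _ _ _ _ (pa3_adm hA p hp.2) ?_ ζ (mem_sphere_zero_iff_norm.1 hζ)
    rw [pa3_X hm, pa3_T hm]
    exact hG _ hp.1
  · have e1 : pa3l m l ((0, 0), 0) = (lc m : ℝ) := by simp [pa3l]
    have e2 : pa3o m o ((0, 0), 0) = 0 := by simp [pa3o]
    simp only [e1, e2, ofReal_zero, zero_mul]
    exact hst k


end Pool.Agent.MP_bea40e_an.Iv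

end

end

-- part MP_bea40e_an.Mg.InfI
section

section

open Filter Topology Set Metric Complex
open scoped ContDiff ComplexConjugate

namespace Pool.Agent.MP_bea40e_an.Iv

theorem fin_cauchy {f G : EE → ℂ} {W : ℂ → EE} (hW : ∀ ζ, ‖ζ‖ ≤ 1 → AnalyticAt ℂ W ζ)
    (hG : ∀ ζ, ‖ζ‖ ≤ 1 → AnalyticAt ℂ G (W ζ)) (h : ∀ ζ, ‖ζ‖ = 1 → G (W ζ) = f (W ζ)) {s : ℂ}
    (hs : ‖s‖ < 1) : cauchy f W s = G (W s) := by
  have h1 : DiffContOnCl ℂ (fun ζ => G (W ζ)) (ball 0 1) := by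
    refine DifferentiableOn.diffContOnCl fun ζ hζ => ?_
    rw [closure_ball _ one_ne_zero, mem_closedBall_zero_iff] at hζ
    exact ((hG ζ hζ).comp (hW ζ hζ)).differentiableAt.differentiableWithinAt
  rw [← h1.two_pi_i_inv_smul_circleIntegral_sub_inv_smul (mem_ball_zero_iff.2 hs), cauchy]
  congr 1
  refine circleIntegral.integral_congr zero_le_one fun ζ hζ => ?_
  simp only [h ζ (mem_sphere_zero_iff_norm.1 hζ)]

theorem fin_mu : ∀ᶠ m : ℕ in atTop, mu m ^ 7 ≤ 1 / (m : ℝ) ^ 6 := by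
  filter_upwards [ev_mu' 1 6, eventually_gt_atTop 0] with m h hm
  have h0 : (0 : ℝ) < (m : ℝ) ^ 6 := by positivity
  have h1 : mu m ^ 7 ≤ mu m := pow_le_of_le_one (mu_pos m).le (mu_le_one m) (by norm_num)
  refine h1.trans ?_
  rw [le_div_iff₀ h0]
  linarith only [h]

theorem fin_good {m : ℕ} {k : Wd m} {x : EE} (h : x ∈ Tset m k) :
    |Xr m (x jl).re| ≤ 1 ∧ 10 * kk m ≤ Tr m (x jo).re ∧ Tr m (x jo).re ≤ 10 * kk m + 1 := by
  obtain ⟨-, h1, h2, h3, h4, -⟩ := h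
  exact ⟨abs_le.2 ⟨by unfold XX at h1; linarith, h2.le⟩, h3.le, h4.le⟩

/-- `TD.Ok.tube`, `dw_deep`, `dw_bdry`; the Cauchy integral of `f` over the boundary is that of
`Ga ∘ dw` (`DiffContOnCl.two_pi_i_inv_smul_circleIntegral_sub_inv_smul`) -/
theorem dw_sep : Big fun m0 m => ∀ (k k' : Wd m), k ≠ k' → ∀ (x : EE) (b b' : AX → ℂ),
    x ∈ Tset m k → x ∈ Tset m k' → Adm m (x jl) (x jo) (ww m k x) (zw m k x) b →
    dw m k (x jl) (x jo) (ww m k x) (zw m k x) b (x js) = x →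
    Adm m (x jl) (x jo) (ww m k' x) (zw m k' x) b' →
    dw m k' (x jl) (x jo) (ww m k' x) (zw m k' x) b' (x js) = x →
    ∃ f : EE → ℂ, DifferentiableOn ℂ f (DD m0) ∧
      cauchy f (dw m k (x jl) (x jo) (ww m k x) (zw m k x) b) (x js) ≠
        cauchy f (dw m k' (x jl) (x jo) (ww m k' x) (zw m k' x) b') (x js) := by
  refine (((tdm_ok.and dw_deep).and dw_bdry).and ((Big.of_ev dw_an).and (Big.of_ev fin_mu))).mono ?_
  rintro m0 m - ⟨⟨⟨hok, hdeep⟩, hbd⟩, han, hmu⟩ k k' hk x b b' hx hx' hb hw hb' hw'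
  obtain ⟨g1, g2, g3⟩ := fin_good hx
  have hs : ‖x js‖ < 1 := hx.1.trans (by norm_num)
  have d1 := hdeep k _ _ _ _ b hb (good_end k g1 g2 g3)
  have d2 := hdeep k' _ _ _ _ b' hb' (good_end k' g1 g2 g3)
  have e1 := hbd k _ _ _ _ b hb (good_end k g1 g2 g3)
  have e2 := hbd k' _ _ _ _ b' hb' (good_end k' g1 g2 g3)
  have hpre : ¬(tdm m0 m).pre (some k) (some k') x := by
    intro hp
    obtain ⟨l, hl⟩ := Function.ne_iff.1 hk
    have h1 : TT m x < t0 l + 3 := hp l hl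
    have h2 : ((l : ℕ) : ℝ) + 1 ≤ kk m := by exact_mod_cast l.2
    unfold t0 at h1
    unfold TT at h1
    linarith only [g2, h1, h2]
  obtain ⟨f, Ga, Gb, hf, ha, hb2, hne⟩ := hok.tube (hw ▸ d1 _ hs.le) (hw' ▸ d2 _ hs.le) hpre
  refine ⟨f, hf.mono (connectedComponentIn_subset _ _), ?_⟩
  rw [fin_cauchy (G := Ga) (han k _ _ _ _ b (hb.1.trans hmu) (hb.2.1.trans hmu)).1
      (fun ζ hζ => (ha _ (d1 ζ hζ)).1) (fun ζ hζ => (ha _ (d1 ζ hζ.le)).2 (e1 ζ hζ)) hs,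
    fin_cauchy (G := Gb) (han k' _ _ _ _ b' (hb'.1.trans hmu) (hb'.2.1.trans hmu)).1
      (fun ζ hζ => (hb2 _ (d2 ζ hζ)).1) (fun ζ hζ => (hb2 _ (d2 ζ hζ.le)).2 (e2 ζ hζ)) hs, hw, hw']
  exact hne

theorem core_DD : ∃ m0 : ℕ, Core js (DD m0) := by
  classical
  obtain ⟨m0, hs, hc, hr, hcr, hb⟩ := (seed_mem.and (rr_contDiff.and (rr_reg.and (crude.and
    (dw_sep.and reach_dw).ev)))).exists
  refine ⟨m0, (isOpen_lt hc.continuous continuous_const).connectedComponentIn,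
    isConnected_connectedComponentIn_iff.2 hs, ?_, ⟨rr m0, hc, comp_frontier hc hr seed⟩,
    fun C => ?_⟩
  · refine (isBounded_closedBall (x := (0 : EE)) (r := 2)).subset fun x hx => ?_
    have h1 : rr m0 x < 0 := connectedComponentIn_subset {x | rr m0 x < 0} seed hx
    exact mem_closedBall_zero_iff.2 (hcr x (h1.le.trans (by norm_num))).1
  · obtain ⟨m, hm, hme, hv⟩ := ((eventually_ge_atTop m0).and (tset_vol C)).exists
    obtain ⟨hsep, hre⟩ := hb m hm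
    have hch : ∀ (k : Wd m) (x : EE), ∃ b : AX → ℂ, x ∈ Tset m k →
        Adm m (x jl) (x jo) (ww m k x) (zw m k x) b ∧
          dw m k (x jl) (x jo) (ww m k x) (zw m k x) b (x js) = x := by
      intro k x
      by_cases hx : x ∈ Tset m k
      · obtain ⟨b, hb⟩ := tset_dw hx
        exact ⟨b, fun _ => hb⟩
      · exact ⟨0, fun h => absurd h hx⟩
    choose B hB using hch
    refine ⟨Wd m, inferInstance, Tset m,
      fun k x => dw m k (x jl) (x jo) (ww m k x) (zw m k x) (B k x), hme, hv, fun k x hx => ?_,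
      fun k k' hk x hx hx' => hsep k k' hk x _ _ hx hx' (hB k x hx).1 (hB k x hx).2 (hB k' x hx').1
        (hB k' x hx').2⟩
    obtain ⟨g1, g2, g3⟩ := fin_good hx
    exact ⟨hre k _ _ _ _ _ (hB k x hx).1 g1 g2 g3, fun ζ => (dw_js m k _ _ _ _ _ ζ).1,
      hx.1.trans (by norm_num), (hB k x hx).2⟩


end Pool.Agent.MP_bea40e_an.Iv

end

end
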