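import Pool.Agent.MP_bea40e_an.Mg.Main

open Filter Topology Set Metric Complex MeasureTheory

namespace Pool.Agent.MP_bea40e_an

open Pool.Agent.Lib.SCV

universe u

variable {n : ℕ} {D D' : Set (Fin n → ℂ)} {X : Type u} [TopologicalSpace X] {π π' : X → Fin n → ℂ}
  {ι : D → X} {Φ Ψ : (Fin n → ℂ) → Fin n → ℂ}

lemma det_fderiv_eq {G : (Fin n → ℂ) → Fin n → ℂ} {z : Fin n → ℂ} (hG : DifferentiableAt ℂ G z) :
    (fderiv ℂ G z).det = ∑ s : Equiv.Perm (Fin n), ((Equiv.Perm.sign s : ℤ) : ℂ) *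
      ∏ i, fderiv ℂ (fun w => G w (s i)) z (Pi.single i 1) := by
  rw [ContinuousLinearMap.det, ← LinearMap.det_toMatrix', Matrix.det_apply']
  simp only [LinearMap.toMatrix'_apply, fderiv_apply hG]
  rfl

/-- the extension of a holomorphic map -/
noncomputable def IsExt.extMap (h : IsExt D π ι) (Φ : (Fin n → ℂ) → Fin n → ℂ) (x : X) :
    Fin n → ℂ := fun j => h.ext (fun z => Φ z j) x

lemma IsExt.analyticAt_extMap (h : IsExt D π ι) (hΦ : DifferentiableOn ℂ Φ D) {c z : Fin n → ℂ}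
    {r : ℝ} {σ : (Fin n → ℂ) → X} (hσ : Chart π c r σ) (hz : z ∈ ball c r) :
    AnalyticAt ℂ (fun w => h.extMap Φ (σ w)) z :=
  AnalyticAt.pi fun j => hσ.analytic (h.ext_spec (differentiableOn_pi.1 hΦ j)).1 hz

lemma IsExt.ext_det (h : IsExt D π ι) (hO : IsOpen D) (hΦ : DifferentiableOn ℂ Φ D) :
    DifferentiableOn ℂ (fun w => (fderiv ℂ Φ w).det) D ∧ ∀ {c z : Fin n → ℂ} {r : ℝ}
      {σ : (Fin n → ℂ) → X}, Chart π c r σ → z ∈ ball c r →
      h.ext (fun w => (fderiv ℂ Φ w).det) (σ z) = (fderiv ℂ (fun w => h.extMap Φ (σ w)) z).det := by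
  have h1 := fun j v => differentiableOn_fderiv_apply hO (differentiableOn_pi.1 hΦ j) v
  have h2 := fun s : Equiv.Perm (Fin n) =>
    diffOn_prod Finset.univ fun i _ => h1 (s i) (Pi.single i 1)
  have h3 := fun s : Equiv.Perm (Fin n) =>
    (differentiableOn_const ((Equiv.Perm.sign s : ℤ) : ℂ)).fun_mul (h2 s)
  have h4 := DifferentiableOn.fun_sum (u := Finset.univ) fun s _ => h3 s
  have h5 := fun w (hw : w ∈ D) => det_fderiv_eq (hΦ.differentiableAt (hO.mem_nhds hw))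
  refine ⟨h4.congr h5, fun hσ hz => ?_⟩
  rw [h.ext_congr h4 h5, h.ext_sum _ fun s _ => h3 s,
    det_fderiv_eq (h.analyticAt_extMap hΦ hσ hz).differentiableAt]
  refine Finset.sum_congr rfl fun s _ => ?_
  rw [h.ext_mul (differentiableOn_const _) (h2 s), h.ext_entire (differentiable_const _),
    h.ext_prod _ fun i _ => h1 _ _]
  congr 1
  exact Finset.prod_congr rfl fun i _ => h.ext_fderiv hO (differentiableOn_pi.1 hΦ _) _ hσ hz

lemma IsExt.ext_ne_zero (h : IsExt D π ι) {f : (Fin n → ℂ) → ℂ} (hf : DifferentiableOn ℂ f D)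
    {c : ℂ} (h0 : ∀ z ∈ D, f z ≠ c) (x : X) : h.ext f x ≠ c := fun e => by
  have h1 := hf.fun_sub (differentiableOn_const c)
  have h2 := fun z hz => sub_ne_zero.2 (h0 z hz)
  have h3 := h.ext_mul h1 (h1.fun_inv h2) x
  rw [h.ext_sub hf (differentiableOn_const c), h.ext_entire (differentiable_const c), e, sub_self,
    zero_mul, h.ext_congr (differentiableOn_const 1) fun z hz => mul_inv_cancel₀ (h2 z hz),
    h.ext_entire (differentiable_const 1)] at h3
  exact one_ne_zero h3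

lemma IsExt.local_biholo (h : IsExt D π ι) (hO : IsOpen D) (hΦ : DifferentiableOn ℂ Φ D)
    (hJ : ∀ z ∈ D, (fderiv ℂ Φ z).det ≠ 0) (x : X) : ∃ G : (Fin n → ℂ) → Fin n → ℂ,
      AnalyticAt ℂ G (π x) ∧ (fderiv ℂ G (π x)).det ≠ 0 ∧ ∀ᶠ y in 𝓝 x, h.extMap Φ y = G (π y) := by
  obtain ⟨r, hr, σ, hσ, hx⟩ := exists_chart h.1 x
  have h0 := mem_ball_self (x := π x) hr
  refine ⟨_, h.analyticAt_extMap hΦ hσ h0, ?_, ?_⟩
  · rw [← (h.ext_det hO hΦ).2 hσ h0]
    exact h.ext_ne_zero (h.ext_det hO hΦ).1 hJ _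
  · have h1 := hσ.left _ h0
    rw [hx] at h1
    exact h1.mono fun y hy => by rw [hy]

section Change

variable (hG : ∀ x, ∃ G : (Fin n → ℂ) → Fin n → ℂ,
  AnalyticAt ℂ G (π x) ∧ (fderiv ℂ G (π x)).det ≠ 0 ∧ ∀ᶠ y in 𝓝 x, π' y = G (π y))

include hG in
lemma isLocalHomeomorph_change (hπ : IsLocalHomeomorph π) : IsLocalHomeomorph π' := by
  refine IsLocalHomeomorph.mk _ fun x => ?_
  obtain ⟨G, h1, h2, h3⟩ := hG x
  obtain ⟨e, hx, rfl⟩ := hπ x
  obtain ⟨U, hU, hUo, hxU⟩ := eventually_nhds_iff.1 h3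
  have h4 : HasStrictFDerivAt G ((fderiv ℂ G (e x)).toContinuousLinearEquivOfDetNeZero h2 :
      (Fin n → ℂ) →L[ℂ] Fin n → ℂ) (e x) := by simpa using h1.hasStrictFDerivAt
  exact ⟨(e.trans (h4.toOpenPartialHomeomorph G)).restrOpen U hUo,
    ⟨⟨hx, h4.mem_toOpenPartialHomeomorph_source⟩, hxU⟩, fun y hy => hU y hy.2⟩

include hG in
lemma hol_change (hπ : Continuous π) {F : X → ℂ} : Hol π' F ↔ Hol π F := by
  refine forall_congr' fun x => ?_
  obtain ⟨G, h1, h2, h3⟩ := hG x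
  constructor
  · rintro ⟨g, hg, hg'⟩
    exact ⟨fun w => g (G w), hg.comp_of_eq h1 h3.self_of_nhds.symm,
      (hg'.and h3).mono fun y hy => hy.1.trans (congrArg g hy.2)⟩
  · rintro ⟨g, hg, hg'⟩
    obtain ⟨χ, h4, h5, h6, -⟩ := exists_local_inverse h1
      ((fderiv ℂ G (π x)).toContinuousLinearEquivOfDetNeZero h2).bijective
    refine ⟨fun w => g (χ w), h3.self_of_nhds ▸ hg.comp_of_eq h4 h5, ?_⟩
    filter_upwards [hg', h3, hπ.continuousAt.eventually h6] with y a1 a2 a3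
    rw [a1, a2, a3]

end Change

theorem IsExt.transfer (h : IsExt D π ι) (hO : IsOpen D) (hO' : IsOpen D')
    (hΦ : DifferentiableOn ℂ Φ D) (hΨ : DifferentiableOn ℂ Ψ D') (m1 : MapsTo Φ D D')
    (m2 : MapsTo Ψ D' D) (hi : InvOn Ψ Φ D D') :
    ∃ h' : IsExt D' (h.extMap Φ) fun w => ι ⟨Ψ w, m2 w.2⟩,
      ∀ f, DifferentiableOn ℂ f D → h'.ext (fun w => f (Ψ w)) = h.ext f := by
  have hJ : ∀ z ∈ D, (fderiv ℂ Φ z).det ≠ 0 := fun z hz => by
    have h1 := fderiv_comp z (hΨ.differentiableAt (hO'.mem_nhds (m1 hz)))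
      (hΦ.differentiableAt (hO.mem_nhds hz))
    rw [EventuallyEq.fderiv_eq (f₁ := Ψ ∘ Φ) (f := id) (eventually_of_mem (hO.mem_nhds hz) hi.1),
      fderiv_id] at h1
    have h2 := congrArg ContinuousLinearMap.det h1
    simp only [ContinuousLinearMap.det, ContinuousLinearMap.coe_id, LinearMap.det_id,
      ContinuousLinearMap.toLinearMap_comp, LinearMap.det_comp] at h2
    exact right_ne_zero_of_mul_eq_one h2.symm
  have hG := h.local_biholo hO hΦ hJ
  have e : ∀ z : D, ι ⟨Ψ (Φ z), m2 (m1 z.2)⟩ = ι z := fun z => congrArg ι (Subtype.ext (hi.1 z.2))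
  have h' : IsExt D' (h.extMap Φ) fun w => ι ⟨Ψ w, m2 w.2⟩ := by
    refine ⟨isLocalHomeomorph_change hG h.1,
      h.2.1.comp (hΨ.continuousOn.domRestrict.subtype_mk _), fun w => funext fun j => ?_,
      fun f hf => ?_⟩
    · exact ((h.ext_spec (differentiableOn_pi.1 hΦ j)).2 _).trans (congrFun (hi.2 w.2) j)
    · have h1 := h.ext_spec (hf.comp hΦ m1)
      refine ⟨_, ⟨(hol_change hG h.1.continuous).2 h1.1, fun w =>
        (h1.2 _).trans (congrArg f (hi.2 w.2))⟩, fun F hF => (h.ext_eq (hf.comp hΦ m1)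
          ((hol_change hG h.1.continuous).1 hF.1) fun z => ?_).symm⟩
      rw [← e z]
      exact hF.2 ⟨Φ z, m1 z.2⟩
  exact ⟨h', fun f hf => h'.ext_eq (hf.comp hΨ m2)
    ((hol_change hG h.1.continuous).2 (h.ext_spec hf).1) fun w => (h.ext_spec hf).2 _⟩

lemma Chart.isOpen_image {c : Fin n → ℂ} {r : ℝ} {σ : (Fin n → ℂ) → X} (h : Chart π c r σ)
    (hπ : Continuous π) : IsOpen (σ '' ball c r) := by
  rw [isOpen_iff_mem_nhds]
  rintro _ ⟨z, hz, rfl⟩
  filter_upwards [h.left z hz, hπ.continuousAt.eventually_mem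
    (isOpen_ball.mem_nhds ((h.right z hz).symm ▸ hz))] with y h1 h2
  exact ⟨_, h2, h1⟩

lemma exists_cover [T2Space X] [Nonempty X] (hπ : IsLocalHomeomorph π)
    (hπ' : IsLocalHomeomorph π') (hc : ∀ w, (π' ⁻¹' {w}).Countable) :
    ∃ (c : ℕ → Fin n → ℂ) (r : ℕ → ℝ) (σ : ℕ → (Fin n → ℂ) → X),
      (∀ k, Chart π' (c k) (r k) (σ k) ∧ InjOn π (σ k '' ball (c k) (r k))) ∧
      ∀ x, ∃ k, x ∈ σ k '' ball (c k) (r k) := by
  obtain ⟨S, hS, hS'⟩ := TopologicalSpace.exists_countable_dense (Fin n → ℂ)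
  let P : X × ℚ → ((Fin n → ℂ) → X) → Prop := fun i σ =>
    Chart π' (π' i.1) i.2 σ ∧ InjOn π (σ '' ball (π' i.1) i.2) ∧ σ (π' i.1) = i.1
  let I : Set (X × ℚ) := {i | π' i.1 ∈ S ∧ ∃ σ, P i σ}
  have hI : I.Countable := ((hS.biUnion fun w _ => hc w).prod
    (countable_univ (α := ℚ))).mono fun i hi => mk_mem_prod (mem_biUnion hi.1 rfl) (mem_univ _)
  have key : ∀ x, ∃ i ∈ I, ∀ σ, P i σ → x ∈ σ '' ball (π' i.1) i.2 := fun x => by
    obtain ⟨r, hr, σ, hσ, hx⟩ := exists_chart hπ' x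
    obtain ⟨U, hU, hxU, hU'⟩ := hπ.isLocallyInjective x
    obtain ⟨ρ, hρ, h1⟩ := Metric.eventually_nhds_iff_ball.1
      (((hσ.cont _ (mem_ball_self hr)).eventually_mem (hU.mem_nhds (hx.symm ▸ hxU))).and
        (ball_mem_nhds _ hr))
    obtain ⟨q, hq, hq'⟩ := exists_rat_btwn (half_pos hρ)
    obtain ⟨c, hc1, hc2⟩ := hS'.exists_mem_open isOpen_ball (nonempty_ball.2 hq :
      (ball (π' x) q).Nonempty)
    have h2 : ball c q ⊆ ball (π' x) ρ := ball_subset_ball' (by rw [mem_ball] at hc2; linarith)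
    have h3 : π' (σ c) = c := hσ.right _ (h1 _ (h2 (mem_ball_self hq))).2
    have h4 : Chart π' c q σ := ⟨fun z hz => hσ.cont z (h1 z (h2 hz)).2,
      fun z hz => hσ.right z (h1 z (h2 hz)).2, fun z hz => hσ.left z (h1 z (h2 hz)).2⟩
    refine ⟨(σ c, q), ⟨h3.symm ▸ hc1, σ, ?_⟩, fun τ hτ => ?_⟩
    · simp only [P, h3]
      exact ⟨h4, hU'.mono (image_subset_iff.2 fun z hz => (h1 z (h2 hz)).1), trivial⟩
    · simp only [P, h3] at hτ ⊢
      refine ⟨π' x, mem_ball_comm.1 hc2, Eq.trans ?_ hx⟩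
      exact (T2Space.isSeparatedMap π').eqOn_of_comp_eqOn hπ'.isLocallyInjective
        (convex_ball c q).isPreconnected (fun z hz => (hτ.1.cont z hz).continuousWithinAt)
        (fun z hz => (h4.cont z hz).continuousWithinAt)
        (fun z hz => (hτ.1.right z hz).trans (h4.right z hz).symm) (mem_ball_self hq) hτ.2.2
        (mem_ball_comm.1 hc2)
  obtain ⟨i₀, hi₀, -⟩ := key (Classical.arbitrary X)
  obtain ⟨g, hg⟩ := hI.exists_eq_range ⟨i₀, hi₀⟩
  choose σ hσ using fun k => (show g k ∈ I from hg ▸ mem_range_self k).2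
  refine ⟨fun k => π' (g k).1, fun k => (g k).2, σ, fun k => ⟨(hσ k).1, (hσ k).2.1⟩, fun x => ?_⟩
  obtain ⟨i, hi, hx⟩ := key x
  obtain ⟨k, rfl⟩ : i ∈ range g := hg ▸ hi
  exact ⟨k, hx _ (hσ k)⟩

lemma tsum_ind (A : ℕ → Set (Fin n → ℂ)) (z : Fin n → ℂ) :
    ∑' k, (A k).indicator (fun _ => (1 : ENNReal)) z = {k | z ∈ A k}.encard := by
  rw [← ENNReal.tsum_set_one, tsum_subtype {k | z ∈ A k} fun _ => (1 : ENNReal)]
  rfl

theorem lintegral_encard_le [T2Space X] [Nonempty X] (hπ : IsLocalHomeomorph π)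
    (hπ' : IsLocalHomeomorph π') (hc : ∀ w, (π' ⁻¹' {w}).Countable) {C : ℝ}
    (hK : ∀ c r σ, Chart π' c r σ → ∀ w ∈ ball c r, DifferentiableAt ℂ (fun w => π (σ w)) w ∧
      ‖(fderiv ℂ (fun w => π (σ w)) w).det‖ ≤ C) :
    ∫⁻ z, ((π ⁻¹' {z}).encard : ENNReal) ≤
      ENNReal.ofReal (C ^ 2) * ∫⁻ w, ((π' ⁻¹' {w}).encard : ENNReal) := by
  obtain ⟨c, r, σ, hσ, hcov⟩ := exists_cover hπ hπ' hc
  let U : ℕ → Set X := fun k => σ k '' ball (c k) (r k)
  let A : ℕ → Set (Fin n → ℂ) := fun k => ball (c k) (r k) ∩ σ k ⁻¹' disjointed U k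
  have hA : ∀ k, MeasurableSet (A k) := fun k => by
    have h1 : IsOpen (ball (c k) (r k) ∩ σ k ⁻¹' ⋃ l ∈ Iio k, U l) :=
      ContinuousOn.isOpen_inter_preimage (fun z hz => ((hσ k).1.cont z hz).continuousWithinAt)
        isOpen_ball (isOpen_biUnion fun l _ => (hσ l).1.isOpen_image hπ'.continuous)
    have h2 : A k = ball (c k) (r k) \ (ball (c k) (r k) ∩ σ k ⁻¹' ⋃ l ∈ Iio k, U l) := by
      ext z
      simp only [A, disjointed_eq_inter_compl, mem_inter_iff, mem_preimage, mem_iInter,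
        mem_compl_iff, Set.mem_sdiff, mem_iUnion, mem_Iio, not_and, not_exists]
      exact ⟨fun h => ⟨h.1, fun _ => h.2.2⟩, fun h => ⟨h.1, mem_image_of_mem _ h.1, h.2 h.1⟩⟩
    exact h2 ▸ measurableSet_ball.diff h1.measurableSet
  let B : ℕ → Set (Fin n → ℂ) := fun k => toMeasurable volume ((fun w => π (σ k w)) '' A k)
  have h1 : ∀ z, (π ⁻¹' {z}).encard ≤ {k | z ∈ B k}.encard := fun z => by
    choose k hk using fun x : X => mem_iUnion.1
      (show x ∈ ⋃ k, disjointed U k from (iUnion_disjointed (f := U)).symm ▸ mem_iUnion.2 (hcov x))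
    refine encard_le_encard_of_injOn (f := k) (fun x hx => ?_) fun x hx y hy e => ?_
    · obtain ⟨w, hw, hw'⟩ := disjointed_subset U _ (hk x)
      exact subset_toMeasurable _ _ ⟨w, ⟨hw, by rw [mem_preimage, hw']; exact hk x⟩,
        (congrArg π hw').trans hx⟩
    · exact (hσ (k x)).2 (disjointed_subset U _ (hk x)) (e ▸ disjointed_subset U _ (hk y))
        (hx.trans hy.symm)
  have h2 : ∀ w, {k | w ∈ A k}.encard ≤ (π' ⁻¹' {w}).encard := fun w =>
    encard_le_encard_of_injOn (f := fun k => σ k w) (fun k hk => (hσ k).1.right w hk.1)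
      fun k hk l hl e => by
        by_contra hkl
        exact disjoint_left.1 (disjoint_disjointed U hkl) hk.2 ((show σ l w = σ k w from e.symm) ▸ hl.2)
  have h3 : ∀ k, volume (B k) ≤ ENNReal.ofReal (C ^ 2) * volume (A k) := fun k => by
    rw [measure_toMeasurable, ← setLIntegral_const]
    refine (addHaar_image_le_lintegral_abs_det_fderiv volume (hA k) fun w hw =>
      ((hK _ _ _ (hσ k).1 w hw.1).1.hasFDerivAt.restrictScalars ℝ).hasFDerivWithinAt).trans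
      (setLIntegral_mono' (hA k) fun w hw => ENNReal.ofReal_le_ofReal ?_)
    have := (hK _ _ _ (hσ k).1 w hw.1).2
    rw [ContinuousLinearMap.det, ContinuousLinearMap.coe_restrictScalars,
      LinearMap.det_restrictScalars, Algebra.norm_complex_apply, normSq_eq_norm_sq, abs_sq]
    exact pow_le_pow_left₀ (norm_nonneg _) this 2
  have h4 : ∀ A : ℕ → Set (Fin n → ℂ), (∀ k, MeasurableSet (A k)) →
      ∫⁻ z, ({k | z ∈ A k}.encard : ENNReal) = ∑' k, volume (A k) := fun A hA => by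
    simp only [← tsum_ind]
    rw [lintegral_tsum fun k => (measurable_const.indicator (hA k)).aemeasurable]
    simp only [lintegral_indicator_const (hA _), one_mul]
  calc _ ≤ _ := lintegral_mono fun z => ENat.toENNReal_le.2 (h1 z)
    _ = _ := h4 B fun k => measurableSet_toMeasurable _ _
    _ ≤ _ := ENNReal.tsum_le_tsum h3
    _ = _ := by rw [ENNReal.tsum_mul_left, ← h4 A hA]
    _ ≤ _ := by gcongr with w; exact h2 w

end Pool.Agent.MP_bea40e_an
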